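import Pool.Agent.Lib.MP_f80667_ag.Pe.DvA

/-! Principal cycles have degree `0` on every variety. -/

open ZC BE

namespace PE

section gen

variable {F : Type} [Field F] {K Ω : Type} [Field K] [Algebra F K] [Field Ω] [Algebra K Ω]
  [Algebra F Ω]

private theorem tpD_deg (V : Vr F) (x : V.pt Ω) (n : ℤ) :
    V.deg Ω (Finsupp.single x n) = n := by
  unfold Vr.deg
  rw [Finsupp.liftAddHom_apply_single]
  rfl

/-- Principal cycles have degree `0`. -/
theorem tpD_main [CharZero K] [IsAlgClosed Ω] (V : Vr F) {z : V.pt Ω →₀ ℤ}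
    (hz : z ∈ V.ratEq K Ω) : V.deg Ω z = 0 := by
  classical
  have hle : V.ratEq K Ω ≤ (V.deg Ω).ker := by
    unfold Vr.ratEq
    rw [AddSubgroup.closure_le]
    rintro z ⟨E, iE, iKE, iFE, iT, hE, g, x, hg, hx, S, m, y, h1, h2, rfl⟩
    change V.deg Ω _ = 0
    rw [map_sum]
    simp only [tpD_deg]
    by_cases htr : Transcendental K g
    swap
    · rw [Transcendental, not_not] at htr
      exact Finset.sum_eq_zero fun w hw => (h2 w hw).1.eq_zero (dvA_alg _ htr) (dvA_alg _ htr.inv)
    have htr' : Transcendental K g⁻¹ := fun hal => htr (by simpa using hal.inv)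
    have hs := Dz.sum_zeros hE htr (S.filter fun w => g ∈ w.V.nonunits) m (fun w => by
      rw [Finset.mem_filter]
      refine ⟨fun h => h.2, fun h => ⟨?_, h⟩⟩
      by_contra hw
      rw [ValuationSubring.mem_nonunits_iff_or] at h
      rcases h with h | h
      · exact hg h
      · exact h (h1 w hw).2) (fun w hw => (h2 w (Finset.mem_filter.1 hw).1).1)
    have hs' := Dz.sum_zeros hE htr' (S.filter fun w => g⁻¹ ∈ w.V.nonunits) (fun w => -(m w))
      (fun w => by
        rw [Finset.mem_filter]
        refine ⟨fun h => h.2, fun h => ⟨?_, h⟩⟩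
        by_contra hw
        exact dvA_not_both (h1 w hw).1 h hg)
      (fun w hw => Dz.ord_inv (h2 w (Finset.mem_filter.1 hw).1).1)
    rw [qe_adj', ← hs, Finset.sum_neg_distrib] at hs'
    have hsum : ∑ w ∈ S, m w = ∑ w ∈ S.filter (fun w => g ∈ w.V.nonunits), m w +
        ∑ w ∈ S.filter (fun w => g⁻¹ ∈ w.V.nonunits), m w := by
      rw [Finset.sum_filter, Finset.sum_filter, ← Finset.sum_add_distrib]
      refine Finset.sum_congr rfl fun w hw => ?_
      by_cases c1 : g ∈ w.V.nonunits
      · have c2 : g⁻¹ ∉ w.V.nonunits := fun h =>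
          dvA_not_both (w.V.nonunits_subset c1) h hg
        rw [if_pos c1, if_neg c2, add_zero]
      · rw [if_neg c1, zero_add]
        by_cases c2 : g⁻¹ ∈ w.V.nonunits
        · rw [if_pos c2]
        · rw [if_neg c2]
          rw [ValuationSubring.mem_nonunits_iff_or, not_or, not_not] at c1 c2
          rw [inv_inv] at c2
          exact (h2 w hw).1.eq_zero c2.2 c1.2
    rw [hsum, ← hs', neg_add_cancel]
  exact hle hz

end gen

end PE
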