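import Pool.Agent.Lib.MP_f80667_ag.Pe.Ke

/-! The main orbit: group actions and traces of cycles. -/

open ZC BE

namespace PE

section abs

variable {Γ X : Type} [Group Γ] [MulAction Γ X]

/-- The sum over the orbit of `x` under the subgroup `U`. -/
private noncomputable def os (U : Subgroup Γ) (x : X) : X →₀ ℤ :=
  trG X (MulAction.stabilizer U x) (Finsupp.single x 1)

private theorem os_fin (hX : ∀ x : X, (MulAction.stabilizer Γ x).FiniteIndex) (U : Subgroup Γ)
    (x : X) : (MulAction.stabilizer U x).FiniteIndex := by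
  have hst := hX x
  have hs : MulAction.stabilizer U x = (MulAction.stabilizer Γ x).subgroupOf U := by
    ext γ
    rw [Subgroup.mem_subgroupOf]
    exact Iff.rfl
  rw [hs]
  exact inferInstance

private theorem os_apply (hX : ∀ x : X, (MulAction.stabilizer Γ x).FiniteIndex) (U : Subgroup Γ)
    (x y : X) [Decidable (y ∈ MulAction.orbit U x)] :
    os U x y = if y ∈ MulAction.orbit U x then 1 else 0 :=
  trG_single_apply x y (os_fin hX U x)

private theorem os_inv (hX : ∀ x : X, (MulAction.stabilizer Γ x).FiniteIndex) (U : Subgroup Γ)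
    (x : X) : ∀ γ ∈ U, Finsupp.mapDomain (fun x => γ • x) (os U x) = os U x := by
  intro γ hγ
  refine smul_trG (os_fin hX U x) (fun δ hδ => ?_) (⟨γ, hγ⟩ : U)
  rw [Finsupp.mapDomain_single, MulAction.mem_stabilizer_iff.1 hδ]

private theorem tr_inv (hX : ∀ x : X, (MulAction.stabilizer Γ x).FiniteIndex) (x : X) (γ : Γ) :
    Finsupp.mapDomain (fun x => γ • x) (trG X (MulAction.stabilizer Γ x) (Finsupp.single x 1)) =
      trG X (MulAction.stabilizer Γ x) (Finsupp.single x 1) :=
  smul_trG (hX x) (fun δ hδ => by
    rw [Finsupp.mapDomain_single, MulAction.mem_stabilizer_iff.1 hδ]) γ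

private theorem tr_orb (hX : ∀ x : X, (MulAction.stabilizer Γ x).FiniteIndex) {x y : X}
    (h : y ∈ MulAction.orbit Γ x) : trG X (MulAction.stabilizer Γ y) (Finsupp.single y 1) =
      trG X (MulAction.stabilizer Γ x) (Finsupp.single x 1) := by
  classical
  ext z
  rw [trG_single_apply y z (hX y), trG_single_apply x z (hX x), MulAction.orbit_eq_iff.2 h]

private theorem os_tr (hX : ∀ x : X, (MulAction.stabilizer Γ x).FiniteIndex) {U : Subgroup Γ}
    (hU : U.FiniteIndex) (x : X) : trG X U (os U x) =
      (MulAction.stabilizer Γ x ⊓ U).relIndex (MulAction.stabilizer Γ x) •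
        trG X (MulAction.stabilizer Γ x) (Finsupp.single x 1) := by
  have hst := hX x
  have hs : MulAction.stabilizer U x = (MulAction.stabilizer Γ x ⊓ U).subgroupOf U := by
    ext γ
    rw [Subgroup.mem_subgroupOf, Subgroup.mem_inf]
    exact ⟨fun hγ => ⟨hγ, γ.2⟩, fun hγ => hγ.1⟩
  have hSfin : (MulAction.stabilizer Γ x ⊓ U).FiniteIndex := inferInstance
  have hinv : ∀ γ ∈ MulAction.stabilizer Γ x,
      Finsupp.mapDomain (fun x => γ • x) (Finsupp.single x (1 : ℤ)) = Finsupp.single x 1 := by
    intro γ hγ
    rw [Finsupp.mapDomain_single, MulAction.mem_stabilizer_iff.1 hγ]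
  have hkey : trG X U (os U x) =
      trG X (MulAction.stabilizer Γ x ⊓ U) (Finsupp.single x 1) := by
    rw [trG_tr hSfin inf_le_right fun γ hγ => hinv γ (Subgroup.mem_inf.1 hγ).1, os]
    congr 1
    have hHU' := os_fin hX U x
    rw [hs] at hHU' ⊢
    rw [trG_apply hHU']
    rfl
  rw [hkey]
  exact trG_res hSfin inf_le_left hinv

private theorem inv_orb {U : Subgroup Γ} {C : X →₀ ℤ}
    (hC : ∀ γ ∈ U, Finsupp.mapDomain (fun x => γ • x) C = C) {x y : X}
    (h : y ∈ MulAction.orbit U x) : C y = C x := by
  obtain ⟨σ, rfl⟩ := h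
  have hinj : Function.Injective (fun x : X => (σ : Γ) • x) :=
    fun p q hpq => smul_left_cancel (σ : Γ) hpq
  calc C ((σ : Γ) • x) = (Finsupp.mapDomain (fun x => (σ : Γ) • x) C)
        ((fun x => (σ : Γ) • x) x) := by rw [hC σ σ.2]
    _ = C x := Finsupp.mapDomain_apply hinj C _

private theorem inv_sub {U : Subgroup Γ} {C D : X →₀ ℤ}
    (hC : ∀ γ ∈ U, Finsupp.mapDomain (fun x => γ • x) C = C)
    (hD : ∀ γ ∈ U, Finsupp.mapDomain (fun x => γ • x) D = D) (n : ℤ) :
    ∀ γ ∈ U, Finsupp.mapDomain (fun x => γ • x) (C - n • D) = C - n • D := by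
  intro γ hγ
  have e : Finsupp.mapDomain (fun x => γ • x) (C - n • D) =
    Finsupp.mapDomain.addMonoidHom (M := ℤ) (fun x : X => γ • x) (C - n • D) := rfl
  rw [e, map_sub, map_zsmul, Finsupp.mapDomain.addMonoidHom_apply,
    Finsupp.mapDomain.addMonoidHom_apply, hC γ hγ, hD γ hγ]

/-- The trace of a cycle with even pairs. -/
private theorem orb_even (hX : ∀ x : X, (MulAction.stabilizer Γ x).FiniteIndex) {U : Subgroup Γ}
    (hU : U.FiniteIndex) {R : AddSubgroup (X →₀ ℤ)}
    (h2 : ∀ z : X →₀ ℤ, (∀ γ : Γ, Finsupp.mapDomain (fun x => γ • x) z = z) → 2 • z ∈ R)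
    (good : X → Prop) (ι : X → X) (hι : ∀ x, good x → ι (ι x) = x) (hιg : ∀ x, good x → good (ι x))
    (hιs : ∀ (γ : Γ) x, good x → ι (γ • x) = γ • ι x) (hg : ∀ (γ : Γ) x, good x → good (γ • x))
    (hio : ∀ x, good x → trG X (MulAction.stabilizer Γ x) (Finsupp.single x 1) +
      trG X (MulAction.stabilizer Γ (ι x)) (Finsupp.single (ι x) 1) ∈ R)
    (hS : ∀ x, good x → ∀ γ : Γ, γ • x = ι x →
      trG X (MulAction.stabilizer Γ x) (Finsupp.single x 1) ∈ R)
    {C : X →₀ ℤ} (hC : ∀ γ ∈ U, Finsupp.mapDomain (fun x => γ • x) C = C)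
    (hbad : ∀ x, ¬ good x → C x ≠ 0 →
      trG X (MulAction.stabilizer Γ x) (Finsupp.single x 1) ∈ R)
    (hev : ∀ x, good x → Odd (C x + C (ι x)) →
      trG X (MulAction.stabilizer Γ x) (Finsupp.single x 1) ∈ R) : trG X U C ∈ R := by
  classical
  induction hn : C.support.card using Nat.strong_induction_on generalizing C with
  | _ n ih =>
    by_cases h0 : C = 0
    · rw [h0, map_zero]
      exact zero_mem _
    · obtain ⟨x, hx⟩ := Finsupp.support_nonempty_iff.2 h0
      have hxC : C x ≠ 0 := Finsupp.mem_support_iff.1 hx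
      -- the set of good points is stable
      have hgi : ∀ (γ : Γ) y, good (γ • y) → good y := by
        intro γ y hy
        have h1 := hg γ⁻¹ _ hy
        rwa [inv_smul_smul] at h1
      have hUo : ∀ {y z : X}, z ∈ MulAction.orbit U y → z ∈ MulAction.orbit Γ y := by
        rintro y z ⟨σ, rfl⟩
        exact ⟨(σ : Γ), rfl⟩
      have hgo : ∀ {y z : X}, z ∈ MulAction.orbit U y → (good z ↔ good y) := by
        rintro y z ⟨σ, rfl⟩
        exact ⟨fun h => hgi (σ : Γ) y h, fun h => hg (σ : Γ) y h⟩
      -- subtract the orbit of `x`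
      have hval : ∀ y, (C - C x • os U x) y = if y ∈ MulAction.orbit U x then 0 else C y := by
        intro y
        rw [Finsupp.sub_apply, Finsupp.smul_apply, os_apply hX]
        split_ifs with h
        · rw [inv_orb hC h, smul_eq_mul, mul_one, sub_self]
        · rw [smul_zero, sub_zero]
      have hCx := inv_sub hC (os_inv hX U x) (C x)
      by_cases hA : ¬ good x ∨ trG X (MulAction.stabilizer Γ x) (Finsupp.single x 1) ∈ R
      · -- the class of `x` is in `R`
        have hxR : trG X (MulAction.stabilizer Γ x) (Finsupp.single x 1) ∈ R := by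
          rcases hA with h | h
          · exact hbad x h hxC
          · exact h
        have hcard : (C - C x • os U x).support.card < n := by
          rw [← hn]
          refine Finset.card_lt_card ((Finset.ssubset_iff_of_subset ?_).2 ⟨x, hx, ?_⟩)
          · intro y hy
            rw [Finsupp.mem_support_iff, hval] at hy
            rw [Finsupp.mem_support_iff]
            intro h
            apply hy
            rw [h, ite_self]
          · rw [Finsupp.mem_support_iff, hval, if_pos (MulAction.mem_orbit_self _)]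
            exact fun h => h rfl
        have h1 := ih _ hcard hCx (fun y hy hy0 => hbad y hy fun h => hy0 (by
          rw [hval, h, ite_self])) (fun y hy hodd => by
            by_cases hyx : y ∈ MulAction.orbit U x
            · rw [tr_orb hX (hUo hyx)]
              exact hxR
            · by_cases hyx' : ι y ∈ MulAction.orbit U x
              · have h3 := hio y hy
                rw [tr_orb hX (hUo hyx')] at h3
                have h4 := sub_mem h3 hxR
                rwa [add_sub_cancel_right] at h4
              · rw [hval, hval, if_neg hyx, if_neg hyx'] at hodd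
                exact hev y hy hodd) rfl
        rw [map_sub, map_zsmul, os_tr hX hU] at h1
        have h5 := add_mem h1 (zsmul_mem (nsmul_mem hxR
          ((MulAction.stabilizer Γ x ⊓ U).relIndex (MulAction.stabilizer Γ x))) (C x))
        rwa [sub_add_cancel] at h5
      · rw [not_or, not_not] at hA
        obtain ⟨hgx, hxR⟩ := hA
        have hev' : Even (C x + C (ι x)) := by
          by_contra h
          exact hxR (hev x hgx (Int.not_even_iff_odd.1 h))
        have hιx : ι x ∉ MulAction.orbit Γ x := by
          rintro ⟨γ, hγ⟩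
          exact hxR (hS x hgx γ hγ)
        have hιx' : ι x ∉ MulAction.orbit U x := fun h => hιx (hUo h)
        -- orbits of `ι x`
        have hιo : ∀ y, good y → (y ∈ MulAction.orbit U x ↔ ι y ∈ MulAction.orbit U (ι x)) := by
          intro y hy
          constructor
          · rintro ⟨σ, rfl⟩
            exact ⟨σ, (hιs (σ : Γ) x hgx).symm⟩
          · rintro ⟨σ, hσ⟩
            refine ⟨σ, ?_⟩
            have h3 : ι ((σ : Γ) • ι x) = ι (ι y) := congrArg ι hσ
            rw [hιs _ _ (hιg x hgx), hι x hgx, hι y hy] at h3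
            exact h3
        have hιo' : ∀ y, good y → (y ∈ MulAction.orbit U (ι x) ↔ ι y ∈ MulAction.orbit U x) := by
          intro y hy
          have h3 := hιo (ι y) (hιg y hy)
          rw [hι y hy] at h3
          exact h3.symm
        have hstab : MulAction.stabilizer Γ (ι x) = MulAction.stabilizer Γ x := by
          ext γ
          rw [MulAction.mem_stabilizer_iff, MulAction.mem_stabilizer_iff]
          constructor
          · intro h
            have h3 : ι (γ • ι x) = ι (ι x) := congrArg ι h
            rwa [hιs _ _ (hιg x hgx), hι x hgx] at h3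
          · intro h
            rw [← hιs γ x hgx, h]
        set D := C - C x • os U x with hD
        have hDι : D (ι x) = C (ι x) := by
          rw [hval, if_neg hιx']
        have hval2 : ∀ y, (D - C (ι x) • os U (ι x)) y =
            if y ∈ MulAction.orbit U (ι x) then 0 else
              if y ∈ MulAction.orbit U x then 0 else C y := by
          intro y
          rw [Finsupp.sub_apply, Finsupp.smul_apply, os_apply hX]
          split_ifs with h h'
          · rw [inv_orb hCx h, hDι, smul_eq_mul, mul_one, sub_self]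
          · rw [smul_zero, sub_zero, hval, if_pos h']
          · rw [smul_zero, sub_zero, hval, if_neg h']
        have hCx2 := inv_sub hCx (os_inv hX U (ι x)) (C (ι x))
        have hcard : (D - C (ι x) • os U (ι x)).support.card < n := by
          rw [← hn]
          refine Finset.card_lt_card ((Finset.ssubset_iff_of_subset ?_).2 ⟨x, hx, ?_⟩)
          · intro y hy
            rw [Finsupp.mem_support_iff, hval2] at hy
            rw [Finsupp.mem_support_iff]
            intro h
            apply hy
            rw [h, ite_self, ite_self]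
          · rw [Finsupp.mem_support_iff, hval2, if_pos (MulAction.mem_orbit_self _), ite_self]
            exact fun h => h rfl
        have h1 := ih _ hcard hCx2 (fun y hy hy0 => hbad y hy fun h => hy0 (by
          rw [hval2, h, ite_self, ite_self])) (fun y hy hodd => by
            rw [hval2, hval2] at hodd
            by_cases ha : y ∈ MulAction.orbit U (ι x)
            · have hb := (hιo' y hy).1 ha
              rw [if_pos ha, if_pos hb, ite_self, add_zero] at hodd
              exact absurd hodd (by decide)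
            · by_cases hb : y ∈ MulAction.orbit U x
              · have hc := (hιo y hy).1 hb
                rw [if_neg ha, if_pos hb, if_pos hc, add_zero] at hodd
                exact absurd hodd (by decide)
              · rw [if_neg ha, if_neg hb, if_neg (fun h => hb ((hιo y hy).2 h)),
                  if_neg (fun h => ha ((hιo' y hy).2 h))] at hodd
                exact hev y hy hodd) rfl
        rw [hD, map_sub, map_zsmul, map_sub, map_zsmul, os_tr hX hU, os_tr hX hU, hstab] at h1
        have h3 := hio x hgx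
        rw [hstab] at h3
        have h4 := h2 _ (tr_inv hX x)
        obtain ⟨k, hk⟩ := hev'
        set m := (MulAction.stabilizer Γ x ⊓ U).relIndex (MulAction.stabilizer Γ x) with hm
        set a := trG X (MulAction.stabilizer Γ x) (Finsupp.single x 1) with ha
        set b := trG X (MulAction.stabilizer Γ x) (Finsupp.single (ι x) 1) with hb
        have h5 : trG X U C = (trG X U C - C x • m • a - C (ι x) • m • b) +
            ((C (ι x) * m) • (a + b) + ((k - C (ι x)) * m) • (2 • a)) := by
          have h6 : C x = 2 * k - C (ι x) := by linarith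
          rw [h6]
          module
        rw [h5]
        exact add_mem h1 (add_mem (zsmul_mem h3 _) (zsmul_mem h4 _))

/-- **The main orbit** (see `orb_main` in `Kf/Tp.lean`). -/
theorem orb_mainO (hX : ∀ x : X, (MulAction.stabilizer Γ x).FiniteIndex) {U : Subgroup Γ}
    (hU : U.FiniteIndex) {R : AddSubgroup (X →₀ ℤ)}
    (h2 : ∀ z : X →₀ ℤ, (∀ γ : Γ, Finsupp.mapDomain (fun x => γ • x) z = z) → 2 • z ∈ R)
    {C : X →₀ ℤ} (hC : ∀ γ ∈ U, Finsupp.mapDomain (fun x => γ • x) C = C) (htr : trG X U C ∈ R)
    (good : X → Prop) (ι : X → X) (hι : ∀ x, good x → ι (ι x) = x) (hιg : ∀ x, good x → good (ι x))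
    (hιs : ∀ (γ : Γ) x, good x → ι (γ • x) = γ • ι x) (hg : ∀ (γ : Γ) x, good x → good (γ • x))
    (hbad : ∀ x, ¬ good x → C x ≠ 0 →
      trG X (MulAction.stabilizer Γ x) (Finsupp.single x 1) ∈ R)
    (hio : ∀ x, good x → trG X (MulAction.stabilizer Γ x) (Finsupp.single x 1) +
      trG X (MulAction.stabilizer Γ (ι x)) (Finsupp.single (ι x) 1) ∈ R)
    (hS : ∀ x, good x → ∀ γ : Γ, γ • x = ι x →
      trG X (MulAction.stabilizer Γ x) (Finsupp.single x 1) ∈ R) {x₀ : X} (h₀ : good x₀)
    (hst : MulAction.stabilizer Γ x₀ ≤ U) (hodd : Odd (C x₀ + C (ι x₀)))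
    (hoth : ∀ x, good x → Odd (C x + C (ι x)) → (∀ γ ∈ U, γ • x₀ ≠ x ∧ γ • x₀ ≠ ι x) →
      trG X (MulAction.stabilizer Γ x) (Finsupp.single x 1) ∈ R) :
    trG X (MulAction.stabilizer Γ x₀) (Finsupp.single x₀ 1) ∈ R := by
  classical
  by_contra hxR
  have hιx : ∀ γ : Γ, γ • x₀ ≠ ι x₀ := fun γ h => hxR (hS x₀ h₀ γ h)
  have hgo : ∀ {y : X}, y ∈ MulAction.orbit U x₀ → good y := by
    rintro y ⟨σ, rfl⟩
    exact hg (σ : Γ) x₀ h₀
  have hval : ∀ y, (C - (1 : ℤ) • os U x₀) y = C y - if y ∈ MulAction.orbit U x₀ then 1 else 0 := by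
    intro y
    rw [Finsupp.sub_apply, Finsupp.smul_apply, os_apply hX, one_smul]
  have hCx := inv_sub hC (os_inv hX U x₀) 1
  -- the orbit and its image are different
  have hdis : ∀ {y : X}, y ∈ MulAction.orbit U x₀ → ι y ∉ MulAction.orbit U x₀ := by
    rintro y ⟨σ, rfl⟩ ⟨τ, hτ⟩
    have h1 : (τ : Γ) • x₀ = ι ((σ : Γ) • x₀) := hτ
    rw [hιs _ _ h₀] at h1
    refine hιx ((σ : Γ)⁻¹ * (τ : Γ)) ?_
    rw [mul_smul, h1, inv_smul_smul]
  have key := orb_even hX hU h2 good ι hι hιg hιs hg hio hS hCx (fun y hy hy0 => by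
    refine hbad y hy fun h => hy0 ?_
    rw [hval, h, if_neg (fun h => hy (hgo h)), sub_zero]) (fun y hy hod => by
    rw [hval, hval] at hod
    by_cases ha : y ∈ MulAction.orbit U x₀
    · rw [if_pos ha, if_neg (hdis ha), sub_zero] at hod
      have h1 : C y = C x₀ := inv_orb hC ha
      have h3 : C (ι y) = C (ι x₀) := by
        refine inv_orb hC ?_
        obtain ⟨σ, rfl⟩ := ha
        exact ⟨σ, (hιs (σ : Γ) x₀ h₀).symm⟩
      rw [h1, h3] at hod
      obtain ⟨a, ha'⟩ := hod
      obtain ⟨b, hb'⟩ := hodd
      omega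
    · by_cases hb : ι y ∈ MulAction.orbit U x₀
      · rw [if_neg ha, if_pos hb, sub_zero] at hod
        have h1 : C (ι y) = C x₀ := inv_orb hC hb
        have h3 : C y = C (ι x₀) := by
          refine inv_orb hC ?_
          obtain ⟨σ, hσ⟩ := hb
          refine ⟨σ, ?_⟩
          have h4 : ι ((σ : Γ) • x₀) = ι (ι y) := congrArg ι hσ
          rw [hιs _ _ h₀, hι y hy] at h4
          exact h4
        rw [h1, h3] at hod
        obtain ⟨a, ha'⟩ := hod
        obtain ⟨b, hb'⟩ := hodd
        omega
      · rw [if_neg ha, if_neg hb, sub_zero, sub_zero] at hod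
        exact hoth y hy hod fun γ hγ => ⟨fun h => ha ⟨⟨γ, hγ⟩, h⟩, fun h => hb ⟨⟨γ, hγ⟩, h⟩⟩)
  have hinf : MulAction.stabilizer Γ x₀ ⊓ U = MulAction.stabilizer Γ x₀ := inf_eq_left.2 hst
  rw [map_sub, one_smul, os_tr hX hU, hinf, Subgroup.relIndex_self, one_smul] at key
  have h5 := sub_mem htr key
  rw [sub_sub_cancel] at h5
  exact hxR h5

end abs

end PE
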