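import Pool.Agent.Lib.MP_f80667_ag.Kf.Pts
import Pool.Agent.Lib.MP_f80667_ag.Pe.Ke
import Pool.Agent.Lib.MP_f80667_ag.Kf.TpO
import Pool.Agent.Lib.MP_f80667_ag.Kf.TpD

/-!
* `R2 f g K Ω`: the group generated by the zero-cycles over `K` rationally equivalent to `0`, the zero-cycles `2 c`, and the point `O`.
* `Tp f g K p`: the closed point `p` of the surface over `K` is in `R2`.
-/

open ZC BE Polynomial IntermediateField

namespace PE

section abs

variable {Γ X : Type} [Group Γ] [MulAction Γ X]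

/-- The trace of the point `x`. -/
noncomputable def tq (Γ : Type) {X : Type} [Group Γ] [MulAction Γ X] (x : X) : X →₀ ℤ :=
  trG X (MulAction.stabilizer Γ x) (Finsupp.single x 1)

/-- The trace of a point from a larger field. Proof: `trG_res`. -/
theorem tr_pt (hX : ∀ x : X, (MulAction.stabilizer Γ x).FiniteIndex) {U : Subgroup Γ}
    (hU : U.FiniteIndex) {x : X} (h : U ≤ MulAction.stabilizer Γ x) :
    trG X U (Finsupp.single x 1) = U.relIndex (MulAction.stabilizer Γ x) • tq Γ x :=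
  trG_res hU h fun γ hγ => by
    rw [Finsupp.mapDomain_single, MulAction.mem_stabilizer_iff.1 hγ]

/-- The trace of a cycle invariant under `U` all of whose points have traces in `R`. Proof: `C` is a combination of sums over orbits of `U` (as `inv_gen` in `Pe/Kn.lean` for the group `U`); `trG_tr`, `tr_pt`. -/
theorem tr_all (hX : ∀ x : X, (MulAction.stabilizer Γ x).FiniteIndex) {U : Subgroup Γ}
    (hU : U.FiniteIndex) {R : AddSubgroup (X →₀ ℤ)} {C : X →₀ ℤ}
    (hC : ∀ γ ∈ U, Finsupp.mapDomain (fun x => γ • x) C = C)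
    (h : ∀ x, C x ≠ 0 → tq Γ x ∈ R) : trG X U C ∈ R := by
  classical
  induction hn : C.support.card using Nat.strong_induction_on generalizing C with
  | _ n ih =>
    by_cases h0 : C = 0
    · rw [h0, map_zero]
      exact zero_mem _
    · obtain ⟨x, hx⟩ := Finsupp.support_nonempty_iff.2 h0
      have hxC : C x ≠ 0 := Finsupp.mem_support_iff.1 hx
      have hst := hX x
      -- the group `U` acting on `X`
      have hs : MulAction.stabilizer U x =
          (MulAction.stabilizer Γ x ⊓ U).subgroupOf U := by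
        ext γ
        rw [Subgroup.mem_subgroupOf, Subgroup.mem_inf]
        exact ⟨fun hγ => ⟨hγ, γ.2⟩, fun hγ => hγ.1⟩
      have hSfin : (MulAction.stabilizer Γ x ⊓ U).FiniteIndex :=
        inferInstance
      have hHU : (MulAction.stabilizer U x).FiniteIndex := by
        rw [hs]
        exact inferInstance
      have hinvU : ∀ γ ∈ MulAction.stabilizer U x,
          Finsupp.mapDomain (fun x => γ • x) (Finsupp.single x (1 : ℤ)) = Finsupp.single x 1 := by
        intro γ hγ
        rw [Finsupp.mapDomain_single, MulAction.mem_stabilizer_iff.1 hγ]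
      have hinvS : ∀ γ ∈ MulAction.stabilizer Γ x ⊓ U,
          Finsupp.mapDomain (fun x => γ • x) (Finsupp.single x (1 : ℤ)) = Finsupp.single x 1 := by
        intro γ hγ
        rw [Finsupp.mapDomain_single, MulAction.mem_stabilizer_iff.1 (Subgroup.mem_inf.1 hγ).1]
      have hti : ∀ γ : U, Finsupp.mapDomain (fun x => γ • x)
          (trG X (MulAction.stabilizer U x) (Finsupp.single x 1)) =
          trG X (MulAction.stabilizer U x) (Finsupp.single x 1) :=
        fun σ => smul_trG hHU hinvU σ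
      have hkey : trG X U (trG X (MulAction.stabilizer U x) (Finsupp.single x 1)) =
          trG X (MulAction.stabilizer Γ x ⊓ U) (Finsupp.single x 1) := by
        rw [trG_tr hSfin inf_le_right hinvS]
        congr 1
        have hHU' := hHU
        rw [hs] at hHU' ⊢
        rw [trG_apply hHU']
        rfl
      have htR : trG X U (trG X (MulAction.stabilizer U x) (Finsupp.single x 1)) ∈ R := by
        rw [hkey, tr_pt hX hSfin inf_le_left]
        exact nsmul_mem (h x hxC) _
      set t := trG X (MulAction.stabilizer U x) (Finsupp.single x 1) with ht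
      have hz' : ∀ γ ∈ U, Finsupp.mapDomain (fun x => γ • x) (C - C x • t) = C - C x • t := by
        intro γ hγ
        have e : Finsupp.mapDomain (fun x => γ • x) (C - C x • t) =
          Finsupp.mapDomain.addMonoidHom (M := ℤ) (fun x : X => γ • x) (C - C x • t) := rfl
        have e2 : Finsupp.mapDomain (fun x => γ • x) t = t := hti ⟨γ, hγ⟩
        rw [e, map_sub, map_zsmul, Finsupp.mapDomain.addMonoidHom_apply,
          Finsupp.mapDomain.addMonoidHom_apply, hC γ hγ, e2]
      have hval : ∀ x' ∈ MulAction.orbit U x, C x' = C x := by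
        rintro _ ⟨σ, rfl⟩
        have h1 := hC σ σ.2
        have hinj : Function.Injective (fun x : X => (σ : Γ) • x) :=
          fun p q hpq => smul_left_cancel (σ : Γ) hpq
        calc C ((σ : Γ) • x) = (Finsupp.mapDomain (fun x => (σ : Γ) • x) C)
              ((fun x => (σ : Γ) • x) x) := by rw [h1]
          _ = C x := Finsupp.mapDomain_apply hinj C _
      have hval' : ∀ x', (C - C x • t) x' =
          if x' ∈ MulAction.orbit U x then 0 else C x' := by
        intro x'
        rw [Finsupp.sub_apply, Finsupp.smul_apply, ht, trG_single_apply _ _ hHU]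
        split_ifs with h
        · rw [hval x' h, smul_eq_mul, mul_one, sub_self]
        · rw [smul_zero, sub_zero]
      have hcard : (C - C x • t).support.card < n := by
        rw [← hn]
        refine Finset.card_lt_card ((Finset.ssubset_iff_of_subset ?_).2 ⟨x, hx, ?_⟩)
        · intro x' hx'
          rw [Finsupp.mem_support_iff, hval'] at hx'
          rw [Finsupp.mem_support_iff]
          intro h
          apply hx'
          rw [h, ite_self]
        · rw [Finsupp.mem_support_iff, hval', if_pos (MulAction.mem_orbit_self _)]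
          exact fun h => h rfl
      have h1 := ih _ hcard hz' (fun x' hx' => h x' fun h0 => hx' (by
        rw [hval', h0, ite_self])) rfl
      have h2 := add_mem h1 (zsmul_mem htR (C x))
      rwa [map_sub, map_zsmul, sub_add_cancel] at h2

/-- **The main orbit.** Let `C` be a cycle invariant under `U` whose trace is in `R`. Proof: work modulo `R`. For a point `x` let `τ x` be the class of `trG X (U ⊓ stabilizer x) [x]`; it depends only on the `U`-orbit of `x`, it is a
multiple of the class of `tq Γ x` (`tr_pt`), and the class of `trG X U C` is the sum of `C x • τ x` over the `U`-orbits (`trG_tr`). The orbits of bad points do not contribute. For good points `τ (ι x) = - τ x = τ x` (`hio`, `h2`). If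
`ι x` is in the `Γ`-orbit of `x` then `τ x = 0` (`hS`). The involution `ι` of the remaining orbits has no fixed points with `τ x ≠ 0`, so the sum over the orbits other than those of `x₀`, `ι x₀` is `0` (`Finset.sum_involution`: `C x • τ x + C (ι x) • τ (ι x) = (C x + C (ι x)) • τ x = 0`).
The two orbits of `x₀` and `ι x₀` (different, otherwise `hS` for `x₀`) contribute `(C x₀ + C (ι x₀)) • τ x₀ = τ x₀` and `τ x₀` is the class of `tq Γ x₀` because `stabilizer x₀ ≤ U`. -/
theorem orb_main (hX : ∀ x : X, (MulAction.stabilizer Γ x).FiniteIndex) {U : Subgroup Γ}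
    (hU : U.FiniteIndex) {R : AddSubgroup (X →₀ ℤ)}
    (h2 : ∀ z : X →₀ ℤ, (∀ γ : Γ, Finsupp.mapDomain (fun x => γ • x) z = z) → 2 • z ∈ R)
    {C : X →₀ ℤ} (hC : ∀ γ ∈ U, Finsupp.mapDomain (fun x => γ • x) C = C) (htr : trG X U C ∈ R)
    (good : X → Prop) (ι : X → X) (hι : ∀ x, good x → ι (ι x) = x) (hιg : ∀ x, good x → good (ι x))
    (hιs : ∀ (γ : Γ) x, good x → ι (γ • x) = γ • ι x) (hg : ∀ (γ : Γ) x, good x → good (γ • x))
    (hbad : ∀ x, ¬ good x → C x ≠ 0 → tq Γ x ∈ R)
    (hio : ∀ x, good x → tq Γ x + tq Γ (ι x) ∈ R)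
    (hS : ∀ x, good x → ∀ γ : Γ, γ • x = ι x → tq Γ x ∈ R) {x₀ : X} (h₀ : good x₀)
    (hst : MulAction.stabilizer Γ x₀ ≤ U) (hodd : Odd (C x₀ + C (ι x₀)))
    (hoth : ∀ x, good x → Odd (C x + C (ι x)) → (∀ γ ∈ U, γ • x₀ ≠ x ∧ γ • x₀ ≠ ι x) → tq Γ x ∈ R) :
    tq Γ x₀ ∈ R :=
  orb_mainO hX hU h2 hC htr good ι hι hιg hιs hg hbad hio hS h₀ hst hodd hoth

end abs

variable {F : Type} [Field F] (f g : F[X]) [C3 f] [C3 g] (K : Type) [Field K] [Algebra F K]
  (Ω : Type) [Field Ω] [Algebra K Ω] [Algebra F Ω] [IsScalarTower F K Ω]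

/-- The cycles rationally equivalent to `0`, twice the cycles, the point `O`. -/
noncomputable def R2 : AddSubgroup ((Kv f g).pt Ω →₀ ℤ) :=
  (Kv f g).ratEq K Ω ⊔ ((Kv f g).cyc K Ω).map (nsmulAddMonoidHom 2) ⊔
    AddSubgroup.zmultiples (Finsupp.single (oo f g Ω) 1)

variable {Ω}

/-- The closed point `p` is in `R2`. -/
def Tp (p : (Kv f g).pt Ω) : Prop := tq (Ω ≃ₐ[K] Ω) p ∈ R2 f g K Ω

variable {f g K}

theorem r2_ratEq {z : (Kv f g).pt Ω →₀ ℤ} (hz : z ∈ (Kv f g).ratEq K Ω) : z ∈ R2 f g K Ω :=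
  AddSubgroup.mem_sup_left (AddSubgroup.mem_sup_left hz)

theorem r2_two {z : (Kv f g).pt Ω →₀ ℤ} (hz : z ∈ (Kv f g).cyc K Ω) : 2 • z ∈ R2 f g K Ω :=
  AddSubgroup.mem_sup_left (AddSubgroup.mem_sup_right ⟨z, hz, rfl⟩)

theorem r2_oo : Finsupp.single (oo f g Ω) 1 ∈ R2 f g K Ω :=
  AddSubgroup.mem_sup_right (AddSubgroup.mem_zmultiples _)

/-- The point `O` is a cycle over `K`. -/
private theorem tpc_oo : Finsupp.single (oo f g Ω) 1 ∈ (Kv f g).cyc K Ω := by
  intro σ
  rw [Finsupp.mapDomain_single]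
  exact congrArg (fun x => Finsupp.single x (1 : ℤ)) (oo_act σ)

variable [CharZero K] [IsAlgClosure K Ω]

/-- **Principal cycles have degree `0`.** Proof: a generator of `ratEq` for `g`, `S`, `m` has the degree `∑ w ∈ S, m w`. If `g` is algebraic over `K` then `g` and `g⁻¹` are in `w.V` for all places, so all `m w` are `0`. Otherwise `g`, `g⁻¹` are transcendental, the zeros of `g` and those of `g⁻¹` are in `S`, and both sums of
orders are `[E : K(g)]` (`Dz.sum_zeros` of `Dz/Main.lean`, `K(g) = K(g⁻¹)`; compare `Pe/DvA.lean`, `Pe/Bq.lean`). -/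
theorem ratEq_deg (V : Vr F) {z : V.pt Ω →₀ ℤ} (hz : z ∈ V.ratEq K Ω) : V.deg Ω z = 0 := by
  have := IsAlgClosure.isAlgClosed (R := K) (K := Ω)
  exact tpD_main V hz

/-- The elements of degree `0`. Proof: `z = r + 2 c + n [O]` (`AddSubgroup.mem_sup`), `deg r = 0` (`ratEq_deg`), `n = - 2 deg c`, `z' = c - deg c [O]`. -/
theorem r2_D0 {z : (Kv f g).pt Ω →₀ ℤ} (hz : z ∈ (Kv f g).D0 K Ω) (h : z ∈ R2 f g K Ω) :
    ∃ z' ∈ (Kv f g).D0 K Ω, z - 2 • z' ∈ (Kv f g).ratEq K Ω := by
  obtain ⟨u, hu, o, ho, rfl⟩ := AddSubgroup.mem_sup.1 h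
  obtain ⟨r, hr, d, hd, rfl⟩ := AddSubgroup.mem_sup.1 hu
  obtain ⟨c, hc, rfl⟩ := hd
  obtain ⟨n, rfl⟩ := AddSubgroup.mem_zmultiples_iff.1 ho
  have hr0 : (Kv f g).deg Ω r = 0 := ratEq_deg _ hr
  have hO1 : (Kv f g).deg Ω (Finsupp.single (oo f g Ω) 1) = 1 := by
    rw [Vr.deg, Finsupp.liftAddHom_apply_single, AddMonoidHom.id_apply]
  have hz0 : (Kv f g).deg Ω (r + (nsmulAddMonoidHom 2) c + n • Finsupp.single (oo f g Ω) 1) = 0 :=
    hz.2
  rw [nsmulAddMonoidHom_apply, map_add, map_add, hr0, map_nsmul, map_zsmul, hO1] at hz0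
  have hn : n = - (2 * (Kv f g).deg Ω c) := by
    rw [smul_eq_mul, nsmul_eq_mul] at hz0
    push_cast at hz0
    linarith
  refine ⟨c - (Kv f g).deg Ω c • Finsupp.single (oo f g Ω) 1, ⟨?_, ?_⟩, ?_⟩
  · exact (Kv f g).cyc K Ω |>.sub_mem hc ((Kv f g).cyc K Ω |>.zsmul_mem tpc_oo _)
  · change (Kv f g).deg Ω (c - (Kv f g).deg Ω c • Finsupp.single (oo f g Ω) 1) = 0
    rw [map_sub, map_zsmul, hO1, smul_eq_mul, mul_one, sub_self]
  · have e : r + (nsmulAddMonoidHom 2) c + n • Finsupp.single (oo f g Ω) 1 -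
        2 • (c - (Kv f g).deg Ω c • Finsupp.single (oo f g Ω) 1) = r := by
      rw [nsmulAddMonoidHom_apply, hn]
      module
    rw [e]
    exact hr

/-- Divisibility by two. Proof: `inv_gen`, `kv_stab`: all cycles are in `R2`; `r2_D0`. -/
theorem dm_two (h : ∀ p : (Kv f g).pt Ω, Tp f g K p) : Dm (Kv f g) K Ω 2 := by
  intro z hz
  refine r2_D0 hz ?_
  have hX : ∀ x : (Kv f g).pt Ω, (MulAction.stabilizer (Ω ≃ₐ[K] Ω) x).FiniteIndex :=
    fun x => opn_fin _ (kv_stab x)
  have h1 := inv_gen hX (z := z) hz.1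
  refine (AddSubgroup.closure_le _).2 ?_ h1
  rintro _ ⟨x, rfl⟩
  exact h x

/-- The trace from `M`. Proof: `tr_ratEqK`; the trace of `2 z` is twice the trace, the trace of `O` is `[M : K] O` (`tr_pt`). -/
theorem tr_R2 (M : IntermediateField K Ω) [FiniteDimensional K M] [IsScalarTower F M Ω]
    {z : (Kv f g).pt Ω →₀ ℤ}
    (hz : z ∈ R2 f g M Ω) : trG ((Kv f g).pt Ω) M.fixingSubgroup z ∈ R2 f g K Ω := by
  classical
  have hH : M.fixingSubgroup.FiniteIndex := opn_fin _ (opn_fix M)
  obtain ⟨u, hu, o, ho, rfl⟩ := AddSubgroup.mem_sup.1 hz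
  obtain ⟨r, hr, d, hd, rfl⟩ := AddSubgroup.mem_sup.1 hu
  obtain ⟨c, hc, rfl⟩ := hd
  obtain ⟨n, rfl⟩ := AddSubgroup.mem_zmultiples_iff.1 ho
  rw [nsmulAddMonoidHom_apply, map_add, map_add, map_nsmul, map_zsmul]
  refine add_mem (add_mem (r2_ratEq (tr_ratEqK M hr)) (r2_two ?_)) (zsmul_mem ?_ n)
  · refine fun σ => smul_trG hH (fun γ hγ => ?_) σ
    exact hc ((IntermediateField.fixingSubgroupEquiv M) ⟨γ, hγ⟩)
  · rw [trG_apply hH]
    have e : ∀ q : (Ω ≃ₐ[K] Ω) ⧸ M.fixingSubgroup,
        Finsupp.mapDomain (fun x => (q.out : Ω ≃ₐ[K] Ω) • x)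
          (Finsupp.single (oo f g Ω) (1 : ℤ)) = Finsupp.single (oo f g Ω) 1 := fun q => by
      rw [Finsupp.mapDomain_single, oo_act]
    rw [finsum_congr e]
    let i0 : Fintype ((Ω ≃ₐ[K] Ω) ⧸ M.fixingSubgroup) := Fintype.ofFinite _
    rw [finsum_eq_sum_of_fintype]
    exact sum_mem fun _ _ => r2_oo

end PE
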