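import Pool.Agent.Lib.MP_f80667_ag.Kf.Dse

/-! A positive proportion of the pairs of elliptic curves satisfies `Ok₂`. -/

open Finset Filter

namespace PE

/-- The reduced Weierstrass equations over `ℤ` with `|a₄| ≤ n²`, `|a₆| ≤ n³`. -/
def Eqs (n : ℕ) : Set (WeierstrassCurve ℤ) :=
  {A | (A.a₁ = 0 ∨ A.a₁ = 1) ∧ |A.a₂| ≤ 1 ∧ (A.a₃ = 0 ∨ A.a₃ = 1) ∧ |A.a₄| ≤ n ^ 2 ∧ |A.a₆| ≤ n ^ 3}

theorem eqs_le {n : ℕ} (hn : 1 ≤ n) : (Eqs n).Finite ∧ (Eqs n).ncard ≤ 108 * n ^ 5 := by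
  classical
  set X : Finset (ℤ × ℤ × ℤ × ℤ × ℤ) := ({0, 1} : Finset ℤ) ×ˢ Icc (-1 : ℤ) 1 ×ˢ ({0, 1} : Finset ℤ) ×ˢ
    Icc (-(n : ℤ) ^ 2) ((n : ℤ) ^ 2) ×ˢ Icc (-(n : ℤ) ^ 3) ((n : ℤ) ^ 3) with hX
  set g : ℤ × ℤ × ℤ × ℤ × ℤ → WeierstrassCurve ℤ := fun x => ⟨x.1, x.2.1, x.2.2.1, x.2.2.2.1, x.2.2.2.2⟩
    with hg
  have h1 : Eqs n ⊆ g '' (X : Set (ℤ × ℤ × ℤ × ℤ × ℤ)) := by
    rintro ⟨a₁, a₂, a₃, a₄, a₆⟩ ⟨h1, h2, h3, h4, h6⟩
    refine ⟨(a₁, a₂, a₃, a₄, a₆), ?_, rfl⟩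
    simp only [hX, coe_product, coe_insert, coe_singleton, coe_Icc, Set.mem_prod, Set.mem_insert_iff,
      Set.mem_singleton_iff, Set.mem_Icc]
    exact ⟨h1, abs_le.1 h2, h3, abs_le.1 h4, abs_le.1 h6⟩
  have h2 : (g '' (X : Set (ℤ × ℤ × ℤ × ℤ × ℤ))).Finite := X.finite_toSet.image g
  refine ⟨h2.subset h1, (Set.ncard_le_ncard h1 h2).trans ?_⟩
  refine (Set.ncard_image_le X.finite_toSet).trans ?_
  rw [Set.ncard_coe_finset]
  simp only [hX, card_product]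
  have e1 : #({0, 1} : Finset ℤ) = 2 := rfl
  have e2 : #(Icc (-1 : ℤ) 1) = 3 := rfl
  have e3 : #(Icc (-(n : ℤ) ^ 2) ((n : ℤ) ^ 2)) = 2 * n ^ 2 + 1 := by
    rw [Int.card_Icc]
    have : ((n : ℤ) ^ 2 + 1 - -(n : ℤ) ^ 2) = ((2 * n ^ 2 + 1 : ℕ) : ℤ) := by
      push_cast
      ring
    rw [this, Int.toNat_natCast]
  have e4 : #(Icc (-(n : ℤ) ^ 3) ((n : ℤ) ^ 3)) = 2 * n ^ 3 + 1 := by
    rw [Int.card_Icc]
    have : ((n : ℤ) ^ 3 + 1 - -(n : ℤ) ^ 3) = ((2 * n ^ 3 + 1 : ℕ) : ℤ) := by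
      push_cast
      ring
    rw [this, Int.toNat_natCast]
  rw [e1, e2, e3, e4]
  have f1 : 2 * n ^ 2 + 1 ≤ 3 * n ^ 2 := by
    have : 1 ≤ n ^ 2 := Nat.one_le_pow _ _ hn
    omega
  have f2 : 2 * n ^ 3 + 1 ≤ 3 * n ^ 3 := by
    have : 1 ≤ n ^ 3 := Nat.one_le_pow _ _ hn
    omega
  calc 2 * (3 * (2 * ((2 * n ^ 2 + 1) * (2 * n ^ 3 + 1)))) ≤
      2 * (3 * (2 * ((3 * n ^ 2) * (3 * n ^ 3)))) := by gcongr
    _ = 108 * n ^ 5 := by ring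

/-- The asymptotics. -/
theorem dn_asym {M : ℕ} (hM : 0 < M) : ∃ n₀ : ℕ, ∀ n ≥ n₀, ∃ S T : ℕ, 1 ≤ n ∧ M * S ≤ n ^ 2 ∧ M * T ≤ n ^ 3 ∧
    570 * n ^ 6 < T ^ 4 ∧ (n : ℝ) ^ 2 / (4 * M) ≤ S ∧ (n : ℝ) ^ 3 / (4 * M) ≤ T ∧
    1 / 2 * ((S : ℝ) * T) ^ 2 ≤ ((S : ℝ) * T) ^ 2 - 2 * (S * T) * (3 * (S * T) / 100 +
      2 * S * Nat.primeCounting (32 * n ^ 3) +
        (S + T) * (1 + Real.log ((48 * M * S + 1 : ℕ) : ℝ)) + ((48 * M * S + 1 : ℕ) : ℝ)) -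
          16 * (S * T) ^ 2 / 100 - 6 * S ^ 2 * T := by
  have hM' : (0 : ℝ) < M := by exact_mod_cast hM
  have hM1 : (1 : ℝ) ≤ M := by exact_mod_cast hM
  -- the floor of a quotient
  have hfl : ∀ x : ℕ, 4 * M ≤ x → (x : ℝ) / (4 * M) ≤ ((x / (2 * M) : ℕ) : ℝ) := by
    intro x hx
    have h1 : x < 2 * M * (x / (2 * M)) + 2 * M := by
      have := Nat.div_add_mod x (2 * M)
      have := Nat.mod_lt x (by omega : 2 * M > 0)
      omega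
    have h2 : (x : ℝ) < 2 * M * ((x / (2 * M) : ℕ) : ℝ) + 2 * M := by exact_mod_cast h1
    have h3 : (4 : ℝ) * M ≤ x := by exact_mod_cast hx
    rw [div_le_iff₀ (by positivity)]
    nlinarith
  -- limits
  have l1 : Tendsto (fun n : ℕ => ((32 * n ^ 3 : ℕ) : ℝ)) atTop atTop := by
    refine tendsto_natCast_atTop_atTop.comp (tendsto_atTop_mono (f := fun n : ℕ => n) (fun n => ?_) tendsto_id)
    rcases Nat.eq_zero_or_pos n with rfl | h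
    · simp
    · calc n ≤ n ^ 3 := Nat.le_self_pow (by norm_num) n
        _ ≤ 32 * n ^ 3 := by omega
  have l2 : ∀ᶠ n : ℕ in atTop, (Nat.primeCounting (32 * n ^ 3) : ℝ) ≤ 7 / 400 * ((n : ℝ) ^ 3 / (4 * M)) := by
    have h1 := l1.eventually (Chebyshev.eventually_primeCounting_le one_pos)
    have h2 := (Real.tendsto_log_atTop.comp l1).eventually
      (eventually_ge_atTop ((Real.log 4 + 1) * (32 * (4 * M) * (400 / 7))))
    filter_upwards [h1, h2, eventually_ge_atTop 1] with n h3 h4 h5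
    rw [Nat.floor_natCast] at h3
    simp only [Function.comp_apply] at h4
    refine h3.trans ?_
    have h6 : (0 : ℝ) < Real.log 4 + 1 := by
      have := Real.log_pos (by norm_num : (1 : ℝ) < 4)
      linarith
    have h7 : (0 : ℝ) < Real.log ((32 * n ^ 3 : ℕ) : ℝ) := lt_of_lt_of_le (by positivity) h4
    rw [div_le_iff₀ h7]
    have h8 : (0 : ℝ) ≤ 7 / 400 * ((n : ℝ) ^ 3 / (4 * M)) := by positivity
    refine le_trans (le_of_eq ?_) (mul_le_mul_of_nonneg_left h4 h8)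
    push_cast
    field_simp
  have l3 : Tendsto (fun n : ℕ => n ^ 2 / (2 * M)) atTop atTop := by
    refine (Nat.tendsto_div_const_atTop (by omega : 2 * M ≠ 0)).comp ?_
    exact tendsto_pow_atTop (by norm_num)
  have l4 : Tendsto (fun n : ℕ => n ^ 3 / (2 * M)) atTop atTop := by
    refine (Nat.tendsto_div_const_atTop (by omega : 2 * M ≠ 0)).comp ?_
    exact tendsto_pow_atTop (by norm_num)
  have l5 : ∀ᶠ S : ℕ in atTop, 1 + Real.log ((48 * M * S + 1 : ℕ) : ℝ) ≤ 7 / 400 * S := by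
    have h1 : Tendsto (fun S : ℕ => ((48 * M * S + 1 : ℕ) : ℝ)) atTop atTop := by
      refine tendsto_natCast_atTop_atTop.comp (tendsto_atTop_mono (f := fun n : ℕ => n) (fun n => ?_) tendsto_id)
      have : n ≤ 48 * M * n := Nat.le_mul_of_pos_left _ (by omega)
      omega
    have h2 := h1.eventually (Real.isLittleO_log_id_atTop.bound (by positivity : (0 : ℝ) < 1 / (10000 * M)))
    filter_upwards [h2, eventually_ge_atTop 100] with S h3 h4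
    have h5 : (100 : ℝ) ≤ S := by exact_mod_cast h4
    have h6 := (le_abs_self _).trans h3
    simp only [id, Real.norm_eq_abs, Nat.abs_cast] at h6
    push_cast at h6 ⊢
    have h7 : 1 / (10000 * (M : ℝ)) * (48 * M * S + 1) ≤ 48 / 10000 * S + 1 / 10000 := by
      have h8 : 1 / (10000 * (M : ℝ)) * (48 * M * S + 1) = 48 / 10000 * S + 1 / (10000 * M) := by
        field_simp
      rw [h8]
      have h9 : 1 / (10000 * (M : ℝ)) ≤ 1 / 10000 := by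
        refine one_div_le_one_div_of_le (by norm_num) ?_
        nlinarith
      linarith
    linarith
  obtain ⟨n₀, hn₀⟩ := (l2.and ((l3.eventually l5).and ((l3.eventually_ge_atTop 1).and
    ((l4.eventually_ge_atTop (40 * (48 * M + 1))).and
    ((eventually_ge_atTop (4 * M)).and (eventually_ge_atTop (1 + 570 * 256 * M ^ 4))))))).exists_forall_of_atTop
  refine ⟨n₀, fun n hn => ⟨n ^ 2 / (2 * M), n ^ 3 / (2 * M), ?_⟩⟩
  obtain ⟨m1, m2, m3, m4, m5, m6⟩ := hn₀ n hn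
  have hn1 : 1 ≤ n := by omega
  set S : ℕ := n ^ 2 / (2 * M) with hS
  set T : ℕ := n ^ 3 / (2 * M) with hT
  have a1 : M * S ≤ n ^ 2 := by
    have := Nat.mul_div_le (n ^ 2) (2 * M)
    rw [← hS] at this
    nlinarith
  have a2 : M * T ≤ n ^ 3 := by
    have := Nat.mul_div_le (n ^ 3) (2 * M)
    rw [← hT] at this
    nlinarith
  have a3 : (n : ℝ) ^ 2 / (4 * M) ≤ S := by
    have h1 : 4 * M ≤ n ^ 2 := m5.trans (Nat.le_self_pow (by norm_num) n)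
    have := hfl (n ^ 2) h1
    push_cast at this
    exact this
  have a4 : (n : ℝ) ^ 3 / (4 * M) ≤ T := by
    have h1 : 4 * M ≤ n ^ 3 := m5.trans (Nat.le_self_pow (by norm_num) n)
    have := hfl (n ^ 3) h1
    push_cast at this
    exact this
  have hSR : (1 : ℝ) ≤ S := by exact_mod_cast m3
  have hTR : (40 * (48 * M + 1) : ℝ) ≤ T := by exact_mod_cast m4
  have hST : (S : ℝ) ≤ T := by
    have : S ≤ T := by
      rw [hS, hT]
      refine Nat.div_le_div_right ?_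
      exact Nat.pow_le_pow_right hn1 (by norm_num)
    exact_mod_cast this
  have a5 : 570 * n ^ 6 < T ^ 4 := by
    have h1 : (n : ℝ) ^ 3 ≤ T * (4 * M) := by
      rwa [div_le_iff₀ (by positivity)] at a4
    have h2 : n ^ 3 ≤ T * (4 * M) := by exact_mod_cast h1
    have h3 : (n ^ 3) ^ 4 ≤ (T * (4 * M)) ^ 4 := Nat.pow_le_pow_left h2 4
    have h4 : (T * (4 * M)) ^ 4 = T ^ 4 * (256 * M ^ 4) := by ring
    have h5 : (n ^ 3) ^ 4 = n ^ 6 * n ^ 6 := by ring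
    rw [h4, h5] at h3
    have h6 : 570 * 256 * M ^ 4 < n ^ 6 :=
      lt_of_lt_of_le (by omega) (m6.trans (Nat.le_self_pow (by norm_num) n))
    have h7 : 0 < n ^ 6 := pow_pos (by omega) 6
    have h8 : 0 < 256 * M ^ 4 := by positivity
    refine lt_of_mul_lt_mul_right (a := 256 * M ^ 4) ?_ (Nat.zero_le _)
    calc 570 * n ^ 6 * (256 * M ^ 4) = n ^ 6 * (570 * 256 * M ^ 4) := by ring
      _ < n ^ 6 * n ^ 6 := Nat.mul_lt_mul_of_pos_left h6 h7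
      _ ≤ _ := h3
  refine ⟨hn1, a1, a2, a5, a3, a4, ?_⟩
  have b1 : (Nat.primeCounting (32 * n ^ 3) : ℝ) ≤ 7 / 400 * T :=
    m1.trans (mul_le_mul_of_nonneg_left a4 (by norm_num))
  have b2 : 1 + Real.log ((48 * M * S + 1 : ℕ) : ℝ) ≤ 7 / 400 * S := m2
  have b3 : ((48 * M * S + 1 : ℕ) : ℝ) ≤ 1 / 40 * T * S := by
    push_cast
    have h1 : (48 * (M : ℝ) * S + 1) ≤ (48 * M + 1) * S := by nlinarith
    refine h1.trans ?_
    refine mul_le_mul_of_nonneg_right ?_ (by positivity)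
    linarith
  have b4 : (2 * S * (Nat.primeCounting (32 * n ^ 3) : ℝ)) ≤ 7 / 200 * (S * T) := by
    have := mul_le_mul_of_nonneg_left b1 (by positivity : (0 : ℝ) ≤ 2 * S)
    linarith
  have b5 : ((S : ℝ) + T) * (1 + Real.log ((48 * M * S + 1 : ℕ) : ℝ)) ≤ 7 / 200 * (S * T) := by
    have h1 : (0 : ℝ) ≤ 1 + Real.log ((48 * M * S + 1 : ℕ) : ℝ) := by
      have : (0 : ℝ) ≤ Real.log ((48 * M * S + 1 : ℕ) : ℝ) := Real.log_natCast_nonneg _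
      linarith
    calc ((S : ℝ) + T) * (1 + Real.log ((48 * M * S + 1 : ℕ) : ℝ)) ≤
        (2 * T) * (1 + Real.log ((48 * M * S + 1 : ℕ) : ℝ)) :=
          mul_le_mul_of_nonneg_right (by linarith) h1
      _ ≤ (2 * T) * (7 / 400 * S) := mul_le_mul_of_nonneg_left b2 (by positivity)
      _ = 7 / 200 * (S * T) := by ring
  have b6 : 6 * (S : ℝ) ^ 2 * T ≤ 6 / 1960 * (S * T) ^ 2 := by
    have h1 : (1960 : ℝ) ≤ T := by nlinarith
    have h2 : (0 : ℝ) ≤ (S : ℝ) ^ 2 * T := by positivity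
    nlinarith
  have h0 : (0 : ℝ) ≤ (S : ℝ) * T := by positivity
  have b7 : 3 * ((S : ℝ) * T) / 100 + 2 * S * Nat.primeCounting (32 * n ^ 3) +
      (S + T) * (1 + Real.log ((48 * M * S + 1 : ℕ) : ℝ)) + ((48 * M * S + 1 : ℕ) : ℝ) ≤
      1 / 8 * (S * T) := by
    have h1 : 1 / 40 * (T : ℝ) * S = 1 / 40 * (S * T) := by ring
    rw [h1] at b3
    have h2 : 3 * ((S : ℝ) * T) / 100 = 3 / 100 * (S * T) := by ring
    rw [h2]
    linarith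
  have b8 := mul_le_mul_of_nonneg_left b7 (by positivity : (0 : ℝ) ≤ 2 * (S * T))
  have h1 : (0 : ℝ) ≤ ((S : ℝ) * T) ^ 2 := by positivity
  nlinarith

/-- A positive proportion of the pairs of elliptic curves over `ℚ`, ordered by height, satisfies `Ok₂`. -/
theorem ok₂_dens : ∃ c : ℝ, 0 < c ∧ ∃ n₀ : ℕ, ∀ n ≥ n₀, c * ((Eqs n).ncard : ℝ) ^ 2 ≤
    ({w : WeierstrassCurve ℤ × WeierstrassCurve ℤ | w.1 ∈ Eqs n ∧ w.2 ∈ Eqs n ∧ Ok₂ w.1 w.2}.ncard : ℝ) := by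
  obtain ⟨M, hM⟩ := dnM_ex
  have hM' : (0 : ℝ) < M := by exact_mod_cast hM.pos
  obtain ⟨n₀, hn₀⟩ := dn_asym hM.pos
  refine ⟨1 / (2 * 108 ^ 2 * (4 * M) ^ 4), by positivity, n₀, fun n hn => ?_⟩
  obtain ⟨S, T, h1, hS, hT, hT4, hSn, hTn, hmain⟩ := hn₀ n hn
  obtain ⟨G, hG, hg⟩ := dn_count hM h1 hS hT hT4
  have hGc := hmain.trans hG
  obtain ⟨hfin, hE⟩ := eqs_le h1
  set X : Set (WeierstrassCurve ℤ × WeierstrassCurve ℤ) :=
    {w | w.1 ∈ Eqs n ∧ w.2 ∈ Eqs n ∧ Ok₂ w.1 w.2} with hX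
  have hXf : X.Finite := (hfin.prod hfin).subset fun w hw => ⟨hw.1, hw.2.1⟩
  set φ : (ℕ × ℕ) × (ℕ × ℕ) → WeierstrassCurve ℤ × WeierstrassCurve ℤ :=
    fun g => (dnA M g.1.1 g.1.2, dnB M g.2.1 g.2.2) with hφ
  have hMz : (M : ℤ) ≠ 0 := by exact_mod_cast hM.pos.ne'
  have hinj : Function.Injective φ := by
    rintro ⟨⟨s, t⟩, ⟨u, w⟩⟩ ⟨⟨s', t'⟩, ⟨u', w'⟩⟩ h
    simp only [hφ, dnA, dnB, Prod.mk.injEq, WeierstrassCurve.mk.injEq, true_and] at h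
    obtain ⟨⟨h1, h2⟩, h3, h4⟩ := h
    have e1 := mul_left_cancel₀ hMz h1
    have e2 := mul_left_cancel₀ hMz (add_left_cancel h2)
    have e3 := mul_left_cancel₀ hMz (add_left_cancel h3)
    have e4 := mul_left_cancel₀ hMz h4
    norm_cast at e1 e2 e3 e4
    rw [e1, e2, e3, e4]
  have himg : φ '' (G : Set ((ℕ × ℕ) × (ℕ × ℕ))) ⊆ X := by
    rintro _ ⟨g, hgG, rfl⟩
    obtain ⟨⟨b1, b2, b3, b4⟩, b5⟩ := hg g hgG
    have c1 : ((M : ℤ) * (g.1.1 : ℤ)) ≤ (n : ℤ) ^ 2 := by exact_mod_cast b1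
    have c2 : (2 + (M : ℤ) * (g.1.2 : ℤ)) ≤ (n : ℤ) ^ 3 := by exact_mod_cast b2
    have c3 : (1 + (M : ℤ) * (g.2.1 : ℤ)) ≤ (n : ℤ) ^ 2 := by exact_mod_cast b3
    have c4 : ((M : ℤ) * (g.2.2 : ℤ)) ≤ (n : ℤ) ^ 3 := by exact_mod_cast b4
    refine ⟨⟨Or.inr rfl, ?_, Or.inl rfl, ?_, ?_⟩, ⟨Or.inl rfl, ?_, Or.inr rfl, ?_, ?_⟩, b5⟩
    · simp [hφ, dnA]
    · simp only [hφ, dnA]
      rw [abs_of_nonneg (by positivity)]
      exact c1
    · simp only [hφ, dnA]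
      rw [abs_of_nonneg (by positivity)]
      exact c2
    · simp [hφ, dnB]
    · simp only [hφ, dnB]
      rw [abs_of_nonneg (by positivity)]
      exact c3
    · simp only [hφ, dnB]
      rw [abs_of_nonneg (by positivity)]
      exact c4
  have hcard : #G ≤ X.ncard := by
    have h2 := Set.ncard_le_ncard himg hXf
    rwa [Set.ncard_image_of_injective _ hinj, Set.ncard_coe_finset] at h2
  have hcard' : (#G : ℝ) ≤ X.ncard := by exact_mod_cast hcard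
  refine le_trans ?_ (hGc.trans hcard')
  have hE' : ((Eqs n).ncard : ℝ) ≤ 108 * (n : ℝ) ^ 5 := by exact_mod_cast hE
  have h3 : ((Eqs n).ncard : ℝ) ^ 2 ≤ (108 * (n : ℝ) ^ 5) ^ 2 := by
    gcongr
  have h4 : (n : ℝ) ^ 5 / (4 * M) ^ 2 ≤ S * T := by
    have h6 : (n : ℝ) ^ 5 / (4 * (M : ℝ)) ^ 2 = ((n : ℝ) ^ 2 / (4 * M)) * ((n : ℝ) ^ 3 / (4 * M)) := by
      field_simp
    rw [h6]
    exact mul_le_mul hSn hTn (by positivity) (by positivity)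
  have h5 : ((n : ℝ) ^ 5 / (4 * M) ^ 2) ^ 2 ≤ ((S : ℝ) * T) ^ 2 := by
    gcongr
  calc 1 / (2 * 108 ^ 2 * (4 * (M : ℝ)) ^ 4) * ((Eqs n).ncard : ℝ) ^ 2 ≤
      1 / (2 * 108 ^ 2 * (4 * (M : ℝ)) ^ 4) * (108 * (n : ℝ) ^ 5) ^ 2 :=
        mul_le_mul_of_nonneg_left h3 (by positivity)
    _ = 1 / 2 * ((n : ℝ) ^ 5 / (4 * M) ^ 2) ^ 2 := by
        field_simp
    _ ≤ 1 / 2 * ((S : ℝ) * T) ^ 2 := by linarith

end PE
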