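import Pool.Agent.Lib.MP_f80667_ag.Pe.Kg
import Pool.Agent.Lib.MP_f80667_ag.Pe.GloC
import Pool.Agent.Lib.MP_f80667_ag.Pe.GlE

/-! Odd numbers: no condition at the places above two. -/

open ZC BE Polynomial IntermediateField IsDedekindDomain NumberField

namespace PE

section nf

variable {F : Type} [Field F] [NumberField F] {W₁ W₂ : WeierstrassCurve F}

/-- The local conditions without the condition at two. -/
structure Lo (W₁ W₂ : WeierstrassCurve F) (v : HeightOneSpectrum (𝓞 F)) : Prop where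
  unr : ∃ p : ℕ, p.Prime ∧ v.valuation F (p : F) = WithZero.exp (-1 : ℤ)
  i₁ : Iv v W₁
  i₂ : Iv v W₂
  d₁ : WithZero.exp (-1 : ℤ) ≤ v.valuation F W₁.Δ
  d₂ : v.valuation F W₂.Δ = 1

private theorem oz_val {v : HeightOneSpectrum (𝓞 F)} {x : F} (h : x ≠ 0) :
    ∃ n : ℤ, v.valuation F x = WithZero.exp (-n) := by
  have h1 : v.valuation F x ≠ 0 := (Valuation.ne_zero_iff _).2 h
  refine ⟨-WithZero.log (v.valuation F x), ?_⟩
  rw [neg_neg, WithZero.exp_log h1]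

/-- **The finite places, odd numbers.** -/
theorem dv_finO {v : HeightOneSpectrum (𝓞 F)} (h : Lo W₁ W₂ v) {m : ℕ} (hm : Odd m)
    (z : Zc (Xv W₁ W₂) (FK F v)) (hz : Alb z) :
    ∃ z' : Zc (Xv W₁ W₂) (FK F v), Alb z' ∧ z.cl = m • z'.cl := by
  obtain ⟨p, hp, hpv⟩ := h.unr
  obtain ⟨L, hLu, hLp, hL⟩ := exists_ld F v p hp hpv
  have hc : CharZero (FK F v) := charZero_of_injective_algebraMap (algebraMap F (FK F v)).injective
  have hp0 := L.p_pos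
  have hp1 := L.lt
  have hle : ∀ x : F, v.valuation F x ≤ 1 → L.nm (algebraMap F _ x) ≤ 1 := by
    intro x hx
    by_cases h0 : x = 0
    · rw [h0, map_zero, L.zero]
      exact zero_le_one
    · obtain ⟨n, hn⟩ := oz_val (v := v) h0
      rw [hL x n hn]
      have h1 : 0 ≤ n := by
        rw [hn, ← WithZero.exp_zero, WithZero.exp_le_exp] at hx
        omega
      obtain ⟨m, rfl⟩ := Int.eq_ofNat_of_zero_le h1
      rw [zpow_natCast]
      exact pow_le_one₀ hp0.le hp1.le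
  have hd1 : W₁.Δ ≠ 0 := by
    intro h0
    have h1 := h.d₁
    rw [h0, map_zero, le_zero_iff] at h1
    exact WithZero.exp_ne_zero h1
  have hd2 : W₂.Δ ≠ 0 := by
    intro h0
    have h1 := h.d₂
    rw [h0, map_zero] at h1
    exact zero_ne_one h1
  have he1 : W₁.IsElliptic := ⟨isUnit_iff_ne_zero.2 hd1⟩
  have he2 : W₂.IsElliptic := ⟨isUnit_iff_ne_zero.2 hd2⟩
  have hi1 : L.Hd W₁ :=
    { a₁ := hle _ h.i₁.1
      a₂ := hle _ h.i₁.2.1
      a₃ := hle _ h.i₁.2.2.1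
      a₄ := hle _ h.i₁.2.2.2.1
      a₆ := hle _ h.i₁.2.2.2.2
      disc := by
        obtain ⟨n, hn⟩ := oz_val (v := v) hd1
        have h1 := h.d₁
        rw [hn, WithZero.exp_le_exp] at h1
        rw [hL _ n hn]
        calc L.nm (L.p : AlgebraicClosure (FK F v)) = L.nm (L.p : AlgebraicClosure (FK F v)) ^ (1 : ℤ) :=
              (zpow_one _).symm
          _ ≤ _ := (zpow_le_zpow_iff_right_of_lt_one₀ hp0 hp1).2 (by omega) }
  have hi2 : L.Gd W₂ :=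
    { a₁ := hle _ h.i₂.1
      a₂ := hle _ h.i₂.2.1
      a₃ := hle _ h.i₂.2.2.1
      a₄ := hle _ h.i₂.2.2.2.1
      a₆ := hle _ h.i₂.2.2.2.2
      disc := by
        have h1 : v.valuation F W₂.Δ = WithZero.exp (-0 : ℤ) := by
          rw [h.d₂, neg_zero, WithZero.exp_zero]
        rw [hL _ 0 h1, zpow_zero] }
  have hm0 : m ≠ 0 := by
    rintro rfl
    exact absurd hm (by decide)
  refine dvN_of m (t_divN (n₀ := 2) (fun l hl hl2 M P Q hM hP hQ => ?_) m hm0 fun l hl hd => ?_) z hz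
  · by_cases hlp : l = L.p
    · rw [hlp]
      exact Ld.ram _ le_rfl hi1 hi2 (fun h2 => by omega) M hP hQ
    · exact Ld.el hi1 hi2 _ hl hlp M hP hQ
  · have h1 : l ≠ 2 := by
      rintro rfl
      exact (Nat.not_even_iff_odd.2 hm) (even_iff_two_dvd.2 hd)
    have h2 := hl.two_le
    omega

omit [NumberField F] in
private theorem oz_sg {K : Type} [Field K] [Algebra F K] {W : WeierstrassCurve F} (z : Zc (Ev W) K) :
    sg z = sm (A := Pt W (AlgebraicClosure K)) z.cy := rfl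

omit [NumberField F] in
private theorem oz_cl {K : Type} [Field K] [Algebra F K] {V : Vr F} (z z' : Zc V K) (n : ℕ)
    (h : z.cy - n • z'.cy ∈ V.ratEq K (AlgebraicClosure K)) : z.cl = n • z'.cl := by
  let w : Dz V K := z'
  have h1 : n • z'.cl = Gp.clsH V K (n • w) := (map_nsmul (Gp.clsH V K) n w).symm
  rw [h1]
  exact Gp.cls_eq.2 h

omit [NumberField F] in
private theorem oz_cl' {K : Type} [Field K] [Algebra F K] {V : Vr F} (z z' : Zc V K) (n : ℕ)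
    (h : z.cl = n • z'.cl) : z.cy - n • z'.cy ∈ V.ratEq K (AlgebraicClosure K) := by
  let w : Dz V K := z'
  have h1 : n • z'.cl = Gp.clsH V K (n • w) := (map_nsmul (Gp.clsH V K) n w).symm
  rw [h1] at h
  exact Gp.cls_eq.1 h

private theorem oz_sw {K : Type} [Field K] [Algebra F K] (z : Zc (Xv W₂ W₁) K) :
    ∃ z' : Zc (Xv W₁ W₂) K,
      z'.cy = Finsupp.mapDomain Prod.swap z.cy ∧ (Alb z → Alb z') := by
  refine ⟨push (V := Xv W₂ W₁) (V' := Xv W₁ W₂) Prod.swap (fun _ _ => rfl) z, rfl, ?_⟩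
  rintro ⟨h1, h2⟩
  constructor
  · have e : (p₁ (push (V := Xv W₂ W₁) (V' := Xv W₁ W₂) Prod.swap (fun _ _ => rfl) z)).cy =
        (p₂ z).cy :=
      (Finsupp.mapDomain_comp (f := Prod.swap) (g := Prod.fst) (v := z.cy)).symm
    rw [oz_sg, e]
    exact h2
  · have e : (p₂ (push (V := Xv W₂ W₁) (V' := Xv W₁ W₂) Prod.swap (fun _ _ => rfl) z)).cy =
        (p₁ z).cy :=
      (Finsupp.mapDomain_comp (f := Prod.swap) (g := Prod.snd) (v := z.cy)).symm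
    rw [oz_sg, e]
    exact h1

private theorem oz_ss {A B : Type} (u : A × B →₀ ℤ) :
    Finsupp.mapDomain (Prod.swap (α := B) (β := A)) (Finsupp.mapDomain Prod.swap u) = u := by
  rw [← Finsupp.mapDomain_comp, Prod.swap_swap_eq, Finsupp.mapDomain_id]

private theorem oz_swap {v : HeightOneSpectrum (𝓞 F)} {m : ℕ}
    (h : ∀ z : Zc (Xv W₁ W₂) (FK F v), Alb z →
      ∃ z' : Zc (Xv W₁ W₂) (FK F v), Alb z' ∧ z.cl = m • z'.cl) :
    ∀ z : Zc (Xv W₂ W₁) (FK F v), Alb z →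
      ∃ z' : Zc (Xv W₂ W₁) (FK F v), Alb z' ∧ z.cl = m • z'.cl := by
  intro z hz
  have hc : CharZero (FK F v) := charZero_of_injective_algebraMap (algebraMap F (FK F v)).injective
  obtain ⟨z₁, h1, h2⟩ := oz_sw z
  obtain ⟨z₂, h3, h4⟩ := h z₁ (h2 hz)
  obtain ⟨z₃, h5, h6⟩ := oz_sw z₂
  refine ⟨z₃, h6 h3, oz_cl _ _ _ ?_⟩
  have h7 := swap_ratEq (oz_cl' _ _ _ h4)
  have h8 : z.cy - m • z₃.cy = Finsupp.mapDomain Prod.swap (z₁.cy - m • z₂.cy) := by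
    have e : ∀ a b : Pt W₁ (AlgebraicClosure (FK F v)) × Pt W₂ (AlgebraicClosure (FK F v)) →₀ ℤ,
        Finsupp.mapDomain (Prod.swap (α := Pt W₁ (AlgebraicClosure (FK F v)))
          (β := Pt W₂ (AlgebraicClosure (FK F v)))) (a - m • b) =
          Finsupp.mapDomain Prod.swap a - m • Finsupp.mapDomain Prod.swap b := by
      intro a b
      have e1 := map_sub (Finsupp.mapDomain.addMonoidHom (M := ℤ)
        (Prod.swap (α := Pt W₁ (AlgebraicClosure (FK F v)))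
          (β := Pt W₂ (AlgebraicClosure (FK F v))))) a (m • b)
      rw [map_nsmul] at e1
      exact e1
    refine Eq.trans ?_ (e z₁.cy z₂.cy).symm
    rw [h1, h5]
    congr 1
    exact (oz_ss z.cy).symm
  rw [h8]
  exact h7

theorem dv_O {v : HeightOneSpectrum (𝓞 F)} (h : Lo W₁ W₂ v ∨ Lo W₂ W₁ v) {m : ℕ} (hm : Odd m)
    (z : Zc (Xv W₁ W₂) (FK F v)) (hz : Alb z) :
    ∃ z' : Zc (Xv W₁ W₂) (FK F v), Alb z' ∧ z.cl = m • z'.cl := by
  rcases h with h | h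
  · exact dv_finO h hm z hz
  · exact oz_swap (fun z hz => dv_finO h hm z hz) z hz

/-- The Albanese kernel of the families is divisible by the odd numbers. -/
theorem fam_O (h : ∀ v : HeightOneSpectrum (𝓞 F), Lo W₁ W₂ v ∨ Lo W₂ W₁ v) {m : ℕ} (hm : Odd m)
    (c : Fam (Xv W₁ W₂)) (hc : AlbA c) : ∃ c' : Fam (Xv W₁ W₂), AlbA c' ∧ c.cl = m • c'.cl := by
  choose g hg using fun v => dv_O (h v) hm (c.f v) (hc.1 v)
  refine ⟨(g, c.i), ⟨fun v => (hg v).1, hc.2⟩, Prod.ext (funext fun v => (hg v).2)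
    (funext fun v => ?_)⟩
  change (c.i v).clN = m • (c.i v).clN
  obtain ⟨k, rfl⟩ := hm
  rw [add_smul, one_smul, mul_smul, smul_comm, clN_two, smul_zero, zero_add]

private theorem oz_odd {m : ℕ} (hS : Sf {l | l ≠ 2} m) : Odd m := by
  rw [← Nat.not_even_iff_odd, even_iff_two_dvd]
  intro h'
  exact hS 2 Nat.prime_two h' rfl

/-- **Products, odd numbers.** -/
theorem main_Oe (h : ∀ v : HeightOneSpectrum (𝓞 F), Lo W₁ W₂ v ∨ Lo W₂ W₁ v) :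
    (∀ m : ℕ, Odd m → ∀ c : Fam (Xv W₁ W₂), AlbA c →
      ∃ c' : Fam (Xv W₁ W₂), AlbA c' ∧ c.cl = m • c'.cl) ∧
    ∀ (z : LHat (FA (Xv W₁ W₂))) (z₁ : LHat (FA (Ev W₁))) (z₂ : LHat (FA (Ev W₂))),
      Is₁ z z₁ → Is₂ z z₂ →
      (ImDeS {l | l ≠ 2} z ↔ ImDeS {l | l ≠ 2} z₁ ∧ ImDeS {l | l ≠ 2} z₂) := by
  refine ⟨fun m hm => fam_O h hm, fun z z₁ z₂ h₁ h₂ =>
    ⟨fun hz => ⟨imDeS₁ h₁ hz, imDeS₂ h₂ hz⟩, fun hz => ?_⟩⟩
  refine glo_hatS (fun n _ hL c hc => ?_) z z₁ z₂ (fun m c h => h₁ m c h) (fun m c h => h₂ m c h)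
    hz.1 hz.2
  obtain ⟨c', -, hc'⟩ := fam_O h (oz_odd hL) c hc
  exact ⟨c', hc'⟩

/-- **Kummer surfaces, odd numbers.** -/
theorem main_Ok [W₁.IsElliptic] [W₂.IsElliptic]
    (h : ∀ v : HeightOneSpectrum (𝓞 F), Lo W₁ W₂ v ∨ Lo W₂ W₁ v) :
    (∀ m : ℕ, Odd m → ∀ c : Fam (Kv W₁.Ψ₂Sq W₂.Ψ₂Sq),
      ∃ c' : Fam (Kv W₁.Ψ₂Sq W₂.Ψ₂Sq), c.cl = m • c'.cl) ∧
    ∀ z : LHat (FA (Kv W₁.Ψ₂Sq W₂.Ψ₂Sq)), ImDeS {l | l ≠ 2} z := by
  have key : ∀ m : ℕ, Odd m → ∀ c : Fam (Kv W₁.Ψ₂Sq W₂.Ψ₂Sq),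
      ∃ c' : Fam (Kv W₁.Ψ₂Sq W₂.Ψ₂Sq), c.cl = m • c'.cl := by
    intro m hm c
    refine fam_m hm (fun v => ?_) c
    have hc : CharZero (FK F v) :=
      charZero_of_injective_algebraMap (algebraMap F (FK F v)).injective
    exact ku_pl hm fun z hz => dv_O (h v) hm z hz
  exact ⟨key, im_m fun m _ hS => key m (oz_odd hS)⟩

end nf

private theorem oz_iv (v : HeightOneSpectrum (𝓞 ℚ)) (A : WeierstrassCurve ℤ) : Iv v (toQ A) := by
  have h : ∀ n : ℤ, v.valuation ℚ (n : ℚ) ≤ 1 := by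
    intro n
    have h : (n : ℚ) = algebraMap (𝓞 ℚ) ℚ (n : 𝓞 ℚ) := (map_intCast _ n).symm
    rw [h]
    exact v.valuation_le_one _
  exact ⟨h A.a₁, h A.a₂, h A.a₃, h A.a₄, h A.a₆⟩

private theorem oz_main {A B : WeierstrassCurve ℤ} {v : HeightOneSpectrum (𝓞 ℚ)} {p : ℕ}
    (hp : p.Prime) (hp1 : v.valuation ℚ (p : ℚ) = WithZero.exp (-1 : ℤ))
    (hpn : ∀ n : ℤ, v.valuation ℚ (n : ℚ) = 1 ↔ ¬ (p : ℤ) ∣ n)
    (hsf : Squarefree (A.Δ * B.Δ)) (hB : ¬ (p : ℤ) ∣ B.Δ) : Lo (toQ A) (toQ B) v where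
  unr := ⟨p, hp, hp1⟩
  i₁ := oz_iv v A
  i₂ := oz_iv v B
  d₁ := by
    rw [disc_toQ]
    by_cases h : (p : ℤ) ∣ A.Δ
    · obtain ⟨k, hk⟩ := h
      have h1 : ¬ (p : ℤ) ∣ k := by
        rintro ⟨m, rfl⟩
        have h2 : IsUnit (p : ℤ) := hsf _ ⟨m * B.Δ, by rw [hk]; ring⟩
        rw [Int.isUnit_iff_natAbs_eq, Int.natAbs_natCast] at h2
        exact hp.one_lt.ne' h2
      rw [hk]
      push_cast
      rw [map_mul, hp1, (hpn k).2 h1, mul_one]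
    · rw [(hpn _).2 h, ← WithZero.exp_zero]
      exact WithZero.exp_le_exp.2 (by norm_num)
  d₂ := by
    rw [disc_toQ]
    exact (hpn _).2 hB

/-- The local conditions for integral equations with `Δ_A Δ_B` squarefree. -/
theorem lo_z {A B : WeierstrassCurve ℤ} (hsf : Squarefree (A.Δ * B.Δ))
    (v : HeightOneSpectrum (𝓞 ℚ)) : Lo (toQ A) (toQ B) v ∨ Lo (toQ B) (toQ A) v := by
  obtain ⟨p, hp, hp1, hpn⟩ := exists_p v
  have hsf' : Squarefree (B.Δ * A.Δ) := by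
    rw [mul_comm]
    exact hsf
  by_cases h3 : (p : ℤ) ∣ A.Δ
  · refine Or.inl (oz_main hp hp1 hpn hsf ?_)
    intro h4
    have h5 : IsUnit (p : ℤ) := hsf _ (mul_dvd_mul h3 h4)
    rw [Int.isUnit_iff_natAbs_eq, Int.natAbs_natCast] at h5
    exact hp.one_lt.ne' h5
  · exact Or.inr (oz_main hp hp1 hpn hsf' h3)

/-- **Kummer surfaces over `ℚ`, odd numbers.** -/
theorem main_Kzo {A B : WeierstrassCurve ℤ} (h : Squarefree (A.Δ * B.Δ)) :
    (∀ m : ℕ, Odd m → ∀ c : Fam (Kv (toQ A).Ψ₂Sq (toQ B).Ψ₂Sq),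
      ∃ c' : Fam (Kv (toQ A).Ψ₂Sq (toQ B).Ψ₂Sq), c.cl = m • c'.cl) ∧
    ∀ z : LHat (FA (Kv (toQ A).Ψ₂Sq (toQ B).Ψ₂Sq)), ImDeS {l | l ≠ 2} z := by
  have hA : (toQ A).IsElliptic := ell_toQ (left_ne_zero_of_mul h.ne_zero)
  have hB : (toQ B).IsElliptic := ell_toQ (right_ne_zero_of_mul h.ne_zero)
  exact main_Ok fun v => lo_z h v

/-- **Products over `ℚ`, odd numbers.** -/
theorem main_Ezo {A B : WeierstrassCurve ℤ} (h : Squarefree (A.Δ * B.Δ)) :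
    (∀ m : ℕ, Odd m → ∀ c : Fam (Xv (toQ A) (toQ B)), AlbA c →
      ∃ c' : Fam (Xv (toQ A) (toQ B)), AlbA c' ∧ c.cl = m • c'.cl) ∧
    ∀ (z : LHat (FA (Xv (toQ A) (toQ B)))) (z₁ : LHat (FA (Ev (toQ A))))
      (z₂ : LHat (FA (Ev (toQ B)))), Is₁ z z₁ → Is₂ z z₂ →
      (ImDeS {l | l ≠ 2} z ↔ ImDeS {l | l ≠ 2} z₁ ∧ ImDeS {l | l ≠ 2} z₂) :=
  main_Oe fun v => lo_z h v

end PE
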