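import Pool.Agent.Lib.MP_f80667_ag.Kf.Dtc
import Pool.Agent.Lib.MP_f80667_ag.Kf.Oz

/-! Kummer surfaces over `ℚ`: all prime numbers greater than `L`, if the exponents of the discriminants are less
than `L`. -/

open ZC BE Polynomial IntermediateField IsDedekindDomain NumberField

namespace PE

private theorem dtf_int (v : HeightOneSpectrum (𝓞 ℚ)) (n : ℤ) : v.valuation ℚ (n : ℚ) ≤ 1 := by
  have h : (n : ℚ) = algebraMap (𝓞 ℚ) ℚ (n : 𝓞 ℚ) := (map_intCast _ n).symm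
  rw [h]
  exact v.valuation_le_one _

private theorem dtf_iv (v : HeightOneSpectrum (𝓞 ℚ)) (A : WeierstrassCurve ℤ) : Iv v (toQ A) :=
  ⟨dtf_int v A.a₁, dtf_int v A.a₂, dtf_int v A.a₃, dtf_int v A.a₄, dtf_int v A.a₆⟩

/-- The value of an integer. -/
private theorem dtf_val {v : HeightOneSpectrum (𝓞 ℚ)} {p : ℕ} (hp : p.Prime)
    (hp1 : v.valuation ℚ (p : ℚ) = WithZero.exp (-1 : ℤ))
    (hpn : ∀ n : ℤ, v.valuation ℚ (n : ℚ) = 1 ↔ ¬ (p : ℤ) ∣ n) {L : ℕ} {x : ℤ}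
    (h : ¬ (p : ℤ) ^ L ∣ x) : ∃ k : ℕ, k < L ∧ v.valuation ℚ (x : ℚ) = WithZero.exp (-(k : ℤ)) := by
  have h1 := emultiplicity_lt_iff_not_dvd.2 h
  obtain ⟨k, hk⟩ := ENat.ne_top_iff_exists.1 (ne_top_of_lt h1)
  rw [← hk] at h1
  have h2 : k < L := by exact_mod_cast h1
  have h3 : (p : ℤ) ^ k ∣ x := by
    rw [pow_dvd_iff_le_emultiplicity, ← hk]
  obtain ⟨y, hy⟩ := h3
  have h4 : ¬ (p : ℤ) ∣ y := by
    rintro ⟨z, rfl⟩
    have h5 : (p : ℤ) ^ (k + 1) ∣ x := ⟨z, by rw [hy]; ring⟩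
    rw [pow_dvd_iff_le_emultiplicity, ← hk] at h5
    have h6 : k + 1 ≤ k := by exact_mod_cast h5
    omega
  refine ⟨k, h2, ?_⟩
  rw [hy]
  push_cast
  rw [map_mul, map_pow, hp1, (hpn y).2 h4, mul_one, ← WithZero.exp_nsmul]
  congr 1
  simp

/-- The denominator of the `j`-invariant. -/
private theorem dtf_jv {A : WeierstrassCurve ℤ} {v : HeightOneSpectrum (𝓞 ℚ)} {L l : ℕ} (hL : L < l)
    (h : ∀ p : ℕ, p.Prime → ¬ (p : ℤ) ^ L ∣ A.Δ) [(toQ A).IsElliptic] : Jv l v (toQ A) := by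
  intro n hn hd
  obtain ⟨p, hp, hp1, hpn⟩ := exists_p v
  obtain ⟨k, hk, hv⟩ := dtf_val hp hp1 hpn (h p hp)
  by_contra hc
  have h1 := Int.le_of_dvd (by omega) hd
  have hj : (toQ A).j * (toQ A).Δ = (toQ A).c₄ ^ 3 := by
    rw [WeierstrassCurve.j, mul_right_comm, ← (toQ A).coe_Δ', Units.inv_mul, one_mul]
  have h2 := congrArg (v.valuation ℚ) hj
  rw [map_mul, hn, disc_toQ, hv, map_pow, ← WithZero.exp_add] at h2
  have h3 : (toQ A).c₄ = ((A.c₄ : ℤ) : ℚ) := by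
    unfold toQ
    rw [WeierstrassCurve.baseChange, WeierstrassCurve.map_c₄]
    rfl
  rw [h3] at h2
  have h4 : v.valuation ℚ ((A.c₄ : ℤ) : ℚ) ^ 3 ≤ 1 := pow_le_one₀ zero_le (dtf_int v _)
  rw [← h2, ← WithZero.exp_zero, WithZero.exp_le_exp] at h4
  omega

private theorem dtf_lv {A B : WeierstrassCurve ℤ} {v : HeightOneSpectrum (𝓞 ℚ)} {p : ℕ}
    (hp : p.Prime) (hp1 : v.valuation ℚ (p : ℚ) = WithZero.exp (-1 : ℤ))
    (hpn : ∀ n : ℤ, v.valuation ℚ (n : ℚ) = 1 ↔ ¬ (p : ℤ) ∣ n) (h2 : p ≠ 2)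
    (hA : ¬ (p : ℤ) ^ 2 ∣ A.Δ) (hB : ¬ (p : ℤ) ∣ B.Δ) : Lv (toQ A) (toQ B) v where
  unr := ⟨p, hp, hp1⟩
  i₁ := dtf_iv v A
  i₂ := dtf_iv v B
  d₁ := by
    obtain ⟨k, hk, hv⟩ := dtf_val hp hp1 hpn hA
    rw [disc_toQ, hv]
    exact WithZero.exp_le_exp.2 (by omega)
  d₂ := by
    rw [disc_toQ]
    exact (hpn _).2 hB
  ss := fun h => by
    have h3 : v.valuation ℚ ((2 : ℤ) : ℚ) = 1 := by
      rw [hpn]
      intro h4
      have h5 : p ∣ 2 := by exact_mod_cast h4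
      exact h2 ((Nat.prime_dvd_prime_iff_eq hp Nat.prime_two).1 h5)
    rw [show (2 : ℚ) = ((2 : ℤ) : ℚ) by norm_num, h3] at h
    exact absurd h (lt_irrefl _)

/-- The conditions at the prime numbers greater than `L`. -/
theorem dtG_gl {A B : WeierstrassCurve ℤ} {L l : ℕ} (hL : 4 ≤ L) (h : DtG L A B) (hl : l.Prime) (hLl : L < l)
    [(toQ A).IsElliptic] [(toQ B).IsElliptic] : Gl (toQ A) (toQ B) l where
  pr := hl
  le := by omega
  ab := fun v hv => by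
    obtain ⟨p, hp, hp1, hpn⟩ := exists_p v
    have h1 : p = l := by
      by_contra hne
      have h2 : v.valuation ℚ ((l : ℤ) : ℚ) = 1 := by
        rw [hpn]
        intro h3
        have h4 : p ∣ l := by exact_mod_cast h3
        exact hne ((Nat.prime_dvd_prime_iff_eq hp hl).1 h4)
      rw [Int.cast_natCast] at h2
      rw [h2] at hv
      exact lt_irrefl _ hv
    have h2 : p ≠ 2 := by omega
    have h3 := h.hi p hp (by omega)
    have hA : ¬ (p : ℤ) ^ 2 ∣ A.Δ := fun h4 => h3 (h4.mul_right _)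
    have hB : ¬ (p : ℤ) ^ 2 ∣ B.Δ := fun h4 => h3 (h4.mul_left _)
    by_cases h4 : (p : ℤ) ∣ B.Δ
    · refine Or.inr (dtf_lv hp hp1 hpn h2 hB fun h5 => h3 ?_)
      rw [pow_two]
      exact mul_dvd_mul h5 h4
    · exact Or.inl (dtf_lv hp hp1 hpn h2 hA h4)
  j₁ := fun v _ => dtf_jv hLl fun p hp => (h.lo p hp).1
  j₂ := fun v _ => dtf_jv hLl fun p hp => (h.lo p hp).2

/-- **Theorem.** Kummer surfaces over `ℚ`, the prime numbers greater than `L`. -/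
theorem dtG_main {A B : WeierstrassCurve ℤ} {L : ℕ} (hL : 4 ≤ L) (h : DtG L A B) :
    (∀ m : ℕ, m ≠ 0 → Sf {l | L < l} m → ∀ c : Fam (Kv (toQ A).Ψ₂Sq (toQ B).Ψ₂Sq),
      ∃ c' : Fam (Kv (toQ A).Ψ₂Sq (toQ B).Ψ₂Sq), c.cl = m • c'.cl) ∧
    ∀ z : LHat (FA (Kv (toQ A).Ψ₂Sq (toQ B).Ψ₂Sq)), ImDeS {l | L < l} z := by
  have hA : (toQ A).IsElliptic := ell_toQ fun h0 => (h.lo 2 Nat.prime_two).1 (by rw [h0]; exact dvd_zero _)
  have hB : (toQ B).IsElliptic := ell_toQ fun h0 => (h.lo 2 Nat.prime_two).2 (by rw [h0]; exact dvd_zero _)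
  have h1 := main_Ku (toQ A) (toQ B) {l | l.Prime ∧ L < l} fun l hl => dtG_gl hL h hl.1 hl.2
  have h2 : ∀ m : ℕ, Sf {l | L < l} m → Sf {l | l.Prime ∧ L < l} m := fun m hm l hl hd => ⟨hl, hm l hl hd⟩
  refine ⟨fun m hm hS => h1.1 m hm (h2 m hS), fun z => ?_⟩
  obtain ⟨x, hx⟩ := h1.2 z
  exact ⟨x, fun m hm => hx m (h2 m hm)⟩

end PE
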