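import Pool.Agent.Lib.MP_f80667_ag.Pe.LiftA

/-! The factorization of the cubic of a Weierstrass equation over an unramified extension of `ℚ₂`. -/

open ZC BE Polynomial IntermediateField

namespace PE

section two

variable {K : Type} [Field K] [CharZero K] {Ω : Type} [Field Ω] [Algebra K Ω] [IsAlgClosure K Ω]

omit [CharZero K] [IsAlgClosure K Ω] in
/-- The norm of two. -/
theorem gla_two (L : Ld K Ω) (h2 : L.p = 2) : L.nm (2 : Ω) < 1 := by
  have h := L.lt
  rw [h2, Nat.cast_ofNat] at h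
  exact h

omit [IsAlgClosure K Ω] in
/-- The factorization for given `b₂`, `b₄`, `b₆`. -/
theorem gla_fac (L : Ld K Ω) (h2 : L.p = 2) {b₂ b₄ b₆ : K}
    (k2 : L.nm (algebraMap K Ω b₂ - 1) ≤ L.nm 4) (k4 : L.nm (algebraMap K Ω b₄) ≤ 1)
    (k6 : L.nm (algebraMap K Ω b₆) ≤ 1) :
    ∃ U a b : K, L.nm (algebraMap K Ω U - 1) ≤ L.nm 4 ∧ L.nm (algebraMap K Ω a) ≤ 1 ∧
      L.nm (algebraMap K Ω b) ≤ 1 ∧ b₂ = U + 8 * a ∧ b₄ = 2 * b + a * U ∧ b₆ = U * b := by
  have : CharZero Ω := charZero_of_injective_algebraMap (algebraMap K Ω).injective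
  have n2 := gla_two L h2
  have p2 : 0 < L.nm (2 : Ω) := L.pos two_ne_zero
  have n4 : L.nm (4 : Ω) = L.nm 2 ^ 2 := by
    rw [← L.pow]
    norm_num
  have n8 : L.nm (8 : Ω) = L.nm 2 ^ 3 := by
    rw [← L.pow]
    norm_num
  have n16 : L.nm (16 : Ω) = L.nm 2 ^ 4 := by
    rw [← L.pow]
    norm_num
  have l4 : L.nm (4 : Ω) < 1 := by
    rw [n4]
    exact pow_lt_one₀ p2.le n2 two_ne_zero
  have l8 : L.nm (8 : Ω) < 1 := by
    rw [n8]
    exact pow_lt_one₀ p2.le n2 three_ne_zero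
  have l84 : L.nm (8 : Ω) ≤ L.nm 4 := by
    rw [n8, n4]
    exact pow_le_pow_of_le_one p2.le n2.le (by norm_num)
  have l168 : L.nm (16 : Ω) ≤ L.nm 8 := by
    rw [n8, n16]
    exact pow_le_pow_of_le_one p2.le n2.le (by norm_num)
  have u2 : L.nm (algebraMap K Ω b₂) = 1 := by
    rw [L.eq_of_close (y := 1) (by rw [L.one]; exact k2.trans_lt l4), L.one]
  obtain ⟨T, hT, hT0, hTc⟩ := lifta_cub L.toLf (⊥ : IntermediateField K Ω)
    (a := algebraMap K Ω b₂) (b := 8 * algebraMap K Ω b₄) (c := 16 * algebraMap K Ω b₆)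
    (x := - algebraMap K Ω b₂)
    (IntermediateField.algebraMap_mem _ _)
    (by
      have := IntermediateField.algebraMap_mem (⊥ : IntermediateField K Ω) (8 * b₄)
      rwa [map_mul, map_ofNat] at this)
    (by
      have := IntermediateField.algebraMap_mem (⊥ : IntermediateField K Ω) (16 * b₆)
      rwa [map_mul, map_ofNat] at this)
    u2.le
    (by
      rw [L.mul]
      exact mul_le_one₀ l8.le (L.nonneg _) k4)
    (by
      rw [L.mul]
      exact mul_le_one₀ (l168.trans l8.le) (L.nonneg _) k6)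
    (neg_mem (IntermediateField.algebraMap_mem _ _))
    (by rw [L.neg]; exact u2.le)
    (by
      have e : (- algebraMap K Ω b₂) ^ 3 + algebraMap K Ω b₂ * (- algebraMap K Ω b₂) ^ 2 +
          8 * algebraMap K Ω b₄ * (- algebraMap K Ω b₂) + 16 * algebraMap K Ω b₆ =
          8 * (2 * algebraMap K Ω b₆ - algebraMap K Ω b₄ * algebraMap K Ω b₂) := by ring
      rw [e, L.mul]
      refine mul_lt_one_of_nonneg_of_lt_one_left (L.nonneg _) l8 ?_
      refine (L.sub _ _).trans (max_le ?_ ?_)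
      · rw [L.mul]
        exact mul_le_one₀ n2.le (L.nonneg _) k6
      · rw [L.mul, u2, mul_one]
        exact k4)
    (by
      have e : 3 * (- algebraMap K Ω b₂) ^ 2 + 2 * algebraMap K Ω b₂ * (- algebraMap K Ω b₂) +
          8 * algebraMap K Ω b₄ = algebraMap K Ω b₂ ^ 2 + 8 * algebraMap K Ω b₄ := by ring
      rw [e, L.add_eq' , L.pow, u2, one_pow]
      rw [L.pow, u2, one_pow, L.mul]
      exact mul_lt_one_of_nonneg_of_lt_one_left (L.nonneg _) l8 k4)
  obtain ⟨t, rfl⟩ := IntermediateField.mem_bot.1 hT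
  rw [sub_neg_eq_add] at hTc
  have uT : L.nm (algebraMap K Ω t) = 1 := by
    have h1 : L.nm (algebraMap K Ω t - (- algebraMap K Ω b₂)) < L.nm (- algebraMap K Ω b₂) := by
      rw [L.neg, u2, sub_neg_eq_add]
      exact hTc
    rw [L.eq_of_close h1, L.neg, u2]
  have eK : t ^ 3 + b₂ * t ^ 2 + 8 * b₄ * t + 16 * b₆ = 0 := by
    apply (algebraMap K Ω).injective
    simpa only [map_add, map_mul, map_pow, map_ofNat, map_zero] using hT0
  have t0 : t ≠ 0 := by
    rintro rfl
    rw [map_zero, L.zero] at uT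
    exact zero_ne_one uT
  have hc8 : L.nm (algebraMap K Ω b₂ + algebraMap K Ω t) ≤ L.nm 8 := by
    have e : algebraMap K Ω t ^ 2 * (algebraMap K Ω b₂ + algebraMap K Ω t) =
        - (8 * (algebraMap K Ω b₄ * algebraMap K Ω t + 2 * algebraMap K Ω b₆)) := by
      linear_combination hT0
    have h1 := congrArg L.nm e
    rw [L.mul, L.pow, uT, one_pow, one_mul, L.neg, L.mul] at h1
    rw [h1]
    refine mul_le_of_le_one_right (L.nonneg _) ?_
    refine (L.add _ _).trans (max_le ?_ ?_)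
    · rw [L.mul, uT, mul_one]
      exact k4
    · rw [L.mul]
      exact mul_le_one₀ n2.le (L.nonneg _) k6
  refine ⟨- t, (b₂ + t) / 8, - (b₆ / t), ?_, ?_, ?_, by ring, ?_, ?_⟩
  · have e : algebraMap K Ω (- t) - 1 =
        (algebraMap K Ω b₂ - 1) - (algebraMap K Ω b₂ + algebraMap K Ω t) := by
      rw [map_neg]
      ring
    rw [e]
    exact (L.sub _ _).trans (max_le k2 (hc8.trans l84))
  · rw [map_div₀, map_add, map_ofNat, L.div]
    exact div_le_one_of_le₀ hc8 (L.nonneg _)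
  · rw [map_neg, map_div₀, L.neg, L.div, uT, div_one]
    exact k6
  · field_simp
    linear_combination eK
  · field_simp

end two

end PE
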