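import Pool.Agent.Lib.MP_f80667_ag.Pe.Ld
import Pool.Agent.Lib.MP_f80667_ag.Pe.Lo
import Pool.Agent.Lib.MP_f80667_ag.Pe.GloC

/-!
The absolute value of the algebraic closure of the completion of `ℚ` at a finite place: residues
are residues of integers, the norms of the integers, the conditions `Hd`, `Gd`.
-/

open ZC BE Polynomial IntermediateField IsDedekindDomain NumberField

namespace PE

open Pool.Agent.Lib.MP_f80667_ag.LF IsLocalRing HeightOneSpectrum in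
private theorem gla_ad (F : Type) [Field F] [NumberField F] (v : HeightOneSpectrum (𝓞 F)) :
    ∃ (L : Lf (v.adicCompletion F) (AlgebraicClosure (v.adicCompletion F))) (c : ℝ), 0 < c ∧
      c < 1 ∧
      (∀ (x : F) (n : ℤ), v.valuation F x = WithZero.exp (-n) →
        L.nm (algebraMap F _ x) = c ^ n) ∧
      (∀ x : v.adicCompletion F, x ≠ 0 → ∃ n : ℤ, L.nm (algebraMap _ _ x) = c ^ n) ∧
      (∀ M : IntermediateField (v.adicCompletion F) (AlgebraicClosure (v.adicCompletion F)),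
        FiniteDimensional (v.adicCompletion F) M → ∀ r : ℝ, 0 ≤ r → r < 1 →
        ∀ x : ℕ → AlgebraicClosure (v.adicCompletion F), (∀ n, x n ∈ M) →
        (∀ n, L.nm (x (n + 1) - x n) ≤ r ^ n) → ∃ y ∈ M, ∀ n, L.nm (y - x n) ≤ r ^ n) ∧
      ∀ x : v.adicCompletion F, L.nm (algebraMap _ _ x) ≤ 1 →
        ∃ a : 𝓞 F, L.nm (algebraMap (v.adicCompletion F) _ x -
          algebraMap F _ (algebraMap (𝓞 F) F a)) < 1 := by
  obtain ⟨L, hL, hcpl⟩ := LdA_R (v.adicCompletionIntegers F) (v.adicCompletion F)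
    (AlgebraicClosure (v.adicCompletion F))
  have hmem : ∀ x : v.adicCompletion F, L.nm (algebraMap _ _ x) ≤ 1 ↔
      Valued.v x ≤ (1 : WithZero (Multiplicative ℤ)) := by
    intro x
    rw [hL, ← mem_adicCompletionIntegers]
    constructor
    · rintro ⟨y, rfl⟩
      exact y.2
    · intro h
      exact ⟨⟨x, h⟩, rfl⟩
  have hone : L.nm (1 : AlgebraicClosure (v.adicCompletion F)) = 1 := by
    have h := L.mul 1 1
    rw [mul_one] at h
    have h0 : L.nm (1 : AlgebraicClosure (v.adicCompletion F)) ≠ 0 := fun h' =>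
      one_ne_zero ((L.zero_iff _).1 h')
    exact (mul_eq_left₀ h0).1 h.symm
  have hmul : ∀ x y : v.adicCompletion F, L.nm (algebraMap _ _ (x * y)) =
      L.nm (algebraMap _ _ x) * L.nm (algebraMap _ _ y) := by
    intro x y
    rw [map_mul, L.mul]
  have hinv : ∀ x : v.adicCompletion F, x ≠ 0 →
      L.nm (algebraMap _ _ x) * L.nm (algebraMap _ _ x⁻¹) = 1 := by
    intro x hx
    rw [← hmul, mul_inv_cancel₀ hx, map_one, hone]
  have hunit : ∀ x : v.adicCompletion F, Valued.v x = (1 : WithZero (Multiplicative ℤ)) →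
      L.nm (algebraMap _ _ x) = 1 := by
    intro x hx
    have hx0 : x ≠ 0 := by
      rintro rfl
      rw [map_zero] at hx
      exact zero_ne_one hx
    have h1 := (hmem x).2 hx.le
    have h2 := (hmem x⁻¹).2 (by rw [map_inv₀, hx, inv_one])
    have h3 := hinv x hx0
    nlinarith [L.nonneg (algebraMap _ (AlgebraicClosure (v.adicCompletion F)) x),
      L.nonneg (algebraMap _ (AlgebraicClosure (v.adicCompletion F)) x⁻¹)]
  have hval : ∀ z : F, Valued.v (algebraMap F (v.adicCompletion F) z) = v.valuation F z :=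
    fun z => valuedAdicCompletion_eq_valuation' v z
  obtain ⟨ϖ, hϖ⟩ := v.valuation_exists_uniformizer F
  have hϖ' : Valued.v (algebraMap F (v.adicCompletion F) ϖ) =
      (WithZero.exp (-1) : WithZero (Multiplicative ℤ)) := by
    rw [hval]
    exact hϖ
  have hϖ0 : algebraMap F (v.adicCompletion F) ϖ ≠ 0 := by
    intro h
    rw [h, map_zero] at hϖ'
    exact WithZero.exp_ne_zero hϖ'.symm
  set c : ℝ := L.nm (algebraMap _ _ (algebraMap F (v.adicCompletion F) ϖ)) with hc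
  have hc0 : 0 < c := by
    refine lt_of_le_of_ne (L.nonneg _) fun h => hϖ0 ?_
    have h1 := (L.zero_iff _).1 h.symm
    rwa [map_eq_zero] at h1
  have hc1 : c < 1 := by
    have h1 : c ≤ 1 := (hmem _).2 (by
      rw [hϖ', ← WithZero.exp_zero, WithZero.exp_le_exp]
      norm_num)
    refine lt_of_le_of_ne h1 fun h => ?_
    have h3 := hinv _ hϖ0
    rw [← hc, h, one_mul] at h3
    have h4 := (hmem _).1 h3.le
    rw [map_inv₀, hϖ', ← WithZero.exp_neg, ← WithZero.exp_zero, WithZero.exp_le_exp] at h4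
    norm_num at h4
  have hzp : ∀ n : ℤ, L.nm (algebraMap _ _ (algebraMap F (v.adicCompletion F) ϖ ^ n)) = c ^ n := by
    have hnat : ∀ n : ℕ, L.nm (algebraMap _ _ (algebraMap F (v.adicCompletion F) ϖ ^ n)) =
        c ^ n := by
      intro n
      induction n with
      | zero => rw [pow_zero, pow_zero, map_one, hone]
      | succ n ih => rw [pow_succ, pow_succ, hmul, ih]
    intro n
    obtain ⟨m, rfl | rfl⟩ := n.eq_nat_or_neg
    · rw [zpow_natCast, zpow_natCast, hnat]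
    · rw [zpow_neg, zpow_neg, zpow_natCast, zpow_natCast, ← hnat]
      exact eq_inv_of_mul_eq_one_right (hinv _ (pow_ne_zero m hϖ0))
  have hkey : ∀ (x : v.adicCompletion F) (n : ℤ),
      Valued.v x = (WithZero.exp (-n) : WithZero (Multiplicative ℤ)) →
      L.nm (algebraMap _ _ x) = c ^ n := by
    intro x n hx
    have h1 : x = x * algebraMap F (v.adicCompletion F) ϖ ^ (-n) *
        algebraMap F (v.adicCompletion F) ϖ ^ n := by
      rw [mul_assoc, ← zpow_add₀ hϖ0, neg_add_cancel, zpow_zero, mul_one]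
    rw [h1, hmul, hzp, hunit, one_mul]
    rw [map_mul, map_zpow₀, hx, hϖ', ← WithZero.exp_zsmul, ← WithZero.exp_add,
      ← WithZero.exp_zero, WithZero.exp_inj]
    simp
  have h1 : ∀ (x : F) (n : ℤ), v.valuation F x = WithZero.exp (-n) →
      L.nm (algebraMap F _ x) = c ^ n := by
    intro x n hx
    rw [IsScalarTower.algebraMap_apply F (v.adicCompletion F) (AlgebraicClosure
      (v.adicCompletion F)) x]
    refine hkey _ n ?_
    rw [hval]
    exact hx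
  refine ⟨L, c, hc0, hc1, h1, ?_, hcpl, ?_⟩
  · intro x hx
    have h0 : (Valued.v x : WithZero (Multiplicative ℤ)) ≠ 0 := (Valuation.ne_zero_iff _).2 hx
    refine ⟨-WithZero.log (Valued.v x : WithZero (Multiplicative ℤ)), hkey x _ ?_⟩
    rw [neg_neg, WithZero.exp_log h0]
  · intro x hx
    obtain ⟨a, ha⟩ := exists_close F v ⟨x, (hmem x).1 hx⟩
    rw [mem_max_iff] at ha
    refine ⟨a, ?_⟩
    rw [IsScalarTower.algebraMap_apply F (v.adicCompletion F) (AlgebraicClosure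
      (v.adicCompletion F)), ← map_sub]
    have ha' : Valued.v (x - algebraMap F (v.adicCompletion F) (algebraMap (𝓞 F) F a)) <
        (1 : WithZero (Multiplicative ℤ)) := ha
    refine lt_of_le_of_ne ((hmem _).2 ha'.le) fun h => ?_
    have hne : x - algebraMap F (v.adicCompletion F) (algebraMap (𝓞 F) F a) ≠ 0 := by
      intro h'
      rw [h', map_zero, (L.zero_iff _).2 rfl] at h
      exact zero_ne_one h
    have h3 := hinv _ hne
    rw [h, one_mul] at h3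
    have h4 := (hmem _).1 h3.le
    rw [map_inv₀] at h4
    have h5 := (inv_le_one₀ (zero_lt_iff.2 ((Valuation.ne_zero_iff _).2 hne))).1 h4
    exact absurd ha' (not_lt_of_ge h5)


private theorem gla_FK (F : Type) [Field F] [NumberField F] (v : HeightOneSpectrum (𝓞 F)) :
    ∃ (L : Lf (FK F v) (AlgebraicClosure (FK F v))) (c : ℝ), 0 < c ∧
      c < 1 ∧
      (∀ (x : F) (n : ℤ), v.valuation F x = WithZero.exp (-n) →
        L.nm (algebraMap F _ x) = c ^ n) ∧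
      (∀ x : FK F v, x ≠ 0 → ∃ n : ℤ, L.nm (algebraMap _ _ x) = c ^ n) ∧
      (∀ M : IntermediateField (FK F v) (AlgebraicClosure (FK F v)),
        FiniteDimensional (FK F v) M → ∀ r : ℝ, 0 ≤ r → r < 1 →
        ∀ x : ℕ → AlgebraicClosure (FK F v), (∀ n, x n ∈ M) →
        (∀ n, L.nm (x (n + 1) - x n) ≤ r ^ n) → ∃ y ∈ M, ∀ n, L.nm (y - x n) ≤ r ^ n) ∧
      ∀ x : FK F v, L.nm (algebraMap _ _ x) ≤ 1 →
        ∃ a : 𝓞 F, L.nm (algebraMap (FK F v) _ x - algebraMap F _ (algebraMap (𝓞 F) F a)) < 1 := by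
  exact gla_ad F v

/-- **Existence**, with the residues. -/
theorem exists_ldr (F : Type) [Field F] [NumberField F]
    (v : HeightOneSpectrum (𝓞 F)) (p : ℕ) (hp : p.Prime)
    (hv : v.valuation F (p : F) = WithZero.exp (-1 : ℤ)) :
    ∃ L : Ld (FK F v) (AlgebraicClosure (FK F v)), L.Unr ∧ L.p = p ∧
      (∀ (x : F) (n : ℤ), v.valuation F x = WithZero.exp (-n) →
        L.nm (algebraMap F _ x) = L.nm (L.p : AlgebraicClosure (FK F v)) ^ n) ∧
      ∀ x : FK F v, L.nm (algebraMap _ _ x) ≤ 1 →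
        ∃ a : 𝓞 F, L.nm (algebraMap (FK F v) _ x - algebraMap F _ (algebraMap (𝓞 F) F a)) < 1 := by
  obtain ⟨L, c, hc0, hc1, h1, h2, h3, h4⟩ := gla_FK F v
  have hpc : L.nm (p : AlgebraicClosure (FK F v)) = c := by
    have h := h1 (p : F) 1 hv
    rw [map_natCast, zpow_one] at h
    exact h
  have hlt : L.nm (p : AlgebraicClosure (FK F v)) < 1 := by
    rw [hpc]
    exact hc1
  refine ⟨{ L with p := p, pp := hp, lt := hlt, cpl := h3 }, ⟨?_⟩, rfl, ?_, h4⟩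
  · intro x hx
    change ∃ n : ℤ, L.nm _ = L.nm (p : AlgebraicClosure (FK F v)) ^ n
    rw [hpc]
    exact h2 x hx
  · intro x n hx
    change L.nm _ = L.nm (p : AlgebraicClosure (FK F v)) ^ n
    rw [hpc]
    exact h1 x n hx

/-! ### Integers -/

section int

variable {K Ω : Type} [Field K] [Field Ω] [Algebra K Ω] [Algebra ℚ Ω] (L : Ld K Ω)

omit [Algebra ℚ Ω] in
theorem Ld.z_unit {n : ℤ} (h : ¬ (L.p : ℤ) ∣ n) : L.nm (n : Ω) = 1 := by
  have h1 : ¬ L.p ∣ n.natAbs := fun h' => h (Int.natCast_dvd.2 h')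
  have h2 := L.nat_unit h1
  rcases Int.natAbs_eq n with h3 | h3
  · rw [h3, Int.cast_natCast]
    exact h2
  · rw [h3, Int.cast_neg, Int.cast_natCast, L.neg]
    exact h2

omit [Algebra ℚ Ω] in
/-- A number which is not divisible by `p²`. -/
theorem Ld.z_sf {n : ℤ} (h : Squarefree n) : L.nm (L.p : Ω) ≤ L.nm (n : Ω) := by
  by_cases h1 : (L.p : ℤ) ∣ n
  · obtain ⟨k, rfl⟩ := h1
    have h2 : ¬ (L.p : ℤ) ∣ k := by
      rintro ⟨m, rfl⟩
      have h3 : IsUnit (L.p : ℤ) := h _ ⟨m, by ring⟩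
      rw [Int.isUnit_iff_natAbs_eq, Int.natAbs_natCast] at h3
      exact L.pp.one_lt.ne' h3
    rw [Int.cast_mul, L.mul, L.z_unit h2, mul_one, Int.cast_natCast]
  · rw [L.z_unit h1]
    exact L.lt.le

theorem toQ_a₁ (A : WeierstrassCurve ℤ) : algebraMap ℚ Ω (toQ A).a₁ = (A.a₁ : Ω) :=
  map_intCast (algebraMap ℚ Ω) A.a₁

theorem toQ_a₂ (A : WeierstrassCurve ℤ) : algebraMap ℚ Ω (toQ A).a₂ = (A.a₂ : Ω) :=
  map_intCast (algebraMap ℚ Ω) A.a₂

theorem toQ_a₃ (A : WeierstrassCurve ℤ) : algebraMap ℚ Ω (toQ A).a₃ = (A.a₃ : Ω) :=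
  map_intCast (algebraMap ℚ Ω) A.a₃

theorem toQ_a₄ (A : WeierstrassCurve ℤ) : algebraMap ℚ Ω (toQ A).a₄ = (A.a₄ : Ω) :=
  map_intCast (algebraMap ℚ Ω) A.a₄

theorem toQ_a₆ (A : WeierstrassCurve ℤ) : algebraMap ℚ Ω (toQ A).a₆ = (A.a₆ : Ω) :=
  map_intCast (algebraMap ℚ Ω) A.a₆

theorem toQ_disc (A : WeierstrassCurve ℤ) : algebraMap ℚ Ω (toQ A).Δ = (A.Δ : Ω) := by
  rw [disc_toQ]
  exact map_intCast (algebraMap ℚ Ω) A.Δ

theorem toQ_it (A : WeierstrassCurve ℤ) : L.It (toQ A) where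
  a₁ := by rw [toQ_a₁]; exact L.int_le _
  a₂ := by rw [toQ_a₂]; exact L.int_le _
  a₃ := by rw [toQ_a₃]; exact L.int_le _
  a₄ := by rw [toQ_a₄]; exact L.int_le _
  a₆ := by rw [toQ_a₆]; exact L.int_le _

theorem toQ_hd {A : WeierstrassCurve ℤ} (h : Squarefree A.Δ) : L.Hd (toQ A) where
  toIt := toQ_it L A
  disc := by rw [toQ_disc]; exact L.z_sf h

theorem toQ_gd {A : WeierstrassCurve ℤ} (h : ¬ (L.p : ℤ) ∣ A.Δ) : L.Gd (toQ A) where
  toIt := toQ_it L A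
  disc := by rw [toQ_disc]; exact L.z_unit h

theorem toQ_psi (A : WeierstrassCurve ℤ) (x : Ω) : aeval x (toQ A).Ψ₂Sq =
    4 * x ^ 3 + ((A.a₁ : Ω) ^ 2 + 4 * (A.a₂ : Ω)) * x ^ 2 +
      2 * (2 * (A.a₄ : Ω) + (A.a₁ : Ω) * (A.a₃ : Ω)) * x + ((A.a₃ : Ω) ^ 2 + 4 * (A.a₆ : Ω)) := by
  simp only [WeierstrassCurve.Ψ₂Sq, WeierstrassCurve.b₂, WeierstrassCurve.b₄,
    WeierstrassCurve.b₆, map_add, map_mul, map_pow, aeval_X, aeval_C, map_ofNat, toQ_a₁, toQ_a₂,
    toQ_a₃, toQ_a₄, toQ_a₆]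

omit [Algebra ℚ Ω] in
/-- The square of an odd number is `1` modulo `8`. -/
theorem Ld.z_sq {n : ℤ} (h : Odd n) (m : ℤ) :
    L.nm ((n : Ω) ^ 2 + 4 * (m : Ω) - 1) ≤ L.nm 4 := by
  obtain ⟨k, rfl⟩ := h
  have h1 : (((2 * k + 1 : ℤ) : Ω)) ^ 2 + 4 * (m : Ω) - 1 = 4 * ((k ^ 2 + k + m : ℤ) : Ω) := by
    push_cast
    ring
  rw [h1, L.mul]
  exact mul_le_of_le_one_right (L.nonneg _) (L.int_le _)

omit [Algebra ℚ Ω] in
theorem Ld.z_two (h2 : L.p = 2) {n : ℤ} (h : Even n) : L.nm (n : Ω) < 1 := by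
  obtain ⟨k, rfl⟩ := h
  have h1 : ((k + k : ℤ) : Ω) = (L.p : Ω) * (k : Ω) := by
    rw [h2]
    push_cast
    ring
  rw [h1, L.mul]
  exact (mul_le_of_le_one_right (L.nonneg _) (L.int_le _)).trans_lt L.lt

end int

/-- `a₁` is odd if the discriminant is even and not divisible by `4`. -/
theorem odd_a₁ {A : WeierstrassCurve ℤ} (hsf : Squarefree A.Δ) (h : Even A.Δ) : Odd A.a₁ := by
  rw [← Int.not_even_iff_odd]
  rintro ⟨c, hc⟩
  have h4 : A.Δ = -(A.b₂ ^ 2 * A.b₈) - 8 * A.b₄ ^ 3 - 27 * A.b₆ ^ 2 + 9 * A.b₂ * A.b₄ * A.b₆ := by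
    rw [WeierstrassCurve.Δ]
    ring
  have h2 : A.b₂ = 4 * (c ^ 2 + A.a₂) := by
    rw [WeierstrassCurve.b₂, hc]
    ring
  have h6 : Even A.b₆ := by
    by_contra h7
    rw [Int.not_even_iff_odd] at h7
    obtain ⟨d, hd⟩ := h7
    obtain ⟨k, hk⟩ := h
    rw [h2, hd, hk] at h4
    have h8 : (2 : ℤ) ∣ 1 := by
      refine ⟨k + 8 * (c ^ 2 + A.a₂) ^ 2 * A.b₈ + 4 * A.b₄ ^ 3 + 54 * d ^ 2 + 54 * d + 14 -
        18 * (c ^ 2 + A.a₂) * A.b₄ * (2 * d + 1), ?_⟩
      linear_combination -h4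
    norm_num at h8
  obtain ⟨d, hd⟩ := h6
  have h7 : IsUnit (2 : ℤ) := by
    refine hsf 2 ⟨-4 * (c ^ 2 + A.a₂) ^ 2 * A.b₈ - 2 * A.b₄ ^ 3 - 27 * d ^ 2 +
      18 * (c ^ 2 + A.a₂) * A.b₄ * d, ?_⟩
    rw [h4, h2, hd]
    ring
  rw [Int.isUnit_iff_natAbs_eq] at h7
  norm_num at h7

/-- The place two. -/
theorem exists_ld₂ (v : HeightOneSpectrum (𝓞 ℚ)) (hv : v.valuation ℚ 2 < 1) :
    ∃ L : Ld (FK ℚ v) (AlgebraicClosure (FK ℚ v)), L.Unr ∧ L.p = 2 ∧
      ∀ x : FK ℚ v, L.nm (algebraMap _ _ x) = 1 → L.nm (algebraMap _ _ x - 1) < 1 := by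
  obtain ⟨p, hp, hp1, hpn⟩ := exists_p v
  have hp2 : p = 2 := by
    have h1 : ¬ v.valuation ℚ ((2 : ℤ) : ℚ) = 1 := by
      rw [Int.cast_ofNat]
      exact hv.ne
    rw [hpn, not_not] at h1
    have h2 : p ∣ 2 := by exact_mod_cast h1
    exact (Nat.prime_dvd_prime_iff_eq hp Nat.prime_two).1 h2
  subst hp2
  obtain ⟨L, hU, hLp, -, hr⟩ := exists_ldr ℚ v 2 hp hp1
  refine ⟨L, hU, hLp, fun x hx => ?_⟩
  obtain ⟨a, ha⟩ := hr x hx.le
  obtain ⟨n, hn⟩ : ∃ n : ℤ, algebraMap (𝓞 ℚ) ℚ a = n :=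
    ⟨Rat.ringOfIntegersEquiv a, (Rat.ringOfIntegersEquiv_apply_coe a).symm⟩
  rw [hn, map_intCast] at ha
  have hodd : Odd n := by
    rw [← Int.not_even_iff_odd]
    intro he
    have h1 := L.z_two hLp he
    have h2 := L.add (algebraMap (FK ℚ v) (AlgebraicClosure (FK ℚ v)) x - n) n
    rw [sub_add_cancel, hx] at h2
    exact absurd (max_lt ha h1) (not_lt.2 h2)
  have h1 : Even (n - 1) := by
    obtain ⟨k, rfl⟩ := hodd
    exact ⟨k, by ring⟩
  have h2 := L.z_two hLp h1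
  have h3 : algebraMap (FK ℚ v) (AlgebraicClosure (FK ℚ v)) x - 1 =
      (algebraMap (FK ℚ v) (AlgebraicClosure (FK ℚ v)) x - n) + ((n - 1 : ℤ) : _) := by
    push_cast
    ring
  rw [h3]
  exact (L.add _ _).trans_lt (max_lt ha h2)

/-- The odd places. -/
theorem exists_ldO (v : HeightOneSpectrum (𝓞 ℚ)) (hv : ¬ v.valuation ℚ 2 < 1) :
    ∃ L : Ld (FK ℚ v) (AlgebraicClosure (FK ℚ v)), L.Unr ∧ L.p ≠ 2 := by
  obtain ⟨p, hp, hp1, hpn⟩ := exists_p v
  obtain ⟨L, hU, hLp, -⟩ := exists_ld ℚ v p hp hp1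
  refine ⟨L, hU, ?_⟩
  rw [hLp]
  rintro rfl
  refine hv ?_
  rw [Nat.cast_ofNat] at hp1
  rw [hp1, ← WithZero.exp_zero, WithZero.exp_lt_exp]
  omega

end PE
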