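import Pool.Agent.Lib.MP_f80667_ag.Pe.Lo

/-! The roots of `Ψ₂Sq` for a curve with good reduction, odd residue characteristic. -/

open ZC BE Polynomial IntermediateField

namespace PE

variable {F : Type} [Field F] {K : Type} [Field K] [CharZero K]
  [Algebra F K] {Ω : Type} [Field Ω] [Algebra K Ω] [Algebra F Ω] [IsScalarTower F K Ω]
  [IsAlgClosure K Ω]

theorem psi_aeval (W : WeierstrassCurve F) (z : Ω) :
    aeval z W.Ψ₂Sq = 4 * z ^ 3 + algebraMap F Ω W.b₂ * z ^ 2 + 2 * algebraMap F Ω W.b₄ * z +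
      algebraMap F Ω W.b₆ := by
  rw [WeierstrassCurve.Ψ₂Sq]
  simp only [map_add, map_mul, map_pow, aeval_C, aeval_X, map_ofNat]

/-- The factorization over an algebraically closed field. -/
theorem psi_split [CharZero Ω] [IsAlgClosed Ω] (W : WeierstrassCurve F) :
    ∃ e : Fin 3 → Ω, ∀ z : Ω, aeval z W.Ψ₂Sq = 4 * ((z - e 0) * (z - e 1) * (z - e 2)) := by
  have h4 : (4 : F) ≠ 0 := by
    intro h
    have : (4 : Ω) = 0 := by
      rw [← map_ofNat (algebraMap F Ω) 4, h, map_zero]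
    exact (by norm_num : (4 : Ω) ≠ 0) this
  have hd : W.Ψ₂Sq.natDegree = 3 := W.natDegree_Ψ₂Sq h4
  set P : Polynomial Ω := W.Ψ₂Sq.map (algebraMap F Ω) with hP
  have hdP : P.natDegree = 3 := by
    rw [hP, natDegree_map, hd]
  have hs : P.Splits := IsAlgClosed.splits P
  have hcard : P.roots.card = 3 := by
    rw [← hdP]
    exact hs.natDegree_eq_card_roots.symm
  obtain ⟨x, y, z, hxyz⟩ := Multiset.card_eq_three.1 hcard
  have hlc : P.leadingCoeff = 4 := by
    rw [leadingCoeff, hdP, hP, coeff_map, W.coeff_Ψ₂Sq, map_ofNat]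
  refine ⟨![x, y, z], fun t => ?_⟩
  have h1 := hs.eq_prod_roots
  rw [hlc, hxyz] at h1
  have h2 : aeval t W.Ψ₂Sq = P.eval t := by
    rw [hP, eval_map_algebraMap]
  rw [h2, h1]
  simp [Multiset.map_cons, eval_mul]
  ring

namespace Ld

omit [CharZero K] [IsAlgClosure K Ω] in
theorem nm_four (L : Ld K Ω) (h2 : L.p ≠ 2) : L.nm (4 : Ω) = 1 := by
  have h := L.nat_unit (n := 4) (by
    intro h
    have h' : L.p ∣ 2 ^ 2 := by
      norm_num
      exact h
    exact h2 ((Nat.prime_dvd_prime_iff_eq L.pp Nat.prime_two).1 (L.pp.dvd_of_dvd_pow h')))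
  exact_mod_cast h

omit [CharZero K] [IsAlgClosure K Ω] in
theorem nm_two_odd (L : Ld K Ω) (h2 : L.p ≠ 2) : L.nm (2 : Ω) = 1 := by
  have h := L.nat_unit (n := 2) (fun h =>
    h2 ((Nat.prime_dvd_prime_iff_eq L.pp Nat.prime_two).1 h))
  exact_mod_cast h

omit [CharZero K] [IsAlgClosure K Ω] in
theorem nm_sub_le (L : Ld K Ω) {x y : Ω} (hx : L.nm x ≤ 1) (hy : L.nm y ≤ 1) :
    L.nm (x - y) ≤ 1 := (L.sub x y).trans (max_le hx hy)

omit [CharZero K] [Algebra F K] [IsScalarTower F K Ω] [IsAlgClosure K Ω] in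
/-- The roots of `Ψ₂Sq` for integral equations are integral. -/
theorem root_int (L : Ld K Ω) (h2 : L.p ≠ 2) {W : WeierstrassCurve F} (h : L.It W) {e : Ω}
    (he : aeval e W.Ψ₂Sq = 0) : L.nm e ≤ 1 := by
  by_contra hlt
  rw [not_le] at hlt
  have h4 := L.nm_four h2
  have hpos : 0 < L.nm e := zero_lt_one.trans hlt
  have i1 : algebraMap F Ω W.a₁ ∈ L.V := h.a₁
  have i2 : algebraMap F Ω W.a₂ ∈ L.V := h.a₂
  have i3 : algebraMap F Ω W.a₃ ∈ L.V := h.a₃
  have i4 : algebraMap F Ω W.a₄ ∈ L.V := h.a₄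
  have i6 : algebraMap F Ω W.a₆ ∈ L.V := h.a₆
  have n2 : (2 : Ω) ∈ L.V := by
    have := L.nat_le 2
    rw [← L.mem_V, Nat.cast_ofNat] at this
    exact this
  have n4 : (4 : Ω) ∈ L.V := by
    have := L.nat_le 4
    rw [← L.mem_V, Nat.cast_ofNat] at this
    exact this
  have b2 : L.nm (algebraMap F Ω W.b₂) ≤ 1 := by
    rw [← L.mem_V, WeierstrassCurve.b₂, map_add, map_pow, map_mul, map_ofNat]
    exact add_mem (pow_mem i1 2) (mul_mem n4 i2)
  have b4 : L.nm (algebraMap F Ω W.b₄) ≤ 1 := by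
    rw [← L.mem_V, WeierstrassCurve.b₄, map_add, map_mul, map_mul, map_ofNat]
    exact add_mem (mul_mem n2 i4) (mul_mem i1 i3)
  have b6 : L.nm (algebraMap F Ω W.b₆) ≤ 1 := by
    rw [← L.mem_V, WeierstrassCurve.b₆, map_add, map_pow, map_mul, map_ofNat]
    exact add_mem (pow_mem i3 2) (mul_mem n4 i6)
  rw [psi_aeval] at he
  have he' : 4 * e ^ 3 = -(algebraMap F Ω W.b₂ * e ^ 2 + 2 * algebraMap F Ω W.b₄ * e +
      algebraMap F Ω W.b₆) := by linear_combination he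
  have hn := congrArg L.nm he'
  rw [L.neg, L.mul, L.pow, h4, one_mul] at hn
  have hle : L.nm (algebraMap F Ω W.b₂ * e ^ 2 + 2 * algebraMap F Ω W.b₄ * e +
      algebraMap F Ω W.b₆) ≤ L.nm e ^ 2 := by
    refine (L.add _ _).trans (max_le ((L.add _ _).trans (max_le ?_ ?_)) ?_)
    · rw [L.mul, L.pow]
      exact mul_le_of_le_one_left (by positivity) b2
    · rw [L.mul, L.mul, L.nm_two_odd h2, one_mul]
      calc L.nm (algebraMap F Ω W.b₄) * L.nm e ≤ 1 * L.nm e :=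
            mul_le_mul_of_nonneg_right b4 hpos.le
        _ ≤ L.nm e ^ 2 := by nlinarith
    · refine b6.trans ?_
      nlinarith
  rw [← hn] at hle
  have : L.nm e ^ 2 < L.nm e ^ 3 := by
    have : L.nm e ^ 2 * 1 < L.nm e ^ 2 * L.nm e := by
      apply mul_lt_mul_of_pos_left hlt
      positivity
    nlinarith
  linarith

/-- The roots of `Ψ₂Sq` for a curve with good reduction. -/
theorem exists_g3_aux (L : Ld K Ω) (h2 : L.p ≠ 2) {W : WeierstrassCurve F} (h : L.Gd W) :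
    ∃ e : Fin 3 → Ω, (∀ z : Ω, aeval z W.Ψ₂Sq = 4 * ((z - e 0) * (z - e 1) * (z - e 2))) ∧
      (∀ i, L.nm (e i) ≤ 1) ∧ ∀ i j, i ≠ j → L.nm (e i - e j) = 1 := by
  have hc : CharZero Ω := charZero_of_injective_algebraMap (algebraMap K Ω).injective
  have ha : IsAlgClosed Ω := IsAlgClosure.isAlgClosed K
  obtain ⟨e, he⟩ := psi_split (Ω := Ω) W
  have hint : ∀ i, L.nm (e i) ≤ 1 := by
    intro i
    apply L.root_int h2 h.toIt
    rw [he]
    fin_cases i
    · simp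
    · simp
    · simp
  refine ⟨e, he, hint, ?_⟩
  have e0 := he 0
  have e1 := he 1
  have e2 := he (-1)
  rw [psi_aeval] at e0 e1 e2
  have hb6 : algebraMap F Ω W.b₆ = -4 * (e 0 * e 1 * e 2) := by linear_combination e0
  have hb2 : algebraMap F Ω W.b₂ = -4 * (e 0 + e 1 + e 2) := by
    have : 2 * algebraMap F Ω W.b₂ = 2 * (-4 * (e 0 + e 1 + e 2)) := by
      linear_combination e1 + e2 - 2 * e0
    exact mul_left_cancel₀ two_ne_zero this
  have hb4 : algebraMap F Ω W.b₄ = 2 * (e 0 * e 1 + e 0 * e 2 + e 1 * e 2) := by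
    have : 4 * algebraMap F Ω W.b₄ = 4 * (2 * (e 0 * e 1 + e 0 * e 2 + e 1 * e 2)) := by
      linear_combination e1 - e2
    exact mul_left_cancel₀ (by norm_num : (4 : Ω) ≠ 0) this
  have hrel : 4 * algebraMap F Ω W.b₈ =
      algebraMap F Ω W.b₂ * algebraMap F Ω W.b₆ - algebraMap F Ω W.b₄ ^ 2 := by
    have := congrArg (algebraMap F Ω) W.b_relation
    simpa only [map_mul, map_sub, map_pow, map_ofNat] using this
  have hΔ : algebraMap F Ω W.Δ = 16 * ((e 0 - e 1) * (e 0 - e 2) * (e 1 - e 2)) ^ 2 := by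
    have h1 : algebraMap F Ω W.Δ = -algebraMap F Ω W.b₂ ^ 2 * algebraMap F Ω W.b₈ -
        8 * algebraMap F Ω W.b₄ ^ 3 - 27 * algebraMap F Ω W.b₆ ^ 2 +
        9 * algebraMap F Ω W.b₂ * algebraMap F Ω W.b₄ * algebraMap F Ω W.b₆ := by
      rw [WeierstrassCurve.Δ]
      simp only [map_add, map_sub, map_mul, map_pow, map_neg, map_ofNat]
    have h4 : 4 * algebraMap F Ω W.Δ =
        4 * (16 * ((e 0 - e 1) * (e 0 - e 2) * (e 1 - e 2)) ^ 2) := by
      rw [h1, hb2, hb4, hb6]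
      rw [hb2, hb4, hb6] at hrel
      linear_combination -(-4 * (e 0 + e 1 + e 2)) ^ 2 * hrel
    exact mul_left_cancel₀ (by norm_num : (4 : Ω) ≠ 0) h4
  have hn := congrArg L.nm hΔ
  rw [h.disc, L.mul, L.pow, L.mul, L.mul] at hn
  have h16 : L.nm (16 : Ω) = 1 := by
    have : (16 : Ω) = 4 * 4 := by norm_num
    rw [this, L.mul, L.nm_four h2, one_mul]
  rw [h16, one_mul] at hn
  have l01 := L.nm_sub_le (hint 0) (hint 1)
  have l02 := L.nm_sub_le (hint 0) (hint 2)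
  have l12 := L.nm_sub_le (hint 1) (hint 2)
  have p01 := L.nonneg (e 0 - e 1)
  have p02 := L.nonneg (e 0 - e 2)
  have p12 := L.nonneg (e 1 - e 2)
  have hprod : L.nm (e 0 - e 1) * L.nm (e 0 - e 2) * L.nm (e 1 - e 2) = 1 := by
    have hp : 0 ≤ L.nm (e 0 - e 1) * L.nm (e 0 - e 2) * L.nm (e 1 - e 2) := by positivity
    exact (pow_eq_one_iff_of_nonneg hp two_ne_zero).1 hn.symm
  have aux : ∀ a b c : ℝ, 0 ≤ a → 0 ≤ b → 0 ≤ c → a ≤ 1 → b ≤ 1 → c ≤ 1 → a * b * c = 1 →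
      a = 1 := by
    intro a b c ha hb hc ha1 hb1 hc1 habc
    apply le_antisymm ha1
    rw [← habc, mul_assoc]
    exact mul_le_of_le_one_right ha (mul_le_one₀ hb1 hc hc1)
  have q01 := aux _ _ _ p01 p02 p12 l01 l02 l12 hprod
  have q02 := aux _ _ _ p02 p01 p12 l02 l01 l12 (by rw [← hprod]; ring)
  have q12 := aux _ _ _ p12 p01 p02 l12 l01 l02 (by rw [← hprod]; ring)
  intro i j hij
  fin_cases i <;> fin_cases j
  · exact absurd rfl hij
  · exact q01
  · exact q02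
  · rw [L.sub_comm]
    exact q01
  · exact absurd rfl hij
  · exact q12
  · rw [L.sub_comm]
    exact q02
  · rw [L.sub_comm]
    exact q12
  · exact absurd rfl hij

end Ld

end PE
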