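import Pool.Agent.Lib.MP_f80667_ag.Kf.Tw
import Pool.Agent.Lib.MP_f80667_ag.Pe.Loc

/-! Points of the surface for which the twist is unramified. -/

open ZC BE Polynomial IntermediateField

namespace PE

section tw

variable {F : Type} [Field F] {N : Type} [Field N] [Algebra F N]

/-- The twist by `1 + 4 δ`. -/
noncomputable def tw₂ (W : WeierstrassCurve F) (δ : N) : WeierstrassCurve N :=
  ⟨algebraMap F N W.a₁, algebraMap F N W.a₂ + δ * algebraMap F N W.b₂, algebraMap F N W.a₃,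
    algebraMap F N W.a₄ + 4 * δ * (1 + 2 * δ) * algebraMap F N W.b₄,
    algebraMap F N W.a₆ + (3 * δ + 12 * δ ^ 2 + 16 * δ ^ 3) * algebraMap F N W.b₆⟩

theorem tw₂_tw (W : WeierstrassCurve F) {δ : N} (h : 1 + 4 * δ ≠ 0) :
    Tw (1 + 4 * δ) W (tw₂ W δ) := by
  refine ⟨h, ?_, ?_, ?_⟩
  · simp only [tw₂, WeierstrassCurve.b₂, map_add, map_mul, map_pow, map_ofNat]
    ring
  · simp only [tw₂, WeierstrassCurve.b₄, map_add, map_mul, map_ofNat]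
    ring
  · simp only [tw₂, WeierstrassCurve.b₆, map_add, map_mul, map_pow, map_ofNat]
    ring

/-- The twist by `D`, characteristic not two. -/
noncomputable def twO (W : WeierstrassCurve F) (D : N) : WeierstrassCurve N :=
  ⟨0, D * algebraMap F N W.b₂ / 4, 0, D ^ 2 * algebraMap F N W.b₄ / 2,
    D ^ 3 * algebraMap F N W.b₆ / 4⟩

theorem twO_tw [CharZero N] (W : WeierstrassCurve F) {D : N} (h : D ≠ 0) : Tw D W (twO W D) := by
  refine ⟨h, ?_, ?_, ?_⟩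
  · simp only [twO, WeierstrassCurve.b₂, map_add, map_mul, map_pow, map_ofNat]
    ring
  · simp only [twO, WeierstrassCurve.b₄, map_add, map_mul, map_ofNat]
    ring
  · simp only [twO, WeierstrassCurve.b₆, map_add, map_mul, map_pow, map_ofNat]
    ring

end tw

namespace Ld

variable {K Ω : Type} [Field K] [CharZero K] [Field Ω] [Algebra K Ω] [IsAlgClosure K Ω]

/-- Square roots of `1 + 4 m`, residue characteristic two: `v² + v = m`. Proof: `hens`; the other solution `- 1 - v` is a unit, so `v` is invariant under the automorphisms which fix `m`. -/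
theorem sq_two (L : Ld K Ω) (h2 : L.p = 2) {m : Ω} (hm : L.nm m < 1) :
    ∃ v : Ω, L.nm v = L.nm m ∧ v ^ 2 + v = m ∧ ∀ γ : Ω ≃ₐ[K] Ω, γ m = m → γ v = v := by
  have : Algebra.IsAlgebraic K Ω := IsAlgClosure.isAlgebraic
  have hfd : FiniteDimensional K K⟮m⟯ :=
    adjoin.finiteDimensional (Algebra.IsIntegral.isIntegral m)
  obtain ⟨v, -, hv, hv1⟩ := lifta_quad L.toLf K⟮m⟯ (b := 1) (c := -m) (one_mem _)
    (neg_mem (mem_adjoin_simple_self K m)) L.one.le (by rw [L.neg]; exact hm.le) (x := 0)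
    (zero_mem _) (by rw [L.zero]; exact zero_le_one)
    (by
      have e : (0 : Ω) ^ 2 + 1 * 0 + -m = -m := by ring
      rw [e, L.neg]
      exact hm)
    (by
      have e : 2 * (0 : Ω) + 1 = 1 := by ring
      rw [e, L.one])
  rw [sub_zero] at hv1
  have e : v ^ 2 + v = m := by linear_combination hv
  have hu : ∀ u : Ω, L.nm u < 1 → L.nm (1 + u) = 1 := fun u hu => L.one_add hu
  refine ⟨v, ?_, e, fun γ hγ => ?_⟩
  · rw [← e]
    have e1 : v ^ 2 + v = v * (1 + v) := by ring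
    rw [e1, L.mul, hu v hv1, mul_one]
  · have h1 : (γ v) ^ 2 + γ v = m := by
      rw [← map_pow, ← map_add, e, hγ]
    have h3 : (γ v - v) * (1 + (γ v + v)) = 0 := by
      linear_combination h1 - e
    have h4 : L.nm (γ v + v) < 1 :=
      (L.add _ _).trans_lt (max_lt (by rw [L.act]; exact hv1) hv1)
    rcases mul_eq_zero.1 h3 with h5 | h5
    · exact sub_eq_zero.1 h5
    · exfalso
      have h6 := hu _ h4
      rw [h5, L.zero] at h6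
      exact zero_ne_one h6

/-- Square roots of numbers congruent to `1`, odd residue characteristic. -/
theorem sq_odd (L : Ld K Ω) (h2 : L.p ≠ 2) {ε : Ω} (hm : L.nm (ε - 1) < 1) :
    ∃ v : Ω, L.nm (v - 1) < 1 ∧ v ^ 2 = ε ∧ (∀ u : Ω, L.nm (u - 1) < 1 → u ^ 2 = ε → u = v) ∧
      ∀ γ : Ω ≃ₐ[K] Ω, γ ε = ε → γ v = v := by
  have : Algebra.IsAlgebraic K Ω := IsAlgClosure.isAlgebraic
  have hfd : FiniteDimensional K K⟮ε⟯ :=
    adjoin.finiteDimensional (Algebra.IsIntegral.isIntegral ε)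
  have hε : L.nm ε ≤ 1 := by
    have e : ε = (ε - 1) + 1 := by ring
    rw [e]
    exact (L.add _ _).trans (max_le hm.le L.one.le)
  have h2u : L.nm (2 : Ω) = 1 := by
    have h := L.nat_unit (n := 2) fun hd => h2 ((Nat.prime_dvd_prime_iff_eq L.pp Nat.prime_two).1 hd)
    rwa [Nat.cast_ofNat] at h
  obtain ⟨v, -, hv, hv1⟩ := lifta_quad L.toLf K⟮ε⟯ (b := 0) (c := -ε) (zero_mem _)
    (neg_mem (mem_adjoin_simple_self K ε)) (by rw [L.zero]; exact zero_le_one)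
    (by rw [L.neg]; exact hε) (x := 1)
    (one_mem _) L.one.le
    (by
      have e : (1 : Ω) ^ 2 + 0 * 1 + -ε = -(ε - 1) := by ring
      rw [e, L.neg]
      exact hm)
    (by
      have e : 2 * (1 : Ω) + 0 = 2 := by ring
      rw [e, h2u])
  have e : v ^ 2 = ε := by linear_combination hv
  have huniq : ∀ u : Ω, L.nm (u - 1) < 1 → u ^ 2 = ε → u = v := by
    intro u hu hu2
    have h3 : (u - v) * (u + v) = 0 := by
      linear_combination hu2 - e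
    rcases mul_eq_zero.1 h3 with h5 | h5
    · exact sub_eq_zero.1 h5
    · exfalso
      have h6 : L.nm ((u - 1) + (v - 1)) < 1 := (L.add _ _).trans_lt (max_lt hu hv1)
      have e2 : (u - 1) + (v - 1) = -2 := by linear_combination h5
      rw [e2, L.neg, h2u] at h6
      exact lt_irrefl _ h6
  refine ⟨v, hv1, e, huniq, fun γ hγ => huniq _ ?_ ?_⟩
  · have e1 : γ v - 1 = γ (v - 1) := by rw [map_sub, map_one]
    rw [e1, L.act]
    exact hv1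
  · rw [← map_pow, e, hγ]

/-- Representatives of the residues in the same field. Proof: `te_rep`; `te_act`, `te_inj` for the last assertion; `N = K(z)`, it is contained in `Ur ⊥ n`. -/
theorem te_fld (L : Ld K Ω) {δ : Ω} (hδ : L.nm δ ≤ 1) :
    ∃ (z : Ω) (n : ℕ), n ≠ 0 ∧ L.nm z ≤ 1 ∧ L.nm (δ - z) < 1 ∧ K⟮z⟯ ≤ L.Ur ⊥ n ∧
      ∀ γ : Ω ≃ₐ[K] Ω, γ δ = δ → γ z = z := by
  obtain ⟨n, hn, z, hz, hδz⟩ := te_rep (L := L) hδ
  refine ⟨z, n, hn, te_int hn hz, hδz, adjoin_simple_le_iff.2 (te_ur hz), fun γ hγ => ?_⟩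
  refine te_inj hn (te_act γ hz) hz ?_
  have h1 : L.nm (γ (z - δ)) < 1 := by
    rw [L.act, ← neg_sub, L.neg]
    exact hδz
  have e : γ z - z = γ (z - δ) + (δ - z) := by
    rw [map_sub, hγ]
    ring
  rw [e]
  exact (L.add _ _).trans_lt (max_lt h1 hδz)

variable {F : Type} [Field F] [Algebra F K] [Algebra F Ω] [IsScalarTower F K Ω]
  {W₁ W₂ : WeierstrassCurve F} [W₁.IsElliptic] [W₂.IsElliptic]

/-- The symbols are divisible by two. Proof: `el` and `Sc.t_div` (`loc` for all `n` if `p` is odd; if `p = 2`: `loc` with `n = 2`). -/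
theorem t2_loc (L : Ld K Ω) [L.Unr] (h₁ : L.Hd W₁) (h₂ : L.Gd W₂)
    (hss : L.p = 2 → L.nm (algebraMap F Ω W₂.a₁) < 1) : T2 K Ω W₁ W₂ := by
  intro x hx
  exact loc ((Xv W₁ W₂).ratEq K Ω) le_rfl h₁ h₂ hss 2 two_ne_zero x hx

omit [CharZero K] [IsAlgClosure K Ω] [Algebra F K] [IsScalarTower F K Ω] in
/-- The numbers `b₂`, `b₄`, `b₆` are integral. -/
private theorem unv_b (L : Ld K Ω) {W : WeierstrassCurve F} (h : L.It W) :
    algebraMap F Ω W.b₂ ∈ L.V ∧ algebraMap F Ω W.b₄ ∈ L.V ∧ algebraMap F Ω W.b₆ ∈ L.V := by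
  have h1 : algebraMap F Ω W.a₁ ∈ L.V := h.a₁
  have h2 : algebraMap F Ω W.a₂ ∈ L.V := h.a₂
  have h3 : algebraMap F Ω W.a₃ ∈ L.V := h.a₃
  have h4 : algebraMap F Ω W.a₄ ∈ L.V := h.a₄
  have h6 : algebraMap F Ω W.a₆ ∈ L.V := h.a₆
  refine ⟨?_, ?_, ?_⟩
  · rw [WeierstrassCurve.b₂, map_add, map_pow, map_mul, map_ofNat]
    exact add_mem (pow_mem h1 2) (mul_mem (ofNat_mem L.V 4) h2)
  · rw [WeierstrassCurve.b₄, map_add, map_mul, map_mul, map_ofNat]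
    exact add_mem (mul_mem (ofNat_mem L.V 2) h4) (mul_mem h1 h3)
  · rw [WeierstrassCurve.b₆, map_add, map_pow, map_mul, map_ofNat]
    exact add_mem (pow_mem h3 2) (mul_mem (ofNat_mem L.V 4) h6)

variable [CharZero F]

/-- The common part of the two cases. -/
private theorem unv_main (L : Ld K Ω) [L.Unr] {z : Ω} {n : ℕ} (hn : n ≠ 0)
    (hU : K⟮z⟯ ≤ L.Ur ⊥ n) [IsScalarTower F K⟮z⟯ Ω] {D : K⟮z⟯} {V₁ V₂ : WeierstrassCurve K⟮z⟯}
    (t₁ : Tw D W₁ V₁) (t₂ : Tw D W₂ V₂)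
    (h₁ : ∀ L' : Ld K⟮z⟯ Ω, L'.p = L.p → (∀ x, L'.nm x = L.nm x) → L'.Hd V₁)
    (h₂ : ∀ L' : Ld K⟮z⟯ Ω, L'.p = L.p → (∀ x, L'.nm x = L.nm x) → L'.Gd V₂)
    (hss : L.p = 2 → L.nm (algebraMap K⟮z⟯ Ω V₂.a₁) < 1)
    {x y w r : Ω} (h : Sp W₁.Ψ₂Sq W₂.Ψ₂Sq x y w)
    (hM : ∀ γ : Ω ≃ₐ[K] Ω, γ x = x → γ y = y → γ w = w → γ z = z ∧ γ r = r)
    (hr : aeval x W₁.Ψ₂Sq = algebraMap K⟮z⟯ Ω D * r ^ 2) :
    Tp W₁.Ψ₂Sq W₂.Ψ₂Sq K (kp W₁.Ψ₂Sq W₂.Ψ₂Sq x y w) := by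
  have hcl : IsAlgClosed Ω := IsAlgClosure.isAlgClosed K
  have halg : Algebra.IsAlgebraic K Ω := IsAlgClosure.isAlgebraic
  have hfd : FiniteDimensional K K⟮z⟯ :=
    adjoin.finiteDimensional (Algebra.IsIntegral.isIntegral z)
  have hac : IsAlgClosure K⟮z⟯ Ω := ⟨hcl, Algebra.IsAlgebraic.tower_top (K := K) K⟮z⟯⟩
  obtain ⟨L', hp, hL'⟩ := L.exists_bsL K⟮z⟯
  have hu : L'.Unr := ⟨fun x hx => by
    have hx0 : (x : Ω) ≠ 0 := fun h0 => hx (Subtype.ext h0)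
    obtain ⟨k, hk⟩ := Ld.ur_unr (L := L) hn (hU x.2) hx0
    refine ⟨k, ?_⟩
    rw [hp, hL', hL']
    exact hk⟩
  have e₁ : V₁.IsElliptic := ⟨by
    rw [isUnit_iff_ne_zero, t₁.disc]
    exact mul_ne_zero (pow_ne_zero 6 t₁.ne)
      ((_root_.map_ne_zero (algebraMap F K⟮z⟯)).2 W₁.isUnit_Δ.ne_zero)⟩
  have e₂ : V₂.IsElliptic := ⟨by
    rw [isUnit_iff_ne_zero, t₂.disc]
    exact mul_ne_zero (pow_ne_zero 6 t₂.ne)
      ((_root_.map_ne_zero (algebraMap F K⟮z⟯)).2 W₂.isUnit_Δ.ne_zero)⟩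
  have hT : T2 K⟮z⟯ Ω V₁ V₂ := t2_loc L' (h₁ L' hp hL') (h₂ L' hp hL') (fun h2 => by
    rw [hL']
    exact hss (hp.symm.trans h2))
  refine tw_tp K⟮z⟯ t₁ t₂ hT h (fun γ hx hy hw => ?_) hr
  obtain ⟨hz, hr'⟩ := hM γ hx hy hw
  refine ⟨?_, hr'⟩
  have h3 := (IntermediateField.forall_mem_adjoin_smul_eq_self_iff K (S := {z}) γ).2 (by
    intro x hx
    rw [Set.mem_singleton_iff] at hx
    rw [hx]
    exact hz)
  exact (IntermediateField.mem_fixingSubgroup_iff _ γ).2 h3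

/-- **Unramified twist, residue characteristic two.** Proof: `te_fld` for `δ`: `z`; `N = K⟮z⟯`, `δ₀ = z` in `N`. `1 + 4 δ = (1 + 4 z) (1 + 4 m)`, `m = (δ - z) / (1 + 4 z)`, `1 + 4 m = (1 + 2 v)²` (`sq_two`), `r' = r (1 + 2 v)`: `f(x) = (1 + 4 z) r'²`. `exists_bsL` for `N`: `L'`,
`L'.Unr` by `ur_unr`. `tw₂ W₁ δ₀` satisfies `L'.Hd`, `tw₂ W₂ δ₀` satisfies `L'.Gd` (`Tw.disc`), they are elliptic. `t2_loc`, `tw_tp`. -/
theorem unr_two (L : Ld K Ω) [L.Unr] (h2 : L.p = 2) (h₁ : L.Hd W₁) (h₂ : L.Gd W₂)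
    (hss : L.nm (algebraMap F Ω W₂.a₁) < 1) {x y w r δ : Ω} (h : Sp W₁.Ψ₂Sq W₂.Ψ₂Sq x y w)
    (hγ : ∀ γ : Ω ≃ₐ[K] Ω, γ x = x → γ y = y → γ w = w → γ r = r ∧ γ δ = δ) (hδ : L.nm δ ≤ 1)
    (hr : aeval x W₁.Ψ₂Sq = r ^ 2 * (1 + 4 * δ)) :
    Tp W₁.Ψ₂Sq W₂.Ψ₂Sq K (kp W₁.Ψ₂Sq W₂.Ψ₂Sq x y w) := by
  obtain ⟨z, n, hn, hz, hδz, hU, hγz⟩ := te_fld L hδ
  have i2 : IsScalarTower F K⟮z⟯ Ω := IsScalarTower.of_algebraMap_eq fun _ => rfl
  have hn4 : L.nm (4 : Ω) < 1 := by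
    have h3 := L.lt
    rw [h2, Nat.cast_ofNat] at h3
    have e : (4 : Ω) = 2 * 2 := by norm_num
    rw [e, L.mul]
    exact mul_lt_one_of_nonneg_of_lt_one_left (L.nonneg _) h3 h3.le
  have hz4 : L.nm (4 * z) < 1 := by
    rw [L.mul]
    exact mul_lt_one_of_nonneg_of_lt_one_left (L.nonneg _) hn4 hz
  have hD1 : L.nm (1 + 4 * z) = 1 := L.one_add hz4
  have hD0 : 1 + 4 * z ≠ 0 := L.ne_zero (by rw [hD1]; exact zero_lt_one)
  obtain ⟨m, hm⟩ : ∃ m : Ω, m = (δ - z) / (1 + 4 * z) := ⟨_, rfl⟩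
  have hm1 : L.nm m < 1 := by
    rw [hm, L.div, hD1, div_one]
    exact hδz
  obtain ⟨v, -, hv, hγv⟩ := L.sq_two h2 hm1
  obtain ⟨d, hd⟩ : ∃ d : K⟮z⟯, algebraMap K⟮z⟯ Ω d = z :=
    ⟨⟨z, mem_adjoin_simple_self K z⟩, rfl⟩
  have hDd : algebraMap K⟮z⟯ Ω (1 + 4 * d) = 1 + 4 * z := by
    rw [map_add, map_mul, map_one, map_ofNat, hd]
  have hd0 : 1 + 4 * d ≠ 0 := by
    intro h0
    rw [h0, map_zero] at hDd
    exact hD0 hDd.symm
  have hal : ∀ a : F, algebraMap K⟮z⟯ Ω (algebraMap F K⟮z⟯ a) = algebraMap F Ω a := fun a =>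
    (IsScalarTower.algebraMap_apply F K⟮z⟯ Ω a).symm
  have it : ∀ (L' : Ld K⟮z⟯ Ω), (∀ x, L'.nm x = L.nm x) → ∀ W : WeierstrassCurve F, L.It W →
      L'.It (tw₂ W d) := by
    intro L' hL' W hW
    obtain ⟨b2, b4, b6⟩ := unv_b L hW
    have hzV : z ∈ L.V := hz
    have a1 : algebraMap F Ω W.a₁ ∈ L.V := hW.a₁
    have a2 : algebraMap F Ω W.a₂ ∈ L.V := hW.a₂
    have a3 : algebraMap F Ω W.a₃ ∈ L.V := hW.a₃
    have a4 : algebraMap F Ω W.a₄ ∈ L.V := hW.a₄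
    have a6 : algebraMap F Ω W.a₆ ∈ L.V := hW.a₆
    refine ⟨?_, ?_, ?_, ?_, ?_⟩ <;> rw [hL']
    · exact (hal W.a₁).symm ▸ a1
    · have e : algebraMap K⟮z⟯ Ω (tw₂ W d).a₂ = algebraMap F Ω W.a₂ + z * algebraMap F Ω W.b₂ := by
        simp only [tw₂, map_add, map_mul, hal, hd]
      rw [e]
      exact add_mem a2 (mul_mem hzV b2)
    · exact (hal W.a₃).symm ▸ a3
    · have e : algebraMap K⟮z⟯ Ω (tw₂ W d).a₄ = algebraMap F Ω W.a₄ +
          4 * z * (1 + 2 * z) * algebraMap F Ω W.b₄ := by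
        simp only [tw₂, map_add, map_mul, map_one, map_ofNat, hal, hd]
      rw [e]
      exact add_mem a4 (mul_mem (mul_mem (mul_mem (ofNat_mem L.V 4) hzV)
        (add_mem (one_mem _) (mul_mem (ofNat_mem L.V 2) hzV))) b4)
    · have e : algebraMap K⟮z⟯ Ω (tw₂ W d).a₆ = algebraMap F Ω W.a₆ +
          (3 * z + 12 * z ^ 2 + 16 * z ^ 3) * algebraMap F Ω W.b₆ := by
        simp only [tw₂, map_add, map_mul, map_pow, map_ofNat, hal, hd]
      rw [e]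
      exact add_mem a6 (mul_mem (add_mem (add_mem (mul_mem (ofNat_mem L.V 3) hzV)
        (mul_mem (ofNat_mem L.V 12) (pow_mem hzV 2)))
        (mul_mem (ofNat_mem L.V 16) (pow_mem hzV 3))) b6)
  have dsc : ∀ (L' : Ld K⟮z⟯ Ω), (∀ x, L'.nm x = L.nm x) → ∀ W : WeierstrassCurve F,
      L'.nm (algebraMap K⟮z⟯ Ω (tw₂ W d).Δ) = L.nm (algebraMap F Ω W.Δ) := by
    intro L' hL' W
    rw [hL', (tw₂_tw W hd0).disc, map_mul, map_pow, hDd, hal, L.mul, L.pow, hD1, one_pow, one_mul]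
  refine unv_main (r := r * (1 + 2 * v)) L hn hU (tw₂_tw W₁ hd0) (tw₂_tw W₂ hd0)
    (fun L' hp hL' => ⟨it L' hL' W₁ h₁.toIt, ?_⟩) (fun L' hp hL' => ⟨it L' hL' W₂ h₂.toIt, ?_⟩)
    (fun _ => ?_) h (fun γ hx hy hw => ?_) ?_
  · rw [dsc L' hL', hp, hL']
    exact h₁.disc
  · rw [dsc L' hL']
    exact h₂.disc
  · exact (hal W₂.a₁).symm ▸ hss
  · obtain ⟨hr1, hδ1⟩ := hγ γ hx hy hw
    have hz1 := hγz γ hδ1
    refine ⟨hz1, ?_⟩
    have hm2 : γ m = m := by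
      rw [hm, map_div₀, map_sub, map_add, map_mul, map_one, map_ofNat, hδ1, hz1]
    rw [map_mul, map_add, map_mul, map_one, map_ofNat, hr1, hγv γ hm2]
  · rw [hr, hDd]
    have e1 : 1 + 4 * δ = (1 + 4 * z) * (1 + 4 * m) := by
      rw [hm]
      field_simp
      ring
    rw [e1, ← hv]
    ring

/-- **Unramified twist, odd residue characteristic.** Proof: `te_fld` for `ε`: `z` of norm `1`; `N = K⟮z⟯`, `ε / z = v²` (`sq_odd`): `f(x) = z (r v)²`. `twO W₁ z`, `twO W₂ z` (`2` is a unit); as `unr_two`. -/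
theorem unr_odd (L : Ld K Ω) [L.Unr] (h2 : L.p ≠ 2) (h₁ : L.Hd W₁) (h₂ : L.Gd W₂)
    {x y w r ε : Ω} (h : Sp W₁.Ψ₂Sq W₂.Ψ₂Sq x y w)
    (hγ : ∀ γ : Ω ≃ₐ[K] Ω, γ x = x → γ y = y → γ w = w → γ r = r ∧ γ ε = ε) (hε : L.nm ε = 1)
    (hr : aeval x W₁.Ψ₂Sq = r ^ 2 * ε) :
    Tp W₁.Ψ₂Sq W₂.Ψ₂Sq K (kp W₁.Ψ₂Sq W₂.Ψ₂Sq x y w) := by
  obtain ⟨z, n, hn, hz, hεz, hU, hγz⟩ := te_fld L hε.le
  have i2 : IsScalarTower F K⟮z⟯ Ω := IsScalarTower.of_algebraMap_eq fun _ => rfl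
  have hz1 : L.nm z = 1 := by
    have h3 : L.nm (z - ε) < L.nm ε := by
      rw [← neg_sub, L.neg, hε]
      exact hεz
    rw [L.eq_of_close h3, hε]
  have hz0 : z ≠ 0 := L.ne_zero (by rw [hz1]; exact zero_lt_one)
  have hm1 : L.nm (ε / z - 1) < 1 := by
    have e : ε / z - 1 = (ε - z) / z := by
      field_simp
    rw [e, L.div, hz1, div_one]
    exact hεz
  obtain ⟨v, -, hv, -, hγv⟩ := L.sq_odd h2 hm1
  obtain ⟨d, hd⟩ : ∃ d : K⟮z⟯, algebraMap K⟮z⟯ Ω d = z :=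
    ⟨⟨z, mem_adjoin_simple_self K z⟩, rfl⟩
  have hd0 : d ≠ 0 := by
    intro h0
    rw [h0, map_zero] at hd
    exact hz0 hd.symm
  have hal : ∀ a : F, algebraMap K⟮z⟯ Ω (algebraMap F K⟮z⟯ a) = algebraMap F Ω a := fun a =>
    (IsScalarTower.algebraMap_apply F K⟮z⟯ Ω a).symm
  have n2 : L.nm (2 : Ω) = 1 := by
    have h := L.nat_unit (n := 2) (fun h =>
      h2 ((Nat.prime_dvd_prime_iff_eq L.pp Nat.prime_two).1 h))
    exact_mod_cast h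
  have n4 : L.nm (4 : Ω) = 1 := by
    have e : (4 : Ω) = 2 * 2 := by norm_num
    rw [e, L.mul, n2, one_mul]
  have it : ∀ (L' : Ld K⟮z⟯ Ω), (∀ x, L'.nm x = L.nm x) → ∀ W : WeierstrassCurve F, L.It W →
      L'.It (twO W d) := by
    intro L' hL' W hW
    obtain ⟨b2, b4, b6⟩ := unv_b L hW
    refine ⟨?_, ?_, ?_, ?_, ?_⟩ <;> rw [hL']
    · have e : algebraMap K⟮z⟯ Ω (twO W d).a₁ = 0 := by
        simp only [twO, map_zero]
      rw [e, L.zero]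
      exact zero_le_one
    · have e : algebraMap K⟮z⟯ Ω (twO W d).a₂ = z * algebraMap F Ω W.b₂ / 4 := by
        simp only [twO, map_div₀, map_mul, map_ofNat, hal, hd]
      rw [e, L.div, L.mul, n4, hz1, div_one, one_mul]
      exact b2
    · have e : algebraMap K⟮z⟯ Ω (twO W d).a₃ = 0 := by
        simp only [twO, map_zero]
      rw [e, L.zero]
      exact zero_le_one
    · have e : algebraMap K⟮z⟯ Ω (twO W d).a₄ = z ^ 2 * algebraMap F Ω W.b₄ / 2 := by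
        simp only [twO, map_div₀, map_mul, map_pow, map_ofNat, hal, hd]
      rw [e, L.div, L.mul, L.pow, n2, hz1, div_one, one_pow, one_mul]
      exact b4
    · have e : algebraMap K⟮z⟯ Ω (twO W d).a₆ = z ^ 3 * algebraMap F Ω W.b₆ / 4 := by
        simp only [twO, map_div₀, map_mul, map_pow, map_ofNat, hal, hd]
      rw [e, L.div, L.mul, L.pow, n4, hz1, div_one, one_pow, one_mul]
      exact b6
  have dsc : ∀ (L' : Ld K⟮z⟯ Ω), (∀ x, L'.nm x = L.nm x) → ∀ W : WeierstrassCurve F,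
      L'.nm (algebraMap K⟮z⟯ Ω (twO W d).Δ) = L.nm (algebraMap F Ω W.Δ) := by
    intro L' hL' W
    rw [hL', (twO_tw W hd0).disc, map_mul, map_pow, hd, hal, L.mul, L.pow, hz1, one_pow, one_mul]
  refine unv_main (r := r * v) L hn hU (twO_tw W₁ hd0) (twO_tw W₂ hd0)
    (fun L' hp hL' => ⟨it L' hL' W₁ h₁.toIt, ?_⟩) (fun L' hp hL' => ⟨it L' hL' W₂ h₂.toIt, ?_⟩)
    (fun h3 => absurd h3 h2) h (fun γ hx hy hw => ?_) ?_
  · rw [dsc L' hL', hp, hL']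
    exact h₁.disc
  · rw [dsc L' hL']
    exact h₂.disc
  · obtain ⟨hr1, hε1⟩ := hγ γ hx hy hw
    have hz2 := hγz γ hε1
    refine ⟨hz2, ?_⟩
    rw [map_mul, hr1, hγv γ (by rw [map_div₀, hε1, hz2])]
  · rw [hr, hd, mul_pow, hv]
    field_simp

end Ld

end PE
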