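import Pool.Agent.Lib.MP_f80667_ag.Kf.Sw
import Pool.Agent.Lib.MP_f80667_ag.Kf.Un
import Pool.Agent.Lib.MP_f80667_ag.Kf.OdA

/-! Odd residue characteristic. -/

open ZC BE Polynomial IntermediateField

namespace PE

variable {F : Type} [Field F] {f g : F[X]} {K : Type} [Field K] [CharZero K]
  [Algebra F K] {Ω : Type} [Field Ω] [Algebra K Ω] [Algebra F Ω] [IsScalarTower F K Ω]
  [IsAlgClosure K Ω]

namespace Ld

/-- `g = 4 (z - e 0) (z - e 1) (z - e 2)` with integral incongruent roots. -/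
structure G3 (L : Ld K Ω) (g : F[X]) (e : Fin 3 → Ω) : Prop where
  eq : ∀ z : Ω, aeval z g = 4 * ((z - e 0) * (z - e 1) * (z - e 2))
  int : ∀ i, L.nm (e i) ≤ 1
  sep : ∀ i j, i ≠ j → L.nm (e i - e j) = 1

/-- The roots of `4 x³ + b₂ x² + 2 b₄ x + b₆`. Proof: `Ω` is algebraically closed; `Δ = 16 (e₀ - e₁)² (e₀ - e₂)² (e₁ - e₂)²` is a unit. -/
theorem exists_g3 (L : Ld K Ω) (h2 : L.p ≠ 2) {W : WeierstrassCurve F} (h : L.Gd W) :
    ∃ e, L.G3 W.Ψ₂Sq e := by
  obtain ⟨e, h1, h3, h4⟩ := L.exists_g3_aux h2 h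
  exact ⟨e, h1, h3, h4⟩

variable [C3 f] [C3 g]

omit [IsAlgClosure K Ω] [C3 f] [C3 g] in
/-- The automorphisms permute the roots. -/
private theorem G3.perm {L : Ld K Ω} {e : Fin 3 → Ω} (h : L.G3 g e) (γ : Ω ≃ₐ[K] Ω) (i : Fin 3) :
    ∃ j, γ (e i) = e j := by
  have hcz : CharZero Ω := charZero_of_injective_algebraMap (algebraMap K Ω).injective
  have h0 : aeval (e i) g = 0 := by
    rw [h.eq]
    fin_cases i
    · simp
    · simp
    · simp
  have h1 : aeval (γ (e i)) g = 0 := by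
    have h3 : aeval (γ (e i)) g = γ (aeval (e i) g) :=
      Polynomial.aeval_algHom_apply (γ.restrictScalars F : Ω →ₐ[F] Ω) (e i) g
    rw [h3, h0, map_zero]
  rw [h.eq] at h1
  rcases mul_eq_zero.1 ((mul_eq_zero.1 h1).resolve_left (by norm_num)) with h2 | h2
  · rcases mul_eq_zero.1 h2 with h2 | h2
    · exact ⟨0, sub_eq_zero.1 h2⟩
    · exact ⟨1, sub_eq_zero.1 h2⟩
  · exact ⟨2, sub_eq_zero.1 h2⟩

/-- `|y| > 1`. Proof: `half_tp`: by `sq_odd` let `1 - e i / y = (v i)²`, `nm (v i - 1) < 1`, `ρ₀ = w / (2 y v₀ v₁ v₂)`, `ρ i = ρ₀ v i`: `ρ₀² = f(x) y` because `w² = f(x) g(y) = 4 f(x) y³ (v₀ v₁ v₂)²`. An automorphism which fixes `x`, `y`, `w` permutes the `e i` (different roots of `g`), and the `v i` in the same way (uniqueness in `sq_odd`). -/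
theorem G3.far {L : Ld K Ω} (h2 : L.p ≠ 2) {e : Fin 3 → Ω} (h : L.G3 g e) {x y w : Ω}
    (hs : Sp f g x y w) (hy : 1 < L.nm y) : Tp f g K (kp f g x y w) := by
  have hcz : CharZero Ω := charZero_of_injective_algebraMap (algebraMap K Ω).injective
  have hy0 : y ≠ 0 := L.ne_zero (zero_lt_one.trans hy)
  have hd : aeval x f ≠ 0 := hs.fx
  have hlt : ∀ i, L.nm ((1 - e i / y) - 1) < 1 := by
    intro i
    have e1 : (1 - e i / y) - 1 = -(e i / y) := by ring
    rw [e1, L.neg, L.div]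
    exact (div_lt_one (zero_lt_one.trans hy)).2 ((h.int i).trans_lt hy)
  choose v hv1 hv2 hv3 _ using fun i => L.sq_odd h2 (hlt i)
  have hv0 : ∀ i, v i ≠ 0 := by
    intro i h0
    have h1 := hv1 i
    rw [h0, zero_sub, L.neg, L.one] at h1
    exact lt_irrefl _ h1
  have hV0 : v 0 * v 1 * v 2 ≠ 0 := mul_ne_zero (mul_ne_zero (hv0 0) (hv0 1)) (hv0 2)
  have hei : ∀ i, e i = y * (1 - v i ^ 2) := by
    intro i
    rw [hv2]
    field_simp
    ring
  have hw2 : w ^ 2 = aeval x f * (4 * y ^ 3 * (v 0 * v 1 * v 2) ^ 2) := by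
    rw [hs.1, h.eq y, hei 0, hei 1, hei 2]
    ring
  refine half_tp hs e (fun i => w / (2 * y * (v 0 * v 1 * v 2)) * v i) h.eq ?_ ?_
  · intro i
    have e1 : (w / (2 * y * (v 0 * v 1 * v 2)) * v i) ^ 2 =
        w ^ 2 * v i ^ 2 / (4 * y ^ 2 * (v 0 * v 1 * v 2) ^ 2) := by
      rw [div_mul_eq_mul_div, div_pow, mul_pow]
      congr 1
      ring
    rw [e1, hw2, hei i]
    have h4 : (4 : Ω) * y ^ 2 * (v 0 * v 1 * v 2) ^ 2 ≠ 0 :=
      mul_ne_zero (mul_ne_zero (by norm_num) (pow_ne_zero 2 hy0)) (pow_ne_zero 2 hV0)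
    rw [div_eq_iff h4]
    ring
  · intro γ hγx hγy hγw
    have hroot : ∀ i, ∃ j, γ (e i) = e j := fun i => h.perm γ i
    choose τ hτ using hroot
    have hinj : Function.Injective τ := by
      intro i j hij
      by_contra hne
      have h1 : γ (e i) = γ (e j) := by rw [hτ, hτ, hij]
      have h3 : e i = e j := γ.injective h1
      have h4 := h.sep i j hne
      rw [h3, sub_self, L.zero] at h4
      exact zero_ne_one h4
    have hbij : Function.Bijective τ := Finite.injective_iff_bijective.1 hinj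
    have hvτ : ∀ i, γ (v i) = v (τ i) := by
      intro i
      refine hv3 (τ i) _ ?_ ?_
      · have e1 : γ (v i) - 1 = γ (v i - 1) := by rw [map_sub, map_one]
        rw [e1, L.act]
        exact hv1 i
      · rw [← map_pow, hv2, map_sub, map_one, map_div₀, hγy, hτ]
    refine ⟨Equiv.ofBijective τ hbij, fun i => ⟨hτ i, ?_⟩⟩
    have hprod : γ (v 0 * v 1 * v 2) = v 0 * v 1 * v 2 := by
      have e1 : ∏ i, v i = v 0 * v 1 * v 2 := Fin.prod_univ_three v
      rw [← e1, map_prod, ← Equiv.prod_comp (Equiv.ofBijective τ hbij) v]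
      exact Finset.prod_congr rfl fun i _ => hvτ i
    have h2' : γ 2 = 2 := map_ofNat γ 2
    have e2 : Equiv.ofBijective τ hbij i = τ i := rfl
    rw [e2, map_mul, map_div₀, map_mul, map_mul, hprod, hγw, hγy, h2', hvτ]

/-- `G3.near` for the root `e i`; `j`, `k` are the other indices. -/
private theorem G3.near_aux {L : Ld K Ω} (h2 : L.p ≠ 2) {e : Fin 3 → Ω} (h : L.G3 g e) {x y w : Ω}
    {i j k : Fin 3} (hij : j ≠ i) (hik : k ≠ i)
    (heq : ∀ z : Ω, aeval z g = 4 * ((z - e i) * (z - e j) * (z - e k)))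
    (hs : Sp f g x y w) (hy : L.nm (y - e i) < 1) : Tp f g K (kp f g x y w) := by
  have hcz : CharZero Ω := charZero_of_injective_algebraMap (algebraMap K Ω).injective
  have hd : aeval x f ≠ 0 := hs.fx
  have ht : y - e i ≠ 0 := by
    intro h0
    apply hs.gy
    rw [heq, h0, zero_mul, zero_mul, mul_zero]
  obtain ⟨t, htt⟩ : ∃ t, t = y - e i := ⟨_, rfl⟩
  have hyt : y = t + e i := by rw [htt]; ring
  rw [← htt] at ht hy
  have hw2 : w ^ 2 = aeval x f * (4 * (t * (y - e j) * (y - e k))) := by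
    rw [hs.1, heq y, htt]
  have hes : ∀ w' : Ω, ¬ Sp f g x (e i) w' := by
    intro w' h'
    apply h'.gy
    rw [heq, sub_self, zero_mul, zero_mul, mul_zero]
  refine line_y (a := w / t) (b := -(w / t * e i)) (c := -4 * aeval x f) (y₁ := e i)
    (y₂ := e i + (e j - e i) * (e k - e i) / t) hs (mul_ne_zero (by norm_num) hd) ?_ ?_
    (fun _ w' h' => absurd h' (hes w')) (fun _ w' h' => h.far h2 h' ?_)
  · intro z
    have e1 : (w / t * z + -(w / t * e i)) ^ 2 = w ^ 2 * (z - e i) ^ 2 / t ^ 2 := by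
      field_simp
      ring
    rw [e1, hw2, heq z, hyt]
    field_simp
    ring
  · intro γ hγx hγy hγw
    have hei : γ (e i) = e i := by
      obtain ⟨l, hl⟩ := h.perm γ i
      by_cases hli : l = i
      · rw [hl, hli]
      · exfalso
        have h3 : L.nm (γ (y - e i)) < 1 := by
          rw [L.act, ← htt]
          exact hy
        rw [map_sub, hγy, hl] at h3
        have h4 : L.nm (e l - e i) < 1 := by
          have e1 : e l - e i = (y - e i) - (y - e l) := by ring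
          rw [e1]
          rw [htt] at hy
          exact (L.sub _ _).trans_lt (max_lt hy h3)
        rw [h.sep l i hli] at h4
        exact lt_irrefl _ h4
    have htγ : γ t = t := by rw [htt, map_sub, hγy, hei]
    constructor
    · rw [map_div₀, hγw, htγ]
    · rw [map_neg, map_mul, map_div₀, hγw, htγ, hei]
  · by_contra hle
    rw [not_lt] at hle
    have h3 : L.nm ((e i + (e j - e i) * (e k - e i) / t) - e i) ≤ 1 := L.nm_sub_le hle (h.int i)
    rw [add_sub_cancel_left, L.div, L.mul, h.sep j i hij, h.sep k i hik, mul_one] at h3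
    have h4 : 0 < L.nm t := L.pos ht
    rw [div_le_one h4] at h3
    exact absurd hy (not_lt.2 h3)

/-- `y` is congruent to a root `e i`. Proof: let `i = 0` and `t = y - e 0`. `e 0` is fixed by the automorphisms which fix `y` (`sep`). `line_y` with the line `(w / t) (z - e 0)`, the leading coefficient `- 4 f(x)` and `y₁ = e 0`, `y₂ = e 0 + (e 1 - e 0) (e 2 - e 0) / t`, so `nm y₂ > 1`: `G3.far`; there is no point `Sp f g x (e 0) w`. -/
theorem G3.near {L : Ld K Ω} (h2 : L.p ≠ 2) {e : Fin 3 → Ω} (h : L.G3 g e) {x y w : Ω}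
    (hs : Sp f g x y w) {i : Fin 3} (hy : L.nm (y - e i) < 1) : Tp f g K (kp f g x y w) := by
  fin_cases i
  · exact h.near_aux h2 (i := 0) (j := 1) (k := 2) (by decide) (by decide) h.eq hs hy
  · exact h.near_aux h2 (i := 1) (j := 0) (k := 2) (by decide) (by decide)
      (fun z => by rw [h.eq z]; ring) hs hy
  · exact h.near_aux h2 (i := 2) (j := 0) (k := 1) (by decide) (by decide)
      (fun z => by rw [h.eq z]; ring) hs hy

/-- All points. -/
theorem G3.all {L : Ld K Ω} (h2 : L.p ≠ 2) {e : Fin 3 → Ω} (h : L.G3 g e)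
    (hU : ∀ x y w : Ω, Sp f g x y w → L.nm (aeval y g) = 1 → Tp f g K (kp f g x y w))
    (p : (Kv f g).pt Ω) : Tp f g K p := by
  rcases kp_or p with hp | ⟨x, y, w, hs, rfl⟩
  · exact bad_tp hp
  by_cases hy : 1 < L.nm y
  · exact h.far h2 hs hy
  rw [not_lt] at hy
  by_cases hi : ∃ i, L.nm (y - e i) < 1
  · obtain ⟨i, hi⟩ := hi
    exact h.near h2 hs hi
  · apply hU x y w hs
    simp only [not_exists, not_lt] at hi
    have hi' : ∀ i, L.nm (y - e i) = 1 := fun i => le_antisymm (L.nm_sub_le hy (h.int i)) (hi i)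
    rw [h.eq, L.mul, L.mul, L.mul, hi', hi', hi', L.nm_four h2]
    norm_num

end Ld

variable [CharZero F] {W₁ W₂ : WeierstrassCurve F} [W₁.IsElliptic] [W₂.IsElliptic]

/-- **Odd residue characteristic.** Proof: `W₂` good: `G3.all`, `unr_odd` with `ε = g(y)`, `r = w / g(y)`. -/
theorem od_right (L : Ld K Ω) [L.Unr] (h2 : L.p ≠ 2) (h₁ : L.Hd W₁) (h₂ : L.Gd W₂)
    (p : (Kv W₁.Ψ₂Sq W₂.Ψ₂Sq).pt Ω) : Tp W₁.Ψ₂Sq W₂.Ψ₂Sq K p := by
  obtain ⟨e, he⟩ := L.exists_g3 h2 h₂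
  refine he.all h2 (fun x y w hs hg => ?_) p
  have hgy := hs.gy
  refine L.unr_odd h2 h₁ h₂ (r := w / aeval y W₂.Ψ₂Sq) (ε := aeval y W₂.Ψ₂Sq) hs
    (fun γ hx hy hw => ?_) hg ?_
  · have h3 : aeval (γ y) W₂.Ψ₂Sq = γ (aeval y W₂.Ψ₂Sq) :=
      Polynomial.aeval_algHom_apply (γ.restrictScalars F : Ω →ₐ[F] Ω) y W₂.Ψ₂Sq
    rw [hy] at h3
    exact ⟨by rw [map_div₀, hw, ← h3], h3.symm⟩
  · rw [div_pow, hs.1]
    field_simp

/-- The same with `W₁` good. Proof: `od_right` for `W₂`, `W₁`, `kp_or`, `tp_swap`, `bad_tp`. -/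
theorem od_left (L : Ld K Ω) [L.Unr] (h2 : L.p ≠ 2) (h₁ : L.Gd W₁) (h₂ : L.Hd W₂)
    (p : (Kv W₁.Ψ₂Sq W₂.Ψ₂Sq).pt Ω) : Tp W₁.Ψ₂Sq W₂.Ψ₂Sq K p := by
  rcases kp_or p with hp | ⟨x, y, w, hs, rfl⟩
  · exact bad_tp hp
  · exact tp_swap hs (od_right L h2 h₂ h₁ _)

end PE
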