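import Pool.Agent.Lib.MP_f80667_ag.Pe.St

/-! Pairs of integral Weierstrass equations, one with bad reduction and one with supersingular reduction at two. -/

namespace PE

/-- The conditions: `Δ_A Δ_B` squarefree, `Δ_A` even, `a₁` even for `B`. -/
structure Ok₂ (A B : WeierstrassCurve ℤ) : Prop where
  sf : Squarefree (A.Δ * B.Δ)
  two : Even A.Δ
  a₁ : Even B.a₁

theorem Ok₂.parts {A B : WeierstrassCurve ℤ} (h : Ok₂ A B) :
    Squarefree A.Δ ∧ Squarefree B.Δ ∧ ¬ (2 : ℤ) ∣ B.Δ := by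
  refine ⟨h.sf.squarefree_of_dvd (dvd_mul_right _ _), h.sf.squarefree_of_dvd (dvd_mul_left _ _),
    fun h1 => ?_⟩
  have h2 : IsUnit (2 : ℤ) := h.sf _ (mul_dvd_mul h.two.two_dvd h1)
  rw [Int.isUnit_iff_natAbs_eq] at h2
  norm_num at h2

/-- The reduction of `B` at two is supersingular. -/
theorem Ok₂.a₃ {A B : WeierstrassCurve ℤ} (h : Ok₂ A B) : Odd B.a₃ := by
  rw [← Int.not_even_iff_odd]
  rintro ⟨d, hd⟩
  obtain ⟨c, hc⟩ := h.a₁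
  refine h.parts.2.2 ?_
  have h4 : B.Δ = -(B.b₂ ^ 2 * B.b₈) - 8 * B.b₄ ^ 3 - 27 * B.b₆ ^ 2 + 9 * B.b₂ * B.b₄ * B.b₆ := by
    rw [WeierstrassCurve.Δ]
    ring
  have h2 : B.b₂ = 2 * (2 * c ^ 2 + 2 * B.a₂) := by
    rw [WeierstrassCurve.b₂, hc]
    ring
  have h6 : B.b₆ = 2 * (2 * d ^ 2 + 2 * B.a₆) := by
    rw [WeierstrassCurve.b₆, hd]
    ring
  rw [h4, h2, h6]
  exact ⟨-(2 * (2 * c ^ 2 + 2 * B.a₂) ^ 2 * B.b₈) - 4 * B.b₄ ^ 3 -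
    54 * (2 * d ^ 2 + 2 * B.a₆) ^ 2 +
    18 * (2 * c ^ 2 + 2 * B.a₂) * B.b₄ * (2 * d ^ 2 + 2 * B.a₆), by ring⟩

/-- 26a3 and 11a3. -/
theorem ok₂_ex : Ok₂ ⟨1, 0, 1, 0, 0⟩ ⟨0, -1, 1, 0, 0⟩ := by
  have h1 : (⟨1, 0, 1, 0, 0⟩ : WeierstrassCurve ℤ).Δ = -26 := by
    simp [WeierstrassCurve.Δ, WeierstrassCurve.b₂, WeierstrassCurve.b₄, WeierstrassCurve.b₆,
      WeierstrassCurve.b₈]
  have h2 : (⟨0, -1, 1, 0, 0⟩ : WeierstrassCurve ℤ).Δ = -11 := by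
    simp [WeierstrassCurve.Δ, WeierstrassCurve.b₂, WeierstrassCurve.b₄, WeierstrassCurve.b₆,
      WeierstrassCurve.b₈]
  refine ⟨?_, ?_, Even.zero⟩
  · rw [h1, h2]
    have h3 : Squarefree (286 : ℕ) := by
      rw [show (286 : ℕ) = 26 * 11 by norm_num, Nat.squarefree_mul (by norm_num),
        show (26 : ℕ) = 2 * 13 by norm_num, Nat.squarefree_mul (by norm_num)]
      exact ⟨⟨Nat.prime_two.squarefree, (by norm_num : Nat.Prime 13).squarefree⟩,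
        (by norm_num : Nat.Prime 11).squarefree⟩
    have h4 : ((-26 : ℤ) * -11) = ((286 : ℕ) : ℤ) := by norm_num
    rw [h4, Int.squarefree_natCast]
    exact h3
  · rw [h1]
    exact ⟨-13, by norm_num⟩

end PE
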