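import Pool.Agent.Lib.MP_f80667_ag.Kf.Rl

/-! The real place, positive discriminant: three real roots. -/

open ZC BE Polynomial IntermediateField

namespace PE

variable {F : Type} [Field F] [CharZero F] {K : Type} [Field K] [CharZero K]
  [Algebra F K] {Ω : Type} [Field Ω] [Algebra K Ω] [Algebra F Ω] [IsScalarTower F K Ω]
  [IsAlgClosure K Ω]

omit [CharZero F] in
/-- The three roots. -/
theorem rlB_split (e : K ≃+* ℝ) (W : WeierstrassCurve F) (h : 0 < e (algebraMap F K W.Δ)) :
    ∃ a b c : K, e a < e b ∧ e b < e c ∧ ∀ z : Ω, aeval z W.Ψ₂Sq =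
      4 * ((z - algebraMap K Ω a) * (z - algebraMap K Ω b) * (z - algebraMap K Ω c)) := by
  have hcl : IsAlgClosed Ω := IsAlgClosure.isAlgClosed K
  have hch : CharZero Ω := charZero_of_injective_algebraMap (algebraMap K Ω).injective
  obtain ⟨-, σ, hσ, hσ'⟩ := real_gal (Ω := Ω) e
  have hσσ : σ * σ = 1 := by
    rcases hσ' (σ * σ) with h | h
    · exact h
    · exact absurd (mul_eq_left.1 h) hσ
  have hss : ∀ x : Ω, σ (σ x) = x := fun x => DFunLike.congr_fun hσσ x
  have hF : ∀ a : F, σ (algebraMap F Ω a) = algebraMap F Ω a := fun a => by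
    rw [IsScalarTower.algebraMap_apply F K Ω, AlgEquiv.commutes]
  have hmem : ∀ x : Ω, σ x = x → ∃ a : K, algebraMap K Ω a = x := fun x hx =>
    lr_bot (mem_of_fix ⊥ fun γ _ => by
      rcases hσ' γ with rfl | rfl
      · rfl
      · exact hx)
  have hdisc : ∀ e₁ e₂ e₃ : Ω, algebraMap F Ω W.b₂ = -4 * (e₁ + e₂ + e₃) →
      algebraMap F Ω W.b₄ = 2 * (e₁ * e₂ + e₁ * e₃ + e₂ * e₃) →
      algebraMap F Ω W.b₆ = -4 * (e₁ * e₂ * e₃) →
      algebraMap F Ω W.Δ = 16 * ((e₁ - e₂) * (e₁ - e₃) * (e₂ - e₃)) ^ 2 := by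
    intro e₁ e₂ e₃ k2 k4 k6
    have h8 := congrArg (algebraMap F Ω) W.b_relation
    simp only [map_mul, map_sub, map_pow, map_ofNat] at h8
    have hd : algebraMap F Ω W.Δ = -(algebraMap F Ω W.b₂) ^ 2 * algebraMap F Ω W.b₈ -
        8 * (algebraMap F Ω W.b₄) ^ 3 - 27 * (algebraMap F Ω W.b₆) ^ 2 +
        9 * algebraMap F Ω W.b₂ * algebraMap F Ω W.b₄ * algebraMap F Ω W.b₆ := by
      rw [WeierstrassCurve.Δ]
      simp only [map_mul, map_sub, map_pow, map_ofNat, map_neg, map_add]
    have h8' : algebraMap F Ω W.b₈ = (algebraMap F Ω W.b₂ * algebraMap F Ω W.b₆ -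
        (algebraMap F Ω W.b₄) ^ 2) / 4 := by
      rw [eq_div_iff (by norm_num)]
      linear_combination h8
    rw [hd, h8', k2, k4, k6]
    ring
  -- all roots are fixed
  have hfx : ∀ z : Ω, 4 * z ^ 3 + algebraMap F Ω W.b₂ * z ^ 2 + 2 * algebraMap F Ω W.b₄ * z +
      algebraMap F Ω W.b₆ = 0 → σ z = z := by
    intro z hz
    by_contra hzσ
    have hz' : 4 * (σ z) ^ 3 + algebraMap F Ω W.b₂ * (σ z) ^ 2 + 2 * algebraMap F Ω W.b₄ * σ z +
        algebraMap F Ω W.b₆ = 0 := by
      have h1 := congrArg σ hz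
      simpa only [map_add, map_mul, map_pow, map_ofNat, hF, map_zero] using h1
    have hzz : z - σ z ≠ 0 := fun h1 => hzσ (sub_eq_zero.1 h1).symm
    obtain ⟨e₀, he₀⟩ : ∃ e₀ : Ω, e₀ = -(algebraMap F Ω W.b₂ / 4) - z - σ z := ⟨_, rfl⟩
    have q1 : 4 * (z ^ 2 + z * σ z + (σ z) ^ 2) + algebraMap F Ω W.b₂ * (z + σ z) +
        2 * algebraMap F Ω W.b₄ = 0 := by
      apply mul_left_cancel₀ hzz
      linear_combination hz - hz'
    have k2 : algebraMap F Ω W.b₂ = -4 * (e₀ + z + σ z) := by
      rw [he₀]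
      ring
    have k4 : algebraMap F Ω W.b₄ = 2 * (e₀ * z + e₀ * σ z + z * σ z) := by
      have : 2 * algebraMap F Ω W.b₄ = 2 * (2 * (e₀ * z + e₀ * σ z + z * σ z)) := by
        linear_combination q1 - (z + σ z) * k2
      exact mul_left_cancel₀ two_ne_zero this
    have k6 : algebraMap F Ω W.b₆ = -4 * (e₀ * z * σ z) := by
      linear_combination hz - z ^ 2 * k2 - 2 * z * k4
    have hσe : σ e₀ = e₀ := by
      rw [he₀, map_sub, map_sub, map_neg, map_div₀, hF, map_ofNat, hss]
      ring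
    have hΔ := hdisc _ _ _ k2 k4 k6
    obtain ⟨n, hn⟩ := hmem ((e₀ - z) * (e₀ - σ z)) (by
      rw [map_mul, map_sub, map_sub, hσe, hss]
      ring)
    obtain ⟨t, ht⟩ := hmem ((z - σ z) ^ 2) (by
      rw [map_pow, map_sub, hss]
      ring)
    have ht0 : e t < 0 := by
      by_contra hcon
      push Not at hcon
      have h1 : (e.symm (Real.sqrt (e t))) ^ 2 = t := by
        apply e.injective
        rw [map_pow, e.apply_symm_apply, Real.sq_sqrt hcon]
      have h2 : (algebraMap K Ω (e.symm (Real.sqrt (e t)))) ^ 2 = (z - σ z) ^ 2 := by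
        rw [← map_pow, h1, ht]
      have h3 : σ (z - σ z) = z - σ z := by
        rcases sq_eq_sq_iff_eq_or_eq_neg.1 h2 with h3 | h3
        · rw [← h3, AlgEquiv.commutes]
        · have h4 : z - σ z = -algebraMap K Ω (e.symm (Real.sqrt (e t))) := by
            rw [h3, neg_neg]
          rw [h4, map_neg, AlgEquiv.commutes]
      rw [map_sub, hss] at h3
      have h4 : (2 : Ω) * (z - σ z) = 0 := by linear_combination -h3
      rcases mul_eq_zero.1 h4 with h5 | h5
      · exact two_ne_zero h5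
      · exact hzz h5
    have h1 : algebraMap F K W.Δ = 16 * (n ^ 2 * t) := by
      apply (algebraMap K Ω).injective
      rw [← IsScalarTower.algebraMap_apply, hΔ]
      simp only [map_mul, map_pow, map_ofNat, hn, ht]
      ring
    rw [h1, map_mul, map_mul, map_pow, map_ofNat] at h
    nlinarith [sq_nonneg (e n), mul_nonneg (sq_nonneg (e n)) (neg_nonneg.2 ht0.le)]
  obtain ⟨e₁, e₂, e₃, k2, k4, k6⟩ := reA_split (algebraMap F Ω W.b₂) (algebraMap F Ω W.b₄)
    (algebraMap F Ω W.b₆)
  obtain ⟨a₁, ha₁⟩ := hmem e₁ (hfx e₁ (by rw [k2, k4, k6]; ring))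
  obtain ⟨a₂, ha₂⟩ := hmem e₂ (hfx e₂ (by rw [k2, k4, k6]; ring))
  obtain ⟨a₃, ha₃⟩ := hmem e₃ (hfx e₃ (by rw [k2, k4, k6]; ring))
  have hfac : ∀ u : Ω, aeval u W.Ψ₂Sq = 4 * ((u - algebraMap K Ω a₁) * (u - algebraMap K Ω a₂) *
      (u - algebraMap K Ω a₃)) := by
    intro u
    rw [rlA_psi, k2, k4, k6, ha₁, ha₂, ha₃]
    ring
  have h1 : algebraMap F K W.Δ = 16 * ((a₁ - a₂) * (a₁ - a₃) * (a₂ - a₃)) ^ 2 := by
    apply (algebraMap K Ω).injective
    rw [← IsScalarTower.algebraMap_apply, hdisc _ _ _ k2 k4 k6]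
    simp only [map_mul, map_sub, map_pow, map_ofNat, ha₁, ha₂, ha₃]
  have h12 : e a₁ ≠ e a₂ := by
    intro h2
    rw [h1, e.injective h2] at h
    simp at h
  have h13 : e a₁ ≠ e a₃ := by
    intro h2
    rw [h1, e.injective h2] at h
    simp at h
  have h23 : e a₂ ≠ e a₃ := by
    intro h2
    rw [h1, e.injective h2] at h
    simp at h
  rcases lt_or_gt_of_ne h12 with c12 | c12 <;> rcases lt_or_gt_of_ne h13 with c13 | c13 <;>
    rcases lt_or_gt_of_ne h23 with c23 | c23
  · exact ⟨a₁, a₂, a₃, c12, c23, hfac⟩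
  · exact ⟨a₁, a₃, a₂, c13, c23, fun u => by rw [hfac]; ring⟩
  · exact absurd (c12.trans c23) (not_lt.2 c13.le)
  · exact ⟨a₃, a₁, a₂, c13, c12, fun u => by rw [hfac]; ring⟩
  · exact ⟨a₂, a₁, a₃, c12, c13, fun u => by rw [hfac]; ring⟩
  · exact absurd (c23.trans c12) (not_lt.2 c13.le)
  · exact ⟨a₂, a₃, a₁, c23, c13, fun u => by rw [hfac]; ring⟩
  · exact ⟨a₃, a₂, a₁, c23, c12, fun u => by rw [hfac]; ring⟩

variable {f g : F[X]} [C3 f] [C3 g]

omit [CharZero F] in
/-- All numbers `f(x) (y - e i)` are positive. -/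
private theorem rlB_pos (e : K ≃+* ℝ) {a b c D η : K} {x w : Ω}
    (hg : ∀ z : Ω, aeval z g =
      4 * ((z - algebraMap K Ω a) * (z - algebraMap K Ω b) * (z - algebraMap K Ω c)))
    (hD : algebraMap K Ω D = aeval x f) (hs : Sp f g x (algebraMap K Ω η) w)
    (h1 : 0 < e D * (e η - e a)) (h2 : 0 < e D * (e η - e b)) (h3 : 0 < e D * (e η - e c)) :
    Tp f g K (kp f g x (algebraMap K Ω η) w) := by
  have hr : ∀ t : K, 0 < e D * (e η - e t) → (algebraMap K Ω (e.symm (Real.sqrt (e D * (e η - e t))))) ^ 2 =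
      aeval x f * (algebraMap K Ω η - algebraMap K Ω t) := by
    intro t ht
    have h5 : (e.symm (Real.sqrt (e D * (e η - e t)))) ^ 2 = D * (η - t) := by
      apply e.injective
      rw [map_pow, e.apply_symm_apply, Real.sq_sqrt ht.le, map_mul, map_sub]
    rw [← hD, ← map_pow, h5, map_mul, map_sub]
  refine half_tp hs ![algebraMap K Ω a, algebraMap K Ω b, algebraMap K Ω c]
    ![algebraMap K Ω (e.symm (Real.sqrt (e D * (e η - e a)))),
      algebraMap K Ω (e.symm (Real.sqrt (e D * (e η - e b)))),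
      algebraMap K Ω (e.symm (Real.sqrt (e D * (e η - e c))))] hg ?_ ?_
  · intro i
    fin_cases i
    · exact hr a h1
    · exact hr b h2
    · exact hr c h3
  · intro γ _ _ _
    refine ⟨1, fun i => ?_⟩
    fin_cases i
    · exact ⟨AlgEquiv.commutes _ _, AlgEquiv.commutes _ _⟩
    · exact ⟨AlgEquiv.commutes _ _, AlgEquiv.commutes _ _⟩
    · exact ⟨AlgEquiv.commutes _ _, AlgEquiv.commutes _ _⟩

omit [CharZero F] in
/-- The line through the point and `(a, 0)`. -/
private theorem rlB_line (e : K ≃+* ℝ) {a b c D η η' : K} {x w : Ω}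
    (hg : ∀ z : Ω, aeval z g =
      4 * ((z - algebraMap K Ω a) * (z - algebraMap K Ω b) * (z - algebraMap K Ω c)))
    (hD : algebraMap K Ω D = aeval x f) (hs : Sp f g x (algebraMap K Ω η) w)
    (hη : η' * (η - a) = a * (η - a) + (b - a) * (c - a))
    (h1 : 0 < e D * (e η' - e a)) (h2 : 0 < e D * (e η' - e b)) (h3 : 0 < e D * (e η' - e c)) :
    Tp f g K (kp f g x (algebraMap K Ω η) w) := by
  have hch : CharZero Ω := charZero_of_injective_algebraMap (algebraMap K Ω).injective
  have hfx := hs.fx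
  have hgy := hs.gy
  rw [hg] at hgy
  have hya : algebraMap K Ω η - algebraMap K Ω a ≠ 0 := by
    intro h0
    rw [h0, zero_mul, zero_mul, mul_zero] at hgy
    exact hgy rfl
  have hη' : algebraMap K Ω η' * (algebraMap K Ω η - algebraMap K Ω a) =
      algebraMap K Ω a * (algebraMap K Ω η - algebraMap K Ω a) +
        (algebraMap K Ω b - algebraMap K Ω a) * (algebraMap K Ω c - algebraMap K Ω a) := by
    have h := congrArg (algebraMap K Ω) hη
    simpa only [map_mul, map_sub, map_add] using h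
  refine line_y (a := w / (algebraMap K Ω η - algebraMap K Ω a))
    (b := -(w * algebraMap K Ω a / (algebraMap K Ω η - algebraMap K Ω a)))
    (c := -4 * aeval x f) (y₁ := algebraMap K Ω a) (y₂ := algebraMap K Ω η') hs
    (mul_ne_zero (by norm_num) hfx) ?_ ?_ ?_ ?_
  · intro z
    have hw := hs.1
    rw [hg] at hw
    rw [hg z]
    have hA : algebraMap K Ω η' = algebraMap K Ω a +
        (algebraMap K Ω b - algebraMap K Ω a) * (algebraMap K Ω c - algebraMap K Ω a) /
          (algebraMap K Ω η - algebraMap K Ω a) := by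
      field_simp
      linear_combination hη'
    have h5 : (w / (algebraMap K Ω η - algebraMap K Ω a) * z +
        -(w * algebraMap K Ω a / (algebraMap K Ω η - algebraMap K Ω a))) ^ 2 =
        w ^ 2 * (z - algebraMap K Ω a) ^ 2 / (algebraMap K Ω η - algebraMap K Ω a) ^ 2 := by
      field_simp
      ring
    rw [h5, hw, hA]
    field_simp
    ring
  · intro γ h1 h2 h3
    constructor
    · rw [map_div₀, map_sub, h3, AlgEquiv.commutes, AlgEquiv.commutes]
    · rw [map_neg, map_div₀, map_mul, map_sub, h3, AlgEquiv.commutes, AlgEquiv.commutes]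
  · intro _ w' hw'
    refine absurd ?_ hw'.gy
    rw [hg, sub_self, zero_mul, zero_mul, mul_zero]
  · intro _ w' hw'
    exact rlB_pos e hg hD hw' h1 h2 h3

/-- The real points, positive discriminant. -/
theorem rl_y3 {W₁ W₂ : WeierstrassCurve F} [W₁.IsElliptic] [W₂.IsElliptic] (e : K ≃+* ℝ)
    (h : 0 < e (algebraMap F K W₂.Δ)) {x y w : Ω}
    (hs : Sp W₁.Ψ₂Sq W₂.Ψ₂Sq x y w) (hfix : ∀ γ : Ω ≃ₐ[K] Ω, γ x = x ∧ γ y = y ∧ γ w = w) :
    Tp W₁.Ψ₂Sq W₂.Ψ₂Sq K (kp W₁.Ψ₂Sq W₂.Ψ₂Sq x y w) := by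
  have hmem : ∀ x : Ω, (∀ γ : Ω ≃ₐ[K] Ω, γ x = x) → ∃ a : K, algebraMap K Ω a = x := fun x hx =>
    lr_bot (mem_of_fix ⊥ fun γ _ => hx γ)
  obtain ⟨η, rfl⟩ := hmem y fun γ => (hfix γ).2.1
  obtain ⟨ω, rfl⟩ := hmem w fun γ => (hfix γ).2.2
  obtain ⟨D, hD⟩ := hmem (aeval x W₁.Ψ₂Sq) fun γ => by
    have h1 : aeval (γ x) W₁.Ψ₂Sq = γ (aeval x W₁.Ψ₂Sq) :=
      Polynomial.aeval_algHom_apply (γ.restrictScalars F : Ω →ₐ[F] Ω) x W₁.Ψ₂Sq
    rw [← h1, (hfix γ).1]
  obtain ⟨a, b, c, hab, hbc, hg⟩ := rlB_split (Ω := Ω) e W₂ h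
  have hw := hs.1
  rw [← hD, hg, ← map_sub, ← map_sub, ← map_sub, ← map_mul, ← map_mul, ← map_ofNat (algebraMap K Ω) 4,
    ← map_mul, ← map_mul, ← map_pow] at hw
  have hw1 := congrArg e ((algebraMap K Ω).injective hw)
  simp only [map_mul, map_pow, map_sub, map_ofNat] at hw1
  have hω : e ω ≠ 0 := by
    intro h0
    have : ω = 0 := by
      apply e.injective
      rw [h0, map_zero]
    apply hs.2
    rw [this, map_zero]
  have hpos : 0 < e D * ((e η - e a) * (e η - e b) * (e η - e c)) := by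
    have := pow_pos (abs_pos.2 hω) 2
    rw [sq_abs] at this
    nlinarith
  have hD0 : e D ≠ 0 := by
    intro h0
    rw [h0, zero_mul] at hpos
    exact lt_irrefl _ hpos
  have hna : e η - e a ≠ 0 := by
    intro h0
    rw [h0, zero_mul, zero_mul, mul_zero] at hpos
    exact lt_irrefl _ hpos
  have hnb : e η - e b ≠ 0 := by
    intro h0
    rw [h0, mul_zero, zero_mul, mul_zero] at hpos
    exact lt_irrefl _ hpos
  have hnc : e η - e c ≠ 0 := by
    intro h0
    rw [h0, mul_zero, mul_zero] at hpos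
    exact lt_irrefl _ hpos
  rcases lt_or_gt_of_ne hD0 with hneg | hp
  · -- `D < 0`
    have h5 : (e η - e a) * (e η - e b) * (e η - e c) < 0 := by
      by_contra hcon
      push Not at hcon
      nlinarith [mul_nonneg (neg_nonneg.2 hneg.le) hcon]
    rcases lt_or_gt_of_ne hna with ha | ha
    · exact rlB_pos e hg hD hs (mul_pos_of_neg_of_neg hneg ha)
        (mul_pos_of_neg_of_neg hneg (by linarith)) (mul_pos_of_neg_of_neg hneg (by linarith))
    · have hb : 0 < e η - e b := by
        rcases lt_or_gt_of_ne hnb with hb | hb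
        · exfalso
          have : 0 < (e η - e a) * (e η - e b) * (e η - e c) :=
            mul_pos_of_neg_of_neg (mul_neg_of_pos_of_neg ha hb) (by linarith)
          linarith
        · exact hb
      have hc : e η - e c < 0 := by
        rcases lt_or_gt_of_ne hnc with hc | hc
        · exact hc
        · exfalso
          have := mul_pos (mul_pos ha hb) hc
          linarith
      have hηc : η - c ≠ 0 := by
        intro h0
        apply hnc
        rw [← map_sub, h0, map_zero]
      set η' : K := c + (b - c) * (a - c) / (η - c) with hη'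
      have he : e η' - e c = (e b - e c) * (e a - e c) / (e η - e c) := by
        rw [hη', map_add, map_div₀, map_mul, map_sub, map_sub, map_sub]
        ring
      have h6 : e η' - e c < 0 := by
        rw [he]
        exact div_neg_of_pos_of_neg (mul_pos_of_neg_of_neg (by linarith) (by linarith)) hc
      have h7 : e η' - e a < 0 := by
        have h8 : e η' - e a = (e c - e a) * ((e η - e b) / (e η - e c)) := by
          have : e η' - e a = (e η' - e c) + (e c - e a) := by ring
          rw [this, he]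
          field_simp
          ring
        rw [h8]
        exact mul_neg_of_pos_of_neg (by linarith) (div_neg_of_pos_of_neg hb hc)
      have h9 : e η' - e b < 0 := by linarith
      refine rlB_line (a := c) (b := b) (c := a) (η' := η') e (fun z => ?_) hD hs ?_
        (mul_pos_of_neg_of_neg hneg h6) (mul_pos_of_neg_of_neg hneg h9)
        (mul_pos_of_neg_of_neg hneg h7)
      · rw [hg]
        ring
      · rw [hη']
        field_simp
  · have h5 : 0 < (e η - e a) * (e η - e b) * (e η - e c) := by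
      by_contra hcon
      push Not at hcon
      nlinarith [mul_nonneg hp.le (neg_nonneg.2 hcon)]
    rcases lt_or_gt_of_ne hnc with hc | hc
    · have ha : 0 < e η - e a := by
        rcases lt_or_gt_of_ne hna with ha | ha
        · exfalso
          have : (e η - e a) * (e η - e b) * (e η - e c) < 0 :=
            mul_neg_of_pos_of_neg (mul_pos_of_neg_of_neg ha (by linarith)) hc
          linarith
        · exact ha
      have hb : e η - e b < 0 := by
        rcases lt_or_gt_of_ne hnb with hb | hb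
        · exact hb
        · exfalso
          have := mul_neg_of_pos_of_neg (mul_pos ha hb) hc
          linarith
      have hηa : η - a ≠ 0 := by
        intro h0
        apply hna
        rw [← map_sub, h0, map_zero]
      set η' : K := a + (b - a) * (c - a) / (η - a) with hη'
      have he : e η' - e a = (e b - e a) * (e c - e a) / (e η - e a) := by
        rw [hη', map_add, map_div₀, map_mul, map_sub, map_sub, map_sub]
        ring
      have h6 : 0 < e η' - e a := by
        rw [he]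
        exact div_pos (mul_pos (by linarith) (by linarith)) ha
      have h7 : 0 < e η' - e c := by
        have h8 : e η' - e c = (e c - e a) * ((e b - e η) / (e η - e a)) := by
          have : e η' - e c = (e η' - e a) + (e a - e c) := by ring
          rw [this, he]
          field_simp
          ring
        rw [h8]
        exact mul_pos (by linarith) (div_pos (by linarith) ha)
      have h9 : 0 < e η' - e b := by linarith
      refine rlB_line (a := a) (b := b) (c := c) (η' := η') e hg hD hs ?_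
        (mul_pos hp h6) (mul_pos hp h9) (mul_pos hp h7)
      rw [hη']
      field_simp
    · exact rlB_pos e hg hD hs (mul_pos hp (by linarith)) (mul_pos hp (by linarith)) (mul_pos hp hc)

variable {W₁ W₂ : WeierstrassCurve F} [W₁.IsElliptic] [W₂.IsElliptic]

/-- **The real points.** -/
theorem rl_pt (e : K ≃+* ℝ) {x y w : Ω} (hs : Sp W₁.Ψ₂Sq W₂.Ψ₂Sq x y w)
    (hfix : ∀ γ : Ω ≃ₐ[K] Ω, γ x = x ∧ γ y = y ∧ γ w = w) :
    Tp W₁.Ψ₂Sq W₂.Ψ₂Sq K (kp W₁.Ψ₂Sq W₂.Ψ₂Sq x y w) := by
  rcases lt_trichotomy (e (algebraMap F K W₂.Δ)) 0 with h | h | h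
  · exact rl_y e h hs hfix
  · exfalso
    have h1 : algebraMap F K W₂.Δ = 0 := by
      apply e.injective
      rw [h, map_zero]
    rw [map_eq_zero] at h1
    exact W₂.isUnit_Δ.ne_zero h1
  · exact rl_y3 e h hs hfix

/-- **The real place.** -/
theorem rl_all0 (e : K ≃+* ℝ) {z : (Kv W₁.Ψ₂Sq W₂.Ψ₂Sq).pt Ω →₀ ℤ}
    (hz : z ∈ (Kv W₁.Ψ₂Sq W₂.Ψ₂Sq).D0 K Ω) :
    z ∈ (Kv W₁.Ψ₂Sq W₂.Ψ₂Sq).ratEq K Ω ⊔ (Kv W₁.Ψ₂Sq W₂.Ψ₂Sq).nrm K Ω :=
  rl_allT e (fun _ _ _ hs hfix => rl_pt e hs hfix) hz

end PE
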