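import Pool.Agent.Lib.MP_f80667_ag.Kf.D2
import Pool.Agent.Lib.MP_f80667_ag.Kf.GlA
import Pool.Agent.Lib.MP_f80667_ag.Kf.GlP
import Pool.Agent.Lib.MP_f80667_ag.Kf.Od
import Pool.Agent.Lib.MP_f80667_ag.Kf.RlB
import Pool.Agent.Lib.MP_f80667_ag.Kf.Ok2
import Pool.Agent.Lib.MP_f80667_ag.Kf.Oz
import Pool.Agent.Lib.MP_f80667_ag.Pe.Kg
import Pool.Agent.Lib.MP_f80667_ag.Pe.GloC

/-! The theorem for Kummer surfaces over `ℚ`: all primes. -/

open ZC BE Polynomial IntermediateField IsDedekindDomain NumberField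

namespace PE

section two

variable {K : Type} [Field K] [CharZero K] {Ω : Type} [Field Ω] [Algebra K Ω] [IsAlgClosure K Ω]

/-- **The factorization of the cubic at the place two.** Let `B₂ = A₁² + 4 A₂`, `B₄ = 2 A₄ + A₁ A₃`, `B₆ = A₃² + 4 A₆`; `B₂` is congruent to `1` modulo `4`. Proof: with `T = 4 x` the cubic is `(T³ + B₂ T² + 8 B₄ T + 16 B₆) / 16`. By Hensel's lemma (`L.hens` of `Lf` for `M = ⊥`, see its use in `Pe/LiftA.lean`;
`S = - T / B₂`) there is a root `T₀` in `K` with `|T₀ + B₂| ≤ |8|` (the value at `- B₂` is `- 8 B₂ B₄ + 16 B₆`, the derivative there is the unit `B₂² + 8 B₄`). Or: `T = - B₂ S`: the roots in `Ω` (product `- 16 B₆`, sum of the products of two `8 B₄`, sum `- B₂`): exactly one root is a unit, so it is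
invariant under the Galois group and lies in `K`. `U = - T₀`: the cubic is `(U + 4 x) (x² + 2 a' x + b')` with `B₂ = U + 8 a'`, `B₄ = 2 b' + a' U`, `B₆ = U b'`; `a'` is integral because `|U - B₂| ≤ |8|`, `b'` is integral. `a = - a'`, `u = U - 4 a'`, `4 q = a'² - b'`. `Δ = q (u² - 64 q)²` (`ring`), `|4 q| ≤ 1`, so `u² - 64 q` is a unit and
`|q| = |Δ| = |2|`. -/
theorem n2_fac (L : Ld K Ω) [L.Unr] (h2 : L.p = 2) {A₁ A₂ A₃ A₄ A₆ : K}
    (h1 : L.nm (algebraMap K Ω A₁) = 1) (hi₁ : L.nm (algebraMap K Ω A₁ ^ 2 - 1) ≤ L.nm 4)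
    (i₂ : L.nm (algebraMap K Ω A₂) ≤ 1) (i₃ : L.nm (algebraMap K Ω A₃) ≤ 1)
    (i₄ : L.nm (algebraMap K Ω A₄) ≤ 1) (i₆ : L.nm (algebraMap K Ω A₆) ≤ 1)
    (hΔ : L.nm (algebraMap K Ω (⟨A₁, A₂, A₃, A₄, A₆⟩ : WeierstrassCurve K).Δ) = L.nm 2) :
    ∃ a u q : K, L.nm (algebraMap K Ω a) ≤ 1 ∧ L.nm (algebraMap K Ω u - 1) ≤ L.nm 4 ∧
      L.nm (algebraMap K Ω q) = L.nm 2 ∧
      ∀ x : Ω, 4 * x ^ 3 + algebraMap K Ω (A₁ ^ 2 + 4 * A₂) * x ^ 2 +
        2 * algebraMap K Ω (2 * A₄ + A₁ * A₃) * x + algebraMap K Ω (A₃ ^ 2 + 4 * A₆) =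
        (algebraMap K Ω u + 4 * (x - algebraMap K Ω a)) *
          ((x - algebraMap K Ω a) ^ 2 - 4 * algebraMap K Ω q) := by
  have : CharZero Ω := charZero_of_injective_algebraMap (algebraMap K Ω).injective
  have n2 := gla_two L h2
  have p2 : 0 < L.nm (2 : Ω) := L.pos two_ne_zero
  have n4 : L.nm (4 : Ω) = L.nm 2 ^ 2 := by
    rw [← L.pow]
    norm_num
  have l4 : L.nm (4 : Ω) < 1 := by
    rw [n4]
    exact pow_lt_one₀ p2.le n2 two_ne_zero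
  have l16 : L.nm (16 : Ω) < 1 := by
    have h : (16 : Ω) = 4 ^ 2 := by norm_num
    rw [h, L.pow]
    exact pow_lt_one₀ (L.nonneg _) l4 two_ne_zero
  have i2 : L.nm (algebraMap K Ω (A₁ ^ 2 + 4 * A₂) - 1) ≤ L.nm 4 := by
    have e : algebraMap K Ω (A₁ ^ 2 + 4 * A₂) - 1 =
        (algebraMap K Ω A₁ ^ 2 - 1) + 4 * algebraMap K Ω A₂ := by
      rw [map_add, map_mul, map_pow, map_ofNat]
      ring
    rw [e]
    refine (L.add _ _).trans (max_le hi₁ ?_)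
    rw [L.mul]
    exact mul_le_of_le_one_right (L.nonneg _) i₂
  have i4 : L.nm (algebraMap K Ω (2 * A₄ + A₁ * A₃)) ≤ 1 := by
    rw [map_add, map_mul, map_mul, map_ofNat]
    refine (L.add _ _).trans (max_le ?_ ?_)
    · rw [L.mul]
      exact mul_le_one₀ n2.le (L.nonneg _) i₄
    · rw [L.mul, h1, one_mul]
      exact i₃
  have i6 : L.nm (algebraMap K Ω (A₃ ^ 2 + 4 * A₆)) ≤ 1 := by
    rw [map_add, map_mul, map_pow, map_ofNat]
    refine (L.add _ _).trans (max_le ?_ ?_)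
    · rw [L.pow]
      exact pow_le_one₀ (L.nonneg _) i₃
    · rw [L.mul]
      exact mul_le_one₀ l4.le (L.nonneg _) i₆
  obtain ⟨U, a', b', hU, ha, hb, e2, e4, e6⟩ := gla_fac L h2 i2 i4 i6
  have hu : L.nm (algebraMap K Ω (U - 4 * a') - 1) ≤ L.nm 4 := by
    have e : algebraMap K Ω (U - 4 * a') - 1 =
        (algebraMap K Ω U - 1) - 4 * algebraMap K Ω a' := by
      rw [map_sub, map_mul, map_ofNat]
      ring
    rw [e]
    refine (L.sub _ _).trans (max_le hU ?_)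
    rw [L.mul]
    exact mul_le_of_le_one_right (L.nonneg _) ha
  have hu1 : L.nm (algebraMap K Ω (U - 4 * a')) = 1 := by
    rw [L.eq_of_close (y := 1) (by rw [L.one]; exact hu.trans_lt l4), L.one]
  refine ⟨- a', U - 4 * a', (a' ^ 2 - b') / 4, ?_, hu, ?_, ?_⟩
  · rw [map_neg, L.neg]
    exact ha
  · have hP : 4 * (⟨A₁, A₂, A₃, A₄, A₆⟩ : WeierstrassCurve K).Δ =
        - (A₁ ^ 2 + 4 * A₂) ^ 2 * ((A₁ ^ 2 + 4 * A₂) * (A₃ ^ 2 + 4 * A₆) -
          (2 * A₄ + A₁ * A₃) ^ 2) - 32 * (2 * A₄ + A₁ * A₃) ^ 3 - 108 * (A₃ ^ 2 + 4 * A₆) ^ 2 +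
          36 * (A₁ ^ 2 + 4 * A₂) * (2 * A₄ + A₁ * A₃) * (A₃ ^ 2 + 4 * A₆) := by
      simp only [WeierstrassCurve.Δ, WeierstrassCurve.b₂, WeierstrassCurve.b₄,
        WeierstrassCurve.b₆, WeierstrassCurve.b₈]
      ring
    rw [e2, e4, e6] at hP
    have hD : (⟨A₁, A₂, A₃, A₄, A₆⟩ : WeierstrassCurve K).Δ = (a' ^ 2 - b') / 4 *
        ((U - 4 * a') ^ 2 - 16 * (a' ^ 2 - b')) ^ 2 := by
      linear_combination (1 / 4 : K) * hP
    have hd : L.nm (algebraMap K Ω ((U - 4 * a') ^ 2 - 16 * (a' ^ 2 - b'))) = 1 := by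
      rw [map_sub, map_mul, map_pow, map_ofNat, sub_eq_add_neg, L.add_eq', L.pow, hu1, one_pow]
      rw [L.pow, hu1, one_pow, L.neg, L.mul]
      refine mul_lt_one_of_nonneg_of_lt_one_left (L.nonneg _) l16 ?_
      rw [map_sub, map_pow]
      refine (L.sub _ _).trans (max_le ?_ hb)
      rw [L.pow]
      exact pow_le_one₀ (L.nonneg _) ha
    rw [← hΔ, hD, map_mul, map_pow, L.mul, L.pow, hd, one_pow, mul_one]
  · intro x
    rw [e2, e4, e6]
    simp only [map_add, map_mul, map_ofNat, map_sub, map_neg, map_pow, map_div₀]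
    ring

end two

/-- **The normal form at two.** Proof: `exists_ld` for `p = 2` (as in `dv_fin`): the norm of an integer is the power of `nm 2`; the residue field of `FK ℚ v` has two elements (`ℚ` is dense; or: the residue field of `v` is `ℤ / 2`). `A.a₁` is odd: otherwise `Δ_A` is even only if `a₃` is even, and then `4` divides `Δ_A`. `n2_fac` for `f`;
`g`: `c₂ = a₂ + a₁² / 4`, `c₄ = a₄ + a₁ a₃ / 2`, `b = a₃² + 4 a₆`. `Uh`: `unr_two` (`Hd`, `Gd`: `Δ_A` is not divisible by `4`, `Δ_B` is odd). -/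
theorem two_n2 {A B : WeierstrassCurve ℤ} (h : Ok₂ A B) [(toQ A).IsElliptic] [(toQ B).IsElliptic]
    (v : HeightOneSpectrum (𝓞 ℚ)) (hv : v.valuation ℚ 2 < 1) :
    ∃ (L : Ld (FK ℚ v) (AlgebraicClosure (FK ℚ v))) (_ : L.Unr) (a u q c₂ c₄ b : FK ℚ v),
      N2 L (toQ A).Ψ₂Sq (toQ B).Ψ₂Sq a u q c₂ c₄ b ∧ Uh L (toQ A).Ψ₂Sq (toQ B).Ψ₂Sq := by
  obtain ⟨L, hU, hLp, hres⟩ := exists_ld₂ v hv
  obtain ⟨hsA, hsB, hB2⟩ := h.parts
  have hA₁ := odd_a₁ hsA h.two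
  have hnA : L.nm (A.Δ : AlgebraicClosure (FK ℚ v)) = L.nm 2 := by
    obtain ⟨k, hk⟩ := h.two
    have h1 : ¬ (2 : ℤ) ∣ k := by
      rintro ⟨m, rfl⟩
      have h3 : IsUnit (2 : ℤ) := hsA _ ⟨m, by rw [hk]; ring⟩
      rw [Int.isUnit_iff_natAbs_eq] at h3
      norm_num at h3
    have h2 : (A.Δ : AlgebraicClosure (FK ℚ v)) = 2 * (k : AlgebraicClosure (FK ℚ v)) := by
      rw [hk]
      push_cast
      ring
    rw [h2, L.mul, L.z_unit (by rw [hLp]; exact_mod_cast h1), mul_one]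
  obtain ⟨a, u, q, ha, hu, hq, hfe⟩ := n2_fac L hLp (A₁ := (A.a₁ : FK ℚ v))
    (A₂ := (A.a₂ : FK ℚ v)) (A₃ := (A.a₃ : FK ℚ v)) (A₄ := (A.a₄ : FK ℚ v))
    (A₆ := (A.a₆ : FK ℚ v))
    (by
      rw [map_intCast]
      exact L.z_unit (by
        rw [hLp]
        intro h1
        have h2 : Even A.a₁ := by
          obtain ⟨k, hk⟩ := h1
          exact ⟨k, by rw [hk]; push_cast; ring⟩
        exact (Int.not_even_iff_odd.2 hA₁) h2))
    (by
      rw [map_intCast]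
      have h1 := L.z_sq hA₁ 0
      rwa [Int.cast_zero, mul_zero, add_zero] at h1)
    (by rw [map_intCast]; exact L.int_le _) (by rw [map_intCast]; exact L.int_le _)
    (by rw [map_intCast]; exact L.int_le _) (by rw [map_intCast]; exact L.int_le _)
    (by
      have h1 : (⟨(A.a₁ : FK ℚ v), (A.a₂ : FK ℚ v), (A.a₃ : FK ℚ v), (A.a₄ : FK ℚ v),
          (A.a₆ : FK ℚ v)⟩ : WeierstrassCurve (FK ℚ v)).Δ = (A.Δ : FK ℚ v) :=
        WeierstrassCurve.map_Δ A (Int.castRingHom (FK ℚ v))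
      rw [h1, map_intCast]
      exact hnA)
  obtain ⟨k, hk⟩ := h.a₁
  refine ⟨L, hU, a, u, q, ((B.a₂ + k ^ 2 : ℤ) : FK ℚ v), ((B.a₄ + k * B.a₃ : ℤ) : FK ℚ v),
    ((B.a₃ ^ 2 + 4 * B.a₆ : ℤ) : FK ℚ v), ?_, ?_⟩
  · exact
      { p2 := hLp
        res := hres
        fe := fun x => by
          rw [toQ_psi, ← hfe x]
          simp only [map_add, map_mul, map_pow, map_intCast, map_ofNat]
        ge := fun y => by
          rw [toQ_psi, hk]
          simp only [map_intCast]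
          push_cast
          ring
        na := ha
        nu := hu
        nq := hq
        n₂ := by rw [map_intCast]; exact L.int_le _
        n₄ := by rw [map_intCast]; exact L.int_le _
        nb := by
          rw [map_intCast]
          have h1 := L.z_sq h.a₃ B.a₆
          push_cast
          exact h1 }
  · intro x y w r δ hs hγ hδ hr
    exact Ld.unr_two L hLp (toQ_hd L hsA) (toQ_gd L (by rw [hLp]; exact_mod_cast hB2))
      (by
        rw [toQ_a₁]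
        exact L.z_two hLp h.a₁) hs hγ hδ hr

/-- **The finite places.** Proof: `v` over `2`: `two_n2`, `N2.all`. Otherwise `exists_ld`, `od_right`, `od_left` (one of the discriminants is prime to the prime number `p` of `v`, the other one is not divisible by `p²`; see `ok_lv`, `dv_fin`). `dm_two`. -/
theorem kf_v {A B : WeierstrassCurve ℤ} (h : Ok₂ A B) (v : HeightOneSpectrum (𝓞 ℚ)) :
    Dm (Kv (toQ A).Ψ₂Sq (toQ B).Ψ₂Sq) (FK ℚ v) (AlgebraicClosure (FK ℚ v)) 2 := by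
  obtain ⟨hsA, hsB, hB2⟩ := h.parts
  have hA : (toQ A).IsElliptic := ell_toQ hsA.ne_zero
  have hB : (toQ B).IsElliptic := ell_toQ hsB.ne_zero
  by_cases hv : v.valuation ℚ 2 < 1
  · obtain ⟨L, hU, a, u, q, c₂, c₄, b, hN, hUh⟩ := two_n2 h v hv
    exact dm_two fun p => hN.all hUh p
  · obtain ⟨L, hU, hLp⟩ := exists_ldO v hv
    by_cases h1 : (L.p : ℤ) ∣ A.Δ
    · have h2 : ¬ (L.p : ℤ) ∣ B.Δ := by
        intro h3
        have h4 : IsUnit (L.p : ℤ) := h.sf _ (mul_dvd_mul h1 h3)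
        rw [Int.isUnit_iff_natAbs_eq, Int.natAbs_natCast] at h4
        exact L.pp.one_lt.ne' h4
      exact dm_two fun p => od_right L hLp (toQ_hd L hsA) (toQ_gd L h2) p
    · exact dm_two fun p => od_left L hLp (toQ_gd L h1) (toQ_hd L hsB) p

/-- **The infinite place.** Proof: `rl_all0`, as `ci_of` in `Pe/GloC.lean`. -/
theorem kf_i {A B : WeierstrassCurve ℤ} (h : Ok₂ A B) (v : InfinitePlace ℚ)
    (z : Zc (Kv (toQ A).Ψ₂Sq (toQ B).Ψ₂Sq) (IK ℚ v)) : z.clN = 0 := by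
  have hne := h.sf.ne_zero
  have hA : (toQ A).IsElliptic := ell_toQ (left_ne_zero_of_mul hne)
  have hB : (toQ B).IsElliptic := ell_toQ (right_ne_zero_of_mul hne)
  have hc : CharZero (IK ℚ v) := charZero_of_injective_algebraMap (algebraMap ℚ (IK ℚ v)).injective
  have hr : v.IsReal := by
    rw [Subsingleton.elim v Rat.infinitePlace]
    exact Rat.isReal_infinitePlace
  obtain ⟨e⟩ : Nonempty (IK ℚ v ≃+* ℝ) := ⟨InfinitePlace.Completion.ringEquivRealOfIsReal hr⟩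
  have h3 := rl_all0 (Ω := AlgebraicClosure (IK ℚ v)) e (z := z.cy) z.2
  have h4 : z.clN = Gb.clsH (Kv (toQ A).Ψ₂Sq (toQ B).Ψ₂Sq) (IK ℚ v) 0 := by
    refine Gb.cls_eq.2 ?_
    change z.cy - 0 ∈ _
    rw [sub_zero]
    exact h3
  rw [h4, map_zero]

/-- Change of the algebra structures over `ℚ`. -/
private theorem kf_dm {V : Vr ℚ} {K : Type} [Field K] {m : ℕ} {i₁ i₂ : Algebra ℚ K}
    {j₁ j₂ : Algebra ℚ (AlgebraicClosure K)}
    {s₁ : @IsScalarTower ℚ K (AlgebraicClosure K) i₁.toSMul _ j₁.toSMul}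
    {s₂ : @IsScalarTower ℚ K (AlgebraicClosure K) i₂.toSMul _ j₂.toSMul}
    (h : @Dm ℚ _ V K (AlgebraicClosure K) _ i₁ _ _ j₁ s₁ m) :
    @Dm ℚ _ V K (AlgebraicClosure K) _ i₂ _ _ j₂ s₂ m := by
  obtain rfl := Subsingleton.elim i₁ i₂
  obtain rfl := Subsingleton.elim j₁ j₂
  exact h

/-- Change of the algebra structures over `ℚ`. -/
private theorem kf_cln {V : Vr ℚ} {K : Type} [Field K] {i₁ i₂ : Algebra ℚ K}
    (h : ∀ z : @Zc ℚ _ V K _ i₁, @Zc.clN ℚ _ V K _ i₁ z = 0) (z : @Zc ℚ _ V K _ i₂) :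
    @Zc.clN ℚ _ V K _ i₂ z = 0 := by
  obtain rfl := Subsingleton.elim i₁ i₂
  exact h z

/-- The families, if the classes at the infinite places are trivial. -/
private theorem kf_fam2 {F : Type} [Field F] [NumberField F] {V : Vr F} {m : ℕ}
    (h : ∀ v : HeightOneSpectrum (𝓞 F), ∀ z : Zc V (FK F v), ∃ z' : Zc V (FK F v),
      z.cl = m • z'.cl) (hi : ∀ (v : InfinitePlace F) (z : Zc V (IK F v)), z.clN = 0)
    (c : Fam V) : ∃ c' : Fam V, c.cl = m • c'.cl := by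
  choose g hg using fun v => h v (c.f v)
  refine ⟨(g, c.i), Prod.ext (funext fun v => hg v) (funext fun v => ?_)⟩
  change (c.i v).clN = m • (c.i v).clN
  rw [hi v (c.i v), smul_zero]

/-- The families are divisible. Proof: `n = 2 ^ k m`, `m` odd: `main_Kz` for `m` (or its places), `dm_cl` with `kf_v` for `2`, `kf_i`; iterate. -/
theorem kf_fam {A B : WeierstrassCurve ℤ} (h : Ok₂ A B) (n : ℕ) (hn : n ≠ 0)
    (c : Fam (Kv (toQ A).Ψ₂Sq (toQ B).Ψ₂Sq)) :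
    ∃ c' : Fam (Kv (toQ A).Ψ₂Sq (toQ B).Ψ₂Sq), c.cl = n • c'.cl := by
  have key : ∀ (k : ℕ) (c : Fam (Kv (toQ A).Ψ₂Sq (toQ B).Ψ₂Sq)),
      ∃ c' : Fam (Kv (toQ A).Ψ₂Sq (toQ B).Ψ₂Sq), c.cl = (2 ^ k) • c'.cl := by
    intro k
    induction k with
    | zero => exact fun c => ⟨c, by rw [pow_zero, one_smul]⟩
    | succ k ih =>
      intro c
      obtain ⟨c₁, h1⟩ := ih c
      obtain ⟨c₂, h2⟩ := kf_fam2 (m := 2)
        (fun v => @dm_cl ℚ _ _ (FK ℚ v) _ (FK.algebra ℚ v) 2 (kf_dm (kf_v h v)))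
        (fun v => kf_cln (kf_i h v)) c₁
      exact ⟨c₂, by rw [h1, h2, pow_succ, mul_smul]⟩
  obtain ⟨k, m, hm, rfl⟩ := Nat.exists_eq_two_pow_mul_odd hn
  obtain ⟨c₁, h1⟩ := key k c
  obtain ⟨c₂, h2⟩ := (main_Kzo h.sf).1 m hm c₁
  exact ⟨c₂, by rw [h1, h2, mul_smul]⟩

/-- The completed statement. Proof: as `im_m`. -/
theorem im_all {F : Type} [Field F] [NumberField F] {V : Vr F} (h : ∀ m : ℕ, m ≠ 0 → ∀ c : Fam V,
    ∃ c' : Fam V, c.cl = m • c'.cl) (z : LHat (FA V)) : ImDe z := by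
  obtain ⟨x, hx⟩ := im_m (Λ := Set.univ) (fun m hm _ c => h m hm c) z
  exact ⟨x, fun m => hx m fun _ _ _ => Set.mem_univ _⟩

/-- **Theorem.** Q1 for the Kummer surface of `A × B`. -/
theorem main_Kf {A B : WeierstrassCurve ℤ} (h : Ok₂ A B) :
    (∀ n : ℕ, n ≠ 0 → ∀ c : Fam (Kv (toQ A).Ψ₂Sq (toQ B).Ψ₂Sq),
      ∃ c' : Fam (Kv (toQ A).Ψ₂Sq (toQ B).Ψ₂Sq), c.cl = n • c'.cl) ∧
    ∀ z : LHat (FA (Kv (toQ A).Ψ₂Sq (toQ B).Ψ₂Sq)), ImDe z :=
  ⟨kf_fam h, im_all (kf_fam h)⟩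

end PE
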