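import Pool.Agent.Lib.MP_f80667_ag.Kf.Dte
import Pool.Agent.Lib.MP_f80667_ag.Kf.Dtf
import Pool.Agent.Lib.MP_f80667_ag.Kf.Gl

/-! Q1 at sets of prime numbers for the Kummer surfaces of products of elliptic curves over `ℚ`, by height. -/

open ZC BE Polynomial IsDedekindDomain NumberField

namespace PE

/-- Q1 at the prime numbers in `P`, in the form `0 = 0`: the group `F^1_A(V)` is divisible by all `m ≠ 0` with all
prime factors in `P`, and the components at the prime numbers in `P` of every element of its completion are in the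
image of `Δ`. -/
def QP {F : Type} [Field F] [NumberField F] (V : Vr F) (P : Set ℕ) : Prop :=
  (∀ m : ℕ, m ≠ 0 → Sf P m → ∀ c : Fam V, ∃ c' : Fam V, c.cl = m • c'.cl) ∧
    ∀ z : LHat (FA V), ImDeS P z

/-- The Kummer surface of `A × B` over `ℚ`. -/
noncomputable def Ks (A B : WeierstrassCurve ℤ) : Vr ℚ := Kv (toQ A).Ψ₂Sq (toQ B).Ψ₂Sq

/-- The number of the pairs of nonsingular equations in `Eqs n` whose Kummer surface satisfies `QP` for `P`. -/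
noncomputable def Nq (n : ℕ) (P : Set ℕ) : ℕ :=
  {w : WeierstrassCurve ℤ × WeierstrassCurve ℤ | w.1 ∈ Eqs n ∧ w.2 ∈ Eqs n ∧ w.1.Δ ≠ 0 ∧ w.2.Δ ≠ 0 ∧
    QP (Ks w.1 w.2) P}.ncard

private theorem nq_le {n : ℕ} {P : Set ℕ} {R : WeierstrassCurve ℤ → WeierstrassCurve ℤ → Prop}
    (h : ∀ A B, R A B → A.Δ ≠ 0 ∧ B.Δ ≠ 0 ∧ QP (Ks A B) P) :
    {w : WeierstrassCurve ℤ × WeierstrassCurve ℤ | w.1 ∈ Eqs n ∧ w.2 ∈ Eqs n ∧ R w.1 w.2}.ncard ≤ Nq n P := by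
  refine Set.ncard_le_ncard (fun w hw => ⟨hw.1, hw.2.1, h _ _ hw.2.2⟩) ?_
  exact ((eqs_fin n).prod (eqs_fin n)).subset fun w hw => ⟨hw.1, hw.2.1⟩

/-- All prime numbers. -/
theorem qp_ok₂ {A B : WeierstrassCurve ℤ} (h : Ok₂ A B) : QP (Ks A B) Set.univ := by
  obtain ⟨h1, h2⟩ := main_Kf h
  refine ⟨fun m hm _ => h1 m hm, fun z => ?_⟩
  obtain ⟨x, hx⟩ := h2 z
  exact ⟨x, fun m _ => hx m⟩

/-- Odd numbers. -/
theorem qp_two {A B : WeierstrassCurve ℤ} (h : Squarefree (A.Δ * B.Δ)) : QP (Ks A B) {l | l ≠ 2} := by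
  obtain ⟨h1, h2⟩ := main_Kzo h
  refine ⟨fun m _ hS => h1 m ?_, h2⟩
  rw [← Nat.not_even_iff_odd, even_iff_two_dvd]
  intro h3
  exact hS 2 Nat.prime_two h3 rfl

/-- Q1 for a positive proportion. -/
theorem nq_pos : ∃ c : ℝ, 0 < c ∧ ∃ n₀ : ℕ, ∀ n ≥ n₀, c * ((Eqs n).ncard : ℝ) ^ 2 ≤ (Nq n Set.univ : ℝ) := by
  obtain ⟨c, hc, n₀, h⟩ := ok₂_dens
  refine ⟨c, hc, n₀, fun n hn => (h n hn).trans ?_⟩
  have h1 := nq_le (n := n) (P := Set.univ) (R := Ok₂) fun A B h =>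
    ⟨h.parts.1.ne_zero, h.parts.2.1.ne_zero, qp_ok₂ h⟩
  exact_mod_cast h1

/-- Q1 at the prime numbers greater than `L(ε)` for the proportion `1 - ε`. -/
theorem nq_eps (ε : ℝ) (hε : 0 < ε) : ∃ L n₀ : ℕ, ∀ n ≥ n₀,
    (1 - ε) * ((Eqs n).ncard : ℝ) ^ 2 ≤ (Nq n {l | L < l} : ℝ) := by
  obtain ⟨L, hL, n₀, h⟩ := dtG_dens hε 4
  refine ⟨L, n₀, fun n hn => (h n hn).trans ?_⟩
  have h1 := nq_le (n := n) (P := {l | L < l}) (R := DtG L) fun A B h =>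
    ⟨fun h0 => (h.lo 2 Nat.prime_two).1 (by rw [h0]; exact dvd_zero _),
      fun h0 => (h.lo 2 Nat.prime_two).2 (by rw [h0]; exact dvd_zero _), dtG_main hL h⟩
  exact_mod_cast h1

end PE
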