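import Pool.Agent.Lib.MP_f80667_ag.Kf.Cl

/-! Exchange of the two polynomials. -/

open ZC BE Polynomial IntermediateField

namespace PE

section pts

variable {F : Type} [Field F] {f g : F[X]} {L : Type} [Field L] [Algebra F L]

/-- The coordinates exchanged. -/
def Kc.sw (P : Kc f g L) : Kc g f L where
  x := P.y
  y := P.x
  t := (P.t.2, P.t.1)
  hx := P.hy
  hy := P.hx
  ht h := P.ht (Prod.ext (congrArg Prod.snd h) (congrArg Prod.fst h))
  eq := P.eq.symm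

theorem Kc.sw_rel {P Q : Kc f g L} (h : P.Rel Q) : P.sw.Rel Q.sw := by
  obtain ⟨a, b, c, ha, hb, hc, h1, h2, h3⟩ := h
  refine ⟨b, a, c, hb, ha, hc, h2, h1, ?_⟩
  change (Q.t.2, Q.t.1) = _
  rw [h3]
  rfl

/-- The exchange. -/
def ksw : (Kv f g).pt L → (Kv g f).pt L :=
  Quotient.map Kc.sw fun _ _ h => Kc.sw_rel h

theorem ksw_ksw (p : (Kv f g).pt L) : ksw (ksw p) = p := by
  induction p using Quotient.inductionOn with
  | h P => rfl

theorem ksw_map {M : Type} [Field M] [Algebra F M] (σ : L →ₐ[F] M) (p : (Kv f g).pt L) :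
    (Kv g f).map σ (ksw p) = ksw ((Kv f g).map σ p) := by
  induction p using Quotient.inductionOn with
  | h P => rfl

/-- Proof: `kp_eq`. -/
theorem ksw_kp [C3 f] [C3 g] {x y w : L} (h : Sp f g x y w) :
    ksw (kp f g x y w) = kp g f y x w := by
  have h1 : (kp f g x y w : (Kv f g).pt L) = Quotient.mk (Kc.sd f g L)
      ⟨(x, 1), (y, 1), (w, aeval x f), fun h => one_ne_zero (congrArg Prod.snd h),
      fun h => one_ne_zero (congrArg Prod.snd h), fun h' => h.2 (congrArg Prod.fst h'), by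
        dsimp only
        rw [qf_one, qf_one, h.1]
        ring⟩ := by
    unfold kp
    rw [dif_pos h]
  rw [h1]
  refine kp_eq (c := 0) h.swap one_ne_zero one_ne_zero _ ?_ ?_ ?_
  · change (y, (1 : L)) = _
    rw [one_mul]
  · change (x, (1 : L)) = _
    rw [one_mul]
  · change aeval x f * (1 ^ 2 * aeval y g) = w * (1 ^ 2 * w)
    linear_combination -h.1

theorem ksw_bp [C3 f] [C3 g] {p : (Kv f g).pt L} : Bp g f (ksw p) ↔ Bp f g p := by
  induction p using Quotient.inductionOn with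
  | h P =>
    have e : ksw (Quotient.mk _ P : (Kv f g).pt L) = (Quotient.mk _ P.sw : (Kv g f).pt L) := rfl
    rw [e, bp_mk, bp_mk]
    exact or_comm

end pts

variable {F : Type} [Field F] {f g : F[X]} [C3 f] [C3 g] {K : Type} [Field K] [CharZero K]
  [Algebra F K] {Ω : Type} [Field Ω] [Algebra K Ω] [Algebra F Ω] [IsScalarTower F K Ω]
  [IsAlgClosure K Ω]

/-- Proof: the generators; the values are exchanged. -/
theorem ksw_ratEq {z : (Kv f g).pt Ω →₀ ℤ} (hz : z ∈ (Kv f g).ratEq K Ω) :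
    Finsupp.mapDomain ksw z ∈ (Kv g f).ratEq K Ω := by
  have h : (Kv f g).ratEq K Ω ≤
      ((Kv g f).ratEq K Ω).comap (Finsupp.mapDomain.addMonoidHom (M := ℤ) ksw) := by
    refine (AddSubgroup.closure_le _).2 ?_
    rintro _ ⟨E, i1, i2, i3, i4, hE, u, x, hu, hx, S, m, y, hS1, hS2, rfl⟩
    refine AddSubgroup.subset_closure ⟨E, i1, i2, i3, i4, hE, u, ksw x, hu, ?_, S, m,
      fun w => ksw (y w), hS1, ?_, ?_⟩
    · intro σ
      have h1 := ksw_map ((σ.restrictScalars F : AlgebraicClosure E ≃ₐ[F] AlgebraicClosure E) :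
        AlgebraicClosure E →ₐ[F] AlgebraicClosure E) x
      exact h1.trans (congrArg ksw (hx σ))
    · intro w hw
      obtain ⟨ho, W, w1, w2, P, Q, e1, e2, r1, r2, r3⟩ := hS2 w hw
      refine ⟨ho, W, w1, w2, P.sw, Q.sw, ?_, ?_, r2, r1, ?_⟩
      · rw [e1]
        rfl
      · dsimp only
        rw [e2]
        rfl
      · obtain ⟨a1, a2, a3, a4⟩ := r3
        exact ⟨a2, a1, a4, a3⟩
    · rw [map_sum]
      refine Finset.sum_congr rfl fun w _ => ?_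
      rw [Finsupp.mapDomain.addMonoidHom_apply, Finsupp.mapDomain_single]
  exact h hz

omit [C3 f] [C3 g] [CharZero K] [IsAlgClosure K Ω] in
private theorem ksw_act (γ : Ω ≃ₐ[K] Ω) (p : (Kv f g).pt Ω) : ksw (γ • p) = γ • ksw p :=
  (ksw_map ((γ.restrictScalars F : Ω ≃ₐ[F] Ω) : Ω →ₐ[F] Ω) p).symm

omit [C3 f] [C3 g] [CharZero K] [IsAlgClosure K Ω] in
private theorem ksw_cyc {z : (Kv f g).pt Ω →₀ ℤ} (hz : z ∈ (Kv f g).cyc K Ω) :
    Finsupp.mapDomain ksw z ∈ (Kv g f).cyc K Ω := by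
  intro σ
  have h1 := hz σ
  have h2 : ((Kv g f).act σ) ∘ (ksw : (Kv f g).pt Ω → (Kv g f).pt Ω) =
      ksw ∘ ((Kv f g).act σ) := by
    funext p
    exact (ksw_act σ p).symm
  rw [← Finsupp.mapDomain_comp, h2, Finsupp.mapDomain_comp, h1]

private theorem ksw_oo : Finsupp.single (ksw (oo f g Ω)) 1 ∈ R2 g f K Ω := by
  have h1 : ksw (oo f g Ω) = (Kv g f).map (IsScalarTower.toAlgHom F K Ω) (ksw (oo f g K)) := by
    rw [ksw_map, oo_map]
  have h2 := bad_ratEq (Ω := Ω) (x := ksw (oo f g K)) (ksw_bp.2 oo_bp)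
  rw [← h1] at h2
  have h3 := add_mem (r2_ratEq h2) r2_oo
  rwa [sub_add_cancel] at h3

/-- Proof: `ksw_ratEq`; `ksw` commutes with the Galois group; `ksw O - O` is in `ratEq` (`bad_ratEq`). -/
theorem ksw_R2 {z : (Kv f g).pt Ω →₀ ℤ} (hz : z ∈ R2 f g K Ω) :
    Finsupp.mapDomain ksw z ∈ R2 g f K Ω := by
  obtain ⟨u, hu, o, ho, rfl⟩ := AddSubgroup.mem_sup.1 hz
  obtain ⟨r, hr, d, hd, rfl⟩ := AddSubgroup.mem_sup.1 hu
  obtain ⟨c, hc, rfl⟩ := hd
  obtain ⟨n, rfl⟩ := AddSubgroup.mem_zmultiples_iff.1 ho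
  rw [← Finsupp.mapDomain.addMonoidHom_apply, nsmulAddMonoidHom_apply, map_add, map_add,
    map_nsmul, map_zsmul]
  refine add_mem (add_mem (r2_ratEq (ksw_ratEq hr)) (r2_two (ksw_cyc hc))) (zsmul_mem ?_ n)
  rw [Finsupp.mapDomain.addMonoidHom_apply, Finsupp.mapDomain_single]
  exact ksw_oo

/-- Proof: the trace of `ksw p` is the image of the trace of `p`. -/
theorem tp_swap {x y w : Ω} (h : Sp f g x y w) (ht : Tp g f K (kp g f y x w)) :
    Tp f g K (kp f g x y w) := by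
  have h1 := ksw_R2 (K := K) ht
  have hst : MulAction.stabilizer (Ω ≃ₐ[K] Ω) (kp g f y x w) =
      MulAction.stabilizer (Ω ≃ₐ[K] Ω) (kp f g x y w) := by
    ext γ
    rw [MulAction.mem_stabilizer_iff, MulAction.mem_stabilizer_iff, kp_fix γ h, kp_fix γ h.swap]
    exact ⟨fun h => ⟨h.2.1, h.1, h.2.2⟩, fun h => ⟨h.2.1, h.1, h.2.2⟩⟩
  have hfi : (MulAction.stabilizer (Ω ≃ₐ[K] Ω) (kp f g x y w)).FiniteIndex :=
    opn_fin _ (kv_stab _)
  have e : Finsupp.mapDomain ksw (tq (Ω ≃ₐ[K] Ω) (kp g f y x w)) =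
      tq (Ω ≃ₐ[K] Ω) (kp f g x y w) := by
    unfold tq
    rw [hst, trG_apply hfi, trG_apply hfi, ← Finsupp.mapDomain.addMonoidHom_apply,
      AddMonoidHom.map_finsum _ (Set.toFinite _)]
    refine finsum_congr fun q => ?_
    rw [Finsupp.mapDomain.addMonoidHom_apply, Finsupp.mapDomain_single, Finsupp.mapDomain_single,
      Finsupp.mapDomain_single, ksw_act, ksw_kp h.swap]
  rw [e] at h1
  exact h1

/-- Lines in the fibre `y = y₀`. Proof: `line_y` for `g`, `f`, `tp_swap`. -/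
theorem line_x {x₀ y₀ w₀ a b c x₁ x₂ : Ω} (h₀ : Sp f g x₀ y₀ w₀) (hc : c ≠ 0)
    (hn : ∀ z : Ω, (a * z + b) ^ 2 - aeval y₀ g * aeval z f = c * ((z - x₀) * (z - x₁) * (z - x₂)))
    (hfix : ∀ γ : Ω ≃ₐ[K] Ω, γ x₀ = x₀ → γ y₀ = y₀ → γ w₀ = w₀ → γ a = a ∧ γ b = b)
    (h₁ : x₁ ≠ x₂ → ∀ w : Ω, Sp f g x₁ y₀ w → Tp f g K (kp f g x₁ y₀ w))
    (h₂ : x₁ ≠ x₂ → ∀ w : Ω, Sp f g x₂ y₀ w → Tp f g K (kp f g x₂ y₀ w)) :
    Tp f g K (kp f g x₀ y₀ w₀) :=
  tp_swap h₀ (line_y h₀.swap hc hn (fun γ h1 h2 h3 => hfix γ h2 h1 h3)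
    (fun hne w hw => tp_swap hw (h₁ hne w hw.swap)) (fun hne w hw => tp_swap hw (h₂ hne w hw.swap)))

/-- Halves in the other factor. -/
theorem half_tp' {x y w : Ω} (h : Sp f g x y w) (e ρ : Fin 3 → Ω)
    (he : ∀ z : Ω, aeval z f = 4 * ((z - e 0) * (z - e 1) * (z - e 2)))
    (hρ : ∀ i, ρ i ^ 2 = aeval y g * (x - e i))
    (hγ : ∀ γ : Ω ≃ₐ[K] Ω, γ x = x → γ y = y → γ w = w →
      ∃ τ : Equiv.Perm (Fin 3), ∀ i, γ (e i) = e (τ i) ∧ γ (ρ i) = ρ (τ i)) :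
    Tp f g K (kp f g x y w) :=
  tp_swap h (half_tp h.swap e ρ he hρ fun γ h1 h2 h3 => hγ γ h2 h1 h3)

end PE
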