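import Pool.Agent.Lib.MP_f80667_ag.Kf.A2P
import Pool.Agent.Lib.MP_f80667_ag.Kf.Sw
import Pool.Agent.Lib.MP_f80667_ag.Pe.Ur

/-!
The surface over `ℚ₂`: `f = (u + 4 x') (x'² - 4 q)`, `x' = x - a`, `q` a uniformizer, `u ≡ 1` modulo `4`, `g = 4 y³ + 4 c₂ y² + 4 c₄ y + b`, `b ≡ 1` modulo `4`.

* `N2`: this normal form.
* `Uh`: the points of the surface with an unramified twist are in `R2`.
-/

open ZC BE Polynomial IntermediateField

namespace PE

variable {F : Type} [Field F] {f g : F[X]} {K : Type} [Field K] [CharZero K]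
  [Algebra F K] {Ω : Type} [Field Ω] [Algebra K Ω] [Algebra F Ω] [IsScalarTower F K Ω]
  [IsAlgClosure K Ω]

/-- The normal form. -/
structure N2 (L : Ld K Ω) (f g : F[X]) (a u q c₂ c₄ b : K) : Prop where
  p2 : L.p = 2
  res : ∀ x : K, L.nm (algebraMap K Ω x) = 1 → L.nm (algebraMap K Ω x - 1) < 1
  fe : ∀ x : Ω, aeval x f = (algebraMap K Ω u + 4 * (x - algebraMap K Ω a)) *
    ((x - algebraMap K Ω a) ^ 2 - 4 * algebraMap K Ω q)
  ge : ∀ y : Ω, aeval y g = 4 * y ^ 3 + 4 * algebraMap K Ω c₂ * y ^ 2 +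
    4 * algebraMap K Ω c₄ * y + algebraMap K Ω b
  na : L.nm (algebraMap K Ω a) ≤ 1
  nu : L.nm (algebraMap K Ω u - 1) ≤ L.nm 4
  nq : L.nm (algebraMap K Ω q) = L.nm 2
  n₂ : L.nm (algebraMap K Ω c₂) ≤ 1
  n₄ : L.nm (algebraMap K Ω c₄) ≤ 1
  nb : L.nm (algebraMap K Ω b - 1) ≤ L.nm 4

/-- The points with an unramified twist. -/
def Uh (L : Ld K Ω) (f g : F[X]) [C3 f] [C3 g] : Prop :=
  ∀ x y w r δ : Ω, Sp f g x y w →
    (∀ γ : Ω ≃ₐ[K] Ω, γ x = x → γ y = y → γ w = w → γ r = r ∧ γ δ = δ) → L.nm δ ≤ 1 →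
    aeval x f = r ^ 2 * (1 + 4 * δ) → Tp f g K (kp f g x y w)

variable [C3 f] [C3 g] {L : Ld K Ω} {a u q c₂ c₄ b : K}

omit [IsAlgClosure K Ω] in
private theorem n4_pos (L : Ld K Ω) : 0 < L.nm (4 : Ω) := by
  have : CharZero Ω := charZero_of_injective_algebraMap (algebraMap K Ω).injective
  exact L.pos (by norm_num : (4 : Ω) ≠ 0)

private theorem n2_coeff {K : Type} [Field K] (A B D E : K) :
    (C A * X ^ 3 + C B * X ^ 2 + C D * X + C E).coeff 0 = E ∧
    (C A * X ^ 3 + C B * X ^ 2 + C D * X + C E).coeff 1 = D ∧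
    (C A * X ^ 3 + C B * X ^ 2 + C D * X + C E).coeff 2 = B ∧
    (C A * X ^ 3 + C B * X ^ 2 + C D * X + C E).coeff 3 = A ∧
    (C A * X ^ 3 + C B * X ^ 2 + C D * X + C E).coeff 4 = 0 := by
  refine ⟨?_, ?_, ?_, ?_, ?_⟩ <;>
    simp only [coeff_add, coeff_C_mul, coeff_X_pow, coeff_X, coeff_C] <;> norm_num

omit [IsAlgClosure K Ω] [C3 f] [C3 g] in
private theorem N2.fK (h : N2 L f g a u q c₂ c₄ b) :
    f.map (algebraMap F K) = C (4 : K) * X ^ 3 + C (u - 12 * a) * X ^ 2 +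
      C (12 * a ^ 2 - 16 * q - 2 * a * u) * X + C ((u - 4 * a) * (a ^ 2 - 4 * q)) := by
  refine Polynomial.funext fun x => ?_
  apply (algebraMap K Ω).injective
  rw [eval_map_algebraMap, ← aeval_algebraMap_apply, h.fe]
  rw [eval_add, eval_add, eval_add, eval_mul, eval_mul, eval_mul, eval_pow, eval_pow, eval_C,
    eval_C, eval_C, eval_C, eval_X]
  simp only [map_add, map_mul, map_sub, map_pow, map_ofNat]
  ring

/-- `|y| ≤ 1`. Proof: `g(y) = 1 + 4 δ`, `δ = (b - 1) / 4 + y³ + c₂ y² + c₄ y`; `f(x) = (w / g(y))² g(y)`. -/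
theorem N2.t1 (h : N2 L f g a u q c₂ c₄ b) (hU : Uh L f g) {x y w : Ω} (hs : Sp f g x y w)
    (hy : L.nm y ≤ 1) : Tp f g K (kp f g x y w) := by
  have h4 := n4_pos L
  have hg : aeval y g = 1 + 4 * ((algebraMap K Ω b - 1) / 4 + y ^ 3 + algebraMap K Ω c₂ * y ^ 2 +
      algebraMap K Ω c₄ * y) := by
    have h40 : (4 : Ω) ≠ 0 := L.ne_zero h4
    rw [h.ge y]
    field_simp
    ring
  obtain ⟨δ, hδ⟩ : ∃ δ, δ = (algebraMap K Ω b - 1) / 4 + y ^ 3 + algebraMap K Ω c₂ * y ^ 2 +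
      algebraMap K Ω c₄ * y := ⟨_, rfl⟩
  rw [← hδ] at hg
  have hd1 : L.nm δ ≤ 1 := by
    have e1 : L.nm ((algebraMap K Ω b - 1) / 4) ≤ 1 := by
      rw [L.div]
      exact div_le_one_of_le₀ h.nb (L.nonneg _)
    have e2 : L.nm (y ^ 3) ≤ 1 := by
      rw [L.pow]
      exact pow_le_one₀ (L.nonneg _) hy
    have e3 : L.nm (algebraMap K Ω c₂ * y ^ 2) ≤ 1 := by
      rw [L.mul, L.pow]
      exact mul_le_one₀ h.n₂ (pow_nonneg (L.nonneg _) _) (pow_le_one₀ (L.nonneg _) hy)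
    have e4 : L.nm (algebraMap K Ω c₄ * y) ≤ 1 := by
      rw [L.mul]
      exact mul_le_one₀ h.n₄ (L.nonneg _) hy
    rw [hδ]
    exact (L.add _ _).trans (max_le ((L.add _ _).trans (max_le ((L.add _ _).trans
      (max_le e1 e2)) e3)) e4)
  have hG : aeval y g ≠ 0 := by
    intro h0
    have h1 := hs.1
    rw [h0, mul_zero] at h1
    exact hs.2 (pow_eq_zero_iff (two_ne_zero) |>.1 h1)
  refine hU x y w (w / (1 + 4 * δ)) δ hs ?_ hd1 ?_
  · intro γ _ h2 h3
    have hγ : γ δ = δ := by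
      rw [hδ]
      simp only [map_add, map_mul, map_pow, map_div₀, map_sub, map_one, map_ofNat,
        AlgEquiv.commutes, h2]
    refine ⟨?_, hγ⟩
    rw [map_div₀, map_add, map_mul, map_one, map_ofNat, hγ, h3]
  · have h1 := hs.1
    rw [hg] at h1 hG
    rw [div_pow, h1]
    field_simp

/-- `|2| ≤ |x - a|²`, `|x - a| ≤ 1`. Proof: with `x' = x - a`: `f(x) = x'² (u + 4 x') (1 - 4 q / x'²)`, a product of numbers `1 + 4 δ`. -/
theorem N2.t2 (h : N2 L f g a u q c₂ c₄ b) (hU : Uh L f g) {x y w : Ω} (hs : Sp f g x y w)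
    (h1 : L.nm 2 ≤ L.nm (x - algebraMap K Ω a) ^ 2) (h2 : L.nm (x - algebraMap K Ω a) ≤ 1) :
    Tp f g K (kp f g x y w) := by
  have h4 := n4_pos L
  have h40 : (4 : Ω) ≠ 0 := L.ne_zero h4
  have h20 : (2 : Ω) ≠ 0 := fun h0 => h40 (by
    rw [show (4 : Ω) = 2 * 2 by norm_num, h0, mul_zero])
  have hx0 : x - algebraMap K Ω a ≠ 0 := by
    intro h0
    rw [h0, L.zero, zero_pow two_ne_zero] at h1
    exact absurd (L.pos h20) (not_lt.2 h1)
  obtain ⟨δ₁, hδ₁⟩ : ∃ δ, δ = (algebraMap K Ω u - 1) / 4 + (x - algebraMap K Ω a) := ⟨_, rfl⟩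
  obtain ⟨δ₂, hδ₂⟩ : ∃ δ, δ = -(algebraMap K Ω q / (x - algebraMap K Ω a) ^ 2) := ⟨_, rfl⟩
  have e1 : L.nm δ₁ ≤ 1 := by
    rw [hδ₁]
    refine (L.add _ _).trans (max_le ?_ h2)
    rw [L.div]
    exact div_le_one_of_le₀ h.nu (L.nonneg _)
  have e2 : L.nm δ₂ ≤ 1 := by
    rw [hδ₂, L.neg, L.div, L.pow, h.nq]
    exact div_le_one_of_le₀ h1 (pow_nonneg (L.nonneg _) _)
  have e4 : L.nm (4 : Ω) ≤ 1 := by
    have h := L.nat_le 4
    rwa [Nat.cast_ofNat] at h
  refine hU x y w (x - algebraMap K Ω a) (δ₁ + δ₂ + 4 * (δ₁ * δ₂)) hs ?_ ?_ ?_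
  · intro γ hx _ _
    have hγ : γ (x - algebraMap K Ω a) = x - algebraMap K Ω a := by
      rw [map_sub, AlgEquiv.commutes, hx]
    refine ⟨hγ, ?_⟩
    rw [hδ₁, hδ₂]
    simp only [map_add, map_mul, map_pow, map_div₀, map_sub, map_neg, map_one, map_ofNat,
      AlgEquiv.commutes, hx]
  · refine (L.add _ _).trans (max_le ((L.add _ _).trans (max_le e1 e2)) ?_)
    rw [L.mul, L.mul]
    exact mul_le_one₀ e4 (mul_nonneg (L.nonneg _) (L.nonneg _)) (mul_le_one₀ e1 (L.nonneg _) e2)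
  · rw [h.fe x, hδ₁, hδ₂]
    field_simp
    ring

omit [CharZero K] [Algebra F K] [Algebra F Ω] [IsScalarTower F K Ω] [C3 f] [C3 g] [IsAlgClosure K Ω] in
private theorem nle_of_sub_one {z : Ω} (hz : L.nm (z - 1) ≤ L.nm 4) : L.nm z ≤ 1 := by
  have h4 : L.nm 4 ≤ 1 := by
    have := L.nat_le 4
    rwa [Nat.cast_ofNat] at this
  have h1 := L.add (z - 1) 1
  rw [sub_add_cancel, L.one] at h1
  exact h1.trans (max_le (hz.trans h4) le_rfl)

/-- The two roots of a quadratic polynomial. -/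
private theorem two_roots {E : Type} [Field E] [CharZero E] [IsAlgClosed E] (s p : E) :
    ∃ r₁ r₂ : E, ∀ z : E, z ^ 2 + s * z + p = (z - r₁) * (z - r₂) := by
  obtain ⟨d, hd⟩ := IsAlgClosed.exists_pow_nat_eq (s ^ 2 - 4 * p) (n := 2) two_pos
  refine ⟨(-s + d) / 2, (-s - d) / 2, fun z => ?_⟩
  linear_combination (1 / 4) * hd

/-- `|y| ≥ 1 / |4|`. Proof: `line_y` with the line `(w / y) z` and the leading coefficient `- 4 f(x)`; `y₁`, `y₂` are the roots of `X² - (c₄ / y + b / (4 y²)) X - b / (4 y)`, which has integral coefficients, so they are integral: `N2.t1`. -/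
theorem N2.bb (h : N2 L f g a u q c₂ c₄ b) (hU : Uh L f g) {x y w : Ω} (hs : Sp f g x y w)
    (hy : 1 ≤ L.nm 4 * L.nm y) : Tp f g K (kp f g x y w) := by
  have hcz : CharZero Ω := charZero_of_injective_algebraMap (algebraMap K Ω).injective
  have hac : IsAlgClosed Ω := IsAlgClosure.isAlgClosed K
  have h4 : L.nm 4 ≤ 1 := by
    have := L.nat_le 4
    rwa [Nat.cast_ofNat] at this
  have h40 : (4 : Ω) ≠ 0 := by norm_num
  have h4p : 0 < L.nm 4 := L.pos h40
  have hy1 : 1 ≤ L.nm y := hy.trans (mul_le_of_le_one_left (L.nonneg _) h4)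
  have hyp : 0 < L.nm y := zero_lt_one.trans_le hy1
  have hy0 : y ≠ 0 := L.ne_zero hyp
  have hb : L.nm (algebraMap K Ω b) ≤ 1 := nle_of_sub_one h.nb
  have hf := hs.fx
  obtain ⟨y₁, y₂, hr⟩ := two_roots (-(algebraMap K Ω c₄ / y + algebraMap K Ω b / (4 * y ^ 2)))
    (-(algebraMap K Ω b / (4 * y)))
  have hs1 : L.nm (-(algebraMap K Ω c₄ / y + algebraMap K Ω b / (4 * y ^ 2))) ≤ 1 := by
    rw [L.neg]
    refine (L.add _ _).trans (max_le ?_ ?_)
    · rw [L.div]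
      exact div_le_one_of_le₀ (h.n₄.trans hy1) (L.nonneg _)
    · rw [L.div, L.mul, L.pow]
      refine div_le_one_of_le₀ (hb.trans ?_) (by positivity)
      rw [pow_two, ← mul_assoc]
      exact one_le_mul_of_one_le_of_one_le hy hy1
  have hp1 : L.nm (-(algebraMap K Ω b / (4 * y))) ≤ 1 := by
    rw [L.neg, L.div, L.mul]
    exact div_le_one_of_le₀ (hb.trans hy) (by positivity)
  have hroot : ∀ r : Ω, r ^ 2 + (-(algebraMap K Ω c₄ / y + algebraMap K Ω b / (4 * y ^ 2))) * r +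
      (-(algebraMap K Ω b / (4 * y))) = 0 → L.nm r ≤ 1 := by
    intro r hr0
    by_contra hlt
    rw [not_le] at hlt
    have e : r ^ 2 = -((-(algebraMap K Ω c₄ / y + algebraMap K Ω b / (4 * y ^ 2))) * r +
      (-(algebraMap K Ω b / (4 * y)))) := by linear_combination hr0
    have e2 : L.nm r ^ 2 ≤ L.nm r := by
      rw [← L.pow, e, L.neg]
      refine (L.add _ _).trans (max_le ?_ (hp1.trans hlt.le))
      rw [L.mul]
      exact mul_le_of_le_one_left (L.nonneg _) hs1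
    nlinarith
  have hr1 : L.nm y₁ ≤ 1 := hroot y₁ (by rw [hr, sub_self, zero_mul])
  have hr2 : L.nm y₂ ≤ 1 := hroot y₂ (by rw [hr, sub_self, mul_zero])
  refine line_y (a := w / y) (b := 0) (c := -4 * aeval x f) (y₁ := y₁) (y₂ := y₂) hs
    (mul_ne_zero (neg_ne_zero.2 h40) hf) (fun z => ?_)
    (fun γ _ h2 h3 => ⟨by rw [map_div₀, h2, h3], map_zero γ⟩)
    (fun _ w' hw' => h.t1 hU hw' hr1) (fun _ w' hw' => h.t1 hU hw' hr2)
  rw [mul_assoc (z - y), ← hr, h.ge z]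
  have e1 : w ^ 2 = aeval x f * (4 * y ^ 3 + 4 * algebraMap K Ω c₂ * y ^ 2 +
    4 * algebraMap K Ω c₄ * y + algebraMap K Ω b) := by rw [← h.ge y]; exact hs.1
  rw [add_zero, mul_pow, div_pow, e1]
  field_simp
  ring

/-- `|x - a| > 1`. Proof: `line_x` with the line `(w / x') (z - a)`, `x' = x - a`, and the leading coefficient `- 4 g(y)`; `x₁ - a`, `x₂ - a` are the roots of `X² + (4 q / x' + u q / x'²) X + u q / x'`. The constant term has norm `< |2|`, the linear coefficient has norm `< |2|`, so the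
squares of the norms of the roots are `< |2|`. -/
theorem N2.ff (h : N2 L f g a u q c₂ c₄ b)
    (hII : ∀ x y w : Ω, Sp f g x y w → L.nm (x - algebraMap K Ω a) ^ 2 < L.nm 2 →
      Tp f g K (kp f g x y w)) {x y w : Ω} (hs : Sp f g x y w)
    (hx : 1 < L.nm (x - algebraMap K Ω a)) : Tp f g K (kp f g x y w) := by
  have hcz : CharZero Ω := charZero_of_injective_algebraMap (algebraMap K Ω).injective
  have hac : IsAlgClosed Ω := IsAlgClosure.isAlgClosed K
  have h4 : L.nm 4 ≤ 1 := by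
    have := L.nat_le 4
    rwa [Nat.cast_ofNat] at this
  have h2 : L.nm 2 ≤ 1 := L.two_le
  have h2p : 0 < L.nm 2 := L.pos two_ne_zero
  have h40 : (4 : Ω) ≠ 0 := by norm_num
  have hxp : 0 < L.nm (x - algebraMap K Ω a) := zero_lt_one.trans hx
  have hx0 : x - algebraMap K Ω a ≠ 0 := L.ne_zero hxp
  have hu : L.nm (algebraMap K Ω u) ≤ 1 := nle_of_sub_one h.nu
  have hg := hs.gy
  have huq : L.nm (algebraMap K Ω u * algebraMap K Ω q) ≤ L.nm 2 := by
    rw [L.mul, h.nq]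
    exact mul_le_of_le_one_left h2p.le hu
  obtain ⟨r₁, r₂, hr⟩ := two_roots (4 * algebraMap K Ω q / (x - algebraMap K Ω a) +
    algebraMap K Ω u * algebraMap K Ω q / (x - algebraMap K Ω a) ^ 2)
    (algebraMap K Ω u * algebraMap K Ω q / (x - algebraMap K Ω a))
  have hdiv : ∀ {t n : ℝ}, 0 ≤ t → t ≤ L.nm 2 → 1 < n → t / n < L.nm 2 := by
    intro t n ht ht2 hn
    rw [div_lt_iff₀ (zero_lt_one.trans hn)]
    exact ht2.trans_lt (lt_mul_of_one_lt_right h2p hn)
  have hs1 : L.nm (4 * algebraMap K Ω q / (x - algebraMap K Ω a) +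
    algebraMap K Ω u * algebraMap K Ω q / (x - algebraMap K Ω a) ^ 2) < L.nm 2 := by
    refine (L.add _ _).trans_lt (max_lt ?_ ?_)
    · rw [L.div]
      refine hdiv (L.nonneg _) ?_ hx
      rw [L.mul, h.nq]
      exact mul_le_of_le_one_left h2p.le h4
    · rw [L.div]
      refine hdiv (L.nonneg _) huq ?_
      rw [L.pow]
      exact one_lt_pow₀ hx two_ne_zero
  have hp1 : L.nm (algebraMap K Ω u * algebraMap K Ω q / (x - algebraMap K Ω a)) < L.nm 2 := by
    rw [L.div]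
    exact hdiv (L.nonneg _) huq hx
  have hroot : ∀ r : Ω, r ^ 2 + (4 * algebraMap K Ω q / (x - algebraMap K Ω a) +
      algebraMap K Ω u * algebraMap K Ω q / (x - algebraMap K Ω a) ^ 2) * r +
      algebraMap K Ω u * algebraMap K Ω q / (x - algebraMap K Ω a) = 0 → L.nm r ^ 2 < L.nm 2 := by
    intro r hr0
    have e : r ^ 2 = -((4 * algebraMap K Ω q / (x - algebraMap K Ω a) +
      algebraMap K Ω u * algebraMap K Ω q / (x - algebraMap K Ω a) ^ 2) * r +
      algebraMap K Ω u * algebraMap K Ω q / (x - algebraMap K Ω a)) := by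
      linear_combination hr0
    have e1 := L.add ((4 * algebraMap K Ω q / (x - algebraMap K Ω a) +
      algebraMap K Ω u * algebraMap K Ω q / (x - algebraMap K Ω a) ^ 2) * r)
      (algebraMap K Ω u * algebraMap K Ω q / (x - algebraMap K Ω a))
    rw [← L.neg, ← e, L.pow, L.mul] at e1
    rcases le_max_iff.1 e1 with e2 | e2
    · by_contra hlt
      rw [not_lt] at hlt
      have h3 : L.nm r < L.nm 2 := by
        by_contra h5
        rw [not_lt] at h5
        have h6 : 0 < L.nm r := h2p.trans_le h5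
        have := mul_lt_mul_of_pos_right hs1 h6
        nlinarith
      nlinarith [L.nonneg r]
    · exact e2.trans_lt hp1
  have hr1 : L.nm r₁ ^ 2 < L.nm 2 := hroot r₁ (by rw [hr, sub_self, zero_mul])
  have hr2 : L.nm r₂ ^ 2 < L.nm 2 := hroot r₂ (by rw [hr, sub_self, mul_zero])
  refine line_x (a := w / (x - algebraMap K Ω a))
    (b := -(w / (x - algebraMap K Ω a) * algebraMap K Ω a)) (c := -4 * aeval y g)
    (x₁ := r₁ + algebraMap K Ω a) (x₂ := r₂ + algebraMap K Ω a) hs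
    (mul_ne_zero (neg_ne_zero.2 h40) hg) (fun z => ?_)
    (fun γ h1 _ h3 => ?_)
    (fun _ w' hw' => hII _ _ _ hw' (by rwa [add_sub_cancel_right]))
    (fun _ w' hw' => hII _ _ _ hw' (by rwa [add_sub_cancel_right]))
  · have hr' := hr (z - algebraMap K Ω a)
    have e0 : (z - x) * (z - (r₁ + algebraMap K Ω a)) * (z - (r₂ + algebraMap K Ω a)) =
      (z - x) * ((z - algebraMap K Ω a - r₁) * (z - algebraMap K Ω a - r₂)) := by ring
    rw [e0, ← hr', h.fe z]
    have e1 : w ^ 2 = (algebraMap K Ω u + 4 * (x - algebraMap K Ω a)) *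
      ((x - algebraMap K Ω a) ^ 2 - 4 * algebraMap K Ω q) * aeval y g := by
      rw [← h.fe x]
      exact hs.1
    have e2 : w / (x - algebraMap K Ω a) * z + -(w / (x - algebraMap K Ω a) * algebraMap K Ω a) =
      w / (x - algebraMap K Ω a) * (z - algebraMap K Ω a) := by ring
    rw [e2, mul_pow, div_pow, e1]
    obtain ⟨X, hX⟩ : ∃ X, X = x - algebraMap K Ω a := ⟨_, rfl⟩
    have hXx : x = X + algebraMap K Ω a := by rw [hX]; ring
    rw [← hX] at hx0 ⊢
    rw [hXx]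
    field_simp
    ring
  · have e1 : γ (w / (x - algebraMap K Ω a)) = w / (x - algebraMap K Ω a) := by
      rw [map_div₀, map_sub, h1, h3, γ.commutes]
    exact ⟨e1, by rw [map_neg, map_mul, e1, γ.commutes]⟩

/-- **Moving `y`.** Here `|y| > 1`. Proof: let `y' ∈ M = K(x, y, w)` be close to `y`, `y' ≠ y`; `g(y') / g(y) = 1 + 4 m`, `m` small, is a square in `M` (`Ld.sq_two`): `w'² = f(x) g(y')`, `w'` close to `w`. `line_y` with the line through `(y, - w)` and `(y', w')`: slope `s = (w' + w) / (y' - y)`, the third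
root is `y_R = s² / (4 f(x)) - c₂ - y - y'`, `|y_R| ≥ 1 / |4|` if `y'` is close enough to `y` (`w' + w` is close to `2 w ≠ 0`): `N2.bb`. The points over `y'` are `kp x y' (± w')`: `neg_tp`. To have `K(y') = M`: `M = K(θ)`; there are finitely many intermediate fields (`Field.exists_primitive_element_iff_finite_intermediateField`), so for
some `n < n'` (arbitrarily large) the fields `K(y + 2 ^ n θ)` and `K(y + 2 ^ n' θ)` are equal, then they contain `θ`. -/
theorem N2.pert (h : N2 L f g a u q c₂ c₄ b) (hU : Uh L f g) {x y w : Ω} (hs : Sp f g x y w)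
    (hy : 1 < L.nm y) : ∃ y' w' : Ω, Sp f g x y' w' ∧ L.nm y' = L.nm y ∧
      K⟮y'⟯ = IntermediateField.adjoin K {x, y, w} ∧ x ∈ K⟮y'⟯ ∧ w' ∈ K⟮y'⟯ ∧
      (Tp f g K (kp f g x y' w') → Tp f g K (kp f g x y w)) := by
  have halg : Algebra.IsAlgebraic K Ω := IsAlgClosure.isAlgebraic
  have hCh : CharZero Ω := charZero_of_injective_algebraMap (algebraMap K Ω).injective
  obtain ⟨M, hMd⟩ : ∃ M, M = IntermediateField.adjoin K ({x, y, w} : Set Ω) := ⟨_, rfl⟩
  have hfdM : FiniteDimensional K M := by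
    rw [hMd]
    have : Finite ({x, y, w} : Set Ω) := Set.toFinite _
    exact IntermediateField.finiteDimensional_adjoin fun z _ => (halg.isAlgebraic z).isIntegral
  have hxM : x ∈ M := hMd ▸ subset_adjoin K _ (by simp)
  have hyM : y ∈ M := hMd ▸ subset_adjoin K _ (by simp)
  have hwM : w ∈ M := hMd ▸ subset_adjoin K _ (by simp)
  have hfx : ∀ γ : Ω ≃ₐ[K] Ω, γ x = x → γ y = y → γ w = w → ∀ z ∈ M, γ z = z := by
    intro γ h1 h2 h3 z hz
    rw [hMd] at hz
    refine (IntermediateField.forall_mem_adjoin_smul_eq_self_iff K (S := {x, y, w}) γ).2 ?_ z hz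
    intro t ht
    rcases ht with rfl | rfl | rfl
    · exact h1
    · exact h2
    · exact h3
  have h2p : L.nm (2 : Ω) < 1 := by
    have := L.lt
    rwa [h.p2, Nat.cast_ofNat] at this
  have h20 : (0 : ℝ) < L.nm (2 : Ω) := L.pos two_ne_zero
  have h4e : L.nm (4 : Ω) = L.nm 2 ^ 2 := by
    rw [← L.pow]
    congr 1
    norm_num
  have h40 : (0 : ℝ) < L.nm (4 : Ω) := by
    rw [h4e]
    exact pow_pos h20 2
  have h41 : L.nm (4 : Ω) ≤ 1 := by
    rw [h4e]
    exact pow_le_one₀ h20.le h2p.le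
  have hF0 := hs.fx
  have hG0 := hs.gy
  have hY0 : (0 : ℝ) < L.nm y := zero_lt_one.trans hy
  have hGp : (0 : ℝ) < L.nm (aeval y g) := L.pos hG0
  have hY1 : 1 ≤ L.nm y ^ 2 := one_le_pow₀ hy.le
  -- the distance
  obtain ⟨δ, hδ⟩ : ∃ δ : ℝ, δ = min (1 / 2) (min (L.nm (4 : Ω) * L.nm (aeval y g))
      (L.nm (aeval y g) / (2 * L.nm y ^ 2))) := ⟨_, rfl⟩
  have hδ0 : 0 < δ := by
    rw [hδ]
    exact lt_min one_half_pos (lt_min (mul_pos h40 hGp) (div_pos hGp (by positivity)))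
  have hδ1 : δ ≤ 1 / 2 := by
    rw [hδ]
    exact min_le_left _ _
  have hδ2 : δ ≤ L.nm (4 : Ω) * L.nm (aeval y g) := by
    rw [hδ]
    exact (min_le_right _ _).trans (min_le_left _ _)
  have hδ3 : δ * L.nm y ^ 2 < L.nm (aeval y g) := by
    have h1 : δ ≤ L.nm (aeval y g) / (2 * L.nm y ^ 2) := by
      rw [hδ]
      exact (min_le_right _ _).trans (min_le_right _ _)
    rw [le_div_iff₀ (by positivity)] at h1
    nlinarith
  obtain ⟨y', hy'M, hne, hcl, hgen⟩ := pertA_ex L M hyM hδ0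
  obtain ⟨ε, hε⟩ : ∃ ε, ε = L.nm (y' - y) := ⟨_, rfl⟩
  rw [← hε] at hcl
  have hsub : y' - y ≠ 0 := sub_ne_zero.2 hne
  have hε0 : 0 < ε := by
    rw [hε]
    exact L.pos hsub
  have hny : L.nm y' = L.nm y := by
    apply L.eq_of_close
    rw [← hε]
    linarith
  -- the square root
  have hgd : aeval y' g - aeval y g = 4 * (y' - y) * (y' ^ 2 + y' * y + y ^ 2 +
      algebraMap K Ω c₂ * (y' + y) + algebraMap K Ω c₄) := by
    rw [h.ge, h.ge]
    ring
  have hin : L.nm (y' ^ 2 + y' * y + y ^ 2 + algebraMap K Ω c₂ * (y' + y) +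
      algebraMap K Ω c₄) ≤ L.nm y ^ 2 := by
    have hyy : L.nm y ≤ L.nm y ^ 2 := le_self_pow₀ hy.le two_ne_zero
    refine (L.add _ _).trans (max_le ((L.add _ _).trans (max_le ((L.add _ _).trans (max_le
      ((L.add _ _).trans (max_le ?_ ?_)) ?_)) ?_)) (h.n₄.trans hY1))
    · rw [L.pow, hny]
    · rw [L.mul, hny, sq]
    · rw [L.pow]
    · rw [L.mul]
      refine (mul_le_of_le_one_left (L.nonneg _) h.n₂).trans ?_
      refine (L.add _ _).trans (max_le ?_ hyy)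
      rw [hny]
      exact hyy
  have hsm : L.nm ((aeval y' g - aeval y g) / aeval y g) < L.nm (4 : Ω) := by
    rw [L.div, div_lt_iff₀ hGp, hgd, L.mul, L.mul, ← hε, mul_assoc]
    refine mul_lt_mul_of_pos_left ?_ h40
    refine lt_of_le_of_lt ?_ hδ3
    exact mul_le_mul hcl hin (L.nonneg _) hδ0.le
  have hgM : ∀ z ∈ M, aeval z g ∈ M := by
    intro z hz
    rw [h.ge]
    have h4M : (4 : Ω) ∈ M := by
      have := M.natCast_mem 4
      rwa [Nat.cast_ofNat] at this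
    exact M.add_mem (M.add_mem (M.add_mem (M.mul_mem h4M (pow_mem hz 3))
      (M.mul_mem (M.mul_mem h4M (M.algebraMap_mem _)) (pow_mem hz 2)))
      (M.mul_mem (M.mul_mem h4M (M.algebraMap_mem _)) hz)) (M.algebraMap_mem _)
  obtain ⟨s, hsM, hs2, hs1⟩ : ∃ s ∈ M, s ^ 2 * aeval y g = aeval y' g ∧
      L.nm (s - 1) < L.nm (2 : Ω) := by
    obtain ⟨s, hsM, hs2⟩ := L.sq M (M.div_mem (M.sub_mem (hgM _ hy'M) (hgM _ hyM)) (hgM _ hyM)) hsm
    have e1 : s ^ 2 * aeval y g = aeval y' g := by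
      rw [← hs2, add_mul, div_mul_cancel₀ _ hG0]
      ring
    have e2 : L.nm (s - 1) * L.nm (s + 1) < L.nm (2 : Ω) ^ 2 := by
      rw [← L.mul, ← h4e]
      have e3 : (s - 1) * (s + 1) = (aeval y' g - aeval y g) / aeval y g := by
        linear_combination -hs2
      rw [e3]
      exact hsm
    by_cases h5 : L.nm (s - 1) < L.nm (2 : Ω)
    · exact ⟨s, hsM, e1, h5⟩
    · refine ⟨-s, M.neg_mem hsM, by rw [neg_sq]; exact e1, ?_⟩
      rw [not_lt] at h5
      by_contra h6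
      rw [not_lt] at h6
      have e4 : L.nm (-s - 1) = L.nm (s + 1) := by
        rw [← L.neg]
        congr 1
        ring
      rw [e4] at h6
      have := mul_le_mul h5 h6 h20.le (L.nonneg _)
      rw [← sq] at this
      exact absurd e2 (not_lt.2 this)
  have hsp : L.nm (s + 1) = L.nm (2 : Ω) := by
    have e1 : s + 1 = (s - 1) + 2 := by ring
    rw [e1]
    exact L.add_eq hs1
  have hs0 : s ≠ 0 := by
    rintro rfl
    rw [zero_sub, L.neg, L.one] at hs1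
    exact absurd hs1 (not_lt.2 h2p.le)
  have hsp' : Sp f g x y' (w * s) := by
    refine ⟨?_, mul_ne_zero hs.2 hs0⟩
    rw [mul_pow, hs.1, ← hs2]
    ring
  refine ⟨y', w * s, hsp', hny, hgen.trans hMd, hgen ▸ hxM, hgen ▸ M.mul_mem hwM hsM, ?_⟩
  intro hT
  -- the third point
  obtain ⟨a₀, ha₀⟩ : ∃ a₀, a₀ = (w * s + w) / (y' - y) := ⟨_, rfl⟩
  obtain ⟨t, ht⟩ : ∃ t, t = a₀ ^ 2 / (4 * aeval x f) - algebraMap K Ω c₂ - y - y' := ⟨_, rfl⟩
  have h4f : (4 : Ω) * aeval x f ≠ 0 := mul_ne_zero (L.ne_zero h40) hF0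
  have hmain : L.nm (a₀ ^ 2 / (4 * aeval x f)) = L.nm (aeval y g) / ε ^ 2 := by
    have e1 : w * s + w = w * (s + 1) := by ring
    have e2 : L.nm w ^ 2 = L.nm (aeval x f) * L.nm (aeval y g) := by
      rw [← L.pow, hs.1, L.mul]
    have hFp := L.pos hF0
    rw [ha₀, L.div, L.pow, L.div, e1, L.mul, hsp, L.mul, ← hε, h4e, div_pow, mul_pow, e2]
    field_simp
  have hbig : L.nm y < L.nm (aeval y g) / ε ^ 2 := by
    rw [lt_div_iff₀ (by positivity)]
    have e1 : ε ^ 2 ≤ δ := by nlinarith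
    have e2 : L.nm y ≤ L.nm y ^ 2 := le_self_pow₀ hy.le two_ne_zero
    calc L.nm y * ε ^ 2 ≤ L.nm y ^ 2 * δ := mul_le_mul e2 e1 (by positivity) (by positivity)
      _ = δ * L.nm y ^ 2 := mul_comm _ _
      _ < _ := hδ3
  have htn : L.nm t = L.nm (aeval y g) / ε ^ 2 := by
    have e1 : t = a₀ ^ 2 / (4 * aeval x f) + -(algebraMap K Ω c₂ + (y + y')) := by
      rw [ht]
      ring
    rw [e1, ← hmain]
    apply L.add_eq'
    rw [hmain, L.neg]
    refine lt_of_le_of_lt ?_ hbig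
    refine (L.add _ _).trans (max_le (h.n₂.trans hy.le) ((L.add _ _).trans (max_le le_rfl hny.le)))
  have htb : 1 ≤ L.nm 4 * L.nm t := by
    rw [htn, ← mul_div_assoc, le_div_iff₀ (by positivity), one_mul]
    have e1 : ε ^ 2 ≤ δ := by nlinarith
    exact e1.trans hδ2
  have ha₀M : a₀ ∈ M := by
    rw [ha₀]
    exact M.div_mem (M.add_mem (M.mul_mem hwM hsM) hwM) (M.sub_mem hy'M hyM)
  refine line_y (a := a₀) (b := -w - a₀ * y) (c := -4 * aeval x f) (y₁ := y') (y₂ := t) hs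
    ?_ ?_ ?_ ?_ ?_
  · rw [neg_mul]
    exact neg_ne_zero.2 h4f
  · intro z
    have e1 := pertA_line (z := z) h4f hsub (by rw [← h.ge]; exact hs.1)
      (by rw [← h.ge]; exact hsp'.1) ha₀ ht
    rw [h.ge z]
    exact e1
  · intro γ h1 h2 h3
    refine ⟨hfx γ h1 h2 h3 _ ha₀M, hfx γ h1 h2 h3 _ ?_⟩
    exact M.sub_mem (M.neg_mem hwM) (M.mul_mem ha₀M hyM)
  · intro _ w₁ hw₁
    have e1 : w₁ ^ 2 = (w * s) ^ 2 := by rw [hw₁.1, hsp'.1]
    rcases sq_eq_sq_iff_eq_or_eq_neg.1 e1 with rfl | rfl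
    · exact hT
    · exact neg_tp hsp' hT
  · intro _ w₂ hw₂
    exact h.bb hU hw₂ htb

/-- The homogeneous form. Proof: compare coefficients of `f`. -/
theorem N2.hF (h : N2 L f g a u q c₂ c₄ b) (α₁ α₂ : K[X]) :
    PE.hF f (α₁ + C a * α₂) α₂ = α₂ * (C u * α₂ + 4 * α₁) * (α₁ ^ 2 - 4 * C q * α₂ ^ 2) := by
  have hc : ∀ i, algebraMap F K (f.coeff i) = (C (4 : K) * X ^ 3 + C (u - 12 * a) * X ^ 2 +
      C (12 * a ^ 2 - 16 * q - 2 * a * u) * X + C ((u - 4 * a) * (a ^ 2 - 4 * q))).coeff i := by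
    intro i
    rw [← coeff_map, h.fK]
  unfold PE.hF
  simp only [Finset.sum_range_succ, Finset.sum_range_zero]
  rw [hc 0, hc 1, hc 2, hc 3, hc 4, (n2_coeff _ _ _ _).1, (n2_coeff _ _ _ _).2.1,
    (n2_coeff _ _ _ _).2.2.1, (n2_coeff _ _ _ _).2.2.2.1, (n2_coeff _ _ _ _).2.2.2.2]
  simp only [map_mul, map_sub, map_pow, map_ofNat, map_zero]
  ring

/-- The polynomial `g` over `K`. -/
theorem N2.gK (h : N2 L f g a u q c₂ c₄ b) :
    g.map (algebraMap F K) = 4 * X ^ 3 + 4 * C c₂ * X ^ 2 + 4 * C c₄ * X + C b := by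
  refine Polynomial.funext fun x => ?_
  apply (algebraMap K Ω).injective
  rw [eval_map_algebraMap, ← aeval_algebraMap_apply, h.ge]
  simp only [eval_add, eval_mul, eval_C, eval_X, eval_pow, eval_ofNat, map_add, map_mul, map_pow,
    map_ofNat]

end PE
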