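import Pool.Agent.Lib.MP_f80667_ag.Pe.Ld

/-!
Generators close to a given element; lines through two points of a cubic.
-/

open ZC BE Polynomial IntermediateField

namespace PE

section gen

variable {K Ω : Type} [Field K] [CharZero K] [Field Ω] [Algebra K Ω]

/-- Some member of an arithmetic sequence is a generator. -/
private theorem pertA_gen (M : IntermediateField K Ω) [FiniteDimensional K M] {y : Ω} (hy : y ∈ M)
    (n₀ : ℕ) (c : K) (hc : Function.Injective fun n : ℕ => c ^ n) :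
    ∃ θ : Ω, θ ≠ 0 ∧ θ ∈ M ∧ ∀ n₀ : ℕ, ∃ n, n₀ ≤ n ∧ K⟮y + algebraMap K Ω (c ^ n) * θ⟯ = M := by
  have _ := n₀
  obtain ⟨α, hα0, hα⟩ : ∃ α : M, α ≠ 0 ∧ K⟮α⟯ = ⊤ := by
    obtain ⟨α, hα⟩ := Field.exists_primitive_element K M
    by_cases h0 : α = 0
    · refine ⟨1, one_ne_zero, ?_⟩
      rw [h0] at hα
      rw [← hα]
      simp
    · exact ⟨α, h0, hα⟩
  refine ⟨(α : Ω), fun h => hα0 (Subtype.ext h), α.2, fun n₀ => ?_⟩
  have hfin : Finite (IntermediateField K M) :=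
    Field.finite_intermediateField_of_exists_primitive_element K M
      (Field.exists_primitive_element K M)
  let Y : M := ⟨y, hy⟩
  let φ : ℕ → IntermediateField K M := fun k => K⟮Y + algebraMap K M (c ^ (n₀ + k)) * α⟯
  obtain ⟨k, k', hne, he⟩ := Finite.exists_ne_map_eq_of_infinite φ
  have h1 : Y + algebraMap K M (c ^ (n₀ + k)) * α ∈ φ k := mem_adjoin_simple_self K _
  have h2 : Y + algebraMap K M (c ^ (n₀ + k')) * α ∈ φ k := by
    rw [he]
    exact mem_adjoin_simple_self K _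
  have h3 : algebraMap K M (c ^ (n₀ + k) - c ^ (n₀ + k')) * α ∈ φ k := by
    have h4 := (φ k).sub_mem h1 h2
    have h5 : Y + algebraMap K M (c ^ (n₀ + k)) * α - (Y + algebraMap K M (c ^ (n₀ + k')) * α) =
        algebraMap K M (c ^ (n₀ + k) - c ^ (n₀ + k')) * α := by
      rw [map_sub]
      ring
    rwa [h5] at h4
  have hd : c ^ (n₀ + k) - c ^ (n₀ + k') ≠ 0 := by
    intro h
    have := hc (sub_eq_zero.1 h)
    omega
  have hd' : algebraMap K M (c ^ (n₀ + k) - c ^ (n₀ + k')) ≠ 0 := by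
    rw [Ne, map_eq_zero]
    exact hd
  have h6 : α ∈ φ k := by
    have h7 := (φ k).mul_mem ((φ k).inv_mem ((φ k).algebraMap_mem
      (c ^ (n₀ + k) - c ^ (n₀ + k')))) h3
    rwa [inv_mul_cancel_left₀ hd'] at h7
  have h8 : φ k = ⊤ := by
    rw [eq_top_iff, ← hα, adjoin_simple_le_iff]
    exact h6
  refine ⟨n₀ + k, Nat.le_add_right _ _, ?_⟩
  have h9 := congrArg IntermediateField.lift h8
  rw [IntermediateField.lift_top] at h9
  change IntermediateField.lift K⟮Y + algebraMap K M (c ^ (n₀ + k)) * α⟯ = M at h9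
  rw [IntermediateField.lift_adjoin_simple] at h9
  exact h9

end gen

/-- **Close generators.** -/
theorem pertA_ex {K Ω : Type} [Field K] [CharZero K] [Field Ω] [Algebra K Ω] (L : Ld K Ω)
    (M : IntermediateField K Ω) [FiniteDimensional K M] {y : Ω} (hy : y ∈ M) {δ : ℝ} (hδ : 0 < δ) :
    ∃ y' ∈ M, y' ≠ y ∧ L.nm (y' - y) ≤ δ ∧ K⟮y'⟯ = M := by
  have hp := L.p_pos
  have hinj : Function.Injective fun n : ℕ => (L.p : K) ^ n := by
    have h1 : Function.Injective fun n : ℕ => (L.p : ℕ) ^ n :=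
      Nat.pow_right_injective L.pp.two_le
    intro m n h
    apply h1
    have h2 : ((L.p ^ m : ℕ) : K) = ((L.p ^ n : ℕ) : K) := by
      rw [Nat.cast_pow, Nat.cast_pow]
      exact h
    exact Nat.cast_injective h2
  obtain ⟨θ, hθ0, hθM, hθ⟩ := pertA_gen M hy 0 (L.p : K) hinj
  obtain ⟨n₀, hn₀⟩ := exists_pow_lt_of_lt_one (div_pos hδ (L.pos hθ0)) L.lt
  obtain ⟨n, hn, hM⟩ := hθ n₀
  have hpn : algebraMap K Ω ((L.p : K) ^ n) = (L.p : Ω) ^ n := by
    rw [map_pow, map_natCast]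
  rw [hpn] at hM
  refine ⟨y + (L.p : Ω) ^ n * θ, ?_, ?_, ?_, hM⟩
  · rw [← hM]
    exact mem_adjoin_simple_self K _
  · rw [Ne, add_eq_left, mul_eq_zero, not_or]
    exact ⟨pow_ne_zero _ (L.ne_zero hp), hθ0⟩
  · rw [add_sub_cancel_left, L.mul, L.pow]
    have h1 : L.nm (L.p : Ω) ^ n ≤ L.nm (L.p : Ω) ^ n₀ :=
      pow_le_pow_of_le_one (L.nonneg _) L.lt.le hn
    have h2 : L.nm (L.p : Ω) ^ n < δ / L.nm θ := h1.trans_lt hn₀
    exact ((lt_div_iff₀ (L.pos hθ0)).1 h2).le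

/-- The line through two points of the cubic `d (4 z³ + 4 c₂ z² + 4 c₄ z + b)`. -/
theorem pertA_line {Ω : Type} [Field Ω] {d c₂ c₄ b y w y' w' s t : Ω} (hd : 4 * d ≠ 0)
    (hne : y' - y ≠ 0)
    (h : w ^ 2 = d * (4 * y ^ 3 + 4 * c₂ * y ^ 2 + 4 * c₄ * y + b))
    (h' : w' ^ 2 = d * (4 * y' ^ 3 + 4 * c₂ * y' ^ 2 + 4 * c₄ * y' + b))
    (hs : s = (w' + w) / (y' - y)) (ht : t = s ^ 2 / (4 * d) - c₂ - y - y') (z : Ω) :
    (s * z + (-w - s * y)) ^ 2 - d * (4 * z ^ 3 + 4 * c₂ * z ^ 2 + 4 * c₄ * z + b) =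
      (-4 * d) * ((z - y) * (z - y') * (z - t)) := by
  have e1 : s * (y' - y) = w' + w := by
    rw [hs, div_mul_cancel₀ _ hne]
  have e2 : t * (4 * d) = s ^ 2 - (c₂ + y + y') * (4 * d) := by
    rw [ht, sub_mul, sub_mul, sub_mul, div_mul_cancel₀ _ hd]
    ring
  obtain ⟨P, hP⟩ : ∃ P, P = 2 * s * (-w - s * y) - 4 * d * c₄ +
      4 * d * (y * y' + y * t + y' * t) := ⟨_, rfl⟩
  obtain ⟨Q, hQ⟩ : ∃ Q, Q = (-w - s * y) ^ 2 - d * b - 4 * d * (y * y' * t) := ⟨_, rfl⟩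
  have key : ∀ z : Ω, (s * z + (-w - s * y)) ^ 2 -
      d * (4 * z ^ 3 + 4 * c₂ * z ^ 2 + 4 * c₄ * z + b) -
      (-4 * d) * ((z - y) * (z - y') * (z - t)) = P * z + Q := by
    intro z
    rw [hP, hQ]
    linear_combination (-z ^ 2) * e2
  have k1 : P * y + Q = 0 := by
    rw [← key y]
    linear_combination h
  have k2 : P * y' + Q = 0 := by
    rw [← key y']
    have e3 : s * y' + (-w - s * y) = w' := by linear_combination e1
    rw [e3]
    linear_combination h'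
  have k3 : P = 0 := by
    have : P * (y' - y) = 0 := by linear_combination k2 - k1
    exact (mul_eq_zero.1 this).resolve_right hne
  have k4 : Q = 0 := by
    rw [k3] at k1
    linear_combination k1
  have := key z
  rw [k3, k4] at this
  linear_combination this

end PE
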