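import Pool.Agent.Lib.MP_f80667_ag.Kf.Tp

/-! The rational curves `f(x) = 0`, `g(y) = 0`, and the exceptional curves: their points are rationally equivalent to `O`. -/

open ZC BE Polynomial IntermediateField

namespace PE

section fam

variable {F : Type} [Field F] {f g : F[X]} {K : Type} [Field K]
  [Algebra F K] {Ω : Type} [Field Ω] [Algebra K Ω] [Algebra F Ω] [IsScalarTower F K Ω]

variable (f g K Ω) in
/-- A rational curve on the surface over `K`, parametrized by the projective line. -/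
private structure BdFam where
  Φ : ∀ (L : Type) [Field L] [Algebra F L] [Algebra K L] [IsScalarTower F K L] (v : L × L),
    v ≠ 0 → Kc f g L
  rel : ∀ (L : Type) [Field L] [Algebra F L] [Algebra K L] [IsScalarTower F K L] (v : L × L)
    (hv : v ≠ 0) (a : L) (_ : a ≠ 0) (hv' : ((a * v.1, a * v.2) : L × L) ≠ 0),
    (Φ L v hv).Rel (Φ L (a * v.1, a * v.2) hv')
  red : ∀ (E : Type) [Field E] [Algebra F E] [Algebra K E] [IsScalarTower F K E]
    (w : Place K E Ω) (v : E × E) (hv : v ≠ 0) (u : Ω × Ω) (hu : u ≠ 0), Rd w v u →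
    Rd w (Φ E v hv).x (Φ Ω u hu).x ∧ Rd w (Φ E v hv).y (Φ Ω u hu).y ∧
      Rd w (Φ E v hv).t (Φ Ω u hu).t

private theorem bd_ne {L : Type} [Field L] [Algebra K L] {v : K × K} (h : v ≠ 0) :
    ((algebraMap K L v.1, algebraMap K L v.2) : L × L) ≠ 0 := by
  intro h0
  apply h
  exact Prod.ext ((map_eq_zero _).1 (congrArg Prod.fst h0)) ((map_eq_zero _).1 (congrArg Prod.snd h0))

private theorem bd_qf {L : Type} [Field L] [Algebra F L] [Algebra K L] [IsScalarTower F K L]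
    (p : F[X]) {v : K × K} (h : qf p v = 0) :
    qf p (algebraMap K L v.1, algebraMap K L v.2) = 0 := by
  have e := qf_map p (IsScalarTower.toAlgHom F K L) v
  rw [h, map_zero] at e
  exact e

private theorem bd_rd {E : Type} [Field E] [Algebra K E] (w : Place K E Ω) (v : K × K) :
    Rd w (algebraMap K E v.1, algebraMap K E v.2) (algebraMap K Ω v.1, algebraMap K Ω v.2) :=
  ⟨w.mem v.1, w.mem v.2, w.res_k v.1, w.res_k v.2⟩

variable [CharZero K] [IsAlgClosure K Ω]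

/-- The points with the parameters `(c : 1)` and `(1 : 0)`. -/
private theorem bd_one (Φ : BdFam f g K Ω) (c : K) (h1 : ((algebraMap K Ω c, 1) : Ω × Ω) ≠ 0)
    (h2 : ((1, 0) : Ω × Ω) ≠ 0) (X0 X1 : (Kv f g).pt Ω)
    (e0 : X0 = Quotient.mk (Kc.sd f g Ω) (Φ.Φ Ω (algebraMap K Ω c, 1) h1))
    (e1 : X1 = Quotient.mk (Kc.sd f g Ω) (Φ.Φ Ω (1, 0) h2)) :
    Finsupp.single X0 1 - Finsupp.single X1 1 ∈ (Kv f g).ratEq K Ω := by
  classical
  have hac : IsAlgClosed Ω := IsAlgClosure.isAlgClosed K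
  obtain ⟨E, i1, i2, θ, w₀, w₁, hE, hne, hw, ho0, ho1, hv0, hv1, hu⟩ :=
    exists_p1 (K := K) (Ω := Ω) c
  let i3 : Algebra F E := ((algebraMap K E).comp (algebraMap F K)).toAlgebra
  have i4 : IsScalarTower F K E := IsScalarTower.of_algebraMap_eq fun _ => rfl
  have hθ : θ ≠ 0 := by
    intro h
    rw [h] at hv0
    have h2 : algebraMap K Ω c = 0 := hv0.uniq Hv.zero
    have h3 : c = 0 := (map_eq_zero _).1 h2
    apply hne
    rw [h, h3, map_zero, sub_zero]
  have n1 : ((θ, 1) : E × E) ≠ 0 := fun h => one_ne_zero (congrArg Prod.snd h)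
  have n2 : ((θ⁻¹ * θ, θ⁻¹ * 1) : E × E) ≠ 0 := fun h =>
    inv_ne_zero hθ ((mul_one θ⁻¹).symm.trans (congrArg Prod.snd h))
  have hAB : (Quotient.mk (Kc.sd f g E) (Φ.Φ E (θ, 1) n1)) =
      Quotient.mk (Kc.sd f g E) (Φ.Φ E (θ⁻¹ * θ, θ⁻¹ * 1) n2) :=
    Quotient.sound (s := Kc.sd f g E) (Φ.rel E (θ, 1) n1 θ⁻¹ (inv_ne_zero hθ) n2)
  obtain ⟨m, hm0, hm1⟩ : ∃ m : Place K E Ω → ℤ, m w₀ = 1 ∧ m w₁ = -1 :=
    ⟨fun w => if w = w₀ then 1 else -1, if_pos rfl, if_neg hw.symm⟩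
  obtain ⟨y, hy0, hy1⟩ : ∃ y : Place K E Ω → (Kv f g).pt Ω, y w₀ = X0 ∧ y w₁ = X1 :=
    ⟨fun w => if w = w₀ then X0 else X1, if_pos rfl, if_neg hw.symm⟩
  refine pvK_ratEq ⟨E, i1, i2, i3, i4, hE, θ - algebraMap K E c,
    Quotient.mk (Kc.sd f g E) (Φ.Φ E (θ, 1) n1), hne, {w₀, w₁}, m, y, ?_, ?_, ?_⟩
  · intro w hw'
    rw [Finset.mem_insert, Finset.mem_singleton, not_or] at hw'
    exact hu w hw'.1 hw'.2
  · intro w hw'
    rw [Finset.mem_insert, Finset.mem_singleton] at hw'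
    rcases hw' with h | h
    · subst h
      obtain ⟨r1, r2, r3⟩ := Φ.red E w (θ, 1) n1 (algebraMap K Ω c, 1) h1
        ((rd_iff _ _ _).2 ⟨hv0, Hv.one⟩)
      exact ⟨by rw [hm0]; exact ho0, _, _, rfl, by rw [hy0]; exact e0, r1, r2, r3⟩
    · subst h
      obtain ⟨r1, r2, r3⟩ := Φ.red E w (θ⁻¹ * θ, θ⁻¹ * 1) n2 (1, 0) h2
        ((rd_iff _ _ _).2 ⟨by rw [inv_mul_cancel₀ hθ]; exact Hv.one, by rw [mul_one]; exact hv1⟩)
      exact ⟨by rw [hm1]; exact ho1, _, _, hAB, by rw [hy1]; exact e1, r1, r2, r3⟩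
  · rw [Finset.sum_pair hw, hm0, hm1, hy0, hy1, Finsupp.single_neg, sub_eq_add_neg]

/-- The points with the parameters `v` and `(1 : 0)`. -/
private theorem bd_pt (Φ : BdFam f g K Ω) {v : K × K} (hv : v ≠ 0)
    (h2 : ((1, 0) : Ω × Ω) ≠ 0) (X0 X1 : (Kv f g).pt Ω)
    (e0 : X0 = Quotient.mk (Kc.sd f g Ω) (Φ.Φ Ω (algebraMap K Ω v.1, algebraMap K Ω v.2)
      (bd_ne hv)))
    (e1 : X1 = Quotient.mk (Kc.sd f g Ω) (Φ.Φ Ω (1, 0) h2)) :
    Finsupp.single X0 1 - Finsupp.single X1 1 ∈ (Kv f g).ratEq K Ω := by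
  have key : ∀ (a : Ω) (u : Ω × Ω) (hu : u ≠ 0), a ≠ 0 →
      ((algebraMap K Ω v.1, algebraMap K Ω v.2) : Ω × Ω) = (a * u.1, a * u.2) →
      X0 = Quotient.mk (Kc.sd f g Ω) (Φ.Φ Ω u hu) := by
    intro a u hu ha h
    have h' := bd_ne (K := K) (L := Ω) hv
    rw [e0]
    have h3 : ∀ (z : Ω × Ω) (hz : z ≠ 0), z = (a * u.1, a * u.2) →
        (Quotient.mk (Kc.sd f g Ω) (Φ.Φ Ω z hz)) = Quotient.mk (Kc.sd f g Ω) (Φ.Φ Ω u hu) := by
      intro z hz e
      subst e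
      exact (Quotient.sound (s := Kc.sd f g Ω) (Φ.rel Ω u hu a ha hz)).symm
    exact h3 _ _ h
  by_cases h : v.2 = 0
  · have h1 : v.1 ≠ 0 := fun h1 => hv (Prod.ext h1 h)
    have h4 := key (algebraMap K Ω v.1) (1, 0) h2 ((_root_.map_ne_zero _).2 h1) (by
      rw [h, map_zero, mul_one, mul_zero])
    rw [h4, e1, sub_self]
    exact zero_mem _
  · have h1 : ((algebraMap K Ω (v.1 / v.2), 1) : Ω × Ω) ≠ 0 := fun h =>
      one_ne_zero (congrArg Prod.snd h)
    have h4 := key (algebraMap K Ω v.2) (algebraMap K Ω (v.1 / v.2), 1) h1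
      ((_root_.map_ne_zero _).2 h) (by
      dsimp only
      rw [← map_mul, mul_div_cancel₀ _ h, mul_one])
    exact bd_one Φ (v.1 / v.2) h1 h2 X0 X1 h4 e1

variable (K Ω) in
/-- The class of the point over `K`. -/
private noncomputable def bdS (Q : Kc f g K) : (Kv f g).pt Ω →₀ ℤ :=
  Finsupp.single ((Kv f g).map (IsScalarTower.toAlgHom F K Ω) (Quotient.mk (Kc.sd f g K) Q)) 1

variable (K Ω) in
private def BdR (Q Q' : Kc f g K) : Prop := bdS K Ω Q - bdS K Ω Q' ∈ (Kv f g).ratEq K Ω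

omit [CharZero K] [IsAlgClosure K Ω] in
private theorem BdR.trans {Q Q' Q'' : Kc f g K} (h : BdR K Ω Q Q') (h' : BdR K Ω Q' Q'') :
    BdR K Ω Q Q'' := by
  have h2 := add_mem h h'
  rwa [sub_add_sub_cancel] at h2

/-- The points of a rational curve. -/
private theorem bd_mv (Φ : BdFam f g K Ω) {v v' : K × K} (hv : v ≠ 0) (hv' : v' ≠ 0)
    {Q Q' : Kc f g K}
    (e : Q.mp (IsScalarTower.toAlgHom F K Ω) =
      Φ.Φ Ω (algebraMap K Ω v.1, algebraMap K Ω v.2) (bd_ne hv))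
    (e' : Q'.mp (IsScalarTower.toAlgHom F K Ω) =
      Φ.Φ Ω (algebraMap K Ω v'.1, algebraMap K Ω v'.2) (bd_ne hv')) : BdR K Ω Q Q' := by
  have h2 : ((1, 0) : Ω × Ω) ≠ 0 := fun h => one_ne_zero (congrArg Prod.fst h)
  have a := bd_pt Φ hv h2 _ _ (congrArg (Quotient.mk (Kc.sd f g Ω)) e) rfl
  have b := bd_pt Φ hv' h2 _ _ (congrArg (Quotient.mk (Kc.sd f g Ω)) e') rfl
  have c := sub_mem a b
  rw [sub_sub_sub_cancel_right] at c
  exact c

/-- The exceptional curves. -/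
private theorem bd_T {Q Q' : Kc f g K} (hx : Q'.x = Q.x) (hy : Q'.y = Q.y) (h1 : qf f Q.x = 0)
    (h2 : qf g Q.y = 0) : BdR K Ω Q Q' := by
  let Φ : BdFam f g K Ω :=
    { Φ := fun L _ _ _ _ v hv =>
        { x := (algebraMap K L Q.x.1, algebraMap K L Q.x.2)
          y := (algebraMap K L Q.y.1, algebraMap K L Q.y.2)
          t := v
          hx := bd_ne Q.hx
          hy := bd_ne Q.hy
          ht := hv
          eq := by rw [bd_qf f h1, bd_qf g h2, zero_mul, zero_mul] }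
      rel := fun L _ _ _ _ v hv a ha hv' => ⟨1, 1, a, one_ne_zero, one_ne_zero, ha,
        by dsimp only; rw [one_mul, one_mul], by dsimp only; rw [one_mul, one_mul],
        by dsimp only; rw [one_pow, mul_one]⟩
      red := fun E _ _ _ _ w v hv u hu h => ⟨bd_rd w Q.x, bd_rd w Q.y, h⟩ }
  obtain ⟨x, y, t, n1, n2, n3, q⟩ := Q
  obtain ⟨x', y', t', n1', n2', n3', q'⟩ := Q'
  obtain rfl : x' = x := hx
  obtain rfl : y' = y := hy
  exact bd_mv Φ (v := t) (v' := t') n3 n3' rfl rfl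

/-- The curves `f(x) = 0`, `(s : t) = (1 : 0)`. -/
private theorem bd_Y {Q Q' : Kc f g K} (hx : Q'.x = Q.x) (ht : Q'.t = Q.t) (h1 : qf f Q.x = 0)
    (h2 : Q.t.2 = 0) : BdR K Ω Q Q' := by
  let Φ : BdFam f g K Ω :=
    { Φ := fun L _ _ _ _ v hv =>
        { x := (algebraMap K L Q.x.1, algebraMap K L Q.x.2)
          y := v
          t := (algebraMap K L Q.t.1, algebraMap K L Q.t.2)
          hx := bd_ne Q.hx
          hy := hv
          ht := bd_ne Q.ht
          eq := by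
            rw [bd_qf f h1]
            dsimp only
            rw [h2, map_zero]
            ring }
      rel := fun L _ _ _ _ v hv a ha hv' => ⟨1, a, (a ^ 2)⁻¹, one_ne_zero, ha,
        inv_ne_zero (pow_ne_zero 2 ha), by dsimp only; rw [one_mul, one_mul], rfl,
        by
          dsimp only
          rw [h2, map_zero, mul_zero, inv_mul_cancel₀ (pow_ne_zero 2 ha), one_mul]⟩
      red := fun E _ _ _ _ w v hv u hu h => ⟨bd_rd w Q.x, h, bd_rd w Q.t⟩ }
  obtain ⟨x, y, t, n1, n2, n3, q⟩ := Q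
  obtain ⟨x', y', t', n1', n2', n3', q'⟩ := Q'
  obtain rfl : x' = x := hx
  obtain rfl : t' = t := ht
  exact bd_mv Φ (v := y) (v' := y') n2 n2' rfl rfl

/-- The curves `g(y) = 0`, `(s : t) = (0 : 1)`. -/
private theorem bd_X {Q Q' : Kc f g K} (hy : Q'.y = Q.y) (ht : Q'.t = Q.t) (h1 : qf g Q.y = 0)
    (h2 : Q.t.1 = 0) : BdR K Ω Q Q' := by
  let Φ : BdFam f g K Ω :=
    { Φ := fun L _ _ _ _ v hv =>
        { x := v
          y := (algebraMap K L Q.y.1, algebraMap K L Q.y.2)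
          t := (algebraMap K L Q.t.1, algebraMap K L Q.t.2)
          hx := hv
          hy := bd_ne Q.hy
          ht := bd_ne Q.ht
          eq := by
            rw [bd_qf g h1]
            dsimp only
            rw [h2, map_zero]
            ring }
      rel := fun L _ _ _ _ v hv a ha hv' => ⟨a, 1, (a ^ 2)⁻¹, ha, one_ne_zero,
        inv_ne_zero (pow_ne_zero 2 ha), rfl, by dsimp only; rw [one_mul, one_mul],
        by
          dsimp only
          rw [h2, map_zero, mul_zero, inv_mul_cancel₀ (pow_ne_zero 2 ha), one_mul]⟩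
      red := fun E _ _ _ _ w v hv u hu h => ⟨h, bd_rd w Q.y, bd_rd w Q.t⟩ }
  obtain ⟨x, y, t, n1, n2, n3, q⟩ := Q
  obtain ⟨x', y', t', n1', n2', n3', q'⟩ := Q'
  obtain rfl : y' = y := hy
  obtain rfl : t' = t := ht
  exact bd_mv Φ (v := x) (v' := x') n1 n1' rfl rfl

end fam

variable {F : Type} [Field F] {f g : F[X]} [C3 f] [C3 g] {K : Type} [Field K] [CharZero K]
  [Algebra F K] {Ω : Type} [Field Ω] [Algebra K Ω] [Algebra F Ω] [IsScalarTower F K Ω]
  [IsAlgClosure K Ω]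

/-- **The bad points over `K`.** Proof: `exc_ratEq` (`Pe/Kn.lean`): on an exceptional curve (both forms vanish) `(s : t)` can be changed arbitrarily. If `f_h(x) = 0`, `(s : t) = (1 : 0)` then `y` can be changed
arbitrarily: as in the proof of `exc_ratEq` with `exists_p1` and the point `(x, (θ, 1), (1, 0))` over `E`: `[(x, (c, 1), (1, 0))] - [(x, ∞, (1, 0))]` is in `ratEq`; then `(x, ∞, (1 : 0)) ~ (x, ∞, (0 : 1))` on the exceptional curve (`f_h(x) = 0 = g_h(∞)`), then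
`x` can be changed to `∞` on the curve `y = ∞`, `(s : t) = (0 : 1)`: `~ (∞, ∞, (0 : 1)) ~ (∞, ∞, (1 : 0)) = O`. The case `g_h(y) = 0` is symmetric. -/
theorem bad_ratEq {x : (Kv f g).pt K} (h : Bp f g x) :
    Finsupp.single ((Kv f g).map (IsScalarTower.toAlgHom F K Ω) x) 1 -
      Finsupp.single (oo f g Ω) 1 ∈ (Kv f g).ratEq K Ω := by
  obtain ⟨P, rfl, hP⟩ := h
  have ni : ((1, 0) : K × K) ≠ 0 := fun h => one_ne_zero (congrArg Prod.fst h)
  have nz : ((0, 1) : K × K) ≠ 0 := fun h => one_ne_zero (congrArg Prod.snd h)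
  have qif : qf f ((1, 0) : K × K) = 0 := qf_inf f 1
  have qig : qf g ((1, 0) : K × K) = 0 := qf_inf g 1
  -- the point `O`
  let R5 : Kc f g K := ⟨(1, 0), (1, 0), (1, 0), ni, ni, ni, by rw [qif, qig, zero_mul, zero_mul]⟩
  have hO : bdS K Ω R5 = Finsupp.single (oo f g Ω) 1 := by
    unfold bdS
    congr 1
    exact oo_map (IsScalarTower.toAlgHom F K Ω)
  rw [← hO]
  change BdR K Ω P R5
  by_cases hx : qf f P.x = 0
  · -- the point `(x, ∞, (1 : 0))`
    let R2 : Kc f g K := ⟨P.x, (1, 0), (1, 0), P.hx, ni, ni, by rw [hx, qig, zero_mul, zero_mul]⟩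
    let R3 : Kc f g K := ⟨P.x, (1, 0), (0, 1), P.hx, ni, nz, by rw [hx, qig, zero_mul, zero_mul]⟩
    let R4 : Kc f g K := ⟨(1, 0), (1, 0), (0, 1), ni, ni, nz, by
      rw [qif, qig, zero_mul, zero_mul]⟩
    have h1 : BdR K Ω P R2 := by
      by_cases ht : P.t.2 = 0
      · let R0 : Kc f g K := ⟨P.x, (1, 0), P.t, P.hx, ni, P.ht, by
          rw [hx, qig, zero_mul, zero_mul]⟩
        have h5 : BdR K Ω P R0 := bd_Y (Q := P) (Q' := R0) rfl rfl hx ht
        have h6 : BdR K Ω R0 R2 := bd_T (Q := R0) (Q' := R2) rfl rfl hx qig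
        exact h5.trans h6
      · have hy : qf g P.y = 0 := by
          have h3 := P.eq
          rw [hx, zero_mul] at h3
          exact (mul_eq_zero.1 h3.symm).resolve_right (pow_ne_zero 2 ht)
        let R1 : Kc f g K := ⟨P.x, P.y, (1, 0), P.hx, P.hy, ni, by
          rw [hx, hy, zero_mul, zero_mul]⟩
        have h5 : BdR K Ω P R1 := bd_T (Q := P) (Q' := R1) rfl rfl hx hy
        have h6 : BdR K Ω R1 R2 := bd_Y (Q := R1) (Q' := R2) rfl rfl hx rfl
        exact h5.trans h6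
    have h2 : BdR K Ω R2 R3 := bd_T (Q := R2) (Q' := R3) rfl rfl hx qig
    have h3 : BdR K Ω R3 R4 := bd_X (Q := R3) (Q' := R4) rfl rfl qig rfl
    have h4 : BdR K Ω R4 R5 := bd_T (Q := R4) (Q' := R5) rfl rfl qif qig
    exact ((h1.trans h2).trans h3).trans h4
  · have hy : qf g P.y = 0 := hP.resolve_left hx
    have ht : P.t.1 = 0 := by
      have h3 := P.eq
      rw [hy, zero_mul] at h3
      exact pow_eq_zero_iff two_ne_zero |>.1 ((mul_eq_zero.1 h3).resolve_left hx)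
    let S2 : Kc f g K := ⟨(1, 0), P.y, P.t, ni, P.hy, P.ht, by rw [qif, hy, zero_mul, zero_mul]⟩
    let S3 : Kc f g K := ⟨(1, 0), P.y, (1, 0), ni, P.hy, ni, by
      rw [qif, hy, zero_mul, zero_mul]⟩
    have h1 : BdR K Ω P S2 := bd_X (Q := P) (Q' := S2) rfl rfl hy ht
    have h2 : BdR K Ω S2 S3 := bd_T (Q := S2) (Q' := S3) rfl rfl qif hy
    have h3 : BdR K Ω S3 R5 := bd_Y (Q := S3) (Q' := R5) rfl rfl qif rfl
    exact (h1.trans h2).trans h3

/-- The bad points. Proof: `p` is a point over the fixed field `M` of its stabilizer (`exists_kdesc`, `kv_stab`, `bp_map`), `bad_ratEq` over `M`, `tr_R2`. -/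
theorem bad_tp {p : (Kv f g).pt Ω} (h : Bp f g p) : Tp f g K p := by
  obtain ⟨M, hM, hMe⟩ := exists_fix (kv_stab (K := K) p)
  have i1 : IsAlgClosure M Ω := ⟨IsAlgClosure.isAlgClosed K, inferInstance⟩
  have i2 : IsScalarTower F M Ω := IsScalarTower.of_algebraMap_eq fun _ => rfl
  obtain ⟨P, hP⟩ : ∃ P : (Kv f g).pt M, p = (Kv f g).map (IsScalarTower.toAlgHom F M Ω) P := by
    refine exists_kdesc fun σ => ?_
    have h3 : σ.restrictScalars K ∈ M.fixingSubgroup := sia_mem_fix M σ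
    rw [hMe] at h3
    exact h3
  have hb : Bp f g P := by
    rw [hP] at h
    exact (bp_map _).1 h
  have h1 : Finsupp.single p 1 ∈ R2 f g M Ω := by
    have h2 := bad_ratEq (Ω := Ω) hb
    rw [← hP] at h2
    have h3 := add_mem (r2_ratEq h2) r2_oo
    rwa [sub_add_cancel] at h3
  have h4 := tr_R2 (K := K) M h1
  rw [hMe] at h4
  exact h4

end PE
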