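import Pool.Agent.Lib.MP_f80667_ag.Kf.Rel

/-! Auxiliary lemmas for `line_y` and `half_tp` of `Kf/Cl.lean`. -/

open ZC BE Polynomial

namespace PE

theorem cl_hF {F : Type} [Field F] (f : F[X]) [C3 f] {K : Type} [Field K] [Algebra F K]
    (x : K) : hF f (C x) (1 : K[X]) = C (aeval x f) := by
  have hd : f.natDegree < 5 := by
    rw [(inferInstance : C3 f).deg]
    norm_num
  unfold hF
  rw [aeval_eq_sum_range' hd, map_sum]
  refine Finset.sum_congr rfl fun i _ => ?_
  rw [one_pow, mul_one, ← C_pow, ← C_mul, Algebra.smul_def]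

theorem cl_nsq {F : Type} [Field F] (f g : F[X]) [C3 f] [C3 g] {K : Type} [Field K]
    [CharZero K] [Algebra F K] {x : K} (hx : aeval x f ≠ 0) (r : K[X]) :
    r ^ 2 ≠ hh f g (C x) (1 : K[X]) := by
  refine nsq_odd ?_ r
  unfold hh
  rw [cl_hF, natDegree_C_mul hx, natDegree_map, (inferInstance : C3 g).deg]
  decide

open Classical in
theorem cl_mult {L : Type} [Field L] {c : L} (hc : c ≠ 0) (u v w z : L) :
    rootMultiplicity z (C c * ((X - C u) * (X - C v) * (X - C w))) =
      (if z = u then 1 else 0) + (if z = v then 1 else 0) + (if z = w then 1 else 0) := by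
  have hu : (X - C u : L[X]) ≠ 0 := X_sub_C_ne_zero u
  have hv : (X - C v : L[X]) ≠ 0 := X_sub_C_ne_zero v
  have hw : (X - C w : L[X]) ≠ 0 := X_sub_C_ne_zero w
  have h1 : (X - C u) * (X - C v) ≠ (0 : L[X]) := mul_ne_zero hu hv
  have h2 : (X - C u) * (X - C v) * (X - C w) ≠ (0 : L[X]) := mul_ne_zero h1 hw
  rw [rootMultiplicity_mul (mul_ne_zero (C_ne_zero.2 hc) h2), rootMultiplicity_C, zero_add,
    rootMultiplicity_mul h2, rootMultiplicity_mul h1, rootMultiplicity_X_sub_C,
    rootMultiplicity_X_sub_C, rootMultiplicity_X_sub_C]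

end PE
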