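import Pool.Agent.Lib.MP_f80667_ag.Kf.Pts
import Pool.Agent.Lib.MP_f80667_ag.Pe.Bq

/-! Lemmas for the relations: values of points of the surface at a place, orders. -/

open ZC BE Polynomial

namespace PE

section red

variable {F : Type} [Field F] {f g : F[X]} {K L Ω : Type} [Field K] [Field L] [Field Ω]
  [Algebra K L] [Algebra K Ω] [Algebra F L] [Algebra F Ω]

/-- The first coordinates of the value. -/
theorem rla_x {w : Place K L Ω} {P : Kc f g L} {q : (Kv f g).pt Ω}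
    (h : (Kv f g).red w (Quotient.mk _ P) q) {a : L} (ha : a ≠ 0) {u : Ω × Ω} (hu : u ≠ 0)
    (hr : Rd w (a * P.x.1, a * P.x.2) u) :
    ∃ (Q : Kc f g Ω) (r : Ω), q = Quotient.mk _ Q ∧ r ≠ 0 ∧ Q.x = (r * u.1, r * u.2) := by
  obtain ⟨P', Q, e, rfl, h1, h2, h3⟩ := h
  obtain ⟨a', b', c', ha', hb', hc', e1, e2, e3⟩ := Quotient.exact e
  rw [e1] at h1
  have h4 : Rd w (a' / a * (a * P.x.1), a' / a * (a * P.x.2)) Q.x := by
    have k1 : a' / a * (a * P.x.1) = a' * P.x.1 := by field_simp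
    have k2 : a' / a * (a * P.x.2) = a' * P.x.2 := by field_simp
    rw [k1, k2]
    exact h1
  obtain ⟨r, hr0, hra⟩ := rd_unit w (div_ne_zero ha' ha) hu Q.hx hr h4
  exact ⟨Q, r, rfl, hr0, h4.uniq (hr.mul hra)⟩

/-- The second coordinates of the value. -/
theorem rla_y {w : Place K L Ω} {P : Kc f g L} {q : (Kv f g).pt Ω}
    (h : (Kv f g).red w (Quotient.mk _ P) q) {a : L} (ha : a ≠ 0) {u : Ω × Ω} (hu : u ≠ 0)
    (hr : Rd w (a * P.y.1, a * P.y.2) u) :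
    ∃ (Q : Kc f g Ω) (r : Ω), q = Quotient.mk _ Q ∧ r ≠ 0 ∧ Q.y = (r * u.1, r * u.2) := by
  obtain ⟨P', Q, e, rfl, h1, h2, h3⟩ := h
  obtain ⟨a', b', c', ha', hb', hc', e1, e2, e3⟩ := Quotient.exact e
  rw [e2] at h2
  have h4 : Rd w (b' / a * (a * P.y.1), b' / a * (a * P.y.2)) Q.y := by
    have k1 : b' / a * (a * P.y.1) = b' * P.y.1 := by field_simp
    have k2 : b' / a * (a * P.y.2) = b' * P.y.2 := by field_simp
    rw [k1, k2]
    exact h2
  obtain ⟨r, hr0, hra⟩ := rd_unit w (div_ne_zero hb' ha) hu Q.hy hr h4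
  exact ⟨Q, r, rfl, hr0, h4.uniq (hr.mul hra)⟩

/-- A bad value. -/
theorem rla_bx [C3 f] [C3 g] {w : Place K L Ω} {P : Kc f g L} {q : (Kv f g).pt Ω}
    (h : (Kv f g).red w (Quotient.mk _ P) q) {a : L} (ha : a ≠ 0) {u : Ω × Ω} (hu : u ≠ 0)
    (hr : Rd w (a * P.x.1, a * P.x.2) u) (h0 : qf f u = 0) : Bp f g q := by
  obtain ⟨Q, r, rfl, hr, hx⟩ := rla_x h ha hu hr
  exact bp_mk.2 (Or.inl (by rw [hx, qf_mul, h0, mul_zero]))

/-- A bad value. -/
theorem rla_by [C3 f] [C3 g] {w : Place K L Ω} {P : Kc f g L} {q : (Kv f g).pt Ω}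
    (h : (Kv f g).red w (Quotient.mk _ P) q) {a : L} (ha : a ≠ 0) {u : Ω × Ω} (hu : u ≠ 0)
    (hr : Rd w (a * P.y.1, a * P.y.2) u) (h0 : qf g u = 0) : Bp f g q := by
  obtain ⟨Q, r, rfl, hr, hx⟩ := rla_y h ha hu hr
  exact bp_mk.2 (Or.inr (by rw [hx, qf_mul, h0, mul_zero]))

end red

section hv

variable {K E Ω : Type} [Field K] [Field E] [Algebra K E] [Field Ω] [Algebra K Ω]
  {w : Place K E Ω}

/-- A square root of a regular function is regular. -/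
theorem rla_sq {x : E} {r : Ω} (h : Hv w (x ^ 2) r) : ∃ t : Ω, Hv w x t ∧ t ^ 2 = r := by
  have h1 : x ∈ w.V := by
    by_contra hn
    have h2 := (Hv.of_not_mem hn).pow 2
    have hx : x ≠ 0 := by
      rintro rfl
      exact hn (zero_mem _)
    have h3 := h.mul h2
    rw [← mul_pow, mul_inv_cancel₀ hx, one_pow, zero_pow two_ne_zero, mul_zero] at h3
    exact one_ne_zero (Hv.one.uniq h3)
  exact ⟨_, Hv.of_mem h1, ((Hv.of_mem h1).pow 2).uniq h⟩

/-- The value of a polynomial. -/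
theorem rla_hv [CharZero K] [IsAlgClosed Ω] {s : E} {z : Ω} (h : Hv w s z) (P : K[X]) :
    Hv w (aeval s P) (aeval z P) := by
  obtain ⟨h1, rfl⟩ := h
  obtain ⟨h2, h3⟩ := qe_res w h1 P
  exact ⟨h2, h3⟩

/-- The order of a regular function. -/
theorem rla_nonneg {G : E} {m : ℤ} (h : w.IsOrd G m) (hg : G ∈ w.V) : 0 ≤ m := by
  obtain ⟨π, h1, h2, -, h4⟩ := Place.ord_aux h
  by_contra hk
  have h5 := (w.V.valuation_le_one_iff G).2 hg
  rw [h4] at h5
  exact absurd h5 (not_le.2 (one_lt_zpow_of_neg₀ (zero_lt_iff.2 h2) h1 (not_le.1 hk)))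

/-- A function with positive order has the value `0`. -/
theorem rla_zero {G : E} {m : ℤ} (h : w.IsOrd G m) (hm : 0 < m) {r : Ω} (hr : Hv w G r) :
    r = 0 := by
  obtain ⟨h1, rfl⟩ := hr
  exact (Fa.res_eq_zero_iff w ⟨G, h1⟩).2 (bqa_non h hm)

/-- The value at the composite with an automorphism. -/
theorem rla_cmp (σ : E ≃ₐ[K] E) {x : E} {r : Ω} (h : Hv w (σ x) r) : Hv (Qb.cmp σ w) x r := by
  obtain ⟨h1, rfl⟩ := h
  exact ⟨h1, rfl⟩

/-- A unit has order `0`. -/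
theorem rla_unit {G G' : E} {n : ℤ} (h : w.IsOrd G' n) (hG : G ≠ 0) (h1 : G ∈ w.V)
    (h2 : G⁻¹ ∈ w.V) : w.IsOrd G 0 := by
  obtain ⟨π, u, hπ, hx, -⟩ := h
  exact ⟨π, G, hπ, hx, h1, h2, hG, by rw [zpow_zero, mul_one]⟩

end hv

end PE
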