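import Pool.Agent.Lib.MP_f80667_ag.Kf.RelA

/-! The places of the double cover over a point of the line; the divisor of a function. -/

open ZC BE Polynomial

namespace PE

section pole

variable {k E Ω : Type} [Field k] [Field E] [Algebra k E] [Field Ω] [Algebra k Ω]

private theorem rp_con (v : Place k E Ω) (a : k) : v.V.valuation (algebraMap k E a) ≤ 1 :=
  (v.V.valuation_le_one_iff _).2 (v.mem a)

private theorem rp_con_eq (v : Place k E Ω) {a : k} (ha : a ≠ 0) :
    v.V.valuation (algebraMap k E a) = 1 := by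
  refine le_antisymm (rp_con v a) ?_
  have h1 := rp_con v a⁻¹
  rw [map_inv₀, map_inv₀] at h1
  have h2 : v.V.valuation (algebraMap k E a) ≠ 0 := by
    rw [Ne, map_eq_zero, map_eq_zero]
    exact ha
  exact (inv_le_one₀ (zero_lt_iff.2 h2)).1 h1

private theorem rp_le (v : Place k E Ω) {s : E} (hs : 1 < v.V.valuation s) (P : k[X]) (n : ℕ)
    (hn : P.natDegree ≤ n) : v.V.valuation (aeval s P * s⁻¹ ^ n) ≤ 1 := by
  have hs0 : s ≠ 0 := by
    rintro rfl
    rw [map_zero] at hs
    exact absurd hs (not_lt.2 zero_le_one)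
  have hi : v.V.valuation s⁻¹ ≤ 1 := by
    rw [map_inv₀]
    exact inv_le_one_of_one_le₀ hs.le
  rw [Polynomial.aeval_eq_sum_range' (Nat.lt_succ_of_le hn), Finset.sum_mul]
  refine Valuation.map_sum_le _ fun i hi' => ?_
  have hin : i ≤ n := Nat.lt_succ_iff.1 (Finset.mem_range.1 hi')
  have e : P.coeff i • s ^ i * s⁻¹ ^ n = algebraMap k E (P.coeff i) * s⁻¹ ^ (n - i) := by
    rw [Algebra.smul_def, mul_assoc]
    congr 1
    obtain ⟨j, rfl⟩ := Nat.exists_eq_add_of_le hin
    rw [Nat.add_sub_cancel_left, pow_add, ← mul_assoc, ← mul_pow, mul_inv_cancel₀ hs0, one_pow,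
      one_mul]
  rw [e, map_mul, map_pow]
  exact mul_le_one' (rp_con v _) (pow_le_one' hi _)

private theorem rp_lead (v : Place k E Ω) {s : E} (hs : 1 < v.V.valuation s) (A : k[X])
    (hA : 0 < A.natDegree) : v.V.valuation (aeval s A * s⁻¹ ^ A.natDegree) = 1 := by
  have hs0 : s ≠ 0 := by
    rintro rfl
    rw [map_zero] at hs
    exact absurd hs (not_lt.2 zero_le_one)
  have hA0 : A ≠ 0 := by
    rintro rfl
    rw [natDegree_zero] at hA
    exact absurd hA (lt_irrefl 0)
  have h1 : v.V.valuation (aeval s A.eraseLead * s⁻¹ ^ A.natDegree) < 1 := by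
    obtain ⟨j, hj⟩ : ∃ j, A.natDegree = j + 1 := ⟨A.natDegree - 1, by omega⟩
    have hi : v.V.valuation s⁻¹ < 1 := by
      rw [map_inv₀]
      exact inv_lt_one_of_one_lt₀ hs
    have hd : A.eraseLead.natDegree ≤ j := by
      have := eraseLead_natDegree_le A
      omega
    rw [hj, pow_succ, ← mul_assoc, map_mul]
    exact lt_of_le_of_lt (mul_le_of_le_one_left' (rp_le v hs _ j hd)) hi
  have h2 : v.V.valuation (algebraMap k E A.leadingCoeff) = 1 :=
    rp_con_eq v (leadingCoeff_ne_zero.2 hA0)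
  have e : aeval s A * s⁻¹ ^ A.natDegree =
      aeval s A.eraseLead * s⁻¹ ^ A.natDegree + algebraMap k E A.leadingCoeff := by
    have h3 := congrArg (aeval s) (eraseLead_add_C_mul_X_pow A)
    rw [map_add, map_mul, map_pow, aeval_C, aeval_X] at h3
    rw [← h3, add_mul, mul_assoc (algebraMap k E A.leadingCoeff), ← mul_pow, mul_inv_cancel₀ hs0,
      one_pow, mul_one]
  rw [e, Valuation.map_add_eq_of_lt_right _ (by rw [h2]; exact h1), h2]

/-- The order of a polynomial in `s` at a pole of `s`. -/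
theorem rp_pole {v : Place k E Ω} {s : E} (hs : s ∉ v.V) (A : k[X]) (hA : 0 < A.natDegree) {l : ℤ}
    (h : v.IsOrd s l) : v.IsOrd (aeval s A) (A.natDegree * l) := by
  have hs1 : 1 < v.V.valuation s := by
    rw [← not_le, v.V.valuation_le_one_iff]
    exact hs
  have hs0 : s ≠ 0 := by
    rintro rfl
    exact hs (zero_mem _)
  have hu := rp_lead v hs1 A hA
  have hne : aeval s A * s⁻¹ ^ A.natDegree ≠ 0 := by
    intro h8
    rw [h8, map_zero] at hu
    exact zero_ne_one hu
  have h1 : v.IsOrd (aeval s A * s⁻¹ ^ A.natDegree) 0 := by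
    refine rla_unit h hne ((v.V.valuation_le_one_iff _).1 hu.le)
      ((v.V.valuation_le_one_iff _).1 ?_)
    rw [map_inv₀, hu, inv_one]
  have h2 := Qb.ord_mul h1 (Qb.ord_zpow h (A.natDegree : ℤ))
  rw [zpow_natCast, mul_assoc, ← mul_pow, inv_mul_cancel₀ hs0, one_pow, mul_one, zero_add] at h2
  exact h2

/-- A function with a value `r ≠ 0` has order `0`. -/
theorem rp_unit {v : Place k E Ω} {G' G : E} {n : ℤ} (h : v.IsOrd G' n) {r : Ω} (hG : Hv v G r)
    (hr : r ≠ 0) : v.IsOrd G 0 :=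
  rla_unit h (hG.ne hr) hG.mem (hG.inv hr).mem

/-- A function with the value `0` is in the maximal ideal. -/
theorem rp_non {v : Place k E Ω} {G : E} (hG : Hv v G 0) : G ∈ v.V.nonunits := by
  obtain ⟨h1, h2⟩ := hG
  exact (Fa.res_eq_zero_iff v ⟨G, h1⟩).1 h2

end pole

variable {K E Ω : Type} [Field K] [CharZero K] [Field E] [Algebra K E] [Field Ω] [Algebra K Ω]
  [IsAlgClosed Ω]

/-- The divisor of a function. -/
theorem relp_div (hE : IsFunField K E) (G : E) (hG : G ≠ 0) :
    ∃ (S : Finset (Place K E Ω)) (m : Place K E Ω → ℤ), (∀ w ∈ S, w.IsOrd G (m w)) ∧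
      (∀ w ∈ S, m w ≠ 0) ∧ ∀ w, w ∉ S → G ∈ w.V ∧ G⁻¹ ∈ w.V := by
  classical
  by_cases ha : IsAlgebraic K G
  · exact ⟨∅, fun _ => 0, by simp, by simp, fun w _ => ⟨bqa_alg w ha, bqa_alg w ha.inv⟩⟩
  · have hti : Transcendental K G⁻¹ := fun h => ha (by simpa using h.inv)
    obtain ⟨T, m, hT, hm⟩ := Bx.exists_zeros (Ω := Ω) hE ha
    obtain ⟨S, l, hS, hl⟩ := Bx.exists_zeros (Ω := Ω) hE hti
    refine ⟨T ∪ S, fun w => if w ∈ T then m w else -l w, fun w hw => ?_, fun w hw => ?_,
      fun w hw => ?_⟩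
    · by_cases h : w ∈ T
      · simp only [if_pos h]
        exact hm w h
      · simp only [if_neg h]
        have h1 := (Finset.mem_union.1 hw).resolve_left h
        have h2 := Dz.ord_inv (hl w h1)
        rwa [inv_inv] at h2
    · by_cases h : w ∈ T
      · simp only [if_pos h]
        exact (qe_pos (hm w h) ((hT w).1 h)).ne'
      · simp only [if_neg h]
        have h1 := (Finset.mem_union.1 hw).resolve_left h
        exact neg_ne_zero.2 (qe_pos (hl w h1) ((hS w).1 h1)).ne'
    · have h1 : w ∉ T := fun h => hw (Finset.mem_union_left _ h)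
      have h2 : w ∉ S := fun h => hw (Finset.mem_union_right _ h)
      rw [hT, ValuationSubring.mem_nonunits_iff_or] at h1
      rw [hS, ValuationSubring.mem_nonunits_iff_or, inv_inv] at h2
      push Not at h1 h2
      exact ⟨h2.2, h1.2⟩

variable [Algebra.IsAlgebraic K Ω] {s ω : E} {h : K[X]} {σ : E ≃ₐ[K] E}

/-- **The places over `z`, `h(z) ≠ 0`.** -/
theorem relp_plc (H : Qd s ω (0 : K[X]) (-h) σ) {z r : Ω} (hz : aeval z h ≠ 0)
    (hr : r ^ 2 = aeval z h) :
    ∃ w : Place K E Ω, (Hv w s z ∧ Hv w ω r) ∧ (∀ w' : Place K E Ω, Hv w' s z → Hv w' ω r → w' = w) ∧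
      ∀ P : K[X], P ≠ 0 → w.IsOrd (aeval s P) (rootMultiplicity z (P.map (algebraMap K Ω))) := by
  classical
  have hω : ω ^ 2 = aeval s h := by
    have h1 := H.eq
    rw [map_zero, zero_mul, sub_zero, map_neg] at h1
    linear_combination h1
  have hσω : σ ω = -ω := by
    rw [H.sig_xi, map_zero, zero_sub]
  have hint : IsIntegral K z := Algebra.IsIntegral.isIntegral z
  obtain ⟨m, hm⟩ : ∃ m : K[X], m = minpoly K z := ⟨_, rfl⟩
  have hmi : Irreducible m := hm ▸ minpoly.irreducible hint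
  have hm0 : m ≠ 0 := hmi.ne_zero
  have hmd : 0 < m.natDegree := hmi.natDegree_pos
  have hmz : aeval z m = 0 := hm ▸ minpoly.aeval K z
  have hdvd : ∀ P : K[X], aeval z P = 0 → m ∣ P := fun P hP => hm ▸ minpoly.dvd K z hP
  have hinj : ∀ P : K[X], aeval s P = 0 → P = 0 := transcendental_iff.1 H.tr
  have hsep : m.Separable := hmi.separable
  -- the roots
  let Z : Finset Ω := (m.aroots Ω).toFinset
  have hZ : ∀ y : Ω, y ∈ Z ↔ aeval y m = 0 := by
    intro y
    rw [Multiset.mem_toFinset, mem_aroots]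
    exact ⟨fun h => h.2, fun h => ⟨hm0, h⟩⟩
  have hZc : Z.card = m.natDegree := by
    have h4 := card_rootSet_eq_natDegree (K := Ω) hsep (IsAlgClosed.splits _)
    rw [← h4]
    simp only [rootSet_def, Finset.coe_sort_coe, Fintype.card_coe, Z]
  have hhZ : ∀ y : Ω, aeval y m = 0 → aeval y h ≠ 0 := by
    intro y hy h1
    have h2 : m ∣ h := by
      have h3 : minpoly K y ∣ m := minpoly.dvd K y hy
      have h4 : Associated (minpoly K y) m :=
        (minpoly.irreducible (Algebra.IsIntegral.isIntegral y)).associated_of_dvd hmi h3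
      exact h4.symm.dvd.trans (minpoly.dvd K y h1)
    obtain ⟨q, rfl⟩ := h2
    rw [map_mul, hmz, zero_mul] at hz
    exact hz rfl
  -- the function `m(s)`
  obtain ⟨g, hg⟩ : ∃ g : E, g = aeval s m := ⟨_, rfl⟩
  have hg0 : g ≠ 0 := fun h0 => hm0 (hinj _ (hg ▸ h0))
  -- the places
  have hex : ∀ y : Ω, ∃ (v : Place K E Ω) (t : Ω), aeval y m = 0 →
      Hv v s y ∧ Hv v ω t ∧ t ^ 2 = aeval y h := by
    intro y
    by_cases hy : aeval y m = 0
    · obtain ⟨v, hv, -⟩ := bqa_plc (Ω := Ω) H.ff H.tr hm0 hy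
      have h1 : Hv v s y := hv
      have h2 := rla_hv h1 h
      rw [← hω] at h2
      obtain ⟨t, ht, ht2⟩ := rla_sq h2
      exact ⟨v, t, fun _ => ⟨h1, ht, ht2⟩⟩
    · obtain ⟨v, -⟩ := bqa_plc (Ω := Ω) H.ff H.tr hm0 hmz
      exact ⟨v, 0, fun h => absurd h hy⟩
  choose v t hvt using hex
  have ht0 : ∀ y : Ω, aeval y m = 0 → t y ≠ 0 := by
    intro y hy h0
    have h1 := (hvt y hy).2.2
    rw [h0, zero_pow two_ne_zero] at h1
    exact hhZ y hy h1.symm
  let p : Ω × Bool → Place K E Ω := fun q => if q.2 then v q.1 else Qb.cmp σ (v q.1)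
  let e : Ω × Bool → Ω := fun q => if q.2 then t q.1 else -t q.1
  have hp : ∀ q : Ω × Bool, aeval q.1 m = 0 → Hv (p q) s q.1 ∧ Hv (p q) ω (e q) := by
    rintro ⟨y, b⟩ hy
    obtain ⟨h1, h2, -⟩ := hvt y hy
    cases b
    · refine ⟨rla_cmp σ ?_, rla_cmp σ ?_⟩
      · rw [H.sig_s]
        exact h1
      · rw [hσω]
        exact h2.neg
    · exact ⟨h1, h2⟩
  have hpe : ∀ q q' : Ω × Bool, aeval q.1 m = 0 → aeval q'.1 m = 0 → q.1 = q'.1 → e q = e q' →
      q = q' := by
    rintro ⟨y, b⟩ ⟨y', b'⟩ hy hy' h1 h2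
    obtain rfl : y = y' := h1
    have h3 := ht0 y hy
    have hc : CharZero Ω := charZero_of_injective_algebraMap (algebraMap K Ω).injective
    have h4 : t y ≠ -t y := by
      intro h5
      have h6 : (2 : Ω) * t y = 0 := by linear_combination h5
      rcases mul_eq_zero.1 h6 with h7 | h7
      · exact two_ne_zero h7
      · exact h3 h7
    cases b <;> cases b'
    · rfl
    · exact absurd h2.symm h4
    · exact absurd h2 h4
    · rfl
  have hinjp : ∀ q q' : Ω × Bool, aeval q.1 m = 0 → aeval q'.1 m = 0 → p q = p q' → q = q' := by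
    intro q q' hq hq' hpq
    obtain ⟨h1, h2⟩ := hp q hq
    obtain ⟨h3, h4⟩ := hp q' hq'
    rw [← hpq] at h3 h4
    exact hpe q q' hq hq' (h1.uniq h3) (h2.uniq h4)
  have hgv : ∀ (w : Place K E Ω) (y : Ω), Hv w s y → aeval y m = 0 → g ∈ w.V.nonunits := by
    intro w y h1 h2
    have h3 := rla_hv h1 m
    rw [h2, ← hg] at h3
    exact rp_non h3
  have hgt : Transcendental K g := by
    obtain ⟨h1, -⟩ := hp (z, true) hmz
    exact bqa_tr hg0 (hgv _ _ h1 hmz)
  -- the zeros of `g`
  obtain ⟨T, n, hT, hn⟩ := Bx.exists_zeros (Ω := Ω) H.ff hgt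
  have hnp : ∀ w ∈ T, 0 < n w := fun w hw => qe_pos (hn w hw) ((hT w).1 hw)
  -- the poles
  obtain ⟨S, l, hS, hl, hsum, -⟩ := H.inf (Ω := Ω)
  have hsV : ∀ w : Place K E Ω, s ∈ w.V → g ∈ w.V := by
    intro w hw
    have h1 := (rla_hv (Hv.of_mem hw) m).mem
    rwa [← hg] at h1
  have hST : ∀ w, w ∈ S → w ∉ T := by
    intro w hw hw'
    have h1 := (hT w).1 hw'
    have h2 : w.IsOrd g (m.natDegree * -l w) := by
      rw [hg]
      exact rp_pole ((hS w).1 hw) m hmd (hl w hw).1
    have h3 := qe_pos h2 h1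
    have h4 := (hl w hw).2
    have h5 : (0 : ℤ) < (m.natDegree : ℤ) := by exact_mod_cast hmd
    nlinarith
  have hdeg : ∑ w ∈ T, n w = 2 * m.natDegree := by
    have h1 := Dz.sum_ord (Ω := Ω) H.ff hg0 (T ∪ S)
      (fun w => if w ∈ T then n w else (m.natDegree : ℤ) * -l w) (fun w hw => by
        have k1 : w ∉ T := fun h => hw (Finset.mem_union_left _ h)
        have k2 : w ∉ S := fun h => hw (Finset.mem_union_right _ h)
        rw [hS, not_not] at k2
        rw [hT, ValuationSubring.mem_nonunits_iff_or] at k1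
        push Not at k1
        exact ⟨hsV w k2, k1.2⟩) (fun w hw => by
        by_cases k1 : w ∈ T
        · simp only [if_pos k1]
          exact hn w k1
        · simp only [if_neg k1]
          have k2 := (Finset.mem_union.1 hw).resolve_left k1
          rw [hg]
          exact rp_pole ((hS w).1 k2) m hmd (hl w k2).1)
    have hdis : Disjoint T S := Finset.disjoint_right.2 hST
    rw [Finset.sum_union hdis] at h1
    have h2 : ∑ w ∈ T, (if w ∈ T then n w else (m.natDegree : ℤ) * -l w) = ∑ w ∈ T, n w :=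
      Finset.sum_congr rfl fun w hw => if_pos hw
    have h3 : ∑ w ∈ S, (if w ∈ T then n w else (m.natDegree : ℤ) * -l w) =
        (m.natDegree : ℤ) * -∑ w ∈ S, l w := by
      rw [← Finset.sum_neg_distrib, Finset.mul_sum]
      exact Finset.sum_congr rfl fun w hw => if_neg (hST w hw)
    rw [h2, h3, hsum] at h1
    linarith
  -- counting
  let I : Finset (Place K E Ω) := (Z ×ˢ Finset.univ).image p
  have hIc : I.card = 2 * m.natDegree := by
    rw [Finset.card_image_of_injOn, Finset.card_product, hZc, Finset.card_univ, Fintype.card_bool,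
      mul_comm]
    intro q hq q' hq' hpq
    have k1 := (hZ _).1 (Finset.mem_product.1 (Finset.mem_coe.1 hq)).1
    have k2 := (hZ _).1 (Finset.mem_product.1 (Finset.mem_coe.1 hq')).1
    exact hinjp q q' k1 k2 hpq
  have hIT : I ⊆ T := by
    intro w hw
    obtain ⟨q, hq, rfl⟩ := Finset.mem_image.1 hw
    have k1 := (hZ _).1 (Finset.mem_product.1 hq).1
    exact (hT _).2 (hgv _ _ (hp q k1).1 k1)
  have hle : (T.card : ℤ) ≤ ∑ w ∈ T, n w := by
    rw [Finset.card_eq_sum_ones, Nat.cast_sum]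
    refine Finset.sum_le_sum fun w hw => ?_
    have := hnp w hw
    push_cast
    omega
  have hTc : T.card ≤ I.card := by
    rw [hdeg] at hle
    rw [hIc]
    exact_mod_cast hle
  have hTe : I = T := Finset.eq_of_subset_of_card_le hIT hTc
  have hone : ∀ w ∈ T, n w - 1 = 0 := by
    refine (Finset.sum_eq_zero_iff_of_nonneg fun w hw => ?_).1 ?_
    · have := hnp w hw
      omega
    · rw [Finset.sum_sub_distrib, hdeg, Finset.sum_const, nsmul_eq_mul, mul_one, ← hTe, hIc]
      push_cast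
      ring
  -- the place
  obtain ⟨q, hq1, hq2⟩ : ∃ q : Ω × Bool, q.1 = z ∧ e q = r := by
    have h1 := (hvt z hmz).2.2
    have h2 : (r - t z) * (r + t z) = 0 := by linear_combination hr - h1
    rcases mul_eq_zero.1 h2 with h3 | h3
    · exact ⟨(z, true), rfl, (sub_eq_zero.1 h3).symm⟩
    · exact ⟨(z, false), rfl, (eq_neg_of_add_eq_zero_left h3).symm⟩
  have hqm : aeval q.1 m = 0 := by rw [hq1]; exact hmz
  obtain ⟨hps, hpω⟩ := hp q hqm
  rw [hq1] at hps
  rw [hq2] at hpω
  refine ⟨p q, ⟨hps, hpω⟩, fun w' h1 h2 => ?_, fun P hP => ?_⟩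
  · have h3 : w' ∈ I := by
      rw [hTe]
      exact (hT _).2 (hgv _ _ h1 hmz)
    obtain ⟨q', hq', rfl⟩ := Finset.mem_image.1 h3
    have k1 := (hZ _).1 (Finset.mem_product.1 hq').1
    obtain ⟨k2, k3⟩ := hp q' k1
    congr 1
    exact hpe q' q k1 hqm ((k2.uniq h1).trans hq1.symm) ((k3.uniq h2).trans hq2.symm)
  · have hpT : p q ∈ T := (hT _).2 (hgv _ _ hps hmz)
    have hord : (p q).IsOrd g 1 := by
      have h5 := hone _ hpT
      have h6 := hn _ hpT
      rwa [show n (p q) = 1 by omega] at h6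
    obtain ⟨k, P', hP', rfl⟩ : ∃ (k : ℕ) (P' : K[X]), ¬ m ∣ P' ∧ P = m ^ k * P' := by
      obtain ⟨k, P', h1, h2⟩ := WfDvdMonoid.max_power_factor hP hmi
      exact ⟨k, P', h1, h2⟩
    have hP'0 : P' ≠ 0 := right_ne_zero_of_mul hP
    have hPz : aeval z P' ≠ 0 := fun h0 => hP' (hdvd _ h0)
    have hmult : rootMultiplicity z ((m ^ k * P').map (algebraMap K Ω)) = k := by
      have hM0 : m.map (algebraMap K Ω) ≠ 0 := map_ne_zero hm0
      have hPm0 : P'.map (algebraMap K Ω) ≠ 0 := map_ne_zero hP'0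
      rw [Polynomial.map_mul, Polynomial.map_pow,
        rootMultiplicity_mul (mul_ne_zero (pow_ne_zero _ hM0) hPm0)]
      have h1 : rootMultiplicity z (P'.map (algebraMap K Ω)) = 0 := by
        refine rootMultiplicity_eq_zero ?_
        rw [IsRoot.def, eval_map_algebraMap]
        exact hPz
      have h2 : rootMultiplicity z (m.map (algebraMap K Ω)) = 1 := by
        have h3 : (m.map (algebraMap K Ω)).Separable := hsep.map
        have h4 := rootMultiplicity_le_one_of_separable h3 z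
        have h5 : 0 < rootMultiplicity z (m.map (algebraMap K Ω)) := by
          rw [rootMultiplicity_pos hM0, IsRoot.def, eval_map_algebraMap]
          exact hmz
        omega
      rw [h1, add_zero]
      have h6 : ∀ j : ℕ, rootMultiplicity z (m.map (algebraMap K Ω) ^ j) = j := by
        intro j
        induction j with
        | zero => rw [pow_zero, rootMultiplicity_eq_zero]; simp
        | succ j ih =>
          rw [pow_succ, rootMultiplicity_mul (mul_ne_zero (pow_ne_zero _ hM0) hM0), ih, h2]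
      exact h6 k
    rw [hmult, map_mul, map_pow, ← hg]
    have h1 : (p q).IsOrd (aeval s P') 0 := rp_unit hord (rla_hv hps P') hPz
    have h2 := Qb.ord_mul (Qb.ord_zpow hord (k : ℤ)) h1
    rw [zpow_natCast, mul_one, add_zero] at h2
    exact h2

end PE
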