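import Pool.Agent.Lib.MP_f80667_ag.Kf.Pts
import Pool.Agent.Lib.MP_f80667_ag.Pe.Bq
import Pool.Agent.Lib.MP_f80667_ag.Kf.RelA
import Pool.Agent.Lib.MP_f80667_ag.Kf.RelP

/-!
The relations: let `R`, `α` be coprime polynomials in `y` over `K`, `D` the curve `x = R(y) / α(y)` on the surface, that is the double cover `ω² = h(y)`, `h = f_h(R, α) g`, of the line, and let `G = A₁ + A₂ ω`,
`n = A₁² - A₂² h` its norm. The divisor of `G` has the sum `mult_z(n)` at the two points over `z` if `h(z) ≠ 0`.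
-/

open ZC BE Polynomial

namespace PE

/-- The homogeneous form of `f` at `(R, α)`. -/
noncomputable def hF {F : Type} [Field F] (f : F[X]) {K : Type} [Field K] [Algebra F K]
    (R α : K[X]) : K[X] :=
  ∑ i ∈ Finset.range 5, C (algebraMap F K (f.coeff i)) * R ^ i * α ^ (4 - i)

/-- `h = f_h(R, α) g`. -/
noncomputable def hh {F : Type} [Field F] (f g : F[X]) {K : Type} [Field K] [Algebra F K]
    (R α : K[X]) : K[X] := hF f R α * g.map (algebraMap F K)

/-- The norm of `A₁ + A₂ ω`. -/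
noncomputable def nR {F : Type} [Field F] (f g : F[X]) {K : Type} [Field K] [Algebra F K]
    (R α A₁ A₂ : K[X]) : K[X] := A₁ ^ 2 - A₂ ^ 2 * hh f g R α

section val

variable {F : Type} [Field F] (f g : F[X]) {K : Type} [Field K] [Algebra F K] {L : Type} [Field L]
  [Algebra K L] [Algebra F L] [IsScalarTower F K L]

theorem hF_aeval (R α : K[X]) (y : L) : aeval y (hF f R α) = qf f (aeval y R, aeval y α) := by
  unfold hF qf
  rw [map_sum]
  refine Finset.sum_congr rfl fun i _ => ?_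
  rw [map_mul, map_mul, map_pow, map_pow, aeval_C, ← IsScalarTower.algebraMap_apply F K L]

/-- The value of `h`. -/
theorem hh_aeval [C3 f] {R α : K[X]} {x y : L} (hx : aeval y α * x = aeval y R) :
    aeval y (hh f g R α) = aeval y α ^ 4 * (aeval x f * aeval y g) := by
  have h1 : (aeval y R, aeval y α) = (aeval y α * x, aeval y α * (1 : L)) := by
    rw [hx, mul_one]
  have h2 : qf f (aeval y α * x, aeval y α * (1 : L)) = aeval y α ^ 4 * qf f (x, (1 : L)) :=
    qf_mul f (aeval y α) (x, 1)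
  unfold hh
  rw [map_mul, hF_aeval, aeval_map_algebraMap, h1, h2, qf_one, mul_assoc]

end val

section places

variable {K E Ω : Type} [Field K] [CharZero K] [Field E] [Algebra K E] [Field Ω] [Algebra K Ω]
  [IsAlgClosed Ω] [Algebra.IsAlgebraic K Ω] {s ω : E} {h : K[X]} {σ : E ≃ₐ[K] E}

/-- **The places over `z`, `h(z) ≠ 0`.** Let `r² = h(z)`. There is exactly one place with `s ↦ z`, `ω ↦ r`; at this place a polynomial `P(s)` has the order `mult_z(P)`. Proof: existence: `exists_plc` for the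
ring `K[s, ω]` (free over `K[s]` with the basis `1`, `ω`) and the homomorphism `s ↦ z`, `ω ↦ r`. Let `m` be the minimal polynomial of `z`, of degree `d`. The sum of the orders of the zeros of `m(s)` is `[E : K(m(s))] = 2 d` (`Dz.sum_zeros`, compare `bq_zeros` in `Pe/Bq.lean`). For each of
the `d` conjugates `z'` of `z` there are places with the values `(z', r')` and `(z', - r')`, `r'² = h(z')` (existence), so there is exactly one for each of the `2 d` pairs, and `m(s)` has the order `1` there. A polynomial `P = m ^ k P'`, `P'(z) ≠ 0`, has the order `k = mult_z(P)` (`m` has simple roots). -/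
theorem rel_plc (H : Qd s ω (0 : K[X]) (-h) σ) {z r : Ω} (hz : aeval z h ≠ 0)
    (hr : r ^ 2 = aeval z h) :
    ∃ w : Place K E Ω, (Hv w s z ∧ Hv w ω r) ∧ (∀ w' : Place K E Ω, Hv w' s z → Hv w' ω r → w' = w) ∧
      ∀ P : K[X], P ≠ 0 → w.IsOrd (aeval s P) (rootMultiplicity z (P.map (algebraMap K Ω))) :=
  relp_plc H hz hr

/-- The divisor of `G = A₁(s) + A₂(s) ω`: a finite set of places which contains all zeros and poles, and the orders. Proof: `exists_zeros` of `Bx/Zeros.lean` for `G` and `G⁻¹`. -/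
theorem rel_div (H : Qd s ω (0 : K[X]) (-h) σ) (G : E) (hG : G ≠ 0) :
    ∃ (S : Finset (Place K E Ω)) (m : Place K E Ω → ℤ), (∀ w ∈ S, w.IsOrd G (m w)) ∧
      (∀ w ∈ S, m w ≠ 0) ∧ ∀ w, w ∉ S → G ∈ w.V ∧ G⁻¹ ∈ w.V :=
  relp_div H.ff G hG

end places

section val2

variable {F : Type} [Field F] {f g : F[X]} [C3 f] [C3 g] {K : Type} [Field K] [CharZero K]
  [Algebra F K] {Ω : Type} [Field Ω] [Algebra K Ω] [Algebra F Ω] [IsScalarTower F K Ω]
  [IsAlgClosed Ω] {E : Type} [Field E] [Algebra K E] [Algebra F E] [IsScalarTower F K E]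
  {s ω : E} {σ : E ≃ₐ[K] E} {R α : K[X]}

omit [C3 f] [C3 g] [CharZero K] in
private theorem rel_cop (hc : IsCoprime R α) {L : Type} [Field L] [Algebra K L] (z : L)
    (h1 : aeval z R = 0) (h2 : aeval z α = 0) : False := by
  obtain ⟨a, b, h⟩ := hc
  have h3 := congrArg (aeval z) h
  rw [map_add, map_mul, map_mul, h1, h2, mul_zero, mul_zero, add_zero, map_one] at h3
  exact zero_ne_one h3

omit [C3 f] [C3 g] [CharZero K] in
private theorem rel_mul {L : Type} [Field L] [Algebra K L] [Algebra F L] [IsScalarTower F K L]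
    (z : L) : aeval z (hh f g R α) = aeval z (hF f R α) * aeval z g := by
  rw [hh, map_mul, aeval_map_algebraMap]

omit [C3 f] in
/-- The generic point of the curve. -/
private theorem rel_pt (H : ω ^ 2 = aeval s (hh f g R α)) (hω : ω ≠ 0) (hc : IsCoprime R α) :
    ∃ P : Kc f g E, P.x = (aeval s R, aeval s α) ∧ P.y = (s, 1) ∧
      P.t = (ω, aeval s (hF f R α)) := by
  refine ⟨⟨(aeval s R, aeval s α), (s, 1), (ω, aeval s (hF f R α)), fun h => ?_,
    fun h => one_ne_zero (congrArg Prod.snd h), fun h => hω (congrArg Prod.fst h), ?_⟩,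
    rfl, rfl, rfl⟩
  · exact rel_cop hc s (congrArg Prod.fst h) (congrArg Prod.snd h)
  · dsimp only
    rw [← hF_aeval, qf_one, H, rel_mul]
    ring

omit [IsScalarTower F K E] in
/-- The values of the generic point of the curve. -/
private theorem rel_val (H : ω ^ 2 = aeval s (hh f g R α)) (hc : IsCoprime R α) {P : Kc f g E}
    (hx : P.x = (aeval s R, aeval s α)) (hy : P.y = (s, 1)) (ht : P.t = (ω, aeval s (hF f R α)))
    (w : Place K E Ω) {q : (Kv f g).pt Ω} (hq : (Kv f g).red w (Quotient.mk _ P) q) :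
    (∃ x z v : Ω, Sp f g x z v ∧ q = kp f g x z v ∧ Hv w s z ∧ aeval z α ≠ 0 ∧
      aeval z α * x = aeval z R ∧ Hv w ω (aeval z α ^ 2 * v)) ∨
    (Bp f g q ∧ ∀ z, Hv w s z → aeval z (hh f g R α) = 0) := by
  by_cases hsV : s ∈ w.V
  · obtain ⟨z, hz⟩ : ∃ z, Hv w s z := ⟨_, Hv.of_mem hsV⟩
    have hR := rla_hv hz R
    have hα := rla_hv hz α
    have hne : ((aeval z R, aeval z α) : Ω × Ω) ≠ 0 := fun h =>
      rel_cop hc z (congrArg Prod.fst h) (congrArg Prod.snd h)
    by_cases h0 : aeval z (hh f g R α) = 0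
    · right
      refine ⟨?_, fun z' hz' => ?_⟩
      · rw [rel_mul] at h0
        rcases mul_eq_zero.1 h0 with h1 | h1
        · refine rla_bx hq one_ne_zero hne ?_ ?_
          · rw [hx, one_mul, one_mul]
            exact (rd_iff _ _ _).2 ⟨hR, hα⟩
          · rw [← hF_aeval, h1]
        · refine rla_by hq one_ne_zero (u := (z, 1)) (fun h => one_ne_zero (congrArg Prod.snd h))
            ?_ ?_
          · rw [hy, one_mul, one_mul]
            exact (rd_iff _ _ _).2 ⟨hz, Hv.one⟩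
          · rw [qf_one, h1]
      · rw [hz'.uniq hz, h0]
    · left
      have h1 := rla_hv hz (hh f g R α)
      rw [← H] at h1
      obtain ⟨r, hr, hr2⟩ := rla_sq h1
      have hr0 : r ≠ 0 := by
        rintro rfl
        rw [zero_pow two_ne_zero] at hr2
        exact h0 hr2.symm
      have h2 := h0
      rw [rel_mul] at h2
      have hF0 : aeval z (hF f R α) ≠ 0 := left_ne_zero_of_mul h2
      have hα0 : aeval z α ≠ 0 := by
        intro h3
        rw [hF_aeval, h3, qf_inf] at hF0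
        exact hF0 rfl
      have hxx : aeval z α * (aeval z R / aeval z α) = aeval z R := mul_div_cancel₀ _ hα0
      have hhv := hh_aeval f g hxx
      have hfx : aeval z (hF f R α) =
          aeval z α ^ 4 * aeval (aeval z R / aeval z α) f := by
        have e : ((aeval z R, aeval z α) : Ω × Ω) =
            (aeval z α * (aeval z R / aeval z α, (1 : Ω)).1,
              aeval z α * (aeval z R / aeval z α, (1 : Ω)).2) := by
          dsimp only
          rw [hxx, mul_one]
        rw [hF_aeval, e, qf_mul, qf_one]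
      have hSp : Sp f g (aeval z R / aeval z α) z (r / aeval z α ^ 2) := by
        refine ⟨?_, div_ne_zero hr0 (pow_ne_zero 2 hα0)⟩
        rw [div_pow, hr2, hhv]
        field_simp
      let Q : Kc f g Ω := ⟨(aeval z R, aeval z α), (z, 1), (r, aeval z (hF f R α)), hne,
        fun h => one_ne_zero (congrArg Prod.snd h), fun h => hr0 (congrArg Prod.fst h), by
          dsimp only
          rw [← hF_aeval, qf_one, hr2, rel_mul]
          ring⟩
      have hqQ : q = Quotient.mk _ Q := by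
        refine kred_uniq w hq ⟨P, Q, rfl, rfl, ?_, ?_, ?_⟩
        · rw [hx]
          exact (rd_iff _ _ _).2 ⟨hR, hα⟩
        · rw [hy]
          exact (rd_iff _ _ _).2 ⟨hz, Hv.one⟩
        · rw [ht]
          exact (rd_iff _ _ _).2 ⟨hr, rla_hv hz _⟩
      refine ⟨_, z, _, hSp, ?_, hz, hα0, hxx, ?_⟩
      · rw [hqQ]
        refine kp_eq (c := 1) hSp hα0 one_ne_zero Q ?_ ?_ ?_
        · change (aeval z R, aeval z α) = _
          rw [hxx]
        · change (z, (1 : Ω)) = _
          rw [one_mul]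
        · change r * _ = aeval z (hF f R α) * _
          rw [hfx]
          field_simp
      · rw [mul_div_cancel₀ _ (pow_ne_zero 2 hα0)]
        exact hr
  · right
    refine ⟨?_, fun z hz => absurd hz.1 hsV⟩
    have hs0 : s ≠ 0 := by
      rintro rfl
      exact hsV (zero_mem _)
    refine rla_by hq (inv_ne_zero hs0) (u := (1, 0))
      (fun h => one_ne_zero (congrArg Prod.fst h)) ?_ (qf_inf g 1)
    rw [hy, inv_mul_cancel₀ hs0, mul_one]
    exact (rd_iff _ _ _).2 ⟨Hv.one, Hv.of_not_mem hsV⟩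

end val2

variable {F : Type} [Field F] {f g : F[X]} [C3 f] [C3 g] {K : Type} [Field K] [CharZero K]
  [Algebra F K] {Ω : Type} [Field Ω] [Algebra K Ω] [Algebra F Ω] [IsScalarTower F K Ω]
  [IsAlgClosure K Ω]

/-- **The relation.** Proof: `exists_qd` for `T = 0`, `N = - h`: `E = K(s)(ω)`, `ω² = h(s)`, `σ ω = - ω`. The `E`-point `ξ` with coordinates `x = (R(s), α(s))`, `y = (s, 1)`, `(s : t) = (ω, f_h(R, α)(s))`
(`f_h ω² = f_h² g`). `G = A₁(s) + A₂(s) ω`, `G σ(G) = n(s) ≠ 0`. `C` is the cycle of `G` and `ξ` (`rel_div`, `kred_ex`, `pvK_ratEq`). Values of `ξ` at a place `w`: if `s` has the value `z` and `h(z) ≠ 0`: `ω` has a value `r`, `r² = h(z)`, `ξ` has the value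
`kp x z v` with `x = R(z) / α(z)`, `r = α(z)² v`, in particular `Sp f g x z v` (`hh_aeval`, `kp_eq`). If `h(z) = 0` (then `α(z)`, `R(z)` are not both `0`) or if `s` has a pole the value is a bad point (`Bp`, `rd_qf`: the product of the two forms has the value `0`; the forms are homogeneous and the pairs
`(R(s), α(s))` resp. `(s, 1)` or `(1, 1/s)` are primitive). So (1); for a point `kp x y v` with `α(y) x = R(y)`, `Sp`, only the place `w` of `rel_plc` for `z = y`, `r = α(y)² v` has this value: `C (kp x y v)` is the order of `G` at `w`, it is `≥ 0` because `G` is regular at `w`; if it is not `0` then `G`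
has the value `0` (2). `C (kp x y (-v))` is the order of `G` at `cmp σ w`, that is the order of `σ(G)` at `w`; the sum is the order of `n(s)` (3). If `A₂ = 0` then `σ(G) = G` (4). -/
theorem rel (R α A₁ A₂ : K[X]) (hc : IsCoprime R α) (hs : ∀ r : K[X], r ^ 2 ≠ hh f g R α)
    (hn : nR f g R α A₁ A₂ ≠ 0) :
    ∃ C ∈ (Kv f g).ratEq K Ω,
      (∀ x y v : Ω, Sp f g x y v → C (kp f g x y v) ≠ 0 →
        aeval y α ≠ 0 ∧ aeval y α * x = aeval y R ∧ aeval y A₁ + aeval y A₂ * (aeval y α ^ 2 * v) = 0) ∧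
      (∀ x y v : Ω, Sp f g x y v → 0 ≤ C (kp f g x y v)) ∧
      (∀ x y v : Ω, Sp f g x y v → aeval y α * x = aeval y R →
        C (kp f g x y v) + C (kp f g x y (-v)) =
          rootMultiplicity y ((nR f g R α A₁ A₂).map (algebraMap K Ω))) ∧
      (A₂ = 0 → ∀ x y v : Ω, Sp f g x y v → C (kp f g x y v) = C (kp f g x y (-v))) := by
  classical
  have hac : IsAlgClosed Ω := IsAlgClosure.isAlgClosed K
  have halg : Algebra.IsAlgebraic K Ω := IsAlgClosure.isAlgebraic
  obtain ⟨E, i1, i2, s, ω, σ, H⟩ := exists_qd (0 : K[X]) (-hh f g R α) (by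
    intro r hr
    apply hs (Polynomial.C (1 / 2 : K) * r)
    have h4 : (Polynomial.C (1 / 2 : K)) ^ 2 * 4 = 1 := by
      have e : (4 : K[X]) = Polynomial.C (4 : K) := (map_ofNat _ 4).symm
      rw [e, ← map_pow, ← map_mul, ← map_one Polynomial.C]
      congr 1
      norm_num
    rw [mul_pow, hr]
    linear_combination hh f g R α * h4)
  let i3 : Algebra F E := ((algebraMap K E).comp (algebraMap F K)).toAlgebra
  have i4 : IsScalarTower F K E := IsScalarTower.of_algebraMap_eq fun _ => rfl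
  have hinj : ∀ P : K[X], aeval s P = 0 → P = 0 := transcendental_iff.1 H.tr
  have hω : ω ^ 2 = aeval s (hh f g R α) := by
    have h1 := H.eq
    rw [map_zero, zero_mul, sub_zero, map_neg] at h1
    linear_combination h1
  have hω0 : ω ≠ 0 := by
    rintro rfl
    rw [zero_pow two_ne_zero] at hω
    exact hs 0 (by rw [hinj _ hω.symm, zero_pow two_ne_zero])
  have hσω : σ ω = -ω := by
    rw [H.sig_xi, map_zero, zero_sub]
  have hσP : ∀ P : K[X], σ (aeval s P) = aeval s P := fun P => by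
    rw [← Polynomial.aeval_algHom_apply σ s P, H.sig_s]
  obtain ⟨P, hPx, hPy, hPt⟩ := rel_pt hω hω0 hc
  obtain ⟨G, hGdef⟩ : ∃ G : E, G = aeval s A₁ + aeval s A₂ * ω := ⟨_, rfl⟩
  have hσG : σ G = aeval s A₁ - aeval s A₂ * ω := by
    rw [hGdef, map_add, map_mul, hσP, hσP, hσω]
    ring
  have hnrm : G * σ G = aeval s (nR f g R α A₁ A₂) := by
    rw [hσG, hGdef, nR, map_sub, map_mul, map_pow, map_pow, ← hω]
    ring
  have hG : G ≠ 0 := by
    intro h0
    rw [h0, zero_mul] at hnrm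
    exact hn (hinj _ hnrm.symm)
  obtain ⟨S, m, hm, hm0, hu⟩ := rel_div (Ω := Ω) H G hG
  choose y hy using fun w : Place K E Ω => kred_ex w (Quotient.mk _ P : (Kv f g).pt E)
  have hC : ∑ w ∈ S, Finsupp.single (y w) (m w) ∈ (Kv f g).ratEq K Ω :=
    pvK_ratEq ⟨E, i1, i2, i3, i4, H.ff, G, Quotient.mk _ P, hG, S, m, y, hu,
      fun w hw => ⟨hm w hw, hy w⟩, rfl⟩
  obtain ⟨Z, hZ⟩ : ∃ Z : (Kv f g).pt Ω →₀ ℤ, Z = ∑ w ∈ S, Finsupp.single (y w) (m w) := ⟨_, rfl⟩
  rw [← hZ] at hC
  have hZa : ∀ q, Z q = ∑ w ∈ S, if y w = q then m w else 0 := by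
    intro q
    rw [hZ, Finsupp.finsetSum_apply]
    exact Finset.sum_congr rfl fun w _ => Finsupp.single_apply
  have hval := fun w => rel_val hω hc hPx hPy hPt w (hy w)
  -- the places with the value `kp x z v`
  have hto : ∀ (w : Place K E Ω) (x z v : Ω), Sp f g x z v → y w = kp f g x z v →
      Hv w s z ∧ aeval z α ≠ 0 ∧ aeval z α * x = aeval z R ∧ Hv w ω (aeval z α ^ 2 * v) := by
    intro w x z v hsp hyw
    rcases hval w with ⟨x', z', v', h1, h2, h3, h4, h5, h6⟩ | ⟨h1, -⟩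
    · obtain ⟨rfl, rfl, rfl⟩ := kp_inj h1 hsp (h2.symm.trans hyw)
      exact ⟨h3, h4, h5, h6⟩
    · rw [hyw] at h1
      exact absurd h1 (kp_nb hsp)
  have hα0 : ∀ x z : Ω, aeval z α * x = aeval z R → aeval z α ≠ 0 := by
    intro x z h1 h2
    rw [h2, zero_mul] at h1
    exact rel_cop hc z h1.symm h2
  have hnz : ∀ x z v : Ω, Sp f g x z v → Z (kp f g x z v) ≠ 0 → aeval z α * x = aeval z R := by
    intro x z v hsp h1
    rw [hZa] at h1
    obtain ⟨w, -, hw2⟩ := Finset.exists_ne_zero_of_sum_ne_zero h1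
    by_cases hw3 : y w = kp f g x z v
    · exact (hto w x z v hsp hw3).2.2.1
    · rw [if_neg hw3] at hw2
      exact absurd rfl hw2
  -- the order at a point of the curve
  have key : ∀ x z v : Ω, Sp f g x z v → aeval z α * x = aeval z R →
      ∃ w₀ : Place K E Ω, Hv w₀ s z ∧ Hv w₀ ω (aeval z α ^ 2 * v) ∧
        (∀ w' : Place K E Ω, Hv w' s z → Hv w' ω (aeval z α ^ 2 * v) → w' = w₀) ∧
        (∀ P : K[X], P ≠ 0 →
          w₀.IsOrd (aeval s P) (rootMultiplicity z (P.map (algebraMap K Ω)))) ∧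
        w₀.IsOrd G (Z (kp f g x z v)) := by
    intro x z v hsp hxz
    have ha := hα0 x z hxz
    have hhz : aeval z (hh f g R α) = (aeval z α ^ 2 * v) ^ 2 := by
      rw [hh_aeval f g hxz, mul_pow, hsp.1]
      ring
    have hhz0 : aeval z (hh f g R α) ≠ 0 := by
      rw [hhz]
      exact pow_ne_zero 2 (mul_ne_zero (pow_ne_zero 2 ha) hsp.2)
    obtain ⟨w₀, ⟨h1, h2⟩, h3, h4⟩ := rel_plc (Ω := Ω) H hhz0 hhz.symm
    refine ⟨w₀, h1, h2, h3, h4, ?_⟩
    have hiff : ∀ w, y w = kp f g x z v ↔ w = w₀ := by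
      intro w
      constructor
      · intro h5
        obtain ⟨k1, -, -, k2⟩ := hto w x z v hsp h5
        exact h3 w k1 k2
      · rintro rfl
        rcases hval w with ⟨x', z', v', k1, k2, k3, k4, k5, k6⟩ | ⟨-, k1⟩
        · obtain rfl : z' = z := k3.uniq h1
          have k7 : x' = x := mul_left_cancel₀ ha (k5.trans hxz.symm)
          have k8 : v' = v := mul_left_cancel₀ (pow_ne_zero 2 ha) (k6.uniq h2)
          rw [k2, k7, k8]
        · exact absurd (k1 z h1) hhz0
    have hZ0 : Z (kp f g x z v) = if w₀ ∈ S then m w₀ else 0 := by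
      rw [hZa]
      simp only [hiff]
      rw [Finset.sum_ite_eq']
    rw [hZ0]
    split_ifs with h5
    · exact hm w₀ h5
    · exact rla_unit (h4 1 one_ne_zero) hG (hu w₀ h5).1 (hu w₀ h5).2
  have keyσ : ∀ x z v : Ω, Sp f g x z v → aeval z α * x = aeval z R → ∀ w₀ : Place K E Ω,
      Hv w₀ s z → Hv w₀ ω (aeval z α ^ 2 * v) → w₀.IsOrd (σ G) (Z (kp f g x z (-v))) := by
    intro x z v hsp hxz w₀ h1 h2
    obtain ⟨w₁, k1, k2, k3, k4, k5⟩ := key x z (-v) hsp.neg hxz
    have h3 : Qb.cmp σ w₀ = w₁ := by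
      refine k3 _ (rla_cmp σ ?_) (rla_cmp σ ?_)
      · rw [H.sig_s]
        exact h1
      · rw [hσω, mul_neg]
        exact h2.neg
    rw [← h3] at k5
    exact Qb.cmp_ord σ k5
  have hreg : ∀ (w : Place K E Ω) (z r : Ω), Hv w s z → Hv w ω r →
      Hv w G (aeval z A₁ + aeval z A₂ * r) := by
    intro w z r h1 h2
    rw [hGdef]
    exact (rla_hv h1 A₁).add ((rla_hv h1 A₂).mul h2)
  refine ⟨Z, hC, ?_, ?_, ?_, ?_⟩
  · intro x z v hsp h0
    have hxz := hnz x z v hsp h0
    obtain ⟨w₀, h1, h2, -, -, h5⟩ := key x z v hsp hxz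
    have h6 := hreg w₀ z _ h1 h2
    have h7 := rla_nonneg h5 h6.mem
    exact ⟨hα0 x z hxz, hxz, rla_zero h5 (lt_of_le_of_ne h7 (Ne.symm h0)) h6⟩
  · intro x z v hsp
    by_cases h0 : Z (kp f g x z v) = 0
    · rw [h0]
    · obtain ⟨w₀, h1, h2, -, -, h5⟩ := key x z v hsp (hnz x z v hsp h0)
      exact rla_nonneg h5 (hreg w₀ z _ h1 h2).mem
  · intro x z v hsp hxz
    obtain ⟨w₀, h1, h2, -, h4, h5⟩ := key x z v hsp hxz
    have h6 := Qb.ord_mul h5 (keyσ x z v hsp hxz w₀ h1 h2)
    rw [hnrm] at h6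
    exact Place.IsOrd.unique rfl h6 (h4 _ hn)
  · rintro rfl x z v hsp
    by_cases hxz : aeval z α * x = aeval z R
    · obtain ⟨w₀, h1, h2, -, h4, h5⟩ := key x z v hsp hxz
      have h6 := keyσ x z v hsp hxz w₀ h1 h2
      have h7 : σ G = G := by
        rw [hσG, hGdef, map_zero, zero_mul, sub_zero, add_zero]
      rw [h7] at h6
      exact Place.IsOrd.unique rfl h5 h6
    · have e1 : Z (kp f g x z v) = 0 := by
        by_contra h0
        exact hxz (hnz x z v hsp h0)
      have e2 : Z (kp f g x z (-v)) = 0 := by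
        by_contra h0
        exact hxz (hnz x z (-v) hsp.neg h0)
      rw [e1, e2]

/-- The function `ω` is not rational if the degree of `h` is odd. -/
theorem nsq_odd {h : K[X]} (hd : Odd h.natDegree) (r : K[X]) : r ^ 2 ≠ h := by
  intro e
  rw [← e, natDegree_pow] at hd
  exact (Nat.not_odd_iff_even.2 (even_two_mul _)) hd

/-- The norm is not `0`. -/
theorem nR_ne {R α A₁ A₂ : K[X]} (hs : ∀ r : K[X], r ^ 2 ≠ hh f g R α) (hA : A₁ ≠ 0 ∨ A₂ ≠ 0) :
    nR f g R α A₁ A₂ ≠ 0 := by
  intro e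
  have e1 : A₁ ^ 2 = A₂ ^ 2 * hh f g R α := sub_eq_zero.1 e
  by_cases h2 : A₂ = 0
  · have h1 : A₁ ^ 2 = 0 := by rw [e1, h2, zero_pow two_ne_zero, zero_mul]
    rcases hA with hA | hA
    · exact hA (pow_eq_zero_iff two_ne_zero |>.1 h1)
    · exact hA h2
  · have h3 : A₂ ^ 2 ∣ A₁ ^ 2 := ⟨_, e1⟩
    obtain ⟨r, hr⟩ := (UniqueFactorizationMonoid.pow_dvd_pow_iff_dvd two_ne_zero).1 h3
    have h4 : A₂ ^ 2 * r ^ 2 = A₂ ^ 2 * hh f g R α := by rw [← e1, hr, mul_pow]
    exact hs r (mul_left_cancel₀ (pow_ne_zero 2 h2) h4)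

end PE
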