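import Pool.Agent.Lib.MP_f80667_ag.Kf.Bad
import Pool.Agent.Lib.MP_f80667_ag.Kf.Rel

/-! The vertical relation, opposite points, conjugate opposite points (proofs for `Kf/Cl.lean`). -/

open ZC BE Polynomial IntermediateField

namespace PE

section clv

variable {F : Type} [Field F] {f g : F[X]} [C3 f] [C3 g] {K : Type} [Field K] [CharZero K]
  [Algebra F K] {Ω : Type} [Field Ω] [Algebra K Ω] [Algebra F Ω] [IsScalarTower F K Ω]
  [IsAlgClosure K Ω]

omit [C3 f] [C3 g] [CharZero K] in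
/-- The form `f` at `(C a, 1)`. -/
theorem clv_hF [C3 f] (a : K) : hF f (C a) 1 = C (aeval a f) := by
  have h0 : f.natDegree < 5 := by
    rw [C3.deg (f := f)]
    norm_num
  unfold hF
  rw [aeval_eq_sum_range' h0, map_sum]
  refine Finset.sum_congr rfl fun i _ => ?_
  rw [one_pow, mul_one, Algebra.smul_def, map_mul, map_pow]

omit [CharZero K] in
/-- The degree of `h` for a vertical curve. -/
theorem clv_deg {a : K} (ha : aeval a f ≠ 0) : (hh f g (C a) 1).natDegree = 3 := by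
  unfold hh
  rw [clv_hF, natDegree_C_mul ha, natDegree_map, C3.deg (f := g)]

omit [C3 f] [C3 g] in
/-- A cycle in `ratEq` over `M` is invariant. -/
theorem clv_inv (M : IntermediateField K Ω) [FiniteDimensional K M] [IsScalarTower F M Ω]
    {C : (Kv f g).pt Ω →₀ ℤ} (hC : C ∈ (Kv f g).ratEq M Ω) :
    ∀ γ ∈ M.fixingSubgroup, Finsupp.mapDomain (fun x : (Kv f g).pt Ω => γ • x) C = C := by
  have i1 : IsAlgClosure M Ω := ⟨IsAlgClosure.isAlgClosed K, inferInstance⟩
  intro γ hγ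
  exact ratEq_cyc hC (IntermediateField.fixingSubgroupEquiv M ⟨γ, hγ⟩)

omit [C3 f] [C3 g] in
/-- The third coordinate up to sign. -/
theorem clv_sq {x y w v : Ω} (h : Sp f g x y w) (h' : Sp f g x y v) : v = w ∨ v = -w := by
  have h1 : v ^ 2 = w ^ 2 := by rw [h.1, h'.1]
  exact sq_eq_sq_iff_eq_or_eq_neg.1 h1

/-- The vertical relation. -/
theorem clv_vert (M : IntermediateField K Ω) [FiniteDimensional K M] [IsScalarTower F M Ω]
    {x y w : Ω} (h : Sp f g x y w) (hx : x ∈ M) (hy : y ∈ M) :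
    ∃ C ∈ (Kv f g).ratEq M Ω, C (kp f g x y w) = 1 ∧ C (kp f g x y (-w)) = 1 ∧
      ∀ p : (Kv f g).pt Ω, C p ≠ 0 → p = kp f g x y w ∨ p = kp f g x y (-w) ∨ Bp f g p := by
  have i1 : IsAlgClosure M Ω := ⟨IsAlgClosure.isAlgClosed K, inferInstance⟩
  obtain ⟨xm, hxm⟩ : ∃ xm : M, algebraMap M Ω xm = x := ⟨⟨x, hx⟩, rfl⟩
  obtain ⟨ym, hym⟩ : ∃ ym : M, algebraMap M Ω ym = y := ⟨⟨y, hy⟩, rfl⟩
  have hco : IsCoprime (C xm : M[X]) 1 := isCoprime_one_right
  have ha : aeval xm f ≠ 0 := by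
    intro h0
    apply h.fx
    rw [← hxm, aeval_algebraMap_apply, h0, map_zero]
  have hs : ∀ r : M[X], r ^ 2 ≠ hh f g (C xm) 1 := by
    refine nsq_odd ?_
    rw [clv_deg ha]
    exact ⟨1, rfl⟩
  have hn1 : nR f g (C xm) 1 (X - C ym) 0 = (X - C ym) ^ 2 := by
    unfold nR
    rw [zero_pow two_ne_zero, zero_mul, sub_zero]
  have hn : nR f g (C xm) 1 (X - C ym) 0 ≠ 0 := by
    rw [hn1]
    exact pow_ne_zero 2 (X_sub_C_ne_zero ym)
  obtain ⟨D, hD, h1, -, h3, h4⟩ := rel (K := M) (Ω := Ω) (f := f) (g := g) (C xm) 1 (X - C ym) 0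
    hco hs hn
  have hm : rootMultiplicity y ((nR f g (C xm) 1 (X - C ym) 0).map (algebraMap M Ω)) = 2 := by
    rw [hn1, Polynomial.map_pow, Polynomial.map_sub, map_X, map_C, hym, rootMultiplicity_X_sub_C_pow]
  have h5 := h3 x y w h (by rw [map_one, one_mul, aeval_C, hxm])
  rw [hm] at h5
  have h6 := h4 rfl x y w h
  refine ⟨D, hD, by push_cast at h5; omega, by push_cast at h5; omega, fun p hp => ?_⟩
  rcases kp_or p with hb | ⟨x', y', v, hv, rfl⟩
  · exact Or.inr (Or.inr hb)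
  · obtain ⟨-, h7, h8⟩ := h1 x' y' v hv hp
    rw [map_one, one_mul, aeval_C, hxm] at h7
    rw [map_zero, zero_mul, add_zero, map_sub, aeval_X, aeval_C, hym] at h8
    have h9 : y' = y := sub_eq_zero.1 h8
    subst h7
    subst h9
    rcases clv_sq h hv with e | e
    · exact Or.inl (by rw [e])
    · exact Or.inr (Or.inl (by rw [e]))

variable (f g) in
omit [CharZero K] [IsAlgClosure K Ω] [Algebra K Ω] [IsScalarTower F K Ω] [Algebra F K] in
theorem clv_ne [CharZero Ω] {x y w : Ω} (h : Sp f g x y w) : kp f g x y w ≠ kp f g x y (-w) := by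
  intro e
  obtain ⟨-, -, h1⟩ := kp_inj h h.neg e
  exact h.2 (self_eq_neg.1 h1)

/-- The bad part. -/
theorem clv_bad (M : IntermediateField K Ω) [FiniteDimensional K M] [IsScalarTower F M Ω]
    {x y w : Ω} (h : Sp f g x y w) {C B : (Kv f g).pt Ω →₀ ℤ} (hC : C ∈ (Kv f g).ratEq M Ω)
    (h1 : C (kp f g x y w) = 1) (h2 : C (kp f g x y (-w)) = 1)
    (h3 : ∀ p : (Kv f g).pt Ω, C p ≠ 0 → p = kp f g x y w ∨ p = kp f g x y (-w) ∨ Bp f g p)
    (hB : B = Finsupp.single (kp f g x y w) 1 + Finsupp.single (kp f g x y (-w)) 1)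
    (hBi : ∀ γ ∈ M.fixingSubgroup, Finsupp.mapDomain (fun x : (Kv f g).pt Ω => γ • x) B = B) :
    trG ((Kv f g).pt Ω) M.fixingSubgroup B ∈ R2 f g K Ω := by
  classical
  have i3 : CharZero Ω := charZero_of_injective_algebraMap (algebraMap K Ω).injective
  have hX : ∀ x : (Kv f g).pt Ω, (MulAction.stabilizer (Ω ≃ₐ[K] Ω) x).FiniteIndex :=
    fun x => opn_fin _ (kv_stab x)
  have hH : M.fixingSubgroup.FiniteIndex := opn_fin _ (opn_fix M)
  have hne := clv_ne f g h
  have hCB : trG ((Kv f g).pt Ω) M.fixingSubgroup (C - B) ∈ R2 f g K Ω := by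
    refine tr_all hX hH (fun γ hγ => ?_) fun p hp => ?_
    · have e : Finsupp.mapDomain (fun x : (Kv f g).pt Ω => γ • x) (C - B) =
        Finsupp.mapDomain.addMonoidHom (M := ℤ) (fun x : (Kv f g).pt Ω => γ • x) (C - B) := rfl
      rw [e, map_sub, Finsupp.mapDomain.addMonoidHom_apply,
        Finsupp.mapDomain.addMonoidHom_apply, clv_inv M hC γ hγ, hBi γ hγ]
    · rw [Finsupp.sub_apply, hB, Finsupp.add_apply, Finsupp.single_apply,
        Finsupp.single_apply] at hp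
      by_cases e1 : kp f g x y w = p
      · exfalso
        apply hp
        rw [if_pos e1, ← e1, h1, if_neg hne.symm]
        norm_num
      · by_cases e2 : kp f g x y (-w) = p
        · exfalso
          apply hp
          rw [if_pos e2, ← e2, h2, if_neg hne]
          norm_num
        · rw [if_neg e1, if_neg e2, add_zero, sub_zero] at hp
          rcases h3 p hp with e | e | e
          · exact absurd e.symm e1
          · exact absurd e.symm e2
          · exact bad_tp e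
  have hC2 : trG ((Kv f g).pt Ω) M.fixingSubgroup C ∈ R2 f g K Ω := r2_ratEq (tr_ratEqK M hC)
  have h4 := sub_mem hC2 hCB
  rw [← map_sub, sub_sub_cancel] at h4
  exact h4

/-- Opposite points. -/
theorem clv_iota {x y w : Ω} (h : Sp f g x y w) :
    tq (Ω ≃ₐ[K] Ω) (kp f g x y w) + tq (Ω ≃ₐ[K] Ω) (kp f g x y (-w)) ∈ R2 f g K Ω := by
  classical
  have hst : MulAction.stabilizer (Ω ≃ₐ[K] Ω) (kp f g x y (-w)) =
      MulAction.stabilizer (Ω ≃ₐ[K] Ω) (kp f g x y w) := by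
    ext γ
    rw [MulAction.mem_stabilizer_iff, MulAction.mem_stabilizer_iff, kp_fix γ h, kp_fix γ h.neg,
      map_neg, neg_inj]
  obtain ⟨M, hM, hMe⟩ := exists_fix (kv_stab (K := K) (kp f g x y w))
  have i2 : IsScalarTower F M Ω := IsScalarTower.of_algebraMap_eq fun _ => rfl
  have hfx : ∀ γ ∈ M.fixingSubgroup, γ x = x ∧ γ y = y ∧ γ w = w := by
    intro γ hγ
    rw [hMe, MulAction.mem_stabilizer_iff] at hγ
    exact (kp_fix γ h).1 hγ
  have hx : x ∈ M := mem_of_fix M fun γ hγ => (hfx γ hγ).1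
  have hy : y ∈ M := mem_of_fix M fun γ hγ => (hfx γ hγ).2.1
  obtain ⟨C, hC, hC1, hC2, hC3⟩ := clv_vert M h hx hy
  have h1 := clv_bad M h hC hC1 hC2 hC3 rfl fun γ hγ => by
    have hp : γ • kp f g x y w = kp f g x y w := (kp_fix γ h).2 (hfx γ hγ)
    have hq : γ • kp f g x y (-w) = kp f g x y (-w) :=
      (kp_fix γ h.neg).2 ⟨(hfx γ hγ).1, (hfx γ hγ).2.1, by rw [map_neg, (hfx γ hγ).2.2]⟩
    rw [Finsupp.mapDomain_add, Finsupp.mapDomain_single, Finsupp.mapDomain_single, hp, hq]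
  rw [map_add, hMe] at h1
  unfold tq
  rw [hst]
  exact h1

/-- Conjugate opposite points. -/
theorem clv_conj {x y w : Ω} (h : Sp f g x y w) {γ : Ω ≃ₐ[K] Ω} (hx : γ x = x) (hy : γ y = y)
    (hw : γ w = -w) : Tp f g K (kp f g x y w) := by
  classical
  have i3 : CharZero Ω := charZero_of_injective_algebraMap (algebraMap K Ω).injective
  have hne := clv_ne f g h
  -- the automorphisms which fix `x` and `y`
  have hle : MulAction.stabilizer (Ω ≃ₐ[K] Ω) (kp f g x y w) ≤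
      MulAction.stabilizer (Ω ≃ₐ[K] Ω) x ⊓ MulAction.stabilizer (Ω ≃ₐ[K] Ω) y := by
    intro δ hδ
    rw [MulAction.mem_stabilizer_iff, kp_fix δ h] at hδ
    exact ⟨hδ.1, hδ.2.1⟩
  obtain ⟨M₀, hM₀, hM₀'⟩ := kv_stab (K := K) (kp f g x y w)
  obtain ⟨M, hM, hMe⟩ := exists_fix (K := K) ⟨M₀, hM₀, hM₀'.trans hle⟩
  have i2 : IsScalarTower F M Ω := IsScalarTower.of_algebraMap_eq fun _ => rfl
  have hfx : ∀ δ : Ω ≃ₐ[K] Ω, δ ∈ M.fixingSubgroup ↔ δ x = x ∧ δ y = y := by
    intro δ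
    rw [hMe]
    exact Iff.rfl
  have hxM : x ∈ M := mem_of_fix M fun δ hδ => ((hfx δ).1 hδ).1
  have hyM : y ∈ M := mem_of_fix M fun δ hδ => ((hfx δ).1 hδ).2
  obtain ⟨C, hC, hC1, hC2, hC3⟩ := clv_vert M h hxM hyM
  obtain ⟨p, hp⟩ : ∃ p, p = kp f g x y w := ⟨_, rfl⟩
  obtain ⟨q, hq⟩ : ∃ q, q = kp f g x y (-w) := ⟨_, rfl⟩
  -- the conjugates over `M`
  have hact : ∀ δ ∈ M.fixingSubgroup, (δ • p = p ∧ δ • q = q) ∨ (δ • p = q ∧ δ • q = p) := by
    intro δ hδ
    obtain ⟨h1, h2⟩ := (hfx δ).1 hδ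
    have h3 : Sp f g x y (δ w) := by
      have h4 := (sp_act δ).2 h
      rwa [h1, h2] at h4
    rcases clv_sq h h3 with e | e
    · left
      rw [hp, hq, kp_act, kp_act, h1, h2, map_neg, e]
      exact ⟨rfl, rfl⟩
    · right
      rw [hp, hq, kp_act, kp_act, h1, h2, map_neg, e, neg_neg]
      exact ⟨rfl, rfl⟩
  have h1 := clv_bad M h hC hC1 hC2 hC3 rfl fun δ hδ => by
    rw [← hp, ← hq, Finsupp.mapDomain_add, Finsupp.mapDomain_single, Finsupp.mapDomain_single]
    rcases hact δ hδ with ⟨e1, e2⟩ | ⟨e1, e2⟩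
    · rw [e1, e2]
    · rw [e1, e2, add_comm]
  -- the trace of the point
  have hSM : MulAction.stabilizer (Ω ≃ₐ[K] Ω) p ≤ M.fixingSubgroup := by
    rw [hMe, hp]
    exact hle
  have hSf : (MulAction.stabilizer (Ω ≃ₐ[K] Ω) p).FiniteIndex := opn_fin _ (kv_stab p)
  have hs : MulAction.stabilizer M.fixingSubgroup p =
      (MulAction.stabilizer (Ω ≃ₐ[K] Ω) p).subgroupOf M.fixingSubgroup := by
    ext δ
    rw [Subgroup.mem_subgroupOf]
    exact Iff.rfl
  have hHU : (MulAction.stabilizer M.fixingSubgroup p).FiniteIndex := by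
    rw [hs]
    exact inferInstance
  have hinv : ∀ δ ∈ MulAction.stabilizer (Ω ≃ₐ[K] Ω) p,
      Finsupp.mapDomain (fun x => δ • x) (Finsupp.single p (1 : ℤ)) = Finsupp.single p 1 := by
    intro δ hδ
    rw [Finsupp.mapDomain_single, MulAction.mem_stabilizer_iff.1 hδ]
  have hkey : tq (Ω ≃ₐ[K] Ω) p = trG ((Kv f g).pt Ω) M.fixingSubgroup
      (trG ((Kv f g).pt Ω) (MulAction.stabilizer M.fixingSubgroup p) (Finsupp.single p 1)) := by
    unfold tq
    rw [trG_tr hSf hSM hinv]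
    congr 1
    have hHU' := hHU
    rw [hs] at hHU' ⊢
    rw [trG_apply hHU']
    rfl
  have hsum : trG ((Kv f g).pt Ω) (MulAction.stabilizer M.fixingSubgroup p)
      (Finsupp.single p (1 : ℤ)) = Finsupp.single p 1 + Finsupp.single q 1 := by
    ext z
    rw [trG_single_apply _ _ hHU, Finsupp.add_apply, Finsupp.single_apply, Finsupp.single_apply]
    have hpq : p ≠ q := by rw [hp, hq]; exact hne
    by_cases e1 : p = z
    · rw [if_pos e1, ← e1, if_neg hpq.symm, if_pos (MulAction.mem_orbit_self _), add_zero]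
    · rw [if_neg e1, zero_add]
      by_cases e2 : q = z
      · rw [if_pos e2, if_pos]
        refine ⟨⟨γ, (hfx γ).2 ⟨hx, hy⟩⟩, ?_⟩
        change γ • p = z
        rw [← e2, hp, hq, kp_act, hx, hy, hw]
      · rw [if_neg e2, if_neg]
        rintro ⟨δ, hδ⟩
        have hδ' : (δ : Ω ≃ₐ[K] Ω) • p = z := hδ
        rcases hact δ δ.2 with ⟨e3, -⟩ | ⟨e3, -⟩
        · exact e1 (e3.symm.trans hδ')
        · exact e2 (e3.symm.trans hδ')
  rw [← hp, ← hq, ← hsum, ← hkey, hp] at h1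
  exact h1

end clv

end PE
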