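import Pool.Agent.Lib.MP_f80667_ag.Kf.Bad
import Pool.Agent.Lib.MP_f80667_ag.Kf.ClE
import Pool.Agent.Lib.MP_f80667_ag.Kf.Rel
import Pool.Agent.Lib.MP_f80667_ag.Kf.ClV

/-! Consequences of the relations for the classes of the closed points modulo `R2`. -/

open ZC BE Polynomial IntermediateField

namespace PE

variable {F : Type} [Field F] {f g : F[X]} [C3 f] [C3 g] {K : Type} [Field K] [CharZero K]
  [Algebra F K] {Ω : Type} [Field Ω] [Algebra K Ω] [Algebra F Ω] [IsScalarTower F K Ω]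
  [IsAlgClosure K Ω]

/-- The vertical relation. Let `x`, `y` be in `M`. Proof: `rel` over `M` with `R = C x`, `α = 1`, `A₁ = X - C y`, `A₂ = 0`: `h = f(x) g` has degree `3`, `n = (X - C y) ^ 2`. By the properties of `C` its good points are `(x, y, ± w)`
with equal coefficients, of sum `2`. -/
theorem vert (M : IntermediateField K Ω) [FiniteDimensional K M] [IsScalarTower F M Ω] {x y w : Ω}
    (h : Sp f g x y w) (hx : x ∈ M) (hy : y ∈ M) :
    ∃ C ∈ (Kv f g).ratEq M Ω, C (kp f g x y w) = 1 ∧ C (kp f g x y (-w)) = 1 ∧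
      ∀ p : (Kv f g).pt Ω, C p ≠ 0 → p = kp f g x y w ∨ p = kp f g x y (-w) ∨ Bp f g p := by
  exact clv_vert M h hx hy

/-- **Opposite points.** Proof: `vert` for the fixed field `M` of the stabilizer of the point: `C - [p] - [ι p]` is a cycle over `M` of bad points, its trace is in `R2` (`tr_all`, `bad_tp`), the trace of `C` is in `ratEq` (`tr_ratEqK`). `p` and `ι p` have the same stabilizer. -/
theorem iota_tp {x y w : Ω} (h : Sp f g x y w) :
    tq (Ω ≃ₐ[K] Ω) (kp f g x y w) + tq (Ω ≃ₐ[K] Ω) (kp f g x y (-w)) ∈ R2 f g K Ω := by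
  exact clv_iota h

theorem neg_tp {x y w : Ω} (h : Sp f g x y w) (h' : Tp f g K (kp f g x y w)) :
    Tp f g K (kp f g x y (-w)) := by
  have h1 := sub_mem (iota_tp (K := K) h) h'
  rwa [add_sub_cancel_left] at h1

/-- **Conjugate opposite points.** Proof: `vert` for `M = K(x, y)`: `C = [p] + [ι p]` + bad points, `[p] + [ι p]` is the sum of the conjugates of `p` over `M`, so its trace is the trace of `p`; the trace of the bad part is in `R2` (`tr_all`, `bad_tp`). -/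
theorem conj_tp {x y w : Ω} (h : Sp f g x y w) {γ : Ω ≃ₐ[K] Ω} (hx : γ x = x) (hy : γ y = y)
    (hw : γ w = -w) : Tp f g K (kp f g x y w) := by
  exact clv_conj h hx hy hw

/-- The involution of the points which are not bad. -/
private theorem cl_inv : ∃ ι : (Kv f g).pt Ω → (Kv f g).pt Ω, ∀ x y w : Ω, Sp f g x y w →
    ι (kp f g x y w) = kp f g x y (-w) := by
  classical
  refine ⟨fun p => if h : ∃ q : Ω × Ω × Ω, Sp f g q.1 q.2.1 q.2.2 ∧ p = kp f g q.1 q.2.1 q.2.2 then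
    kp f g h.choose.1 h.choose.2.1 (-h.choose.2.2) else p, fun x y w h => ?_⟩
  have h1 : ∃ q : Ω × Ω × Ω, Sp f g q.1 q.2.1 q.2.2 ∧
      kp f g x y w = kp f g q.1 q.2.1 q.2.2 := ⟨(x, y, w), h, rfl⟩
  dsimp only
  rw [dif_pos h1]
  obtain ⟨e1, e2, e3⟩ := kp_inj h h1.choose_spec.1 h1.choose_spec.2
  rw [← e1, ← e2, ← e3]

/-- The orbit argument for a group `U` of automorphisms. -/
private theorem cl_main {U : Subgroup (Ω ≃ₐ[K] Ω)} (hU : U.FiniteIndex)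
    {C : (Kv f g).pt Ω →₀ ℤ} (hC : ∀ γ ∈ U, Finsupp.mapDomain (fun p => γ • p) C = C)
    (htr : trG ((Kv f g).pt Ω) U C ∈ R2 f g K Ω) (a r : Ω → Ω) (μ : Ω → ℕ)
    (ha : ∀ γ ∈ U, ∀ y, a (γ y) = γ (a y)) (hr : ∀ γ ∈ U, ∀ y, r (γ y) = γ (r y))
    (c1 : ∀ x y v : Ω, Sp f g x y v → C (kp f g x y v) ≠ 0 → a y ≠ 0 ∧ a y * x = r y)
    (c3 : ∀ x y v : Ω, Sp f g x y v → a y * x = r y →
      C (kp f g x y v) + C (kp f g x y (-v)) = μ y)
    {x₀ y₀ w₀ : Ω} (h₀ : Sp f g x₀ y₀ w₀) (hx : a y₀ * x₀ = r y₀)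
    (hM : ∀ γ : Ω ≃ₐ[K] Ω, γ x₀ = x₀ → γ y₀ = y₀ → γ w₀ = w₀ → γ ∈ U) (hodd : Odd (μ y₀))
    (hot : ∀ x y w : Ω, Sp f g x y w → a y * x = r y → Odd (μ y) →
      (∀ γ ∈ U, γ y₀ ≠ y) → Tp f g K (kp f g x y w)) :
    Tp f g K (kp f g x₀ y₀ w₀) := by
  obtain ⟨ι, hι⟩ := cl_inv (f := f) (g := g) (Ω := Ω)
  have hk : ∀ p : (Kv f g).pt Ω, ¬ Bp f g p → ∃ x y w : Ω, Sp f g x y w ∧ p = kp f g x y w :=
    fun p hp => (kp_or p).resolve_left hp
  refine orb_main (fun p => opn_fin _ (kv_stab p)) hU (R := R2 f g K Ω)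
    (fun z hz => r2_two (z := z) fun σ => hz σ) hC htr (fun p => ¬ Bp f g p) ι ?_ ?_ ?_ ?_ ?_ ?_ ?_
    (kp_nb h₀) ?_ ?_ ?_
  · intro p hp
    obtain ⟨x, y, w, h, rfl⟩ := hk p hp
    rw [hι x y w h, hι x y (-w) h.neg, neg_neg]
  · intro p hp
    obtain ⟨x, y, w, h, rfl⟩ := hk p hp
    rw [hι x y w h]
    exact kp_nb h.neg
  · intro γ p hp
    obtain ⟨x, y, w, h, rfl⟩ := hk p hp
    rw [hι x y w h, kp_act, kp_act, hι _ _ _ ((sp_act γ).2 h), map_neg]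
  · intro γ p hp
    exact fun hb => hp ((bp_act γ).1 hb)
  · intro p hp _
    exact bad_tp (not_not.1 hp)
  · intro p hp
    obtain ⟨x, y, w, h, rfl⟩ := hk p hp
    rw [hι x y w h]
    exact iota_tp h
  · intro p hp γ e
    obtain ⟨x, y, w, h, rfl⟩ := hk p hp
    rw [hι x y w h, kp_act] at e
    obtain ⟨e1, e2, e3⟩ := kp_inj ((sp_act γ).2 h) h.neg e
    exact conj_tp h e1 e2 e3
  · intro γ hγ
    obtain ⟨e1, e2, e3⟩ := (kp_fix γ h₀).1 hγ
    exact hM γ e1 e2 e3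
  · rw [hι _ _ _ h₀, c3 _ _ _ h₀ hx]
    exact (Int.odd_coe_nat _).2 hodd
  · intro p hp ho hne
    obtain ⟨x, y, w, h, rfl⟩ := hk p hp
    rw [hι x y w h] at ho hne
    have h1 : a y ≠ 0 ∧ a y * x = r y := by
      by_cases h2 : C (kp f g x y w) = 0
      · by_cases h3 : C (kp f g x y (-w)) = 0
        · rw [h2, h3, add_zero] at ho
          exact absurd ho (by decide)
        · exact c1 x y (-w) h.neg h3
      · exact c1 x y w h h2
    rw [c3 x y w h h1.2] at ho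
    refine hot x y w h h1.2 ((Int.odd_coe_nat _).1 ho) fun γ hγ e => ?_
    have h4 : a y * γ x₀ = r y := by
      rw [← e, ha γ hγ, hr γ hγ, ← map_mul, hx]
    have h5 : γ x₀ = x := mul_left_cancel₀ h1.1 (h4.trans h1.2.symm)
    have h6 := (sp_act (f := f) (g := g) γ).2 h₀
    rw [h5, e] at h6
    have h7 : γ w₀ ^ 2 = w ^ 2 := h6.1.trans h.1.symm
    rcases sq_eq_sq_iff_eq_or_eq_neg.1 h7 with h8 | h8
    · refine (hne γ hγ).1 ?_
      rw [kp_act, h5, e, h8]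
    · refine (hne γ hγ).2 ?_
      rw [kp_act, h5, e, h8]

/-- **The relation for classes.** `M` is contained in the field of the point. Proof: `rel` over `M`, `tr_ratEqK`, `orb_main` for `U` the fixing subgroup of `M`, good points: those which are not bad, `ι (kp x y w) = kp x y (-w)`; `r2_two`, `bad_tp`, `iota_tp`, `conj_tp`.
If `kp x y w` is a good point with `C (kp x y w) + C (kp x y (-w))` odd then one of them is not `0`, so `α(y) ≠ 0`, `α(y) x = R(y)`, and the multiplicity is odd. If `y = γ y₀`, `γ` over `M`, then `x = γ x₀` and `w = ± γ w₀`. -/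
theorem rel_cl (M : IntermediateField K Ω) [FiniteDimensional K M] [IsScalarTower F M Ω]
    {R α A₁ A₂ : M[X]} (hc : IsCoprime R α) (hs : ∀ r : M[X], r ^ 2 ≠ hh f g R α)
    (hn : nR f g R α A₁ A₂ ≠ 0) {x₀ y₀ w₀ : Ω} (h₀ : Sp f g x₀ y₀ w₀)
    (hx : aeval y₀ α * x₀ = aeval y₀ R)
    (hM : ∀ γ : Ω ≃ₐ[K] Ω, γ x₀ = x₀ → γ y₀ = y₀ → γ w₀ = w₀ → γ ∈ M.fixingSubgroup)
    (hodd : Odd (rootMultiplicity y₀ ((nR f g R α A₁ A₂).map (algebraMap M Ω))))
    (hot : ∀ x y w : Ω, Sp f g x y w → aeval y α * x = aeval y R →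
      Odd (rootMultiplicity y ((nR f g R α A₁ A₂).map (algebraMap M Ω))) →
      (∀ γ ∈ M.fixingSubgroup, γ y₀ ≠ y) → Tp f g K (kp f g x y w)) :
    Tp f g K (kp f g x₀ y₀ w₀) := by
  have i1 : IsAlgClosure M Ω := ⟨IsAlgClosure.isAlgClosed K, inferInstance⟩
  obtain ⟨C, hC, c1, -, c3, -⟩ := rel (K := M) (Ω := Ω) R α A₁ A₂ hc hs hn
  have hγ' : ∀ γ ∈ M.fixingSubgroup, ∃ σ : Ω ≃ₐ[M] Ω, ∀ z, σ z = γ z := fun γ hγ =>
    ⟨IntermediateField.fixingSubgroupEquiv M ⟨γ, hγ⟩, fun _ => rfl⟩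
  refine cl_main (U := M.fixingSubgroup) (opn_fin _ (opn_fix M)) (C := C) (fun γ hγ =>
    ratEq_cyc hC (IntermediateField.fixingSubgroupEquiv M ⟨γ, hγ⟩)) (r2_ratEq (tr_ratEqK M hC))
    (fun y => aeval y α) (fun y => aeval y R)
    (fun y => rootMultiplicity y ((nR f g R α A₁ A₂).map (algebraMap M Ω))) ?_ ?_
    (fun x y v h h' => ⟨(c1 x y v h h').1, (c1 x y v h h').2.1⟩) c3 h₀ hx hM hodd hot
  · intro γ hγ y
    obtain ⟨σ, hσ⟩ := hγ' γ hγ
    have h := aeval_algHom_apply (σ : Ω →ₐ[M] Ω) y α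
    have h1 : aeval (γ y) α = γ (aeval y α) := by
      rw [← hσ, ← hσ]
      exact h
    exact h1
  · intro γ hγ y
    obtain ⟨σ, hσ⟩ := hγ' γ hγ
    have h := aeval_algHom_apply (σ : Ω →ₐ[M] Ω) y R
    have h1 : aeval (γ y) R = γ (aeval y R) := by
      rw [← hσ, ← hσ]
      exact h
    exact h1

/-- The same over `K`. Proof: `rel_cl` for `M = ⊥` and the polynomials mapped to `⊥`, or the same proof with `U = ⊤`. -/
theorem rel_clK {R α A₁ A₂ : K[X]} (hc : IsCoprime R α) (hs : ∀ r : K[X], r ^ 2 ≠ hh f g R α)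
    (hn : nR f g R α A₁ A₂ ≠ 0) {x₀ y₀ w₀ : Ω} (h₀ : Sp f g x₀ y₀ w₀)
    (hx : aeval y₀ α * x₀ = aeval y₀ R)
    (hodd : Odd (rootMultiplicity y₀ ((nR f g R α A₁ A₂).map (algebraMap K Ω))))
    (hot : ∀ x y w : Ω, Sp f g x y w → aeval y α * x = aeval y R →
      Odd (rootMultiplicity y ((nR f g R α A₁ A₂).map (algebraMap K Ω))) →
      (∀ γ : Ω ≃ₐ[K] Ω, γ y₀ ≠ y) → Tp f g K (kp f g x y w)) :
    Tp f g K (kp f g x₀ y₀ w₀) := by
  classical
  obtain ⟨C, hC, c1, -, c3, -⟩ := rel (K := K) (Ω := Ω) R α A₁ A₂ hc hs hn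
  have hU : (⊤ : Subgroup (Ω ≃ₐ[K] Ω)).FiniteIndex := inferInstance
  have hinv : ∀ γ : Ω ≃ₐ[K] Ω, Finsupp.mapDomain (fun p : (Kv f g).pt Ω => γ • p) C = C :=
    fun γ => ratEq_cyc hC γ
  have htr : trG ((Kv f g).pt Ω) (⊤ : Subgroup (Ω ≃ₐ[K] Ω)) C ∈ R2 f g K Ω := by
    let i0 : Fintype ((Ω ≃ₐ[K] Ω) ⧸ (⊤ : Subgroup (Ω ≃ₐ[K] Ω))) := Fintype.ofFinite _
    rw [trG_apply hU, finsum_congr fun q => hinv _, finsum_eq_sum_of_fintype, Finset.sum_const]
    exact nsmul_mem (r2_ratEq hC) _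
  refine cl_main (U := ⊤) hU (C := C) (fun γ _ => hinv γ) htr
    (fun y => aeval y α) (fun y => aeval y R)
    (fun y => rootMultiplicity y ((nR f g R α A₁ A₂).map (algebraMap K Ω))) ?_ ?_
    (fun x y v h h' => ⟨(c1 x y v h h').1, (c1 x y v h h').2.1⟩) c3 h₀ hx
    (fun _ _ _ _ => Subgroup.mem_top _) hodd
    (fun x y w h h1 h2 h3 => hot x y w h h1 h2 fun γ => h3 γ (Subgroup.mem_top _))
  · intro γ _ y
    exact aeval_algHom_apply (γ : Ω →ₐ[K] Ω) y α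
  · intro γ _ y
    exact aeval_algHom_apply (γ : Ω →ₐ[K] Ω) y R

/-- **Lines in the fibre `x = x₀`.** The line `a z + b` meets the fibre in points over `y₀`, `y₁`, `y₂`; `a`, `b` are in the field of the point. Proof: if `y₁ ≠ y₂` and `y₀` is one of them: `h₁`, `h₂`. Otherwise `rel_cl` for the fixed field `M` of the stabilizer of
the point, `R = C x₀`, `α = 1`, `A₁ = a X + b`, `A₂ = 1`, `hh f g R α = f(x₀) g` has degree `3`; the norm is `c (X - y₀) (X - y₁) (X - y₂)`, so the multiplicity of `y₀` is odd, and if `y₁ = y₂ ≠ y₀` its multiplicity is even. -/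
theorem line_y {x₀ y₀ w₀ a b c y₁ y₂ : Ω} (h₀ : Sp f g x₀ y₀ w₀) (hc : c ≠ 0)
    (hn : ∀ z : Ω, (a * z + b) ^ 2 - aeval x₀ f * aeval z g = c * ((z - y₀) * (z - y₁) * (z - y₂)))
    (hfix : ∀ γ : Ω ≃ₐ[K] Ω, γ x₀ = x₀ → γ y₀ = y₀ → γ w₀ = w₀ → γ a = a ∧ γ b = b)
    (h₁ : y₁ ≠ y₂ → ∀ w : Ω, Sp f g x₀ y₁ w → Tp f g K (kp f g x₀ y₁ w))
    (h₂ : y₁ ≠ y₂ → ∀ w : Ω, Sp f g x₀ y₂ w → Tp f g K (kp f g x₀ y₂ w)) :
    Tp f g K (kp f g x₀ y₀ w₀) := by
  classical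
  have hac := IsAlgClosure.isAlgClosed (R := K) (K := Ω)
  have halg : Algebra.IsAlgebraic K Ω := IsAlgClosure.isAlgebraic
  have hcz : CharZero Ω := charZero_of_injective_algebraMap (algebraMap K Ω).injective
  by_cases hy : y₁ ≠ y₂ ∧ (y₀ = y₁ ∨ y₀ = y₂)
  · obtain ⟨hne, h | h⟩ := hy
    · rw [h] at h₀ ⊢
      exact h₁ hne w₀ h₀
    · rw [h] at h₀ ⊢
      exact h₂ hne w₀ h₀
  have hgal : IsGalois K Ω := IsAlgClosure.isGalois K Ω
  let M : IntermediateField K Ω := IntermediateField.adjoin K ({x₀, y₀, w₀} : Set Ω)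
  have hfin : FiniteDimensional K M := by
    have : Finite ({x₀, y₀, w₀} : Set Ω) := Set.toFinite _
    exact IntermediateField.finiteDimensional_adjoin fun z _ =>
      (halg.isAlgebraic z).isIntegral
  have hxM : x₀ ∈ M := IntermediateField.subset_adjoin K _ (by simp)
  have hyM : y₀ ∈ M := IntermediateField.subset_adjoin K _ (by simp)
  have hwM : w₀ ∈ M := IntermediateField.subset_adjoin K _ (by simp)
  have hMfix : ∀ γ : Ω ≃ₐ[K] Ω, γ x₀ = x₀ → γ y₀ = y₀ → γ w₀ = w₀ → γ ∈ M.fixingSubgroup := by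
    intro γ h1 h2 h3
    rw [IntermediateField.mem_fixingSubgroup_iff]
    intro z hz
    refine IntermediateField.adjoin_induction K (p := fun z _ => γ z = z) ?_ (fun q => ?_)
      (fun p q _ _ hp hq => ?_) (fun p _ hp => ?_) (fun p q _ _ hp hq => ?_) hz
    · rintro p (rfl | rfl | rfl)
      · exact h1
      · exact h2
      · exact h3
    · exact γ.commutes q
    · rw [map_add, hp, hq]
    · rw [map_inv₀, hp]
    · rw [map_mul, hp, hq]
  have htow : IsScalarTower F M Ω := IsScalarTower.of_algebraMap_eq fun _ => rfl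
  have haM : a ∈ M := by
    rw [← InfiniteGalois.fixedField_fixingSubgroup M, IntermediateField.mem_fixedField_iff]
    intro γ hγ
    rw [IntermediateField.mem_fixingSubgroup_iff] at hγ
    exact (hfix γ (hγ _ hxM) (hγ _ hyM) (hγ _ hwM)).1
  have hbM : b ∈ M := by
    rw [← InfiniteGalois.fixedField_fixingSubgroup M, IntermediateField.mem_fixedField_iff]
    intro γ hγ
    rw [IntermediateField.mem_fixingSubgroup_iff] at hγ
    exact (hfix γ (hγ _ hxM) (hγ _ hyM) (hγ _ hwM)).2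
  have hfx : aeval (⟨x₀, hxM⟩ : M) f ≠ 0 := by
    intro h0
    apply h₀.fx
    have := aeval_algebraMap_apply Ω (⟨x₀, hxM⟩ : M) f
    rw [h0, map_zero] at this
    exact this
  have hns := cl_nsq f g hfx
  have hval : ∀ z : Ω, aeval z (nR f g (C (⟨x₀, hxM⟩ : M)) 1
      (C (⟨a, haM⟩ : M) * X + C (⟨b, hbM⟩ : M)) 1) = c * ((z - y₀) * (z - y₁) * (z - y₂)) := by
    intro z
    have h1 := hh_aeval (f := f) (g := g) (R := C (⟨x₀, hxM⟩ : M)) (α := 1) (x := x₀) (y := z)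
      (by rw [map_one, one_mul, aeval_C]; rfl)
    unfold nR
    rw [map_sub, map_mul, h1, map_one, ← hn z, map_pow, map_pow, map_add, map_mul, map_one, aeval_C,
      aeval_C, aeval_X]
    simp only [one_pow, one_mul]
    rfl
  have hmap : (nR f g (C (⟨x₀, hxM⟩ : M)) 1
      (C (⟨a, haM⟩ : M) * X + C (⟨b, hbM⟩ : M)) 1).map (algebraMap M Ω) =
      C c * ((X - C y₀) * (X - C y₁) * (X - C y₂)) := by
    refine Polynomial.funext fun z => ?_
    rw [eval_map_algebraMap, hval]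
    simp
  refine rel_cl M (R := C (⟨x₀, hxM⟩ : M)) (α := 1) (A₁ := C (⟨a, haM⟩ : M) * X + C (⟨b, hbM⟩ : M))
    (A₂ := 1) isCoprime_one_right hns (nR_ne hns (Or.inr one_ne_zero)) h₀ ?_ hMfix ?_ ?_
  · rw [map_one, one_mul, aeval_C]
    rfl
  · rw [hmap, cl_mult hc, if_pos rfl]
    by_cases h12 : y₁ = y₂
    · rw [h12, add_assoc, ← two_mul]
      exact odd_one.add_even (even_two_mul _)
    · rw [if_neg fun h => hy ⟨h12, Or.inl h⟩, if_neg fun h => hy ⟨h12, Or.inr h⟩]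
      exact odd_one
  · intro x y w hS hxx hod hne
    have hx : x = x₀ := by
      rw [map_one, one_mul, aeval_C] at hxx
      exact hxx
    subst hx
    have hy0 : y ≠ y₀ := fun h => hne 1 (one_mem _) h.symm
    rw [hmap, cl_mult hc, if_neg hy0, zero_add] at hod
    by_cases h12 : y₁ = y₂
    · rw [h12, ← two_mul] at hod
      exact absurd (even_two_mul _) (Nat.not_even_iff_odd.2 hod)
    · by_cases h1 : y = y₁
      · rw [h1] at hS ⊢
        exact h₁ h12 w hS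
      · by_cases h2 : y = y₂
        · rw [h2] at hS ⊢
          exact h₂ h12 w hS
        · rw [if_neg h1, if_neg h2] at hod
          exact absurd hod (by decide)

/-- **Halves.** Let `4 (X - e 0) (X - e 1) (X - e 2)` be `g`. Proof: with `d = f(x)`, `s = ∑ ρ i`, `P = ∏ ρ i`, `t = ρ 0 ρ 1 + ρ 0 ρ 2 + ρ 1 ρ 2`: `(2 s (X - y) - 2 P / d) ^ 2 - d g = - 4 d (X - y) (X - y - t / d) ^ 2`. `line_y` with `a = 2 s`,
`b = - 2 s y - 2 P / d`, `y₁ = y₂ = y + t / d`; `s`, `P` are invariant under the automorphisms which fix `x`, `y`, `w`. -/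
theorem half_tp {x y w : Ω} (h : Sp f g x y w) (e ρ : Fin 3 → Ω)
    (he : ∀ z : Ω, aeval z g = 4 * ((z - e 0) * (z - e 1) * (z - e 2)))
    (hρ : ∀ i, ρ i ^ 2 = aeval x f * (y - e i))
    (hγ : ∀ γ : Ω ≃ₐ[K] Ω, γ x = x → γ y = y → γ w = w →
      ∃ τ : Equiv.Perm (Fin 3), ∀ i, γ (e i) = e (τ i) ∧ γ (ρ i) = ρ (τ i)) :
    Tp f g K (kp f g x y w) := by
  have hcz : CharZero Ω := charZero_of_injective_algebraMap (algebraMap K Ω).injective
  have hd : aeval x f ≠ 0 := h.fx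
  have hr0 := hρ 0
  have hr1 := hρ 1
  have hr2 := hρ 2
  set d : Ω := aeval x f with hdd
  have he0 : e 0 = y - ρ 0 ^ 2 / d := by
    rw [hr0]
    field_simp
    ring
  have he1 : e 1 = y - ρ 1 ^ 2 / d := by
    rw [hr1]
    field_simp
    ring
  have he2 : e 2 = y - ρ 2 ^ 2 / d := by
    rw [hr2]
    field_simp
    ring
  refine line_y (a := 2 * (ρ 0 + ρ 1 + ρ 2))
    (b := - (2 * (ρ 0 + ρ 1 + ρ 2) * y) - 2 * (ρ 0 * ρ 1 * ρ 2) / d) (c := -4 * d)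
    (y₁ := y + (ρ 0 * ρ 1 + ρ 0 * ρ 2 + ρ 1 * ρ 2) / d)
    (y₂ := y + (ρ 0 * ρ 1 + ρ 0 * ρ 2 + ρ 1 * ρ 2) / d) h ?_ ?_ ?_ (fun h => absurd rfl h)
    (fun h => absurd rfl h)
  · exact mul_ne_zero (by norm_num) hd
  · intro z
    rw [← hdd, he z, he0, he1, he2]
    field_simp
    ring
  · intro γ h1 h2 h3
    obtain ⟨τ, hτ⟩ := hγ γ h1 h2 h3
    have hdγ : γ d = d := by
      rw [hdd]
      have := aeval_algHom_apply ((γ.restrictScalars F : Ω ≃ₐ[F] Ω) : Ω →ₐ[F] Ω) x f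
      have h4 : ((γ.restrictScalars F : Ω ≃ₐ[F] Ω) : Ω →ₐ[F] Ω) x = x := h1
      rw [h4] at this
      exact this.symm
    have hs : γ (ρ 0 + ρ 1 + ρ 2) = ρ 0 + ρ 1 + ρ 2 := by
      have e1 : ∑ i, ρ i = ρ 0 + ρ 1 + ρ 2 := Fin.sum_univ_three ρ
      rw [← e1, map_sum, ← Equiv.sum_comp τ ρ]
      exact Finset.sum_congr rfl fun i _ => (hτ i).2
    have hp : γ (ρ 0 * ρ 1 * ρ 2) = ρ 0 * ρ 1 * ρ 2 := by
      have e1 : ∏ i, ρ i = ρ 0 * ρ 1 * ρ 2 := Fin.prod_univ_three ρ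
      rw [← e1, map_prod, ← Equiv.prod_comp τ ρ]
      exact Finset.prod_congr rfl fun i _ => (hτ i).2
    have h2' : γ 2 = 2 := map_ofNat γ 2
    constructor
    · rw [map_mul, hs, h2']
    · rw [map_sub, map_neg, map_mul, map_mul, map_div₀, map_mul, hs, hp, hdγ, h2, h2']

end PE
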