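import Pool.Agent.Lib.MP_f80667_ag.Pe.Ur

/-!
Counting the zeros of polynomials in discs. `Ω` is the algebraic closure with its absolute value.

* `gv P c ρ`: the absolute value of `P` at a generic point of the disc with centre `c` and radius `ρ`.
-/

open ZC BE Polynomial IntermediateField

namespace PE

/-- Approximate square roots of `1 / (1 + 4 X)` with integral coefficients. Proof: `C = 1`, `E = 1` for `n = 1`; if `C² (1 + 4 X) = 1 + 4 X ^ n E` then `C' = C (1 - 2 X ^ n E)` satisfies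
`C'² (1 + 4 X) = (1 + 4 t) (1 - 2 t)² = 1 + 4 t² (4 t - 3)` with `t = X ^ n E`. -/
theorem pw_sq (n : ℕ) : ∃ C E : ℤ[X], C ^ 2 * (1 + 4 * X) = 1 + 4 * X ^ n * E := by
  cases n with
  | zero => exact ⟨1, X, by simp⟩
  | succ n =>
    induction n with
    | zero => exact ⟨1, 1, by simp⟩
    | succ n ih =>
      obtain ⟨C, E, h⟩ := ih
      refine ⟨C * (1 - 2 * X ^ (n + 1) * E), X ^ n * E ^ 2 * (4 * X ^ (n + 1) * E - 3), ?_⟩
      have e : (C * (1 - 2 * X ^ (n + 1) * E)) ^ 2 * (1 + 4 * X) =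
          (C ^ 2 * (1 + 4 * X)) * (1 - 2 * X ^ (n + 1) * E) ^ 2 := by ring
      rw [e, h]
      ring

namespace Ld

variable {K Ω : Type} [Field K] [CharZero K] [Field Ω] [Algebra K Ω] [IsAlgClosure K Ω]

/-- The generic value. -/
noncomputable def gv (L : Ld K Ω) (P : Polynomial Ω) (c : Ω) (ρ : ℝ) : ℝ :=
  L.nm P.leadingCoeff * (P.roots.map fun ζ => max ρ (L.nm (c - ζ))).prod

/-- Generic points. Proof: `z = c + ϖ θ`, `θ` a unit whose residue is different from `0` and from the residues of the integral ones of the `(ζ - c) / ϖ`; the residue field is infinite (`exists_res` in `Pe/Tm.lean`, or `IsAlgClosed`). -/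
theorem gen_pt (L : Ld K Ω) (S : Finset Ω) (c : Ω) {ϖ : Ω} (h : ϖ ≠ 0) :
    ∃ z : Ω, L.nm (z - c) = L.nm ϖ ∧ ∀ ζ ∈ S, L.nm (z - ζ) = max (L.nm ϖ) (L.nm (c - ζ)) := by
  classical
  have hac : IsAlgClosed Ω := IsAlgClosure.isAlgClosed K
  have hκ : IsAlgClosed L.κ := L.κ_closed
  have hinf : Infinite L.κ := inferInstance
  obtain ⟨r, hr⟩ := Infinite.exists_notMem_finset
    (insert 0 (S.image fun ζ => L.rr ((ζ - c) / ϖ)))
  obtain ⟨θ, hθ⟩ := L.hv_surj r
  have hr0 : r ≠ 0 := fun h0 => hr (by rw [h0]; exact Finset.mem_insert_self _ _)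
  have hθ1 : L.nm θ = 1 := (L.hv_ne hθ).1 hr0
  refine ⟨c + ϖ * θ, by rw [add_sub_cancel_left, L.mul, hθ1, mul_one], fun ζ hζ => ?_⟩
  have e : c + ϖ * θ - ζ = ϖ * (θ - (ζ - c) / ϖ) := by
    rw [mul_sub, mul_div_cancel₀ _ h]
    ring
  have e2 : L.nm (c - ζ) = L.nm ϖ * L.nm ((ζ - c) / ϖ) := by
    rw [← L.mul, mul_div_cancel₀ _ h, L.sub_comm]
  rw [e, L.mul, e2]
  rcases le_or_gt (L.nm ((ζ - c) / ϖ)) 1 with h1 | h1
  · have h3 : r - L.rr ((ζ - c) / ϖ) ≠ 0 := sub_ne_zero.2 fun h4 =>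
      hr (Finset.mem_insert_of_mem (Finset.mem_image.2 ⟨ζ, hζ, h4.symm⟩))
    have h2 : L.nm (θ - (ζ - c) / ϖ) = 1 := (L.hv_ne (hθ.sub (L.hv_rr h1))).1 h3
    rw [h2, mul_one, max_eq_left (mul_le_of_le_one_right (L.nonneg _) h1)]
  · have h2 : L.nm (θ - (ζ - c) / ϖ) = L.nm ((ζ - c) / ϖ) := by
      rw [L.sub_comm, sub_eq_add_neg]
      exact L.add_eq' (by rw [L.neg, hθ1]; exact h1)
    rw [h2, max_eq_right (le_mul_of_one_le_right (L.nonneg _) h1.le)]

/-- The value of a polynomial at a generic point. Proof: `P` is the product of its leading coefficient and the factors `X - ζ`. -/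
theorem gv_eval (L : Ld K Ω) (P : Polynomial Ω) {c ϖ z : Ω}
    (h : ∀ ζ ∈ P.roots, L.nm (z - ζ) = max (L.nm ϖ) (L.nm (c - ζ))) :
    L.nm (P.eval z) = L.gv P c (L.nm ϖ) := by
  have hac : IsAlgClosed Ω := IsAlgClosure.isAlgClosed K
  have h1 : ∀ s : Multiset Ω, (∀ ζ ∈ s, L.nm (z - ζ) = max (L.nm ϖ) (L.nm (c - ζ))) →
      L.nm (s.map fun ζ => z - ζ).prod =
        (s.map fun ζ => max (L.nm ϖ) (L.nm (c - ζ))).prod := by
    intro s
    induction s using Multiset.induction_on with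
    | empty => simp [L.one]
    | cons a s ih =>
      intro h2
      rw [Multiset.map_cons, Multiset.prod_cons, Multiset.map_cons, Multiset.prod_cons, L.mul,
        ih fun ζ hζ => h2 ζ (Multiset.mem_cons_of_mem hζ), h2 a (Multiset.mem_cons_self a s)]
  unfold gv
  rw [← h1 _ h, ← L.mul]
  congr 1
  have h2 := congrArg (fun q => q.eval z) (IsAlgClosed.splits P).eq_prod_roots
  simp only [eval_mul, eval_C, eval_multiset_prod, Multiset.map_map] at h2
  rw [h2]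
  congr 2
  refine Multiset.map_congr rfl fun ζ _ => ?_
  simp

private theorem prod_max_pos {α : Type} (s : Multiset α) (f : α → ℝ) {ρ : ℝ} (hρ : 0 < ρ) :
    0 < (s.map fun ζ => max ρ (f ζ)).prod := by
  induction s using Multiset.induction_on with
  | empty => simp
  | cons a s ih =>
    rw [Multiset.map_cons, Multiset.prod_cons]
    exact mul_pos (hρ.trans_le (le_max_left _ _)) ih

private theorem prod_low {α : Type} (s : Multiset α) (f : α → ℝ) {ρ t : ℝ} (hρ : 0 < ρ)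
    (ht : 1 < t) : t ^ (s.filter fun ζ => f ζ ≤ ρ).card * (s.map fun ζ => max ρ (f ζ)).prod ≤
      (s.map fun ζ => max (t * ρ) (f ζ)).prod := by
  have ht0 : 0 < t := zero_lt_one.trans ht
  induction s using Multiset.induction_on with
  | empty => simp
  | cons a s ih =>
    have h0 := prod_max_pos s f hρ
    have h1 : 0 ≤ t ^ (s.filter fun ζ => f ζ ≤ ρ).card * (s.map fun ζ => max ρ (f ζ)).prod :=
      mul_nonneg (pow_nonneg ht0.le _) h0.le
    rw [Multiset.map_cons, Multiset.prod_cons, Multiset.map_cons, Multiset.prod_cons]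
    by_cases h : f a ≤ ρ
    · rw [Multiset.filter_cons_of_pos (p := fun ζ => f ζ ≤ ρ) _ h, Multiset.card_cons, max_eq_left h, pow_succ]
      calc _ = (t * ρ) * (t ^ (s.filter fun ζ => f ζ ≤ ρ).card *
            (s.map fun ζ => max ρ (f ζ)).prod) := by ring
        _ ≤ _ := mul_le_mul (le_max_left _ _) ih h1
            ((mul_pos ht0 hρ).le.trans (le_max_left _ _))
    · rw [Multiset.filter_cons_of_neg (p := fun ζ => f ζ ≤ ρ) _ h]
      calc _ = max ρ (f a) * (t ^ (s.filter fun ζ => f ζ ≤ ρ).card *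
            (s.map fun ζ => max ρ (f ζ)).prod) := by ring
        _ ≤ _ := mul_le_mul (max_le_max_right _ (le_mul_of_one_le_left hρ.le ht.le)) ih h1
            ((mul_pos ht0 hρ).le.trans (le_max_left _ _))

private theorem prod_upp {α : Type} (s : Multiset α) (f : α → ℝ) {ρ t : ℝ} (hρ : 0 < ρ)
    (ht : 1 < t) : (s.map fun ζ => max (t * ρ) (f ζ)).prod ≤
      t ^ (s.filter fun ζ => f ζ < t * ρ).card * (s.map fun ζ => max ρ (f ζ)).prod := by
  have ht0 : 0 < t := zero_lt_one.trans ht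
  have htρ : ρ ≤ t * ρ := le_mul_of_one_le_left hρ.le ht.le
  induction s using Multiset.induction_on with
  | empty => simp
  | cons a s ih =>
    have h0 := prod_max_pos s f (mul_pos ht0 hρ)
    rw [Multiset.map_cons, Multiset.prod_cons, Multiset.map_cons, Multiset.prod_cons]
    by_cases h : f a < t * ρ
    · rw [Multiset.filter_cons_of_pos (p := fun ζ => f ζ < t * ρ) _ h, Multiset.card_cons, max_eq_left h.le, pow_succ]
      calc _ ≤ (t * max ρ (f a)) * (t ^ (s.filter fun ζ => f ζ < t * ρ).card *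
            (s.map fun ζ => max ρ (f ζ)).prod) := mul_le_mul
              (mul_le_mul_of_nonneg_left (le_max_left _ _) ht0.le) ih h0.le
              (mul_nonneg ht0.le (hρ.le.trans (le_max_left _ _)))
        _ = _ := by ring
    · rw [Multiset.filter_cons_of_neg (p := fun ζ => f ζ < t * ρ) _ h]
      have h2 : t * ρ ≤ f a := not_lt.1 h
      rw [max_eq_right h2, max_eq_right (htρ.trans h2)]
      calc _ ≤ f a * (t ^ (s.filter fun ζ => f ζ < t * ρ).card *
            (s.map fun ζ => max ρ (f ζ)).prod) := mul_le_mul_of_nonneg_left ih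
              ((hρ.le.trans htρ).trans h2)
        _ = _ := by ring

/-- **Comparison.** Proof: `gen_pt` for the roots of `P` and `Q`: for `i = 1, 2` the generic values satisfy `gv P = κ gv Q`. The quotient of the generic values of `P` for the two radii is at least
`(nm ϖ₂ / nm ϖ₁) ^ k`, `k` the number of roots of `P` with `nm (c - ζ) ≤ nm ϖ₁`; for `Q` it is at most `(nm ϖ₂ / nm ϖ₁) ^ k'`, `k'` the number of roots with `nm (c - ζ) < nm ϖ₂`. -/
theorem cnt (L : Ld K Ω) {P Q : Polynomial Ω} (hP : P ≠ 0) (hQ : Q ≠ 0) {c ϖ₁ ϖ₂ : Ω}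
    (h0 : ϖ₁ ≠ 0) (h12 : L.nm ϖ₁ < L.nm ϖ₂) {δ κ : ℝ} (hκ : 0 < κ)
    (h : ∀ z : Ω, L.nm (z - c) ≤ L.nm ϖ₂ → δ < L.nm (Q.eval z) →
      L.nm (P.eval z) = κ * L.nm (Q.eval z))
    (hg₁ : δ < L.gv Q c (L.nm ϖ₁)) (hg₂ : δ < L.gv Q c (L.nm ϖ₂)) :
    (P.roots.filter fun ζ => L.nm (c - ζ) ≤ L.nm ϖ₁).card ≤
      (Q.roots.filter fun ζ => L.nm (c - ζ) < L.nm ϖ₂).card := by
  classical
  have hρ : 0 < L.nm ϖ₁ := L.pos h0
  have hϖ₂ : ϖ₂ ≠ 0 := L.ne_zero (hρ.trans h12)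
  obtain ⟨t, ht1, ht⟩ : ∃ t : ℝ, 1 < t ∧ t * L.nm ϖ₁ = L.nm ϖ₂ :=
    ⟨L.nm ϖ₂ / L.nm ϖ₁, (one_lt_div hρ).2 h12, div_mul_cancel₀ _ hρ.ne'⟩
  have key : ∀ ϖ : Ω, ϖ ≠ 0 → L.nm ϖ ≤ L.nm ϖ₂ → δ < L.gv Q c (L.nm ϖ) →
      L.gv P c (L.nm ϖ) = κ * L.gv Q c (L.nm ϖ) := by
    intro ϖ hϖ hle hg
    obtain ⟨z, hz, hz2⟩ := L.gen_pt (P.roots + Q.roots).toFinset c hϖ
    have hPz : L.nm (P.eval z) = L.gv P c (L.nm ϖ) := L.gv_eval P fun ζ hζ =>
      hz2 ζ (Multiset.mem_toFinset.2 (Multiset.mem_add.2 (Or.inl hζ)))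
    have hQz : L.nm (Q.eval z) = L.gv Q c (L.nm ϖ) := L.gv_eval Q fun ζ hζ =>
      hz2 ζ (Multiset.mem_toFinset.2 (Multiset.mem_add.2 (Or.inr hζ)))
    rw [← hPz, ← hQz]
    exact h z (hz.le.trans hle) (by rw [hQz]; exact hg)
  have e1 := key ϖ₁ h0 h12.le hg₁
  have e2 := key ϖ₂ hϖ₂ le_rfl hg₂
  have hlP : 0 < L.nm P.leadingCoeff := L.pos (leadingCoeff_ne_zero.2 hP)
  have hlQ : 0 ≤ L.nm Q.leadingCoeff := L.nonneg _
  have hP1 := mul_le_mul_of_nonneg_left
    (prod_low P.roots (fun ζ => L.nm (c - ζ)) hρ ht1) hlP.le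
  have hQ1 := mul_le_mul_of_nonneg_left
    (prod_upp Q.roots (fun ζ => L.nm (c - ζ)) hρ ht1) (mul_nonneg hκ.le hlQ)
  rw [ht] at hP1 hQ1
  have hpos : 0 < L.gv P c (L.nm ϖ₁) := by
    unfold gv
    exact mul_pos hlP (prod_max_pos _ _ hρ)
  unfold gv at e1 e2 hpos
  refine (pow_le_pow_iff_right₀ ht1).1 ?_
  refine le_of_mul_le_mul_right ?_ hpos
  calc _ = L.nm P.leadingCoeff * (t ^ (P.roots.filter fun ζ => L.nm (c - ζ) ≤ L.nm ϖ₁).card *
        (P.roots.map fun ζ => max (L.nm ϖ₁) (L.nm (c - ζ))).prod) := by ring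
    _ ≤ L.nm P.leadingCoeff * (P.roots.map fun ζ => max (L.nm ϖ₂) (L.nm (c - ζ))).prod := hP1
    _ = κ * (L.nm Q.leadingCoeff * (Q.roots.map fun ζ => max (L.nm ϖ₂) (L.nm (c - ζ))).prod) := e2
    _ = κ * L.nm Q.leadingCoeff *
        (Q.roots.map fun ζ => max (L.nm ϖ₂) (L.nm (c - ζ))).prod := by ring
    _ ≤ κ * L.nm Q.leadingCoeff * (t ^ (Q.roots.filter fun ζ => L.nm (c - ζ) < L.nm ϖ₂).card *
        (Q.roots.map fun ζ => max (L.nm ϖ₁) (L.nm (c - ζ))).prod) := hQ1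
    _ = t ^ (Q.roots.filter fun ζ => L.nm (c - ζ) < L.nm ϖ₂).card *
        (κ * (L.nm Q.leadingCoeff *
          (Q.roots.map fun ζ => max (L.nm ϖ₁) (L.nm (c - ζ))).prod)) := by ring
    _ = _ := by rw [← e1]

/-- A small perturbation. Proof: `cnt` with `c = 0`, `κ = 1`, `ϖ₁ = ϖ`, `ϖ₂ = ϖ / 2` (`nm 2 < 1` only if the residue characteristic is two; take `ϖ / p`), `δ` a bound of `E` on the larger disc. -/
theorem cnt_small (L : Ld K Ω) {Q : Polynomial Ω} (hQ : Q ≠ 0) (m : ℕ) {ϖ : Ω} (h : ϖ ≠ 0) :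
    ∃ ε : ℝ, 0 < ε ∧ ∀ E : Polynomial Ω, E.natDegree ≤ m → (∀ i, L.nm (E.coeff i) ≤ ε) →
      Q + E ≠ 0 ∧ ((Q + E).roots.filter fun ζ => L.nm ζ ≤ L.nm ϖ).card ≤ Q.natDegree := by
  classical
  have hpp := L.p_pos
  have hp0 : (L.p : Ω) ≠ 0 := L.ne_zero hpp
  have hρ : 0 < L.nm ϖ := L.pos h
  obtain ⟨ϖ₂, hϖ₂⟩ : ∃ ϖ₂ : Ω, ϖ₂ = ϖ / (L.p : Ω) := ⟨_, rfl⟩
  have h12 : L.nm ϖ < L.nm ϖ₂ := by
    rw [hϖ₂, L.div, lt_div_iff₀ hpp]
    exact mul_lt_of_lt_one_right hρ L.lt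
  have hlQ : 0 < L.nm Q.leadingCoeff := L.pos (leadingCoeff_ne_zero.2 hQ)
  have hg1 : 0 < L.gv Q 0 (L.nm ϖ) := by
    unfold gv
    exact mul_pos hlQ (prod_max_pos _ _ hρ)
  have hg2 : L.gv Q 0 (L.nm ϖ) ≤ L.gv Q 0 (L.nm ϖ₂) := by
    unfold gv
    refine mul_le_mul_of_nonneg_left ?_ hlQ.le
    generalize Q.roots = s
    induction s using Multiset.induction_on with
    | empty => simp
    | cons a s ih =>
      rw [Multiset.map_cons, Multiset.prod_cons, Multiset.map_cons, Multiset.prod_cons]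
      exact mul_le_mul (max_le_max_right _ h12.le) ih (prod_max_pos _ _ hρ).le
        ((hρ.trans h12).le.trans (le_max_left _ _))
  obtain ⟨δ, hδ⟩ : ∃ δ, δ = L.gv Q 0 (L.nm ϖ) / 2 := ⟨_, rfl⟩
  have hδ0 : 0 < δ := by rw [hδ]; exact half_pos hg1
  have hδ1 : δ < L.gv Q 0 (L.nm ϖ) := by rw [hδ]; exact half_lt_self hg1
  obtain ⟨R, hR⟩ : ∃ R, R = max 1 (L.nm ϖ₂) := ⟨_, rfl⟩
  have hR1 : 1 ≤ R := by rw [hR]; exact le_max_left _ _
  have hR2 : L.nm ϖ₂ ≤ R := by rw [hR]; exact le_max_right _ _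
  have hR0 : 0 < R := zero_lt_one.trans_le hR1
  refine ⟨δ / R ^ m, div_pos hδ0 (pow_pos hR0 m), fun E hE hco => ?_⟩
  have hev : ∀ z : Ω, L.nm z ≤ L.nm ϖ₂ → L.nm (E.eval z) ≤ δ := by
    intro z hz
    rw [eval_eq_sum_range]
    refine L.sum_le _ _ hδ0.le fun i hi => ?_
    have hi' : i ≤ m := (Nat.lt_succ_iff.1 (Finset.mem_range.1 hi)).trans hE
    rw [L.mul, L.pow]
    calc L.nm (E.coeff i) * L.nm z ^ i ≤ δ / R ^ m * R ^ m := by
          refine mul_le_mul (hco i) ?_ (pow_nonneg (L.nonneg _) _)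
            (div_pos hδ0 (pow_pos hR0 m)).le
          exact (pow_le_pow_left₀ (L.nonneg _) (hz.trans hR2) i).trans
            (pow_le_pow_right₀ hR1 hi')
      _ = δ := div_mul_cancel₀ _ (pow_pos hR0 m).ne'
  have hne : Q + E ≠ 0 := by
    intro h0
    obtain ⟨z, hz, hz2⟩ := L.gen_pt Q.roots.toFinset 0 h
    have hQz : L.nm (Q.eval z) = L.gv Q 0 (L.nm ϖ) := L.gv_eval Q fun ζ hζ =>
      hz2 ζ (Multiset.mem_toFinset.2 hζ)
    rw [sub_zero] at hz
    have h3 := hev z (hz.le.trans h12.le)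
    have h4 : Q.eval z + E.eval z = 0 := by rw [← eval_add, h0, eval_zero]
    have h5 : Q.eval z = - E.eval z := eq_neg_of_add_eq_zero_left h4
    rw [h5, L.neg] at hQz
    rw [hQz] at h3
    exact absurd h3 (not_le.2 hδ1)
  refine ⟨hne, ?_⟩
  have hcnt := L.cnt (P := Q + E) (Q := Q) hne hQ (c := 0) h h12 (δ := δ) (κ := 1) one_pos
    (fun z hz hlt => ?_) hδ1 (hδ1.trans_le hg2)
  · have h1 : ((Q + E).roots.filter fun ζ => L.nm ζ ≤ L.nm ϖ) =
        (Q + E).roots.filter fun ζ => L.nm (0 - ζ) ≤ L.nm ϖ := by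
      refine Multiset.filter_congr fun ζ _ => ?_
      rw [zero_sub, L.neg]
    rw [h1]
    exact hcnt.trans ((Multiset.card_le_card (Multiset.filter_le _ _)).trans (card_roots' Q))
  · rw [sub_zero] at hz
    rw [one_mul, eval_add]
    exact L.add_eq' ((hev z hz).trans_lt hlt)

omit [CharZero K] [IsAlgClosure K Ω] in
private theorem ev_bdd' (L : Ld K Ω) (P : Polynomial Ω) (r : ℝ) :
    ∃ B : ℝ, 0 < B ∧ ∀ z : Ω, L.nm z ≤ r → L.nm (P.eval z) ≤ B := by
  have hR : 0 < max 1 r := zero_lt_one.trans_le (le_max_left _ _)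
  have hs : 0 ≤ ∑ i ∈ Finset.range (P.natDegree + 1), L.nm (P.coeff i) * max 1 r ^ i :=
    Finset.sum_nonneg fun i _ => mul_nonneg (L.nonneg _) (pow_nonneg hR.le _)
  refine ⟨1 + ∑ i ∈ Finset.range (P.natDegree + 1), L.nm (P.coeff i) * max 1 r ^ i,
    by linarith, fun z hz => ?_⟩
  rw [eval_eq_sum_range]
  refine L.sum_le _ _ (by linarith) fun i hi => ?_
  rw [L.mul, L.pow]
  have h1 : L.nm (P.coeff i) * L.nm z ^ i ≤ L.nm (P.coeff i) * max 1 r ^ i :=
    mul_le_mul_of_nonneg_left (pow_le_pow_left₀ (L.nonneg _) (hz.trans (le_max_right _ _)) i)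
      (L.nonneg _)
  have h2 : L.nm (P.coeff i) * max 1 r ^ i ≤
      ∑ j ∈ Finset.range (P.natDegree + 1), L.nm (P.coeff j) * max 1 r ^ j :=
    Finset.single_le_sum (f := fun j => L.nm (P.coeff j) * max 1 r ^ j)
      (fun j _ => mul_nonneg (L.nonneg _) (pow_nonneg hR.le _)) hi
  linarith

/-- Polynomials are continuous. -/
theorem ev_cont (L : Ld K Ω) (P : Polynomial Ω) (c : Ω) {ε : ℝ} (hε : 0 < ε) :
    ∃ δ : ℝ, 0 < δ ∧ ∀ z : Ω, L.nm (z - c) ≤ δ → L.nm (P.eval z - P.eval c) < ε := by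
  obtain ⟨B, hB, hB2⟩ := ev_bdd' L (P /ₘ (X - C c)) (max 1 (L.nm c))
  have hdiv : (X - C c) * (P /ₘ (X - C c)) = P - C (P.eval c) := by
    have h1 := modByMonic_add_div P (X - C c)
    rw [modByMonic_X_sub_C_eq_C_eval] at h1
    exact eq_sub_of_add_eq' h1
  refine ⟨min 1 (ε / (2 * B)), lt_min one_pos (div_pos hε (mul_pos two_pos hB)),
    fun z hz => ?_⟩
  have h2 : P.eval z - P.eval c = (z - c) * (P /ₘ (X - C c)).eval z := by
    have h3 := congrArg (fun q => q.eval z) hdiv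
    simp only [eval_mul, eval_sub, eval_X, eval_C] at h3
    exact h3.symm
  have hzc : L.nm z ≤ max 1 (L.nm c) := by
    have h4 := L.add (z - c) c
    rw [sub_add_cancel] at h4
    exact h4.trans (max_le_max_right _ (hz.trans (min_le_left _ _)))
  rw [h2, L.mul]
  calc L.nm (z - c) * L.nm ((P /ₘ (X - C c)).eval z) ≤ ε / (2 * B) * B :=
        mul_le_mul (hz.trans (min_le_right _ _)) (hB2 z hzc) (L.nonneg _)
          (div_pos hε (mul_pos two_pos hB)).le
    _ = ε / 2 := by field_simp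
    _ < ε := half_lt_self hε

/-- Polynomials are bounded on discs. -/
theorem ev_bdd (L : Ld K Ω) (P : Polynomial Ω) (r : ℝ) :
    ∃ B : ℝ, 0 < B ∧ ∀ z : Ω, L.nm z ≤ r → L.nm (P.eval z) ≤ B :=
  ev_bdd' L P r

private theorem exists_lower {ι : Type} (S : Finset ι) (f : ι → ℝ) (h : ∀ i ∈ S, 0 < f i) :
    ∃ r : ℝ, 0 < r ∧ ∀ i ∈ S, r ≤ f i := by
  classical
  induction S using Finset.induction_on with
  | empty => exact ⟨1, one_pos, fun i hi => absurd hi (Finset.notMem_empty i)⟩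
  | insert a S ha ih =>
    obtain ⟨r, hr, h1⟩ := ih fun i hi => h i (Finset.mem_insert_of_mem hi)
    refine ⟨min r (f a), lt_min hr (h a (Finset.mem_insert_self a S)), fun i hi => ?_⟩
    rcases Finset.mem_insert.1 hi with rfl | hi
    · exact min_le_right _ _
    · exact (min_le_left _ _).trans (h1 i hi)

private theorem card_le_cover {α β : Type} (M : Multiset α) (T : Finset β) (r : β → α → Prop)
    [∀ b, DecidablePred (r b)] (h : ∀ z ∈ M, ∃ c ∈ T, r c z) :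
    M.card ≤ ∑ c ∈ T, (M.filter (r c)).card := by
  induction M using Multiset.induction_on with
  | empty => simp
  | cons a M ih =>
    have h1 := ih fun z hz => h z (Multiset.mem_cons_of_mem hz)
    obtain ⟨c, hc, hca⟩ := h a (Multiset.mem_cons_self a M)
    rw [Multiset.card_cons]
    have h2 : ∑ c ∈ T, (M.filter (r c)).card < ∑ c ∈ T, ((a ::ₘ M).filter (r c)).card := by
      refine Finset.sum_lt_sum (fun i _ => Multiset.card_le_card
        (Multiset.filter_le_filter _ (Multiset.le_cons_self M a))) ⟨c, hc, ?_⟩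
      rw [Multiset.filter_cons_of_pos M hca, Multiset.card_cons]
      exact Nat.lt_succ_self _
    omega

private theorem sum_count_le {α : Type} [DecidableEq α] (M : Multiset α) (T : Finset α) :
    ∑ c ∈ T, M.count c ≤ M.card := by
  rw [← Multiset.toFinset_sum_count_eq M]
  refine (Finset.sum_le_sum_of_subset (Finset.subset_union_left (s₂ := M.toFinset))).trans
    (le_of_eq ?_)
  symm
  refine Finset.sum_subset Finset.subset_union_right fun c _ hc => ?_
  rw [Multiset.count_eq_zero]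
  exact fun hm => hc (Multiset.mem_toFinset.2 hm)

/-- The region `1 < |z| < |4|⁻¹`, `|α₁(z)|² < |2| |α₂(z)|²`. -/
def Rg (L : Ld K Ω) (α₁ α₂ : Polynomial Ω) (z : Ω) : Prop :=
  1 < L.nm z ∧ L.nm 4 * L.nm z < 1 ∧ L.nm (α₁.eval z) ^ 2 < L.nm 2 * L.nm (α₂.eval z) ^ 2

/-- Around every zero `c` of `n` there is a disc which is contained in the region or disjoint from it; in the first case the absolute value of `α₂` is constant on it. Proof: `nm z` is constant near `c ≠ 0`. If `α₂(c) ≠ 0` then `nm (α₂ z)` is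
constant near `c` and `nm (α₁ z) ^ 2 < nm 2 nm (α₂ z) ^ 2` is equivalent to the inequality for `c` (if `α₁(c) ≠ 0` the value is constant; if `α₁(c) = 0` it holds near `c`). If `α₂(c) = 0` then `α₁(c) ≠ 0` and the inequality fails near `c`. If `nm c ≤ 1` or
`1 ≤ nm 4 nm c` then the same holds near `c` (radius less than `1`). -/
theorem rg_disc (L : Ld K Ω) {α₁ α₂ : Polynomial Ω} (hc : IsCoprime α₁ α₂) (c : Ω) :
    ∃ δ : ℝ, 0 < δ ∧ ((∀ z : Ω, L.nm (z - c) ≤ δ → L.Rg α₁ α₂ z ∧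
        L.nm (α₂.eval z) = L.nm (α₂.eval c)) ∨ ∀ z : Ω, L.nm (z - c) ≤ δ → ¬ L.Rg α₁ α₂ z) := by
  have hch : CharZero Ω := charZero_of_injective_algebraMap (algebraMap K Ω).injective
  have h2 : 0 < L.nm (2 : Ω) := L.pos two_ne_zero
  have hloc : ∀ P : Polynomial Ω, P.eval c ≠ 0 → ∃ δ : ℝ, 0 < δ ∧ ∀ z : Ω, L.nm (z - c) ≤ δ →
      L.nm (P.eval z) = L.nm (P.eval c) := by
    intro P hP
    obtain ⟨δ, hδ, h⟩ := L.ev_cont P c (L.pos hP)
    exact ⟨δ, hδ, fun z hz => L.eq_of_close (h z hz)⟩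
  by_cases hc0 : c = 0
  · refine ⟨1, one_pos, Or.inr fun z hz hR => ?_⟩
    rw [hc0, sub_zero] at hz
    exact absurd hR.1 (not_lt.2 hz)
  have hcp : 0 < L.nm c := L.pos hc0
  have hnc : ∀ z : Ω, L.nm (z - c) ≤ L.nm c / 2 → L.nm z = L.nm c := fun z hz =>
    L.eq_of_close (lt_of_le_of_lt hz (half_lt_self hcp))
  by_cases hcr : 1 < L.nm c ∧ L.nm 4 * L.nm c < 1
  swap
  · refine ⟨L.nm c / 2, half_pos hcp, Or.inr fun z hz hR => hcr ?_⟩
    rw [← hnc z hz]
    exact ⟨hR.1, hR.2.1⟩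
  by_cases ha2 : α₂.eval c = 0
  · have ha1 : α₁.eval c ≠ 0 := by
      intro h1
      obtain ⟨u, v, huv⟩ := hc
      have h3 := congrArg (fun q => q.eval c) huv
      simp only [eval_add, eval_mul, h1, ha2, mul_zero, add_zero, eval_one] at h3
      exact zero_ne_one h3
    obtain ⟨δ₁, hδ₁, h1⟩ := hloc α₁ ha1
    obtain ⟨δ₂, hδ₂, h3⟩ := L.ev_cont α₂ c (L.pos ha1)
    refine ⟨min δ₁ δ₂, lt_min hδ₁ hδ₂, Or.inr fun z hz hR => ?_⟩
    have h4 := h1 z (hz.trans (min_le_left _ _))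
    have h5 := h3 z (hz.trans (min_le_right _ _))
    rw [ha2, sub_zero] at h5
    have h6 := hR.2.2
    rw [h4] at h6
    have h7 : L.nm (α₂.eval z) ^ 2 < L.nm (α₁.eval c) ^ 2 :=
      pow_lt_pow_left₀ h5 (L.nonneg _) two_ne_zero
    have h8 : L.nm (2 : Ω) * L.nm (α₂.eval z) ^ 2 ≤ L.nm (α₂.eval z) ^ 2 :=
      mul_le_of_le_one_left (pow_nonneg (L.nonneg _) 2) L.two_le
    exact lt_irrefl _ (h6.trans_le (h8.trans h7.le))
  · obtain ⟨δ₂, hδ₂, h3⟩ := hloc α₂ ha2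
    have hA2 : 0 < L.nm (α₂.eval c) := L.pos ha2
    by_cases ha1 : α₁.eval c = 0
    · obtain ⟨δ₁, hδ₁, h1⟩ := L.ev_cont α₁ c (mul_pos h2 hA2)
      refine ⟨min (L.nm c / 2) (min δ₁ δ₂), lt_min (half_pos hcp) (lt_min hδ₁ hδ₂),
        Or.inl fun z hz => ?_⟩
      have h4 := h1 z (hz.trans ((min_le_right _ _).trans (min_le_left _ _)))
      have h5 := h3 z (hz.trans ((min_le_right _ _).trans (min_le_right _ _)))
      have h6 := hnc z (hz.trans (min_le_left _ _))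
      rw [ha1, sub_zero] at h4
      refine ⟨⟨?_, ?_, ?_⟩, h5⟩
      · rw [h6]
        exact hcr.1
      · rw [h6]
        exact hcr.2
      · rw [h5]
        have h7 := pow_lt_pow_left₀ h4 (L.nonneg _) two_ne_zero
        refine h7.trans_le ?_
        rw [mul_pow, sq (L.nm (2 : Ω)), mul_assoc]
        exact mul_le_of_le_one_left (mul_nonneg h2.le (pow_nonneg hA2.le 2)) L.two_le
    · obtain ⟨δ₁, hδ₁, h1⟩ := hloc α₁ ha1
      refine ⟨min (L.nm c / 2) (min δ₁ δ₂), lt_min (half_pos hcp) (lt_min hδ₁ hδ₂), ?_⟩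
      have h4 : ∀ z : Ω, L.nm (z - c) ≤ min (L.nm c / 2) (min δ₁ δ₂) →
          L.nm (α₁.eval z) = L.nm (α₁.eval c) := fun z hz =>
        h1 z (hz.trans ((min_le_right _ _).trans (min_le_left _ _)))
      have h5 : ∀ z : Ω, L.nm (z - c) ≤ min (L.nm c / 2) (min δ₁ δ₂) →
          L.nm (α₂.eval z) = L.nm (α₂.eval c) := fun z hz =>
        h3 z (hz.trans ((min_le_right _ _).trans (min_le_right _ _)))
      have h6 : ∀ z : Ω, L.nm (z - c) ≤ min (L.nm c / 2) (min δ₁ δ₂) → L.nm z = L.nm c :=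
        fun z hz => hnc z (hz.trans (min_le_left _ _))
      by_cases hin : L.nm (α₁.eval c) ^ 2 < L.nm 2 * L.nm (α₂.eval c) ^ 2
      · refine Or.inl fun z hz => ⟨⟨?_, ?_, ?_⟩, h5 z hz⟩
        · rw [h6 z hz]
          exact hcr.1
        · rw [h6 z hz]
          exact hcr.2
        · rw [h4 z hz, h5 z hz]
          exact hin
      · refine Or.inr fun z hz hR => hin ?_
        have h7 := hR.2.2
        rwa [h4 z hz, h5 z hz] at h7

/-- **The number of zeros in the region.** `P` is close to `α₂ ^ k n` in the region. Proof: let `c` run through the distinct zeros of `n`. Choose `r₀ > 0` less than all `δ` of `rg_disc` and less than the distances of different zeros, `r₀ = nm ϖ₀`, `ϖ₀` a power of `p`, `ϖ₁ = p ϖ₀`, and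
`δ < nm (n.leadingCoeff) nm (ϖ₁) ^ (natDegree n)`. Let `z` be a root of `Q` (so in the region, `P(z) = 0`): `nm (n(z)) ≤ δ` (`α₂(z) ≠ 0`), so `nm (z - c) ≤ nm ϖ₁` for some zero `c` of `n`, whose disc of radius `r₀` meets the region, hence is contained in it. By `cnt` for the
disc with centre `c` (`κ = nm (α₂ c) ^ k`; `gv n c (nm ϖ₁) > δ`) the number of roots of `P`, hence of `Q`, with `nm (c - z) ≤ nm ϖ₁` is at most the multiplicity of `c` in `n` (the other zeros of `n` have distance `> r₀`). Sum over the distinct `c`; all these `c` have `nm 4 nm c < 1`. -/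
theorem dcount (L : Ld K Ω) {n α₁ α₂ : Polynomial Ω} (hn : n ≠ 0) (hc : IsCoprime α₁ α₂) :
    ∃ δ : ℝ, 0 < δ ∧ ∀ (k : ℕ) (P : Polynomial Ω), P ≠ 0 →
      (∀ z : Ω, L.Rg α₁ α₂ z →
        L.nm (P.eval z - α₂.eval z ^ k * n.eval z) ≤ L.nm (α₂.eval z) ^ k * δ) →
      ∀ Q : Polynomial Ω, Q ∣ P → (∀ z ∈ Q.roots, L.Rg α₁ α₂ z) →
        Q.natDegree ≤ (n.roots.filter fun ζ => L.nm ζ ≤ L.nm (4 : Ω)⁻¹).card := by
  classical
  have hch : CharZero Ω := charZero_of_injective_algebraMap (algebraMap K Ω).injective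
  have hac : IsAlgClosed Ω := IsAlgClosure.isAlgClosed K
  choose d hd hdd using L.rg_disc hc
  have hlc : 0 < L.nm n.leadingCoeff := L.pos (leadingCoeff_ne_zero.2 hn)
  have hpp := L.p_pos
  have hp0 : (L.p : Ω) ≠ 0 := L.ne_zero hpp
  -- the radius
  obtain ⟨r, hr, hrd, hrc⟩ : ∃ r : ℝ, 0 < r ∧ (∀ c ∈ n.roots.toFinset, r ≤ d c) ∧
      ∀ c ∈ n.roots.toFinset, ∀ c' ∈ n.roots.toFinset, c ≠ c' → r ≤ L.nm (c - c') := by
    obtain ⟨r₁, hr₁, h1⟩ := exists_lower n.roots.toFinset d fun c _ => hd c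
    obtain ⟨r₂, hr₂, h2⟩ := exists_lower (n.roots.toFinset ×ˢ n.roots.toFinset)
      (fun x => if x.1 = x.2 then 1 else L.nm (x.1 - x.2)) (fun x _ => by
        split_ifs with h
        · exact one_pos
        · exact L.pos (sub_ne_zero.2 h))
    refine ⟨min r₁ r₂, lt_min hr₁ hr₂, fun c hc => (min_le_left _ _).trans (h1 c hc),
      fun c hc c' hc' hne => (min_le_right _ _).trans ?_⟩
    have h3 := h2 (c, c') (Finset.mem_product.2 ⟨hc, hc'⟩)
    dsimp only at h3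
    rwa [if_neg hne] at h3
  obtain ⟨j, hj⟩ := exists_pow_lt_of_lt_one hr L.lt
  obtain ⟨ϖ₀, hϖ₀⟩ : ∃ ϖ₀ : Ω, ϖ₀ = (L.p : Ω) ^ j := ⟨_, rfl⟩
  have hϖ₀n : ϖ₀ ≠ 0 := by
    rw [hϖ₀]
    exact pow_ne_zero _ hp0
  have hϖ₀r : L.nm ϖ₀ < r := by
    rw [hϖ₀, L.pow]
    exact hj
  obtain ⟨ϖ₁, hϖ₁⟩ : ∃ ϖ₁ : Ω, ϖ₁ = (L.p : Ω) * ϖ₀ := ⟨_, rfl⟩
  have hϖ₁n : ϖ₁ ≠ 0 := by
    rw [hϖ₁]
    exact mul_ne_zero hp0 hϖ₀n
  have h10 : L.nm ϖ₁ < L.nm ϖ₀ := by
    rw [hϖ₁, L.mul]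
    exact mul_lt_of_lt_one_left (L.pos hϖ₀n) L.lt
  have hw1 : 0 < L.nm ϖ₁ := L.pos hϖ₁n
  -- the bound
  have hprod : ∀ (s : Multiset Ω) (f : Ω → ℝ), (∀ ζ ∈ s, L.nm ϖ₁ ≤ f ζ) →
      L.nm ϖ₁ ^ s.card ≤ (s.map f).prod := by
    intro s f
    induction s using Multiset.induction_on with
    | empty =>
      intro _
      simp
    | cons a s ih =>
      intro h
      rw [Multiset.card_cons, pow_succ, Multiset.map_cons, Multiset.prod_cons, mul_comm (f a)]
      have h1 := ih fun ζ hζ => h ζ (Multiset.mem_cons_of_mem hζ)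
      exact mul_le_mul h1 (h a (Multiset.mem_cons_self a s)) hw1.le
        ((pow_nonneg hw1.le _).trans h1)
  have hcard : n.roots.card = n.natDegree := IsAlgClosed.card_roots_eq_natDegree
  obtain ⟨b, hb⟩ : ∃ b, b = L.nm n.leadingCoeff * L.nm ϖ₁ ^ n.natDegree := ⟨_, rfl⟩
  have hb0 : 0 < b := by
    rw [hb]
    exact mul_pos hlc (pow_pos hw1 _)
  have hgv : ∀ (c : Ω) (ρ : ℝ), L.nm ϖ₁ ≤ ρ → b / 2 < L.gv n c ρ := by
    intro c ρ hρ
    refine (half_lt_self hb0).trans_le ?_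
    unfold gv
    rw [hb, ← hcard]
    exact mul_le_mul_of_nonneg_left (hprod _ _ fun ζ _ => hρ.trans (le_max_left _ _)) hlc.le
  have hnear : ∀ z : Ω, L.nm (n.eval z) ≤ b / 2 → ∃ c ∈ n.roots.toFinset,
      L.nm (c - z) ≤ L.nm ϖ₁ := by
    intro z hz
    by_contra hno
    push Not at hno
    have h1 : L.nm (n.eval z) = L.nm n.leadingCoeff *
        (n.roots.map fun ζ => L.nm (z - ζ)).prod := by
      have h2 := congrArg (fun q => q.eval z) (IsAlgClosed.splits n).eq_prod_roots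
      simp only [eval_mul, eval_C, eval_multiset_prod, Multiset.map_map] at h2
      rw [h2, L.mul]
      congr 1
      generalize n.roots = s
      induction s using Multiset.induction_on with
      | empty => simp [L.one]
      | cons a s ih =>
        rw [Multiset.map_cons, Multiset.prod_cons, Multiset.map_cons, Multiset.prod_cons, L.mul,
          ih]
        simp
    have h3 : b ≤ L.nm (n.eval z) := by
      rw [h1, hb, ← hcard]
      refine mul_le_mul_of_nonneg_left (hprod _ _ fun ζ hζ => ?_) hlc.le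
      rw [L.sub_comm]
      exact (hno ζ (Multiset.mem_toFinset.2 hζ)).le
    exact absurd (h3.trans hz) (not_le.2 (half_lt_self hb0))
  refine ⟨b / 2, half_pos hb0, fun k P hP hclose Q hQP hQ => ?_⟩
  have hQ0 : Q ≠ 0 := ne_zero_of_dvd_ne_zero hP hQP
  rw [← IsAlgClosed.card_roots_eq_natDegree (p := Q)]
  have hRne : ∀ z : Ω, L.Rg α₁ α₂ z → 0 < L.nm (α₂.eval z) := by
    intro z hz
    refine L.pos fun h0 => ?_
    have h1 := hz.2.2
    rw [h0, L.zero] at h1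
    have h2 : (0 : ℝ) ≤ L.nm (α₁.eval z) ^ 2 := pow_nonneg (L.nonneg _) 2
    rw [zero_pow two_ne_zero, mul_zero] at h1
    exact absurd h1 (not_lt.2 h2)
  -- the good centres
  set T := n.roots.toFinset.filter fun c => L.Rg α₁ α₂ c ∧ ∀ z : Ω, L.nm (z - c) ≤ d c →
    L.Rg α₁ α₂ z ∧ L.nm (α₂.eval z) = L.nm (α₂.eval c) with hT
  have hcov : ∀ z ∈ Q.roots, ∃ c ∈ T, L.nm (c - z) ≤ L.nm ϖ₁ := by
    intro z hz
    have hzR := hQ z hz
    have hzP : P.eval z = 0 := eval_eq_zero_of_dvd_of_eval_eq_zero hQP (isRoot_of_mem_roots hz)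
    have h1 := hclose z hzR
    rw [hzP, zero_sub, L.neg, L.mul, L.pow] at h1
    have h2 : L.nm (n.eval z) ≤ b / 2 := le_of_mul_le_mul_left h1 (pow_pos (hRne z hzR) k)
    obtain ⟨c, hcS, hcz⟩ := hnear z h2
    have h3 : L.nm (z - c) ≤ d c := by
      rw [L.sub_comm]
      exact hcz.trans (h10.le.trans (hϖ₀r.le.trans (hrd c hcS)))
    refine ⟨c, Finset.mem_filter.2 ⟨hcS, ?_⟩, hcz⟩
    rcases hdd c with h4 | h4
    · refine ⟨(h4 c ?_).1, h4⟩
      rw [sub_self, L.zero]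
      exact (hd c).le
    · exact absurd hzR (h4 z h3)
  have hone : ∀ c ∈ T, (Q.roots.filter fun ζ => L.nm (c - ζ) ≤ L.nm ϖ₁).card ≤
      n.roots.count c := by
    intro c hcT
    obtain ⟨hcS, hcR, hcd⟩ := Finset.mem_filter.1 hcT
    have h1 : (P.roots.filter fun ζ => L.nm (c - ζ) ≤ L.nm ϖ₁).card ≤
        (n.roots.filter fun ζ => L.nm (c - ζ) < L.nm ϖ₀).card := by
      refine L.cnt hP hn hϖ₁n h10 (δ := b / 2) (κ := L.nm (α₂.eval c) ^ k)
        (pow_pos (hRne c hcR) k) (fun z hz hlt => ?_) (hgv c _ le_rfl) (hgv c _ h10.le)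
      obtain ⟨hzR, hze⟩ := hcd z (hz.trans (hϖ₀r.le.trans (hrd c hcS)))
      have h2 : L.nm (P.eval z - α₂.eval z ^ k * n.eval z) <
          L.nm (α₂.eval z ^ k * n.eval z) := by
        rw [L.mul, L.pow]
        exact (hclose z hzR).trans_lt (mul_lt_mul_of_pos_left hlt (pow_pos (hRne z hzR) k))
      rw [L.eq_of_close h2, L.mul, L.pow, hze]
    have h2 : Q.roots ≤ P.roots := roots.le_of_dvd hP hQP
    refine (Multiset.card_le_card (Multiset.filter_le_filter _ h2)).trans (h1.trans ?_)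
    rw [Multiset.count_eq_card_filter_eq]
    refine le_of_eq (congrArg _ (Multiset.filter_congr fun ζ hζ => ?_))
    constructor
    · intro h3
      by_contra hne
      exact absurd (hrc c hcS ζ (Multiset.mem_toFinset.2 hζ) hne)
        (not_le.2 (h3.trans hϖ₀r))
    · intro h3
      rw [h3, sub_self, L.zero]
      exact L.pos hϖ₀n
  calc Q.roots.card ≤ ∑ c ∈ T, (Q.roots.filter fun ζ => L.nm (c - ζ) ≤ L.nm ϖ₁).card :=
        card_le_cover Q.roots T (fun c ζ => L.nm (c - ζ) ≤ L.nm ϖ₁) hcov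
    _ ≤ ∑ c ∈ T, n.roots.count c := Finset.sum_le_sum hone
    _ = ∑ c ∈ T, (n.roots.filter fun ζ => L.nm ζ ≤ L.nm (4 : Ω)⁻¹).count c := by
        refine Finset.sum_congr rfl fun c hcT => ?_
        obtain ⟨-, hcR, -⟩ := Finset.mem_filter.1 hcT
        rw [Multiset.count_filter_of_pos]
        rw [L.inv]
        have h4 : 0 < L.nm (4 : Ω) := L.pos (OfNat.ofNat_ne_zero 4)
        rw [le_inv_comm₀ (L.pos (L.ne_zero (zero_lt_one.trans hcR.1))) h4]
        rw [← one_div, le_div_iff₀ (zero_lt_one.trans hcR.1)]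
        exact hcR.2.1.le
    _ ≤ (n.roots.filter fun ζ => L.nm ζ ≤ L.nm (4 : Ω)⁻¹).card := sum_count_le _ _

/-- Interpolation with small coefficients. Proof: Lagrange interpolation at the roots `y'` of the minimal polynomial `m` of `y` (they are simple): `p = ∑ v' m / ((X - y') m'(y'))` with `v' = γ v` if `y' = γ y`; `p` is invariant under the Galois group. `nm (v') = nm v`.
Or: the coordinates with respect to the basis `y ^ i` are the traces of `v β_i` for the dual basis. -/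
theorem interp (L : Ld K Ω) (y : Ω) :
    ∃ B : ℝ, 0 < B ∧ ∀ v ∈ K⟮y⟯, ∃ p : K[X], aeval y p = v ∧
      p.natDegree < Module.finrank K K⟮y⟯ ∧ ∀ i, L.nm (algebraMap K Ω (p.coeff i)) ≤ B * L.nm v := by
  classical
  have hac : IsAlgClosed Ω := IsAlgClosure.isAlgClosed K
  have halg : Algebra.IsAlgebraic K Ω := IsAlgClosure.isAlgebraic
  have hnor : Normal K Ω := IsAlgClosure.normal K Ω
  have hy : IsIntegral K y := Algebra.IsIntegral.isIntegral y
  have hfd : FiniteDimensional K K⟮y⟯ := adjoin.finiteDimensional hy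
  -- conjugates have the same absolute value
  have hconj : ∀ (σ : K⟮y⟯ →ₐ[K] Ω) (z : K⟮y⟯), L.nm (σ z) = L.nm (z : Ω) := by
    intro σ z
    obtain ⟨τ, hτ⟩ : ∃ τ : Ω →ₐ[K] Ω, τ (z : Ω) = σ z :=
      ⟨σ.liftNormal Ω, σ.liftNormal_commutes Ω z⟩
    have hb : Function.Bijective τ := Algebra.IsAlgebraic.algHom_bijective τ
    have h1 := L.act (AlgEquiv.ofBijective τ hb) (z : Ω)
    rw [AlgEquiv.ofBijective_apply, hτ] at h1
    exact h1
  have htr : ∀ z : K⟮y⟯, L.nm (algebraMap K Ω (Algebra.trace K K⟮y⟯ z)) ≤ L.nm (z : Ω) := by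
    intro z
    rw [trace_eq_sum_embeddings Ω]
    exact L.sum_le _ _ (L.nonneg _) fun σ _ => (hconj σ z).le
  obtain ⟨pb, hpb⟩ : ∃ pb, pb = adjoin.powerBasis hy := ⟨_, rfl⟩
  have hgen : ((pb.gen : K⟮y⟯) : Ω) = y := by
    rw [hpb, adjoin.powerBasis_gen, AdjoinSimple.coe_gen]
  have hdim : pb.dim = Module.finrank K K⟮y⟯ := pb.finrank.symm
  obtain ⟨b', hb'⟩ : ∃ b', b' = (Algebra.traceForm K K⟮y⟯).dualBasis
    (traceForm_nondegenerate K K⟮y⟯) pb.basis := ⟨_, rfl⟩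
  have hrep : ∀ (v : K⟮y⟯) (i : Fin pb.dim),
      pb.basis.repr v i = Algebra.trace K K⟮y⟯ (b' i * v) := by
    intro v i
    rw [← Algebra.traceForm_apply]
    conv_rhs => rw [← pb.basis.sum_repr v]
    rw [map_sum, Finset.sum_eq_single i]
    · rw [map_smul, hb', LinearMap.BilinForm.apply_dualBasis_left, if_pos rfl, smul_eq_mul,
        mul_one]
    · intro j _ hj
      rw [map_smul, hb', LinearMap.BilinForm.apply_dualBasis_left, if_neg hj, smul_zero]
    · intro h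
      exact absurd (Finset.mem_univ i) h
  have hs : 0 ≤ ∑ i, L.nm (b' i : Ω) := Finset.sum_nonneg fun i _ => L.nonneg _
  refine ⟨1 + ∑ i, L.nm (b' i : Ω), by linarith, fun v hv => ?_⟩
  have hdpos : 0 < pb.dim := pb.dim_pos
  refine ⟨∑ i : Fin pb.dim, monomial (i : ℕ) (pb.basis.repr ⟨v, hv⟩ i), ?_, ?_, fun k => ?_⟩
  · have h1 := congrArg (fun z : K⟮y⟯ => (z : Ω)) (pb.basis.sum_repr ⟨v, hv⟩)
    dsimp only at h1
    rw [map_sum]
    refine Eq.trans ?_ h1
    rw [AddSubmonoidClass.coe_finsetSum]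
    refine Finset.sum_congr rfl fun i _ => ?_
    rw [aeval_monomial, pb.basis_eq_pow, IntermediateField.coe_smul, IntermediateField.coe_pow,
      hgen, Algebra.smul_def]
  · rw [← hdim]
    refine lt_of_le_of_lt (natDegree_sum_le_of_forall_le (n := pb.dim - 1) _ _
      fun i _ => ?_) (by omega)
    exact (natDegree_monomial_le _).trans (by have := i.2; omega)
  · rw [finsetSum_coeff]
    simp only [coeff_monomial]
    by_cases hk : k < pb.dim
    · rw [Finset.sum_eq_single (⟨k, hk⟩ : Fin pb.dim), if_pos rfl, hrep]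
      · refine (htr _).trans ?_
        rw [IntermediateField.coe_mul, L.mul]
        refine mul_le_mul_of_nonneg_right ?_ (L.nonneg _)
        have h1 : L.nm (b' ⟨k, hk⟩ : Ω) ≤ ∑ i, L.nm (b' i : Ω) :=
          Finset.single_le_sum (f := fun i => L.nm (b' i : Ω)) (fun i _ => L.nonneg _)
            (Finset.mem_univ _)
        linarith
      · intro j _ hj
        exact if_neg (fun h : (j : ℕ) = k => hj (Fin.ext h))
      · intro h
        exact absurd (Finset.mem_univ _) h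
    · rw [Finset.sum_eq_zero, map_zero, L.zero]
      · exact mul_nonneg (by linarith) (L.nonneg _)
      · intro i _
        exact if_neg (fun h : (i : ℕ) = k => hk (h ▸ i.2))

end Ld

end PE
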