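import Pool.Agent.Lib.MP_f80667_ag.Kf.E2
import Pool.Agent.Lib.MP_f80667_ag.Kf.Cnt
import Pool.Agent.Lib.MP_f80667_ag.Kf.Un

/-!
The approximation used in the induction on the degree: proof of `Ld.dapp`.
-/

open ZC BE Polynomial IntermediateField

namespace PE

namespace Ld

variable {K Ω : Type} [Field K] [CharZero K] [Field Ω] [Algebra K Ω] [IsAlgClosure K Ω]

omit [CharZero K] [IsAlgClosure K Ω] in
/-- Integral polynomials have integral values at integral points. -/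
private theorem int_ev (L : Ld K Ω) (E : ℤ[X]) {x : Ω} (hx : L.nm x ≤ 1) :
    L.nm (aeval x E) ≤ 1 := by
  rw [aeval_eq_sum_range]
  refine L.sum_le _ _ zero_le_one fun i _ => ?_
  rw [zsmul_eq_mul, L.mul, L.pow]
  exact mul_le_one₀ (L.int_le _) (pow_nonneg (L.nonneg _) _) (pow_le_one₀ (L.nonneg _) hx)

omit [CharZero K] [IsAlgClosure K Ω] in
/-- Polynomials with small coefficients have small values. -/
private theorem sm_ev (L : Ld K Ω) (p : K[X]) {e : ℕ} {c R : ℝ} (hc : 0 ≤ c) (hR : 1 ≤ R)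
    (hd : p.natDegree < e) (hp : ∀ i, L.nm (algebraMap K Ω (p.coeff i)) ≤ c) {z : Ω}
    (hz : L.nm z ≤ R) : L.nm (aeval z p) ≤ c * R ^ e := by
  rw [aeval_eq_sum_range]
  refine L.sum_le _ _ (by positivity) fun i hi => ?_
  rw [Finset.mem_range] at hi
  rw [Algebra.smul_def, L.mul, L.pow]
  refine mul_le_mul (hp i) ?_ (pow_nonneg (L.nonneg _) _) hc
  exact (pow_le_pow_left₀ (L.nonneg _) hz i).trans (pow_le_pow_right₀ hR (by omega))

/-- The homogeneous form of degree `N` of an integral polynomial. -/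
private noncomputable def hmg (C₀ : ℤ[X]) (N : ℕ) (α β : K[X]) : K[X] :=
  ∑ i ∈ Finset.range (C₀.natDegree + 1), C ((C₀.coeff i : ℤ) : K) * α ^ i * β ^ (N - i)

omit [CharZero K] [IsAlgClosure K Ω] in
private theorem hmg_ev (C₀ : ℤ[X]) {N : ℕ} (hN : C₀.natDegree ≤ N) (α β : K[X]) {z : Ω}
    (hb : aeval z β ≠ 0) :
    aeval z (hmg C₀ N α β) = aeval z β ^ N * aeval (aeval z α / aeval z β) C₀ := by
  unfold hmg
  rw [map_sum, aeval_eq_sum_range (p := C₀), Finset.mul_sum]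
  refine Finset.sum_congr rfl fun i hi => ?_
  rw [Finset.mem_range] at hi
  have h1 : N = (N - i) + i := by omega
  rw [map_mul, map_mul, map_pow, map_pow, aeval_C, zsmul_eq_mul, div_pow]
  conv_rhs => rw [h1, pow_add]
  rw [map_intCast]
  field_simp

omit [CharZero K] [IsAlgClosure K Ω] in
private theorem hmg_le (L : Ld K Ω) (C₀ : ℤ[X]) {N : ℕ} (hN : C₀.natDegree ≤ N) (α β : K[X])
    {z : Ω} (h : L.nm (aeval z β) ≤ L.nm (aeval z α)) :
    L.nm (aeval z (hmg C₀ N α β)) ≤ L.nm (aeval z α) ^ N := by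
  unfold hmg
  rw [map_sum]
  refine L.sum_le _ _ (pow_nonneg (L.nonneg _) _) fun i hi => ?_
  rw [Finset.mem_range] at hi
  rw [map_mul, map_mul, map_pow, map_pow, aeval_C, map_intCast, L.mul, L.mul, L.pow, L.pow]
  have h1 : L.nm (aeval z α) ^ N = 1 * L.nm (aeval z α) ^ i * L.nm (aeval z α) ^ (N - i) := by
    rw [one_mul, ← pow_add]
    congr 1
    omega
  rw [h1]
  have hn := L.nonneg (aeval z α)
  have hn' := L.nonneg (aeval z β)
  gcongr
  exact L.int_le _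

/-- `dapp` with the polynomials written out. -/
theorem dappA (L : Ld K Ω) [L.Unr] (h2 : L.p = 2) {g : K[X]} {u q : K}
    (hu : L.nm (algebraMap K Ω u) = 1) (hq : L.nm (algebraMap K Ω q) = L.nm 2) {y : Ω}
    {α₁ α₂ : K[X]} (hc : IsCoprime α₁ α₂) (h0 : aeval y α₂ ≠ 0)
    (hr : L.nm (aeval y α₁) ^ 2 < L.nm 2 * L.nm (aeval y α₂) ^ 2)
    (heq : aeval y (C u * (α₁ ^ 2 - 4 * C q * α₂ ^ 2) - g) = 0) (hg0 : aeval y g ≠ 0) {δ : ℝ}
    (hδ : 0 < δ) :
    ∃ (A₁ A₂ G : K[X]) (k : ℕ), (A₁ ≠ 0 ∨ A₂ ≠ 0) ∧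
      A₁ ^ 2 - A₂ ^ 2 * (α₂ * (C u * α₂ + 4 * α₁) * (α₁ ^ 2 - 4 * C q * α₂ ^ 2) * g) =
        C u * (α₁ ^ 2 - 4 * C q * α₂ ^ 2) * G ∧
      aeval y G = 0 ∧
      (∀ z : Ω, L.Rg (α₁.map (algebraMap K Ω)) (α₂.map (algebraMap K Ω)) z →
        L.nm (aeval z G - aeval z α₂ ^ k * aeval z (C u * (α₁ ^ 2 - 4 * C q * α₂ ^ 2) - g)) ≤
          L.nm (aeval z α₂) ^ k * δ) ∧
      ∀ z : Ω, L.nm 4 * L.nm z < 1 → aeval z G = 0 → L.nm (aeval z α₁) ≤ L.nm (aeval z α₂) := by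
  classical
  have hcz : CharZero Ω := charZero_of_injective_algebraMap (algebraMap K Ω).injective
  have hu0 : u ≠ 0 := by
    rintro rfl
    rw [map_zero, L.zero] at hu
    exact zero_ne_one hu
  have hu0' : algebraMap K Ω u ≠ 0 := fun h => hu0 ((map_eq_zero _).1 h)
  have h20 : (2 : Ω) ≠ 0 := two_ne_zero
  have hn0 : 0 < L.nm (2 : Ω) := L.pos h20
  have hn1 : L.nm (2 : Ω) < 1 := by
    have h3 := L.lt
    rw [h2] at h3
    exact_mod_cast h3
  have hn4 : L.nm (4 : Ω) = L.nm 2 ^ 2 := by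
    rw [← L.pow]
    norm_num
  have hn4' : L.nm (4 : Ω) ≤ L.nm (2 : Ω) := by
    rw [hn4, pow_two]
    exact mul_le_of_le_one_left hn0.le hn1.le
  set ρ : ℝ := Real.sqrt (L.nm (2 : Ω)) with hρ
  have hρ0 : 0 < ρ := Real.sqrt_pos.2 hn0
  have hρ2 : ρ ^ 2 = L.nm (2 : Ω) := Real.sq_sqrt hn0.le
  have hρ1 : ρ < 1 := by
    by_contra h3
    rw [not_lt] at h3
    have h4 : (1 : ℝ) ≤ ρ ^ 2 := one_le_pow₀ h3
    rw [hρ2] at h4
    exact absurd hn1 (not_lt.2 h4)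
  -- small quotients
  have hsm : ∀ a b : Ω, b ≠ 0 → L.nm a ^ 2 < L.nm 2 * L.nm b ^ 2 → L.nm (a / b) < ρ := by
    intro a b hb h
    have hb' := L.pos hb
    rw [L.div]
    refine (Real.lt_sqrt (div_nonneg (L.nonneg _) hb'.le)).2 ?_
    rw [div_pow, div_lt_iff₀ (pow_pos hb' 2)]
    exact h
  have hsm3 : ∀ r : Ω, L.nm r < ρ → L.nm (r ^ 3 / 2) < ρ := by
    intro r hr'
    rw [L.div, L.pow, div_lt_iff₀ hn0, ← hρ2]
    calc L.nm r ^ 3 < ρ ^ 3 := pow_lt_pow_left₀ hr' (L.nonneg _) (by norm_num)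
      _ = ρ * ρ ^ 2 := by ring
  set R : ℝ := (L.nm (4 : Ω))⁻¹ with hR
  have h4pos : 0 < L.nm (4 : Ω) := by rw [hn4]; positivity
  have hR1 : 1 ≤ R := (one_le_inv₀ h4pos).2 (hn4'.trans hn1.le)
  have hzR : ∀ z : Ω, L.nm 4 * L.nm z < 1 → L.nm z ≤ R := by
    intro z hz
    rw [hR, ← one_div, le_div_iff₀ h4pos, mul_comm]
    exact hz.le
  obtain ⟨B, hB0, hB⟩ := L.interp y
  set e := Module.finrank K K⟮y⟯ with he
  obtain ⟨Mg, hMg0, hMg⟩ := L.ev_bdd (g.map (algebraMap K Ω)) R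
  obtain ⟨MN, hMN0, hMN⟩ := L.ev_bdd ((α₁ ^ 2 - 4 * C q * α₂ ^ 2).map (algebraMap K Ω)) R
  obtain ⟨s₀, t₀, hst⟩ := hc
  obtain ⟨Ms, hMs0, hMs⟩ := L.ev_bdd (s₀.map (algebraMap K Ω)) R
  obtain ⟨Mt, hMt0, hMt⟩ := L.ev_bdd (t₀.map (algebraMap K Ω)) R
  simp only [eval_map_algebraMap] at hMg hMN hMs hMt
  -- the constants
  set c₁ : ℝ := B * R ^ e + 1 with hc₁
  have hc₁1 : 1 ≤ c₁ := by rw [hc₁]; linarith [show 0 ≤ B * R ^ e by positivity]
  set c₂ : ℝ := MN + Mg + 1 with hc₂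
  have hc₂1 : 1 ≤ c₂ := by rw [hc₂]; linarith
  obtain ⟨m, hm⟩ := exists_pow_lt_of_lt_one
    (show (0 : ℝ) < min δ (1 / 2) / (c₁ * c₂) by positivity) hρ1
  rw [lt_div_iff₀ (by positivity)] at hm
  have hm1 : ρ ^ m * c₁ < 1 := by
    have h3 : ρ ^ m * c₁ ≤ ρ ^ m * (c₁ * c₂) := by
      refine mul_le_mul_of_nonneg_left ?_ (by positivity)
      exact le_mul_of_one_le_right (by positivity) hc₂1
    have h4 : min δ (1 / 2) ≤ 1 / 2 := min_le_right _ _
    linarith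
  have hm2 : ρ ^ m * c₁ * c₂ < δ := by
    have h4 : min δ (1 / 2) ≤ δ := min_le_left _ _
    rw [mul_assoc]
    linarith
  obtain ⟨l₀, hl₀⟩ := exists_pow_lt_of_lt_one
    (show (0 : ℝ) < 1 / ((Mg + 1) * (Ms + Mt + 1) ^ 2) by positivity) hn1
  rw [lt_div_iff₀ (by positivity)] at hl₀
  obtain ⟨C₀, E₀, hCE⟩ := pw_sq m
  obtain ⟨l, hl⟩ : ∃ l, l = l₀ + m + C₀.natDegree + 1 := ⟨_, rfl⟩
  obtain ⟨N, hN⟩ : ∃ N, N = 3 * l - 1 := ⟨_, rfl⟩
  have hdN : C₀.natDegree ≤ N := by omega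
  have hN2 : 2 * N + 2 = 6 * l := by omega
  -- the polynomials
  set P : K[X] := α₂ ^ (3 * l) + (C (1 / 2) * α₁ ^ 3) ^ l with hP
  set Q : K[X] := hmg C₀ N (C u⁻¹ * α₁) α₂ with hQ
  have hPev : ∀ z : Ω, aeval z P = aeval z α₂ ^ (3 * l) + (aeval z α₁ ^ 3 / 2) ^ l := by
    intro z
    rw [hP]
    simp only [map_add, map_pow, map_mul, aeval_C, map_div₀, map_one, map_ofNat]
    congr 2
    ring
  -- the values in the region
  have hreg : ∀ z : Ω, aeval z α₂ ≠ 0 →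
      aeval z Q ^ 2 * aeval z α₂ * (aeval z α₂ + 4 * aeval z α₁ / algebraMap K Ω u) =
        aeval z α₂ ^ (6 * l) * (1 + 4 * ((aeval z α₁ / aeval z α₂ / algebraMap K Ω u) ^ m *
          aeval (aeval z α₁ / aeval z α₂ / algebraMap K Ω u) E₀)) := by
    intro z hz
    have h3 := congrArg (aeval (aeval z α₁ / aeval z α₂ / algebraMap K Ω u)) hCE
    simp only [map_mul, map_add, map_pow, map_one, aeval_X, map_ofNat] at h3
    rw [hQ, hmg_ev C₀ hdN _ _ hz]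
    have h4 : aeval z (C u⁻¹ * α₁) / aeval z α₂ =
        aeval z α₁ / aeval z α₂ / algebraMap K Ω u := by
      rw [map_mul, aeval_C, map_inv₀]
      field_simp
    rw [h4, ← hN2]
    set T := aeval z α₁ / aeval z α₂ / algebraMap K Ω u with hT
    have h5 : aeval z α₂ + 4 * aeval z α₁ / algebraMap K Ω u =
        aeval z α₂ * (1 + 4 * T) := by
      rw [hT]
      field_simp
    rw [h5]
    calc (aeval z α₂ ^ N * aeval T C₀) ^ 2 * aeval z α₂ * (aeval z α₂ * (1 + 4 * T))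
        = aeval z α₂ ^ (2 * N + 2) * (aeval T C₀ ^ 2 * (1 + 4 * T)) := by ring
      _ = _ := by rw [h3]; ring
  have hPreg : ∀ z : Ω, aeval z α₂ ≠ 0 → aeval z P =
      aeval z α₂ ^ (3 * l) * (1 + ((aeval z α₁ / aeval z α₂) ^ 3 / 2) ^ l) := by
    intro z hz
    rw [hPev, mul_add, mul_one]
    congr 1
    rw [pow_mul, ← mul_pow]
    congr 1
    field_simp
  -- bounds in the region
  have hT : ∀ r : Ω, L.nm r < ρ → L.nm ((r / algebraMap K Ω u) ^ m *
      aeval (r / algebraMap K Ω u) E₀) ≤ ρ ^ m ∧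
      L.nm ((r / algebraMap K Ω u) ^ m * aeval (r / algebraMap K Ω u) E₀) ≤ L.nm r ^ m := by
    intro r hr'
    have h3 : L.nm (r / algebraMap K Ω u) = L.nm r := by rw [L.div, hu, div_one]
    have h4 : L.nm ((r / algebraMap K Ω u) ^ m * aeval (r / algebraMap K Ω u) E₀) ≤
        L.nm r ^ m := by
      rw [L.mul, L.pow, h3]
      refine mul_le_of_le_one_right (pow_nonneg (L.nonneg _) _) (L.int_ev E₀ ?_)
      rw [h3]
      exact (hr'.trans hρ1).le
    exact ⟨h4.trans (pow_le_pow_left₀ (L.nonneg _) hr'.le m), h4⟩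
  have hρl : ρ ^ l ≤ ρ ^ m := pow_le_pow_of_le_one hρ0.le hρ1.le (by omega)
  have hS : ∀ r : Ω, L.nm r < ρ → L.nm ((r ^ 3 / 2) ^ l) ≤ ρ ^ m := by
    intro r hr'
    rw [L.pow]
    exact (pow_le_pow_left₀ (L.nonneg _) (hsm3 r hr').le l).trans hρl
  have hρm1 : ρ ^ m < 1 := by
    have h3 : ρ ^ m ≤ ρ ^ m * c₁ := le_mul_of_one_le_right (by positivity) hc₁1
    linarith
  -- the number τ₀
  set r := aeval y α₁ / aeval y α₂ with hrr
  have hrρ : L.nm r < ρ := hsm _ _ h0 hr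
  set x := r / algebraMap K Ω u with hx
  set t := x ^ m * aeval x E₀ with ht
  have htρ : L.nm t ≤ ρ ^ m := (hT r hrρ).1
  obtain ⟨v, hv1, hv2, hv3⟩ := L.sq_two h2 (m := t) (lt_of_le_of_lt htρ hρm1)
  set s := (r ^ 3 / 2) ^ l with hs
  have hsρ : L.nm s ≤ ρ ^ m := hS r hrρ
  have h2v : L.nm (2 * v) < 1 := by
    rw [L.mul]
    refine mul_lt_one_of_nonneg_of_lt_one_right hn1.le (L.nonneg _) ?_
    rw [hv1]
    exact lt_of_le_of_lt htρ hρm1
  have h12v : L.nm (1 + 2 * v) = 1 := L.one_add h2v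
  have h12v0 : 1 + 2 * v ≠ 0 := fun h => by
    rw [h, L.zero] at h12v
    exact zero_ne_one h12v
  set τ₀ := (1 + s) / (1 + 2 * v) with hτ₀
  have hτ1 : L.nm (τ₀ - 1) ≤ ρ ^ m := by
    have h3 : τ₀ - 1 = (s - 2 * v) / (1 + 2 * v) := by
      rw [hτ₀]
      field_simp
      ring
    rw [h3, L.div, h12v, div_one]
    refine (L.sub _ _).trans (max_le hsρ ?_)
    rw [L.mul, hv1]
    exact (mul_le_of_le_one_left (L.nonneg _) hn1.le).trans htρ
  have hyK : y ∈ K⟮y⟯ := IntermediateField.mem_adjoin_simple_self K y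
  have hev : ∀ p : K[X], aeval y p ∈ K⟮y⟯ := by
    intro p
    have h3 := (K⟮y⟯).toSubalgebra
    have h4 : aeval y p = ((aeval (⟨y, hyK⟩ : K⟮y⟯) p : K⟮y⟯) : Ω) := by
      rw [← IntermediateField.coe_val, ← Polynomial.aeval_algHom_apply]
      rfl
    rw [h4]
    exact SetLike.coe_mem _
  have hrK : r ∈ K⟮y⟯ := div_mem (hev _) (hev _)
  have hxK : x ∈ K⟮y⟯ := div_mem hrK (IntermediateField.algebraMap_mem _ _)
  have hevx : aeval x E₀ ∈ K⟮y⟯ := by
    rw [aeval_eq_sum_range]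
    refine sum_mem fun i _ => ?_
    rw [zsmul_eq_mul]
    exact mul_mem (intCast_mem _ _) (pow_mem hxK _)
  have htK : t ∈ K⟮y⟯ := mul_mem (pow_mem hxK _) hevx
  have hvK : v ∈ K⟮y⟯ := by
    refine BE.mem_of_fix _ fun γ hγ => hv3 γ ?_
    exact hγ ⟨t, htK⟩
  have h2K : (2 : Ω) ∈ K⟮y⟯ := ofNat_mem _ 2
  have hsK : s ∈ K⟮y⟯ := pow_mem (div_mem (pow_mem hrK _) h2K) _
  have hτK : τ₀ - 1 ∈ K⟮y⟯ :=
    sub_mem (div_mem (add_mem (one_mem _) hsK) (add_mem (one_mem _) (mul_mem h2K hvK))) (one_mem _)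
  obtain ⟨p, hp1, hp2, hp3⟩ := hB _ hτK
  have hpev : ∀ z : Ω, L.nm 4 * L.nm z < 1 → L.nm (aeval z p) ≤ ρ ^ m * c₁ := by
    intro z hz
    refine (L.sm_ev p (mul_nonneg hB0.le (L.nonneg _)) hR1 hp2 hp3 (hzR z hz)).trans ?_
    calc B * L.nm (τ₀ - 1) * R ^ e ≤ B * ρ ^ m * R ^ e := by gcongr
      _ = ρ ^ m * (B * R ^ e) := by ring
      _ ≤ ρ ^ m * c₁ := by
        refine mul_le_mul_of_nonneg_left ?_ (by positivity)
        rw [hc₁]
        linarith
  set τ : K[X] := 1 + p with hτ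
  have hτev : ∀ z : Ω, L.nm 4 * L.nm z < 1 → L.nm (aeval z τ - 1) ≤ ρ ^ m * c₁ ∧
      L.nm (aeval z τ) = 1 := by
    intro z hz
    have h3 : aeval z τ = 1 + aeval z p := by rw [hτ, map_add, map_one]
    have h4 := hpev z hz
    rw [h3, add_sub_cancel_left]
    exact ⟨h4, L.one_add (lt_of_le_of_lt h4 hm1)⟩
  have hτy : aeval y τ = τ₀ := by
    rw [hτ, map_add, map_one, hp1]
    ring
  set G : K[X] := C u * P ^ 2 * (α₁ ^ 2 - 4 * C q * α₂ ^ 2) -
    τ ^ 2 * Q ^ 2 * α₂ * (α₂ + 4 * C u⁻¹ * α₁) * g with hG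
  have hGev : ∀ z : Ω, aeval z G = algebraMap K Ω u * aeval z P ^ 2 *
      aeval z (α₁ ^ 2 - 4 * C q * α₂ ^ 2) - aeval z τ ^ 2 * (aeval z Q ^ 2 * aeval z α₂ *
      (aeval z α₂ + 4 * aeval z α₁ / algebraMap K Ω u)) * aeval z g := by
    intro z
    rw [hG]
    simp only [map_sub, map_mul, map_pow, map_add, aeval_C, map_inv₀, map_ofNat]
    field_simp
  have hnev : ∀ z : Ω, aeval z (C u * (α₁ ^ 2 - 4 * C q * α₂ ^ 2) - g) =
      algebraMap K Ω u * aeval z (α₁ ^ 2 - 4 * C q * α₂ ^ 2) - aeval z g := by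
    intro z
    rw [map_sub, map_mul, aeval_C]
  rw [hnev, sub_eq_zero] at heq
  refine ⟨C u * (α₁ ^ 2 - 4 * C q * α₂ ^ 2) * P, τ * Q, G, 6 * l, ?_, ?_, ?_, ?_, ?_⟩
  · left
    intro h
    have h3 := congrArg (aeval y) h
    rw [map_mul, map_mul, aeval_C, map_zero, heq, mul_eq_zero, hPreg y h0, mul_eq_zero] at h3
    rcases h3 with h3 | h3 | h3
    · exact hg0 h3
    · exact pow_ne_zero _ h0 h3
    · have h4 : L.nm (1 + s) = 1 := L.one_add (lt_of_le_of_lt hsρ hρm1)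
      rw [show 1 + s = 0 from h3, L.zero] at h4
      exact zero_ne_one h4
  · have h3 : (C u : K[X]) * C u⁻¹ = 1 := by rw [← C_mul, mul_inv_cancel₀ hu0, C_1]
    rw [hG]
    linear_combination (4 * τ ^ 2 * Q ^ 2 * α₂ * α₁ * (α₁ ^ 2 - 4 * C q * α₂ ^ 2) * g) * h3
  · rw [hGev, hτy, hreg y h0, hPreg y h0]
    have h3 : (1 + 2 * v) ^ 2 = 1 + 4 * t := by linear_combination 4 * hv2
    have h4 : τ₀ * (1 + 2 * v) = 1 + s := by
      rw [hτ₀]
      exact div_mul_cancel₀ _ h12v0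
    have h5 : τ₀ ^ 2 * (1 + 4 * t) = (1 + s) ^ 2 := by
      rw [← h3, ← mul_pow, h4]
    have h6 : (aeval y α₂ ^ (3 * l)) ^ 2 = aeval y α₂ ^ (6 * l) := by
      rw [← pow_mul]
      congr 1
      omega
    calc algebraMap K Ω u * (aeval y α₂ ^ (3 * l) * (1 + s)) ^ 2 *
          aeval y (α₁ ^ 2 - 4 * C q * α₂ ^ 2) -
          τ₀ ^ 2 * (aeval y α₂ ^ (6 * l) * (1 + 4 * t)) * aeval y g
        = (aeval y α₂ ^ (3 * l)) ^ 2 * (1 + s) ^ 2 *
          (algebraMap K Ω u * aeval y (α₁ ^ 2 - 4 * C q * α₂ ^ 2)) -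
          aeval y α₂ ^ (6 * l) * (τ₀ ^ 2 * (1 + 4 * t)) * aeval y g := by ring
      _ = 0 := by rw [h5, h6, heq]; ring
  · intro z hz
    obtain ⟨hz1, hz2, hz3⟩ := hz
    rw [eval_map_algebraMap, eval_map_algebraMap] at hz3
    have hb : aeval z α₂ ≠ 0 := by
      intro h
      rw [h, L.zero] at hz3
      have h3 := pow_nonneg (L.nonneg (aeval z α₁)) 2
      norm_num at hz3
      linarith
    have hrz := hsm _ _ hb hz3
    have hNz := hMN z (hzR z hz2)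
    have hgz := hMg z (hzR z hz2)
    obtain ⟨hτz, hτz1⟩ := hτev z hz2
    have hTz := (hT _ hrz).1
    have hSz := hS _ hrz
    rw [hGev, hnev, hreg z hb, hPreg z hb]
    set b := aeval z α₂ with hbb
    set Nz := aeval z (α₁ ^ 2 - 4 * C q * α₂ ^ 2) with hNN
    set gz := aeval z g with hgg
    set τz := aeval z τ with hττ
    set sz := ((aeval z α₁ / b) ^ 3 / 2) ^ l with hss
    set tz := (aeval z α₁ / b / algebraMap K Ω u) ^ m *
      aeval (aeval z α₁ / b / algebraMap K Ω u) E₀ with htt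
    have h6 : (b ^ (3 * l)) ^ 2 = b ^ (6 * l) := by
      rw [← pow_mul]
      congr 1
      omega
    have h7 : algebraMap K Ω u * (b ^ (3 * l) * (1 + sz)) ^ 2 * Nz -
        τz ^ 2 * (b ^ (6 * l) * (1 + 4 * tz)) * gz -
        b ^ (6 * l) * (algebraMap K Ω u * Nz - gz) =
        b ^ (6 * l) * (algebraMap K Ω u * (sz * (2 + sz)) * Nz -
          ((τz - 1) * (τz + 1) + τz ^ 2 * (4 * tz)) * gz) := by
      rw [mul_pow, h6]
      ring
    rw [h7, L.mul, L.pow]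
    refine mul_le_mul_of_nonneg_left ?_ (pow_nonneg (L.nonneg _) _)
    have hρc : ρ ^ m ≤ ρ ^ m * c₁ := le_mul_of_one_le_right (by positivity) hc₁1
    have h8 : L.nm (algebraMap K Ω u * (sz * (2 + sz)) * Nz) ≤ ρ ^ m * c₁ * c₂ := by
      rw [L.mul, L.mul, hu, one_mul, L.mul]
      have h9 : L.nm (2 + sz) ≤ 1 :=
        (L.add _ _).trans (max_le hn1.le (hSz.trans hρm1.le))
      calc L.nm sz * L.nm (2 + sz) * L.nm Nz ≤ ρ ^ m * c₁ * 1 * MN := by
            have := L.nonneg (2 + sz)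
            have := L.nonneg Nz
            have := L.nonneg sz
            gcongr
            exact hSz.trans hρc
        _ ≤ ρ ^ m * c₁ * c₂ := by
            rw [mul_one]
            refine mul_le_mul_of_nonneg_left ?_ (by positivity)
            rw [hc₂]
            linarith
    have h9 : L.nm (((τz - 1) * (τz + 1) + τz ^ 2 * (4 * tz)) * gz) ≤ ρ ^ m * c₁ * c₂ := by
      rw [L.mul]
      have h10 : L.nm ((τz - 1) * (τz + 1) + τz ^ 2 * (4 * tz)) ≤ ρ ^ m * c₁ := by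
        refine (L.add _ _).trans (max_le ?_ ?_)
        · rw [L.mul]
          refine (mul_le_of_le_one_right (L.nonneg _) ?_).trans hτz
          exact (L.add _ _).trans (max_le hτz1.le L.one.le)
        · rw [L.mul, L.pow, hτz1, one_pow, one_mul, L.mul]
          exact ((mul_le_of_le_one_left (L.nonneg _) (hn4'.trans hn1.le)).trans hTz).trans hρc
      calc L.nm ((τz - 1) * (τz + 1) + τz ^ 2 * (4 * tz)) * L.nm gz ≤ ρ ^ m * c₁ * Mg := by
            have := L.nonneg gz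
            gcongr
        _ ≤ ρ ^ m * c₁ * c₂ := by
            refine mul_le_mul_of_nonneg_left ?_ (by positivity)
            rw [hc₂]
            linarith
    exact ((L.sub _ _).trans (max_le h8 h9)).trans hm2.le
  · intro z hz hGz
    by_contra hlt
    rw [not_le] at hlt
    obtain ⟨hτz, hτz1⟩ := hτev z hz
    have hgz := hMg z (hzR z hz)
    rw [hGev, sub_eq_zero] at hGz
    set a := aeval z α₁ with haa
    set b := aeval z α₂ with hbb
    have hapos : 0 < L.nm a := lt_of_le_of_lt (L.nonneg _) hlt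
    have hNz : L.nm (aeval z (α₁ ^ 2 - 4 * C q * α₂ ^ 2)) = L.nm a ^ 2 := by
      have h3 : aeval z (α₁ ^ 2 - 4 * C q * α₂ ^ 2) =
          -(4 * algebraMap K Ω q * b ^ 2) + a ^ 2 := by
        simp only [map_sub, map_mul, map_pow, aeval_C, map_ofNat]
        rw [← haa, ← hbb]
        ring
      rw [h3, L.add_eq, L.pow]
      rw [L.neg, L.mul, L.mul, L.pow, L.pow]
      have h4 : L.nm 4 * L.nm (algebraMap K Ω q) ≤ 1 := by
        rw [hq]
        exact mul_le_one₀ (hn4'.trans hn1.le) hn0.le hn1.le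
      calc L.nm 4 * L.nm (algebraMap K Ω q) * L.nm b ^ 2 ≤ L.nm b ^ 2 :=
            mul_le_of_le_one_left (pow_nonneg (L.nonneg _) _) h4
        _ < L.nm a ^ 2 := pow_lt_pow_left₀ hlt (L.nonneg _) (by norm_num)
    have hPz : L.nm (aeval z P) = (L.nm a ^ 3 / L.nm 2) ^ l := by
      rw [hPev, ← haa, ← hbb, L.add_eq, L.pow, L.div, L.pow]
      rw [L.pow, L.pow, L.div, L.pow, pow_mul]
      refine pow_lt_pow_left₀ ?_ (pow_nonneg (L.nonneg _) _) (by omega)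
      rw [lt_div_iff₀ hn0]
      calc L.nm b ^ 3 * L.nm 2 ≤ L.nm b ^ 3 :=
            mul_le_of_le_one_right (pow_nonneg (L.nonneg _) _) hn1.le
        _ < L.nm a ^ 3 := pow_lt_pow_left₀ hlt (L.nonneg _) (by norm_num)
    have hQz : L.nm (aeval z Q) ≤ L.nm a ^ N := by
      have h3 : L.nm (aeval z (C u⁻¹ * α₁)) = L.nm a := by
        rw [map_mul, aeval_C, map_inv₀, L.mul, L.inv, hu, inv_one, one_mul]
      have h4 := L.hmg_le C₀ hdN (C u⁻¹ * α₁) α₂ (z := z) (by rw [h3]; exact hlt.le)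
      rwa [h3] at h4
    have hL : L.nm (algebraMap K Ω u * aeval z P ^ 2 *
        aeval z (α₁ ^ 2 - 4 * C q * α₂ ^ 2)) = L.nm a ^ (6 * l) * L.nm a ^ 2 /
          L.nm 2 ^ (2 * l) := by
      rw [L.mul, L.mul, hu, one_mul, L.pow, hPz, hNz, div_pow, div_pow]
      rw [show (6 * l) = 3 * l * 2 by ring, show 2 * l = l * 2 by ring, pow_mul, pow_mul, pow_mul]
      ring
    have hRr : L.nm (aeval z τ ^ 2 * (aeval z Q ^ 2 * b *
        (b + 4 * a / algebraMap K Ω u)) * aeval z g) ≤ L.nm a ^ (6 * l) * Mg := by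
      rw [L.mul, L.mul, L.pow, hτz1, one_pow, one_mul]
      refine mul_le_mul ?_ hgz (L.nonneg _) (pow_nonneg (L.nonneg _) _)
      rw [L.mul, L.mul, L.pow, ← hN2]
      have h3 : L.nm (b + 4 * a / algebraMap K Ω u) ≤ L.nm a := by
        refine (L.add _ _).trans (max_le hlt.le ?_)
        rw [L.div, L.mul, hu, div_one]
        exact mul_le_of_le_one_left (L.nonneg _) (hn4'.trans hn1.le)
      calc L.nm (aeval z Q) ^ 2 * L.nm b * L.nm (b + 4 * a / algebraMap K Ω u)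
          ≤ (L.nm a ^ N) ^ 2 * L.nm a * L.nm a := by
            have := L.nonneg (aeval z Q)
            have := L.nonneg b
            have := L.nonneg (b + 4 * a / algebraMap K Ω u)
            gcongr
        _ = L.nm a ^ (2 * N + 2) := by ring
    rw [hGz] at hL
    rw [hL] at hRr
    have hpl : 0 < L.nm a ^ (6 * l) := pow_pos hapos _
    have h2l : 0 < L.nm (2 : Ω) ^ (2 * l) := pow_pos hn0 _
    have h3 : L.nm a ^ 2 ≤ Mg * L.nm 2 ^ (2 * l) := by
      rw [div_le_iff₀ h2l, mul_assoc] at hRr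
      exact le_of_mul_le_mul_left hRr hpl
    have h4 : L.nm (2 : Ω) ^ (2 * l) ≤ L.nm 2 ^ l₀ :=
      pow_le_pow_of_le_one hn0.le hn1.le (by omega)
    have h5 : 1 ≤ (Ms + Mt + 1) * L.nm a := by
      have h6 := congrArg (aeval z) hst
      rw [map_add, map_mul, map_mul, map_one, ← haa, ← hbb] at h6
      have h7 : L.nm (aeval z s₀ * a + aeval z t₀ * b) = 1 := by rw [h6, L.one]
      rw [← h7]
      refine (L.add _ _).trans (max_le ?_ ?_)
      · rw [L.mul]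
        refine mul_le_mul_of_nonneg_right ?_ hapos.le
        have := hMs z (hzR z hz)
        linarith
      · rw [L.mul]
        refine mul_le_mul ?_ hlt.le (L.nonneg _) (by positivity)
        have := hMt z (hzR z hz)
        linarith
    have h6 : 1 ≤ (Ms + Mt + 1) ^ 2 * L.nm a ^ 2 := by
      rw [← mul_pow]
      exact one_le_pow₀ h5
    have h7 : (Ms + Mt + 1) ^ 2 * L.nm a ^ 2 ≤ (Ms + Mt + 1) ^ 2 * (Mg * L.nm 2 ^ l₀) := by
      refine mul_le_mul_of_nonneg_left (h3.trans ?_) (by positivity)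
      exact mul_le_mul_of_nonneg_left h4 hMg0.le
    have h8 : (Ms + Mt + 1) ^ 2 * (Mg * L.nm 2 ^ l₀) ≤
        L.nm 2 ^ l₀ * ((Mg + 1) * (Ms + Mt + 1) ^ 2) := by
      have h9 : 0 ≤ L.nm (2 : Ω) ^ l₀ * (Ms + Mt + 1) ^ 2 := by positivity
      nlinarith
    linarith

end Ld

end PE
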