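import Pool.Agent.Lib.MP_f80667_ag.Kf.E2
import Pool.Agent.Lib.MP_f80667_ag.Kf.Cnt
import Pool.Agent.Lib.MP_f80667_ag.Kf.Un

/-! Auxiliary results for the induction step `N2.dd`. -/

open ZC BE Polynomial IntermediateField

namespace PE

section alg

variable {K Ω : Type} [Field K] [CharZero K] [Field Ω] [Algebra K Ω] [IsAlgClosure K Ω]

omit [CharZero K] in
theorem dd_int (y : Ω) : IsIntegral K y := by
  have h : Algebra.IsAlgebraic K Ω := IsAlgClosure.isAlgebraic
  exact (h.isAlgebraic y).isIntegral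

omit [CharZero K] in
theorem dd_deg (y : Ω) : (minpoly K y).natDegree = Module.finrank K K⟮y⟯ :=
  (IntermediateField.adjoin.finrank (dd_int y)).symm

omit [CharZero K] in
/-- The roots of the minimal polynomial are the conjugates. -/
theorem dd_conj {y z : Ω} (h : aeval z (minpoly K y) = 0) : ∃ γ : Ω ≃ₐ[K] Ω, γ y = z := by
  have hn : Normal K Ω := IsAlgClosure.normal K Ω
  have h1 : IsConjRoot K y z := isConjRoot_of_aeval_eq_zero (dd_int y) h
  obtain ⟨γ, hγ⟩ := isConjRoot_iff_exists_algEquiv.1 h1.symm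
  exact ⟨γ, hγ⟩

/-- A simple root. -/
theorem dd_mult {y : Ω} {G : K[X]} (hG : G ≠ 0) (h : aeval y G = 0)
    (h2 : ¬ (minpoly K y) ^ 2 ∣ G) :
    rootMultiplicity y (G.map (algebraMap K Ω)) = 1 := by
  obtain ⟨H, rfl⟩ := minpoly.dvd K y h
  have hH : aeval y H ≠ 0 := by
    intro h0
    obtain ⟨H', rfl⟩ := minpoly.dvd K y h0
    exact h2 ⟨H', by ring⟩
  have hne : (minpoly K y * H).map (algebraMap K Ω) ≠ 0 :=
    (Polynomial.map_ne_zero_iff (algebraMap K Ω).injective).2 hG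
  rw [Polynomial.map_mul] at hne ⊢
  rw [rootMultiplicity_mul hne]
  have hs : ((minpoly K y).map (algebraMap K Ω)).Separable :=
    (minpoly.irreducible (dd_int y)).separable.map
  have h3 := rootMultiplicity_le_one_of_separable hs y
  have h4 : 0 < rootMultiplicity y ((minpoly K y).map (algebraMap K Ω)) := by
    refine (rootMultiplicity_pos (left_ne_zero_of_mul hne)).2 ?_
    rw [IsRoot.def, eval_map_algebraMap, minpoly.aeval]
  have h5 : rootMultiplicity y (H.map (algebraMap K Ω)) = 0 := by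
    refine rootMultiplicity_eq_zero ?_
    rw [IsRoot.def, eval_map_algebraMap]
    exact hH
  rw [h5]
  omega

omit [CharZero K] in
/-- Different orbits have coprime minimal polynomials. -/
theorem dd_cop {y z : Ω} (h : ∀ γ : Ω ≃ₐ[K] Ω, γ y ≠ z) :
    IsCoprime (minpoly K y) (minpoly K z) := by
  refine (Irreducible.coprime_iff_not_dvd (minpoly.irreducible (dd_int y))).2 fun hd => ?_
  have h1 : aeval y (minpoly K z) = 0 := by
    obtain ⟨H, hH⟩ := hd
    rw [hH, map_mul, minpoly.aeval, zero_mul]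
  obtain ⟨γ, hγ⟩ := dd_conj h1
  exact h γ.symm (by rw [← hγ]; exact γ.symm_apply_apply z)

omit [CharZero K] in
/-- The region is invariant. -/
theorem dd_rg (L : Ld K Ω) {α₁ α₂ : K[X]} {y z : Ω}
    (h : L.Rg (α₁.map (algebraMap K Ω)) (α₂.map (algebraMap K Ω)) y)
    (hz : aeval z (minpoly K y) = 0) :
    L.Rg (α₁.map (algebraMap K Ω)) (α₂.map (algebraMap K Ω)) z := by
  obtain ⟨γ, rfl⟩ := dd_conj hz
  obtain ⟨h1, h2, h3⟩ := h
  rw [eval_map_algebraMap, eval_map_algebraMap] at h3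
  have h4 : ∀ P : K[X], aeval (γ y) P = γ (aeval y P) := fun P =>
    aeval_algHom_apply (γ : Ω →ₐ[K] Ω) y P
  refine ⟨?_, ?_, ?_⟩
  · rw [L.act]
    exact h1
  · rw [L.act]
    exact h2
  · rw [eval_map_algebraMap, eval_map_algebraMap, h4, h4, L.act, L.act]
    exact h3

/-- Conjugation of square roots. -/
theorem dd_neg {M : IntermediateField K Ω} {s : Ω} (hs : s ^ 2 ∈ M)
    (hn : s ∉ M) : ∃ σ ∈ M.fixingSubgroup, σ s = -s := by
  by_contra hc
  push Not at hc
  refine hn (mem_of_fix M fun γ hγ => ?_)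
  have h2 : γ (s ^ 2) = s ^ 2 := (IntermediateField.mem_fixingSubgroup_iff M γ).1 hγ _ hs
  rw [map_pow] at h2
  rcases sq_eq_sq_iff_eq_or_eq_neg.1 h2 with h3 | h3
  · exact h3
  · exact absurd h3 (hc γ hγ)

end alg

variable {F : Type} [Field F] {f g : F[X]} {K : Type} [Field K] [CharZero K]
  [Algebra F K] {Ω : Type} [Field Ω] [Algebra K Ω] [Algebra F Ω] [IsScalarTower F K Ω]
  [IsAlgClosure K Ω] {L : Ld K Ω} {a u q c₂ c₄ b : K}

omit [CharZero K] [IsScalarTower F K Ω] [IsAlgClosure K Ω] in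
theorem N2.dd_two (h : N2 L f g a u q c₂ c₄ b) : L.nm (2 : Ω) < 1 := by
  have h1 := L.lt
  rw [h.p2, Nat.cast_ofNat] at h1
  exact h1

omit [CharZero K] [IsScalarTower F K Ω] [IsAlgClosure K Ω] in
theorem N2.dd_u (h : N2 L f g a u q c₂ c₄ b) : L.nm (algebraMap K Ω u) = 1 := by
  have h1 : L.nm (4 : Ω) < 1 := by
    have h2 : (4 : Ω) = 2 * 2 := by norm_num
    rw [h2, L.mul]
    exact mul_lt_one_of_nonneg_of_lt_one_left (L.nonneg _) h.dd_two h.dd_two.le
  have h3 := L.eq_of_close (x := algebraMap K Ω u) (y := 1) (by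
    rw [L.one]
    exact h.nu.trans_lt h1)
  rw [h3, L.one]

omit [IsScalarTower F K Ω] in
/-- The number `λ`. -/
theorem N2.dd_lam (h : N2 L f g a u q c₂ c₄ b) {x y w : Ω} (hs : Sp f g x y w)
    (hx : L.nm (x - algebraMap K Ω a) ^ 2 < L.nm 2) {M : IntermediateField K Ω} (hxM : x ∈ M)
    (hwM : w ∈ M) :
    ∃ lam ∈ M, lam ≠ 0 ∧ algebraMap K Ω u * ((lam * (x - algebraMap K Ω a)) ^ 2 -
      4 * algebraMap K Ω q * lam ^ 2) = aeval y g := by
  have hch : CharZero Ω := charZero_of_injective_algebraMap (algebraMap K Ω).injective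
  have h2 := h.dd_two
  have hu := h.dd_u
  have hu0 : algebraMap K Ω u ≠ 0 := L.ne_zero (by rw [hu]; exact one_pos)
  obtain ⟨t, ht⟩ : ∃ t, t = x - algebraMap K Ω a := ⟨_, rfl⟩
  rw [← ht] at hx ⊢
  have htM : t ∈ M := by
    rw [ht]
    exact M.sub_mem hxM (M.algebraMap_mem a)
  have ht1 : L.nm t < 1 := by
    by_contra hc
    rw [not_lt] at hc
    have h3 : 1 ≤ L.nm t ^ 2 := one_le_pow₀ hc
    exact absurd (hx.trans h2) (not_lt.2 h3)
  have hm : L.nm (t / algebraMap K Ω u) < 1 := by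
    rw [L.div, hu, div_one]
    exact ht1
  obtain ⟨v, hv1, hv2, hv3⟩ := L.sq_two h.p2 hm
  have hvM : v ∈ M := mem_of_fix M fun γ hγ => hv3 γ (by
    rw [map_div₀, γ.commutes, (IntermediateField.mem_fixingSubgroup_iff M γ).1 hγ _ htM])
  have hσ : L.nm (1 + 2 * v) = 1 := by
    refine L.one_add ?_
    rw [L.mul, hv1]
    exact mul_lt_one_of_nonneg_of_lt_one_left (L.nonneg _) h2 hm.le
  have hσ0 : 1 + 2 * v ≠ 0 := L.ne_zero (by rw [hσ]; exact one_pos)
  have hut : algebraMap K Ω u + 4 * t = algebraMap K Ω u * (1 + 2 * v) ^ 2 := by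
    have h4 : t = algebraMap K Ω u * (v ^ 2 + v) := by
      rw [hv2, mul_div_cancel₀ _ hu0]
    rw [h4]
    ring
  have hfx := hs.fx
  have hfe := h.fe x
  rw [← ht, hut] at hfe
  have hN : t ^ 2 - 4 * algebraMap K Ω q ≠ 0 := by
    intro h0
    rw [hfe, h0, mul_zero] at hfx
    exact hfx rfl
  have hgy := hs.gy
  have hw := hs.1
  rw [hfe] at hw
  refine ⟨w / (algebraMap K Ω u * (1 + 2 * v) * (t ^ 2 - 4 * algebraMap K Ω q)), ?_, ?_, ?_⟩
  · have h2M : (2 : Ω) ∈ M := by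
      have := M.natCast_mem 2
      rwa [Nat.cast_ofNat] at this
    have h4M : (4 : Ω) ∈ M := by
      have := M.natCast_mem 4
      rwa [Nat.cast_ofNat] at this
    exact M.div_mem hwM (M.mul_mem (M.mul_mem (M.algebraMap_mem u)
      (M.add_mem M.one_mem (M.mul_mem h2M hvM)))
      (M.sub_mem (pow_mem htM 2) (M.mul_mem h4M (M.algebraMap_mem q))))
  · exact div_ne_zero hs.2 (mul_ne_zero (mul_ne_zero hu0 hσ0) hN)
  · generalize algebraMap K Ω u = U at *
    generalize algebraMap K Ω q = Q at *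
    generalize aeval y g = G at *
    have h5 : U * ((w / (U * (1 + 2 * v) * (t ^ 2 - 4 * Q)) * t) ^ 2 -
        4 * Q * (w / (U * (1 + 2 * v) * (t ^ 2 - 4 * Q))) ^ 2) =
        w ^ 2 / (U * (1 + 2 * v) ^ 2 * (t ^ 2 - 4 * Q)) := by
      field_simp
    rw [h5, hw, mul_div_assoc, mul_comm, div_mul_cancel₀]
    exact mul_ne_zero (mul_ne_zero hu0 (pow_ne_zero 2 hσ0)) hN

end PE
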