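import Pool.Agent.Lib.MP_f80667_ag.Kf.E2
import Pool.Agent.Lib.MP_f80667_ag.Kf.Cnt
import Pool.Agent.Lib.MP_f80667_ag.Kf.D2D
import Pool.Agent.Lib.MP_f80667_ag.Kf.D2A

/-!
The points of degree `e ≥ 2` in the region `|x - a|² < |2|`, `1 < |y| < 1 / |4|`, by induction on `e`.

`K(y)` is the field of the point, `x' = x - a`, `λ² u (x'² - 4 q) = g(y)`; `α₁`, `α₂` are polynomials over `K` with `α₂(y) = λ`, `α₁(y) = λ x'` (of degree `< e` up to a small multiple of the minimal polynomial of `y`),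
`n = u (α₁² - 4 q α₂²) - g`. `n` has less than `2 e` zeros with `|z| ≤ 1 / |4|`. With `r = α₁ / α₂`, `C² (1 + 4 T) = 1 + 4 T ^ m E`, `T = r / u`:
`G = α₂ ^ (6 l) ((1 + (r³ / 2) ^ l)² u (α₁² - 4 q α₂²) - τ² C(T)² (1 + 4 T) g)`, `τ(y)` such that `G(y) = 0`, is close to `α₂ ^ (6 l) n` if `|r|² < |2|`, and has no zeros with `|r| > 1`.
-/

open ZC BE Polynomial IntermediateField

namespace PE

namespace Ld

variable {K Ω : Type} [Field K] [CharZero K] [Field Ω] [Algebra K Ω] [IsAlgClosure K Ω]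

/-- The form `α₂ (u α₂ + 4 α₁) (α₁² - 4 q α₂²)`. -/
noncomputable def fh (u q : K) (α₁ α₂ : K[X]) : K[X] :=
  α₂ * (C u * α₂ + 4 * α₁) * (α₁ ^ 2 - 4 * C q * α₂ ^ 2)

/-- The polynomial `u (α₁² - 4 q α₂²) - g`. -/
noncomputable def fn (u q : K) (g α₁ α₂ : K[X]) : K[X] :=
  C u * (α₁ ^ 2 - 4 * C q * α₂ ^ 2) - g

omit [IsAlgClosure K Ω] in
/-- `4 q` is not a square, up to squares. -/
private theorem da_sq (L : Ld K Ω) [L.Unr] (h2 : L.p = 2) {q : K}
    (hq : L.nm (algebraMap K Ω q) = L.nm 2) {a b : K} (h : a ^ 2 = 4 * q * b ^ 2) : b = 0 := by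
  by_contra hb
  have hch : CharZero Ω := charZero_of_injective_algebraMap (algebraMap K Ω).injective
  have hp : L.nm (L.p : Ω) = L.nm 2 := by rw [h2, Nat.cast_ofNat]
  have h20 : 0 < L.nm (2 : Ω) := L.pos two_ne_zero
  have h21 : L.nm (2 : Ω) < 1 := by
    rw [← hp]
    exact L.lt
  have hq0 : q ≠ 0 := by
    rintro rfl
    rw [map_zero, L.zero] at hq
    exact h20.ne hq
  have ha : a ≠ 0 := by
    rintro rfl
    have : (4 : K) * q * b ^ 2 ≠ 0 :=
      mul_ne_zero (mul_ne_zero (OfNat.ofNat_ne_zero 4) hq0) (pow_ne_zero 2 hb)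
    exact this (by rw [← h]; ring)
  obtain ⟨i, hi⟩ := L.unr a ha
  obtain ⟨j, hj⟩ := L.unr b hb
  rw [hp] at hi hj
  have h4 : L.nm (4 : Ω) = L.nm 2 ^ 2 := by
    rw [← L.pow]
    norm_num
  have h5 := congrArg (fun z => L.nm (algebraMap K Ω z)) h
  simp only [map_mul, map_pow, map_ofNat] at h5
  rw [L.pow, L.mul, L.mul, L.pow, hi, hj, hq, h4] at h5
  have h6 : L.nm (2 : Ω) ^ (2 * i) = L.nm (2 : Ω) ^ (3 + 2 * j) := by
    rw [zpow_add₀ h20.ne', zpow_mul', zpow_mul', show (3 : ℤ) = ((3 : ℕ) : ℤ) from rfl,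
      zpow_natCast]
    rw [show (2 : ℤ) = ((2 : ℕ) : ℤ) from rfl, zpow_natCast, zpow_natCast, h5]
    ring
  have h7 := zpow_right_injective₀ h20 h21.ne h6
  omega

omit [IsAlgClosure K Ω] in
/-- The degree of `a² - 4 q b²`. -/
private theorem da_deg (L : Ld K Ω) [L.Unr] (h2 : L.p = 2) {q : K}
    (hq : L.nm (algebraMap K Ω q) = L.nm 2) {α₁ α₂ : K[X]} {d : ℕ} (h1 : α₁.natDegree ≤ d)
    (h3 : α₂.natDegree ≤ d) (h4 : α₁.coeff d ≠ 0 ∨ α₂.coeff d ≠ 0) :
    (α₁ ^ 2 - 4 * C q * α₂ ^ 2).natDegree = 2 * d ∧ α₁ ^ 2 - 4 * C q * α₂ ^ 2 ≠ 0 := by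
  have hle : (α₁ ^ 2 - 4 * C q * α₂ ^ 2).natDegree ≤ 2 * d := by
    refine (natDegree_sub_le _ _).trans (max_le ?_ ?_)
    · exact natDegree_pow_le.trans (Nat.mul_le_mul_left 2 h1)
    · have h5 : (4 : K[X]) * C q = C (4 * q) := by
        rw [C_mul]
        rfl
      rw [h5]
      exact (natDegree_C_mul_le _ _).trans (natDegree_pow_le.trans (Nat.mul_le_mul_left 2 h3))
  have hc : (α₁ ^ 2 - 4 * C q * α₂ ^ 2).coeff (2 * d) =
      α₁.coeff d ^ 2 - 4 * q * α₂.coeff d ^ 2 := by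
    have h5 : (4 : K[X]) * C q = C (4 * q) := by
      rw [C_mul]
      rfl
    rw [h5, coeff_sub, coeff_C_mul]
    have h6 : ∀ α : K[X], α.natDegree ≤ d → (α ^ 2).coeff (2 * d) = α.coeff d ^ 2 := by
      intro α hα
      rw [sq, two_mul, sq]
      exact coeff_mul_add_eq_of_natDegree_le hα hα
    rw [h6 α₁ h1, h6 α₂ h3]
  have hne : (α₁ ^ 2 - 4 * C q * α₂ ^ 2).coeff (2 * d) ≠ 0 := by
    rw [hc]
    intro h5
    have h6 := da_sq L h2 hq (sub_eq_zero.1 h5)
    rw [h6, zero_pow two_ne_zero, mul_zero, sub_zero] at h5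
    rcases h4 with h4 | h4
    · exact h4 (pow_eq_zero_iff two_ne_zero |>.1 h5)
    · exact h4 h6
  exact ⟨le_antisymm hle (le_natDegree_of_ne_zero hne), fun h0 => hne (by rw [h0, coeff_zero])⟩


omit [CharZero K] [IsAlgClosure K Ω] in
/-- The coefficients are bounded. -/
private theorem da_bd (L : Ld K Ω) (P : K[X]) :
    ∃ B : ℝ, 0 < B ∧ ∀ i, L.nm (algebraMap K Ω (P.coeff i)) ≤ B := by
  have hn : ∀ i, 0 ≤ L.nm (algebraMap K Ω (P.coeff i)) := fun i => L.nonneg _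
  refine ⟨1 + ∑ i ∈ P.support, L.nm (algebraMap K Ω (P.coeff i)),
    add_pos_of_pos_of_nonneg one_pos (Finset.sum_nonneg fun i _ => hn i), fun i => ?_⟩
  by_cases hi : i ∈ P.support
  · have h1 := Finset.single_le_sum (fun i _ => hn i) hi
    linarith
  · rw [notMem_support_iff.1 hi, map_zero, L.zero]
    exact add_nonneg zero_le_one (Finset.sum_nonneg fun i _ => hn i)

/-- **The polynomials `α₁`, `α₂`.** Proof: `e` is the degree of `y`, `m` the minimal polynomial. Let `β₁`, `β₂` have degree `< e` and the values `μ`, `λ` at `y`. `fn u q g β₁ β₂ ≠ 0` has degree `< 2 e`: `β₁² - 4 q β₂²` has even degree `≤ 2 e - 2` (`4 q` is not a square: `nm q` is an odd power of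
`nm 2`), `g` has degree `3 < 2 e`. Choose `ε₂ ≠ 0`, then `ε₁` in `K` small: `α_i = β_i + ε_i m`. `α₂` has degree `e`; its roots `ζ` are not roots of `m` (`α₂(y') ≠ 0` at the conjugates `y'` of `y`), so `β₁(ζ) + ε₁ m(ζ) ≠ 0` for all but finitely many `ε₁`; also `u ε₂ + 4 ε₁ ≠ 0`. The degree of `fh`
is `4 e` (the leading coefficient is `ε₂ (u ε₂ + 4 ε₁) (ε₁² - 4 q ε₂²)`), times `g`: `4 e + 3`. The zeros: `cnt_small` for `Q = fn u q g β₁ β₂` and a small perturbation of degree `≤ 2 e`, `ϖ = 1 / 4`. -/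
theorem dalpha (L : Ld K Ω) [L.Unr] (h2 : L.p = 2) {g : K[X]} (hg : g.natDegree = 3) {u q : K}
    (hu : L.nm (algebraMap K Ω u) = 1) (hq : L.nm (algebraMap K Ω q) = L.nm 2) {y : Ω}
    (he : 2 ≤ Module.finrank K K⟮y⟯) {lam mu : Ω} (hl : lam ∈ K⟮y⟯) (hm : mu ∈ K⟮y⟯)
    (hl0 : lam ≠ 0)
    (heq : algebraMap K Ω u * (mu ^ 2 - 4 * algebraMap K Ω q * lam ^ 2) = aeval y g) :
    ∃ α₁ α₂ : K[X], IsCoprime α₁ α₂ ∧ aeval y α₁ = mu ∧ aeval y α₂ = lam ∧
      Odd (fh u q α₁ α₂ * g).natDegree ∧ fn u q g α₁ α₂ ≠ 0 ∧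
      (((fn u q g α₁ α₂).map (algebraMap K Ω)).roots.filter
        fun ζ => L.nm ζ ≤ L.nm (4 : Ω)⁻¹).card < 2 * Module.finrank K K⟮y⟯ := by
  classical
  have hch : CharZero Ω := charZero_of_injective_algebraMap (algebraMap K Ω).injective
  have hac : IsAlgClosed Ω := IsAlgClosure.isAlgClosed K
  have hint : IsIntegral K y := Algebra.IsIntegral.isIntegral y
  have hp : L.nm (L.p : Ω) = L.nm 2 := by rw [h2, Nat.cast_ofNat]
  have h20 : 0 < L.nm (2 : Ω) := L.pos two_ne_zero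
  have h21 : L.nm (2 : Ω) < 1 := by
    rw [← hp]
    exact L.lt
  obtain ⟨e, hee⟩ : ∃ e, e = Module.finrank K K⟮y⟯ := ⟨_, rfl⟩
  rw [← hee] at he ⊢
  obtain ⟨m, hmm⟩ : ∃ m, m = minpoly K y := ⟨_, rfl⟩
  have hmd : m.natDegree = e := by
    rw [hee, hmm]
    exact (IntermediateField.adjoin.finrank hint).symm
  have hmon : m.Monic := by
    rw [hmm]
    exact minpoly.monic hint
  have hmy : aeval y m = 0 := by
    rw [hmm]
    exact minpoly.aeval K y
  have hmc : m.coeff e = 1 := by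
    rw [← hmd]
    exact hmon
  obtain ⟨_, _, hI⟩ := L.interp y
  obtain ⟨β₁, h1, h1d, -⟩ := hI mu hm
  obtain ⟨β₂, h3, h3d, -⟩ := hI lam hl
  rw [← hee] at h1d h3d
  have hβ₂ : β₂ ≠ 0 := by
    rintro rfl
    rw [map_zero] at h3
    exact hl0 h3.symm
  have hu0 : u ≠ 0 := by
    rintro rfl
    rw [map_zero, L.zero] at hu
    exact zero_ne_one hu
  have hdc : β₁.coeff (max β₁.natDegree β₂.natDegree) ≠ 0 ∨
      β₂.coeff (max β₁.natDegree β₂.natDegree) ≠ 0 := by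
    rcases le_or_gt β₁.natDegree β₂.natDegree with h4 | h4
    · right
      rw [max_eq_right h4]
      exact leadingCoeff_ne_zero.2 hβ₂
    · left
      rw [max_eq_left h4.le]
      refine leadingCoeff_ne_zero.2 ?_
      rintro rfl
      rw [natDegree_zero] at h4
      exact absurd h4 (Nat.not_lt_zero _)
  obtain ⟨hd1, hd2⟩ := da_deg L h2 hq (le_max_left _ _) (le_max_right _ _) hdc
  have hdd : max β₁.natDegree β₂.natDegree < e := max_lt h1d h3d
  have hfd : (fn u q g β₁ β₂).natDegree < 2 * e := by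
    refine (natDegree_sub_le _ _).trans_lt (max_lt ?_ ?_)
    · refine (natDegree_C_mul_le _ _).trans_lt ?_
      rw [hd1]
      omega
    · omega
  have hf0 : fn u q g β₁ β₂ ≠ 0 := by
    intro h0
    have h4 := congrArg natDegree (sub_eq_zero.1 h0)
    rw [natDegree_C_mul hu0, hd1, hg] at h4
    omega
  have hQ : (fn u q g β₁ β₂).map (algebraMap K Ω) ≠ 0 := (Polynomial.map_ne_zero_iff
    (algebraMap K Ω).injective).2 hf0
  obtain ⟨ε, hε, hE⟩ := L.cnt_small hQ (2 * e) (ϖ := (4 : Ω)⁻¹)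
    (inv_ne_zero (OfNat.ofNat_ne_zero 4))
  obtain ⟨B₁, hB₁, hb1⟩ := da_bd L (β₁ * m)
  obtain ⟨B₂, hB₂, hb2⟩ := da_bd L (β₂ * m)
  obtain ⟨B₃, hB₃, hb3⟩ := da_bd L (m ^ 2)
  obtain ⟨B, hBB, hB1, hB2, hB3⟩ : ∃ B : ℝ, 0 < B ∧ B₁ ≤ B ∧ B₂ ≤ B ∧ B₃ ≤ B :=
    ⟨max B₁ (max B₂ B₃), lt_max_of_lt_left hB₁, le_max_left _ _,
      (le_max_left _ _).trans (le_max_right _ _), (le_max_right _ _).trans (le_max_right _ _)⟩
  obtain ⟨N, hN⟩ := exists_pow_lt_of_lt_one (div_pos hε hBB) h21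
  have hnN : ∀ j : ℕ, N ≤ j → L.nm (algebraMap K Ω (2 ^ j)) ≤ 1 ∧
      L.nm (algebraMap K Ω (2 ^ j)) * B ≤ ε := by
    intro j hj
    rw [map_pow, map_ofNat, L.pow]
    refine ⟨pow_le_one₀ h20.le h21.le, ?_⟩
    rw [← le_div_iff₀ hBB]
    exact (pow_le_pow_of_le_one h20.le h21.le hj).trans hN.le
  -- the second polynomial
  obtain ⟨ε₂, hε₂⟩ : ∃ ε₂ : K, ε₂ = 2 ^ N := ⟨_, rfl⟩
  have hε₂0 : ε₂ ≠ 0 := by
    rw [hε₂]
    exact pow_ne_zero _ two_ne_zero
  obtain ⟨α₂, hα₂⟩ : ∃ α₂, α₂ = β₂ + C ε₂ * m := ⟨_, rfl⟩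
  have hc2 : α₂.coeff e = ε₂ := by
    rw [hα₂, coeff_add, coeff_C_mul, hmc, coeff_eq_zero_of_natDegree_lt h3d, zero_add, mul_one]
  have hd2' : α₂.natDegree ≤ e := by
    rw [hα₂]
    refine (natDegree_add_le _ _).trans (max_le h3d.le ?_)
    exact (natDegree_C_mul_le _ _).trans hmd.le
  have hα₂0 : α₂ ≠ 0 := by
    rintro h0
    rw [h0, coeff_zero] at hc2
    exact hε₂0 hc2.symm
  -- the choice of the first polynomial
  have hinj : Function.Injective fun j : ℕ => algebraMap K Ω (2 ^ (N + j)) := by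
    intro i j hij
    have h4 := (algebraMap K Ω).injective hij
    have h5 : (2 : K) ^ (N + i) = 2 ^ (N + j) := h4
    have h6 : ((2 ^ (N + i) : ℕ) : K) = ((2 ^ (N + j) : ℕ) : K) := by
      push_cast
      exact h5
    have h7 := Nat.pow_right_injective le_rfl (Nat.cast_injective h6)
    omega
  obtain ⟨x, ⟨j, rfl⟩, hx⟩ := (Set.infinite_range_of_injective hinj).exists_notMem_finset
    (insert (-(algebraMap K Ω u * algebraMap K Ω ε₂) / 4)
      ((α₂.map (algebraMap K Ω)).roots.toFinset.image fun ζ => -(aeval ζ β₁) / aeval ζ m))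
  rw [Finset.mem_insert, not_or] at hx
  obtain ⟨hx1, hx2⟩ := hx
  obtain ⟨ε₁, hε₁⟩ : ∃ ε₁ : K, ε₁ = 2 ^ (N + j) := ⟨_, rfl⟩
  dsimp only at hx1 hx2
  rw [← hε₁] at hx1 hx2
  obtain ⟨hn1, hn1'⟩ := hnN (N + j) (Nat.le_add_right _ _)
  obtain ⟨hn2, hn2'⟩ := hnN N le_rfl
  rw [← hε₁] at hn1 hn1'
  rw [← hε₂] at hn2 hn2'
  obtain ⟨α₁, hα₁⟩ : ∃ α₁, α₁ = β₁ + C ε₁ * m := ⟨_, rfl⟩
  have hc1 : α₁.coeff e = ε₁ := by
    rw [hα₁, coeff_add, coeff_C_mul, hmc, coeff_eq_zero_of_natDegree_lt h1d, zero_add, mul_one]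
  have hd1' : α₁.natDegree ≤ e := by
    rw [hα₁]
    refine (natDegree_add_le _ _).trans (max_le h1d.le ?_)
    exact (natDegree_C_mul_le _ _).trans hmd.le
  have huε : u * ε₂ + 4 * ε₁ ≠ 0 := by
    intro h0
    apply hx1
    have h4 := congrArg (algebraMap K Ω) h0
    simp only [map_add, map_mul, map_ofNat, map_zero] at h4
    have h5 : (4 : Ω) ≠ 0 := OfNat.ofNat_ne_zero 4
    rw [eq_div_iff h5]
    linear_combination h4
  have hcop : IsCoprime α₁ α₂ := by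
    rw [isCoprime_iff_aeval_ne_zero_of_isAlgClosed K Ω]
    intro ζ
    by_contra hcon
    push Not at hcon
    obtain ⟨hz1, hz2⟩ := hcon
    have hmz : aeval ζ m ≠ 0 := by
      intro h0
      have h4 : aeval ζ β₂ = 0 := by
        rw [hα₂, map_add, map_mul, h0, mul_zero, add_zero] at hz2
        exact hz2
      have h5 : m = minpoly K ζ := minpoly.eq_of_irreducible_of_monic (by
        rw [hmm]
        exact minpoly.irreducible hint) h0 hmon
      have h6 := natDegree_le_of_dvd (minpoly.dvd K ζ h4) hβ₂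
      rw [← h5, hmd] at h6
      omega
    apply hx2
    refine Finset.mem_image.2 ⟨ζ, ?_, ?_⟩
    · rw [Multiset.mem_toFinset, mem_roots ((Polynomial.map_ne_zero_iff
        (algebraMap K Ω).injective).2 hα₂0), IsRoot.def, eval_map_algebraMap]
      exact hz2
    · rw [div_eq_iff hmz]
      rw [hα₁, map_add, map_mul, aeval_C] at hz1
      linear_combination -hz1
  -- the perturbation
  have h44 : (4 : K[X]) = C 4 := rfl
  have hfn : (fn u q g α₁ α₂).map (algebraMap K Ω) = (fn u q g β₁ β₂).map (algebraMap K Ω) +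
      (C (2 * ε₁ * u) * (β₁ * m) + C (u * ε₁ ^ 2) * m ^ 2 + (C (-(8 * q * u * ε₂)) * (β₂ * m) +
        C (-(4 * q * u * ε₂ ^ 2)) * m ^ 2)).map (algebraMap K Ω) := by
    rw [← Polynomial.map_add]
    congr 1
    unfold fn
    rw [hα₁, hα₂]
    simp only [C_mul, C_neg, C_pow, h44]
    have h5 : (C 8 : K[X]) = C 4 * C 2 := by
      rw [← C_mul]
      norm_num
    have h6 : (C 2 : K[X]) = 2 := rfl
    rw [h5, h6]
    ring
  have h4u : L.nm (algebraMap K Ω q) ≤ 1 := by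
    rw [hq]
    exact h21.le
  obtain ⟨hPE, hcard⟩ := hE ((C (2 * ε₁ * u) * (β₁ * m) + C (u * ε₁ ^ 2) * m ^ 2 +
      (C (-(8 * q * u * ε₂)) * (β₂ * m) + C (-(4 * q * u * ε₂ ^ 2)) * m ^ 2)).map
        (algebraMap K Ω)) (by
    rw [natDegree_map]
    have hA : ∀ (c : K) (P : K[X]), P.natDegree ≤ 2 * e → (C c * P).natDegree ≤ 2 * e :=
      fun c P hP => (natDegree_C_mul_le _ _).trans hP
    have hS : (m ^ 2).natDegree ≤ 2 * e := natDegree_pow_le.trans (by rw [hmd])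
    have hT : ∀ P : K[X], P.natDegree < e → (P * m).natDegree ≤ 2 * e := fun P hP =>
      natDegree_mul_le.trans (by omega)
    refine (natDegree_add_le _ _).trans (max_le ((natDegree_add_le _ _).trans (max_le ?_ ?_))
      ((natDegree_add_le _ _).trans (max_le ?_ ?_)))
    · exact hA _ _ (hT _ h1d)
    · exact hA _ _ hS
    · exact hA _ _ (hT _ h3d)
    · exact hA _ _ hS) (fun i => by
    rw [coeff_map]
    have hK : ∀ (c ε' : K) (P : K[X]) (B' : ℝ), L.nm (algebraMap K Ω c) ≤ 1 →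
        L.nm (algebraMap K Ω ε') ≤ 1 → L.nm (algebraMap K Ω ε') * B ≤ ε → B' ≤ B →
        (∀ i, L.nm (algebraMap K Ω (P.coeff i)) ≤ B') →
        L.nm (algebraMap K Ω ((C (c * ε') * P).coeff i)) ≤ ε := by
      intro c ε' P B' hc hε' hε'' hB' hP
      rw [coeff_C_mul, map_mul, map_mul, L.mul, L.mul]
      refine le_trans ?_ hε''
      have h5 : L.nm (algebraMap K Ω c) * L.nm (algebraMap K Ω ε') ≤
          L.nm (algebraMap K Ω ε') := mul_le_of_le_one_left (L.nonneg _) hc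
      exact mul_le_mul h5 ((hP i).trans hB') (L.nonneg _) (L.nonneg _)
    have hle : ∀ a b : K, L.nm (algebraMap K Ω a) ≤ 1 → L.nm (algebraMap K Ω b) ≤ 1 →
        L.nm (algebraMap K Ω (a * b)) ≤ 1 := by
      intro a b ha hb
      rw [map_mul, L.mul]
      exact mul_le_one₀ ha (L.nonneg _) hb
    have hnat : ∀ n : ℕ, L.nm (algebraMap K Ω (n : K)) ≤ 1 := by
      intro n
      rw [map_natCast]
      exact L.nat_le n
    have hneg : ∀ a : K, L.nm (algebraMap K Ω a) ≤ 1 → L.nm (algebraMap K Ω (-a)) ≤ 1 := by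
      intro a ha
      rw [map_neg, L.neg]
      exact ha
    have h28 : L.nm (algebraMap K Ω (2 : K)) ≤ 1 := by
      have := hnat 2
      rwa [Nat.cast_ofNat] at this
    have h48 : L.nm (algebraMap K Ω (4 : K)) ≤ 1 := by
      have := hnat 4
      rwa [Nat.cast_ofNat] at this
    have h88 : L.nm (algebraMap K Ω (8 : K)) ≤ 1 := by
      have := hnat 8
      rwa [Nat.cast_ofNat] at this
    rw [coeff_add, map_add, coeff_add, coeff_add, map_add, map_add]
    refine (L.add _ _).trans (max_le ((L.add _ _).trans (max_le ?_ ?_))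
      ((L.add _ _).trans (max_le ?_ ?_)))
    · rw [show 2 * ε₁ * u = (2 * u) * ε₁ by ring]
      exact hK _ _ _ _ (hle _ _ h28 hu.le) hn1 hn1' hB1 hb1
    · rw [show u * ε₁ ^ 2 = (u * ε₁) * ε₁ by ring]
      exact hK _ _ _ _ (hle _ _ hu.le hn1) hn1 hn1' hB3 hb3
    · rw [show -(8 * q * u * ε₂) = (-(8 * q * u)) * ε₂ by ring]
      exact hK _ _ _ _ (hneg _ (hle _ _ (hle _ _ h88 h4u) hu.le)) hn2 hn2' hB2 hb2
    · rw [show -(4 * q * u * ε₂ ^ 2) = (-(4 * q * u * ε₂)) * ε₂ by ring]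
      exact hK _ _ _ _ (hneg _ (hle _ _ (hle _ _ (hle _ _ h48 h4u) hu.le) hn2)) hn2 hn2'
        hB3 hb3)
  rw [← hfn] at hPE hcard
  refine ⟨α₁, α₂, hcop, ?_, ?_, ?_, ?_, ?_⟩
  · rw [hα₁, map_add, map_mul, hmy, mul_zero, add_zero, h1]
  · rw [hα₂, map_add, map_mul, hmy, mul_zero, add_zero, h3]
  · obtain ⟨ht1, ht2⟩ := da_deg L h2 hq hd1' hd2' (Or.inr (by rw [hc2]; exact hε₂0))
    have hs1 : (C u * α₂ + 4 * α₁).coeff e ≠ 0 := by
      rw [h44, coeff_add, coeff_C_mul, coeff_C_mul, hc1, hc2]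
      exact huε
    have hs2 : (C u * α₂ + 4 * α₁) ≠ 0 := fun h0 => hs1 (by rw [h0, coeff_zero])
    have hs3 : (C u * α₂ + 4 * α₁).natDegree = e := by
      refine le_antisymm ((natDegree_add_le _ _).trans (max_le ?_ ?_))
        (le_natDegree_of_ne_zero hs1)
      · exact (natDegree_C_mul_le _ _).trans hd2'
      · rw [h44]
        exact (natDegree_C_mul_le _ _).trans hd1'
    have hs4 : α₂.natDegree = e := le_antisymm hd2' (le_natDegree_of_ne_zero (by
      rw [hc2]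
      exact hε₂0))
    have hg0 : g ≠ 0 := by
      rintro rfl
      rw [natDegree_zero] at hg
      omega
    unfold fh
    rw [natDegree_mul (mul_ne_zero (mul_ne_zero hα₂0 hs2) ht2) hg0,
      natDegree_mul (mul_ne_zero hα₂0 hs2) ht2, natDegree_mul hα₂0 hs2, hs4, hs3, ht1, hg]
    exact ⟨2 * e + 1, by ring⟩
  · intro h0
    apply hPE
    rw [h0, Polynomial.map_zero]
  · refine hcard.trans_lt ?_
    rw [natDegree_map]
    exact hfd

/-- **The approximation.** Proof: `pw_sq m` for a large `m`: `C`, `E`; `d` the degree of `C`; then `l` large with `6 l ≥ 2 d + 2`, `k = 6 l`. `P = α₂ ^ (3 l) + (α₁³ / 2) ^ l`, `Q = α₂ ^ (3 l - 1) C(α₁ / (u α₂))` (a polynomial), `τ` a polynomial with `τ(y) = τ₀` and small coefficients of `τ - 1` (`interp` for `τ₀ - 1`),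
`G = u P² (α₁² - 4 q α₂²) - τ² Q² α₂ (α₂ + 4 α₁ / u) g`, `A₁ = u (α₁² - 4 q α₂²) P`, `A₂ = τ Q`. With `r = α₁ / α₂` at `y` (`|r|² < |2|`): `C(r / u)² (1 + 4 r / u) = 1 + 4 (r / u) ^ m E(r / u) = (1 + 2 v)²`, `|v| ≤ |r| ^ m` (`sq_two`; `v` is in `K(y)`); `G(y) = 0` if `τ₀ = (1 + (r³ / 2) ^ l) / (1 + 2 v)` (with `fn(y) = 0`):
`τ₀ - 1` is small. In the region: `|(r³ / 2) ^ l| ≤ |2| ^ (l / 2)`, `|C² (1 + 4 T) - 1| ≤ |2| ^ (m / 2)`, and `α₁`, `α₂`, `g`, `τ` are bounded on `|z| ≤ 1 / |4|` (`ev_bdd`). If `G(z) = 0`, `|α₁(z)| > |α₂(z)|`: `α₂(z) ≠ 0` (otherwise `G(z) = u (α₁³ / 2) ^ (2 l) α₁² ≠ 0`), `|P(z)| = |α₁³ / 2| ^ l`,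
`|α₁² - 4 q α₂²| = |α₁|²`, `|Q² α₂ (α₂ + 4 α₁ / u)| ≤ |α₂| ^ (6 l - 2 d - 1) |α₁| ^ (2 d + 1)`, so `|α₁(z)|² ≤ |2| ^ (2 l) |g(z)|`; but `max (|α₁(z)|, |α₂(z)|) ≥ 1 / B` because `s α₁ + t α₂ = 1` with `s`, `t` bounded on the disc. -/
theorem dapp (L : Ld K Ω) [L.Unr] (h2 : L.p = 2) {g : K[X]} {u q : K}
    (hu : L.nm (algebraMap K Ω u) = 1) (hq : L.nm (algebraMap K Ω q) = L.nm 2) {y : Ω}
    {α₁ α₂ : K[X]} (hc : IsCoprime α₁ α₂) (h0 : aeval y α₂ ≠ 0)
    (hr : L.nm (aeval y α₁) ^ 2 < L.nm 2 * L.nm (aeval y α₂) ^ 2)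
    (hy : L.nm 4 * L.nm y < 1) (heq : aeval y (fn u q g α₁ α₂) = 0) (hg0 : aeval y g ≠ 0) {δ : ℝ}
    (hδ : 0 < δ) :
    ∃ (A₁ A₂ G : K[X]) (k : ℕ), (A₁ ≠ 0 ∨ A₂ ≠ 0) ∧
      A₁ ^ 2 - A₂ ^ 2 * (fh u q α₁ α₂ * g) = C u * (α₁ ^ 2 - 4 * C q * α₂ ^ 2) * G ∧
      aeval y G = 0 ∧
      (∀ z : Ω, L.Rg (α₁.map (algebraMap K Ω)) (α₂.map (algebraMap K Ω)) z →
        L.nm (aeval z G - aeval z α₂ ^ k * aeval z (fn u q g α₁ α₂)) ≤
          L.nm (aeval z α₂) ^ k * δ) ∧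
      ∀ z : Ω, L.nm 4 * L.nm z < 1 → aeval z G = 0 → L.nm (aeval z α₁) ≤ L.nm (aeval z α₂) := by
  exact L.dappA h2 hu hq hc h0 hr heq hg0 hδ

end Ld

variable {F : Type} [Field F] {f g : F[X]} {K : Type} [Field K] [CharZero K]
  [Algebra F K] {Ω : Type} [Field Ω] [Algebra K Ω] [Algebra F Ω] [IsScalarTower F K Ω]
  [IsAlgClosure K Ω] [C3 f] [C3 g] {L : Ld K Ω} {a u q c₂ c₄ b : K}

/-- **The induction step.** Proof: `x' = x - a`; `1 + 4 x' / u = σ²`, `σ` in `K(y)` (`sq_two`), `λ = w / (u σ (x'² - 4 q))`, `μ = λ x'`; `dalpha`, `dcount` for `n = fn`, `dapp` for this `δ`. `rel_clK` with `R = α₁ + a α₂`, `α = α₂`: `hh = fh g` (`N2.hF`, `N2.gK`), `nR = u (α₁² - 4 q α₂²) G ≠ 0` (`nR_ne`, `nsq_odd`). At the points of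
the curve with `h(z) ≠ 0` the multiplicity of `z` in `nR` is the one in `G`. Let `m` be the minimal polynomial of `y`. The multiplicity of `y` in `G` is `1`: otherwise `m²` divides `G` and `dcount` for `Q = m²` gives `2 e ≤ card < 2 e` (the conjugates of `y` are in the region). Another point `kp x₁ z w₁`, `x₁ = a + r`, `r = α₁(z) / α₂(z)`: `|z| ≤ 1`:
`N2.t1`; `|4| |z| ≥ 1`: `N2.bb`; otherwise `|r| ≤ 1` (`dapp`); `|2| ≤ |r|²`: `N2.t2`; otherwise `z` is in the region, the product of `m` and the minimal polynomial of `z` divides `G`, so the degree of `z` is less than `e` (`dcount`). `x₁` is in `K(z)`. If `w₁` is in `K(z)`: `IH`. Otherwise there is `γ` with `γ z = z`, `γ w₁ = - w₁`: `conj_tp`. -/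
theorem N2.dd [L.Unr] (h : N2 L f g a u q c₂ c₄ b) (hU : Uh L f g) {x y w : Ω}
    (hs : Sp f g x y w) (hx : L.nm (x - algebraMap K Ω a) ^ 2 < L.nm 2) (hy : 1 < L.nm y)
    (hy4 : L.nm 4 * L.nm y < 1) (hxy : x ∈ K⟮y⟯) (hwy : w ∈ K⟮y⟯)
    (he : 2 ≤ Module.finrank K K⟮y⟯)
    (IH : ∀ x' y' w' : Ω, Sp f g x' y' w' → L.nm (x' - algebraMap K Ω a) ^ 2 < L.nm 2 →
      Module.finrank K (IntermediateField.adjoin K {x', y', w'}) < Module.finrank K K⟮y⟯ →
      Tp f g K (kp f g x' y' w')) : Tp f g K (kp f g x y w) := by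
  classical
  have hch : CharZero Ω := charZero_of_injective_algebraMap (algebraMap K Ω).injective
  have hgm : ∀ z : Ω, aeval z (g.map (algebraMap F K)) = aeval z g := fun z =>
    aeval_map_algebraMap K z g
  obtain ⟨lam, hlM, hl0, hleq⟩ := h.dd_lam hs hx hxy hwy
  obtain ⟨α₁, α₂, hc, hα₁, hα₂, hodd, hfn, hcard⟩ := L.dalpha h.p2
    (g := g.map (algebraMap F K)) (by rw [natDegree_map]; exact C3.deg) h.dd_u (by rw [h.nq]) he
    hlM (mul_mem hlM (sub_mem hxy (K⟮y⟯.algebraMap_mem a))) hl0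
    (by rw [hgm]; exact hleq)
  have hfnM : (Ld.fn u q (g.map (algebraMap F K)) α₁ α₂).map (algebraMap K Ω) ≠ 0 :=
    (Polynomial.map_ne_zero_iff (algebraMap K Ω).injective).2 hfn
  have hcM : IsCoprime (α₁.map (algebraMap K Ω)) (α₂.map (algebraMap K Ω)) :=
    hc.map (mapRingHom (algebraMap K Ω))
  obtain ⟨δ, hδ, hd⟩ := L.dcount hfnM hcM
  have hr : L.nm (aeval y α₁) ^ 2 < L.nm 2 * L.nm (aeval y α₂) ^ 2 := by
    rw [hα₁, hα₂, L.mul, mul_pow, mul_comm]
    exact mul_lt_mul_of_pos_right hx (pow_pos (L.pos hl0) 2)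
  obtain ⟨A₁, A₂, G, k, hA, hAG, hGy, hclose, hGz⟩ := L.dapp h.p2 (g := g.map (algebraMap F K))
    h.dd_u (by rw [h.nq]) hc (by rw [hα₂]; exact hl0) hr hy4 (by
      simp only [Ld.fn, map_sub, map_mul, map_pow, map_ofNat, aeval_C]
      rw [hα₁, hα₂, hgm, hleq, sub_self]) (by rw [hgm]; exact hs.gy) hδ
  obtain ⟨R, hR⟩ : ∃ R, R = α₁ + C a * α₂ := ⟨_, rfl⟩
  have hhR : hh f g R α₂ = Ld.fh u q α₁ α₂ * g.map (algebraMap F K) := by
    unfold hh Ld.fh
    rw [hR, h.hF]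
  have hsq : ∀ r : K[X], r ^ 2 ≠ hh f g R α₂ := by
    rw [hhR]
    exact nsq_odd hodd
  have hn : nR f g R α₂ A₁ A₂ ≠ 0 := nR_ne hsq hA
  have hnR : nR f g R α₂ A₁ A₂ = C u * (α₁ ^ 2 - 4 * C q * α₂ ^ 2) * G := by
    unfold nR
    rw [hhR, hAG]
  have hG0 : G ≠ 0 := by
    rintro rfl
    rw [hnR, mul_zero] at hn
    exact hn rfl
  have hGM : G.map (algebraMap K Ω) ≠ 0 :=
    (Polynomial.map_ne_zero_iff (algebraMap K Ω).injective).2 hG0
  have hRc : IsCoprime R α₂ := by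
    rw [hR]
    exact IsCoprime.add_mul_right_left hc (C a)
  have hRa : ∀ z : Ω, aeval z R = aeval z α₁ + algebraMap K Ω a * aeval z α₂ := fun z => by
    rw [hR, map_add, map_mul, aeval_C]
  -- the region
  have hRg : L.Rg (α₁.map (algebraMap K Ω)) (α₂.map (algebraMap K Ω)) y := by
    refine ⟨hy, hy4, ?_⟩
    rw [eval_map_algebraMap, eval_map_algebraMap]
    exact hr
  have hclose' : ∀ z : Ω, L.Rg (α₁.map (algebraMap K Ω)) (α₂.map (algebraMap K Ω)) z →
      L.nm ((G.map (algebraMap K Ω)).eval z - (α₂.map (algebraMap K Ω)).eval z ^ k *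
        ((Ld.fn u q (g.map (algebraMap F K)) α₁ α₂).map (algebraMap K Ω)).eval z) ≤
      L.nm ((α₂.map (algebraMap K Ω)).eval z) ^ k * δ := fun z hz => by
    rw [eval_map_algebraMap, eval_map_algebraMap, eval_map_algebraMap]
    exact hclose z hz
  have hcnt : ∀ Q : K[X], Q ∣ G → (∀ z : Ω, aeval z Q = 0 →
      L.Rg (α₁.map (algebraMap K Ω)) (α₂.map (algebraMap K Ω)) z) →
      Q.natDegree < 2 * Module.finrank K K⟮y⟯ := by
    intro Q hQG hQ
    have h1 := hd k (G.map (algebraMap K Ω)) hGM hclose' (Q.map (algebraMap K Ω))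
      (Polynomial.map_dvd _ hQG) fun z hz => hQ z (by
        have h2 := isRoot_of_mem_roots hz
        rwa [IsRoot.def, eval_map_algebraMap] at h2)
    rw [natDegree_map] at h1
    exact h1.trans_lt hcard
  have hmy := minpoly.ne_zero (dd_int (K := K) y)
  refine rel_clK hRc hsq hn hs (by rw [hRa, hα₁, hα₂]; ring) ?_ ?_
  · -- the multiplicity of `y`
    have h1 : ¬ (minpoly K y) ^ 2 ∣ G := by
      intro hdv
      have h2 := hcnt _ hdv fun z hz => dd_rg L hRg (by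
        rw [map_pow] at hz
        exact pow_eq_zero_iff two_ne_zero |>.1 hz)
      rw [natDegree_pow, dd_deg] at h2
      exact lt_irrefl _ h2
    have hne : (nR f g R α₂ A₁ A₂).map (algebraMap K Ω) ≠ 0 :=
      (Polynomial.map_ne_zero_iff (algebraMap K Ω).injective).2 hn
    rw [hnR, Polynomial.map_mul] at hne ⊢
    rw [rootMultiplicity_mul hne, dd_mult hG0 hGy h1, rootMultiplicity_eq_zero]
    · exact odd_one
    · rw [IsRoot.def, eval_map_algebraMap]
      simp only [map_sub, map_mul, map_pow, map_ofNat, aeval_C]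
      rw [hα₁, hα₂, hleq]
      exact hs.gy
  · -- the other points
    intro x₁ z w₁ hs₁ hx₁ hod hnc
    have ha2 : aeval z α₂ ≠ 0 := by
      intro h0
      obtain ⟨s, t, hst⟩ := hRc
      have h1 := congrArg (aeval z) hst
      rw [map_add, map_mul, map_mul, ← hx₁, h0, zero_mul, mul_zero, mul_zero, add_zero,
        map_one] at h1
      exact zero_ne_one h1
    have hxr : aeval z α₂ * (x₁ - algebraMap K Ω a) = aeval z α₁ := by
      rw [mul_sub, hx₁, hRa]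
      ring
    have hN : aeval z (α₁ ^ 2 - 4 * C q * α₂ ^ 2) ≠ 0 := by
      intro h0
      have h1 := hh_aeval f g hx₁
      rw [hhR] at h1
      unfold Ld.fh at h1
      rw [map_mul, map_mul, h0, mul_zero, zero_mul] at h1
      exact mul_ne_zero (pow_ne_zero 4 ha2) (mul_ne_zero hs₁.fx hs₁.gy) h1.symm
    have hG : aeval z G = 0 := by
      by_contra h0
      have h1 : rootMultiplicity z ((nR f g R α₂ A₁ A₂).map (algebraMap K Ω)) = 0 := by
        refine rootMultiplicity_eq_zero ?_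
        rw [IsRoot.def, eval_map_algebraMap, hnR, map_mul, map_mul, aeval_C]
        exact mul_ne_zero (mul_ne_zero (L.ne_zero (by rw [h.dd_u]; exact one_pos)) hN) h0
      rw [h1] at hod
      exact absurd hod (by decide)
    rcases le_or_gt (L.nm z) 1 with h1 | h1
    · exact h.t1 hU hs₁ h1
    rcases le_or_gt 1 (L.nm 4 * L.nm z) with h4 | h4
    · exact h.bb hU hs₁ h4
    have hle := hGz z h4 hG
    have ha2p := L.pos ha2
    rw [← hxr, L.mul] at hle
    have hx1 : L.nm (x₁ - algebraMap K Ω a) ≤ 1 := by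
      refine le_of_mul_le_mul_left ?_ ha2p
      rw [mul_one]
      exact hle
    rcases le_or_gt (L.nm 2) (L.nm (x₁ - algebraMap K Ω a) ^ 2) with h2 | h2
    · exact h.t2 hU hs₁ h2 hx1
    have hRz : L.Rg (α₁.map (algebraMap K Ω)) (α₂.map (algebraMap K Ω)) z := by
      refine ⟨h1, h4, ?_⟩
      rw [eval_map_algebraMap, eval_map_algebraMap, ← hxr, L.mul, mul_pow, mul_comm]
      exact mul_lt_mul_of_pos_right h2 (pow_pos ha2p 2)
    have hdz : Module.finrank K K⟮z⟯ < Module.finrank K K⟮y⟯ := by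
      have h3 := hcnt (minpoly K y * minpoly K z)
        ((dd_cop hnc).mul_dvd (minpoly.dvd K y hGy) (minpoly.dvd K z hG)) fun t ht => by
          rw [map_mul] at ht
          rcases mul_eq_zero.1 ht with h5 | h5
          · exact dd_rg L hRg h5
          · exact dd_rg L hRz h5
      rw [natDegree_mul hmy (minpoly.ne_zero (dd_int z)), dd_deg, dd_deg] at h3
      omega
    have hzM : z ∈ K⟮z⟯ := IntermediateField.mem_adjoin_simple_self K z
    have hev : ∀ P : K[X], aeval z P ∈ K⟮z⟯ := fun P => by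
      have := (aeval (⟨z, hzM⟩ : K⟮z⟯) P).2
      rwa [← IntermediateField.aeval_coe] at this
    have hx₁M : x₁ ∈ K⟮z⟯ := by
      have h3 : x₁ = aeval z R / aeval z α₂ := by
        rw [← hx₁, mul_div_cancel_left₀ _ ha2]
      rw [h3]
      exact div_mem (hev R) (hev α₂)
    by_cases hw : w₁ ∈ K⟮z⟯
    · refine IH x₁ z w₁ hs₁ h2 ?_
      have h3 : IntermediateField.adjoin K {x₁, z, w₁} = K⟮z⟯ := by
        refine le_antisymm (IntermediateField.adjoin_le_iff.2 ?_)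
          (IntermediateField.adjoin.mono K _ _ ?_)
        · rintro t (rfl | rfl | rfl)
          · exact hx₁M
          · exact hzM
          · exact hw
        · rintro t rfl
          exact Or.inr (Or.inl rfl)
      rw [h3]
      exact hdz
    · have hw2 : w₁ ^ 2 ∈ K⟮z⟯ := by
        rw [hs₁.1]
        have h3 : aeval x₁ f ∈ K⟮z⟯ := by
          rw [h.fe]
          have h2M : (2 : Ω) ∈ K⟮z⟯ := by
            have := K⟮z⟯.natCast_mem 2
            rwa [Nat.cast_ofNat] at this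
          have h4M : (4 : Ω) ∈ K⟮z⟯ := by
            have := K⟮z⟯.natCast_mem 4
            rwa [Nat.cast_ofNat] at this
          have htM : x₁ - algebraMap K Ω a ∈ K⟮z⟯ := sub_mem hx₁M (K⟮z⟯.algebraMap_mem a)
          exact mul_mem (add_mem (K⟮z⟯.algebraMap_mem u) (mul_mem h4M htM))
            (sub_mem (pow_mem htM 2) (mul_mem h4M (K⟮z⟯.algebraMap_mem q)))
        have h4 : aeval z g ∈ K⟮z⟯ := by
          rw [← hgm]
          exact hev _
        exact mul_mem h3 h4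
      obtain ⟨σ, hσ, hσw⟩ := dd_neg hw2 hw
      have hσ' := (IntermediateField.mem_fixingSubgroup_iff K⟮z⟯ σ).1 hσ
      exact conj_tp hs₁ (hσ' x₁ hx₁M) (hσ' z hzM) hσw

/-- **The region `|x - a|² < |2|`.** Proof: strong induction on the degree of `K(x, y, w)`; `N2.t1`, `N2.bb`; degree `1`: `N2.ee`; otherwise `N2.pert` and `N2.dd`. -/
theorem N2.ii [L.Unr] (h : N2 L f g a u q c₂ c₄ b) (hU : Uh L f g) {x y w : Ω}
    (hs : Sp f g x y w) (hx : L.nm (x - algebraMap K Ω a) ^ 2 < L.nm 2) :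
    Tp f g K (kp f g x y w) := by
  obtain ⟨n, hn⟩ : ∃ n, n = Module.finrank K (IntermediateField.adjoin K {x, y, w}) := ⟨_, rfl⟩
  induction n using Nat.strong_induction_on generalizing x y w with
  | _ n ih =>
    rcases le_or_gt (L.nm y) 1 with h1 | h1
    · exact h.t1 hU hs h1
    rcases le_or_gt 1 (L.nm 4 * L.nm y) with h4 | h4
    · exact h.bb hU hs h4
    by_cases hn1 : Module.finrank K (IntermediateField.adjoin K {x, y, w}) = 1
    · have hb := IntermediateField.finrank_eq_one_iff.1 hn1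
      have hm : ∀ z ∈ ({x, y, w} : Set Ω), ∃ z₀ : K, algebraMap K Ω z₀ = z := by
        intro z hz
        have hz' := IntermediateField.subset_adjoin K _ hz
        rw [hb] at hz'
        exact IntermediateField.mem_bot.1 hz'
      obtain ⟨x₀, rfl⟩ := hm x (Set.mem_insert _ _)
      obtain ⟨y₀, rfl⟩ := hm y (Set.mem_insert_of_mem _ (Set.mem_insert _ _))
      obtain ⟨w₀, rfl⟩ := hm w
        (Set.mem_insert_of_mem _ (Set.mem_insert_of_mem _ (Set.mem_singleton _)))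
      exact h.ee hU hs hx h1 h4
    · obtain ⟨y', w', hs', hny, hK, hx', hw', ht⟩ := h.pert hU hs h1
      have hfin : FiniteDimensional K (IntermediateField.adjoin K {y'}) :=
        IntermediateField.adjoin.finiteDimensional (Algebra.IsIntegral.isIntegral y')
      refine ht (h.dd hU hs' hx (by rw [hny]; exact h1) (by rw [hny]; exact h4) hx' hw' ?_ ?_)
      · have hpos : 0 < Module.finrank K (IntermediateField.adjoin K {y'}) :=
          Module.finrank_pos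
        rw [← hK] at hn1
        omega
      · intro x' y'' w'' hs'' hx'' hlt
        refine ih _ ?_ hs'' hx'' rfl
        rw [hn, ← hK]
        exact hlt

/-- **The place two.** Proof: `kp_or`, `bad_tp`, `N2.ii`, `N2.t2`, `N2.ff`. -/
theorem N2.all [L.Unr] (h : N2 L f g a u q c₂ c₄ b) (hU : Uh L f g) (p : (Kv f g).pt Ω) :
    Tp f g K p := by
  rcases kp_or p with hp | ⟨x, y, w, hs, rfl⟩
  · exact bad_tp hp
  · rcases lt_or_ge (L.nm (x - algebraMap K Ω a) ^ 2) (L.nm 2) with h1 | h1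
    · exact h.ii hU hs h1
    · rcases le_or_gt (L.nm (x - algebraMap K Ω a)) 1 with h2 | h2
      · exact h.t2 hU hs h1 h2
      · exact h.ff (fun x y w hs h1 => h.ii hU hs h1) hs h2

end PE
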