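import Mathlib

/-! Counting the solutions of `x² ≡ D` modulo `p` and `p²` in arithmetic progressions. -/

open Finset

namespace PE

theorem dn_prog {q : ℕ} {x₀ x₁ : ℤ} (h : IsCoprime (q : ℤ) x₁) (T : ℕ) :
    #{t ∈ range T | (q : ℤ) ∣ x₀ + x₁ * (t : ℕ)} ≤ T / q + 1 := by
  classical
  rw [← card_range (T / q + 1)]
  refine card_le_card_of_injOn (fun t => t / q) ?_ ?_
  · intro t ht
    simp only [coe_filter, mem_range, Set.mem_ofPred_eq] at ht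
    simp only [coe_range, Set.mem_Iio]
    exact Nat.lt_succ_of_le (Nat.div_le_div_right ht.1.le)
  · intro t ht t' ht' h1
    simp only [coe_filter, mem_range, Set.mem_ofPred_eq] at ht ht'
    simp only at h1
    have h2 : (q : ℤ) ∣ x₁ * ((t : ℤ) - t') := by
      have h3 := dvd_sub ht.2 ht'.2
      have h4 : x₀ + x₁ * (t : ℤ) - (x₀ + x₁ * (t' : ℤ)) = x₁ * ((t : ℤ) - t') := by ring
      rwa [h4] at h3
    have h3 : (q : ℤ) ∣ (t : ℤ) - t' := h.dvd_of_dvd_mul_left h2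
    have h4 : t % q = t' % q := by
      have h5 : (t' : ℤ) ≡ t [ZMOD q] := (Int.modEq_iff_dvd).2 h3
      have h6 := (Int.natCast_modEq_iff).1 h5
      exact h6.symm
    rw [← Nat.div_add_mod t q, ← Nat.div_add_mod t' q, h1, h4]

theorem dn_two {q : ℕ} {x₀ x₁ : ℤ} (h : IsCoprime (q : ℤ) x₁) (T : ℕ) {A : Finset ℕ}
    (hA : A ⊆ range T)
    (H : ∀ t ∈ A, ∀ t' ∈ A, (q : ℤ) ∣ (x₀ + x₁ * (t : ℕ)) - (x₀ + x₁ * (t' : ℕ)) ∨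
      (q : ℤ) ∣ (x₀ + x₁ * (t : ℕ)) + (x₀ + x₁ * (t' : ℕ))) :
    #A ≤ 2 * (T / q + 1) := by
  classical
  rcases A.eq_empty_or_nonempty with rfl | ⟨t₀, h₀⟩
  · simp
  have h1 : A ⊆ {t ∈ range T | (q : ℤ) ∣ (x₀ - (x₀ + x₁ * (t₀ : ℕ))) + x₁ * (t : ℕ)} ∪
      {t ∈ range T | (q : ℤ) ∣ (x₀ + (x₀ + x₁ * (t₀ : ℕ))) + x₁ * (t : ℕ)} := by
    intro t ht
    rw [mem_union, mem_filter, mem_filter]
    rcases H t ht t₀ h₀ with h2 | h2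
    · refine Or.inl ⟨hA ht, ?_⟩
      convert h2 using 1
      ring
    · refine Or.inr ⟨hA ht, ?_⟩
      convert h2 using 1
      ring
  refine (card_le_card h1).trans ((card_union_le _ _).trans ?_)
  have h2 := dn_prog (x₀ := x₀ - (x₀ + x₁ * (t₀ : ℕ))) h T
  have h3 := dn_prog (x₀ := x₀ + (x₀ + x₁ * (t₀ : ℕ))) h T
  omega

section prime

variable {p : ℕ} (hp : p.Prime) {x₀ x₁ D : ℤ}

include hp

theorem dn_cop (h : ¬ (p : ℤ) ∣ x₁) (k : ℕ) : IsCoprime (((p ^ k : ℕ) : ℕ) : ℤ) x₁ := by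
  rw [Nat.cast_pow]
  exact IsCoprime.pow_left ((Nat.prime_iff_prime_int.1 hp).coprime_iff_not_dvd.2 h)

/-- Modulo `p`. -/
theorem dn_one (h : ¬ (p : ℤ) ∣ x₁) (T : ℕ) :
    #{t ∈ range T | (p : ℤ) ∣ (x₀ + x₁ * (t : ℕ)) ^ 2 - D} ≤ 2 * (T / p + 1) := by
  have hc : IsCoprime (p : ℤ) x₁ := by simpa using dn_cop hp h 1
  refine dn_two (x₀ := x₀) hc T (filter_subset _ _) fun t ht t' ht' => ?_
  have h1 := (mem_filter.1 ht).2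
  have h2 := (mem_filter.1 ht').2
  have h3 := dvd_sub h1 h2
  have h4 : (x₀ + x₁ * (t : ℕ)) ^ 2 - D - ((x₀ + x₁ * (t' : ℕ)) ^ 2 - D) =
      ((x₀ + x₁ * (t : ℕ)) - (x₀ + x₁ * (t' : ℕ))) * ((x₀ + x₁ * (t : ℕ)) + (x₀ + x₁ * (t' : ℕ))) := by
    ring
  rw [h4] at h3
  exact (Nat.prime_iff_prime_int.1 hp).dvd_or_dvd h3

/-- Modulo `p²`, `p ∤ D`. -/
theorem dn_sq (h2 : p ≠ 2) (h : ¬ (p : ℤ) ∣ x₁) (hD : ¬ (p : ℤ) ∣ D) (T : ℕ) :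
    #{t ∈ range T | ((p ^ 2 : ℕ) : ℤ) ∣ (x₀ + x₁ * (t : ℕ)) ^ 2 - D} ≤ 2 * (T / p ^ 2 + 1) := by
  have hP := Nat.prime_iff_prime_int.1 hp
  refine dn_two (x₀ := x₀) (dn_cop hp h 2) T (filter_subset _ _)
    fun t ht t' ht' => ?_
  have h3 := (mem_filter.1 ht).2
  have h4 := (mem_filter.1 ht').2
  have h5 := dvd_sub h3 h4
  have h6 : (x₀ + x₁ * (t : ℕ)) ^ 2 - D - ((x₀ + x₁ * (t' : ℕ)) ^ 2 - D) =
      ((x₀ + x₁ * (t : ℕ)) - (x₀ + x₁ * (t' : ℕ))) * ((x₀ + x₁ * (t : ℕ)) + (x₀ + x₁ * (t' : ℕ))) := by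
    ring
  rw [h6] at h5
  have hpt : (p : ℤ) ∣ (x₀ + x₁ * (t : ℕ)) ^ 2 - D :=
    (by exact_mod_cast (dvd_pow_self p (two_ne_zero : (2 : ℕ) ≠ 0)) : (p : ℤ) ∣ ((p ^ 2 : ℕ) : ℤ)).trans h3
  by_cases h7 : (p : ℤ) ∣ (x₀ + x₁ * (t : ℕ)) - (x₀ + x₁ * (t' : ℕ))
  · have h8 : ¬ (p : ℤ) ∣ (x₀ + x₁ * (t : ℕ)) + (x₀ + x₁ * (t' : ℕ)) := by
      intro h9
      have h10 : (p : ℤ) ∣ 2 * (x₀ + x₁ * (t : ℕ)) := by
        have h11 : 2 * (x₀ + x₁ * (t : ℕ)) = ((x₀ + x₁ * (t : ℕ)) - (x₀ + x₁ * (t' : ℕ))) +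
          ((x₀ + x₁ * (t : ℕ)) + (x₀ + x₁ * (t' : ℕ))) := by ring
        rw [h11]
        exact dvd_add h7 h9
      rcases hP.dvd_or_dvd h10 with h11 | h11
      · have h12 : p ∣ 2 := by exact_mod_cast h11
        exact h2 ((Nat.prime_dvd_prime_iff_eq hp Nat.prime_two).1 h12)
      · refine hD ?_
        have h12 : (p : ℤ) ∣ (x₀ + x₁ * (t : ℕ)) ^ 2 := dvd_pow h11 two_ne_zero
        have h13 : D = (x₀ + x₁ * (t : ℕ)) ^ 2 - ((x₀ + x₁ * (t : ℕ)) ^ 2 - D) := by ring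
        rw [h13]
        exact dvd_sub h12 hpt
    exact Or.inl ((dn_cop hp h8 2).dvd_of_dvd_mul_right h5)
  · exact Or.inr ((dn_cop hp h7 2).dvd_of_dvd_mul_left h5)

/-- Modulo `p²`, `p² ∣ D`. -/
theorem dn_deg (h : ¬ (p : ℤ) ∣ x₁) (hD : (p : ℤ) ∣ D) (T : ℕ) :
    #{t ∈ range T | ((p ^ 2 : ℕ) : ℤ) ∣ (x₀ + x₁ * (t : ℕ)) ^ 2 - D} ≤ T / p + 1 := by
  have hP := Nat.prime_iff_prime_int.1 hp
  have hc : IsCoprime (p : ℤ) x₁ := by simpa using dn_cop hp h 1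
  refine (card_le_card fun t ht => ?_).trans (dn_prog (x₀ := x₀) hc T)
  rw [mem_filter] at ht ⊢
  refine ⟨ht.1, ?_⟩
  have hpt : (p : ℤ) ∣ (x₀ + x₁ * (t : ℕ)) ^ 2 - D :=
    (by exact_mod_cast (dvd_pow_self p (two_ne_zero : (2 : ℕ) ≠ 0)) : (p : ℤ) ∣ ((p ^ 2 : ℕ) : ℤ)).trans ht.2
  have h1 := dvd_add hpt hD
  rw [sub_add_cancel] at h1
  exact hP.dvd_of_dvd_pow h1

end prime

theorem dn_prod {S T : Finset ℕ} (P : ℕ → ℕ → Prop) [∀ s, DecidablePred (P s)]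
    [DecidablePred fun q : ℕ × ℕ => P q.1 q.2] :
    #{q ∈ S ×ˢ T | P q.1 q.2} = ∑ s ∈ S, #{t ∈ T | P s t} := by
  rw [card_filter, sum_product]
  refine sum_congr rfl fun s _ => ?_
  rw [card_filter]
  refine sum_congr rfl fun t _ => ?_
  by_cases h : P s t
  · simp [h]
  · simp [h]

section fam

variable {p : ℕ} (hp : p.Prime) {x₀ : ℕ → ℤ} {x₁ κ d₁ : ℤ}

include hp

/-- Two parameters, modulo `p`. -/
theorem dn_fam₁ {D : ℕ → ℤ} (h : ¬ (p : ℤ) ∣ x₁) (S T : ℕ) :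
    #{q ∈ range S ×ˢ range T | (p : ℤ) ∣ (x₀ q.1 + x₁ * (q.2 : ℕ)) ^ 2 - D q.1} ≤
      S * (2 * (T / p + 1)) := by
  classical
  rw [dn_prod (S := range S) (T := range T) fun s t => (p : ℤ) ∣ (x₀ s + x₁ * (t : ℕ)) ^ 2 - D s]
  refine (sum_le_sum fun s _ => dn_one hp h T).trans ?_
  rw [sum_const, card_range, smul_eq_mul]

/-- Two parameters, modulo `p²`. -/
theorem dn_fam (h2 : p ≠ 2) (h : ¬ (p : ℤ) ∣ x₁) (hκ : ¬ (p : ℤ) ∣ κ) (S T : ℕ) :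
    #{q ∈ range S ×ˢ range T | ((p ^ 2 : ℕ) : ℤ) ∣ (x₀ q.1 + x₁ * (q.2 : ℕ)) ^ 2 -
      κ * (1 + d₁ * (q.1 : ℕ)) ^ 3} ≤
      S * (2 * (T / p ^ 2 + 1)) + #{s ∈ range S | (p : ℤ) ∣ 1 + d₁ * (s : ℕ)} * (T / p + 1) := by
  classical
  rw [dn_prod (S := range S) (T := range T) fun s t => ((p ^ 2 : ℕ) : ℤ) ∣
    (x₀ s + x₁ * (t : ℕ)) ^ 2 - κ * (1 + d₁ * (s : ℕ)) ^ 3]
  have h3 : ∀ s ∈ range S, #{t ∈ range T | ((p ^ 2 : ℕ) : ℤ) ∣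
      (x₀ s + x₁ * (t : ℕ)) ^ 2 - κ * (1 + d₁ * (s : ℕ)) ^ 3} ≤
      2 * (T / p ^ 2 + 1) + if (p : ℤ) ∣ 1 + d₁ * (s : ℕ) then (T / p + 1) else 0 := by
    intro s _
    split_ifs with h4
    · refine (dn_deg hp (x₀ := x₀ s) h ?_ T).trans (by omega)
      exact (dvd_pow h4 three_ne_zero).mul_left _
    · have h5 : ¬ (p : ℤ) ∣ κ * (1 + d₁ * (s : ℕ)) ^ 3 := by
        intro h6
        have hP := Nat.prime_iff_prime_int.1 hp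
        rcases hP.dvd_or_dvd h6 with h7 | h7
        · exact hκ h7
        · exact h4 (hP.dvd_of_dvd_pow h7)
      exact (dn_sq hp h2 (x₀ := x₀ s) h h5 T).trans (by omega)
  refine (sum_le_sum h3).trans ?_
  rw [sum_add_distrib, sum_const, card_range, smul_eq_mul, ← sum_filter, sum_const, smul_eq_mul]

end fam

end PE
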