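import Pool.Agent.Lib.MP_f80667_ag.Kf.Dsa

/-! Sieve bounds: sums over the primes. -/

open Finset

namespace PE

/-- The primes in `(K, P]`. -/
def dnP (K P : ℕ) : Finset ℕ := (Ioc K P).filter Nat.Prime

theorem mem_dnP {K P p : ℕ} : p ∈ dnP K P ↔ (K < p ∧ p ≤ P) ∧ p.Prime := by
  rw [dnP, mem_filter, mem_Ioc]

theorem dnP_card (K P : ℕ) : #(dnP K P) ≤ Nat.primeCounting P := by
  rw [Nat.primeCounting, Nat.primeCounting', Nat.count_eq_card_filter_range]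
  refine card_le_card fun p hp => ?_
  rw [mem_dnP] at hp
  rw [mem_filter, mem_range]
  exact ⟨by omega, hp.2⟩

theorem dnP_sq {K : ℕ} (hK : K ≠ 0) (P : ℕ) : ∑ p ∈ dnP K P, (1 : ℝ) / (p : ℝ) ^ 2 ≤ 1 / K := by
  rcases le_total K P with h | h
  · have h1 := sum_Ioc_inv_sq_le_sub (α := ℝ) hK h
    have h2 : ∑ p ∈ dnP K P, (1 : ℝ) / (p : ℝ) ^ 2 ≤ ∑ p ∈ Ioc K P, ((p : ℝ) ^ 2)⁻¹ := by
      refine (sum_le_sum_of_subset_of_nonneg (filter_subset _ _) fun p _ _ => by positivity).trans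
        (le_of_eq (sum_congr rfl fun p _ => by rw [one_div]))
    have h3 : (0 : ℝ) ≤ (P : ℝ)⁻¹ := by positivity
    rw [one_div]
    linarith
  · have h1 : dnP K P = ∅ := by
      rw [dnP, Ioc_eq_empty (by omega), filter_empty]
    rw [h1, sum_empty]
    positivity

theorem dnP_one (K P : ℕ) : ∑ p ∈ dnP K P, (1 : ℝ) / (p : ℝ) ≤ 1 + Real.log P := by
  have h1 := harmonic_le_one_add_log P
  rw [harmonic] at h1
  push_cast at h1
  refine le_trans ?_ h1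
  have h2 : ∑ p ∈ dnP K P, (1 : ℝ) / (p : ℝ) ≤ ∑ p ∈ Icc 1 P, (1 : ℝ) / (p : ℝ) := by
    refine sum_le_sum_of_subset_of_nonneg (fun p hp => ?_) fun p _ _ => by positivity
    rw [mem_dnP] at hp
    rw [mem_Icc]
    exact ⟨hp.2.one_le, hp.1.2⟩
  refine h2.trans (le_of_eq ?_)
  have h3 := sum_image (s := range P) (f := fun p : ℕ => (1 : ℝ) / (p : ℝ)) (g := fun i => i + 1)
    (fun a _ b _ h => by simpa using h)
  have h4 : (range P).image (fun i => i + 1) = Icc 1 P := by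
    ext p
    rw [mem_image, mem_Icc]
    constructor
    · rintro ⟨i, hi, rfl⟩
      rw [mem_range] at hi
      omega
    · intro h
      exact ⟨p - 1, by rw [mem_range]; omega, by omega⟩
  rw [← h4, h3]
  refine sum_congr rfl fun i _ => ?_
  push_cast
  rw [one_div]

theorem dn_div (T p : ℕ) : ((T / p : ℕ) : ℝ) ≤ (T : ℝ) / p := Nat.cast_div_le

/-- Two parameters, all squares of primes between `K` and `P`. -/
theorem dn_bad {x₀ : ℕ → ℤ} {x₁ κ d₁ : ℤ} {K : ℕ} (hK : K ≠ 0)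
    (hp : ∀ p : ℕ, p.Prime → K < p → p ≠ 2 ∧ ¬ (p : ℤ) ∣ x₁ ∧ ¬ (p : ℤ) ∣ κ ∧ ¬ (p : ℤ) ∣ d₁)
    (hd : ∀ s : ℕ, 1 + d₁ * (s : ℕ) ≠ 0) (S T P : ℕ) :
    ((#{q ∈ range S ×ˢ range T | ∃ p ∈ dnP K P, ((p ^ 2 : ℕ) : ℤ) ∣ (x₀ q.1 + x₁ * (q.2 : ℕ)) ^ 2 -
      κ * (1 + d₁ * (q.1 : ℕ)) ^ 3} : ℕ) : ℝ) ≤
      3 * (S * T) / K + 2 * S * Nat.primeCounting P +
        (S + T) * (1 + Real.log ((d₁.natAbs * S + 1 : ℕ) : ℝ)) + ((d₁.natAbs * S + 1 : ℕ) : ℝ) := by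
  classical
  set P₁ : ℕ := d₁.natAbs * S + 1 with hP₁
  have h1 : {q ∈ range S ×ˢ range T | ∃ p ∈ dnP K P, ((p ^ 2 : ℕ) : ℤ) ∣ (x₀ q.1 + x₁ * (q.2 : ℕ)) ^ 2 -
      κ * (1 + d₁ * (q.1 : ℕ)) ^ 3} ⊆ (dnP K P).biUnion fun p =>
        {q ∈ range S ×ˢ range T | ((p ^ 2 : ℕ) : ℤ) ∣ (x₀ q.1 + x₁ * (q.2 : ℕ)) ^ 2 -
          κ * (1 + d₁ * (q.1 : ℕ)) ^ 3} := by
    intro q hq
    rw [mem_filter] at hq
    obtain ⟨p, hp, h⟩ := hq.2
    rw [mem_biUnion]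
    exact ⟨p, hp, mem_filter.2 ⟨hq.1, h⟩⟩
  have h2 := (card_le_card h1).trans card_biUnion_le
  have h3 : ∀ p ∈ dnP K P, #{q ∈ range S ×ˢ range T | ((p ^ 2 : ℕ) : ℤ) ∣
      (x₀ q.1 + x₁ * (q.2 : ℕ)) ^ 2 - κ * (1 + d₁ * (q.1 : ℕ)) ^ 3} ≤
      S * (2 * (T / p ^ 2 + 1)) + #{s ∈ range S | (p : ℤ) ∣ 1 + d₁ * (s : ℕ)} * (T / p + 1) := by
    intro p hp'
    rw [mem_dnP] at hp'
    obtain ⟨a1, a2, a3, a4⟩ := hp p hp'.2 hp'.1.1
    exact dn_fam hp'.2 a1 a2 a3 S T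
  have h4 : ((#{q ∈ range S ×ˢ range T | ∃ p ∈ dnP K P, ((p ^ 2 : ℕ) : ℤ) ∣
      (x₀ q.1 + x₁ * (q.2 : ℕ)) ^ 2 - κ * (1 + d₁ * (q.1 : ℕ)) ^ 3} : ℕ) : ℝ) ≤
      ∑ p ∈ dnP K P, (((S * (2 * (T / p ^ 2 + 1)) : ℕ) : ℝ) +
        ((#{s ∈ range S | (p : ℤ) ∣ 1 + d₁ * (s : ℕ)} * (T / p + 1) : ℕ) : ℝ)) := by
    have h5 := h2.trans (sum_le_sum h3)
    calc _ ≤ ((∑ p ∈ dnP K P, (S * (2 * (T / p ^ 2 + 1)) +
          #{s ∈ range S | (p : ℤ) ∣ 1 + d₁ * (s : ℕ)} * (T / p + 1)) : ℕ) : ℝ) := by exact_mod_cast h5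
      _ = _ := by push_cast; rfl
  rw [sum_add_distrib] at h4
  have h5 : ∑ p ∈ dnP K P, ((S * (2 * (T / p ^ 2 + 1)) : ℕ) : ℝ) ≤
      2 * (S * T) / K + 2 * S * Nat.primeCounting P := by
    have h6 : ∀ p ∈ dnP K P, ((S * (2 * (T / p ^ 2 + 1)) : ℕ) : ℝ) ≤
        2 * (S * T) * (1 / (p : ℝ) ^ 2) + 2 * S := by
      intro p _
      have h7 := dn_div T (p ^ 2)
      push_cast at h7 ⊢
      have h8 : (0 : ℝ) ≤ S := by positivity
      have h9 := mul_le_mul_of_nonneg_left h7 h8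
      have h10 : 2 * ((S : ℝ) * T) * (1 / (p : ℝ) ^ 2) = 2 * (S * (T / (p : ℝ) ^ 2)) := by ring
      rw [h10]
      linarith
    refine (sum_le_sum h6).trans ?_
    rw [sum_add_distrib, ← mul_sum, sum_const, nsmul_eq_mul]
    have h7 := dnP_sq hK P
    have h8 : (0 : ℝ) ≤ 2 * ((S : ℝ) * T) := by positivity
    have h9 := mul_le_mul_of_nonneg_left h7 h8
    have h10 : (#(dnP K P) : ℝ) ≤ Nat.primeCounting P := by exact_mod_cast dnP_card K P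
    have h11 : (0 : ℝ) ≤ 2 * S := by positivity
    have h12 := mul_le_mul_of_nonneg_right h10 h11
    rw [mul_one_div] at h9
    linarith
  have h6 : ∑ p ∈ dnP K P, ((#{s ∈ range S | (p : ℤ) ∣ 1 + d₁ * (s : ℕ)} * (T / p + 1) : ℕ) : ℝ) ≤
      (S * T) / K + (S + T) * (1 + Real.log P₁) + P₁ := by
    have h7 : ∀ p ∈ dnP K P, p ∉ dnP K P₁ →
        ((#{s ∈ range S | (p : ℤ) ∣ 1 + d₁ * (s : ℕ)} * (T / p + 1) : ℕ) : ℝ) ≤ 0 := by
      intro p hp₁ hp₂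
      rw [mem_dnP] at hp₁ hp₂
      have h8 : P₁ < p := by
        by_contra h
        exact hp₂ ⟨⟨hp₁.1.1, by omega⟩, hp₁.2⟩
      have h9 : {s ∈ range S | (p : ℤ) ∣ 1 + d₁ * (s : ℕ)} = ∅ := by
        refine filter_eq_empty_iff.2 fun s hs h => ?_
        rw [mem_range] at hs
        have h10 := Int.natAbs_dvd_natAbs.2 h
        rw [Int.natAbs_natCast] at h10
        have h11 := Nat.le_of_dvd (Int.natAbs_pos.2 (hd s)) h10
        have h12 : (1 + d₁ * (s : ℤ)).natAbs ≤ 1 + d₁.natAbs * s := by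
          refine (Int.natAbs_add_le _ _).trans ?_
          rw [Int.natAbs_mul, Int.natAbs_natCast]
          simp
        have h13 : d₁.natAbs * s ≤ d₁.natAbs * S := Nat.mul_le_mul_left _ hs.le
        omega
      rw [h9]
      simp
    have h8 : ∑ p ∈ dnP K P, ((#{s ∈ range S | (p : ℤ) ∣ 1 + d₁ * (s : ℕ)} * (T / p + 1) : ℕ) : ℝ) ≤
        ∑ p ∈ dnP K P₁, ((#{s ∈ range S | (p : ℤ) ∣ 1 + d₁ * (s : ℕ)} * (T / p + 1) : ℕ) : ℝ) := by
      rw [← sum_filter_add_sum_filter_not (dnP K P) (fun p => p ∈ dnP K P₁)]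
      have h9 : ∑ p ∈ (dnP K P).filter (fun p => ¬ p ∈ dnP K P₁),
          ((#{s ∈ range S | (p : ℤ) ∣ 1 + d₁ * (s : ℕ)} * (T / p + 1) : ℕ) : ℝ) ≤ 0 := by
        refine sum_nonpos fun p hp' => ?_
        rw [mem_filter] at hp'
        exact h7 p hp'.1 hp'.2
      have h10 : ∑ p ∈ (dnP K P).filter (fun p => p ∈ dnP K P₁),
          ((#{s ∈ range S | (p : ℤ) ∣ 1 + d₁ * (s : ℕ)} * (T / p + 1) : ℕ) : ℝ) ≤
          ∑ p ∈ dnP K P₁, ((#{s ∈ range S | (p : ℤ) ∣ 1 + d₁ * (s : ℕ)} * (T / p + 1) : ℕ) : ℝ) := by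
        refine sum_le_sum_of_subset_of_nonneg (fun p hp' => (mem_filter.1 hp').2)
          fun p _ _ => by positivity
      linarith
    refine h8.trans ?_
    have h9 : ∀ p ∈ dnP K P₁, ((#{s ∈ range S | (p : ℤ) ∣ 1 + d₁ * (s : ℕ)} * (T / p + 1) : ℕ) : ℝ) ≤
        (S * T) * (1 / (p : ℝ) ^ 2) + (S + T) * (1 / (p : ℝ)) + 1 := by
      intro p hp'
      rw [mem_dnP] at hp'
      obtain ⟨a1, a2, a3, a4⟩ := hp p hp'.2 hp'.1.1
      have hc : IsCoprime (p : ℤ) d₁ := by simpa using dn_cop hp'.2 a4 1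
      have h10 := dn_prog (x₀ := 1) hc S
      have h11 : (#{s ∈ range S | (p : ℤ) ∣ 1 + d₁ * (s : ℕ)} : ℝ) ≤ S / p + 1 := by
        have h12 := dn_div S p
        have h13 : (#{s ∈ range S | (p : ℤ) ∣ 1 + d₁ * (s : ℕ)} : ℝ) ≤ ((S / p + 1 : ℕ) : ℝ) := by
          exact_mod_cast h10
        push_cast at h13
        linarith
      have h12 := dn_div T p
      have hp0 : (0 : ℝ) < p := by exact_mod_cast hp'.2.pos
      push_cast
      calc (#{s ∈ range S | (p : ℤ) ∣ 1 + d₁ * (s : ℕ)} : ℝ) * (((T / p : ℕ) : ℝ) + 1) ≤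
          (S / p + 1) * (T / p + 1) := by
            refine mul_le_mul h11 (by linarith) (by positivity) (by positivity)
        _ = (S * T) * (1 / (p : ℝ) ^ 2) + (S + T) * (1 / (p : ℝ)) + 1 := by
            field_simp
            ring
    refine (sum_le_sum h9).trans ?_
    rw [sum_add_distrib, sum_add_distrib, ← mul_sum, ← mul_sum, sum_const, nsmul_eq_mul, mul_one]
    have h10 := mul_le_mul_of_nonneg_left (dnP_sq hK P₁) (by positivity : (0 : ℝ) ≤ S * T)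
    have h11 := mul_le_mul_of_nonneg_left (dnP_one K P₁) (by positivity : (0 : ℝ) ≤ S + T)
    have h12 : (#(dnP K P₁) : ℝ) ≤ P₁ := by
      have h13 : #(dnP K P₁) ≤ P₁ := by
        refine (card_le_card (filter_subset _ _)).trans ?_
        rw [Nat.card_Ioc]
        omega
      exact_mod_cast h13
    rw [mul_one_div] at h10
    linarith
  have h7 : 3 * ((S : ℝ) * T) / K = 2 * (S * T) / K + (S * T) / K := by ring
  rw [h7]
  linarith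

end PE
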