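import Pool.Agent.Lib.MP_f80667_ag.Kf.Dsb

/-! Sieve bounds: common prime divisors of two values. -/

open Finset

namespace PE

theorem dn_pf {m T : ℕ} (hm : m ≠ 0) (hT : m < T ^ 4) : #(m.primeFactors.filter (T < ·)) ≤ 3 := by
  by_contra h
  push Not at h
  have h1 : T ^ #(m.primeFactors.filter (T < ·)) ≤ ∏ p ∈ m.primeFactors.filter (T < ·), p := by
    rw [← prod_const]
    exact prod_le_prod (fun _ _ => Nat.zero_le _) fun p hp => (mem_filter.1 hp).2.le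
  have h2 : ∏ p ∈ m.primeFactors.filter (T < ·), p ∣ m :=
    (prod_dvd_prod_of_subset _ _ _ (filter_subset _ _)).trans (Nat.prod_primeFactors_dvd m)
  have h3 := Nat.le_of_dvd (Nat.pos_of_ne_zero hm) h2
  have h4 : 0 < T := by
    rcases Nat.eq_zero_or_pos T with rfl | h4
    · simp at hT
    · exact h4
  have h5 : T ^ 4 ≤ T ^ #(m.primeFactors.filter (T < ·)) := Nat.pow_le_pow_right h4 h
  omega

open scoped Classical in
theorem dn_pair {K S T : ℕ} (hK : K ≠ 0) {U : Finset (ℕ × ℕ)} (hU : #U = S * T)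
    {f g : ℕ × ℕ → ℤ}
    (hf : ∀ p : ℕ, p.Prime → K < p → #{q ∈ U | (p : ℤ) ∣ f q} ≤ S * (2 * (T / p + 1)))
    (hg : ∀ p : ℕ, p.Prime → K < p → #{q ∈ U | (p : ℤ) ∣ g q} ≤ S * (2 * (T / p + 1)))
    {B : Finset (ℕ × ℕ)} (hB : ∀ q ∈ U, q ∉ B → f q ≠ 0) (hF : ∀ q ∈ U, (f q).natAbs < T ^ 4) :
    ((#{w ∈ U ×ˢ U | w.1 ∉ B ∧ ∃ p : ℕ, p.Prime ∧ K < p ∧ (p : ℤ) ∣ f w.1 ∧ (p : ℤ) ∣ g w.2} : ℕ) : ℝ) ≤
      16 * (S * T) ^ 2 / K + 6 * S ^ 2 * T := by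
  classical
  have h1 : {w ∈ U ×ˢ U | w.1 ∉ B ∧ ∃ p : ℕ, p.Prime ∧ K < p ∧ (p : ℤ) ∣ f w.1 ∧ (p : ℤ) ∣ g w.2} ⊆
      ((dnP K T).biUnion fun p => {q ∈ U | (p : ℤ) ∣ f q} ×ˢ {q ∈ U | (p : ℤ) ∣ g q}) ∪
      ((U.filter (· ∉ B)).biUnion fun q => ((f q).natAbs.primeFactors.filter fun p => T < p ∧ K < p).biUnion
        fun p => {q} ×ˢ {q' ∈ U | (p : ℤ) ∣ g q'}) := by
    rintro ⟨q, q'⟩ hw
    rw [mem_filter, mem_product] at hw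
    obtain ⟨⟨hq, hq'⟩, hb, p, hp, hKp, h2, h3⟩ := hw
    simp only at hq hq' hb h2 h3
    rw [mem_union]
    rcases le_or_gt p T with h4 | h4
    · refine Or.inl (mem_biUnion.2 ⟨p, mem_dnP.2 ⟨⟨hKp, h4⟩, hp⟩, ?_⟩)
      rw [mem_product, mem_filter, mem_filter]
      exact ⟨⟨hq, h2⟩, ⟨hq', h3⟩⟩
    · refine Or.inr (mem_biUnion.2 ⟨q, mem_filter.2 ⟨hq, hb⟩, mem_biUnion.2 ⟨p, ?_, ?_⟩⟩)
      · rw [mem_filter, Nat.mem_primeFactors]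
        refine ⟨⟨hp, ?_, Int.natAbs_ne_zero.2 (hB q hq hb)⟩, h4, hKp⟩
        have h5 := Int.natAbs_dvd_natAbs.2 h2
        rwa [Int.natAbs_natCast] at h5
      · rw [mem_product, mem_filter, mem_singleton]
        exact ⟨rfl, hq', h3⟩
  have h2 := (card_le_card h1).trans (card_union_le _ _)
  have h3 : ((#((dnP K T).biUnion fun p => {q ∈ U | (p : ℤ) ∣ f q} ×ˢ {q ∈ U | (p : ℤ) ∣ g q}) : ℕ) : ℝ) ≤
      16 * (S * T) ^ 2 / K := by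
    have h4 : ((#((dnP K T).biUnion fun p => {q ∈ U | (p : ℤ) ∣ f q} ×ˢ {q ∈ U | (p : ℤ) ∣ g q}) : ℕ) : ℝ) ≤
        ∑ p ∈ dnP K T, ((#{q ∈ U | (p : ℤ) ∣ f q} * #{q ∈ U | (p : ℤ) ∣ g q} : ℕ) : ℝ) := by
      have h5 : #((dnP K T).biUnion fun p => {q ∈ U | (p : ℤ) ∣ f q} ×ˢ {q ∈ U | (p : ℤ) ∣ g q}) ≤
          ∑ p ∈ dnP K T, #{q ∈ U | (p : ℤ) ∣ f q} * #{q ∈ U | (p : ℤ) ∣ g q} := by
        refine card_biUnion_le.trans (le_of_eq (sum_congr rfl fun p _ => ?_))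
        rw [card_product]
      exact_mod_cast h5
    refine h4.trans ?_
    have h5 : ∀ p ∈ dnP K T, ((#{q ∈ U | (p : ℤ) ∣ f q} * #{q ∈ U | (p : ℤ) ∣ g q} : ℕ) : ℝ) ≤
        16 * (S * T) ^ 2 * (1 / (p : ℝ) ^ 2) := by
      intro p hp
      rw [mem_dnP] at hp
      have hp0 : (0 : ℝ) < p := by exact_mod_cast hp.2.pos
      have h6 : ((S * (2 * (T / p + 1)) : ℕ) : ℝ) ≤ 4 * (S * T) / p := by
        have h7 := dn_div T p
        have h8 : (1 : ℝ) ≤ (T : ℝ) / p := by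
          rw [le_div_iff₀ hp0, one_mul]
          exact_mod_cast hp.1.2
        push_cast
        have h9 : (S : ℝ) * (2 * (((T / p : ℕ) : ℝ) + 1)) ≤ S * (2 * ((T : ℝ) / p + T / p)) := by
          refine mul_le_mul_of_nonneg_left ?_ (by positivity)
          linarith
        refine h9.trans (le_of_eq ?_)
        ring
      have h7 : ((#{q ∈ U | (p : ℤ) ∣ f q} : ℕ) : ℝ) ≤ 4 * (S * T) / p :=
        le_trans (by exact_mod_cast hf p hp.2 hp.1.1) h6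
      have h8 : ((#{q ∈ U | (p : ℤ) ∣ g q} : ℕ) : ℝ) ≤ 4 * (S * T) / p :=
        le_trans (by exact_mod_cast hg p hp.2 hp.1.1) h6
      rw [Nat.cast_mul]
      refine (mul_le_mul h7 h8 (by positivity) (by positivity)).trans (le_of_eq ?_)
      field_simp
      ring
    refine (sum_le_sum h5).trans ?_
    rw [← mul_sum]
    have h6 := mul_le_mul_of_nonneg_left (dnP_sq hK T) (by positivity : (0 : ℝ) ≤ 16 * (S * T) ^ 2)
    rwa [mul_one_div] at h6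
  have h4 : #((U.filter (· ∉ B)).biUnion fun q =>
      ((f q).natAbs.primeFactors.filter fun p => T < p ∧ K < p).biUnion
        fun p => {q} ×ˢ {q' ∈ U | (p : ℤ) ∣ g q'}) ≤ 6 * S ^ 2 * T := by
    refine card_biUnion_le.trans ?_
    have h5 : ∀ q ∈ U.filter (· ∉ B), #(((f q).natAbs.primeFactors.filter fun p => T < p ∧ K < p).biUnion
        fun p => {q} ×ˢ {q' ∈ U | (p : ℤ) ∣ g q'}) ≤ 6 * S := by
      intro q hq
      rw [mem_filter] at hq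
      refine card_biUnion_le.trans ?_
      have h6 : ∀ p ∈ (f q).natAbs.primeFactors.filter fun p => T < p ∧ K < p,
          #(({q} : Finset (ℕ × ℕ)) ×ˢ {q' ∈ U | (p : ℤ) ∣ g q'}) ≤ 2 * S := by
        intro p hp
        rw [mem_filter, Nat.mem_primeFactors] at hp
        rw [card_product, card_singleton, one_mul]
        have h7 := hg p hp.1.1 hp.2.2
        rw [Nat.div_eq_of_lt hp.2.1] at h7
        omega
      refine (sum_le_sum h6).trans ?_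
      rw [sum_const, smul_eq_mul]
      have h7 : #((f q).natAbs.primeFactors.filter fun p => T < p ∧ K < p) ≤ 3 :=
        (card_le_card fun p hp => by
          rw [mem_filter] at hp ⊢
          exact ⟨hp.1, hp.2.1⟩).trans
          (dn_pf (Int.natAbs_ne_zero.2 (hB q hq.1 hq.2)) (hF q hq.1))
      calc _ ≤ 3 * (2 * S) := Nat.mul_le_mul_right _ h7
        _ = 6 * S := by ring
    refine (sum_le_sum h5).trans ?_
    rw [sum_const, smul_eq_mul]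
    calc _ ≤ #U * (6 * S) := Nat.mul_le_mul_right _ (card_le_card (filter_subset _ _))
      _ = 6 * S ^ 2 * T := by rw [hU]; ring
  have h5 : ((#((U.filter (· ∉ B)).biUnion fun q =>
      ((f q).natAbs.primeFactors.filter fun p => T < p ∧ K < p).biUnion
        fun p => {q} ×ˢ {q' ∈ U | (p : ℤ) ∣ g q'}) : ℕ) : ℝ) ≤ 6 * S ^ 2 * T := by
    exact_mod_cast h4
  have h6 : ((#{w ∈ U ×ˢ U | w.1 ∉ B ∧ ∃ p : ℕ, p.Prime ∧ K < p ∧ (p : ℤ) ∣ f w.1 ∧ (p : ℤ) ∣ g w.2} : ℕ) : ℝ) ≤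
      ((#((dnP K T).biUnion fun p => {q ∈ U | (p : ℤ) ∣ f q} ×ˢ {q ∈ U | (p : ℤ) ∣ g q}) : ℕ) : ℝ) +
      ((#((U.filter (· ∉ B)).biUnion fun q =>
      ((f q).natAbs.primeFactors.filter fun p => T < p ∧ K < p).biUnion
        fun p => {q} ×ˢ {q' ∈ U | (p : ℤ) ∣ g q'}) : ℕ) : ℝ) := by
    exact_mod_cast h2
  linarith

open scoped Classical in
/-- Counting the good pairs. -/
theorem dn_good {K S T : ℕ} (hK : K ≠ 0) {U : Finset (ℕ × ℕ)} (hU : #U = S * T)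
    {f g : ℕ × ℕ → ℤ}
    (hf : ∀ p : ℕ, p.Prime → K < p → #{q ∈ U | (p : ℤ) ∣ f q} ≤ S * (2 * (T / p + 1)))
    (hg : ∀ p : ℕ, p.Prime → K < p → #{q ∈ U | (p : ℤ) ∣ g q} ≤ S * (2 * (T / p + 1)))
    {A B : Finset (ℕ × ℕ)} (hA : ∀ q ∈ U, q ∉ A → f q ≠ 0) (hF : ∀ q ∈ U, (f q).natAbs < T ^ 4)
    {E : ℝ} (hAE : (#A : ℝ) ≤ E) (hBE : (#B : ℝ) ≤ E) :
    ((S : ℝ) * T) ^ 2 - 2 * (S * T) * E - 16 * (S * T) ^ 2 / K - 6 * S ^ 2 * T ≤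
      ((#{w ∈ U ×ˢ U | w.1 ∉ A ∧ w.2 ∉ B ∧
        ∀ p : ℕ, p.Prime → K < p → (p : ℤ) ∣ f w.1 → ¬ (p : ℤ) ∣ g w.2} : ℕ) : ℝ) := by
  classical
  have h1 : U ×ˢ U ⊆ {w ∈ U ×ˢ U | w.1 ∉ A ∧ w.2 ∉ B ∧
      ∀ p : ℕ, p.Prime → K < p → (p : ℤ) ∣ f w.1 → ¬ (p : ℤ) ∣ g w.2} ∪ (A ×ˢ U ∪ (U ×ˢ B ∪
      {w ∈ U ×ˢ U | w.1 ∉ A ∧ ∃ p : ℕ, p.Prime ∧ K < p ∧ (p : ℤ) ∣ f w.1 ∧ (p : ℤ) ∣ g w.2})) := by
    rintro ⟨q, q'⟩ hw
    have hw' := mem_product.1 hw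
    simp only [mem_union, mem_filter, mem_product] at hw' ⊢
    by_cases h2 : q ∈ A
    · exact Or.inr (Or.inl ⟨h2, hw'.2⟩)
    by_cases h3 : q' ∈ B
    · exact Or.inr (Or.inr (Or.inl ⟨hw'.1, h3⟩))
    by_cases h4 : ∃ p : ℕ, p.Prime ∧ K < p ∧ (p : ℤ) ∣ f q ∧ (p : ℤ) ∣ g q'
    · exact Or.inr (Or.inr (Or.inr ⟨hw', h2, h4⟩))
    · exact Or.inl ⟨hw', h2, h3, fun p a b c d => h4 ⟨p, a, b, c, d⟩⟩
  have h2 := (card_le_card h1).trans ((card_union_le _ _).trans (Nat.add_le_add_left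
    ((card_union_le _ _).trans (Nat.add_le_add_left (card_union_le _ _) _)) _))
  rw [card_product, card_product, card_product, hU] at h2
  have h3 := dn_pair hK hU hf hg hA hF
  have h4 : ((S : ℝ) * T) * (S * T) ≤ ((#{w ∈ U ×ˢ U | w.1 ∉ A ∧ w.2 ∉ B ∧
      ∀ p : ℕ, p.Prime → K < p → (p : ℤ) ∣ f w.1 → ¬ (p : ℤ) ∣ g w.2} : ℕ) : ℝ) +
      ((#A : ℝ) * (S * T) + ((S * T) * (#B : ℝ) + ((#{w ∈ U ×ˢ U | w.1 ∉ A ∧
        ∃ p : ℕ, p.Prime ∧ K < p ∧ (p : ℤ) ∣ f w.1 ∧ (p : ℤ) ∣ g w.2} : ℕ) : ℝ))) := by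
    exact_mod_cast h2
  have h5 : (0 : ℝ) ≤ (S : ℝ) * T := by positivity
  have h6 := mul_le_mul_of_nonneg_right hAE h5
  have h7 := mul_le_mul_of_nonneg_left hBE h5
  nlinarith

end PE
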