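import Pool.Agent.Lib.MP_f80667_ag.Kf.Dsc

/-! Two families of Weierstrass equations: congruences and counting. -/

open Finset

namespace PE

/-- `y² + x y = x³ + M s x + 2 + M t`. -/
def dnA (M s t : ℕ) : WeierstrassCurve ℤ := ⟨1, 0, 0, M * s, 2 + M * t⟩

/-- `y² + y = x³ + (1 + M u) x + M w`. -/
def dnB (M u w : ℕ) : WeierstrassCurve ℤ := ⟨0, 0, 1, 1 + M * u, M * w⟩

theorem dnA_Δ (M s t : ℕ) : (dnA M s t).Δ = (M * s : ℤ) ^ 2 - 64 * (M * s) ^ 3 - (2 + M * t) +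
    72 * (M * s) * (2 + M * t) - 432 * (2 + M * t) ^ 2 := by
  simp only [dnA, WeierstrassCurve.Δ, WeierstrassCurve.b₂, WeierstrassCurve.b₄, WeierstrassCurve.b₆,
    WeierstrassCurve.b₈]
  ring

theorem dnB_Δ (M u w : ℕ) : (dnB M u w).Δ = -(64 * (1 + M * u : ℤ) ^ 3) - 27 * (1 + 4 * (M * w)) ^ 2 := by
  simp only [dnB, WeierstrassCurve.Δ, WeierstrassCurve.b₂, WeierstrassCurve.b₄, WeierstrassCurve.b₆,
    WeierstrassCurve.b₈]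
  ring

theorem dnA_sq (M s t : ℕ) : -1728 * (dnA M s t).Δ =
    ((1729 - 72 * M * (s : ℤ)) + (864 * M) * (t : ℕ)) ^ 2 - 1 * (1 + (-48 * M) * (s : ℕ)) ^ 3 := by
  rw [dnA_Δ]
  ring

theorem dnB_sq (M u w : ℕ) : -3 * (dnB M u w).Δ =
    (9 + (36 * M) * (w : ℕ)) ^ 2 - (-192 : ℤ) * (1 + (M : ℤ) * (u : ℕ)) ^ 3 := by
  rw [dnB_Δ]
  ring

theorem dnA_mod (M s t : ℕ) : (M : ℤ) ∣ (dnA M s t).Δ + 1730 := by
  rw [dnA_Δ]
  refine ⟨M * s ^ 2 - 64 * M ^ 2 * s ^ 3 - t + 72 * s * (2 + M * t) - 432 * (4 * t + M * t ^ 2), ?_⟩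
  ring

theorem dnB_mod (M u w : ℕ) : (M : ℤ) ∣ (dnB M u w).Δ + 91 := by
  rw [dnB_Δ]
  refine ⟨-64 * (3 * u + 3 * M * u ^ 2 + M ^ 2 * u ^ 3) - 27 * (8 * w + 16 * M * w ^ 2), ?_⟩
  ring

/-- The conditions on the modulus. -/
structure DnM (M : ℕ) : Prop where
  pos : 0 < M
  small : ∀ p : ℕ, p.Prime → p ≤ 100 → p ^ 2 ∣ M
  large : ∀ p : ℕ, p.Prime → 100 < p → ¬ p ∣ M

theorem dnM_ex : ∃ M : ℕ, DnM M := by
  refine ⟨(Nat.factorial 100) ^ 2, pow_pos (Nat.factorial_pos 100) 2, fun p hp h => ?_,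
    fun p hp h h1 => ?_⟩
  · exact pow_dvd_pow_of_dvd ((hp.dvd_factorial).2 h) 2
  · have h2 := (hp.dvd_factorial).1 (hp.dvd_of_dvd_pow h1)
    omega

section bounds

variable {M n : ℕ}

theorem dnA_lt {s t : ℕ} (hn : 1 ≤ n) (hs : M * s ≤ n ^ 2) (ht : 2 + M * t ≤ n ^ 3) :
    (dnA M s t).Δ.natAbs ≤ 570 * n ^ 6 := by
  have h1 : (dnA M s t).Δ = ((M * s) ^ 2 : ℕ) - ((64 * (M * s) ^ 3 : ℕ) : ℤ) - ((2 + M * t : ℕ) : ℤ) +
      ((72 * (M * s) * (2 + M * t) : ℕ) : ℤ) - ((432 * (2 + M * t) ^ 2 : ℕ) : ℤ) := by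
    rw [dnA_Δ]
    push_cast
    ring
  have h2 : (dnA M s t).Δ.natAbs ≤ (M * s) ^ 2 + 64 * (M * s) ^ 3 + (2 + M * t) +
      72 * (M * s) * (2 + M * t) + 432 * (2 + M * t) ^ 2 := by
    rw [h1]
    omega
  have e1 : (M * s) ^ 2 ≤ n ^ 6 := by
    calc (M * s) ^ 2 ≤ (n ^ 2) ^ 2 := Nat.pow_le_pow_left hs 2
      _ = n ^ 4 := by ring
      _ ≤ n ^ 6 := Nat.pow_le_pow_right hn (by norm_num)
  have e2 : (M * s) ^ 3 ≤ n ^ 6 := by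
    calc (M * s) ^ 3 ≤ (n ^ 2) ^ 3 := Nat.pow_le_pow_left hs 3
      _ = n ^ 6 := by ring
  have e3 : 2 + M * t ≤ n ^ 6 := ht.trans (Nat.pow_le_pow_right hn (by norm_num))
  have e4 : (M * s) * (2 + M * t) ≤ n ^ 6 := by
    calc (M * s) * (2 + M * t) ≤ n ^ 2 * n ^ 3 := Nat.mul_le_mul hs ht
      _ = n ^ 5 := by ring
      _ ≤ n ^ 6 := Nat.pow_le_pow_right hn (by norm_num)
  have e5 : (2 + M * t) ^ 2 ≤ n ^ 6 := by
    calc (2 + M * t) ^ 2 ≤ (n ^ 3) ^ 2 := Nat.pow_le_pow_left ht 2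
      _ = n ^ 6 := by ring
  calc _ ≤ _ := h2
    _ = (M * s) ^ 2 + 64 * (M * s) ^ 3 + (2 + M * t) + 72 * ((M * s) * (2 + M * t)) +
        432 * (2 + M * t) ^ 2 := by ring
    _ ≤ 570 * n ^ 6 := by omega

theorem dnB_lt {u w : ℕ} (hn : 1 ≤ n) (hu : 1 + M * u ≤ n ^ 2) (hw : M * w ≤ n ^ 3) :
    (dnB M u w).Δ.natAbs ≤ 739 * n ^ 6 := by
  have h1 : (dnB M u w).Δ = -(((64 * (1 + M * u) ^ 3 : ℕ) : ℤ) + ((27 * (1 + 4 * (M * w)) ^ 2 : ℕ) : ℤ)) := by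
    rw [dnB_Δ]
    push_cast
    ring
  have h2 : (dnB M u w).Δ.natAbs ≤ 64 * (1 + M * u) ^ 3 + 27 * (1 + 4 * (M * w)) ^ 2 := by
    rw [h1]
    omega
  have e1 : (1 + M * u) ^ 3 ≤ n ^ 6 := by
    calc (1 + M * u) ^ 3 ≤ (n ^ 2) ^ 3 := Nat.pow_le_pow_left hu 3
      _ = n ^ 6 := by ring
  have e2 : (1 + 4 * (M * w)) ^ 2 ≤ 25 * n ^ 6 := by
    have e3 : 1 + 4 * (M * w) ≤ 5 * n ^ 3 := by
      have : 1 ≤ n ^ 3 := Nat.one_le_pow _ _ hn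
      omega
    calc (1 + 4 * (M * w)) ^ 2 ≤ (5 * n ^ 3) ^ 2 := Nat.pow_le_pow_left e3 2
      _ = 25 * n ^ 6 := by ring
  omega

end bounds

section sf

variable {M : ℕ} (hM : DnM M)

include hM

theorem dn_four : (4 : ℤ) ∣ M := by
  have h := hM.small 2 Nat.prime_two (by norm_num)
  exact_mod_cast h

theorem dnA_ne (s t : ℕ) : (dnA M s t).Δ ≠ 0 := by
  intro h
  have h1 := (dn_four hM).trans (dnA_mod M s t)
  rw [h] at h1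
  norm_num at h1

theorem dnB_ne (u w : ℕ) : (dnB M u w).Δ ≠ 0 := by
  intro h
  have h1 := (dn_four hM).trans (dnB_mod M u w)
  rw [h] at h1
  norm_num at h1

theorem dnA_even (s t : ℕ) : Even (dnA M s t).Δ := by
  have h1 := (dn_four hM).trans (dnA_mod M s t)
  rw [Int.even_iff]
  omega

theorem dn_sfA : Squarefree (1730 : ℕ) := by
  have h1 : (1730 : ℕ) = 2 * (5 * 173) := by norm_num
  rw [h1, Nat.squarefree_mul (by norm_num), Nat.squarefree_mul (by norm_num)]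
  exact ⟨Nat.prime_two.prime.squarefree, (by norm_num : Nat.Prime 5).prime.squarefree,
    (by norm_num : Nat.Prime 173).prime.squarefree⟩

theorem dn_sfB : Squarefree (91 : ℕ) := by
  have h1 : (91 : ℕ) = 7 * 13 := by norm_num
  rw [h1, Nat.squarefree_mul (by norm_num)]
  exact ⟨(by norm_num : Nat.Prime 7).prime.squarefree, (by norm_num : Nat.Prime 13).prime.squarefree⟩

end sf

end PE
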