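import Pool.Agent.Lib.MP_f80667_ag.Kf.Dsd
import Pool.Agent.Lib.MP_f80667_ag.Kf.Ok2

/-! Many pairs in the two families satisfy `Ok₂`. -/

open Finset

namespace PE

section sf

variable {M : ℕ} (hM : DnM M) {P : ℕ}

include hM

theorem dnA_nsq {s t : ℕ} (hP : (dnA M s t).Δ.natAbs < (P + 1) ^ 2)
    (hA : ¬ ∃ p ∈ dnP 100 P, ((p ^ 2 : ℕ) : ℤ) ∣
      ((1729 - 72 * M * (s : ℤ)) + (864 * M) * (t : ℕ)) ^ 2 - 1 * (1 + (-48 * M) * (s : ℕ)) ^ 3)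
    {p : ℕ} (hp : p.Prime) : ¬ ((p ^ 2 : ℕ) : ℤ) ∣ (dnA M s t).Δ := by
  intro h
  rcases le_or_gt p 100 with h1 | h1
  · have h2 : ((p ^ 2 : ℕ) : ℤ) ∣ (M : ℤ) := by exact_mod_cast hM.small p hp h1
    have h3 := dvd_sub (h2.trans (dnA_mod M s t)) h
    rw [add_sub_cancel_left] at h3
    have h4 : p ^ 2 ∣ 1730 := by exact_mod_cast h3
    have h5 := (dn_sfA hM) p (by rwa [← sq])
    exact hp.one_lt.ne' (Nat.isUnit_iff.1 h5)
  · refine hA ⟨p, mem_dnP.2 ⟨⟨h1, ?_⟩, hp⟩, ?_⟩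
    · have h2 := Int.natAbs_dvd_natAbs.2 h
      rw [Int.natAbs_natCast] at h2
      have h3 := Nat.le_of_dvd (Int.natAbs_pos.2 (dnA_ne hM s t)) h2
      have h4 : p ^ 2 < (P + 1) ^ 2 := by omega
      have h5 := lt_of_pow_lt_pow_left₀ 2 (by omega) h4
      omega
    · rw [← dnA_sq]
      exact h.mul_left _

theorem dnB_nsq {u w : ℕ} (hP : (dnB M u w).Δ.natAbs < (P + 1) ^ 2)
    (hB : ¬ ∃ p ∈ dnP 100 P, ((p ^ 2 : ℕ) : ℤ) ∣
      (9 + (36 * M) * (w : ℕ)) ^ 2 - (-192 : ℤ) * (1 + (M : ℤ) * (u : ℕ)) ^ 3)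
    {p : ℕ} (hp : p.Prime) : ¬ ((p ^ 2 : ℕ) : ℤ) ∣ (dnB M u w).Δ := by
  intro h
  rcases le_or_gt p 100 with h1 | h1
  · have h2 : ((p ^ 2 : ℕ) : ℤ) ∣ (M : ℤ) := by exact_mod_cast hM.small p hp h1
    have h3 := dvd_sub (h2.trans (dnB_mod M u w)) h
    rw [add_sub_cancel_left] at h3
    have h4 : p ^ 2 ∣ 91 := by exact_mod_cast h3
    have h5 := (dn_sfB hM) p (by rwa [← sq])
    exact hp.one_lt.ne' (Nat.isUnit_iff.1 h5)
  · refine hB ⟨p, mem_dnP.2 ⟨⟨h1, ?_⟩, hp⟩, ?_⟩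
    · have h2 := Int.natAbs_dvd_natAbs.2 h
      rw [Int.natAbs_natCast] at h2
      have h3 := Nat.le_of_dvd (Int.natAbs_pos.2 (dnB_ne hM u w)) h2
      have h4 : p ^ 2 < (P + 1) ^ 2 := by omega
      have h5 := lt_of_pow_lt_pow_left₀ 2 (by omega) h4
      omega
    · rw [← dnB_sq]
      exact h.mul_left _

theorem dn_ok {s t u w : ℕ} (hPA : (dnA M s t).Δ.natAbs < (P + 1) ^ 2)
    (hPB : (dnB M u w).Δ.natAbs < (P + 1) ^ 2)
    (hA : ¬ ∃ p ∈ dnP 100 P, ((p ^ 2 : ℕ) : ℤ) ∣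
      ((1729 - 72 * M * (s : ℤ)) + (864 * M) * (t : ℕ)) ^ 2 - 1 * (1 + (-48 * M) * (s : ℕ)) ^ 3)
    (hB : ¬ ∃ p ∈ dnP 100 P, ((p ^ 2 : ℕ) : ℤ) ∣
      (9 + (36 * M) * (w : ℕ)) ^ 2 - (-192 : ℤ) * (1 + (M : ℤ) * (u : ℕ)) ^ 3)
    (hAB : ∀ p : ℕ, p.Prime → 100 < p → (p : ℤ) ∣ (dnA M s t).Δ → ¬ (p : ℤ) ∣ (dnB M u w).Δ) :
    Ok₂ (dnA M s t) (dnB M u w) := by
  refine ⟨?_, dnA_even hM s t, Even.zero⟩
  rw [← Int.squarefree_natAbs, Int.natAbs_mul, Nat.squarefree_iff_prime_squarefree]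
  intro p hp h
  have hd : ∀ x : ℤ, p ∣ x.natAbs ↔ (p : ℤ) ∣ x := fun x => Int.natCast_dvd.symm
  have hno : ¬ (p ∣ (dnA M s t).Δ.natAbs ∧ p ∣ (dnB M u w).Δ.natAbs) := by
    rintro ⟨h1, h2⟩
    rw [hd] at h1 h2
    rcases le_or_gt p 100 with h3 | h3
    · have h4 : (p : ℤ) ∣ (M : ℤ) := by
        have := hM.small p hp h3
        exact_mod_cast (dvd_pow_self p two_ne_zero).trans this
      have h5 := dvd_sub (h4.trans (dnA_mod M s t)) h1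
      have h6 := dvd_sub (h4.trans (dnB_mod M u w)) h2
      rw [add_sub_cancel_left] at h5 h6
      have h7 : p ∣ 1730 := by exact_mod_cast h5
      have h8 : p ∣ 91 := by exact_mod_cast h6
      have h9 : p ∣ Nat.gcd 1730 91 := Nat.dvd_gcd h7 h8
      norm_num at h9
      exact hp.one_lt.ne' h9
    · exact hAB p hp h3 h1 h2
  have hsq : ∀ x : ℤ, ¬ ((p ^ 2 : ℕ) : ℤ) ∣ x → ¬ p * p ∣ x.natAbs := by
    intro x hx h1
    refine hx ?_
    rw [← sq] at h1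
    exact Int.natCast_dvd.2 h1
  by_cases h1 : p ∣ (dnA M s t).Δ.natAbs
  · have h2 : Nat.Coprime (p * p) (dnB M u w).Δ.natAbs := by
      have h3 := (Nat.Prime.coprime_iff_not_dvd hp).2 fun h4 => hno ⟨h1, h4⟩
      exact Nat.Coprime.mul_left h3 h3
    exact hsq _ (dnA_nsq hM hPA hA hp) (h2.dvd_of_dvd_mul_right h)
  · have h2 : Nat.Coprime (p * p) (dnA M s t).Δ.natAbs := by
      have h3 := (Nat.Prime.coprime_iff_not_dvd hp).2 h1
      exact Nat.Coprime.mul_left h3 h3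
    exact hsq _ (dnB_nsq hM hPB hB hp) (h2.dvd_of_dvd_mul_left h)

end sf

open scoped Classical in
/-- The number of good parameters. -/
theorem dn_count {M : ℕ} (hM : DnM M) {n S T : ℕ} (hn : 1 ≤ n) (hS : M * S ≤ n ^ 2)
    (hT : M * T ≤ n ^ 3) (hT4 : 570 * n ^ 6 < T ^ 4) :
    ∃ G : Finset ((ℕ × ℕ) × (ℕ × ℕ)),
      ((S : ℝ) * T) ^ 2 - 2 * (S * T) * (3 * (S * T) / 100 + 2 * S * Nat.primeCounting (32 * n ^ 3) +
        (S + T) * (1 + Real.log ((48 * M * S + 1 : ℕ) : ℝ)) + ((48 * M * S + 1 : ℕ) : ℝ)) -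
          16 * (S * T) ^ 2 / 100 - 6 * S ^ 2 * T ≤ #G ∧
      ∀ g ∈ G, (M * g.1.1 ≤ n ^ 2 ∧ 2 + M * g.1.2 ≤ n ^ 3 ∧ 1 + M * g.2.1 ≤ n ^ 2 ∧ M * g.2.2 ≤ n ^ 3) ∧
        Ok₂ (dnA M g.1.1 g.1.2) (dnB M g.2.1 g.2.2) := by
  set P : ℕ := 32 * n ^ 3 with hP
  have hMz : ∀ p : ℕ, p.Prime → 100 < p → ∀ k : ℕ, 0 < k → k ≤ 1000 → (∀ q : ℕ, q.Prime → q ∣ k → q ≤ 100) →
      ¬ (p : ℤ) ∣ ((k * M : ℕ) : ℤ) := by
    intro p hp h1 k hk0 hk hq h2
    have h3 : p ∣ k * M := by exact_mod_cast h2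
    rcases (Nat.Prime.dvd_mul hp).1 h3 with h4 | h4
    · have := hq p hp h4
      omega
    · exact hM.large p hp h1 h4
  have hk : ∀ p : ℕ, p.Prime → p ∣ 2 ^ 6 * 3 ^ 3 → p ≤ 100 := by
    intro p hp h
    rcases (Nat.Prime.dvd_mul hp).1 h with h | h
    · have := Nat.le_of_dvd (by norm_num) (hp.dvd_of_dvd_pow h)
      omega
    · have := Nat.le_of_dvd (by norm_num) (hp.dvd_of_dvd_pow h)
      omega
  have k1 : ∀ p : ℕ, p.Prime → 100 < p → ¬ (p : ℤ) ∣ 864 * M := fun p hp h h1 =>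
    hMz p hp h 864 (by norm_num) (by norm_num) (fun q hq h2 => hk q hq (h2.trans ⟨2, by norm_num⟩))
      (by push_cast; exact h1)
  have k2 : ∀ p : ℕ, p.Prime → 100 < p → ¬ (p : ℤ) ∣ 36 * M := fun p hp h h1 =>
    hMz p hp h 36 (by norm_num) (by norm_num) (fun q hq h2 => hk q hq (h2.trans ⟨48, by norm_num⟩))
      (by push_cast; exact h1)
  have k3 : ∀ p : ℕ, p.Prime → 100 < p → ¬ (p : ℤ) ∣ -48 * M := fun p hp h h1 =>
    hMz p hp h 48 (by norm_num) (by norm_num) (fun q hq h2 => hk q hq (h2.trans ⟨36, by norm_num⟩))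
      (by
        push_cast
        rw [neg_mul, dvd_neg] at h1
        exact h1)
  have k4 : ∀ p : ℕ, p.Prime → 100 < p → ¬ (p : ℤ) ∣ -192 := fun p hp h h1 => by
    rw [dvd_neg] at h1
    have h2 : p ∣ 192 := by exact_mod_cast h1
    have h3 := hk p hp (h2.trans ⟨9, by norm_num⟩)
    omega
  have k5 : ∀ p : ℕ, p.Prime → 100 < p → ¬ (p : ℤ) ∣ M := fun p hp h h1 =>
    hM.large p hp h (by exact_mod_cast h1)
  set A : Finset (ℕ × ℕ) := {q ∈ range S ×ˢ range T | ∃ p ∈ dnP 100 P, ((p ^ 2 : ℕ) : ℤ) ∣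
      ((1729 - 72 * M * (q.1 : ℤ)) + (864 * M) * (q.2 : ℕ)) ^ 2 - 1 * (1 + (-48 * M) * (q.1 : ℕ)) ^ 3}
    with hA
  set B : Finset (ℕ × ℕ) := {q ∈ range S ×ˢ range T | ∃ p ∈ dnP 100 P, ((p ^ 2 : ℕ) : ℤ) ∣
      (9 + (36 * M) * (q.2 : ℕ)) ^ 2 - (-192 : ℤ) * (1 + (M : ℤ) * (q.1 : ℕ)) ^ 3}
    with hB
  have hAE := dn_bad (x₀ := fun s => 1729 - 72 * M * (s : ℤ)) (x₁ := 864 * M) (κ := 1) (d₁ := -48 * M)
    (K := 100) (by norm_num)
    (fun p hp h => ⟨by omega, k1 p hp h, fun h1 => by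
      have h2 : p ∣ 1 := by exact_mod_cast h1
      exact hp.one_lt.ne' (Nat.dvd_one.1 h2), k3 p hp h⟩)
    (fun s h => by
      have h4 := dn_four hM
      obtain ⟨c, hc⟩ := h4
      rw [hc] at h
      have : (1 : ℤ) = 2 * (96 * c * s) := by linarith
      omega) S T P
  have hBE := dn_bad (x₀ := fun _ => 9) (x₁ := 36 * M) (κ := -192) (d₁ := M)
    (K := 100) (by norm_num)
    (fun p hp h => ⟨by omega, k2 p hp h, k4 p hp h, k5 p hp h⟩)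
    (fun s h => by
      have : (0 : ℤ) ≤ (M : ℤ) * s := by positivity
      omega) S T P
  have hn1 : ((-48 * (M : ℤ)).natAbs : ℕ) = 48 * M := by
    rw [Int.natAbs_mul, Int.natAbs_natCast]
    norm_num
  rw [hn1, ← hA] at hAE
  rw [Int.natAbs_natCast, ← hB] at hBE
  set E : ℝ := 3 * (S * T) / 100 + 2 * S * Nat.primeCounting P +
        (S + T) * (1 + Real.log ((48 * M * S + 1 : ℕ) : ℝ)) + ((48 * M * S + 1 : ℕ) : ℝ) with hE
  have hAE' : (#A : ℝ) ≤ E := by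
    refine hAE.trans (le_of_eq ?_)
    rw [hE]
    norm_num
  have hBE' : (#B : ℝ) ≤ E := by
    refine hBE.trans ?_
    rw [hE]
    have h1 : ((M * S + 1 : ℕ) : ℝ) ≤ ((48 * M * S + 1 : ℕ) : ℝ) := by
      have h2 : M * S + 1 ≤ 48 * M * S + 1 := by
        have : M * S ≤ 48 * (M * S) := Nat.le_mul_of_pos_left _ (by norm_num)
        have h3 : 48 * (M * S) = 48 * M * S := by ring
        omega
      exact_mod_cast h2
    have h2 : Real.log ((M * S + 1 : ℕ) : ℝ) ≤ Real.log ((48 * M * S + 1 : ℕ) : ℝ) :=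
      Real.log_le_log (by positivity) h1
    have h3 : (0 : ℝ) ≤ (S : ℝ) + T := by positivity
    have h4 := mul_le_mul_of_nonneg_left h2 h3
    norm_num at h1 h4 ⊢
    linarith
  have hs : ∀ s < S, M * s ≤ n ^ 2 ∧ 1 + M * s ≤ n ^ 2 := by
    intro s h
    have h1 : M * (s + 1) ≤ M * S := Nat.mul_le_mul_left _ h
    have h2 := hM.pos
    rw [Nat.mul_add, Nat.mul_one] at h1
    omega
  have ht : ∀ t < T, M * t ≤ n ^ 3 ∧ 2 + M * t ≤ n ^ 3 := by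
    intro t h
    have h1 : M * (t + 1) ≤ M * T := Nat.mul_le_mul_left _ h
    have h2 := hM.pos
    have h3 : 4 ≤ M := Nat.le_of_dvd hM.pos (by exact_mod_cast dn_four hM)
    rw [Nat.mul_add, Nat.mul_one] at h1
    omega
  have hP2 : 739 * n ^ 6 < (P + 1) ^ 2 := by
    have : (P + 1) ^ 2 = 1024 * n ^ 6 + 64 * n ^ 3 + 1 := by
      rw [hP]
      ring
    omega
  have hgood := dn_good (K := 100) (S := S) (T := T) (by norm_num) (U := range S ×ˢ range T)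
    (by rw [card_product, card_range, card_range])
    (f := fun q => (dnA M q.1 q.2).Δ) (g := fun q => (dnB M q.1 q.2).Δ)
    (fun p hp h => by
      have h1 := dn_fam₁ hp (x₀ := fun s => 1729 - 72 * M * (s : ℤ)) (x₁ := 864 * M)
        (D := fun s => 1 * (1 + (-48 * M) * (s : ℕ)) ^ 3) (k1 p hp h) S T
      refine (card_le_card fun q hq => ?_).trans h1
      rw [mem_filter] at hq ⊢
      refine ⟨hq.1, ?_⟩
      rw [← dnA_sq]
      exact hq.2.mul_left _)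
    (fun p hp h => by
      have h1 := dn_fam₁ hp (x₀ := fun _ => 9) (x₁ := 36 * M)
        (D := fun s => (-192 : ℤ) * (1 + (M : ℤ) * (s : ℕ)) ^ 3) (k2 p hp h) S T
      refine (card_le_card fun q hq => ?_).trans h1
      rw [mem_filter] at hq ⊢
      refine ⟨hq.1, ?_⟩
      rw [← dnB_sq]
      exact hq.2.mul_left _)
    (A := A) (B := B) (fun q _ _ => dnA_ne hM _ _)
    (fun q hq => by
      rw [mem_product, mem_range, mem_range] at hq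
      exact (dnA_lt hn (hs _ hq.1).1 (ht _ hq.2).2).trans_lt hT4) hAE' hBE'
  refine ⟨_, by norm_num at hgood ⊢; exact hgood, fun g hg => ?_⟩
  rw [mem_filter, mem_product, mem_product, mem_product, mem_range, mem_range, mem_range, mem_range] at hg
  obtain ⟨⟨⟨b1, b2⟩, ⟨b3, b4⟩⟩, b5, b6, b7⟩ := hg
  have c1 := (hs _ b1).1
  have c2 := (ht _ b2).2
  have c3 := (hs _ b3).2
  have c4 := (ht _ b4).1
  refine ⟨⟨c1, c2, c3, c4⟩, dn_ok hM (P := P) ?_ ?_ ?_ ?_ b7⟩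
  · refine (dnA_lt hn c1 c2).trans_lt (lt_of_le_of_lt ?_ hP2)
    omega
  · exact (dnB_lt hn c3 c4).trans_lt hP2
  · intro h
    refine b5 ?_
    rw [hA, mem_filter, mem_product, mem_range, mem_range]
    exact ⟨⟨b1, b2⟩, h⟩
  · intro h
    refine b6 ?_
    rw [hB, mem_filter, mem_product, mem_range, mem_range]
    exact ⟨⟨b3, b4⟩, h⟩

end PE
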