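import Pool.Agent.Lib.MP_f80667_ag.Kf.Dsf

/-! A positive proportion of the pairs of elliptic curves satisfies `Ok₂` and `Ok`. -/

open Finset Filter

namespace PE

/-- The discriminant of `dnB` is negative. -/
theorem dnB_neg (M u w : ℕ) : (dnB M u w).Δ < 0 := by
  rw [dnB_Δ]
  have h1 : (0 : ℤ) ≤ 64 * (1 + M * u : ℤ) ^ 3 := by positivity
  have h2 : (0 : ℤ) < 27 * (1 + 4 * (M * w)) ^ 2 := by positivity
  linarith

/-- The pairs of the family satisfy `Ok`. -/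
theorem dn_okp {M s t u w : ℕ} (h : Ok₂ (dnA M s t) (dnB M u w)) :
    Ok (dnA M s t) (dnB M u w) :=
  ⟨h.sf, Or.inr ⟨h.a₁, h.a₃⟩, Or.inr (dnB_neg M u w)⟩

/-- A positive proportion of the pairs of elliptic curves over `ℚ`, ordered by height, satisfies `Ok₂` and `Ok`. -/
theorem okp_dens : ∃ c : ℝ, 0 < c ∧ ∃ n₀ : ℕ, ∀ n ≥ n₀, c * ((Eqs n).ncard : ℝ) ^ 2 ≤
    ({w : WeierstrassCurve ℤ × WeierstrassCurve ℤ |
      w.1 ∈ Eqs n ∧ w.2 ∈ Eqs n ∧ Ok₂ w.1 w.2 ∧ Ok w.1 w.2}.ncard : ℝ) := by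
  obtain ⟨M, hM⟩ := dnM_ex
  have hM' : (0 : ℝ) < M := by exact_mod_cast hM.pos
  obtain ⟨n₀, hn₀⟩ := dn_asym hM.pos
  refine ⟨1 / (2 * 108 ^ 2 * (4 * M) ^ 4), by positivity, n₀, fun n hn => ?_⟩
  obtain ⟨S, T, h1, hS, hT, hT4, hSn, hTn, hmain⟩ := hn₀ n hn
  obtain ⟨G, hG, hg⟩ := dn_count hM h1 hS hT hT4
  have hGc := hmain.trans hG
  obtain ⟨hfin, hE⟩ := eqs_le h1
  set X : Set (WeierstrassCurve ℤ × WeierstrassCurve ℤ) :=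
    {w | w.1 ∈ Eqs n ∧ w.2 ∈ Eqs n ∧ Ok₂ w.1 w.2 ∧ Ok w.1 w.2} with hX
  have hXf : X.Finite := (hfin.prod hfin).subset fun w hw => ⟨hw.1, hw.2.1⟩
  set φ : (ℕ × ℕ) × (ℕ × ℕ) → WeierstrassCurve ℤ × WeierstrassCurve ℤ :=
    fun g => (dnA M g.1.1 g.1.2, dnB M g.2.1 g.2.2) with hφ
  have hMz : (M : ℤ) ≠ 0 := by exact_mod_cast hM.pos.ne'
  have hinj : Function.Injective φ := by
    rintro ⟨⟨s, t⟩, ⟨u, w⟩⟩ ⟨⟨s', t'⟩, ⟨u', w'⟩⟩ h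
    simp only [hφ, dnA, dnB, Prod.mk.injEq, WeierstrassCurve.mk.injEq, true_and] at h
    obtain ⟨⟨h1, h2⟩, h3, h4⟩ := h
    have e1 := mul_left_cancel₀ hMz h1
    have e2 := mul_left_cancel₀ hMz (add_left_cancel h2)
    have e3 := mul_left_cancel₀ hMz (add_left_cancel h3)
    have e4 := mul_left_cancel₀ hMz h4
    norm_cast at e1 e2 e3 e4
    rw [e1, e2, e3, e4]
  have himg : φ '' (G : Set ((ℕ × ℕ) × (ℕ × ℕ))) ⊆ X := by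
    rintro _ ⟨g, hgG, rfl⟩
    obtain ⟨⟨b1, b2, b3, b4⟩, b5⟩ := hg g hgG
    have c1 : ((M : ℤ) * (g.1.1 : ℤ)) ≤ (n : ℤ) ^ 2 := by exact_mod_cast b1
    have c2 : (2 + (M : ℤ) * (g.1.2 : ℤ)) ≤ (n : ℤ) ^ 3 := by exact_mod_cast b2
    have c3 : (1 + (M : ℤ) * (g.2.1 : ℤ)) ≤ (n : ℤ) ^ 2 := by exact_mod_cast b3
    have c4 : ((M : ℤ) * (g.2.2 : ℤ)) ≤ (n : ℤ) ^ 3 := by exact_mod_cast b4
    refine ⟨⟨Or.inr rfl, ?_, Or.inl rfl, ?_, ?_⟩, ⟨Or.inl rfl, ?_, Or.inr rfl, ?_, ?_⟩, b5, dn_okp b5⟩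
    · simp [hφ, dnA]
    · simp only [hφ, dnA]
      rw [abs_of_nonneg (by positivity)]
      exact c1
    · simp only [hφ, dnA]
      rw [abs_of_nonneg (by positivity)]
      exact c2
    · simp [hφ, dnB]
    · simp only [hφ, dnB]
      rw [abs_of_nonneg (by positivity)]
      exact c3
    · simp only [hφ, dnB]
      rw [abs_of_nonneg (by positivity)]
      exact c4
  have hcard : #G ≤ X.ncard := by
    have h2 := Set.ncard_le_ncard himg hXf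
    rwa [Set.ncard_image_of_injective _ hinj, Set.ncard_coe_finset] at h2
  have hcard' : (#G : ℝ) ≤ X.ncard := by exact_mod_cast hcard
  refine le_trans ?_ (hGc.trans hcard')
  have hE' : ((Eqs n).ncard : ℝ) ≤ 108 * (n : ℝ) ^ 5 := by exact_mod_cast hE
  have h3 : ((Eqs n).ncard : ℝ) ^ 2 ≤ (108 * (n : ℝ) ^ 5) ^ 2 := by
    gcongr
  have h4 : (n : ℝ) ^ 5 / (4 * M) ^ 2 ≤ S * T := by
    have h6 : (n : ℝ) ^ 5 / (4 * (M : ℝ)) ^ 2 = ((n : ℝ) ^ 2 / (4 * M)) * ((n : ℝ) ^ 3 / (4 * M)) := by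
      field_simp
    rw [h6]
    exact mul_le_mul hSn hTn (by positivity) (by positivity)
  have h5 : ((n : ℝ) ^ 5 / (4 * M) ^ 2) ^ 2 ≤ ((S : ℝ) * T) ^ 2 := by
    gcongr
  calc 1 / (2 * 108 ^ 2 * (4 * (M : ℝ)) ^ 4) * ((Eqs n).ncard : ℝ) ^ 2 ≤
      1 / (2 * 108 ^ 2 * (4 * (M : ℝ)) ^ 4) * (108 * (n : ℝ) ^ 5) ^ 2 :=
        mul_le_mul_of_nonneg_left h3 (by positivity)
    _ = 1 / 2 * ((n : ℝ) ^ 5 / (4 * M) ^ 2) ^ 2 := by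
        field_simp
    _ ≤ 1 / 2 * ((S : ℝ) * T) ^ 2 := by linarith

end PE
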