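import Pool.Agent.Lib.MP_f80667_ag.Kf.Dsb

/-! Counting the solutions of `x² ≡ D` modulo prime powers, without conditions on the prime. -/

open Finset

namespace PE

/-- Pairwise congruent numbers. -/
theorem dt_cl {q : ℕ} (T : ℕ) {A : Finset ℕ} (hA : A ⊆ range T)
    (H : ∀ t ∈ A, ∀ t' ∈ A, (q : ℤ) ∣ (t : ℤ) - t') : #A ≤ T / q + 1 := by
  classical
  rw [← card_range (T / q + 1)]
  refine card_le_card_of_injOn (fun t => t / q) ?_ ?_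
  · intro t ht
    have h1 := mem_range.1 (hA ht)
    simp only [coe_range, Set.mem_Iio]
    exact Nat.lt_succ_of_le (Nat.div_le_div_right h1.le)
  · intro t ht t' ht' h1
    simp only at h1
    have h3 := H t ht t' ht'
    have h4 : t % q = t' % q := by
      have h5 : (t' : ℤ) ≡ t [ZMOD q] := (Int.modEq_iff_dvd).2 h3
      have h6 := (Int.natCast_modEq_iff).1 h5
      exact h6.symm
    rw [← Nat.div_add_mod t q, ← Nat.div_add_mod t' q, h1, h4]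

theorem dt_half {p : ℕ} (hp : p.Prime) {u v : ℤ} {L h : ℕ} (hL : 2 * h ≤ L + 1)
    (H : (p : ℤ) ^ L ∣ u * v) : (p : ℤ) ^ h ∣ u ∨ (p : ℤ) ^ h ∣ v := by
  have hP := Nat.prime_iff_prime_int.1 hp
  by_contra hc
  rw [not_or] at hc
  have ha' := emultiplicity_lt_iff_not_dvd.2 hc.1
  have hb' := emultiplicity_lt_iff_not_dvd.2 hc.2
  obtain ⟨a, ha⟩ := ENat.ne_top_iff_exists.1 (ne_top_of_lt ha')
  obtain ⟨b, hb⟩ := ENat.ne_top_iff_exists.1 (ne_top_of_lt hb')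
  rw [pow_dvd_iff_le_emultiplicity, emultiplicity_mul hP, ← ha, ← hb] at H
  rw [← ha] at ha'
  rw [← hb] at hb'
  have h1 : L ≤ a + b := by exact_mod_cast H
  have h2 : a < h := by exact_mod_cast ha'
  have h3 : b < h := by exact_mod_cast hb'
  omega

theorem dt_864 {p : ℕ} (hp : p.Prime) {h : ℕ} {z : ℤ} (H : (p : ℤ) ^ h ∣ 864 * z) :
    (p : ℤ) ^ (h - 5) ∣ z := by
  have hP := Nat.prime_iff_prime_int.1 hp
  have h6 : ¬ (p : ℤ) ^ 6 ∣ 864 := by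
    intro h1
    have h2 : p ^ 6 ∣ 864 := by exact_mod_cast h1
    have h3 := Nat.le_of_dvd (by norm_num) h2
    have h4 : p < 4 := by
      by_contra h5
      have h7 : 4 ^ 6 ≤ p ^ 6 := Nat.pow_le_pow_left (by omega) 6
      norm_num at h7
      omega
    have h5 := hp.two_le
    interval_cases p <;> norm_num at h2
  have ha' := emultiplicity_lt_iff_not_dvd.2 h6
  obtain ⟨a, ha⟩ := ENat.ne_top_iff_exists.1 (ne_top_of_lt ha')
  rw [← ha] at ha'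
  have h7 : a < 6 := by exact_mod_cast ha'
  rw [pow_dvd_iff_le_emultiplicity, emultiplicity_mul hP, ← ha] at H
  rw [pow_dvd_iff_le_emultiplicity]
  by_cases hz : ∃ b : ℕ, emultiplicity (p : ℤ) z = b
  · obtain ⟨b, hb⟩ := hz
    rw [hb] at H ⊢
    have h8 : h ≤ a + b := by exact_mod_cast H
    have h9 : h - 5 ≤ b := by omega
    exact_mod_cast h9
  · have h8 : emultiplicity (p : ℤ) z = ⊤ := by
      by_contra h9
      obtain ⟨b, hb⟩ := ENat.ne_top_iff_exists.1 h9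
      exact hz ⟨b, hb.symm⟩
    rw [h8]
    exact le_top

theorem dt_pow {p : ℕ} (hp : p.Prime) {x₀ D : ℤ} {L h : ℕ} (hL : 2 * h ≤ L + 1) (T : ℕ) :
    #{t ∈ range T | (p : ℤ) ^ L ∣ (x₀ + -864 * (t : ℕ)) ^ 2 - D} ≤ 2 * (T / p ^ (h - 5) + 1) := by
  classical
  set A : Finset ℕ := {t ∈ range T | (p : ℤ) ^ L ∣ (x₀ + -864 * (t : ℕ)) ^ 2 - D} with hA
  rcases A.eq_empty_or_nonempty with h0 | ⟨t₀, h₀⟩
  · rw [h0]
    simp
  have key : ∀ t ∈ A, ((p : ℤ) ^ h ∣ (x₀ + -864 * (t : ℕ)) - (x₀ + -864 * (t₀ : ℕ))) ∨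
      (p : ℤ) ^ h ∣ (x₀ + -864 * (t : ℕ)) + (x₀ + -864 * (t₀ : ℕ)) := by
    intro t ht
    refine dt_half hp hL ?_
    have h1 := dvd_sub (mem_filter.1 ht).2 (mem_filter.1 h₀).2
    have h2 : (x₀ + -864 * (t : ℕ)) ^ 2 - D - ((x₀ + -864 * (t₀ : ℕ)) ^ 2 - D) =
      ((x₀ + -864 * (t : ℕ)) - (x₀ + -864 * (t₀ : ℕ))) * ((x₀ + -864 * (t : ℕ)) + (x₀ + -864 * (t₀ : ℕ))) := by
      ring
    rwa [h2] at h1
  have hc : ((p ^ (h - 5) : ℕ) : ℤ) = (p : ℤ) ^ (h - 5) := by push_cast; rfl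
  have h1 : A ⊆ {t ∈ A | (p : ℤ) ^ h ∣ (x₀ + -864 * (t : ℕ)) - (x₀ + -864 * (t₀ : ℕ))} ∪
      {t ∈ A | (p : ℤ) ^ h ∣ (x₀ + -864 * (t : ℕ)) + (x₀ + -864 * (t₀ : ℕ))} := by
    intro t ht
    rcases key t ht with h2 | h2
    · exact mem_union_left _ (mem_filter.2 ⟨ht, h2⟩)
    · exact mem_union_right _ (mem_filter.2 ⟨ht, h2⟩)
  have hs : A ⊆ range T := filter_subset _ _
  have h2 : #{t ∈ A | (p : ℤ) ^ h ∣ (x₀ + -864 * (t : ℕ)) - (x₀ + -864 * (t₀ : ℕ))} ≤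
      T / p ^ (h - 5) + 1 := by
    refine dt_cl T ((filter_subset _ _).trans hs) fun t ht t' ht' => ?_
    rw [hc]
    refine dt_864 hp ?_
    have h3 := dvd_sub (mem_filter.1 ht').2 (mem_filter.1 ht).2
    have h4 : 864 * ((t : ℤ) - t') = x₀ + -864 * (t' : ℕ) - (x₀ + -864 * (t₀ : ℕ)) -
        (x₀ + -864 * (t : ℕ) - (x₀ + -864 * (t₀ : ℕ))) := by ring
    rw [h4]
    exact h3
  have h3 : #{t ∈ A | (p : ℤ) ^ h ∣ (x₀ + -864 * (t : ℕ)) + (x₀ + -864 * (t₀ : ℕ))} ≤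
      T / p ^ (h - 5) + 1 := by
    refine dt_cl T ((filter_subset _ _).trans hs) fun t ht t' ht' => ?_
    rw [hc]
    refine dt_864 hp ?_
    have h3 := dvd_sub (mem_filter.1 ht').2 (mem_filter.1 ht).2
    have h4 : 864 * ((t : ℤ) - t') = x₀ + -864 * (t' : ℕ) + (x₀ + -864 * (t₀ : ℕ)) -
        (x₀ + -864 * (t : ℕ) + (x₀ + -864 * (t₀ : ℕ))) := by ring
    rw [h4]
    exact h3
  have h4 := (card_le_card h1).trans (card_union_le _ _)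
  omega

/-- Two parameters, all powers `p ^ L` of primes `p ≤ K`. -/
theorem dt_small {x₀ D : ℕ → ℤ} {L h : ℕ} (hL : 2 * h ≤ L + 1) (K S T : ℕ) :
    #{q ∈ range S ×ˢ range T | ∃ p ∈ dnP 0 K,
      (p : ℤ) ^ L ∣ (x₀ q.1 + -864 * (q.2 : ℕ)) ^ 2 - D q.1} ≤ K * (S * (2 * (T / 2 ^ (h - 5) + 1))) := by
  classical
  have h1 : {q ∈ range S ×ˢ range T | ∃ p ∈ dnP 0 K,
      (p : ℤ) ^ L ∣ (x₀ q.1 + -864 * (q.2 : ℕ)) ^ 2 - D q.1} ⊆ (dnP 0 K).biUnion fun p =>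
        {q ∈ range S ×ˢ range T | (p : ℤ) ^ L ∣ (x₀ q.1 + -864 * (q.2 : ℕ)) ^ 2 - D q.1} := by
    intro q hq
    rw [mem_filter] at hq
    obtain ⟨p, hp, h⟩ := hq.2
    rw [mem_biUnion]
    exact ⟨p, hp, mem_filter.2 ⟨hq.1, h⟩⟩
  refine (card_le_card h1).trans (card_biUnion_le.trans ?_)
  have h2 : ∀ p ∈ dnP 0 K,
      #{q ∈ range S ×ˢ range T | (p : ℤ) ^ L ∣ (x₀ q.1 + -864 * (q.2 : ℕ)) ^ 2 - D q.1} ≤
        S * (2 * (T / 2 ^ (h - 5) + 1)) := by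
    intro p hp
    have hp' := (mem_filter.1 hp).2
    rw [dn_prod (S := range S) (T := range T) fun s t =>
      (p : ℤ) ^ L ∣ (x₀ s + -864 * (t : ℕ)) ^ 2 - D s]
    refine (sum_le_sum fun s _ => dt_pow hp' hL T).trans ?_
    rw [sum_const, card_range, smul_eq_mul]
    have h3 : T / p ^ (h - 5) ≤ T / 2 ^ (h - 5) :=
      Nat.div_le_div_left (Nat.pow_le_pow_left hp'.two_le _) (by positivity)
    gcongr
  refine (sum_le_sum h2).trans ?_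
  rw [sum_const, smul_eq_mul]
  have h3 : #(dnP 0 K) ≤ K := by
    refine (card_filter_le _ _).trans ?_
    rw [Nat.card_Ioc]
    omega
  gcongr

section bad

variable {p : ℕ} (hp : p.Prime) {x₀ : ℕ → ℤ} {x₁ e d₁ : ℤ}

include hp

/-- Two parameters, modulo `p²`. -/
theorem dt_fam (h2 : p ≠ 2) (h : ¬ (p : ℤ) ∣ x₁) (S T : ℕ) :
    #{q ∈ range S ×ˢ range T | ((p ^ 2 : ℕ) : ℤ) ∣ (x₀ q.1 + x₁ * (q.2 : ℕ)) ^ 2 -
      (e + d₁ * (q.1 : ℕ)) ^ 3} ≤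
      S * (2 * (T / p ^ 2 + 1)) + #{s ∈ range S | (p : ℤ) ∣ e + d₁ * (s : ℕ)} * (T / p + 1) := by
  classical
  rw [dn_prod (S := range S) (T := range T) fun s t => ((p ^ 2 : ℕ) : ℤ) ∣
    (x₀ s + x₁ * (t : ℕ)) ^ 2 - (e + d₁ * (s : ℕ)) ^ 3]
  have h3 : ∀ s ∈ range S, #{t ∈ range T | ((p ^ 2 : ℕ) : ℤ) ∣
      (x₀ s + x₁ * (t : ℕ)) ^ 2 - (e + d₁ * (s : ℕ)) ^ 3} ≤
      2 * (T / p ^ 2 + 1) + if (p : ℤ) ∣ e + d₁ * (s : ℕ) then (T / p + 1) else 0 := by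
    intro s _
    split_ifs with h4
    · refine (dn_deg hp (x₀ := x₀ s) h ?_ T).trans (by omega)
      exact dvd_pow h4 three_ne_zero
    · have h5 : ¬ (p : ℤ) ∣ (e + d₁ * (s : ℕ)) ^ 3 := by
        intro h6
        have hP := Nat.prime_iff_prime_int.1 hp
        exact h4 (hP.dvd_of_dvd_pow h6)
      exact (dn_sq hp h2 (x₀ := x₀ s) h h5 T).trans (by omega)
  refine (sum_le_sum h3).trans ?_
  rw [sum_add_distrib, sum_const, card_range, smul_eq_mul, ← sum_filter, sum_const, smul_eq_mul]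

end bad

/-- Two parameters, all squares of primes between `K` and `P`. -/
theorem dt_bad {x₀ : ℕ → ℤ} {x₁ e d₁ : ℤ} {K : ℕ} (hK : K ≠ 0)
    (hp : ∀ p : ℕ, p.Prime → K < p → p ≠ 2 ∧ ¬ (p : ℤ) ∣ x₁ ∧ ¬ (p : ℤ) ∣ d₁) (S T P : ℕ) :
    ((#{q ∈ range S ×ˢ range T | ∃ p ∈ dnP K P, ((p ^ 2 : ℕ) : ℤ) ∣ (x₀ q.1 + x₁ * (q.2 : ℕ)) ^ 2 -
      (e + d₁ * (q.1 : ℕ)) ^ 3} : ℕ) : ℝ) ≤
      3 * (S * T) / K + 2 * S * Nat.primeCounting P + (S + T) * (1 + Real.log P) + P := by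
  classical
  have h1 : {q ∈ range S ×ˢ range T | ∃ p ∈ dnP K P, ((p ^ 2 : ℕ) : ℤ) ∣ (x₀ q.1 + x₁ * (q.2 : ℕ)) ^ 2 -
      (e + d₁ * (q.1 : ℕ)) ^ 3} ⊆ (dnP K P).biUnion fun p =>
        {q ∈ range S ×ˢ range T | ((p ^ 2 : ℕ) : ℤ) ∣ (x₀ q.1 + x₁ * (q.2 : ℕ)) ^ 2 -
          (e + d₁ * (q.1 : ℕ)) ^ 3} := by
    intro q hq
    rw [mem_filter] at hq
    obtain ⟨p, hp, h⟩ := hq.2
    rw [mem_biUnion]
    exact ⟨p, hp, mem_filter.2 ⟨hq.1, h⟩⟩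
  have h2 := (card_le_card h1).trans card_biUnion_le
  have h3 : ∀ p ∈ dnP K P, #{q ∈ range S ×ˢ range T | ((p ^ 2 : ℕ) : ℤ) ∣
      (x₀ q.1 + x₁ * (q.2 : ℕ)) ^ 2 - (e + d₁ * (q.1 : ℕ)) ^ 3} ≤
      S * (2 * (T / p ^ 2 + 1)) + #{s ∈ range S | (p : ℤ) ∣ e + d₁ * (s : ℕ)} * (T / p + 1) := by
    intro p hp'
    rw [mem_dnP] at hp'
    obtain ⟨a1, a2, a3⟩ := hp p hp'.2 hp'.1.1
    exact dt_fam hp'.2 a1 a2 S T
  have h4 : ((#{q ∈ range S ×ˢ range T | ∃ p ∈ dnP K P, ((p ^ 2 : ℕ) : ℤ) ∣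
      (x₀ q.1 + x₁ * (q.2 : ℕ)) ^ 2 - (e + d₁ * (q.1 : ℕ)) ^ 3} : ℕ) : ℝ) ≤
      ∑ p ∈ dnP K P, (((S * (2 * (T / p ^ 2 + 1)) : ℕ) : ℝ) +
        ((#{s ∈ range S | (p : ℤ) ∣ e + d₁ * (s : ℕ)} * (T / p + 1) : ℕ) : ℝ)) := by
    have h5 := h2.trans (sum_le_sum h3)
    calc _ ≤ ((∑ p ∈ dnP K P, (S * (2 * (T / p ^ 2 + 1)) +
          #{s ∈ range S | (p : ℤ) ∣ e + d₁ * (s : ℕ)} * (T / p + 1)) : ℕ) : ℝ) := by exact_mod_cast h5
      _ = _ := by push_cast; rfl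
  rw [sum_add_distrib] at h4
  have h5 : ∑ p ∈ dnP K P, ((S * (2 * (T / p ^ 2 + 1)) : ℕ) : ℝ) ≤
      2 * (S * T) / K + 2 * S * Nat.primeCounting P := by
    have h6 : ∀ p ∈ dnP K P, ((S * (2 * (T / p ^ 2 + 1)) : ℕ) : ℝ) ≤
        2 * (S * T) * (1 / (p : ℝ) ^ 2) + 2 * S := by
      intro p _
      have h7 := dn_div T (p ^ 2)
      push_cast at h7 ⊢
      have h8 : (0 : ℝ) ≤ S := by positivity
      have h9 := mul_le_mul_of_nonneg_left h7 h8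
      have h10 : 2 * ((S : ℝ) * T) * (1 / (p : ℝ) ^ 2) = 2 * (S * (T / (p : ℝ) ^ 2)) := by ring
      rw [h10]
      linarith
    refine (sum_le_sum h6).trans ?_
    rw [sum_add_distrib, ← mul_sum, sum_const, nsmul_eq_mul]
    have h7 := dnP_sq hK P
    have h8 : (0 : ℝ) ≤ 2 * ((S : ℝ) * T) := by positivity
    have h9 := mul_le_mul_of_nonneg_left h7 h8
    have h10 : (#(dnP K P) : ℝ) ≤ Nat.primeCounting P := by exact_mod_cast dnP_card K P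
    have h11 : (0 : ℝ) ≤ 2 * S := by positivity
    have h12 := mul_le_mul_of_nonneg_right h10 h11
    rw [mul_one_div] at h9
    linarith
  have h6 : ∑ p ∈ dnP K P, ((#{s ∈ range S | (p : ℤ) ∣ e + d₁ * (s : ℕ)} * (T / p + 1) : ℕ) : ℝ) ≤
      (S * T) / K + (S + T) * (1 + Real.log P) + P := by
    have h9 : ∀ p ∈ dnP K P, ((#{s ∈ range S | (p : ℤ) ∣ e + d₁ * (s : ℕ)} * (T / p + 1) : ℕ) : ℝ) ≤
        (S * T) * (1 / (p : ℝ) ^ 2) + (S + T) * (1 / (p : ℝ)) + 1 := by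
      intro p hp'
      rw [mem_dnP] at hp'
      obtain ⟨a1, a2, a3⟩ := hp p hp'.2 hp'.1.1
      have hc : IsCoprime (p : ℤ) d₁ := by simpa using dn_cop hp'.2 a3 1
      have h10 := dn_prog (x₀ := e) hc S
      have h11 : (#{s ∈ range S | (p : ℤ) ∣ e + d₁ * (s : ℕ)} : ℝ) ≤ S / p + 1 := by
        have h12 := dn_div S p
        have h13 : (#{s ∈ range S | (p : ℤ) ∣ e + d₁ * (s : ℕ)} : ℝ) ≤ ((S / p + 1 : ℕ) : ℝ) := by
          exact_mod_cast h10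
        push_cast at h13
        linarith
      have h12 := dn_div T p
      have hp0 : (0 : ℝ) < p := by exact_mod_cast hp'.2.pos
      push_cast
      have h13 : ((#{s ∈ range S | (p : ℤ) ∣ e + d₁ * (s : ℕ)} : ℕ) : ℝ) * (((T / p : ℕ) : ℝ) + 1) ≤
          (S / p + 1) * (T / p + 1) := by
        refine mul_le_mul h11 (by linarith) (by positivity) (by positivity)
      refine h13.trans (le_of_eq ?_)
      field_simp
      ring
    refine (sum_le_sum h9).trans ?_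
    rw [sum_add_distrib, sum_add_distrib, ← mul_sum, ← mul_sum, sum_const, nsmul_eq_mul, mul_one]
    have h7 := dnP_sq hK P
    have h8 : (0 : ℝ) ≤ (S : ℝ) * T := by positivity
    have h10 := mul_le_mul_of_nonneg_left h7 h8
    have h11 := dnP_one K P
    have h12 : (0 : ℝ) ≤ (S : ℝ) + T := by positivity
    have h13 := mul_le_mul_of_nonneg_left h11 h12
    have h14 : (#(dnP K P) : ℝ) ≤ P := by
      have h15 : #(dnP K P) ≤ P := by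
        refine (card_filter_le _ _).trans ?_
        rw [Nat.card_Ioc]
        omega
      exact_mod_cast h15
    rw [mul_one_div] at h10
    linarith
  have h7 : 2 * ((S : ℝ) * T) / K + S * T / K = 3 * (S * T) / K := by ring
  linarith

end PE
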