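import Pool.Agent.Lib.MP_f80667_ag.Kf.Dta
import Pool.Agent.Lib.MP_f80667_ag.Kf.Dsf

/-! All reduced equations. -/

open Finset

namespace PE

/-- The values of `(a₁, a₂, a₃)`. -/
noncomputable def dtC : Finset (ℤ × ℤ × ℤ) := ({0, 1} : Finset ℤ) ×ˢ Icc (-1 : ℤ) 1 ×ˢ ({0, 1} : Finset ℤ)

theorem dtC_card : dtC.card = 12 := rfl

theorem mem_dtC {c : ℤ × ℤ × ℤ} : c ∈ dtC ↔ (c.1 = 0 ∨ c.1 = 1) ∧ |c.2.1| ≤ 1 ∧ (c.2.2 = 0 ∨ c.2.2 = 1) := by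
  simp only [dtC, mem_product, mem_insert, mem_singleton, mem_Icc, abs_le]

/-- The equation with given `(a₁, a₂, a₃)`, `a₄ = s - n²`, `a₆ = t - n³`. -/
def dtE (n : ℕ) (c : ℤ × ℤ × ℤ) (q : ℕ × ℕ) : WeierstrassCurve ℤ :=
  ⟨c.1, c.2.1, c.2.2, (q.1 : ℤ) - n ^ 2, (q.2 : ℤ) - n ^ 3⟩

/-- The box. -/
def dtU (n : ℕ) : Finset (ℕ × ℕ) := range (2 * n ^ 2 + 1) ×ˢ range (2 * n ^ 3 + 1)

theorem dtU_card (n : ℕ) : #(dtU n) = (2 * n ^ 2 + 1) * (2 * n ^ 3 + 1) := by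
  rw [dtU, card_product, card_range, card_range]

theorem dtU_le {n : ℕ} {q : ℕ × ℕ} (hq : q ∈ dtU n) :
    |(q.1 : ℤ) - n ^ 2| ≤ n ^ 2 ∧ |(q.2 : ℤ) - n ^ 3| ≤ n ^ 3 := by
  rw [dtU, mem_product, mem_range, mem_range] at hq
  rw [abs_le, abs_le]
  have h1 : (q.1 : ℤ) < 2 * n ^ 2 + 1 := by exact_mod_cast hq.1
  have h2 : (q.2 : ℤ) < 2 * n ^ 3 + 1 := by exact_mod_cast hq.2
  have h3 : (0 : ℤ) ≤ q.1 := by positivity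
  have h4 : (0 : ℤ) ≤ q.2 := by positivity
  exact ⟨⟨by linarith, by linarith⟩, ⟨by linarith, by linarith⟩⟩

theorem dtE_mem {n : ℕ} {c : ℤ × ℤ × ℤ} {q : ℕ × ℕ} (hc : c ∈ dtC) (hq : q ∈ dtU n) :
    dtE n c q ∈ Eqs n := by
  rw [mem_dtC] at hc
  obtain ⟨h1, h2⟩ := dtU_le hq
  exact ⟨hc.1, hc.2.1, hc.2.2, h1, h2⟩

theorem dtE_inj {n : ℕ} {c c' : ℤ × ℤ × ℤ} {q q' : ℕ × ℕ} (h : dtE n c q = dtE n c' q') :
    c = c' ∧ q = q' := by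
  obtain ⟨x, y, z⟩ := c
  obtain ⟨x', y', z'⟩ := c'
  obtain ⟨s, t⟩ := q
  obtain ⟨s', t'⟩ := q'
  simp only [dtE, WeierstrassCurve.mk.injEq] at h
  obtain ⟨h1, h2, h3, h4, h5⟩ := h
  have h6 : s = s' := by
    have : (s : ℤ) = s' := by linarith
    exact_mod_cast this
  have h7 : t = t' := by
    have : (t : ℤ) = t' := by linarith
    exact_mod_cast this
  rw [h1, h2, h3, h6, h7]
  exact ⟨rfl, rfl⟩

theorem eqs_sub (n : ℕ) : Eqs n ⊆ (fun w : (ℤ × ℤ × ℤ) × (ℕ × ℕ) => dtE n w.1 w.2) ''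
    ((dtC ×ˢ dtU n : Finset _) : Set ((ℤ × ℤ × ℤ) × (ℕ × ℕ))) := by
  rintro ⟨a₁, a₂, a₃, a₄, a₆⟩ ⟨h1, h2, h3, h4, h6⟩
  simp only at h1 h2 h3 h4 h6
  rw [abs_le] at h4 h6
  refine ⟨((a₁, a₂, a₃), ((a₄ + n ^ 2).toNat, (a₆ + n ^ 3).toNat)), ?_, ?_⟩
  · rw [mem_coe, mem_product]
    refine ⟨mem_dtC.2 ⟨h1, h2, h3⟩, ?_⟩
    rw [dtU, mem_product, mem_range, mem_range]
    constructor
    · simp only
      have : (((a₄ + n ^ 2).toNat : ℕ) : ℤ) < ((2 * n ^ 2 + 1 : ℕ) : ℤ) := by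
        rw [Int.toNat_of_nonneg (by linarith)]
        push_cast
        linarith
      exact_mod_cast this
    · simp only
      have : (((a₆ + n ^ 3).toNat : ℕ) : ℤ) < ((2 * n ^ 3 + 1 : ℕ) : ℤ) := by
        rw [Int.toNat_of_nonneg (by linarith)]
        push_cast
        linarith
      exact_mod_cast this
  · simp only [dtE, WeierstrassCurve.mk.injEq]
    refine ⟨trivial, trivial, trivial, ?_, ?_⟩
    · rw [Int.toNat_of_nonneg (by linarith)]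
      ring
    · rw [Int.toNat_of_nonneg (by linarith)]
      ring

theorem eqs_fin (n : ℕ) : (Eqs n).Finite :=
  ((dtC ×ˢ dtU n).finite_toSet.image _).subset (eqs_sub n)

theorem eqs_card_le (n : ℕ) : (Eqs n).ncard ≤ 12 * ((2 * n ^ 2 + 1) * (2 * n ^ 3 + 1)) := by
  refine (Set.ncard_le_ncard (eqs_sub n) ((dtC ×ˢ dtU n).finite_toSet.image _)).trans ?_
  refine (Set.ncard_image_le (dtC ×ˢ dtU n).finite_toSet).trans ?_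
  rw [Set.ncard_coe_finset, card_product, dtC_card, dtU_card]

/-- `c₆` without the term of `t`. -/
def dtX (n : ℕ) (c : ℤ × ℤ × ℤ) (s : ℕ) : ℤ :=
  -(c.1 ^ 2 + 4 * c.2.1) ^ 3 + 36 * (c.1 ^ 2 + 4 * c.2.1) * (2 * ((s : ℤ) - n ^ 2) + c.1 * c.2.2) -
    216 * (c.2.2 ^ 2 - 4 * n ^ 3)

/-- `c₄` without the term of `s`. -/
def dtY (n : ℕ) (c : ℤ × ℤ × ℤ) : ℤ := (c.1 ^ 2 + 4 * c.2.1) ^ 2 - 24 * (-2 * n ^ 2 + c.1 * c.2.2)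

theorem dtE_sq (n : ℕ) (c : ℤ × ℤ × ℤ) (q : ℕ × ℕ) : -1728 * (dtE n c q).Δ =
    (dtX n c q.1 + -864 * (q.2 : ℕ)) ^ 2 - (dtY n c + -48 * (q.1 : ℕ)) ^ 3 := by
  simp only [dtE, dtX, dtY, WeierstrassCurve.Δ, WeierstrassCurve.b₂, WeierstrassCurve.b₄, WeierstrassCurve.b₆,
    WeierstrassCurve.b₈]
  ring

theorem dt_abs {x y X Y : ℤ} (hx : |x| ≤ X) (hy : |y| ≤ Y) : |x * y| ≤ X * Y := by
  rw [abs_mul]
  exact mul_le_mul hx hy (abs_nonneg _) ((abs_nonneg _).trans hx)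

theorem dtE_le {n : ℕ} (hn : 1 ≤ n) {c : ℤ × ℤ × ℤ} {q : ℕ × ℕ} (hc : c ∈ dtC) (hq : q ∈ dtU n) :
    |(dtE n c q).Δ| ≤ 1800 * n ^ 6 := by
  rw [mem_dtC] at hc
  obtain ⟨h4, h6⟩ := dtU_le hq
  obtain ⟨a₁, a₂, a₃⟩ := c
  simp only at hc
  set a₄ : ℤ := (q.1 : ℤ) - n ^ 2 with ha₄
  set a₆ : ℤ := (q.2 : ℤ) - n ^ 3 with ha₆
  have hN : (1 : ℤ) ≤ n := by exact_mod_cast hn
  have n2 : (1 : ℤ) ≤ (n : ℤ) ^ 2 := one_le_pow₀ hN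
  have n3 : (n : ℤ) ^ 2 ≤ (n : ℤ) ^ 3 := pow_le_pow_right₀ hN (by norm_num)
  have n4 : (n : ℤ) ^ 3 ≤ (n : ℤ) ^ 4 := pow_le_pow_right₀ hN (by norm_num)
  have n5 : (n : ℤ) ^ 4 ≤ (n : ℤ) ^ 5 := pow_le_pow_right₀ hN (by norm_num)
  have n6 : (n : ℤ) ^ 5 ≤ (n : ℤ) ^ 6 := pow_le_pow_right₀ hN (by norm_num)
  have e1 : |a₁| ≤ 1 := by rcases hc.1 with h | h <;> rw [h] <;> norm_num
  have e3 : |a₃| ≤ 1 := by rcases hc.2.2 with h | h <;> rw [h] <;> norm_num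
  have e2 := hc.2.1
  have b2 : |(dtE n (a₁, a₂, a₃) q).b₂| ≤ 5 := by
    have h1 : (dtE n (a₁, a₂, a₃) q).b₂ = a₁ ^ 2 + 4 * a₂ := rfl
    rw [h1]
    rcases hc.1 with h | h <;> rw [h] <;> rw [abs_le] at e2 ⊢ <;> constructor <;> linarith [e2.1, e2.2]
  have b4 : |(dtE n (a₁, a₂, a₃) q).b₄| ≤ 3 * n ^ 2 := by
    have h1 : (dtE n (a₁, a₂, a₃) q).b₄ = 2 * a₄ + a₁ * a₃ := rfl
    have h2 := abs_le.1 (dt_abs e1 e3)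
    rw [abs_le] at h4
    rw [h1, abs_le]
    constructor <;> linarith [h2.1, h2.2, h4.1, h4.2]
  have b6 : |(dtE n (a₁, a₂, a₃) q).b₆| ≤ 5 * n ^ 3 := by
    have h1 : (dtE n (a₁, a₂, a₃) q).b₆ = a₃ ^ 2 + 4 * a₆ := rfl
    have h2 : |a₃ ^ 2| ≤ 1 := by
      rw [pow_two]
      exact (dt_abs e3 e3).trans (by norm_num)
    have h3 := abs_le.1 h2
    rw [abs_le] at h6
    rw [h1, abs_le]
    constructor <;> linarith [h3.1, h3.2, h6.1, h6.2]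
  have b8 : |(dtE n (a₁, a₂, a₃) q).b₈| ≤ 8 * n ^ 4 := by
    have h1 : (dtE n (a₁, a₂, a₃) q).b₈ = a₁ ^ 2 * a₆ + 4 * a₂ * a₆ - a₁ * a₃ * a₄ + a₂ * a₃ ^ 2 - a₄ ^ 2 := rfl
    have f1 : |a₁ ^ 2 * a₆| ≤ n ^ 3 := by
      rw [pow_two]
      refine (dt_abs (dt_abs e1 e1) h6).trans (le_of_eq (by ring))
    have f2 : |4 * a₂ * a₆| ≤ 4 * n ^ 3 := by
      refine (dt_abs (X := 4) ?_ h6).trans (le_of_eq (by ring))
      rw [abs_le] at e2 ⊢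
      constructor <;> linarith [e2.1, e2.2]
    have f3 : |a₁ * a₃ * a₄| ≤ n ^ 2 := (dt_abs (dt_abs e1 e3) h4).trans (le_of_eq (by ring))
    have f4 : |a₂ * a₃ ^ 2| ≤ 1 := by
      rw [pow_two]
      refine (dt_abs e2 (dt_abs e3 e3)).trans (by norm_num)
    have f5 : |a₄ ^ 2| ≤ n ^ 4 := by
      rw [pow_two]
      exact (dt_abs h4 h4).trans (le_of_eq (by ring))
    rw [h1]
    rw [abs_le] at f1 f2 f3 f4 f5 ⊢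
    constructor <;> linarith [f1.1, f1.2, f2.1, f2.2, f3.1, f3.2, f4.1, f4.2, f5.1, f5.2]
  rw [WeierstrassCurve.Δ]
  have g1 : |(dtE n (a₁, a₂, a₃) q).b₂ ^ 2 * (dtE n (a₁, a₂, a₃) q).b₈| ≤ 200 * n ^ 4 := by
    rw [pow_two]
    exact (dt_abs (dt_abs b2 b2) b8).trans (le_of_eq (by ring))
  have g2 : |(dtE n (a₁, a₂, a₃) q).b₄ ^ 3| ≤ 27 * n ^ 6 := by
    rw [pow_three]
    exact (dt_abs b4 (dt_abs b4 b4)).trans (le_of_eq (by ring))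
  have g3 : |(dtE n (a₁, a₂, a₃) q).b₆ ^ 2| ≤ 25 * n ^ 6 := by
    rw [pow_two]
    exact (dt_abs b6 b6).trans (le_of_eq (by ring))
  have g4 : |(dtE n (a₁, a₂, a₃) q).b₂ * (dtE n (a₁, a₂, a₃) q).b₄ * (dtE n (a₁, a₂, a₃) q).b₆| ≤
      75 * n ^ 5 := (dt_abs (dt_abs b2 b4) b6).trans (le_of_eq (by ring))
  have n1 : (0 : ℤ) ≤ (n : ℤ) ^ 6 := by positivity
  rw [abs_le] at g1 g2 g3 g4 ⊢
  constructor <;> linarith [g1.1, g1.2, g2.1, g2.2, g3.1, g3.2, g4.1, g4.2]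

end PE
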