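import Pool.Agent.Lib.MP_f80667_ag.Kf.Dtb
import Pool.Agent.Lib.MP_f80667_ag.Kf.Dsc

/-! Pairs of equations with bounded exponents. -/

open Finset

namespace PE

/-- The conditions at level `L`: no `p ^ L` divides a discriminant, no `p ^ 2` with `p > L` divides the product of
the discriminants. -/
structure DtG (L : ℕ) (A B : WeierstrassCurve ℤ) : Prop where
  lo : ∀ p : ℕ, p.Prime → ¬ (p : ℤ) ^ L ∣ A.Δ ∧ ¬ (p : ℤ) ^ L ∣ B.Δ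
  hi : ∀ p : ℕ, p.Prime → L < p → ¬ (p : ℤ) ^ 2 ∣ A.Δ * B.Δ

/-- `-1728 Δ` -/
def dtF (n : ℕ) (c : ℤ × ℤ × ℤ) (q : ℕ × ℕ) : ℤ :=
  (dtX n c q.1 + -864 * (q.2 : ℕ)) ^ 2 - (dtY n c + -48 * (q.1 : ℕ)) ^ 3

/-- The bad pairs. -/
def dtA' (L P n : ℕ) (c : ℤ × ℤ × ℤ) : Finset (ℕ × ℕ) :=
  {q ∈ dtU n | ∃ p ∈ dnP 0 L, (p : ℤ) ^ L ∣ dtF n c q} ∪
    {q ∈ dtU n | ∃ p ∈ dnP L P, ((p ^ 2 : ℕ) : ℤ) ∣ dtF n c q}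

/-- The bad pairs. -/
def dtA (L n : ℕ) (c : ℤ × ℤ × ℤ) : Finset (ℕ × ℕ) := dtA' L (43 * n ^ 3) n c

theorem dt_p {p : ℕ} (hp : p.Prime) (h3 : 3 < p) : p ≠ 2 ∧ ¬ (p : ℤ) ∣ -864 ∧ ¬ (p : ℤ) ∣ -48 := by
  refine ⟨by omega, ?_, ?_⟩
  · rw [dvd_neg]
    intro h
    have h1 : p ∣ 2 ^ 5 * 3 ^ 3 := by
      have : p ∣ 864 := by exact_mod_cast h
      norm_num
      exact this
    rcases (Nat.Prime.dvd_mul hp).1 h1 with h2 | h2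
    · have := Nat.le_of_dvd (by norm_num) (hp.dvd_of_dvd_pow h2)
      omega
    · have := Nat.le_of_dvd (by norm_num) (hp.dvd_of_dvd_pow h2)
      omega
  · rw [dvd_neg]
    intro h
    have h1 : p ∣ 2 ^ 4 * 3 := by
      have : p ∣ 48 := by exact_mod_cast h
      norm_num
      exact this
    rcases (Nat.Prime.dvd_mul hp).1 h1 with h2 | h2
    · have := Nat.le_of_dvd (by norm_num) (hp.dvd_of_dvd_pow h2)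
      omega
    · have := Nat.le_of_dvd (by norm_num) h2
      omega

theorem dtA_card {L h : ℕ} (h3 : 3 ≤ L) (hL : 2 * h ≤ L + 1) (n : ℕ) (c : ℤ × ℤ × ℤ) :
    (#(dtA L n c) : ℝ) ≤ ((L * ((2 * n ^ 2 + 1) * (2 * ((2 * n ^ 3 + 1) / 2 ^ (h - 5) + 1))) : ℕ) : ℝ) +
      (3 * (((2 * n ^ 2 + 1 : ℕ) : ℝ) * ((2 * n ^ 3 + 1 : ℕ) : ℝ)) / L +
        2 * ((2 * n ^ 2 + 1 : ℕ) : ℝ) * Nat.primeCounting (43 * n ^ 3) +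
        (((2 * n ^ 2 + 1 : ℕ) : ℝ) + ((2 * n ^ 3 + 1 : ℕ) : ℝ)) * (1 + Real.log ((43 * n ^ 3 : ℕ) : ℝ)) +
          ((43 * n ^ 3 : ℕ) : ℝ)) := by
  have h1 := dt_small (x₀ := dtX n c) (D := fun s => (dtY n c + -48 * (s : ℕ)) ^ 3) hL L (2 * n ^ 2 + 1)
    (2 * n ^ 3 + 1)
  have h2 := dt_bad (x₀ := dtX n c) (x₁ := -864) (e := dtY n c) (d₁ := -48) (K := L) (by omega)
    (fun p hp hpL => dt_p hp (by omega)) (2 * n ^ 2 + 1) (2 * n ^ 3 + 1) (43 * n ^ 3)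
  rw [dtA]
  generalize 43 * n ^ 3 = P at h2 ⊢
  have h4 : (#(dtA' L P n c) : ℝ) ≤ (#{q ∈ dtU n | ∃ p ∈ dnP 0 L, (p : ℤ) ^ L ∣ dtF n c q} : ℝ) +
      (#{q ∈ dtU n | ∃ p ∈ dnP L P, ((p ^ 2 : ℕ) : ℤ) ∣ dtF n c q} : ℝ) := by
    exact_mod_cast card_union_le _ _
  have h5 : (#{q ∈ dtU n | ∃ p ∈ dnP 0 L, (p : ℤ) ^ L ∣ dtF n c q} : ℝ) ≤
      ((L * ((2 * n ^ 2 + 1) * (2 * ((2 * n ^ 3 + 1) / 2 ^ (h - 5) + 1))) : ℕ) : ℝ) := by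
    exact_mod_cast h1
  exact h4.trans (add_le_add h5 h2)

theorem dtF_eq (n : ℕ) (c : ℤ × ℤ × ℤ) (q : ℕ × ℕ) : dtF n c q = -1728 * (dtE n c q).Δ := (dtE_sq n c q).symm

theorem dtA_not {L n : ℕ} (h3 : 3 ≤ L) (hn : 1 ≤ n) {c : ℤ × ℤ × ℤ} {q : ℕ × ℕ} (hc : c ∈ dtC)
    (hq : q ∈ dtU n) (h : q ∉ dtA L n c) : (∀ p : ℕ, p.Prime → ¬ (p : ℤ) ^ L ∣ (dtE n c q).Δ) ∧
      (∀ p : ℕ, p.Prime → L < p → ¬ (p : ℤ) ^ 2 ∣ (dtE n c q).Δ) ∧ (dtE n c q).Δ ≠ 0 := by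
  rw [dtA, dtA', mem_union, mem_filter, mem_filter, not_or, not_and, not_and] at h
  have h1 := h.1 hq
  have h2 := h.2 hq
  rw [dtF_eq] at h1 h2
  have h0 : (dtE n c q).Δ ≠ 0 := by
    intro h0
    refine h1 ⟨2, mem_dnP.2 ⟨⟨by norm_num, by omega⟩, Nat.prime_two⟩, ?_⟩
    rw [h0]
    simp
  have h4 : ∀ p : ℕ, p.Prime → L < p → ¬ (p : ℤ) ^ 2 ∣ (dtE n c q).Δ := by
    intro p hp hpL hd
    refine h2 ⟨p, mem_dnP.2 ⟨⟨hpL, ?_⟩, hp⟩, ?_⟩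
    · have h5 := Int.le_of_dvd (abs_pos.2 h0) ((dvd_abs _ _).2 hd)
      have h6 := h5.trans (dtE_le hn hc hq)
      have h7 : p ^ 2 ≤ 1800 * n ^ 6 := by exact_mod_cast h6
      have h8 : p ^ 2 ≤ (43 * n ^ 3) ^ 2 := by
        refine h7.trans ?_
        have : (43 * n ^ 3) ^ 2 = 1849 * n ^ 6 := by ring
        rw [this]
        exact Nat.mul_le_mul_right _ (by norm_num)
      exact (Nat.pow_le_pow_iff_left two_ne_zero).1 h8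
    · push_cast
      exact hd.mul_left _
  refine ⟨fun p hp hd => ?_, h4, h0⟩
  rcases le_or_gt p L with h5 | h5
  · exact h1 ⟨p, mem_dnP.2 ⟨⟨hp.pos, h5⟩, hp⟩, hd.mul_left _⟩
  · exact h4 p hp h5 ((pow_dvd_pow _ (by omega)).trans hd)

theorem dt_hi {p : ℕ} (hp : p.Prime) {u v : ℤ} (h1 : ¬ (p : ℤ) ^ 2 ∣ u) (h2 : ¬ (p : ℤ) ^ 2 ∣ v)
    (h3 : (p : ℤ) ∣ u → ¬ (p : ℤ) ∣ v) : ¬ (p : ℤ) ^ 2 ∣ u * v := by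
  intro h
  have hP := Nat.prime_iff_prime_int.1 hp
  by_cases h4 : (p : ℤ) ∣ u
  · exact h1 (hP.pow_dvd_of_dvd_mul_right 2 (h3 h4) h)
  · exact h2 (hP.pow_dvd_of_dvd_mul_left 2 h4 h)

theorem dt_pair {L n : ℕ} (h3 : 3 ≤ L) (hn : 1 ≤ n) {c c' : ℤ × ℤ × ℤ} (hc : c ∈ dtC) (hc' : c' ∈ dtC)
    {w : (ℕ × ℕ) × (ℕ × ℕ)} (hw : w ∈ dtU n ×ˢ dtU n) (h1 : w.1 ∉ dtA L n c) (h2 : w.2 ∉ dtA L n c')
    (h : ∀ p : ℕ, p.Prime → L < p → (p : ℤ) ∣ dtF n c w.1 → ¬ (p : ℤ) ∣ dtF n c' w.2) :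
    DtG L (dtE n c w.1) (dtE n c' w.2) := by
  rw [mem_product] at hw
  obtain ⟨a1, a2, a3⟩ := dtA_not h3 hn hc hw.1 h1
  obtain ⟨b1, b2, b3⟩ := dtA_not h3 hn hc' hw.2 h2
  refine ⟨fun p hp => ⟨a1 p hp, b1 p hp⟩, fun p hp hpL => dt_hi hp (a2 p hp hpL) (b2 p hp hpL) fun d1 d2 => ?_⟩
  refine h p hp hpL ?_ ?_
  · rw [dtF_eq]
    exact d1.mul_left _
  · rw [dtF_eq]
    exact d2.mul_left _

open Classical in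
theorem dt_count {L h n : ℕ} (h3 : 3 ≤ L) (hL : 2 * h ≤ L + 1) (hn : 8 ≤ n) {c c' : ℤ × ℤ × ℤ}
    (hc : c ∈ dtC) (hc' : c' ∈ dtC) {E : ℝ}
    (hE : ((L * ((2 * n ^ 2 + 1) * (2 * ((2 * n ^ 3 + 1) / 2 ^ (h - 5) + 1))) : ℕ) : ℝ) +
      (3 * (((2 * n ^ 2 + 1 : ℕ) : ℝ) * ((2 * n ^ 3 + 1 : ℕ) : ℝ)) / L +
        2 * ((2 * n ^ 2 + 1 : ℕ) : ℝ) * Nat.primeCounting (43 * n ^ 3) +
        (((2 * n ^ 2 + 1 : ℕ) : ℝ) + ((2 * n ^ 3 + 1 : ℕ) : ℝ)) * (1 + Real.log ((43 * n ^ 3 : ℕ) : ℝ)) +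
          ((43 * n ^ 3 : ℕ) : ℝ)) ≤ E) :
    (((2 * n ^ 2 + 1 : ℕ) : ℝ) * ((2 * n ^ 3 + 1 : ℕ) : ℝ)) ^ 2 -
      2 * (((2 * n ^ 2 + 1 : ℕ) : ℝ) * ((2 * n ^ 3 + 1 : ℕ) : ℝ)) * E -
      16 * (((2 * n ^ 2 + 1 : ℕ) : ℝ) * ((2 * n ^ 3 + 1 : ℕ) : ℝ)) ^ 2 / L -
      6 * ((2 * n ^ 2 + 1 : ℕ) : ℝ) ^ 2 * ((2 * n ^ 3 + 1 : ℕ) : ℝ) ≤
    (#{w ∈ dtU n ×ˢ dtU n | DtG L (dtE n c w.1) (dtE n c' w.2)} : ℝ) := by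
  have hn1 : 1 ≤ n := by omega
  have hfam : ∀ c : ℤ × ℤ × ℤ, ∀ p : ℕ, p.Prime → L < p →
      #{q ∈ dtU n | (p : ℤ) ∣ dtF n c q} ≤ (2 * n ^ 2 + 1) * (2 * ((2 * n ^ 3 + 1) / p + 1)) := by
    intro c p hp hpL
    exact dn_fam₁ hp (x₀ := dtX n c) (x₁ := -864) (D := fun s => (dtY n c + -48 * (s : ℕ)) ^ 3)
      (dt_p hp (by omega)).2.1 _ _
  have hF : ∀ q ∈ dtU n, (dtF n c q).natAbs < (2 * n ^ 3 + 1) ^ 4 := by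
    intro q hq
    have h1 := dtE_le hn1 hc hq
    have h2 : |dtF n c q| ≤ 1728 * (1800 * n ^ 6) := by
      rw [dtF_eq]
      exact dt_abs (by norm_num) h1
    have h4 : (dtF n c q).natAbs ≤ 1728 * (1800 * n ^ 6) := by
      have : (((dtF n c q).natAbs : ℕ) : ℤ) ≤ ((1728 * (1800 * n ^ 6) : ℕ) : ℤ) := by
        rw [Int.natCast_natAbs]
        push_cast
        exact h2
      exact_mod_cast this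
    refine lt_of_le_of_lt h4 ?_
    have h5 : 8 ^ 6 ≤ n ^ 6 := Nat.pow_le_pow_left hn 6
    calc 1728 * (1800 * n ^ 6) < 16 * (8 ^ 6 * n ^ 6) := by
          have : 0 < n ^ 6 := by positivity
          omega
      _ ≤ 16 * (n ^ 6 * n ^ 6) := by gcongr
      _ = (2 * n ^ 3) ^ 4 := by ring
      _ ≤ (2 * n ^ 3 + 1) ^ 4 := Nat.pow_le_pow_left (by omega) 4
  have hAne : ∀ q ∈ dtU n, q ∉ dtA L n c → dtF n c q ≠ 0 := by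
    intro q hq h1 h2
    rw [dtF_eq] at h2
    rcases mul_eq_zero.1 h2 with h4 | h4
    · norm_num at h4
    · exact (dtA_not h3 hn1 hc hq h1).2.2 h4
  have key := dn_good (K := L) (by omega) (dtU_card n) (hfam c) (hfam c') hAne hF
    ((dtA_card h3 hL n c).trans hE) ((dtA_card h3 hL n c').trans hE)
  refine key.trans ?_
  have h6 : #{w ∈ dtU n ×ˢ dtU n | w.1 ∉ dtA L n c ∧ w.2 ∉ dtA L n c' ∧
      ∀ p : ℕ, p.Prime → L < p → (p : ℤ) ∣ dtF n c w.1 → ¬ (p : ℤ) ∣ dtF n c' w.2} ≤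
      #{w ∈ dtU n ×ˢ dtU n | DtG L (dtE n c w.1) (dtE n c' w.2)} := by
    refine card_le_card fun w hw => ?_
    rw [mem_filter] at hw ⊢
    exact ⟨hw.1, dt_pair h3 hn1 hc hc' hw.1 hw.2.1 hw.2.2.1 hw.2.2.2⟩
  exact_mod_cast h6

end PE
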