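import Pool.Agent.Lib.MP_f80667_ag.Kf.Dtc

/-! Almost all pairs of equations have bounded exponents. -/

open Finset Filter

namespace PE

theorem dt_fin {S T ε π l P m X : ℝ} (hS : 1 ≤ S) (hST : S ≤ T) (hε : 0 < ε) (hm : 0 < m)
    (h1 : 11 / m ≤ ε / 4) (hX : X ≤ S * T * (ε / 8) + 4 * m * S)
    (h2 : 8 * m ≤ ε / 20 * T) (h3 : π ≤ ε / 80 * T) (h4 : l ≤ ε / 80 * S) (h4' : 0 ≤ l)
    (h5 : P ≤ ε / 40 * (S * T)) (h6 : 6 ≤ ε / 20 * T) :
    2 * (X + (3 * (S * T) / (2 * m) + 2 * S * π + (S + T) * l + P)) + 16 * (S * T) / (2 * m) + 6 * S ≤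
      ε * (S * T) := by
  have hS0 : 0 ≤ S := by linarith
  have hT0 : 0 ≤ T := by linarith
  have hST0 : 0 ≤ S * T := mul_nonneg hS0 hT0
  have e1 : 2 * (3 * (S * T) / (2 * m)) + 16 * (S * T) / (2 * m) = S * T * (11 / m) := by
    field_simp
    ring
  have e2 : S * T * (11 / m) ≤ S * T * (ε / 4) := mul_le_mul_of_nonneg_left h1 hST0
  have e3 : 8 * m * S ≤ ε / 20 * (S * T) := by
    have := mul_le_mul_of_nonneg_right h2 hS0
    linarith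
  have e4 : 4 * (S * π) ≤ ε / 20 * (S * T) := by
    have := mul_le_mul_of_nonneg_left h3 hS0
    linarith
  have e5 : 2 * ((S + T) * l) ≤ ε / 20 * (S * T) := by
    have h7 : (S + T) * l ≤ (2 * T) * l := mul_le_mul_of_nonneg_right (by linarith) h4'
    have h8 : (2 * T) * l ≤ (2 * T) * (ε / 80 * S) := mul_le_mul_of_nonneg_left h4 (by linarith)
    linarith
  have e6 : 6 * S ≤ ε / 20 * (S * T) := by
    have := mul_le_mul_of_nonneg_right h6 hS0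
    linarith
  have e7 : 0 ≤ ε * (S * T) := mul_nonneg hε.le hST0
  have e8 : 2 * (X + (3 * (S * T) / (2 * m) + 2 * S * π + (S + T) * l + P)) + 16 * (S * T) / (2 * m) + 6 * S =
      2 * X + (2 * (3 * (S * T) / (2 * m)) + 16 * (S * T) / (2 * m)) + 4 * (S * π) + 2 * ((S + T) * l) + 2 * P +
        6 * S := by ring
  rw [e8, e1]
  linarith

theorem dt_m {ε : ℝ} (hε : 0 < ε) (N : ℕ) : ∃ m : ℕ, N ≤ m ∧ 5 ≤ m ∧ 11 / (m : ℝ) ≤ ε / 4 ∧
    256 * (m : ℝ) / 2 ^ m ≤ ε / 4 := by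
  have h1 : Tendsto (fun m : ℕ => 11 / (m : ℝ)) atTop (nhds 0) := tendsto_const_div_atTop_nhds_zero_nat 11
  have h2 : Tendsto (fun m : ℕ => (m : ℝ) ^ 1 / 2 ^ m) atTop (nhds 0) :=
    tendsto_pow_const_div_const_pow_of_one_lt 1 (by norm_num)
  have h3 : Tendsto (fun m : ℕ => 256 * ((m : ℝ) ^ 1 / 2 ^ m)) atTop (nhds (256 * 0)) := h2.const_mul 256
  rw [mul_zero] at h3
  have h4 := h1.eventually (gt_mem_nhds (by positivity : (0 : ℝ) < ε / 4))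
  have h5 := h3.eventually (gt_mem_nhds (by positivity : (0 : ℝ) < ε / 4))
  obtain ⟨m, a1, a2, a3, a4⟩ := (h4.and (h5.and ((eventually_ge_atTop N).and (eventually_ge_atTop 5)))).exists
  refine ⟨m, a3, a4, a1.le, ?_⟩
  rw [pow_one, ← mul_div_assoc] at a2
  exact a2.le

theorem dt_asym {ε : ℝ} (hε : 0 < ε) (m : ℕ) (h1 : 11 / (m : ℝ) ≤ ε / 4) (h5 : 5 ≤ m)
    (h2 : 256 * (m : ℝ) / 2 ^ m ≤ ε / 4) :
    ∃ n₀ : ℕ, ∀ n ≥ n₀, 8 ≤ n ∧
      2 * (((2 * m * ((2 * n ^ 2 + 1) * (2 * ((2 * n ^ 3 + 1) / 2 ^ (m - 5) + 1))) : ℕ) : ℝ) +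
        (3 * (((2 * n ^ 2 + 1 : ℕ) : ℝ) * ((2 * n ^ 3 + 1 : ℕ) : ℝ)) / ((2 * m : ℕ) : ℝ) +
        2 * ((2 * n ^ 2 + 1 : ℕ) : ℝ) * Nat.primeCounting (43 * n ^ 3) +
        (((2 * n ^ 2 + 1 : ℕ) : ℝ) + ((2 * n ^ 3 + 1 : ℕ) : ℝ)) * (1 + Real.log ((43 * n ^ 3 : ℕ) : ℝ)) +
          ((43 * n ^ 3 : ℕ) : ℝ))) +
        16 * (((2 * n ^ 2 + 1 : ℕ) : ℝ) * ((2 * n ^ 3 + 1 : ℕ) : ℝ)) / ((2 * m : ℕ) : ℝ) +
          6 * ((2 * n ^ 2 + 1 : ℕ) : ℝ) ≤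
        ε * (((2 * n ^ 2 + 1 : ℕ) : ℝ) * ((2 * n ^ 3 + 1 : ℕ) : ℝ)) := by
  have hm0 : (0 : ℝ) < m := by
    have : 0 < m := by omega
    exact_mod_cast this
  have l1 : Tendsto (fun n : ℕ => ((43 * n ^ 3 : ℕ) : ℝ)) atTop atTop := by
    refine tendsto_natCast_atTop_atTop.comp (tendsto_atTop_mono (f := fun n : ℕ => n) (fun n => ?_) tendsto_id)
    rcases Nat.eq_zero_or_pos n with rfl | h
    · simp
    · calc n ≤ n ^ 3 := Nat.le_self_pow (by norm_num) n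
        _ ≤ 43 * n ^ 3 := by omega
  have l2 : ∀ᶠ n : ℕ in atTop, (Nat.primeCounting (43 * n ^ 3) : ℝ) ≤ ε / 80 * ((n : ℝ) ^ 3) := by
    have h1 := l1.eventually (Chebyshev.eventually_primeCounting_le one_pos)
    have h2 := (Real.tendsto_log_atTop.comp l1).eventually
      (eventually_ge_atTop ((Real.log 4 + 1) * (43 * (80 / ε))))
    filter_upwards [h1, h2, eventually_ge_atTop 1] with n h3 h4 h5
    rw [Nat.floor_natCast] at h3
    simp only [Function.comp_apply] at h4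
    refine h3.trans ?_
    have h6 : (0 : ℝ) < Real.log 4 + 1 := by
      have := Real.log_pos (by norm_num : (1 : ℝ) < 4)
      linarith
    have h7 : (0 : ℝ) < Real.log ((43 * n ^ 3 : ℕ) : ℝ) := lt_of_lt_of_le (by positivity) h4
    rw [div_le_iff₀ h7]
    have h8 : (0 : ℝ) ≤ ε / 80 * ((n : ℝ) ^ 3) := by positivity
    refine le_trans (le_of_eq ?_) (mul_le_mul_of_nonneg_left h4 h8)
    push_cast
    field_simp
  have l3 : ∀ᶠ n : ℕ in atTop, Real.log (n : ℝ) ≤ ε / 480 * (n : ℝ) := by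
    have h2 := tendsto_natCast_atTop_atTop.eventually
      (Real.isLittleO_log_id_atTop.bound (by positivity : (0 : ℝ) < ε / 480))
    filter_upwards [h2] with n h3
    have h6 := (le_abs_self _).trans h3
    simpa only [id, Real.norm_eq_abs, Nat.abs_cast] using h6
  have l4 : ∀ C : ℝ, ∀ᶠ n : ℕ in atTop, C ≤ (n : ℝ) := fun C =>
    tendsto_natCast_atTop_atTop.eventually (eventually_ge_atTop C)
  obtain ⟨n₀, hn₀⟩ := (l2.and (l3.and ((l4 ((1 + Real.log 43) * (160 / ε))).and ((l4 (1720 / ε)).and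
    ((l4 (160 * m / ε)).and ((l4 (120 / ε)).and (eventually_ge_atTop 8))))))).exists_forall_of_atTop
  refine ⟨n₀, fun n hn => ?_⟩
  obtain ⟨m2, m3, m4, m5, m6, m7, m8⟩ := hn₀ n hn
  refine ⟨m8, ?_⟩
  have hn1 : (1 : ℝ) ≤ n := by
    have : 1 ≤ n := by omega
    exact_mod_cast this
  have hS : ((2 * n ^ 2 + 1 : ℕ) : ℝ) = 2 * (n : ℝ) ^ 2 + 1 := by push_cast; ring
  have hT : ((2 * n ^ 3 + 1 : ℕ) : ℝ) = 2 * (n : ℝ) ^ 3 + 1 := by push_cast; ring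
  have hP : ((43 * n ^ 3 : ℕ) : ℝ) = 43 * (n : ℝ) ^ 3 := by push_cast; ring
  have hM : ((2 * m : ℕ) : ℝ) = 2 * (m : ℝ) := by push_cast; ring
  have n2 : (n : ℝ) ≤ (n : ℝ) ^ 2 := le_self_pow₀ hn1 (by norm_num)
  have n3 : (n : ℝ) ^ 2 ≤ (n : ℝ) ^ 3 := pow_le_pow_right₀ hn1 (by norm_num)
  have hn0 : (0 : ℝ) < n := by linarith
  rw [hM]
  refine dt_fin ?_ ?_ hε hm0 h1 ?_ ?_ ?_ ?_ ?_ ?_ ?_
  · rw [hS]
    have : (0 : ℝ) ≤ (n : ℝ) ^ 2 := by positivity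
    linarith
  · rw [hS, hT]
    linarith
  · have h6 := dn_div (2 * n ^ 3 + 1) (2 ^ (m - 5))
    have h7 : ((2 ^ (m - 5) : ℕ) : ℝ) = 2 ^ m / 32 := by
      have h8 : (2 : ℝ) ^ m = 2 ^ (m - 5) * 2 ^ 5 := by
        rw [← pow_add]
        congr 1
        omega
      rw [h8]
      push_cast
      norm_num
    rw [h7] at h6
    have h8 : ((2 * m * ((2 * n ^ 2 + 1) * (2 * ((2 * n ^ 3 + 1) / 2 ^ (m - 5) + 1))) : ℕ) : ℝ) =
        2 * m * (((2 * n ^ 2 + 1 : ℕ) : ℝ) * (2 * ((((2 * n ^ 3 + 1) / 2 ^ (m - 5) : ℕ) : ℝ) + 1))) := by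
      push_cast
      ring
    rw [h8]
    set S : ℝ := ((2 * n ^ 2 + 1 : ℕ) : ℝ) with hS'
    set T : ℝ := ((2 * n ^ 3 + 1 : ℕ) : ℝ) with hT'
    have hS0 : 0 ≤ S := by rw [hS]; positivity
    have hT0 : 0 ≤ T := by rw [hT]; positivity
    have h9 : 4 * m * S * (((2 * n ^ 3 + 1) / 2 ^ (m - 5) : ℕ) : ℝ) ≤ 4 * m * S * (T / (2 ^ m / 32)) :=
      mul_le_mul_of_nonneg_left h6 (by positivity)
    have h10 : 4 * m * S * (T / (2 ^ m / 32)) = S * T * (1 / 2 * (256 * (m : ℝ) / 2 ^ m)) := by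
      field_simp
      ring
    have h11 : S * T * (1 / 2 * (256 * (m : ℝ) / 2 ^ m)) ≤ S * T * (1 / 2 * (ε / 4)) :=
      mul_le_mul_of_nonneg_left (by linarith) (by positivity)
    have h12 : 2 * m * (S * (2 * ((((2 * n ^ 3 + 1) / 2 ^ (m - 5) : ℕ) : ℝ) + 1))) =
        4 * m * S * (((2 * n ^ 3 + 1) / 2 ^ (m - 5) : ℕ) : ℝ) + 4 * m * S := by ring
    rw [h12]
    linarith
  · rw [hT]
    rw [div_le_iff₀ hε] at m6
    nlinarith
  · rw [hT]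
    refine m2.trans (mul_le_mul_of_nonneg_left ?_ (by positivity))
    have : (0 : ℝ) ≤ (n : ℝ) ^ 3 := by positivity
    linarith
  · rw [hP, hS]
    have h6 : Real.log (43 * (n : ℝ) ^ 3) = Real.log 43 + 3 * Real.log n := by
      rw [Real.log_mul (by norm_num) (by positivity), Real.log_pow]
      push_cast
      ring
    rw [h6]
    have h7 : 1 + Real.log 43 ≤ ε / 160 * n := by
      have h8 := mul_le_mul_of_nonneg_left m4 (by positivity : (0 : ℝ) ≤ ε / 160)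
      have h9 : ε / 160 * ((1 + Real.log 43) * (160 / ε)) = 1 + Real.log 43 := by
        field_simp
      linarith
    have h8 : ε / 80 * (n : ℝ) ≤ ε / 80 * (2 * (n : ℝ) ^ 2 + 1) :=
      mul_le_mul_of_nonneg_left (by nlinarith) (by positivity)
    linarith
  · have h6 : (0 : ℝ) ≤ Real.log ((43 * n ^ 3 : ℕ) : ℝ) := Real.log_natCast_nonneg _
    linarith
  · rw [hP, hS, hT]
    rw [div_le_iff₀ hε] at m5
    have h6 : (0 : ℝ) ≤ (n : ℝ) ^ 3 := by positivity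
    have h7 : 43 * (n : ℝ) ^ 3 ≤ ε / 40 * (n * n ^ 3) := by
      have h8 := mul_le_mul_of_nonneg_right m5 h6
      linarith
    refine h7.trans (mul_le_mul_of_nonneg_left ?_ (by positivity))
    nlinarith
  · rw [hT]
    rw [div_le_iff₀ hε] at m7
    nlinarith

end PE
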