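import Pool.Agent.Lib.MP_f80667_ag.Kf.Dtd

/-! For all `ε > 0` the proportion of the pairs with exponents less than `L(ε)` is at least `1 - ε`. -/

open Finset Filter

namespace PE

theorem dt_end {ε e x f S T : ℝ} (he : 0 ≤ e) (h1 : e ≤ 12 * (S * T)) (h2 : 144 * ((1 - ε) * (S * T) ^ 2) ≤ f)
    (h3 : f ≤ x) (hx : 0 ≤ x) : (1 - ε) * e ^ 2 ≤ x := by
  rcases le_or_gt ε 1 with h4 | h4
  · have h5 : e ^ 2 ≤ (12 * (S * T)) ^ 2 := pow_le_pow_left₀ he h1 2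
    have h6 : (1 - ε) * e ^ 2 ≤ (1 - ε) * (12 * (S * T)) ^ 2 :=
      mul_le_mul_of_nonneg_left h5 (by linarith)
    have h7 : (1 - ε) * (12 * (S * T)) ^ 2 = 144 * ((1 - ε) * (S * T) ^ 2) := by ring
    linarith
  · have h5 : (1 - ε) * e ^ 2 ≤ 0 := by
      have : (0 : ℝ) ≤ e ^ 2 := by positivity
      nlinarith
    exact h5.trans hx

open Classical in
/-- For every `ε > 0` there is `L` such that at least `(1 - ε) |Eqs n|²` of the pairs satisfy `DtG L`, for all large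
`n`. -/
theorem dtG_dens {ε : ℝ} (hε : 0 < ε) (N : ℕ) : ∃ L : ℕ, N ≤ L ∧ ∃ n₀ : ℕ, ∀ n ≥ n₀,
    (1 - ε) * ((Eqs n).ncard : ℝ) ^ 2 ≤
      ({w : WeierstrassCurve ℤ × WeierstrassCurve ℤ | w.1 ∈ Eqs n ∧ w.2 ∈ Eqs n ∧ DtG L w.1 w.2}.ncard : ℝ) := by
  obtain ⟨m, hmN, hm5, h1, h2⟩ := dt_m hε N
  obtain ⟨n₀, hn₀⟩ := dt_asym hε m h1 hm5 h2
  refine ⟨2 * m, by omega, n₀, fun n hn => ?_⟩
  obtain ⟨hn8, hmain⟩ := hn₀ n hn
  set S : ℝ := ((2 * n ^ 2 + 1 : ℕ) : ℝ) with hS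
  set T : ℝ := ((2 * n ^ 3 + 1 : ℕ) : ℝ) with hT
  have hS0 : 0 ≤ S := by positivity
  have hT0 : 0 ≤ T := by positivity
  have hcE : ((Eqs n).ncard : ℝ) ≤ 12 * (S * T) := by
    have := eqs_card_le n
    have h3 : ((Eqs n).ncard : ℝ) ≤ ((12 * ((2 * n ^ 2 + 1) * (2 * n ^ 3 + 1)) : ℕ) : ℝ) := by exact_mod_cast this
    refine h3.trans (le_of_eq ?_)
    rw [hS, hT]
    push_cast
    ring
  -- the classes
  have hcl : ∀ c ∈ dtC, ∀ c' ∈ dtC, (1 - ε) * (S * T) ^ 2 ≤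
      (#{w ∈ dtU n ×ˢ dtU n | DtG (2 * m) (dtE n c w.1) (dtE n c' w.2)} : ℝ) := by
    intro c hc c' hc'
    refine le_trans ?_ (dt_count (h := m) (by omega) (by omega) hn8 hc hc' (le_refl _))
    rw [← hS, ← hT]
    have h3 := mul_le_mul_of_nonneg_left hmain (mul_nonneg hS0 hT0)
    have h4 : S * T * (ε * (S * T)) = ε * (S * T) ^ 2 := by ring
    rw [h4] at h3
    have h5 : (1 - ε) * (S * T) ^ 2 = (S * T) ^ 2 - ε * (S * T) ^ 2 := by ring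
    rw [h5]
    refine (sub_le_sub_left h3 _).trans (le_of_eq ?_)
    ring
  set F : Finset (((ℤ × ℤ × ℤ) × (ℤ × ℤ × ℤ)) × ((ℕ × ℕ) × (ℕ × ℕ))) :=
    {w ∈ (dtC ×ˢ dtC) ×ˢ (dtU n ×ˢ dtU n) | DtG (2 * m) (dtE n w.1.1 w.2.1) (dtE n w.1.2 w.2.2)} with hF
  have hFc : #F = ∑ c ∈ dtC ×ˢ dtC,
      #{w ∈ dtU n ×ˢ dtU n | DtG (2 * m) (dtE n c.1 w.1) (dtE n c.2 w.2)} := by
    rw [hF, card_filter, sum_product]
    refine sum_congr rfl fun c _ => ?_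
    rw [card_filter]
  have hF1 : 144 * ((1 - ε) * (S * T) ^ 2) ≤ (#F : ℝ) := by
    rw [hFc]
    push_cast
    have h3 : ∀ c ∈ dtC ×ˢ dtC, (1 - ε) * (S * T) ^ 2 ≤
        (#{w ∈ dtU n ×ˢ dtU n | DtG (2 * m) (dtE n c.1 w.1) (dtE n c.2 w.2)} : ℝ) := fun c hc =>
      hcl c.1 (mem_product.1 hc).1 c.2 (mem_product.1 hc).2
    refine le_trans ?_ (sum_le_sum h3)
    rw [sum_const, card_product, dtC_card, nsmul_eq_mul]
    norm_num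
  set X : Set (WeierstrassCurve ℤ × WeierstrassCurve ℤ) :=
    {w | w.1 ∈ Eqs n ∧ w.2 ∈ Eqs n ∧ DtG (2 * m) w.1 w.2} with hX
  have hXf : X.Finite := ((eqs_fin n).prod (eqs_fin n)).subset fun w hw => ⟨hw.1, hw.2.1⟩
  set φ : ((ℤ × ℤ × ℤ) × (ℤ × ℤ × ℤ)) × ((ℕ × ℕ) × (ℕ × ℕ)) → WeierstrassCurve ℤ × WeierstrassCurve ℤ :=
    fun w => (dtE n w.1.1 w.2.1, dtE n w.1.2 w.2.2) with hφ
  have hinj : Function.Injective φ := by
    rintro ⟨⟨c, d⟩, ⟨q, r⟩⟩ ⟨⟨c', d'⟩, ⟨q', r'⟩⟩ h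
    simp only [hφ, Prod.mk.injEq] at h
    obtain ⟨a1, a2⟩ := dtE_inj h.1
    obtain ⟨b1, b2⟩ := dtE_inj h.2
    rw [a1, a2, b1, b2]
  have himg : φ '' (F : Set _) ⊆ X := by
    rintro _ ⟨w, hw, rfl⟩
    rw [mem_coe, hF, mem_filter, mem_product, mem_product, mem_product] at hw
    exact ⟨dtE_mem hw.1.1.1 hw.1.2.1, dtE_mem hw.1.1.2 hw.1.2.2, hw.2⟩
  have hcard : #F ≤ X.ncard := by
    have h3 := Set.ncard_le_ncard himg hXf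
    rwa [Set.ncard_image_of_injective _ hinj, Set.ncard_coe_finset] at h3
  have hcard' : (#F : ℝ) ≤ X.ncard := by exact_mod_cast hcard
  exact dt_end (Nat.cast_nonneg _) hcE hF1 hcard' (Nat.cast_nonneg _)

end PE
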