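import Pool.Agent.Lib.MP_f80667_ag.Kf.A2

/-!
The points over `K` in the region `|x - a|² < |2|`, `1 < |y| < 1 / |4|`. Let `x' = x - a`.

`K` is unramified with residue field of two elements, so `|y| = 1 / |2|`, `y = η / 2` with `η` a unit, `|x'| ≤ |2|`, and `|x'| ≤ |4|` because `f(x) g(y)` is a square. Let `τ² (1 + 4 x' / u) = 1`,
`λ = w τ / (u (x'² - 4 q))`, so `λ² u (x'² - 4 q) = g(y)`, and, with `Y = 2 X / η`,
`α₁ = λ (x' Y + 2 q η (Y - 1))`, `α₂ = λ (Y + (x' η / 2) (Y - 1))`. Then `α₁² - 4 q α₂² = λ² (x'² - 4 q) (Y² - η² q (Y - 1)²)`, and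
`F₁ = u α₂ (α₁² - 4 q α₂²) - τ² (α₂ + 4 α₁ / u) g = (X - y) G`, where `G` is a cubic polynomial, `G / λ` has a leading coefficient of norm `|8|`, and the other coefficients have norm `≤ |8|`: so its roots are integral.
-/

open ZC BE Polynomial IntermediateField

namespace PE

variable {F : Type} [Field F] {f g : F[X]} {K : Type} [Field K] [CharZero K]
  [Algebra F K] {Ω : Type} [Field Ω] [Algebra K Ω] [Algebra F Ω] [IsScalarTower F K Ω]
  [IsAlgClosure K Ω] [C3 f] [C3 g] {L : Ld K Ω} {a u q c₂ c₄ b : K}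

/-- The data. `x = a + x'`, `y = η / 2`. -/
theorem N2.e_dat [L.Unr] (h : N2 L f g a u q c₂ c₄ b) {x y w : K}
    (hs : Sp f g (algebraMap K Ω x) (algebraMap K Ω y) (algebraMap K Ω w))
    (hx : L.nm (algebraMap K Ω x - algebraMap K Ω a) ^ 2 < L.nm 2)
    (hy : 1 < L.nm (algebraMap K Ω y)) (hy4 : L.nm 4 * L.nm (algebraMap K Ω y) < 1) :
    ∃ x' η τ lam : K, x = a + x' ∧ y = η / 2 ∧ L.nm (algebraMap K Ω η) = 1 ∧
      L.nm (algebraMap K Ω x') ≤ L.nm 4 ∧ L.nm (algebraMap K Ω τ - 1) < 1 ∧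
      τ ^ 2 * (1 + 4 * x' / u) = 1 ∧ lam ≠ 0 ∧
      lam ^ 2 * (u * (x' ^ 2 - 4 * q)) = 4 * y ^ 3 + 4 * c₂ * y ^ 2 + 4 * c₄ * y + b := by
  have hp : L.nm (L.p : Ω) = L.nm 2 := by rw [h.p2, Nat.cast_ofNat]
  obtain ⟨t, ht⟩ : ∃ t, t = L.nm 2 := ⟨_, rfl⟩
  have ht1 : t < 1 := by
    rw [ht, ← hp]
    exact L.lt
  have ht0 : 0 < t := by
    rw [ht, ← hp]
    exact L.p_pos
  have htne : t ≠ 0 := ht0.ne'
  have h4 : L.nm 4 = t ^ 2 := by rw [show (4 : Ω) = 2 ^ 2 by norm_num, L.pow, ht]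
  have hlt : ∀ m n : ℤ, t ^ m < t ^ n ↔ n < m := fun m n =>
    zpow_lt_zpow_iff_right_of_lt_one₀ ht0 ht1
  have hU : ∀ z : K, z ≠ 0 → ∃ n : ℤ, L.nm (algebraMap K Ω z) = t ^ n := by
    intro z hz
    obtain ⟨n, hn⟩ := L.unr z hz
    exact ⟨n, by rw [hn, hp, ht]⟩
  have hinj : ∀ z : K, algebraMap K Ω z = 0 → z = 0 := fun z hz =>
    (map_eq_zero (algebraMap K Ω)).1 hz
  -- `y`
  have hy0 : y ≠ 0 := by
    rintro rfl
    rw [map_zero, L.zero] at hy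
    exact absurd hy (not_lt.2 zero_le_one)
  obtain ⟨n, hn⟩ := hU y hy0
  have hn1 : n = -1 := by
    rw [hn] at hy hy4
    have h1 : n < 0 := by
      have := (hlt 0 n).1 (by rw [zpow_zero]; exact hy)
      exact this
    have h2 : 0 < 2 + n := by
      refine (hlt (2 + n) 0).1 ?_
      rw [zpow_add₀ htne, zpow_zero, show (2 : ℤ) = ((2 : ℕ) : ℤ) from rfl, zpow_natCast, ← h4]
      exact hy4
    omega
  rw [hn1] at hn
  -- `x'`
  obtain ⟨x', hx'⟩ : ∃ x', x' = x - a := ⟨_, rfl⟩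
  have hxι : algebraMap K Ω x - algebraMap K Ω a = algebraMap K Ω x' := by rw [hx', map_sub]
  rw [hxι, ← ht] at hx
  have hw : w ^ 2 = (u + 4 * x') * (x' ^ 2 - 4 * q) *
      (4 * y ^ 3 + 4 * c₂ * y ^ 2 + 4 * c₄ * y + b) := by
    apply (algebraMap K Ω).injective
    rw [map_pow, hs.1, h.fe, h.ge, hxι]
    simp only [map_mul, map_add, map_sub, map_pow, map_ofNat]
  have hw0 : w ≠ 0 := by
    rintro rfl
    exact hs.2 (map_zero _)
  have hu1 : L.nm (algebraMap K Ω u) = 1 := by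
    rw [← L.one]
    refine L.eq_of_close (h.nu.trans_lt ?_)
    rw [L.one, h4]
    exact pow_lt_one₀ ht0.le ht1 two_ne_zero
  have hu0 : u ≠ 0 := by
    rintro rfl
    rw [map_zero, L.zero] at hu1
    exact zero_ne_one hu1
  have hb1 : L.nm (algebraMap K Ω b) = 1 := by
    rw [← L.one]
    refine L.eq_of_close (h.nb.trans_lt ?_)
    rw [L.one, h4]
    exact pow_lt_one₀ ht0.le ht1 two_ne_zero
  have hx1 : L.nm (algebraMap K Ω x') < 1 := by
    by_contra hc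
    rw [not_lt] at hc
    exact absurd (hx.trans ht1) (not_lt.2 (one_le_pow₀ hc))
  have h4x : L.nm (4 * algebraMap K Ω x') < L.nm 4 := by
    rw [L.mul]
    exact mul_lt_of_lt_one_right (by rw [h4]; positivity) hx1
  have h41 : L.nm 4 < 1 := by
    rw [h4]
    exact pow_lt_one₀ ht0.le ht1 two_ne_zero
  have hux : L.nm (algebraMap K Ω (u + 4 * x')) = 1 := by
    rw [map_add, map_mul, map_ofNat, L.add_eq' (by rw [hu1]; exact h4x.trans h41), hu1]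
  -- `g(y)`
  have hgy : L.nm (algebraMap K Ω (4 * y ^ 3 + 4 * c₂ * y ^ 2 + 4 * c₄ * y + b)) = t ^ (-1 : ℤ) := by
    have e0 : algebraMap K Ω (4 * y ^ 3 + 4 * c₂ * y ^ 2 + 4 * c₄ * y + b) =
        4 * algebraMap K Ω y ^ 3 + (4 * algebraMap K Ω c₂ * algebraMap K Ω y ^ 2 +
          (4 * algebraMap K Ω c₄ * algebraMap K Ω y + algebraMap K Ω b)) := by
      simp only [map_mul, map_add, map_pow, map_ofNat]
      ring
    have e1 : L.nm (4 * algebraMap K Ω y ^ 3) = t ^ (-1 : ℤ) := by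
      rw [L.mul, L.pow, hn, h4, zpow_neg_one]
      field_simp
    have e2 : L.nm (4 * algebraMap K Ω c₂ * algebraMap K Ω y ^ 2) ≤ 1 := by
      rw [L.mul, L.mul, L.pow, hn, h4, zpow_neg_one]
      have : t ^ 2 * L.nm (algebraMap K Ω c₂) * t⁻¹ ^ 2 = L.nm (algebraMap K Ω c₂) := by
        field_simp
      rw [this]
      exact h.n₂
    have e3 : L.nm (4 * algebraMap K Ω c₄ * algebraMap K Ω y) ≤ 1 := by
      rw [L.mul, L.mul, hn, h4, zpow_neg_one]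
      have : t ^ 2 * L.nm (algebraMap K Ω c₄) * t⁻¹ = t * L.nm (algebraMap K Ω c₄) := by
        field_simp
      rw [this]
      exact mul_le_one₀ ht1.le (L.nonneg _) h.n₄
    have e4 : (1 : ℝ) < t ^ (-1 : ℤ) := by
      rw [zpow_neg_one]
      exact (one_lt_inv₀ ht0).2 ht1
    rw [e0, L.add_eq' (by
      rw [e1]
      refine ((L.add _ _).trans (max_le e2 ((L.add _ _).trans (max_le e3 hb1.le)))).trans_lt e4),
      e1]
  have hq : L.nm (4 * algebraMap K Ω q) = t ^ 3 := by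
    rw [L.mul, h4, h.nq, ← ht]
    ring
  have hwn : L.nm (algebraMap K Ω w) ^ 2 = L.nm (algebraMap K Ω (u + 4 * x')) *
      L.nm (algebraMap K Ω (x' ^ 2 - 4 * q)) *
      L.nm (algebraMap K Ω (4 * y ^ 3 + 4 * c₂ * y ^ 2 + 4 * c₄ * y + b)) := by
    rw [← L.pow, ← map_pow, hw, map_mul, map_mul, L.mul, L.mul]
  rw [hux, hgy, one_mul] at hwn
  -- the norm of `x'`
  have hx4 : L.nm (algebraMap K Ω x') ≤ L.nm 4 := by
    by_cases hx0 : x' = 0
    · rw [hx0, map_zero, L.zero]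
      exact L.nonneg _
    obtain ⟨m, hm⟩ := hU x' hx0
    have hm1 : 1 < 2 * m := by
      refine (hlt (2 * m) 1).1 ?_
      rw [zpow_one, mul_comm, zpow_mul, show (2 : ℤ) = ((2 : ℕ) : ℤ) from rfl, zpow_natCast, ← hm]
      exact hx
    have hm2 : m ≠ 1 := by
      rintro rfl
      rw [zpow_one] at hm
      have e1 : L.nm (algebraMap K Ω (x' ^ 2 - 4 * q)) = t ^ 2 := by
        rw [map_sub, map_mul, map_pow, map_ofNat, sub_eq_add_neg, L.add_eq', L.pow, hm]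
        rw [L.neg, hq, L.pow, hm]
        exact pow_lt_pow_right_of_lt_one₀ ht0 ht1 (by norm_num)
      obtain ⟨k, hk⟩ := hU w hw0
      rw [e1, hk] at hwn
      have e2 : t ^ (2 * k) = t ^ (1 : ℤ) := by
        rw [mul_comm, zpow_mul, show (2 : ℤ) = ((2 : ℕ) : ℤ) from rfl, zpow_natCast, hwn,
          zpow_neg_one, zpow_one]
        field_simp
      have e3 := zpow_right_injective₀ ht0 ht1.ne e2
      omega
    rw [hm, h4, ← zpow_natCast]
    exact zpow_le_zpow_right_of_le_one₀ ht0 ht1.le (by push_cast; omega)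
  -- the square root
  have hquo : L.nm (4 * algebraMap K Ω x' / algebraMap K Ω u) < L.nm 4 := by
    rw [L.div, hu1, div_one]
    exact h4x
  obtain ⟨s, hsb, hs2⟩ := L.sq (⊥ : IntermediateField K Ω)
    (x := 4 * algebraMap K Ω x' / algebraMap K Ω u)
    (by
      have e : 4 * algebraMap K Ω x' / algebraMap K Ω u = algebraMap K Ω (4 * x' / u) := by
        rw [map_div₀, map_mul, map_ofNat]
      rw [e]
      exact (⊥ : IntermediateField K Ω).algebraMap_mem _) hquo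
  obtain ⟨s₀, rfl⟩ := IntermediateField.mem_bot.1 hsb
  have hs0 : 1 + 4 * x' / u = s₀ ^ 2 := by
    apply (algebraMap K Ω).injective
    rw [map_add, map_one, map_div₀, map_mul, map_ofNat, map_pow]
    exact hs2
  have hns : L.nm (algebraMap K Ω s₀) = 1 := by
    have e1 : L.nm (algebraMap K Ω s₀) ^ 2 = 1 := by
      rw [← L.pow, ← hs2]
      exact L.one_add (hquo.trans h41)
    exact (pow_eq_one_iff_of_nonneg (L.nonneg _) two_ne_zero).1 e1
  have hs00 : s₀ ≠ 0 := by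
    rintro rfl
    rw [map_zero, L.zero] at hns
    exact zero_ne_one hns
  have hD0 : x' ^ 2 - 4 * q ≠ 0 := by
    intro e
    rw [e, mul_zero, zero_mul] at hw
    exact hw0 ((pow_eq_zero_iff two_ne_zero).1 hw)
  have hsu : u + 4 * x' = s₀ ^ 2 * u := by
    rw [← hs0]
    field_simp
  refine ⟨x', 2 * y, s₀⁻¹, w * s₀⁻¹ / (u * (x' ^ 2 - 4 * q)), ?_, ?_, ?_, hx4, ?_, ?_, ?_, ?_⟩
  · rw [hx']
    ring
  · field_simp
  · rw [map_mul, map_ofNat, L.mul, hn, ← ht, zpow_neg_one]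
    field_simp
  · refine h.res _ ?_
    rw [map_inv₀, L.inv, hns, inv_one]
  · rw [hs0]
    field_simp
  · exact div_ne_zero (mul_ne_zero hw0 (inv_ne_zero hs00)) (mul_ne_zero hu0 hD0)
  · obtain ⟨G, hG⟩ : ∃ G, G = 4 * y ^ 3 + 4 * c₂ * y ^ 2 + 4 * c₄ * y + b := ⟨_, rfl⟩
    obtain ⟨D, hD⟩ : ∃ D, D = x' ^ 2 - 4 * q := ⟨_, rfl⟩
    rw [← hG, ← hD, hsu] at hw
    rw [← hG, ← hD]
    rw [← hD] at hD0
    rw [div_pow, mul_pow, hw]
    field_simp

private theorem e_fac {K : Type} [Field K] {x' h q v τ c₂ c₄ b g₀ a₀ a₁ s₀ s₁ Q e₀ e₁ e₂ e₄ m r Y : K}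
    (hm : m * h = 1) (hr : r = h * Y)
    (ha₀ : a₀ = -(x' * h)) (ha₁ : a₁ = 1 + x' * h) (hs₀ : s₀ = a₀ + v * (-(4 * q * h)))
    (hs₁ : s₁ = a₁ + v * (x' + 4 * q * h)) (hQ : Q = 4 * h ^ 2 * q)
    (hτ : τ ^ 2 * (1 + v * x') = 1)
    (hg : g₀ = 4 * h ^ 3 + 4 * c₂ * h ^ 2 + 4 * c₄ * h + b)
    (he₀ : e₀ = -(a₀ * Q * g₀) - τ ^ 2 * (s₀ * b))
    (he₁ : e₁ = g₀ * (2 * Q * a₀ - Q * a₁) - τ ^ 2 * (s₁ * b + 4 * s₀ * c₄ * h))
    (he₂ : e₂ = g₀ * (2 * Q * a₁ + a₀ * (1 - Q)) - τ ^ 2 * (4 * s₁ * c₄ * h + s₀ * (4 * c₂ * h ^ 2)))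
    (he₄ : e₄ = -(τ ^ 2 * (s₁ * (4 * h ^ 3)))) :
    (m * r + x' * h * (m * r - 1)) * g₀ * ((m * r) ^ 2 - 4 * h ^ 2 * q * (m * r - 1) ^ 2) -
      τ ^ 2 * ((m * r + x' * h * (m * r - 1)) + v * (x' * (m * r) + 4 * q * h * (m * r - 1))) *
        (4 * r ^ 3 + 4 * c₂ * r ^ 2 + 4 * c₄ * r + b) =
    (r - h) * (m * (-e₀) + m ^ 2 * (-e₀ - e₁) * r + m ^ 3 * (-e₀ - e₁ - e₂) * r ^ 2 +
      m ^ 4 * e₄ * r ^ 3) := by
  have h1 : m * r = Y := by rw [hr, ← mul_assoc, hm, one_mul]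
  have h2 : (r - h) * (m * (-e₀) + m ^ 2 * (-e₀ - e₁) * r + m ^ 3 * (-e₀ - e₁ - e₂) * r ^ 2 +
      m ^ 4 * e₄ * r ^ 3) =
      (Y - 1) * (-e₀ + (-e₀ - e₁) * Y + (-e₀ - e₁ - e₂) * Y ^ 2 + e₄ * Y ^ 3) := by
    have h3 : m * (-e₀) + m ^ 2 * (-e₀ - e₁) * r + m ^ 3 * (-e₀ - e₁ - e₂) * r ^ 2 +
      m ^ 4 * e₄ * r ^ 3 = m * (-e₀ + (-e₀ - e₁) * Y + (-e₀ - e₁ - e₂) * Y ^ 2 + e₄ * Y ^ 3) := by
      rw [← h1]
      ring
    rw [h3, ← mul_assoc]
    congr 1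
    rw [sub_mul, mul_comm r m, h1, mul_comm h m, hm]
  rw [h2, h1, hr, he₀, he₁, he₂, he₄, hs₀, hs₁, ha₀, ha₁, hQ, hg]
  linear_combination (-(Y ^ 3 * (4 * h ^ 3 + 4 * c₂ * h ^ 2 + 4 * c₄ * h + b))) * hτ

private theorem e_est {K : Type} [Field K] {N : K → ℝ} {t : ℝ} (ht0 : 0 < t) (ht1 : t < 1)
    (Na : ∀ x y, N (x + y) ≤ max (N x) (N y)) (Nm : ∀ x y, N (x * y) = N x * N y)
    (Nn : ∀ x, N (-x) = N x) (N1 : N 1 = 1) (N0 : ∀ x, 0 ≤ N x) (N2 : N 2 = t) (h20 : (2 : K) ≠ 0)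
    (hu : ∀ x, N x = 1 → N (x - 1) ≤ t)
    {x' h q v τ c₂ c₄ b g₀ a₀ a₁ s₀ s₁ Q e₀ e₁ e₂ e₄ : K}
    (nh : N (2 * h) = 1) (nx : N x' ≤ t ^ 2) (nq : N q = t) (nv : N v ≤ t ^ 2) (n₂ : N c₂ ≤ 1)
    (n₄ : N c₄ ≤ 1) (nb : N b = 1) (nτ : N τ = 1)
    (ha₀ : a₀ = -(x' * h)) (ha₁ : a₁ = 1 + x' * h) (hs₀ : s₀ = a₀ + v * (-(4 * q * h)))
    (hs₁ : s₁ = a₁ + v * (x' + 4 * q * h)) (hQ : Q = 4 * h ^ 2 * q)
    (hg : g₀ = 4 * h ^ 3 + 4 * c₂ * h ^ 2 + 4 * c₄ * h + b)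
    (he₀ : e₀ = -(a₀ * Q * g₀) - τ ^ 2 * (s₀ * b))
    (he₁ : e₁ = g₀ * (2 * Q * a₀ - Q * a₁) - τ ^ 2 * (s₁ * b + 4 * s₀ * c₄ * h))
    (he₂ : e₂ = g₀ * (2 * Q * a₁ + a₀ * (1 - Q)) - τ ^ 2 * (4 * s₁ * c₄ * h + s₀ * (4 * c₂ * h ^ 2)))
    (he₄ : e₄ = -(τ ^ 2 * (s₁ * (4 * h ^ 3)))) :
    N e₀ ≤ t ^ 2 ∧ N e₁ ≤ t ∧ N e₂ ≤ 1 ∧ N e₄ = t⁻¹ := by
  have A : ∀ {x y : K} {r : ℝ}, N x ≤ r → N y ≤ r → N (x + y) ≤ r := fun {x y r} hx hy =>
    (Na x y).trans (max_le hx hy)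
  have B : ∀ {x y : K} {r : ℝ}, N x ≤ r → N y ≤ r → N (x - y) ≤ r := fun {x y r} hx hy => by
    rw [sub_eq_add_neg]
    exact A hx (by rw [Nn]; exact hy)
  have M : ∀ {x y : K} {r s : ℝ}, N x ≤ r → N y ≤ s → N (x * y) ≤ r * s := fun {x y r s} hx hy => by
    rw [Nm]
    exact mul_le_mul hx hy (N0 _) ((N0 _).trans hx)
  have U : ∀ {x y : K} {s : ℝ}, N x ≤ 1 → N y ≤ s → N (x * y) ≤ s := fun {x y s} hx hy => by
    have := M hx hy
    rwa [one_mul] at this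
  have D1 : ∀ {x : K}, N (x - 1) ≤ t → N x = 1 := fun {x} hx => by
    apply le_antisymm
    · have := A (hx.trans ht1.le) N1.le
      rwa [sub_add_cancel] at this
    · by_contra hc
      rw [not_le] at hc
      have h1 := Na x (-(x - 1))
      rw [Nn, show x + -(x - 1) = 1 by ring, N1] at h1
      exact absurd h1 (not_le.2 (max_lt hc (hx.trans_lt ht1)))
  have DM : ∀ {x y : K}, N (x - 1) ≤ t → N (y - 1) ≤ t → N (x * y - 1) ≤ t := fun {x y} hx hy => by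
    have e : x * y - 1 = y * (x - 1) + (y - 1) := by ring
    rw [e]
    exact A (U (D1 hy).le hx) hy
  have DD : ∀ {x y : K}, N (x - 1) ≤ t → N (y - 1) ≤ t → N (x + y) ≤ t := fun {x y} hx hy => by
    have e : x + y = (x - 1) + (y - 1) + 2 := by ring
    rw [e]
    exact A (A hx hy) N2.le
  have t2 : t ^ 2 ≤ t := by nlinarith
  have t21 : t ^ 2 ≤ 1 := t2.trans ht1.le
  have hn : N h = t⁻¹ := by
    rw [Nm, N2] at nh
    field_simp
    linarith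
  have h2t : N (2 * h - 1) ≤ t := hu _ nh
  have n4h : N (4 * h) ≤ t := by
    rw [show 4 * h = 2 * h * 2 by ring]
    exact U nh.le N2.le
  have n4h2 : N (4 * h ^ 2) ≤ 1 := by
    rw [show 4 * h ^ 2 = 2 * h * (2 * h) by ring]
    exact U nh.le nh.le
  have nxh : N (x' * h) ≤ t := by
    have := M nx hn.le
    rwa [show t ^ 2 * t⁻¹ = t by field_simp] at this
  have na₀ : N a₀ ≤ t := by rw [ha₀, Nn]; exact nxh
  have na₁ : N (a₁ - 1) ≤ t := by rw [ha₁, add_sub_cancel_left]; exact nxh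
  have n4q : N (4 * q * h) ≤ t := by
    rw [show 4 * q * h = 4 * h * q by ring, Nm, nq]
    exact mul_le_of_le_one_left ht0.le (n4h.trans ht1.le)
  have nv' : N (v * (4 * q * h)) ≤ t ^ 2 := by
    have := M nv n4q
    exact this.trans (mul_le_of_le_one_right (by positivity) ht1.le)
  have nvx : N (v * (x' + 4 * q * h)) ≤ t := by
    have := M nv (A (nx.trans t2) n4q)
    exact (this.trans (mul_le_of_le_one_right (by positivity) ht1.le)).trans t2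
  have ns₀ : N s₀ ≤ t := by
    rw [hs₀, mul_neg]
    exact A na₀ (by rw [Nn]; exact nv'.trans t2)
  have ns₁ : N (s₁ - 1) ≤ t := by
    rw [hs₁, show a₁ + v * (x' + 4 * q * h) - 1 = (a₁ - 1) + v * (x' + 4 * q * h) by ring]
    exact A na₁ nvx
  have nQ : N Q = t := by
    rw [hQ, show 4 * h ^ 2 * q = 2 * h * (2 * h) * q by ring, Nm, Nm, nh, nq]
    ring
  have nG : N (4 * c₂ * h ^ 2 + 4 * c₄ * h + b) ≤ 1 := by
    refine A (A ?_ ?_) nb.le
    · rw [show 4 * c₂ * h ^ 2 = 4 * h ^ 2 * c₂ by ring]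
      exact U n4h2 n₂
    · rw [show 4 * c₄ * h = 4 * h * c₄ by ring]
      exact U (n4h.trans ht1.le) n₄
  have nτ2 : N (τ ^ 2 - 1) ≤ t := by
    rw [pow_two]
    exact DM (hu _ nτ) (hu _ nτ)
  have nb' : N (b - 1) ≤ t := hu _ nb
  have nk : N (q / 2) = 1 := by
    have e : N (q / 2 * 2) = t := by rw [div_mul_cancel₀ _ h20, nq]
    rw [Nm, N2] at e
    exact mul_right_cancel₀ ht0.ne' (by rw [e, one_mul])
  have nQg : N (Q * g₀ - 1) ≤ t := by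
    have e : Q * g₀ - 1 = ((2 * h * (2 * h) * (2 * h) * (2 * h) * (2 * h)) * (q / 2) - 1) +
        Q * (4 * c₂ * h ^ 2 + 4 * c₄ * h + b) := by
      rw [hg, hQ]
      field_simp
      ring
    rw [e]
    refine A (DM (DM (DM (DM (DM h2t h2t) h2t) h2t) h2t) (hu _ nk)) ?_
    have := M nQ.le nG
    rwa [mul_one] at this
  have nτ1 : N (τ ^ 2) ≤ 1 := (D1 nτ2).le
  have ng : N g₀ ≤ t⁻¹ := by
    have e1 : (1 : ℝ) ≤ t⁻¹ := (one_le_inv₀ ht0).2 ht1.le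
    rw [hg, show 4 * h ^ 3 + 4 * c₂ * h ^ 2 + 4 * c₄ * h + b = 4 * h ^ 2 * h +
      (4 * c₂ * h ^ 2 + 4 * c₄ * h + b) by ring]
    exact A (U n4h2 hn.le) (nG.trans e1)
  refine ⟨?_, ?_, ?_, ?_⟩
  · have e : e₀ = -(a₀ * (Q * g₀ + τ ^ 2 * b)) + τ ^ 2 * (b * (v * (4 * q * h))) := by
      rw [he₀, hs₀]
      ring
    rw [e]
    refine A ?_ (U nτ1 (U nb.le nv'))
    rw [Nn]
    have := M na₀ (DD nQg (DM nτ2 nb'))
    rwa [← pow_two] at this
  · have e : e₁ = 2 * (a₀ * (Q * g₀)) - (Q * g₀ * a₁ + τ ^ 2 * (s₁ * b)) -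
        τ ^ 2 * (s₀ * (c₄ * (4 * h))) := by
      rw [he₁]
      ring
    rw [e]
    refine B (B (U (N2.le.trans ht1.le) ?_) (DD (DM nQg na₁) (DM nτ2 (DM ns₁ nb'))))
      (U nτ1 ?_)
    · rw [mul_comm]
      exact U (D1 nQg).le na₀
    · rw [mul_comm]
      exact U (U n₄ (n4h.trans ht1.le)) ns₀
  · have e : e₂ = 2 * (Q * g₀ * a₁) + a₀ * g₀ * (1 - Q) -
        τ ^ 2 * (s₁ * (c₄ * (4 * h)) + s₀ * (c₂ * (4 * h ^ 2))) := by
      rw [he₂]
      ring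
    rw [e]
    have hQ1 : N Q ≤ 1 := by rw [nQ]; exact ht1.le
    refine B (A (U (N2.le.trans ht1.le) (U (D1 nQg).le (D1 na₁).le)) (U ?_ (B N1.le hQ1)))
      (U nτ1 (A (U (D1 ns₁).le (U n₄ (n4h.trans ht1.le))) (U (ns₀.trans ht1.le) (U n₂ n4h2))))
    have := M na₀ ng
    rwa [show t * t⁻¹ = 1 by field_simp] at this
  · have e : e₄ = -(τ ^ 2 * (s₁ * (2 * h * (2 * h) * h))) := by
      rw [he₄]
      ring
    rw [e, Nn, Nm, Nm, Nm, Nm, D1 nτ2, D1 ns₁, nh, hn]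
    ring

/-- The polynomial `α₁ / λ`. -/
noncomputable def eA₁ (x' η q : K) : K[X] :=
  C x' * (C (2 / η) * X) + C (2 * q * η) * (C (2 / η) * X - 1)

/-- The polynomial `α₂ / λ`. -/
noncomputable def eA₂ (x' η : K) : K[X] :=
  C (2 / η) * X + C (x' * η / 2) * (C (2 / η) * X - 1)

/-- The polynomial `F₁ / λ`, `g₀ = g(y)`. -/
noncomputable def eF (x' η q u τ c₂ c₄ b g₀ : K) : K[X] :=
  eA₂ x' η * C g₀ * ((C (2 / η) * X) ^ 2 - C (η ^ 2 * q) * (C (2 / η) * X - 1) ^ 2) -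
    C (τ ^ 2) * (eA₂ x' η + C (4 / u) * eA₁ x' η q) *
      (4 * X ^ 3 + 4 * C c₂ * X ^ 2 + 4 * C c₄ * X + C b)

/-- **The roots.** `e_k` is the coefficient of `Y ^ k`, `Y = 2 X / η`. Proof: with `a₀ = - x' η / 2`, `a₁ = 1 + x' η / 2`, `b₀ = - 2 q η`, `b₁ = x' + 2 q η`, `Q = η² q`, `g = (η³ / 2) Y³ + c₂ η² Y² + 2 c₄ η Y + b`, `g₀ = η³ / 2 + c₂ η² + 2 c₄ η + b`:
`e_0 = - a₀ g₀ Q - τ² b (a₀ + 4 b₀ / u)` has norm `≤ |4|`: `g₀ Q + b ≡ η⁵ κ + b ≡ 0` modulo `2`, `q = 2 κ` (all units are congruent to `1` modulo `2`), `|a₀| ≤ |2|`;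
`e_1 = g₀ (2 Q a₀ - Q a₁) - τ² (2 c₄ η (a₀ + 4 b₀ / u) + b (a₁ + 4 b₁ / u))` has norm `≤ |2|`; `e_2` has norm `≤ 1`; `e_4` has norm `1 / |2|`.
`eF = (Y - 1) (d_3 Y³ + d_2 Y² + d_1 Y + d_0)`, `d_0 = - e_0`, `d_1 = - e_0 - e_1`, `d_2 = - e_0 - e_1 - e_2`, `d_3 = e_4`. In `X` the coefficients of the cubic factor are `(2 / η) ^ (i + 1) d_i` up to a factor, of norm `≤ |8|`, with equality for `i = 3`. -/
theorem N2.e_roots [L.Unr] (h : N2 L f g a u q c₂ c₄ b) {x' η τ g₀ : K}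
    (hη : L.nm (algebraMap K Ω η) = 1) (hx : L.nm (algebraMap K Ω x') ≤ L.nm 4)
    (hτ : L.nm (algebraMap K Ω τ - 1) < 1) (hτ2 : τ ^ 2 * (1 + 4 * x' / u) = 1)
    (hg : g₀ = 4 * (η / 2) ^ 3 + 4 * c₂ * (η / 2) ^ 2 + 4 * c₄ * (η / 2) + b) :
    ∃ G : K[X], eF x' η q u τ c₂ c₄ b g₀ = (X - C (η / 2)) * G ∧ G ≠ 0 ∧
      ∀ z : Ω, aeval z G = 0 → L.nm z ≤ 1 := by
  have hp : L.nm (L.p : Ω) = L.nm 2 := by rw [h.p2, Nat.cast_ofNat]
  have ht1 : L.nm (2 : Ω) < 1 := by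
    rw [← hp]
    exact L.lt
  have ht0 : 0 < L.nm (2 : Ω) := by
    rw [← hp]
    exact L.p_pos
  have h4 : L.nm (4 : Ω) = L.nm 2 ^ 2 := by rw [show (4 : Ω) = 2 ^ 2 by norm_num, L.pow]
  have hinj : ∀ z : K, z ≠ 0 → algebraMap K Ω z ≠ 0 := fun z hz h0 =>
    hz ((map_eq_zero (algebraMap K Ω)).1 h0)
  have hunit : ∀ z : K, L.nm (algebraMap K Ω z - 1) ≤ L.nm 4 → L.nm (algebraMap K Ω z) = 1 := by
    intro z hz
    rw [← L.one]
    refine L.eq_of_close (hz.trans_lt ?_)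
    rw [L.one, h4]
    exact pow_lt_one₀ ht0.le ht1 two_ne_zero
  have hu0 : u ≠ 0 := by
    rintro rfl
    have := hunit 0 h.nu
    rw [map_zero, L.zero] at this
    exact zero_ne_one this
  have hη0 : η ≠ 0 := by
    rintro rfl
    rw [map_zero, L.zero] at hη
    exact zero_ne_one hη
  have hτ1 : L.nm (algebraMap K Ω τ) = 1 := by
    rw [← L.one]
    exact L.eq_of_close (by rw [L.one]; exact hτ)
  have h20 : (2 : K) ≠ 0 := two_ne_zero
  obtain ⟨k, rfl⟩ : ∃ k, η = 2 * k := ⟨η / 2, by field_simp⟩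
  have hk0 : k ≠ 0 := fun h0 => hη0 (by rw [h0, mul_zero])
  have hk2 : 2 * k / 2 = k := by field_simp
  rw [hk2] at hg ⊢
  obtain ⟨v, hv⟩ : ∃ v, v = 4 / u := ⟨_, rfl⟩
  have nv : L.nm (algebraMap K Ω v) ≤ L.nm 2 ^ 2 := by
    rw [hv, map_div₀, map_ofNat, L.div, hunit u h.nu, div_one, h4]
  have hτ3 : τ ^ 2 * (1 + v * x') = 1 := by
    calc τ ^ 2 * (1 + v * x') = τ ^ 2 * (1 + 4 * x' / u) := by
          rw [hv]
          ring
      _ = 1 := hτ2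
  obtain ⟨m, hm⟩ : ∃ m, m = 2 / (2 * k) := ⟨_, rfl⟩
  have hmk : m * k = 1 := by
    rw [hm]
    field_simp
  obtain ⟨a₀, ha₀⟩ : ∃ a₀, a₀ = -(x' * k) := ⟨_, rfl⟩
  obtain ⟨a₁, ha₁⟩ : ∃ a₁, a₁ = 1 + x' * k := ⟨_, rfl⟩
  obtain ⟨s₀, hs₀⟩ : ∃ s₀, s₀ = a₀ + v * (-(4 * q * k)) := ⟨_, rfl⟩
  obtain ⟨s₁, hs₁⟩ : ∃ s₁, s₁ = a₁ + v * (x' + 4 * q * k) := ⟨_, rfl⟩
  obtain ⟨Q, hQ⟩ : ∃ Q, Q = 4 * k ^ 2 * q := ⟨_, rfl⟩
  obtain ⟨e₀, he₀⟩ : ∃ e₀, e₀ = -(a₀ * Q * g₀) - τ ^ 2 * (s₀ * b) := ⟨_, rfl⟩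
  obtain ⟨e₁, he₁⟩ : ∃ e₁, e₁ = g₀ * (2 * Q * a₀ - Q * a₁) - τ ^ 2 * (s₁ * b + 4 * s₀ * c₄ * k) :=
    ⟨_, rfl⟩
  obtain ⟨e₂, he₂⟩ : ∃ e₂, e₂ = g₀ * (2 * Q * a₁ + a₀ * (1 - Q)) -
    τ ^ 2 * (4 * s₁ * c₄ * k + s₀ * (4 * c₂ * k ^ 2)) := ⟨_, rfl⟩
  obtain ⟨e₄, he₄⟩ : ∃ e₄, e₄ = -(τ ^ 2 * (s₁ * (4 * k ^ 3))) := ⟨_, rfl⟩
  have hg' : g₀ = 4 * k ^ 3 + 4 * c₂ * k ^ 2 + 4 * c₄ * k + b := hg
  obtain ⟨E0, E1, E2, E4⟩ := e_est (N := fun z : K => L.nm (algebraMap K Ω z)) ht0 ht1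
    (fun x y => by rw [map_add]; exact L.add _ _) (fun x y => by rw [map_mul, L.mul])
    (fun x => by rw [map_neg, L.neg]) (by rw [map_one, L.one]) (fun x => L.nonneg _)
    (by rw [map_ofNat]) h20
    (fun x hx => by
      have h1 := h.res x hx
      by_cases h0 : x - 1 = 0
      · rw [h0, map_zero, L.zero]
        exact ht0.le
      · obtain ⟨n, hn⟩ := L.unr (x - 1) h0
        rw [map_sub, map_one] at hn ⊢
        rw [hp] at hn
        rw [hn] at h1 ⊢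
        have hn1 : 0 < n := by
          by_contra hc
          rw [not_lt] at hc
          refine absurd h1 (not_lt.2 ?_)
          rw [← zpow_zero (L.nm (2 : Ω))]
          exact zpow_le_zpow_right_of_le_one₀ ht0 ht1.le hc
        calc L.nm (2 : Ω) ^ n ≤ L.nm 2 ^ (1 : ℤ) :=
              zpow_le_zpow_right_of_le_one₀ ht0 ht1.le (by omega)
          _ = L.nm 2 := zpow_one _)
    hη (by rw [← h4]; exact hx) h.nq nv h.n₂ h.n₄ (hunit b h.nb) hτ1 ha₀ ha₁ hs₀ hs₁ hQ hg'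
    he₀ he₁ he₂ he₄
  have nm : L.nm (algebraMap K Ω m) = L.nm 2 := by
    rw [hm, map_div₀, map_ofNat, L.div, hη, div_one]
  obtain ⟨t, ht⟩ : ∃ t, t = L.nm (2 : Ω) := ⟨_, rfl⟩
  rw [← ht] at E0 E1 E4 nm ht0 ht1
  have A : ∀ {x y : K} {r : ℝ}, L.nm (algebraMap K Ω x) ≤ r → L.nm (algebraMap K Ω y) ≤ r →
      L.nm (algebraMap K Ω (-x - y)) ≤ r := fun {x y r} hx hy => by
    rw [map_sub, map_neg, sub_eq_add_neg]
    exact (L.add _ _).trans (max_le (by rw [L.neg]; exact hx) (by rw [L.neg]; exact hy))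
  have c0 : L.nm (algebraMap K Ω (m * (-e₀))) ≤ t ^ 3 := by
    rw [map_mul, map_neg, L.mul, L.neg, nm]
    calc t * L.nm (algebraMap K Ω e₀) ≤ t * t ^ 2 := mul_le_mul_of_nonneg_left E0 ht0.le
      _ = t ^ 3 := by ring
  have d1 : L.nm (algebraMap K Ω (-e₀ - e₁)) ≤ t := A (E0.trans (by nlinarith)) E1
  have c1 : L.nm (algebraMap K Ω (m ^ 2 * (-e₀ - e₁))) ≤ t ^ 3 := by
    rw [map_mul, map_pow, L.mul, L.pow, nm]
    calc t ^ 2 * L.nm (algebraMap K Ω (-e₀ - e₁)) ≤ t ^ 2 * t :=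
          mul_le_mul_of_nonneg_left d1 (by positivity)
      _ = t ^ 3 := by ring
  have d2 : L.nm (algebraMap K Ω (-e₀ - e₁ - e₂)) ≤ 1 := by
    rw [map_sub, sub_eq_add_neg]
    exact (L.add _ _).trans (max_le (d1.trans ht1.le) (by rw [L.neg]; exact E2))
  have c2 : L.nm (algebraMap K Ω (m ^ 3 * (-e₀ - e₁ - e₂))) ≤ t ^ 3 := by
    rw [map_mul, map_pow, L.mul, L.pow, nm]
    exact mul_le_of_le_one_right (by positivity) d2
  have c3 : L.nm (algebraMap K Ω (m ^ 4 * e₄)) = t ^ 3 := by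
    rw [map_mul, map_pow, L.mul, L.pow, nm]
    rw [E4]
    field_simp
  obtain ⟨G, hG⟩ : ∃ G : K[X], G = C (m * (-e₀)) + C (m ^ 2 * (-e₀ - e₁)) * X +
    C (m ^ 3 * (-e₀ - e₁ - e₂)) * X ^ 2 + C (m ^ 4 * e₄) * X ^ 3 := ⟨_, rfl⟩
  have hev : ∀ z : Ω, aeval z G = algebraMap K Ω (m * (-e₀)) +
      algebraMap K Ω (m ^ 2 * (-e₀ - e₁)) * z + algebraMap K Ω (m ^ 3 * (-e₀ - e₁ - e₂)) * z ^ 2 +
      algebraMap K Ω (m ^ 4 * e₄) * z ^ 3 := by
    intro z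
    rw [hG]
    simp only [map_add, aeval_X, aeval_C, map_mul, map_pow, map_neg, map_sub]
  have key : ∀ z : Ω, 1 < L.nm z → aeval z G ≠ 0 := by
    intro z hz h0
    rw [hev] at h0
    have h1 : algebraMap K Ω (m ^ 4 * e₄) * z ^ 3 = -(algebraMap K Ω (m * (-e₀)) +
      algebraMap K Ω (m ^ 2 * (-e₀ - e₁)) * z +
      algebraMap K Ω (m ^ 3 * (-e₀ - e₁ - e₂)) * z ^ 2) := by linear_combination h0
    have h2 : L.nm (algebraMap K Ω (m ^ 4 * e₄) * z ^ 3) ≤ t ^ 3 * L.nm z ^ 2 := by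
      have z2 : 1 ≤ L.nm z ^ 2 := one_le_pow₀ hz.le
      have z1 : L.nm z ≤ L.nm z ^ 2 := by nlinarith
      have t3 : 0 < t ^ 3 := by positivity
      rw [h1, L.neg]
      refine (L.add _ _).trans (max_le ((L.add _ _).trans (max_le ?_ ?_)) ?_)
      · exact c0.trans (le_mul_of_one_le_right t3.le z2)
      · rw [L.mul]
        exact mul_le_mul c1 z1 (L.nonneg _) t3.le
      · rw [L.mul, L.pow]
        exact mul_le_mul_of_nonneg_right c2 (by positivity)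
    rw [L.mul, L.pow, c3] at h2
    have h3 := le_of_mul_le_mul_left h2 (by positivity : 0 < t ^ 3)
    have h5 : L.nm z ^ 2 < L.nm z ^ 3 := pow_lt_pow_right₀ hz (by norm_num)
    exact absurd h3 (not_le.2 h5)
  refine ⟨G, ?_, ?_, fun z hz => by
    by_contra hc
    exact key z (not_le.1 hc) hz⟩
  · refine Polynomial.funext fun r => ?_
    have hr : r = k * (m * r) := by rw [← mul_assoc, mul_comm k m, hmk, one_mul]
    have e := e_fac hmk hr ha₀ ha₁ hs₀ hs₁ hQ hτ3 hg' he₀ he₁ he₂ he₄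
    rw [hG, eF, eA₁, eA₂, ← hm, ← hv]
    simp only [eval_add, eval_sub, eval_mul, eval_pow, eval_C, eval_X, eval_ofNat, eval_one]
    rw [show x' * (2 * k) / 2 = x' * k by field_simp]
    linear_combination e
  · intro h0
    have := key (algebraMap K Ω (m⁻¹)) (by
      rw [map_inv₀, L.inv, nm]
      exact (one_lt_inv₀ ht0).2 ht1)
    rw [h0, map_zero] at this
    exact this rfl

/-- **The points over `K`.** Proof: `e_dat`; `rel_clK` with `α = α₂ = λ eA₂`, `R = α₁ + a α₂`, `α₁ = λ eA₁`, `A₁ = u α₂ N`, `A₂ = τ`, `N = α₁² - 4 q α₂²`: `N2.hF`, `n = u α₂ N F₁`, `F₁ = λ eF` (the identity for `N` in the header). Coprime: the determinant of the coefficients is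
`- (η / 2) (x'² - 4 q)` up to a factor. The degree of `hh` is `7`. The multiplicity of `y` in `n` is the one in `F₁` (`h(y) ≠ 0`), which is `1` (`e_roots`, `|y| > 1`). Other points: `z` is a root of `F₁` (`h(z) ≠ 0`), so `|z| ≤ 1`: `N2.t1`. -/
theorem N2.ee [L.Unr] (h : N2 L f g a u q c₂ c₄ b) (hU : Uh L f g) {x y w : K}
    (hs : Sp f g (algebraMap K Ω x) (algebraMap K Ω y) (algebraMap K Ω w))
    (hx : L.nm (algebraMap K Ω x - algebraMap K Ω a) ^ 2 < L.nm 2)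
    (hy : 1 < L.nm (algebraMap K Ω y)) (hy4 : L.nm 4 * L.nm (algebraMap K Ω y) < 1) :
    Tp f g K (kp f g (algebraMap K Ω x) (algebraMap K Ω y) (algebraMap K Ω w)) := by
  classical
  have hch : CharZero Ω := charZero_of_injective_algebraMap (algebraMap K Ω).injective
  obtain ⟨x', η, τ, lam, hxe, hye, hη, hx', hτ, hτ2, hlam, hl2⟩ := h.e_dat hs hx hy hy4
  obtain ⟨g₀, hg₀⟩ : ∃ g₀, g₀ = 4 * y ^ 3 + 4 * c₂ * y ^ 2 + 4 * c₄ * y + b := ⟨_, rfl⟩
  rw [← hg₀] at hl2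
  obtain ⟨G, hG, hG0, hGr⟩ := h.e_roots hη hx' hτ hτ2 (g₀ := g₀) (by rw [hg₀, hye])
  have hp : L.nm (L.p : Ω) = L.nm 2 := by rw [h.p2, Nat.cast_ofNat]
  have h20 : 0 < L.nm (2 : Ω) := L.pos two_ne_zero
  have h21 : L.nm (2 : Ω) < 1 := by
    rw [← hp]
    exact L.lt
  have h4 : L.nm (4 : Ω) = L.nm 2 ^ 2 := by
    rw [← L.pow]
    norm_num
  have h41 : L.nm (4 : Ω) < 1 := by
    rw [h4]
    exact pow_lt_one₀ h20.le h21 two_ne_zero
  have hu1 : L.nm (algebraMap K Ω u) = 1 := by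
    rw [← L.one]
    refine L.eq_of_close (h.nu.trans_lt ?_)
    rw [L.one]
    exact h41
  have hu0 : u ≠ 0 := by
    rintro rfl
    rw [map_zero, L.zero] at hu1
    exact zero_ne_one hu1
  have hη0 : η ≠ 0 := by
    rintro rfl
    rw [map_zero, L.zero] at hη
    exact zero_ne_one hη
  have hτ0 : τ ≠ 0 := by
    rintro rfl
    rw [zero_pow two_ne_zero, zero_mul] at hτ2
    exact zero_ne_one hτ2
  have hgy : aeval (algebraMap K Ω y) g = algebraMap K Ω g₀ := by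
    rw [h.ge, hg₀]
    simp only [map_add, map_mul, map_pow, map_ofNat]
  have hg00 : g₀ ≠ 0 := by
    rintro h0
    apply hs.gy
    rw [hgy, h0, map_zero]
  have hD0 : x' ^ 2 - 4 * q ≠ 0 := by
    intro h0
    rw [h0, mul_zero, mul_zero] at hl2
    exact hg00 hl2.symm
  -- norms
  have hune : ∀ z : K, L.nm (algebraMap K Ω z) < 1 → 1 + z ≠ 0 := by
    intro z hz h0
    have h1 : z = -1 := by linear_combination h0
    rw [h1, map_neg, map_one, L.neg, L.one] at hz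
    exact lt_irrefl _ hz
  have hx1 : L.nm (algebraMap K Ω x') < 1 := hx'.trans_lt h41
  have he1 : L.nm (algebraMap K Ω (x' * η / 2)) < 1 := by
    rw [map_div₀, map_mul, map_ofNat, L.div, L.mul, hη, mul_one, div_lt_one h20]
    refine hx'.trans_lt ?_
    rw [h4, sq]
    exact mul_lt_of_lt_one_left h20 h21
  have hq1 : L.nm (algebraMap K Ω q) < 1 := by
    rw [h.nq]
    exact h21
  have hA : 1 + x' * η / 2 ≠ 0 := hune _ he1
  have hB : u * (1 + x' * η / 2) + 4 * (x' + 2 * q * η) ≠ 0 := by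
    intro h0
    have h1 : 1 + (x' * η / 2 + 4 * (x' + 2 * q * η) / u) = 0 := by
      field_simp
      linear_combination 2 * h0
    refine hune _ ?_ h1
    rw [map_add]
    refine (L.add _ _).trans_lt (max_lt he1 ?_)
    rw [map_div₀, L.div, hu1, div_one, map_mul, map_ofNat, L.mul]
    refine mul_lt_one_of_nonneg_of_lt_one_left (L.nonneg _) h41 ?_
    rw [map_add]
    refine (L.add _ _).trans (max_le hx1.le ?_)
    rw [map_mul, map_mul, map_ofNat, L.mul, L.mul, hη, mul_one]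
    exact mul_le_one₀ h21.le (L.nonneg _) hq1.le
  have hC : 1 - η ^ 2 * q ≠ 0 := by
    rw [sub_eq_add_neg]
    refine hune _ ?_
    rw [map_neg, L.neg, map_mul, map_pow, L.mul, L.pow, hη, one_pow, one_mul]
    exact hq1
  -- the polynomials
  obtain ⟨α₁, hα₁⟩ : ∃ α₁, α₁ = C lam * eA₁ x' η q := ⟨_, rfl⟩
  obtain ⟨α₂, hα₂⟩ : ∃ α₂, α₂ = C lam * eA₂ x' η := ⟨_, rfl⟩
  obtain ⟨N, hN⟩ : ∃ N, N = α₁ ^ 2 - 4 * C q * α₂ ^ 2 := ⟨_, rfl⟩
  have hy2 : y = η / 2 := hye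
  have heA₁ : eA₁ x' η q = C ((x' + 2 * q * η) * (2 / η)) * X + C (-(2 * q * η)) := by
    apply Polynomial.funext
    intro r
    unfold eA₁
    simp only [eval_add, eval_mul, eval_C, eval_X, eval_sub, eval_one]
    ring
  have heA₂ : eA₂ x' η = C ((1 + x' * η / 2) * (2 / η)) * X + C (-(x' * η / 2)) := by
    apply Polynomial.funext
    intro r
    unfold eA₂
    simp only [eval_add, eval_mul, eval_C, eval_X, eval_sub, eval_one]
    ring
  have hα₂' : α₂ = C (lam * ((1 + x' * η / 2) * (2 / η))) * X + C (-(lam * (x' * η / 2))) := by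
    apply Polynomial.funext
    intro r
    rw [hα₂, heA₂]
    simp only [eval_add, eval_mul, eval_C, eval_X]
    ring
  have hαu : C u * α₂ + 4 * α₁ = C (lam * (2 / η) * (u * (1 + x' * η / 2) +
      4 * (x' + 2 * q * η))) * X + C (-(lam * (u * (x' * η / 2) + 8 * q * η))) := by
    apply Polynomial.funext
    intro r
    rw [hα₂, heA₂, hα₁, heA₁]
    simp only [eval_add, eval_mul, eval_C, eval_X, eval_ofNat]
    ring
  have hN' : N = C (lam ^ 2 * (x' ^ 2 - 4 * q)) * ((C (2 / η) * X) ^ 2 -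
      C (η ^ 2 * q) * (C (2 / η) * X - 1) ^ 2) := by
    apply Polynomial.funext
    intro r
    rw [hN, hα₂, heA₂, hα₁, heA₁]
    simp only [eval_add, eval_mul, eval_C, eval_X, eval_ofNat, eval_sub, eval_pow, eval_one]
    field_simp
    ring
  have hN'' : N = C (lam ^ 2 * (x' ^ 2 - 4 * q) * ((2 / η) ^ 2 * (1 - η ^ 2 * q))) * X ^ 2 +
      C (lam ^ 2 * (x' ^ 2 - 4 * q) * (2 * (2 / η) * (η ^ 2 * q))) * X +
        C (-(lam ^ 2 * (x' ^ 2 - 4 * q) * (η ^ 2 * q))) := by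
    apply Polynomial.funext
    intro r
    rw [hN']
    simp only [eval_add, eval_mul, eval_C, eval_X, eval_ofNat, eval_sub, eval_pow, eval_one]
    field_simp
    ring
  have hgK : g.map (algebraMap F K) = C 4 * X ^ 3 + C (4 * c₂) * X ^ 2 + C (4 * c₄) * X + C b := by
    rw [h.gK, C_mul, C_mul]
    rfl
  have hk0 : (2 : K) / η ≠ 0 := div_ne_zero two_ne_zero hη0
  have hd1 : α₂.natDegree = 1 := by
    rw [hα₂']
    exact natDegree_linear (mul_ne_zero hlam (mul_ne_zero hA hk0))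
  have hd2 : (C u * α₂ + 4 * α₁).natDegree = 1 := by
    rw [hαu]
    exact natDegree_linear (mul_ne_zero (mul_ne_zero hlam hk0) hB)
  have hd3 : N.natDegree = 2 := by
    rw [hN'']
    exact natDegree_quadratic (mul_ne_zero (mul_ne_zero (pow_ne_zero 2 hlam) hD0)
      (mul_ne_zero (pow_ne_zero 2 hk0) hC))
  have hd4 : (g.map (algebraMap F K)).natDegree = 3 := by
    rw [hgK]
    exact natDegree_cubic (OfNat.ofNat_ne_zero 4)
  have hne : ∀ {P : K[X]} {n : ℕ}, P.natDegree = n → n ≠ 0 → P ≠ 0 := by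
    rintro P n h1 h2 rfl
    rw [natDegree_zero] at h1
    exact h2 h1.symm
  have hhh : hh f g (α₁ + C a * α₂) α₂ = α₂ * (C u * α₂ + 4 * α₁) * N *
      g.map (algebraMap F K) := by
    rw [hh, h.hF, hN]
  have hhd : (hh f g (α₁ + C a * α₂) α₂).natDegree = 7 := by
    rw [hhh, natDegree_mul (mul_ne_zero (mul_ne_zero (hne hd1 one_ne_zero) (hne hd2 one_ne_zero))
      (hne hd3 two_ne_zero)) (hne hd4 three_ne_zero), natDegree_mul (mul_ne_zero
      (hne hd1 one_ne_zero) (hne hd2 one_ne_zero)) (hne hd3 two_ne_zero), natDegree_mul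
      (hne hd1 one_ne_zero) (hne hd2 one_ne_zero), hd1, hd2, hd3, hd4]
  have hsq : ∀ r : K[X], r ^ 2 ≠ hh f g (α₁ + C a * α₂) α₂ := nsq_odd (by
    rw [hhd]
    decide)
  have hcop : IsCoprime (α₁ + C a * α₂) α₂ := by
    have h1 : IsCoprime α₁ α₂ := by
      have hD : η / 2 * (x' ^ 2 - 4 * q) ≠ 0 := mul_ne_zero (div_ne_zero hη0 two_ne_zero) hD0
      refine ⟨C ((1 + x' * η / 2) / (lam * (η / 2 * (x' ^ 2 - 4 * q)))),
        C (-(x' + 2 * q * η) / (lam * (η / 2 * (x' ^ 2 - 4 * q)))), ?_⟩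
      apply Polynomial.funext
      intro r
      rw [hα₂, heA₂, hα₁, heA₁]
      simp only [eval_add, eval_mul, eval_C, eval_X, eval_one]
      have hD1 : lam * (η / 2 * (x' ^ 2 - 4 * q)) ≠ 0 := mul_ne_zero hlam hD
      have h5 : (1 + x' * η / 2) * (lam * ((x' + 2 * q * η) * (2 / η) * r + -(2 * q * η))) +
          -(x' + 2 * q * η) * (lam * ((1 + x' * η / 2) * (2 / η) * r + -(x' * η / 2))) =
          lam * (η / 2 * (x' ^ 2 - 4 * q)) := by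
        ring
      generalize lam * (η / 2 * (x' ^ 2 - 4 * q)) = D at h5 hD1 ⊢
      generalize lam * ((x' + 2 * q * η) * (2 / η) * r + -(2 * q * η)) = P at h5 ⊢
      generalize lam * ((1 + x' * η / 2) * (2 / η) * r + -(x' * η / 2)) = Q at h5 ⊢
      rw [div_mul_eq_mul_div, div_mul_eq_mul_div, ← add_div, div_eq_one_iff_eq hD1]
      exact h5
    exact h1.add_mul_right_left (C a)
  -- the norm
  have hF1 : C u * α₂ * N - C τ ^ 2 * (α₂ + C (4 / u) * α₁) * g.map (algebraMap F K) =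
      C lam * ((X - C (η / 2)) * G) := by
    rw [← hG, hN', h.gK]
    apply Polynomial.funext
    intro r
    unfold eF
    rw [hα₂, hα₁]
    simp only [eval_add, eval_mul, eval_C, eval_X, eval_ofNat, eval_sub, eval_pow, eval_one]
    rw [← hl2]
    ring
  have hnR : nR f g (α₁ + C a * α₂) α₂ (C u * α₂ * N) (C τ) =
      (C u * α₂ * N * C lam * G) * (X - C (η / 2)) := by
    have h44 : (C u : K[X]) * C (4 / u) = 4 := by
      rw [← C_mul, mul_div_cancel₀ _ hu0]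
      rfl
    have h1 : nR f g (α₁ + C a * α₂) α₂ (C u * α₂ * N) (C τ) = (C u * α₂ * N) *
        (C u * α₂ * N - C τ ^ 2 * (α₂ + C (4 / u) * α₁) * g.map (algebraMap F K)) := by
      rw [nR, hhh]
      linear_combination (-(α₂ * N * C τ ^ 2 * α₁ * g.map (algebraMap F K))) * h44.symm
    rw [h1, hF1]
    ring
  have hn0 : nR f g (α₁ + C a * α₂) α₂ (C u * α₂ * N) (C τ) ≠ 0 :=
    nR_ne hsq (Or.inr (C_ne_zero.2 hτ0))
  -- values at `y`
  have hY : algebraMap K Ω y = algebraMap K Ω (η / 2) := by rw [hy2]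
  have hv2 : α₂.eval (η / 2) = lam := by
    rw [hα₂']
    simp only [eval_add, eval_mul, eval_C, eval_X]
    field_simp
    ring
  have hv1 : α₁.eval (η / 2) = lam * x' := by
    rw [hα₁, heA₁]
    simp only [eval_add, eval_mul, eval_C, eval_X]
    field_simp
    ring
  have hv3 : N.eval (η / 2) ≠ 0 := by
    have h1 : N.eval (η / 2) = lam ^ 2 * (x' ^ 2 - 4 * q) := by
      rw [hN, eval_sub, eval_mul, eval_mul, eval_pow, eval_pow, hv1, hv2, eval_C, eval_ofNat]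
      ring
    rw [h1]
    exact mul_ne_zero (pow_ne_zero 2 hlam) hD0
  have hGy : G.eval (η / 2) ≠ 0 := by
    intro h0
    have h1 := hGr (algebraMap K Ω (η / 2)) (by
      rw [aeval_algebraMap_apply_eq_algebraMap_eval, h0, map_zero])
    rw [← hY] at h1
    exact absurd hy (not_lt.2 h1)
  refine rel_clK hcop hsq hn0 hs ?_ ?_ ?_
  · rw [hY, aeval_algebraMap_apply_eq_algebraMap_eval, aeval_algebraMap_apply_eq_algebraMap_eval,
      ← map_mul, eval_add, eval_mul, eval_C, hv1, hv2, hxe]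
    congr 1
    ring
  · have h1 : rootMultiplicity (algebraMap K Ω y)
        ((nR f g (α₁ + C a * α₂) α₂ (C u * α₂ * N) (C τ)).map (algebraMap K Ω)) = 1 := by
      have h2 : rootMultiplicity (algebraMap K Ω y)
          ((nR f g (α₁ + C a * α₂) α₂ (C u * α₂ * N) (C τ)).map (algebraMap K Ω)) =
          rootMultiplicity (η / 2) (nR f g (α₁ + C a * α₂) α₂ (C u * α₂ * N) (C τ)) := by
        rw [hY]
        exact (eq_rootMultiplicity_map (algebraMap K Ω).injective _).symm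
      have h3 : C u * α₂ * N * C lam * G ≠ 0 := by
        intro h0
        rw [hnR, h0, zero_mul] at hn0
        exact hn0 rfl
      rw [h2, hnR, rootMultiplicity_mul (by rw [← hnR]; exact hn0), rootMultiplicity_X_sub_C_self,
        rootMultiplicity_eq_zero]
      rw [IsRoot.def, eval_mul, eval_mul, eval_mul, eval_mul, eval_C, eval_C, hv2]
      exact mul_ne_zero (mul_ne_zero (mul_ne_zero (mul_ne_zero hu0 hlam) hv3) hlam) hGy
    rw [h1]
    exact odd_one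
  · intro x₁ y₁ w₁ hs₁ hxy hod hne₁
    have hy₁ : algebraMap K Ω y ≠ y₁ := hne₁ AlgEquiv.refl
    have hroot : aeval y₁ (nR f g (α₁ + C a * α₂) α₂ (C u * α₂ * N) (C τ)) = 0 := by
      by_contra h0
      have h1 : rootMultiplicity y₁
          ((nR f g (α₁ + C a * α₂) α₂ (C u * α₂ * N) (C τ)).map (algebraMap K Ω)) = 0 :=
        rootMultiplicity_eq_zero (by
          rw [IsRoot.def, eval_map_algebraMap]
          exact h0)
      rw [h1] at hod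
      exact absurd hod (by decide)
    have hα0 : aeval y₁ α₂ ≠ 0 := by
      intro h0
      rw [h0, zero_mul] at hxy
      obtain ⟨s, t, hst⟩ := hcop
      have h1 := congrArg (aeval y₁) hst
      rw [map_add, map_mul, map_mul, ← hxy, h0, mul_zero, mul_zero, add_zero, map_one] at h1
      exact zero_ne_one h1
    have hh0 : aeval y₁ (hh f g (α₁ + C a * α₂) α₂) ≠ 0 := by
      rw [hh_aeval f g hxy, ← hs₁.1]
      exact mul_ne_zero (pow_ne_zero 4 hα0) (pow_ne_zero 2 hs₁.2)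
    rw [hhh, map_mul, map_mul, map_mul] at hh0
    have hN0 : aeval y₁ N ≠ 0 := right_ne_zero_of_mul (left_ne_zero_of_mul hh0)
    have huΩ : algebraMap K Ω u ≠ 0 := (_root_.map_ne_zero _).2 hu0
    have hlΩ : algebraMap K Ω lam ≠ 0 := (_root_.map_ne_zero _).2 hlam
    rw [hnR, map_mul, map_mul, map_mul, map_mul, map_mul, aeval_C, aeval_C, map_sub, aeval_X,
      aeval_C, ← hY] at hroot
    rcases mul_eq_zero.1 hroot with h1 | h1
    · have h2 : aeval y₁ G = 0 := by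
        refine (mul_eq_zero.1 h1).resolve_left ?_
        exact mul_ne_zero (mul_ne_zero (mul_ne_zero huΩ hα0) hN0) hlΩ
      exact h.t1 hU hs₁ (hGr y₁ h2)
    · exact absurd (sub_eq_zero.1 h1).symm hy₁

end PE
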