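import Mathlib

/-! Infinitely many squarefree values of `t (1 + 864 t)`. -/

open Finset

namespace PE

private theorem inf_card {S q a b : ℕ} (hq : 0 < q) (hb : Nat.Coprime q b) :
    #{s ∈ Ico S (2 * S) | q ∣ a + b * s} ≤ S / q + 1 := by
  rw [← card_range (S / q + 1)]
  refine card_le_card_of_injOn (fun s => (s - S) / q) ?_ ?_
  · intro s hs
    simp only [coe_filter, mem_Ico, Set.mem_ofPred_eq] at hs
    simp only [coe_range, Set.mem_Iio]
    exact Nat.lt_succ_of_le (Nat.div_le_div_right (by omega))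
  · intro s hs s' hs' h
    simp only [coe_filter, mem_Ico, Set.mem_ofPred_eq] at hs hs'
    simp only at h
    wlog hle : s ≤ s' generalizing s s'
    · exact (this h.symm hs' hs (by omega)).symm
    have h1 : q ∣ b * (s' - s) := by
      have h2 := Nat.dvd_sub hs'.2 hs.2
      have h3 : a + b * s' - (a + b * s) = b * (s' - s) := by
        rw [Nat.add_sub_add_left, Nat.mul_sub]
      rwa [h3] at h2
    have h2 : q ∣ s' - s := hb.dvd_of_dvd_mul_left h1
    obtain ⟨k, hk⟩ := h2
    have h3 : s' - S = (s - S) + q * k := by omega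
    rw [h3, Nat.add_mul_div_left _ _ hq] at h
    have hk0 : k = 0 := by omega
    rw [hk0, mul_zero] at hk
    omega

private theorem inf_sum {k : ℕ} (hk : 4 ≤ k) :
    ∑ n ∈ Ico 5 (k + 1), (1 : ℝ) / (n : ℝ) ^ 2 ≤ 1 / 4 - 1 / k := by
  induction k, hk using Nat.le_induction with
  | base => simp
  | succ k hk ih =>
    rw [sum_Ico_succ_top (by omega)]
    have h1 : (0 : ℝ) < k := by exact_mod_cast (by omega : 0 < k)
    have h2 : (1 : ℝ) / ((k + 1 : ℕ) : ℝ) ^ 2 ≤ 1 / k - 1 / ((k + 1 : ℕ) : ℝ) := by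
      push_cast
      rw [div_sub_div _ _ h1.ne' (by positivity), div_le_div_iff₀ (by positivity) (by positivity)]
      nlinarith
    linarith

/-- There are arbitrarily large `s` such that `t = 1 + 4356 s` and `1 + 864 t` are squarefree. -/
theorem inf_sqf (N : ℕ) : ∃ s : ℕ, N ≤ s ∧ Squarefree (1 + 4356 * s) ∧
    Squarefree (865 + 3763584 * s) := by
  classical
  by_contra hcon
  push Not at hcon
  obtain ⟨S, hS, hS9⟩ : ∃ S : ℕ, N ≤ S ∧ 1000000000 ≤ S :=
    ⟨N + 1000000000, Nat.le_add_right _ _, Nat.le_add_left _ _⟩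
  set P : ℕ := Nat.sqrt (865 + 3763584 * (2 * S)) with hP
  have hP1 : P * P ≤ 865 + 3763584 * (2 * S) := Nat.sqrt_le _
  have hP2 : 4 * P < S := by
    by_contra h
    push Not at h
    have h1 : S * S ≤ 4 * P * (4 * P) := Nat.mul_le_mul h h
    have h2 : 1000000000 * S ≤ S * S := Nat.mul_le_mul hS9 le_rfl
    nlinarith
  have hP4 : 4 ≤ P := by
    rw [hP, Nat.le_sqrt]
    omega
  have hsub : Ico S (2 * S) ⊆ ((Ico 5 (P + 1)).filter Nat.Prime).biUnion fun p =>
      {s ∈ Ico S (2 * S) | p ^ 2 ∣ 1 + 4356 * s} ∪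
        {s ∈ Ico S (2 * S) | p ^ 2 ∣ 865 + 3763584 * s} := by
    intro s hs
    have hs' := mem_Ico.1 hs
    simp only [mem_biUnion, mem_filter, mem_Ico, mem_union]
    have key : ∃ p : ℕ, p.Prime ∧ (p ^ 2 ∣ 1 + 4356 * s ∨ p ^ 2 ∣ 865 + 3763584 * s) := by
      by_cases h1 : Squarefree (1 + 4356 * s)
      · have h2 := hcon s (by omega) h1
        rw [Nat.squarefree_iff_prime_squarefree] at h2
        push Not at h2
        obtain ⟨p, hp, hd⟩ := h2
        exact ⟨p, hp, Or.inr (by rwa [sq])⟩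
      · rw [Nat.squarefree_iff_prime_squarefree] at h1
        push Not at h1
        obtain ⟨p, hp, hd⟩ := h1
        exact ⟨p, hp, Or.inl (by rwa [sq])⟩
    obtain ⟨p, hp, hd⟩ := key
    have hle : p ^ 2 ≤ 865 + 3763584 * (2 * S) := by
      rcases hd with hd | hd
      · exact (Nat.le_of_dvd (by omega) hd).trans (by omega)
      · exact (Nat.le_of_dvd (by omega) hd).trans (by omega)
    have hpP : p ≤ P := by
      rw [hP, Nat.le_sqrt]
      rwa [sq] at hle
    have hp2 : p ≠ 2 := by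
      rintro rfl
      omega
    have hp3 : p ≠ 3 := by
      rintro rfl
      omega
    have hp4 : p ≠ 4 := by
      rintro rfl
      exact absurd hp (by norm_num)
    have hp5 : 5 ≤ p := by
      have := hp.two_le
      omega
    refine ⟨p, ⟨⟨hp5, by omega⟩, hp⟩, ?_⟩
    rcases hd with hd | hd
    · exact Or.inl ⟨⟨hs'.1, hs'.2⟩, hd⟩
    · exact Or.inr ⟨⟨hs'.1, hs'.2⟩, hd⟩
  have hcard := (card_le_card hsub).trans card_biUnion_le
  have hbd : ∀ p ∈ (Ico 5 (P + 1)).filter Nat.Prime,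
      #({s ∈ Ico S (2 * S) | p ^ 2 ∣ 1 + 4356 * s} ∪
        {s ∈ Ico S (2 * S) | p ^ 2 ∣ 865 + 3763584 * s}) ≤ 2 * (S / p ^ 2 + 1) := by
    intro p hp
    simp only [mem_filter, mem_Ico] at hp
    obtain ⟨⟨h5, -⟩, hpp⟩ := hp
    by_cases h11 : p = 11
    · subst h11
      have e1 : {s ∈ Ico S (2 * S) | 11 ^ 2 ∣ 1 + 4356 * s} = ∅ := by
        refine filter_eq_empty_iff.2 fun s _ => ?_
        omega
      have e2 : {s ∈ Ico S (2 * S) | 11 ^ 2 ∣ 865 + 3763584 * s} = ∅ := by
        refine filter_eq_empty_iff.2 fun s _ => ?_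
        omega
      rw [e1, e2]
      simp
    · have hc1 : Nat.Coprime (p ^ 2) 4356 := by
        refine Nat.Coprime.pow_left 2 ((Nat.Prime.coprime_iff_not_dvd hpp).2 fun h => ?_)
        have h1 : p ∣ 2 ^ 2 * 3 ^ 2 * 11 ^ 2 := by norm_num; exact h
        rcases (Nat.Prime.dvd_mul hpp).1 h1 with h1 | h1
        · rcases (Nat.Prime.dvd_mul hpp).1 h1 with h1 | h1
          · have := Nat.le_of_dvd (by norm_num) (hpp.dvd_of_dvd_pow h1)
            omega
          · have := Nat.le_of_dvd (by norm_num) (hpp.dvd_of_dvd_pow h1)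
            omega
        · exact h11 ((Nat.prime_dvd_prime_iff_eq hpp (by norm_num)).1 (hpp.dvd_of_dvd_pow h1))
      have hc2 : Nat.Coprime (p ^ 2) 3763584 := by
        refine Nat.Coprime.pow_left 2 ((Nat.Prime.coprime_iff_not_dvd hpp).2 fun h => ?_)
        have h1 : p ∣ 2 ^ 7 * 3 ^ 5 * 11 ^ 2 := by norm_num; exact h
        rcases (Nat.Prime.dvd_mul hpp).1 h1 with h1 | h1
        · rcases (Nat.Prime.dvd_mul hpp).1 h1 with h1 | h1
          · have := Nat.le_of_dvd (by norm_num) (hpp.dvd_of_dvd_pow h1)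
            omega
          · have := Nat.le_of_dvd (by norm_num) (hpp.dvd_of_dvd_pow h1)
            omega
        · exact h11 ((Nat.prime_dvd_prime_iff_eq hpp (by norm_num)).1 (hpp.dvd_of_dvd_pow h1))
      refine (card_union_le _ _).trans ?_
      have := inf_card (S := S) (a := 1) (pow_pos hpp.pos 2) hc1
      have := inf_card (S := S) (a := 865) (pow_pos hpp.pos 2) hc2
      omega
  have h3 := hcard.trans (sum_le_sum hbd)
  rw [Nat.card_Ico] at h3
  have h4 : ∑ p ∈ (Ico 5 (P + 1)).filter Nat.Prime, 2 * (S / p ^ 2 + 1) ≤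
      ∑ p ∈ Ico 5 (P + 1), 2 * (S / p ^ 2 + 1) :=
    sum_le_sum_of_subset (filter_subset _ _)
  have h5 : (∑ p ∈ Ico 5 (P + 1), 2 * (S / p ^ 2 + 1) : ℕ) < S := by
    have h6 : ((∑ p ∈ Ico 5 (P + 1), 2 * (S / p ^ 2 + 1) : ℕ) : ℝ) < S := by
      push_cast
      calc ∑ p ∈ Ico 5 (P + 1), 2 * (((S / p ^ 2 : ℕ) : ℝ) + 1)
          ≤ ∑ p ∈ Ico 5 (P + 1), (2 * S * (1 / (p : ℝ) ^ 2) + 2) := by
            refine sum_le_sum fun p hp => ?_
            have : ((S / p ^ 2 : ℕ) : ℝ) ≤ S / (p : ℝ) ^ 2 := by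
              have := @Nat.cast_div_le ℝ _ _ _ S (p ^ 2)
              push_cast at this
              exact this
            rw [mul_one_div]
            have h7 : 2 * (S : ℝ) / (p : ℝ) ^ 2 = 2 * (S / (p : ℝ) ^ 2) := by ring
            rw [h7]
            linarith
        _ = 2 * S * ∑ p ∈ Ico 5 (P + 1), (1 / (p : ℝ) ^ 2) + 2 * (P - 4) := by
            rw [sum_add_distrib, ← mul_sum, sum_const, Nat.card_Ico, nsmul_eq_mul]
            have : ((P + 1 - 5 : ℕ) : ℝ) = P - 4 := by
              rw [show P + 1 - 5 = P - 4 by omega, Nat.cast_sub hP4]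
              norm_num
            rw [this]
            ring
        _ ≤ 2 * S * (1 / 4) + 2 * P := by
            have h8 := inf_sum hP4
            have h9 : (0 : ℝ) ≤ 1 / P := by positivity
            have h10 : (0 : ℝ) ≤ 2 * S := by positivity
            have h11 := mul_le_mul_of_nonneg_left (h8.trans (sub_le_self _ h9)) h10
            linarith
        _ < S := by
            have h12 : (4 * P : ℝ) < S := by exact_mod_cast hP2
            linarith
    exact_mod_cast h6
  omega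

end PE
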