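import Pool.Agent.Lib.MP_f80667_ag.Kf.Ok2
import Pool.Agent.Lib.MP_f80667_ag.Kf.Inf

/-! Infinitely many pairs of curves which satisfy `Ok₂`. -/

namespace PE

/-- For infinitely many natural numbers `t` the curves `y² + x y = x³ + 2 t` and `y² + y = x³ - x²` satisfy `Ok₂`. -/
theorem ok₂_inf (N : ℕ) : ∃ t : ℕ, N < t ∧ Ok₂ ⟨1, 0, 0, 0, 2 * t⟩ ⟨0, -1, 1, 0, 0⟩ := by
  obtain ⟨s, hs, h1, h2⟩ := inf_sqf N
  have ht : (865 + 3763584 * s : ℕ) = 1 + 864 * (1 + 4356 * s) := by ring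
  have hA : (⟨1, 0, 0, 0, 2 * ((1 + 4356 * s : ℕ) : ℤ)⟩ : WeierstrassCurve ℤ).Δ =
      -(2 * ((1 + 4356 * s : ℕ) : ℤ) * ((865 + 3763584 * s : ℕ) : ℤ)) := by
    rw [ht]
    simp only [WeierstrassCurve.Δ, WeierstrassCurve.b₂, WeierstrassCurve.b₄, WeierstrassCurve.b₆,
      WeierstrassCurve.b₈]
    push_cast
    ring
  have hB : (⟨0, -1, 1, 0, 0⟩ : WeierstrassCurve ℤ).Δ = -11 := by
    simp only [WeierstrassCurve.Δ, WeierstrassCurve.b₂, WeierstrassCurve.b₄, WeierstrassCurve.b₆,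
      WeierstrassCurve.b₈]
    norm_num
  refine ⟨1 + 4356 * s, by omega, ?_, ?_, ?_⟩
  · rw [hA, hB]
    have h3 : -(2 * ((1 + 4356 * s : ℕ) : ℤ) * ((865 + 3763584 * s : ℕ) : ℤ)) * -11 =
        ((22 * ((1 + 4356 * s) * (865 + 3763584 * s)) : ℕ) : ℤ) := by
      push_cast
      ring
    rw [h3, Int.squarefree_natCast]
    have c1 : Nat.Coprime (1 + 4356 * s) (865 + 3763584 * s) := by
      rw [ht]
      exact (Nat.coprime_add_mul_right_right _ _ _).2 (Nat.coprime_one_right _)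
    have c2 : Nat.Coprime 22 (1 + 4356 * s) := by
      have h4 : 1 + 4356 * s = 1 + 22 * (198 * s) := by ring
      rw [h4]
      exact (Nat.coprime_add_mul_left_right _ _ _).2 (Nat.coprime_one_right _)
    have c3 : Nat.Coprime 22 (865 + 3763584 * s) := by
      have h4 : 865 + 3763584 * s = 7 + 22 * (39 + 171072 * s) := by ring
      rw [h4]
      exact (Nat.coprime_add_mul_left_right _ _ _).2 (by norm_num)
    refine (Nat.squarefree_mul (Nat.Coprime.mul_right c2 c3)).2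
      ⟨?_, (Nat.squarefree_mul c1).2 ⟨h1, h2⟩⟩
    have : (22 : ℕ) = 2 * 11 := rfl
    rw [this]
    exact (Nat.squarefree_mul (by norm_num)).2
      ⟨Nat.prime_two.prime.squarefree, (by norm_num : Nat.Prime 11).prime.squarefree⟩
  · rw [hA, even_neg]
    exact ⟨((1 + 4356 * s : ℕ) : ℤ) * ((865 + 3763584 * s : ℕ) : ℤ), by ring⟩
  · exact Even.zero

end PE
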