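import Pool.Agent.Lib.MP_f80667_ag.Pe.Kn

/-!
Points of the surface `f(x) s² = g(y) t²`, `f`, `g` separable of degree three.

* `C3 f`: `f` is separable of degree three.
* `oo`: the point `x = ∞`, `y = ∞`, `(s : t) = (1 : 0)`.
* `Sp f g x y w`: `w² = f(x) g(y) ≠ 0`; `kp f g x y w`: the point with these coordinates, `(s : t) = (w : f(x))`.
* `Bp p`: one of the two forms vanishes at `p`.
-/

open ZC BE Polynomial

namespace PE

/-- `f` is separable of degree three. -/
class C3 {F : Type} [Field F] (f : F[X]) : Prop where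
  sep : f.Separable
  deg : f.natDegree = 3

section pts

variable {F : Type} [Field F] (f g : F[X]) [C3 f] [C3 g] {L : Type} [Field L] [Algebra F L]

omit [C3 g] in
theorem qf_one (x : L) : qf f (x, 1) = aeval x f := by
  unfold qf
  rw [aeval_eq_sum_range' (n := 5) (by rw [C3.deg (f := f)]; norm_num)]
  refine Finset.sum_congr rfl fun i _ => ?_
  dsimp only
  rw [one_pow, mul_one, Algebra.smul_def]

omit [C3 g] in
theorem qf_inf (a : L) : qf f (a, 0) = 0 := by
  unfold qf
  refine Finset.sum_eq_zero fun i hi => ?_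
  have h5 := Finset.mem_range.1 hi
  dsimp only
  rcases Nat.lt_or_ge i 4 with h | h
  · rw [zero_pow (by omega), mul_zero]
  · have h4 : i = 4 := by omega
    rw [h4, coeff_eq_zero_of_natDegree_lt (by rw [C3.deg (f := f)]; norm_num), map_zero, zero_mul,
      zero_mul]

variable (L) in
/-- The point `x = ∞`, `y = ∞`, `(s : t) = (1 : 0)`. -/
noncomputable def oo : (Kv f g).pt L :=
  Quotient.mk _ ⟨(1, 0), (1, 0), (1, 0), fun h => one_ne_zero (congrArg Prod.fst h),
    fun h => one_ne_zero (congrArg Prod.fst h), fun h => one_ne_zero (congrArg Prod.fst h), by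
      rw [qf_inf, qf_inf, zero_mul, zero_mul]⟩

omit [C3 f] [C3 g] in
variable {f g} in
/-- `w² = f(x) g(y) ≠ 0`. -/
def Sp (f g : F[X]) (x y w : L) : Prop := w ^ 2 = aeval x f * aeval y g ∧ w ≠ 0

open Classical in
/-- The point with the coordinates `x`, `y`, `(s : t) = (w : f(x))`. -/
noncomputable def kp (x y w : L) : (Kv f g).pt L :=
  if h : Sp f g x y w then
    Quotient.mk _ ⟨(x, 1), (y, 1), (w, aeval x f), fun h => one_ne_zero (congrArg Prod.snd h),
      fun h => one_ne_zero (congrArg Prod.snd h), fun h' => h.2 (congrArg Prod.fst h'), by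
        dsimp only
        rw [qf_one, qf_one, h.1]
        ring⟩
  else oo f g L

/-- One of the two forms vanishes. -/
def Bp (p : (Kv f g).pt L) : Prop :=
  ∃ P : Kc f g L, p = Quotient.mk _ P ∧ (qf f P.x = 0 ∨ qf g P.y = 0)

variable {f g}

omit [C3 f] [C3 g] in
theorem Sp.fx {x y w : L} (h : Sp f g x y w) : aeval x f ≠ 0 := by
  intro h0
  have := h.1
  rw [h0, zero_mul] at this
  exact h.2 (pow_eq_zero_iff two_ne_zero |>.1 this)

omit [C3 f] [C3 g] in
theorem Sp.gy {x y w : L} (h : Sp f g x y w) : aeval y g ≠ 0 := by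
  intro h0
  have := h.1
  rw [h0, mul_zero] at this
  exact h.2 (pow_eq_zero_iff two_ne_zero |>.1 this)

omit [C3 f] [C3 g] in
theorem Sp.neg {x y w : L} (h : Sp f g x y w) : Sp f g x y (-w) :=
  ⟨by rw [neg_sq, h.1], neg_ne_zero.2 h.2⟩

omit [C3 f] [C3 g] in
theorem Sp.swap {x y w : L} (h : Sp f g x y w) : Sp g f y x w :=
  ⟨by rw [h.1, mul_comm], h.2⟩

omit [C3 f] [C3 g] in
theorem sp_map {M : Type} [Field M] [Algebra F M] (σ : L →ₐ[F] M) {x y w : L} :
    Sp f g (σ x) (σ y) (σ w) ↔ Sp f g x y w := by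
  have inj : Function.Injective σ := σ.toRingHom.injective
  unfold Sp
  rw [aeval_algHom_apply, aeval_algHom_apply, ← map_pow, ← map_mul, inj.eq_iff,
    _root_.map_ne_zero]

/-- Another representative. -/
theorem kp_eq {x y w a b c : L} (h : Sp f g x y w) (ha : a ≠ 0) (hb : b ≠ 0) (P : Kc f g L)
    (hx : P.x = (a * x, a)) (hy : P.y = (b * y, b))
    (ht : P.t.1 * (a ^ 2 * aeval x f) = P.t.2 * (b ^ 2 * w)) :
    (Quotient.mk _ P : (Kv f g).pt L) = kp f g x y w := by
  have hw := h.2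
  have hbw : b ^ 2 * w ≠ 0 := mul_ne_zero (pow_ne_zero 2 hb) hw
  unfold kp
  rw [dif_pos h]
  refine (Quotient.sound (s := Kc.sd f g L) ?_).symm
  have h2 : P.t.2 = P.t.1 * (a ^ 2 * aeval x f) / (b ^ 2 * w) := by
    rw [eq_div_iff hbw, ht]
  refine ⟨a, b, P.t.1 / (b ^ 2 * w), ha, hb, ?_, ?_, ?_, ?_⟩
  · refine div_ne_zero (fun h0 => P.ht ?_) hbw
    refine Prod.ext h0 ?_
    rw [h2, h0, zero_mul, zero_div]
    rfl
  · rw [hx, mul_one]
  · rw [hy, mul_one]
  · refine Prod.ext ?_ ?_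
    · dsimp only
      field_simp
    · dsimp only
      rw [h2]
      field_simp

theorem oo_map {M : Type} [Field M] [Algebra F M] (σ : L →ₐ[F] M) :
    (Kv f g).map σ (oo f g L) = oo f g M := by
  refine Quotient.sound (s := Kc.sd f g M) ⟨1, 1, 1, one_ne_zero, one_ne_zero, one_ne_zero, ?_, ?_, ?_⟩
  · simp [Kc.mp]
  · simp [Kc.mp]
  · simp [Kc.mp]

theorem kp_map {M : Type} [Field M] [Algebra F M] (σ : L →ₐ[F] M) (x y w : L) :
    (Kv f g).map σ (kp f g x y w) = kp f g (σ x) (σ y) (σ w) := by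
  by_cases h : Sp f g x y w
  · unfold kp
    rw [dif_pos h, dif_pos ((sp_map σ).2 h)]
    refine Quotient.sound (s := Kc.sd f g M) ⟨1, 1, 1, one_ne_zero, one_ne_zero, one_ne_zero,
      ?_, ?_, ?_⟩
    · simp [Kc.mp]
    · simp [Kc.mp]
    · simp [Kc.mp, aeval_algHom_apply]
  · unfold kp
    rw [dif_neg h, dif_neg (fun h' => h ((sp_map σ).1 h')), oo_map]

theorem kp_inj {x y w x' y' w' : L} (h : Sp f g x y w) (h' : Sp f g x' y' w')
    (e : kp f g x y w = kp f g x' y' w') : x = x' ∧ y = y' ∧ w = w' := by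
  unfold kp at e
  rw [dif_pos h, dif_pos h'] at e
  obtain ⟨a, b, c, ha, hb, hc, h1, h2, h3⟩ := Quotient.exact (s := Kc.sd f g L) e
  dsimp only at h1 h2 h3
  have a1 : a = 1 := by
    have := congrArg Prod.snd h1
    dsimp only at this
    rw [mul_one] at this
    exact this.symm
  have b1 : b = 1 := by
    have := congrArg Prod.snd h2
    dsimp only at this
    rw [mul_one] at this
    exact this.symm
  have hx : x = x' := by
    have := congrArg Prod.fst h1
    dsimp only at this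
    rw [a1, one_mul] at this
    exact this.symm
  have hy : y = y' := by
    have := congrArg Prod.fst h2
    dsimp only at this
    rw [b1, one_mul] at this
    exact this.symm
  have c1 : c = 1 := by
    have := congrArg Prod.snd h3
    dsimp only at this
    rw [a1, one_pow, mul_one, ← hx] at this
    have h4 : c * aeval x f = 1 * aeval x f := by rw [one_mul]; exact this.symm
    exact mul_right_cancel₀ h.fx h4
  have hw : w = w' := by
    have := congrArg Prod.fst h3
    dsimp only at this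
    rw [b1, c1, one_pow, mul_one, one_mul] at this
    exact this.symm
  exact ⟨hx, hy, hw⟩

/-- Whether a form vanishes does not depend on the representative. -/
theorem bp_mk {P : Kc f g L} :
    Bp f g (Quotient.mk _ P : (Kv f g).pt L) ↔ (qf f P.x = 0 ∨ qf g P.y = 0) := by
  constructor
  · rintro ⟨Q, e, h⟩
    obtain ⟨a, b, c, ha, hb, hc, h1, h2, h3⟩ := Quotient.exact (s := Kc.sd f g L) e
    rw [h1, h2, qf_mul, qf_mul] at h
    rcases h with h | h
    · exact Or.inl ((mul_eq_zero.1 h).resolve_left (pow_ne_zero 4 ha))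
    · exact Or.inr ((mul_eq_zero.1 h).resolve_left (pow_ne_zero 4 hb))
  · intro h
    exact ⟨P, rfl, h⟩

theorem oo_bp : Bp f g (oo f g L) := by
  exact ⟨_, rfl, Or.inl (qf_inf _ _)⟩

theorem kp_nb {x y w : L} (h : Sp f g x y w) : ¬ Bp f g (kp f g x y w) := by
  unfold kp
  rw [dif_pos h, bp_mk]
  dsimp only
  rw [qf_one, qf_one]
  rintro (h0 | h0)
  · exact h.fx h0
  · exact h.gy h0

/-- A point is a point `kp`, or one of the forms vanishes. -/
theorem kp_or (p : (Kv f g).pt L) : Bp f g p ∨ ∃ x y w : L, Sp f g x y w ∧ p = kp f g x y w := by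
  induction p using Quotient.inductionOn with
  | h P =>
    by_cases hB : Bp f g (Quotient.mk _ P : (Kv f g).pt L)
    · exact Or.inl hB
    refine Or.inr ?_
    rw [bp_mk, not_or] at hB
    obtain ⟨hf, hg⟩ := hB
    have ha : P.x.2 ≠ 0 := by
      intro h0
      apply hf
      have : P.x = (P.x.1, 0) := Prod.ext rfl h0
      rw [this, qf_inf]
    have hb : P.y.2 ≠ 0 := by
      intro h0
      apply hg
      have : P.y = (P.y.1, 0) := Prod.ext rfl h0
      rw [this, qf_inf]
    have hx : P.x = (P.x.2 * (P.x.1 / P.x.2), P.x.2) :=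
      Prod.ext (mul_div_cancel₀ _ ha).symm rfl
    have hy : P.y = (P.y.2 * (P.y.1 / P.y.2), P.y.2) :=
      Prod.ext (mul_div_cancel₀ _ hb).symm rfl
    have ef : qf f P.x = P.x.2 ^ 4 * aeval (P.x.1 / P.x.2) f := by
      rw [← qf_one, ← qf_mul]
      dsimp only
      rw [mul_one, mul_div_cancel₀ _ ha]
    have eg : qf g P.y = P.y.2 ^ 4 * aeval (P.y.1 / P.y.2) g := by
      rw [← qf_one, ← qf_mul]
      dsimp only
      rw [mul_one, mul_div_cancel₀ _ hb]
    have hq := P.eq
    have h2 : P.t.2 ≠ 0 := by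
      intro h0
      rw [h0, zero_pow two_ne_zero, mul_zero] at hq
      have h1 := pow_eq_zero_iff two_ne_zero |>.1 ((mul_eq_zero.1 hq).resolve_left hf)
      exact P.ht (Prod.ext h1 h0)
    have h1 : P.t.1 ≠ 0 := by
      intro h0
      rw [h0, zero_pow two_ne_zero, mul_zero] at hq
      exact h2 (pow_eq_zero_iff two_ne_zero |>.1 ((mul_eq_zero.1 hq.symm).resolve_left hg))
    have hF : aeval (P.x.1 / P.x.2) f ≠ 0 := by
      intro h0
      apply hf
      rw [ef, h0, mul_zero]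
    have hden : P.t.2 * P.y.2 ^ 2 ≠ 0 := mul_ne_zero h2 (pow_ne_zero 2 hb)
    have hs : Sp f g (P.x.1 / P.x.2) (P.y.1 / P.y.2)
        (P.t.1 * (P.x.2 ^ 2 * aeval (P.x.1 / P.x.2) f) / (P.t.2 * P.y.2 ^ 2)) := by
      refine ⟨?_, div_ne_zero (mul_ne_zero h1 (mul_ne_zero (pow_ne_zero 2 ha) hF)) hden⟩
      rw [ef, eg] at hq
      rw [div_pow, div_eq_iff (pow_ne_zero 2 hden)]
      linear_combination (aeval (P.x.1 / P.x.2) f) * hq
    refine ⟨_, _, _, hs, kp_eq (c := 0) hs ha hb P hx hy ?_⟩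
    field_simp

theorem bp_map {M : Type} [Field M] [Algebra F M] (σ : L →ₐ[F] M) {p : (Kv f g).pt L} :
    Bp f g ((Kv f g).map σ p) ↔ Bp f g p := by
  induction p using Quotient.inductionOn with
  | h P =>
    have e : (Kv f g).map σ (Quotient.mk _ P : (Kv f g).pt L)
        = (Quotient.mk _ (P.mp σ) : (Kv f g).pt M) := rfl
    rw [e, bp_mk, bp_mk]
    change (qf f (σ P.x.1, σ P.x.2) = 0 ∨ qf g (σ P.y.1, σ P.y.2) = 0) ↔ _
    rw [qf_map, qf_map, map_eq_zero, map_eq_zero]

end pts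

section act

variable {F : Type} [Field F] {f g : F[X]} [C3 f] [C3 g] {K : Type} [Field K] [Algebra F K]
  {Ω : Type} [Field Ω] [Algebra K Ω] [Algebra F Ω] [IsScalarTower F K Ω]

theorem kp_act (γ : Ω ≃ₐ[K] Ω) (x y w : Ω) :
    γ • kp f g x y w = kp f g (γ x) (γ y) (γ w) :=
  kp_map (γ.restrictScalars F : Ω →ₐ[F] Ω) x y w

theorem oo_act (γ : Ω ≃ₐ[K] Ω) : γ • oo f g Ω = oo f g Ω :=
  oo_map (γ.restrictScalars F : Ω →ₐ[F] Ω)

theorem bp_act (γ : Ω ≃ₐ[K] Ω) {p : (Kv f g).pt Ω} : Bp f g (γ • p) ↔ Bp f g p :=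
  bp_map (γ.restrictScalars F : Ω →ₐ[F] Ω)

omit [C3 f] [C3 g] in
theorem sp_act (γ : Ω ≃ₐ[K] Ω) {x y w : Ω} : Sp f g (γ x) (γ y) (γ w) ↔ Sp f g x y w :=
  sp_map (γ.restrictScalars F : Ω →ₐ[F] Ω)

theorem kp_fix (γ : Ω ≃ₐ[K] Ω) {x y w : Ω} (h : Sp f g x y w) :
    γ • kp f g x y w = kp f g x y w ↔ γ x = x ∧ γ y = y ∧ γ w = w := by
  rw [kp_act]
  constructor
  · intro e
    exact kp_inj ((sp_act γ).2 h) h e
  · rintro ⟨h1, h2, h3⟩
    rw [h1, h2, h3]

end act

end PE
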