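import Pool.Agent.Lib.MP_f80667_ag.Pe.ReA

/-! The real place: the square roots for a curve with negative discriminant. -/

open ZC BE Polynomial IntermediateField IsDedekindDomain NumberField

namespace PE

variable {F : Type} [Field F] {K Ω : Type} [Field K] [CharZero K] [Field Ω] [Algebra K Ω]
  [Algebra F K] [Algebra F Ω] [IsScalarTower F K Ω] [IsAlgClosure K Ω]

omit [CharZero K] [IsAlgClosure K Ω] [Algebra F K] [IsScalarTower F K Ω] [Algebra K Ω] in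
theorem rlA_psi (W : WeierstrassCurve F) (z : Ω) : aeval z W.Ψ₂Sq =
    4 * z ^ 3 + algebraMap F Ω W.b₂ * z ^ 2 + 2 * algebraMap F Ω W.b₄ * z +
      algebraMap F Ω W.b₆ := by
  simp only [WeierstrassCurve.Ψ₂Sq, map_add, map_mul, map_pow, aeval_C, aeval_X, map_ofNat]

/-- A curve with negative discriminant has a point of order two which is not fixed. -/
theorem rlA_root (e : K ≃+* ℝ) (W : WeierstrassCurve F) (h : e (algebraMap F K W.Δ) < 0)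
    {σ : Ω ≃ₐ[K] Ω} (hσ' : ∀ γ : Ω ≃ₐ[K] Ω, γ = 1 ∨ γ = σ) :
    ∃ z : Ω, 4 * z ^ 3 + algebraMap F Ω W.b₂ * z ^ 2 + 2 * algebraMap F Ω W.b₄ * z +
      algebraMap F Ω W.b₆ = 0 ∧ σ z ≠ z := by
  have hcl : IsAlgClosed Ω := IsAlgClosure.isAlgClosed K
  have hch : CharZero Ω := charZero_of_injective_algebraMap (algebraMap K Ω).injective
  have hmem : ∀ x : Ω, σ x = x → ∃ a : K, algebraMap K Ω a = x := fun x hx =>
    lr_bot (mem_of_fix ⊥ fun γ _ => by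
      rcases hσ' γ with rfl | rfl
      · rfl
      · exact hx)
  obtain ⟨e₁, e₂, e₃, k2, k4, k6⟩ := reA_split (algebraMap F Ω W.b₂) (algebraMap F Ω W.b₄)
    (algebraMap F Ω W.b₆)
  have hΔ : algebraMap F Ω W.Δ = 16 * ((e₁ - e₂) * (e₁ - e₃) * (e₂ - e₃)) ^ 2 := by
    have h8 := congrArg (algebraMap F Ω) W.b_relation
    simp only [map_mul, map_sub, map_pow, map_ofNat] at h8
    have hd : algebraMap F Ω W.Δ = -(algebraMap F Ω W.b₂) ^ 2 * algebraMap F Ω W.b₈ -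
        8 * (algebraMap F Ω W.b₄) ^ 3 - 27 * (algebraMap F Ω W.b₆) ^ 2 +
        9 * algebraMap F Ω W.b₂ * algebraMap F Ω W.b₄ * algebraMap F Ω W.b₆ := by
      rw [WeierstrassCurve.Δ]
      simp only [map_mul, map_sub, map_pow, map_ofNat, map_neg, map_add]
    have h8' : algebraMap F Ω W.b₈ = (algebraMap F Ω W.b₂ * algebraMap F Ω W.b₆ -
        (algebraMap F Ω W.b₄) ^ 2) / 4 := by
      rw [eq_div_iff (by norm_num)]
      linear_combination h8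
    rw [hd, h8', k2, k4, k6]
    ring
  by_contra hcon
  push Not at hcon
  obtain ⟨a₁, ha₁⟩ := hmem e₁ (hcon e₁ (by rw [k2, k4, k6]; ring))
  obtain ⟨a₂, ha₂⟩ := hmem e₂ (hcon e₂ (by rw [k2, k4, k6]; ring))
  obtain ⟨a₃, ha₃⟩ := hmem e₃ (hcon e₃ (by rw [k2, k4, k6]; ring))
  have h1 : algebraMap F K W.Δ = 16 * ((a₁ - a₂) * (a₁ - a₃) * (a₂ - a₃)) ^ 2 := by
    apply (algebraMap K Ω).injective
    rw [← IsScalarTower.algebraMap_apply, hΔ]
    simp only [map_mul, map_sub, map_pow, map_ofNat, ha₁, ha₂, ha₃]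
  rw [h1, map_mul, map_pow, map_ofNat] at h
  nlinarith [sq_nonneg (e ((a₁ - a₂) * (a₁ - a₃) * (a₂ - a₃)))]

/-- The roots and the square roots. -/
theorem rlA_half (e : K ≃+* ℝ) (W : WeierstrassCurve F) (h : e (algebraMap F K W.Δ) < 0)
    {c y w : Ω} (hfix : ∀ γ : Ω ≃ₐ[K] Ω, γ c = c ∧ γ y = y ∧ γ w = w) (hw0 : w ≠ 0)
    (hw : w ^ 2 = c * aeval y W.Ψ₂Sq) :
    ∃ ε ρ : Fin 3 → Ω, (∀ z : Ω, aeval z W.Ψ₂Sq = 4 * ((z - ε 0) * (z - ε 1) * (z - ε 2))) ∧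
      (∀ i, ρ i ^ 2 = c * (y - ε i)) ∧ ∀ γ : Ω ≃ₐ[K] Ω,
        ∃ τ : Equiv.Perm (Fin 3), ∀ i, γ (ε i) = ε (τ i) ∧ γ (ρ i) = ρ (τ i) := by
  have hcl : IsAlgClosed Ω := IsAlgClosure.isAlgClosed K
  have hch : CharZero Ω := charZero_of_injective_algebraMap (algebraMap K Ω).injective
  obtain ⟨-, σ, hσ, hσ'⟩ := real_gal (Ω := Ω) e
  have hσσ : σ * σ = 1 := by
    rcases hσ' (σ * σ) with h | h
    · exact h
    · exact absurd (mul_eq_left.1 h) hσ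
  have hss : ∀ x : Ω, σ (σ x) = x := fun x => DFunLike.congr_fun hσσ x
  have hF : ∀ a : F, σ (algebraMap F Ω a) = algebraMap F Ω a := fun a => by
    rw [IsScalarTower.algebraMap_apply F K Ω, AlgEquiv.commutes]
  obtain ⟨z, hz, hzσ⟩ := rlA_root e W h hσ'
  -- the three roots
  have hz' : 4 * (σ z) ^ 3 + algebraMap F Ω W.b₂ * (σ z) ^ 2 + 2 * algebraMap F Ω W.b₄ * σ z +
      algebraMap F Ω W.b₆ = 0 := by
    have h1 := congrArg σ hz
    simpa only [map_add, map_mul, map_pow, map_ofNat, hF, map_zero] using h1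
  set z' : Ω := σ z with hzd
  set e₀ : Ω := -(algebraMap F Ω W.b₂ / 4) - z - z' with he₀
  have hzz : z - z' ≠ 0 := fun h1 => hzσ (sub_eq_zero.1 h1).symm
  have q1 : 4 * (z ^ 2 + z * z' + z' ^ 2) + algebraMap F Ω W.b₂ * (z + z') +
      2 * algebraMap F Ω W.b₄ = 0 := by
    apply mul_left_cancel₀ hzz
    linear_combination hz - hz'
  have k2 : algebraMap F Ω W.b₂ = -4 * (e₀ + z + z') := by
    rw [he₀]
    ring
  have k4 : 2 * algebraMap F Ω W.b₄ = 4 * (e₀ * z + e₀ * z' + z * z') := by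
    linear_combination q1 - (z + z') * k2
  have k6 : algebraMap F Ω W.b₆ = -4 * (e₀ * z * z') := by
    linear_combination hz - z ^ 2 * k2 - z * k4
  have hfac : ∀ u : Ω, aeval u W.Ψ₂Sq = 4 * ((u - e₀) * (u - z) * (u - z')) := by
    intro u
    rw [rlA_psi, k2, k4, k6]
    ring
  have hσe : σ e₀ = e₀ := by
    rw [he₀, map_sub, map_sub, map_neg, map_div₀, hF, map_ofNat, ← hzd, hzd, hss]
    ring
  have hσz' : σ z' = z := hss z
  obtain ⟨hc, hy, hwf⟩ := hfix σ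
  rw [hfac] at hw
  have hc0 : c ≠ 0 := by
    rintro rfl
    rw [zero_mul] at hw
    exact hw0 (pow_eq_zero_iff two_ne_zero |>.1 hw)
  have hyz : y - z ≠ 0 := by
    intro h0
    rw [h0, mul_zero, zero_mul, mul_zero, mul_zero] at hw
    exact hw0 (pow_eq_zero_iff two_ne_zero |>.1 hw)
  have hyz' : y - z' ≠ 0 := by
    intro h0
    rw [h0, mul_zero, mul_zero, mul_zero] at hw
    exact hw0 (pow_eq_zero_iff two_ne_zero |>.1 hw)
  obtain ⟨ρ₁, hρ₁⟩ := IsAlgClosed.exists_pow_nat_eq (c * (y - z)) (n := 2) (by norm_num)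
  have hρ₂ : (σ ρ₁) ^ 2 = c * (y - z') := by
    rw [← map_pow, hρ₁, map_mul, map_sub, hc, hy]
  set ρ₂ : Ω := σ ρ₁ with hρd
  have hσρ₂ : σ ρ₂ = ρ₁ := hss ρ₁
  have n1 : ρ₁ ≠ 0 := by
    intro h0
    rw [h0, zero_pow two_ne_zero] at hρ₁
    exact mul_ne_zero hc0 hyz hρ₁.symm
  have n2 : ρ₂ ≠ 0 := by
    intro h0
    rw [h0, zero_pow two_ne_zero] at hρ₂
    exact mul_ne_zero hc0 hyz' hρ₂.symm
  set ρ₀ : Ω := w * c / (2 * (ρ₁ * ρ₂)) with hρ₀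
  have h20 : (2 : Ω) ≠ 0 := two_ne_zero
  have hρ₀' : ρ₀ ^ 2 = c * (y - e₀) := by
    have h1 : ρ₀ * (2 * (ρ₁ * ρ₂)) = w * c :=
      div_mul_cancel₀ _ (mul_ne_zero h20 (mul_ne_zero n1 n2))
    have h2 : (ρ₀ ^ 2 - c * (y - e₀)) * (4 * (ρ₁ ^ 2 * ρ₂ ^ 2)) = 0 := by
      have h3 : ρ₀ ^ 2 * (4 * (ρ₁ ^ 2 * ρ₂ ^ 2)) = (w * c) ^ 2 := by
        rw [← h1]
        ring
      rw [sub_mul, h3, hρ₁, hρ₂, mul_pow, hw]
      ring
    rcases mul_eq_zero.1 h2 with h3 | h3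
    · exact sub_eq_zero.1 h3
    · exfalso
      have h4 : (4 : Ω) ≠ 0 := by norm_num
      exact mul_ne_zero h4 (mul_ne_zero (pow_ne_zero 2 n1) (pow_ne_zero 2 n2)) h3
  have hσρ₀ : σ ρ₀ = ρ₀ := by
    rw [hρ₀, map_div₀, map_mul, map_mul, map_mul, hwf, hc, hσρ₂, ← hρd, map_ofNat, mul_comm ρ₂]
  refine ⟨![e₀, z, z'], ![ρ₀, ρ₁, ρ₂], hfac, ?_, ?_⟩
  · intro i
    fin_cases i
    · exact hρ₀'
    · exact hρ₁
    · exact hρ₂
  · intro γ
    rcases hσ' γ with rfl | rfl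
    · exact ⟨1, fun i => ⟨rfl, rfl⟩⟩
    · refine ⟨Equiv.swap 1 2, fun i => ?_⟩
      fin_cases i
      · rw [show Equiv.swap (1 : Fin 3) 2 ((fun i => i) ⟨0, by decide⟩) = 0 from rfl]
        exact ⟨hσe, hσρ₀⟩
      · rw [show Equiv.swap (1 : Fin 3) 2 ((fun i => i) ⟨1, by decide⟩) = 2 from rfl]
        exact ⟨rfl, rfl⟩
      · rw [show Equiv.swap (1 : Fin 3) 2 ((fun i => i) ⟨2, by decide⟩) = 1 from rfl]
        exact ⟨hσz', hσρ₂⟩

end PE
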