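import Pool.Agent.Lib.MP_f80667_ag.Kf.Bad

/-!
Twists: over `N` the surface of `f`, `g` is isomorphic to the one of the twisted polynomials `D³ f(X / D)`, `D³ g(X / D)`.

* `Tf D f f'`: `f'` over `N` is the twist of `f`.
* `rho`: the map `((x₀, x₁), (y₀, y₁), t) ↦ ((x₀, D x₁), (y₀, D y₁), t)`.
* `Tw D W V`: the curve `V` over `N` is the twist of `W`.
-/

open ZC BE Polynomial IntermediateField

namespace PE

section rho

variable {F : Type} [Field F] {N : Type} [Field N] [Algebra F N]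

/-- `f' = D³ f(X / D)` in homogeneous form. -/
structure Tf (D : N) (f : F[X]) (f' : N[X]) : Prop where
  ne : D ≠ 0
  eq : ∀ (L : Type) [Field L] [Algebra F L] [Algebra N L] [IsScalarTower F N L] (v : L × L),
    qf f (v.1, algebraMap N L D * v.2) = algebraMap N L D * qf f' v

variable {D : N} {f g : F[X]} {f' g' : N[X]} {L : Type} [Field L] [Algebra F L] [Algebra N L]
  [IsScalarTower F N L]

/-- The map on coordinates. -/
noncomputable def Kc.rho (hf : Tf D f f') (hg : Tf D g g') (P : Kc f' g' L) : Kc f g L where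
  x := (P.x.1, algebraMap N L D * P.x.2)
  y := (P.y.1, algebraMap N L D * P.y.2)
  t := P.t
  hx := by
    intro h
    have h1 : P.x.1 = 0 := congrArg Prod.fst h
    have h2 := (mul_eq_zero.1 (congrArg Prod.snd h)).resolve_left
      ((_root_.map_ne_zero (algebraMap N L)).2 hf.ne)
    exact P.hx (Prod.ext h1 h2)
  hy := by
    intro h
    have h1 : P.y.1 = 0 := congrArg Prod.fst h
    have h2 := (mul_eq_zero.1 (congrArg Prod.snd h)).resolve_left
      ((_root_.map_ne_zero (algebraMap N L)).2 hf.ne)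
    exact P.hy (Prod.ext h1 h2)
  ht := P.ht
  eq := by
    rw [hf.eq, hg.eq, mul_assoc, P.eq, mul_assoc]

theorem Kc.rho_rel (hf : Tf D f f') (hg : Tf D g g') {P Q : Kc f' g' L} (h : P.Rel Q) :
    (P.rho hf hg).Rel (Q.rho hf hg) := by
  obtain ⟨a, b, c, ha, hb, hc, h1, h2, h3⟩ := h
  refine ⟨a, b, c, ha, hb, hc, ?_, ?_, h3⟩
  · change (Q.x.1, algebraMap N L D * Q.x.2) = (a * P.x.1, a * (algebraMap N L D * P.x.2))
    rw [h1]
    exact Prod.ext rfl (mul_left_comm _ _ _)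
  · change (Q.y.1, algebraMap N L D * Q.y.2) = (b * P.y.1, b * (algebraMap N L D * P.y.2))
    rw [h2]
    exact Prod.ext rfl (mul_left_comm _ _ _)

/-- The map of the surfaces. -/
noncomputable def rho (hf : Tf D f f') (hg : Tf D g g') : (Kv f' g').pt L → (Kv f g).pt L :=
  Quotient.map (Kc.rho hf hg) fun _ _ h => Kc.rho_rel hf hg h

theorem Tf.aev [C3 f] [C3 f'] (hf : Tf D f f') (x : L) :
    aeval (algebraMap N L D * x) f' = algebraMap N L D ^ 3 * aeval x f := by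
  have hD : algebraMap N L D ≠ 0 := (_root_.map_ne_zero (algebraMap N L)).2 hf.ne
  have h1 := hf.eq L (algebraMap N L D * x, 1)
  have h2 := qf_mul f (algebraMap N L D) ((x, 1) : L × L)
  dsimp only at h1 h2
  rw [h2, qf_one, qf_one] at h1
  refine mul_left_cancel₀ hD ?_
  rw [← h1]
  ring

/-- The image of a point `kp`. Proof: `kp_eq`. -/
theorem rho_kp [C3 f] [C3 g] [C3 f'] [C3 g'] (hf : Tf D f f') (hg : Tf D g g') {x y w : L}
    (h : Sp f g x y w) :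
    Sp f' g' (algebraMap N L D * x) (algebraMap N L D * y) (algebraMap N L D ^ 3 * w) ∧
    rho hf hg (kp f' g' (algebraMap N L D * x) (algebraMap N L D * y) (algebraMap N L D ^ 3 * w)) =
      kp f g x y w := by
  have hD : algebraMap N L D ≠ 0 := (_root_.map_ne_zero (algebraMap N L)).2 hf.ne
  have hs : Sp f' g' (algebraMap N L D * x) (algebraMap N L D * y) (algebraMap N L D ^ 3 * w) := by
    refine ⟨?_, mul_ne_zero (pow_ne_zero 3 hD) h.2⟩
    rw [hf.aev, hg.aev, mul_pow, h.1]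
    ring
  refine ⟨hs, ?_⟩
  rw [kp, dif_pos hs]
  change (Quotient.mk _ (Kc.rho hf hg _) : (Kv f g).pt L) = _
  refine kp_eq (c := (0 : L)) h hD hD _ ?_ ?_ ?_
  · change (algebraMap N L D * x, algebraMap N L D * 1) = _
    rw [mul_one]
  · change (algebraMap N L D * y, algebraMap N L D * 1) = _
    rw [mul_one]
  · change algebraMap N L D ^ 3 * w * (algebraMap N L D ^ 2 * aeval x f) =
      aeval (algebraMap N L D * x) f' * (algebraMap N L D ^ 2 * w)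
    rw [hf.aev]
    ring

theorem rho_bp [C3 f] [C3 g] [C3 f'] [C3 g'] (hf : Tf D f f') (hg : Tf D g g')
    {p : (Kv f' g').pt L} (h : Bp f' g' p) : Bp f g (rho hf hg p) := by
  obtain ⟨P, rfl, hP⟩ := h
  refine ⟨Kc.rho hf hg P, rfl, ?_⟩
  rcases hP with hP | hP
  · left
    change qf f (P.x.1, algebraMap N L D * P.x.2) = 0
    rw [hf.eq, hP, mul_zero]
  · right
    change qf g (P.y.1, algebraMap N L D * P.y.2) = 0
    rw [hg.eq, hP, mul_zero]

/-- `rho` and the maps over `N`. -/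
theorem rho_map (hf : Tf D f f') (hg : Tf D g g') {M : Type} [Field M] [Algebra F M] [Algebra N M]
    [IsScalarTower F N M] (σ : L →ₐ[N] M) (p : (Kv f' g').pt L) :
    (Kv f g).map (σ.restrictScalars F) (rho hf hg p) = rho hf hg ((Kv f' g').map σ p) := by
  induction p using Quotient.inductionOn with
  | h P =>
    refine Quotient.sound ⟨1, 1, 1, one_ne_zero, one_ne_zero, one_ne_zero, ?_, ?_, ?_⟩
    · change (σ P.x.1, algebraMap N M D * σ P.x.2) =
        (1 * σ P.x.1, 1 * σ (algebraMap N L D * P.x.2))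
      rw [map_mul, AlgHom.commutes, one_mul, one_mul]
    · change (σ P.y.1, algebraMap N M D * σ P.y.2) =
        (1 * σ P.y.1, 1 * σ (algebraMap N L D * P.y.2))
      rw [map_mul, AlgHom.commutes, one_mul, one_mul]
    · change (σ P.t.1, σ P.t.2) = (1 * 1 ^ 2 * σ P.t.1, 1 * 1 ^ 2 * σ P.t.2)
      rw [one_pow, mul_one, one_mul, one_mul]

end rho

section rat

variable {F : Type} [Field F] {N : Type} [Field N] [Algebra F N] {D : N} {f g : F[X]}
  {f' g' : N[X]} {Ω : Type} [Field Ω] [CharZero N] [Algebra F Ω] [Algebra N Ω]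
  [IsScalarTower F N Ω] [IsAlgClosure N Ω]

omit [CharZero N] [IsAlgClosure N Ω] in
theorem rho_rd {E : Type} [Field E] [Algebra N E] (w : Place N E Ω) (D : N) {v : E × E}
    {u : Ω × Ω} (h : Rd w v u) :
    Rd w (v.1, algebraMap N E D * v.2) (u.1, algebraMap N Ω D * u.2) := by
  obtain ⟨h₁, h₂, h3, h4⟩ := h
  refine ⟨h₁, w.V.mul_mem _ _ (w.mem D) h₂, h3, ?_⟩
  have h5 : (⟨algebraMap N E D * v.2, w.V.mul_mem _ _ (w.mem D) h₂⟩ : w.V) =
      ⟨algebraMap N E D, w.mem D⟩ * ⟨v.2, h₂⟩ := rfl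
  change w.res ⟨algebraMap N E D * v.2, _⟩ = _
  rw [h5, map_mul, w.res_k, h4]

/-- Cycles rationally equivalent to `0` over `N`. Proof: the generators `(E, G, x, S, m, y)`: `E` is a field over `F` (through `N`; the two structures of `N`-algebra of `E` agree because of the scalar tower `N N E`), the point `rho x`, the values `rho (y w)`:
the coordinates `(x₀, D x₁)` are primitive at a place if `(x₀, x₁)` are. -/
theorem rho_ratEq (hf : Tf D f f') (hg : Tf D g g') {z : (Kv f' g').pt Ω →₀ ℤ}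
    (hz : z ∈ (Kv f' g').ratEq N Ω) :
    Finsupp.mapDomain (rho hf hg) z ∈ (Kv f g).ratEq N Ω := by
  classical
  have h : (Kv f' g').ratEq N Ω ≤ ((Kv f g).ratEq N Ω).comap
      (Finsupp.mapDomain.addMonoidHom (rho hf hg)) := by
    rw [Vr.ratEq, AddSubgroup.closure_le]
    rintro _ ⟨E, i1, i2, i3, i4, hE, G, x, hG, hx, S, m, y, hS, hv, rfl⟩
    change Finsupp.mapDomain (rho hf hg) _ ∈ (Kv f g).ratEq N Ω
    have i23 : i3 = i2 := by
      refine Algebra.algebra_ext _ _ fun a => ?_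
      exact @IsScalarTower.algebraMap_apply N N E _ _ _ _ i2 i3 i4 a
    subst i23
    let i5 : Algebra F E := ((algebraMap N E).comp (algebraMap F N)).toAlgebra
    have i6 : IsScalarTower F N E := IsScalarTower.of_algebraMap_eq fun _ => rfl
    have i8 : IsScalarTower F N (AlgebraicClosure E) := by
      refine IsScalarTower.of_algebraMap_eq fun a => ?_
      rw [IsScalarTower.algebraMap_apply F E (AlgebraicClosure E),
        IsScalarTower.algebraMap_apply N E (AlgebraicClosure E),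
        ← IsScalarTower.algebraMap_apply F N E]
    rw [Finsupp.mapDomain_finsetSum]
    simp only [Finsupp.mapDomain_single]
    refine AddSubgroup.subset_closure ⟨E, i1, _, i5, i6, hE, G, rho hf hg x, hG, fun σ => ?_, S,
      m, fun w => rho hf hg (y w), hS, fun w hw => ⟨(hv w hw).1, ?_⟩, rfl⟩
    · have h3 := rho_map hf hg (σ.restrictScalars N : AlgebraicClosure E →ₐ[N] AlgebraicClosure E) x
      refine Eq.trans h3 ?_
      exact congrArg (rho hf hg) (hx σ)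
    · obtain ⟨W, h2, h3, P, Q, hP, hQ, r1, r2, r3⟩ := (hv w hw).2
      refine ⟨W, h2, h3, Kc.rho hf hg P, Kc.rho hf hg Q, ?_, ?_, rho_rd W D r1, rho_rd W D r2, r3⟩
      · rw [hP]
        rfl
      · change rho hf hg (y w) = _
        rw [hQ]
        rfl
  exact h hz

end rat

section tw

variable {F : Type} [Field F] {N : Type} [Field N] [Algebra F N]

/-- The twist by `D`. -/
structure Tw (D : N) (W : WeierstrassCurve F) (V : WeierstrassCurve N) : Prop where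
  ne : D ≠ 0
  b₂ : V.b₂ = D * algebraMap F N W.b₂
  b₄ : V.b₄ = D ^ 2 * algebraMap F N W.b₄
  b₆ : V.b₆ = D ^ 3 * algebraMap F N W.b₆

variable {D : N} {W : WeierstrassCurve F} {V : WeierstrassCurve N}

theorem qf_psi {L : Type} [Field L] [Algebra F L] (W : WeierstrassCurve F) (v : L × L) :
    qf W.Ψ₂Sq v = v.2 * (4 * v.1 ^ 3 + algebraMap F L W.b₂ * v.1 ^ 2 * v.2 +
      2 * algebraMap F L W.b₄ * v.1 * v.2 ^ 2 + algebraMap F L W.b₆ * v.2 ^ 3) := by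
  have h0 : W.Ψ₂Sq.coeff 0 = W.b₆ := by
    simp [WeierstrassCurve.Ψ₂Sq]
  have h1 : W.Ψ₂Sq.coeff 1 = 2 * W.b₄ := by
    simp [WeierstrassCurve.Ψ₂Sq, coeff_X_pow, coeff_X, coeff_C]
  have h2 : W.Ψ₂Sq.coeff 2 = W.b₂ := by
    simp [WeierstrassCurve.Ψ₂Sq, coeff_X_pow, coeff_X, coeff_C]
  have h3 : W.Ψ₂Sq.coeff 3 = 4 := by
    simp [WeierstrassCurve.Ψ₂Sq, coeff_X_pow, coeff_X, coeff_C]
  have h4 : W.Ψ₂Sq.coeff 4 = 0 := by
    simp [WeierstrassCurve.Ψ₂Sq, coeff_X_pow, coeff_X, coeff_C]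
  rw [qf]
  simp only [Finset.sum_range_succ, Finset.sum_range_zero, h0, h1, h2, h3, h4, map_mul, map_ofNat,
    map_zero]
  ring

/-- Proof: the coefficients of `Ψ₂Sq = 4 X ^ 3 + b₂ X ^ 2 + 2 b₄ X + b₆`. -/
theorem Tw.tf (h : Tw D W V) : Tf D W.Ψ₂Sq V.Ψ₂Sq := by
  refine ⟨h.ne, fun L _ _ _ _ v => ?_⟩
  rw [qf_psi, qf_psi, h.b₂, h.b₄, h.b₆]
  simp only [map_mul, map_pow, ← IsScalarTower.algebraMap_apply]
  ring

theorem Tw.disc [CharZero N] (h : Tw D W V) : V.Δ = D ^ 6 * algebraMap F N W.Δ := by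
  have h1 := V.b_relation
  have h2 := congrArg (algebraMap F N) W.b_relation
  simp only [map_mul, map_sub, map_pow, map_ofNat] at h2
  rw [h.b₂, h.b₄, h.b₆] at h1
  have h3 : (4 : N) ≠ 0 := by norm_num
  apply mul_left_cancel₀ h3
  rw [WeierstrassCurve.Δ, WeierstrassCurve.Δ, h.b₂, h.b₄, h.b₆]
  simp only [map_mul, map_sub, map_pow, map_ofNat, map_neg, map_add]
  linear_combination (-(D * algebraMap F N W.b₂) ^ 2) * h1 +
    (D ^ 6 * (algebraMap F N W.b₂) ^ 2) * h2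

/-- The Bezout identity of a cubic polynomial. -/
theorem cub_sep {a b c d : F} (h : 9 * a * (b ^ 2 * c ^ 2 - 4 * a * c ^ 3 - 4 * b ^ 3 * d -
    27 * a ^ 2 * d ^ 2 + 18 * a * b * c * d) ≠ 0) :
    (C a * X ^ 3 + C b * X ^ 2 + C c * X + C d).Separable := by
  set k : F := 9 * a * (b ^ 2 * c ^ 2 - 4 * a * c ^ 3 - 4 * b ^ 3 * d -
    27 * a ^ 2 * d ^ 2 + 18 * a * b * c * d) with hk
  have hd : derivative (C a * X ^ 3 + C b * X ^ 2 + C c * X + C d) =
      3 * C a * X ^ 2 + 2 * C b * X + C c := by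
    simp only [derivative_add, derivative_C_mul, derivative_X_pow, derivative_C, derivative_X]
    simp only [map_natCast]
    push_cast
    ring
  have hK : C (k⁻¹) * C k = (1 : F[X]) := by
    rw [← C_mul, inv_mul_cancel₀ h, C_1]
  rw [hk] at hK
  simp only [map_mul, map_sub, map_add, map_pow, map_ofNat] at hK
  rw [Separable, hd]
  generalize C k⁻¹ = κ at hK
  refine ⟨κ * (9 * C a * (3 * C a * ((6 * C a * C c - 2 * C b ^ 2) * X -
    (9 * C a * C d - C b * C c)) + 2 * C b * (6 * C a * C c - 2 * C b ^ 2))),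
    -κ * ((6 * C a * C c - 2 * C b ^ 2) ^ 2 + (3 * C a * X + C b) *
      (3 * C a * ((6 * C a * C c - 2 * C b ^ 2) * X -
      (9 * C a * C d - C b * C c)) + 2 * C b * (6 * C a * C c - 2 * C b ^ 2))), ?_⟩
  linear_combination hK

/-- Proof: the discriminant of `Ψ₂Sq` is `16 Δ`; see `exists_qm`, `gq_sep`, or `WeierstrassCurve.twoTorsionPolynomial_disc`. -/
instance c3_psi [CharZero F] (W : WeierstrassCurve F) [W.IsElliptic] : C3 W.Ψ₂Sq := by
  have hΔ : W.Δ ≠ 0 := W.isUnit_Δ.ne_zero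
  refine ⟨?_, W.natDegree_Ψ₂Sq (by norm_num)⟩
  refine cub_sep (a := 4) (b := W.b₂) (c := 2 * W.b₄) (d := W.b₆) ?_
  have h1 := W.b_relation
  have h2 : 9 * 4 * (W.b₂ ^ 2 * (2 * W.b₄) ^ 2 - 4 * 4 * (2 * W.b₄) ^ 3 - 4 * W.b₂ ^ 3 * W.b₆ -
      27 * 4 ^ 2 * W.b₆ ^ 2 + 18 * 4 * W.b₂ * (2 * W.b₄) * W.b₆) = 576 * W.Δ := by
    rw [WeierstrassCurve.Δ]
    linear_combination (144 * W.b₂ ^ 2) * h1
  rw [h2]
  exact mul_ne_zero (by norm_num) hΔ

end tw

/-- The symbols over `K` of the curves `W₁`, `W₂` over `F` are divisible by two. -/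
def T2 {F : Type} [Field F] (K Ω : Type) [Field K] [CharZero K] [Field Ω] [Algebra F K]
    [Algebra K Ω] [Algebra F Ω] [IsScalarTower F K Ω] [IsAlgClosure K Ω]
    (W₁ W₂ : WeierstrassCurve F) [W₁.IsElliptic] [W₂.IsElliptic] : Prop :=
  ∀ x ∈ (scX (K := K) (Ω := Ω) (W₁ := W₁) (W₂ := W₂) ((Xv W₁ W₂).ratEq K Ω) le_rfl).T,
    ∃ y ∈ (scX (K := K) (Ω := Ω) (W₁ := W₁) (W₂ := W₂) ((Xv W₁ W₂).ratEq K Ω) le_rfl).T,
      x = 2 • y

section pts

variable {M : Type} [Field M] {L : Type} [Field L] [Algebra M L]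

/-- The identity as a change of coordinates. -/
private noncomputable def twvQ (V : WeierstrassCurve M) : Qm V.Ψ₂Sq V where
  p := 1
  q := 0
  r := 0
  s := 1
  c := 1
  det := by simp
  hc := one_ne_zero
  eq := fun L _ i₁ i₂ i₃ v => by
    have hs : i₁ = i₂ := Algebra.algebra_ext _ _ fun x =>
      @IsScalarTower.algebraMap_apply M M L _ _ _ (Algebra.id M) i₂ i₁ i₃ x
    subst hs
    simp only [map_one, map_zero, one_mul, zero_mul, add_zero, zero_add, one_pow]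
    exact qf_psi V v

/-- The point with given coordinates. -/
private theorem twv_pt [CharZero M] [CharZero L] [IsAlgClosed L] {V : WeierstrassCurve M}
    [V.IsElliptic] {X E : L} (h : E ^ 2 = aeval X V.Ψ₂Sq) :
    ∃ P : Pt V L, xh P = (X, 1) ∧ eta P = E := by
  have hv : ((X, 1) : L × L) ≠ 0 := fun h0 => one_ne_zero (congrArg Prod.snd h0)
  obtain ⟨P, a, -, hP⟩ := xh_surj (W := V) hv
  have hx : xh P = (X, 1) := by
    cases P with
    | zero =>
      have h1 : (1 : L) = a * 0 := congrArg Prod.snd hP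
      rw [mul_zero] at h1
      exact absurd h1 one_ne_zero
    | some x' y' hn =>
      have h1 : (1 : L) = a * 1 := congrArg Prod.snd hP
      rw [mul_one] at h1
      have h2 : X = a * x' := congrArg Prod.fst hP
      rw [← h1, one_mul] at h2
      change ((x', 1) : L × L) = (X, 1)
      rw [h2]
  have h1 : eta P ^ 2 = E ^ 2 := by
    rw [h, eta_sq, hx, ← qf_one]
    exact (qf_psi V ((X, 1) : L × L)).symm
  rcases sq_eq_sq_iff_eq_or_eq_neg.1 h1 with h2 | h2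
  · exact ⟨P, hx, h2⟩
  · exact ⟨-P, by rw [xh_neg, hx], by rw [eta_neg, h2, neg_neg]⟩

/-- The image of the point. -/
private theorem twv_kpi [CharZero M] {V₁ V₂ : WeierstrassCurve M} [V₁.IsElliptic] [V₂.IsElliptic]
    {X Y Z : L} (h : Sp V₁.Ψ₂Sq V₂.Ψ₂Sq X Y Z) {P : Pt V₁ L} {Q : Pt V₂ L} (hP : xh P = (X, 1))
    (hQ : xh Q = (Y, 1)) (hne : eta P ≠ 0)
    (he : eta Q * aeval X V₁.Ψ₂Sq = eta P * Z) :
    kpi (twvQ V₁) (twvQ V₂) (P, Q) = kp V₁.Ψ₂Sq V₂.Ψ₂Sq X Y Z := by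
  classical
  have h1 : ∀ (V : WeierstrassCurve M) (v : L × L), (twvQ V).mv v = v := by
    intro V v
    unfold Qm.mv
    change (algebraMap M L 1 * v.1 + algebraMap M L 0 * v.2,
      algebraMap M L 0 * v.1 + algebraMap M L 1 * v.2) = v
    rw [map_one, map_zero, one_mul, zero_mul, zero_mul, one_mul, add_zero, zero_add]
  refine kp_eq (c := (0 : L)) h one_ne_zero one_ne_zero (kpc (twvQ V₁) (twvQ V₂) (P, Q)) ?_ ?_ ?_
  · change (twvQ V₁).mv (xh P) = _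
    rw [h1, hP, one_mul]
  · change (twvQ V₂).mv (xh Q) = _
    rw [h1, hQ, one_mul]
  · have h2 : (kpc (twvQ V₁) (twvQ V₂) (P, Q)).t = (eta Q, eta P) := by
      change kt (twvQ V₁) (twvQ V₂) (P, Q) = _
      rw [kt, if_neg (fun h0 => hne h0.1)]
      change (algebraMap M L 1 * eta Q, algebraMap M L 1 * eta P) = _
      rw [map_one, one_mul, one_mul]
    rw [h2, one_pow, one_mul, one_mul]
    exact he

/-- The points with one coordinate `0` are bad. -/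
private theorem twv_bad [CharZero M] {V₁ V₂ : WeierstrassCurve M} [V₁.IsElliptic] [V₂.IsElliptic]
    (P : Pt V₁ L × Pt V₂ L) (h : P.1 = 0 ∨ P.2 = 0) :
    Bp V₁.Ψ₂Sq V₂.Ψ₂Sq (kpi (twvQ V₁) (twvQ V₂) P) := by
  refine ⟨kpc (twvQ V₁) (twvQ V₂) P, rfl, ?_⟩
  have e1 : qf V₁.Ψ₂Sq (kpc (twvQ V₁) (twvQ V₂) P).x =
      (algebraMap M L (twvQ V₁).c * eta P.1) ^ 2 := (twvQ V₁).sq P.1
  have e2 : qf V₂.Ψ₂Sq (kpc (twvQ V₁) (twvQ V₂) P).y =
      (algebraMap M L (twvQ V₂).c * eta P.2) ^ 2 := (twvQ V₂).sq P.2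
  rcases h with h | h
  · left
    rw [e1, h]
    change (algebraMap M L (twvQ V₁).c * 0) ^ 2 = 0
    rw [mul_zero, zero_pow two_ne_zero]
  · right
    rw [e2, h]
    change (algebraMap M L (twvQ V₂).c * 0) ^ 2 = 0
    rw [mul_zero, zero_pow two_ne_zero]

end pts

section up

variable {F : Type} [Field F] {f g : F[X]} [C3 f] [C3 g] {K : Type} [Field K] [CharZero K]
  [Algebra F K] {Ω : Type} [Field Ω] [Algebra K Ω] [Algebra F Ω] [IsScalarTower F K Ω]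
  [IsAlgClosure K Ω]

/-- From `N` to `K`. -/
private theorem twv_up (N : IntermediateField K Ω) [FiniteDimensional K N] [IsScalarTower F N Ω]
    {p : (Kv f g).pt Ω} (hst : MulAction.stabilizer (Ω ≃ₐ[K] Ω) p ≤ N.fixingSubgroup)
    (hp : Tp f g N p) : Tp f g K p := by
  classical
  have hac : IsAlgClosure N Ω := ⟨IsAlgClosure.isAlgClosed K, inferInstance⟩
  have hSf : (MulAction.stabilizer (Ω ≃ₐ[K] Ω) p).FiniteIndex := opn_fin _ (kv_stab p)
  have hNf : (MulAction.stabilizer (Ω ≃ₐ[N] Ω) p).FiniteIndex := opn_fin _ (kv_stab (K := N) p)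
  have hs : MulAction.stabilizer N.fixingSubgroup p =
      (MulAction.stabilizer (Ω ≃ₐ[K] Ω) p).subgroupOf N.fixingSubgroup := by
    ext δ
    rw [Subgroup.mem_subgroupOf]
    exact Iff.rfl
  have hHU : (MulAction.stabilizer N.fixingSubgroup p).FiniteIndex := by
    rw [hs]
    exact inferInstance
  have hinv : ∀ δ ∈ MulAction.stabilizer (Ω ≃ₐ[K] Ω) p,
      Finsupp.mapDomain (fun x => δ • x) (Finsupp.single p (1 : ℤ)) = Finsupp.single p 1 := by
    intro δ hδ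
    rw [Finsupp.mapDomain_single, MulAction.mem_stabilizer_iff.1 hδ]
  have hkey : tq (Ω ≃ₐ[K] Ω) p = trG ((Kv f g).pt Ω) N.fixingSubgroup
      (trG ((Kv f g).pt Ω) (MulAction.stabilizer N.fixingSubgroup p) (Finsupp.single p 1)) := by
    unfold tq
    rw [trG_tr hSf hst hinv]
    congr 1
    have hHU' := hHU
    rw [hs] at hHU' ⊢
    rw [trG_apply hHU']
    rfl
  have horb : ∀ z : (Kv f g).pt Ω, z ∈ MulAction.orbit N.fixingSubgroup p ↔
      z ∈ MulAction.orbit (Ω ≃ₐ[N] Ω) p := by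
    intro z
    constructor
    · rintro ⟨δ, hδ⟩
      exact ⟨IntermediateField.fixingSubgroupEquiv N δ, hδ⟩
    · rintro ⟨γ, hγ⟩
      exact ⟨⟨γ.restrictScalars K, sia_mem_fix N γ⟩, hγ⟩
  have heq : trG ((Kv f g).pt Ω) (MulAction.stabilizer N.fixingSubgroup p)
      (Finsupp.single p (1 : ℤ)) = tq (Ω ≃ₐ[N] Ω) p := by
    unfold tq
    ext z
    rw [trG_single_apply _ _ hHU, trG_single_apply _ _ hNf]
    by_cases h : z ∈ MulAction.orbit N.fixingSubgroup p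
    · rw [if_pos h, if_pos ((horb z).1 h)]
    · rw [if_neg h, if_neg (fun h' => h ((horb z).2 h'))]
  have h1 := tr_R2 N hp
  rw [← heq, ← hkey] at h1
  exact h1

end up

/-- The push-forward of a difference. -/
private theorem twv_sub {A B : Type} (κ : A → B) (a b : A →₀ ℤ) :
    Finsupp.mapDomain κ (a - 2 • b) = Finsupp.mapDomain κ a - 2 • Finsupp.mapDomain κ b := by
  have e := map_sub (Finsupp.mapDomain.addMonoidHom (M := ℤ) κ) a (2 • b)
  rw [map_nsmul] at e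
  exact e

section base

variable {F : Type} [Field F] [CharZero F] {N : Type} [Field N] [CharZero N]
  [Algebra F N] {Ω : Type} [Field Ω] [Algebra N Ω] [Algebra F Ω] [IsScalarTower F N Ω]
  [IsAlgClosure N Ω] {W₁ W₂ : WeierstrassCurve F} [W₁.IsElliptic] [W₂.IsElliptic]

/-- The case `N = K`. -/
private theorem twv_base {D : N} {V₁ V₂ : WeierstrassCurve N} [V₁.IsElliptic] [V₂.IsElliptic]
    (h₁ : Tw D W₁ V₁) (h₂ : Tw D W₂ V₂) (hT : T2 N Ω V₁ V₂)
    {x y w r : Ω} (h : Sp W₁.Ψ₂Sq W₂.Ψ₂Sq x y w)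
    (hM : ∀ γ : Ω ≃ₐ[N] Ω, γ x = x → γ y = y → γ w = w → γ r = r)
    (hr : aeval x W₁.Ψ₂Sq = algebraMap N Ω D * r ^ 2) :
    Tp W₁.Ψ₂Sq W₂.Ψ₂Sq N (kp W₁.Ψ₂Sq W₂.Ψ₂Sq x y w) := by
  classical
  have hcl : IsAlgClosed Ω := IsAlgClosure.isAlgClosed N
  have hch : CharZero Ω := charZero_of_injective_algebraMap (algebraMap N Ω).injective
  obtain ⟨d, hd⟩ : ∃ d : Ω, d = algebraMap N Ω D := ⟨_, rfl⟩
  have hd0 : d ≠ 0 := by
    rw [hd]
    exact (_root_.map_ne_zero (algebraMap N Ω)).2 h₁.ne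
  have hγd : ∀ γ : Ω ≃ₐ[N] Ω, γ d = d := fun γ => by rw [hd]; exact γ.commutes D
  have hr0 : r ≠ 0 := by
    intro h0
    apply h.fx
    rw [hr, h0, zero_pow two_ne_zero, mul_zero]
  obtain ⟨hs', hrho⟩ := rho_kp (L := Ω) h₁.tf h₂.tf h
  rw [← hd] at hs' hrho hr
  obtain ⟨p, hp⟩ : ∃ p, p = kp V₁.Ψ₂Sq V₂.Ψ₂Sq (d * x) (d * y) (d ^ 3 * w) := ⟨_, rfl⟩
  rw [← hp] at hrho
  have hfX : aeval (d * x) V₁.Ψ₂Sq = d ^ 3 * aeval x W₁.Ψ₂Sq := by
    have := h₁.tf.aev x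
    rwa [← hd] at this
  have hgY : aeval (d * y) V₂.Ψ₂Sq = d ^ 3 * aeval y W₂.Ψ₂Sq := by
    have := h₂.tf.aev y
    rwa [← hd] at this
  -- the points of the curves
  obtain ⟨P, hP1, hP2⟩ := twv_pt (V := V₁) (X := d * x) (E := d ^ 2 * r) (by
    rw [hfX, hr]
    ring)
  obtain ⟨Q, hQ1, hQ2⟩ := twv_pt (V := V₂) (X := d * y) (E := d * w / r) (by
    rw [hgY, div_pow, mul_pow, h.1, hr]
    field_simp)
  have hne : eta P ≠ 0 := by
    rw [hP2]
    exact mul_ne_zero (pow_ne_zero 2 hd0) hr0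
  have hkp : kpi (twvQ V₁) (twvQ V₂) (P, Q) = p := by
    rw [hp]
    refine twv_kpi hs' hP1 hQ1 hne ?_
    rw [hP2, hQ2, hfX, hr]
    field_simp
  -- the Galois group
  have hfix : ∀ γ : Ω ≃ₐ[N] Ω, γ • p = p → γ x = x ∧ γ y = y ∧ γ w = w := by
    intro γ hγ
    rw [hp, kp_fix γ hs', map_mul, map_mul, map_mul, map_pow, hγd] at hγ
    exact ⟨mul_left_cancel₀ hd0 hγ.1, mul_left_cancel₀ hd0 hγ.2.1,
      mul_left_cancel₀ (pow_ne_zero 3 hd0) hγ.2.2⟩
  obtain ⟨M, hMf, hMe⟩ := exists_fix (kv_stab (K := N) p)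
  have hmem : ∀ γ ∈ M.fixingSubgroup, γ x = x ∧ γ y = y ∧ γ w = w ∧ γ r = r := by
    intro γ hγ
    rw [hMe, MulAction.mem_stabilizer_iff] at hγ
    obtain ⟨h1, h2, h3⟩ := hfix γ hγ
    exact ⟨h1, h2, h3, hM γ h1 h2 h3⟩
  have hFP : Fx M P := by
    intro γ hγ
    obtain ⟨h1, h2, h3, h4⟩ := hmem γ hγ
    rw [Pt.smul_def]
    refine xh_eta ?_ ?_
    · rw [xh_map, hP1]
      change (γ (d * x), γ 1) = _
      rw [map_mul, hγd, h1, map_one]
    · rw [eta_map, hP2]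
      change γ (d ^ 2 * r) = _
      rw [map_mul, map_pow, hγd, h4]
  have hFQ : Fx M Q := by
    intro γ hγ
    obtain ⟨h1, h2, h3, h4⟩ := hmem γ hγ
    rw [Pt.smul_def]
    refine xh_eta ?_ ?_
    · rw [xh_map, hQ1]
      change (γ (d * y), γ 1) = _
      rw [map_mul, hγd, h2, map_one]
    · rw [eta_map, hQ2]
      change γ (d * w / r) = _
      rw [map_div₀, map_mul, hγd, h3, h4]
  -- the symbol
  obtain ⟨y₀, hy₀, hxy⟩ := hT _ (AddSubgroup.subset_closure ⟨M, P, Q, hMf, hFP, hFQ, rfl⟩)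
  obtain ⟨z', hz', -, -, hzy⟩ := scX_mem (K := N) (Ω := Ω) (W₁ := V₁) (W₂ := V₂)
    ((Xv V₁ V₂).ratEq N Ω) le_rfl hy₀
  have hrat : trG (Pt V₁ Ω × Pt V₂ Ω) M.fixingSubgroup (tau P Q) - 2 • z' ∈
      (Xv V₁ V₂).ratEq N Ω := by
    let R : AddSubgroup (Pt V₁ Ω × Pt V₂ Ω →₀ ℤ) := (Xv V₁ V₂).ratEq N Ω
    let z₀ : Pt V₁ Ω × Pt V₂ Ω →₀ ℤ := z'
    have h5 : QuotientAddGroup.mk' R (trG (Pt V₁ Ω × Pt V₂ Ω) M.fixingSubgroup (tau P Q) -
        2 • z₀) = 0 := by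
      rw [map_sub, map_nsmul, sub_eq_zero]
      exact hxy.trans (congrArg (fun x => 2 • x) hzy.symm)
    exact (QuotientAddGroup.eq_zero_iff (N := R) _).1 h5
  have h1 := rho_ratEq h₁.tf h₂.tf (kpi_ratEq (twvQ V₁) (twvQ V₂) hrat)
  rw [← Finsupp.mapDomain_comp] at h1
  -- the map from the product to the surface
  obtain ⟨κ, hκ⟩ : ∃ κ : Pt V₁ Ω × Pt V₂ Ω → (Kv W₁.Ψ₂Sq W₂.Ψ₂Sq).pt Ω,
    κ = rho h₁.tf h₂.tf ∘ kpi (twvQ V₁) (twvQ V₂) := ⟨_, rfl⟩
  rw [← hκ] at h1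
  have hκa : ∀ (γ : Ω ≃ₐ[N] Ω) (R : Pt V₁ Ω × Pt V₂ Ω), κ (γ • R) = γ • κ R := by
    intro γ R
    rw [hκ]
    have e1 := kpi_map (twvQ V₁) (twvQ V₂) (γ : Ω →ₐ[N] Ω) R
    have e2 := rho_map h₁.tf h₂.tf (γ : Ω →ₐ[N] Ω) (kpi (twvQ V₁) (twvQ V₂) R)
    refine Eq.trans ?_ e2.symm
    exact congrArg (rho h₁.tf h₂.tf) e1.symm
  have hκp : κ (P, Q) = kp W₁.Ψ₂Sq W₂.Ψ₂Sq x y w := by
    rw [hκ]
    change rho h₁.tf h₂.tf (kpi (twvQ V₁) (twvQ V₂) (P, Q)) = _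
    rw [hkp, hrho]
  have hκb : ∀ R : Pt V₁ Ω × Pt V₂ Ω, R.1 = 0 ∨ R.2 = 0 → Bp W₁.Ψ₂Sq W₂.Ψ₂Sq (κ R) := by
    intro R hR
    rw [hκ]
    exact rho_bp h₁.tf h₂.tf (twv_bad R hR)
  obtain ⟨B, hB⟩ : ∃ B : (Kv W₁.Ψ₂Sq W₂.Ψ₂Sq).pt Ω →₀ ℤ, B = Finsupp.single (κ (P, 0)) 1 +
    Finsupp.single (κ (0, Q)) 1 - Finsupp.single (κ (0, 0)) 1 := ⟨_, rfl⟩
  have hH : M.fixingSubgroup.FiniteIndex := opn_fin _ (opn_fix M)
  have htau : Finsupp.mapDomain κ (tau P Q) =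
      Finsupp.single (kp W₁.Ψ₂Sq W₂.Ψ₂Sq x y w) 1 - B := by
    have e : Finsupp.mapDomain κ (tau P Q) =
      Finsupp.mapDomain.addMonoidHom (M := ℤ) κ (tau P Q) := rfl
    rw [e, tau, map_add, map_sub, map_sub, Finsupp.mapDomain.addMonoidHom_apply,
      Finsupp.mapDomain.addMonoidHom_apply, Finsupp.mapDomain.addMonoidHom_apply,
      Finsupp.mapDomain.addMonoidHom_apply, Finsupp.mapDomain_single, Finsupp.mapDomain_single,
      Finsupp.mapDomain_single, Finsupp.mapDomain_single, hκp, hB]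
    abel
  have hstab : M.fixingSubgroup =
      MulAction.stabilizer (Ω ≃ₐ[N] Ω) (kp W₁.Ψ₂Sq W₂.Ψ₂Sq x y w) := by
    rw [hMe]
    ext γ
    rw [MulAction.mem_stabilizer_iff, MulAction.mem_stabilizer_iff, kp_fix γ h]
    refine ⟨hfix γ, fun h3 => ?_⟩
    rw [hp, kp_fix γ hs', map_mul, map_mul, map_mul, map_pow, hγd, h3.1, h3.2.1, h3.2.2]
    exact ⟨rfl, rfl, rfl⟩
  have htr : Finsupp.mapDomain κ (trG (Pt V₁ Ω × Pt V₂ Ω) M.fixingSubgroup (tau P Q)) =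
      tq (Ω ≃ₐ[N] Ω) (kp W₁.Ψ₂Sq W₂.Ψ₂Sq x y w) -
        trG ((Kv W₁.Ψ₂Sq W₂.Ψ₂Sq).pt Ω) M.fixingSubgroup B := by
    rw [sib_map hκa hH, htau, map_sub, tq, ← hstab]
  have hBR : trG ((Kv W₁.Ψ₂Sq W₂.Ψ₂Sq).pt Ω) M.fixingSubgroup B ∈
      R2 W₁.Ψ₂Sq W₂.Ψ₂Sq N Ω := by
    refine tr_all (fun z => opn_fin _ (kv_stab z)) hH (fun γ hγ => ?_) fun z hz => ?_
    · have e0 : ∀ R : Pt V₁ Ω × Pt V₂ Ω, γ • R = R → γ • κ R = κ R := fun R hR => by
        rw [← hκa, hR]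
      have e1 : γ • κ (P, 0) = κ (P, 0) := e0 _ (Prod.ext (hFP γ hγ) (smul_zero γ))
      have e2 : γ • κ (0, Q) = κ (0, Q) := e0 _ (Prod.ext (smul_zero γ) (hFQ γ hγ))
      have e3 : γ • κ (0, 0) = κ (0, 0) := e0 _ (Prod.ext (smul_zero γ) (smul_zero γ))
      have e : Finsupp.mapDomain (fun x => γ • x) B =
        Finsupp.mapDomain.addMonoidHom (M := ℤ)
          (fun x : (Kv W₁.Ψ₂Sq W₂.Ψ₂Sq).pt Ω => γ • x) B := rfl
      rw [e, hB, map_sub, map_add, Finsupp.mapDomain.addMonoidHom_apply,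
        Finsupp.mapDomain.addMonoidHom_apply, Finsupp.mapDomain.addMonoidHom_apply,
        Finsupp.mapDomain_single, Finsupp.mapDomain_single, Finsupp.mapDomain_single, e1, e2, e3]
    · by_cases c1 : κ (P, 0) = z
      · rw [← c1]
        exact bad_tp (hκb _ (Or.inr rfl))
      · by_cases c2 : κ (0, Q) = z
        · rw [← c2]
          exact bad_tp (hκb _ (Or.inl rfl))
        · by_cases c3 : κ (0, 0) = z
          · rw [← c3]
            exact bad_tp (hκb _ (Or.inl rfl))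
          · exfalso
            apply hz
            rw [hB, Finsupp.sub_apply, Finsupp.add_apply, Finsupp.single_apply,
              Finsupp.single_apply, Finsupp.single_apply, if_neg c1, if_neg c2, if_neg c3,
              add_zero, sub_zero]
  have hcyc : Finsupp.mapDomain κ z' ∈ (Kv W₁.Ψ₂Sq W₂.Ψ₂Sq).cyc N Ω := by
    intro σ
    let α : Pt V₁ Ω × Pt V₂ Ω → Pt V₁ Ω × Pt V₂ Ω := (Xv V₁ V₂).act σ
    have e1 : (Kv W₁.Ψ₂Sq W₂.Ψ₂Sq).act σ ∘ κ = κ ∘ α := funext fun R => (hκa σ R).symm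
    have e2 : Finsupp.mapDomain α z' = z' := hz'.1 σ
    rw [← Finsupp.mapDomain_comp, e1, Finsupp.mapDomain_comp, e2]
  have hfin : Finsupp.mapDomain κ (trG (Pt V₁ Ω × Pt V₂ Ω) M.fixingSubgroup (tau P Q) - 2 • z') =
      tq (Ω ≃ₐ[N] Ω) (kp W₁.Ψ₂Sq W₂.Ψ₂Sq x y w) -
        trG ((Kv W₁.Ψ₂Sq W₂.Ψ₂Sq).pt Ω) M.fixingSubgroup B - 2 • Finsupp.mapDomain κ z' := by
    rw [← htr]
    exact twv_sub κ _ z'
  have h2 : tq (Ω ≃ₐ[N] Ω) (kp W₁.Ψ₂Sq W₂.Ψ₂Sq x y w) =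
      Finsupp.mapDomain κ (trG (Pt V₁ Ω × Pt V₂ Ω) M.fixingSubgroup (tau P Q) - 2 • z') +
        trG ((Kv W₁.Ψ₂Sq W₂.Ψ₂Sq).pt Ω) M.fixingSubgroup B + 2 • Finsupp.mapDomain κ z' := by
    rw [hfin]
    abel
  change tq (Ω ≃ₐ[N] Ω) (kp W₁.Ψ₂Sq W₂.Ψ₂Sq x y w) ∈ R2 W₁.Ψ₂Sq W₂.Ψ₂Sq N Ω
  rw [h2]
  exact add_mem (add_mem (r2_ratEq h1) hBR) (r2_two hcyc)

end base

variable {F : Type} [Field F] [CharZero F] {K : Type} [Field K] [CharZero K]
  [Algebra F K] {Ω : Type} [Field Ω] [Algebra K Ω] [Algebra F Ω] [IsScalarTower F K Ω]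
  [IsAlgClosure K Ω] {W₁ W₂ : WeierstrassCurve F} [W₁.IsElliptic] [W₂.IsElliptic]

/-- **From symbols of the twisted curves to the surface.** The symbols of `V₁`, `V₂` over `N` are divisible by two; `f(x) = D r²`, `N` and `r` are in the field of the point. Proof: let `M` be the fixed field of the stabilizer of the point, `N ≤ M`, `Q₁`, `Q₂` the identities (`exists_qmK`).
`P` is the point of `V₁` with `x`-coordinate `D x` and `eta P = D² r`, `Q` the point of `V₂` with `x`-coordinate `D y` and `eta Q = w D / r` (`D³ g(y) = D³ w² / (D r²)`); both are invariant under the automorphisms over `M`. `rho (kpi Q₁ Q₂ (P, Q)) = kp x y w` (`kp_eq`), `kpi (P, 0)`, `kpi (0, Q)`,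
`kpi (0, 0)` are bad points. The symbol `{P, Q}` over `M` is `2 y` with `y` the class of a cycle `z'` of degree `0` over `N` (`scX_mem`); apply `kpi_ratEq` (`F = M = K = N` there), `rho_ratEq` and then the trace from `N` to `K` (`tr_ratEqK`, `tr_R2`); the traces of the bad points are in `R2` (`bad_tp`, `tr_all`). -/
theorem tw_tp (N : IntermediateField K Ω) [FiniteDimensional K N] [IsScalarTower F N Ω]
    [IsAlgClosure N Ω] {D : N}
    {V₁ V₂ : WeierstrassCurve N} [V₁.IsElliptic] [V₂.IsElliptic] (h₁ : Tw D W₁ V₁)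
    (h₂ : Tw D W₂ V₂)
    (hT : T2 N Ω V₁ V₂)
    {x y w r : Ω} (h : Sp W₁.Ψ₂Sq W₂.Ψ₂Sq x y w)
    (hM : ∀ γ : Ω ≃ₐ[K] Ω, γ x = x → γ y = y → γ w = w → γ ∈ N.fixingSubgroup ∧ γ r = r)
    (hr : aeval x W₁.Ψ₂Sq = algebraMap N Ω D * r ^ 2) :
    Tp W₁.Ψ₂Sq W₂.Ψ₂Sq K (kp W₁.Ψ₂Sq W₂.Ψ₂Sq x y w) := by
  refine twv_up N (fun γ hγ => ?_) (twv_base h₁ h₂ hT h (fun γ hx hy hw => ?_) hr)
  · rw [MulAction.mem_stabilizer_iff, kp_fix γ h] at hγ
    exact (hM γ hγ.1 hγ.2.1 hγ.2.2).1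
  · exact (hM (γ.restrictScalars K) hx hy hw).2

end PE
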