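import Pool.Agent.Lib.MP_f80667_ag.Kf.Sw
import Pool.Agent.Lib.MP_f80667_ag.Kf.Tw
import Pool.Agent.Lib.MP_f80667_ag.Pe.Re
import Pool.Agent.Lib.MP_f80667_ag.Kf.RlA
import Pool.Agent.Lib.MP_f80667_ag.Pe.GlNA

/-! The real place. -/

open ZC BE Polynomial IntermediateField

namespace PE

variable {F : Type} [Field F] [CharZero F] {K : Type} [Field K] [CharZero K]
  [Algebra F K] {Ω : Type} [Field Ω] [Algebra K Ω] [Algebra F Ω] [IsScalarTower F K Ω]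
  [IsAlgClosure K Ω] {W₁ W₂ : WeierstrassCurve F} [W₁.IsElliptic] [W₂.IsElliptic]

/-- The real points. Proof: `half_tp`: let `γ` be the complex conjugation (`real_gal` in `Be/LR.lean`); `4 x³ + b₂ x² + 2 b₄ x + b₆` of `W₂` has one real root `e 0` and the conjugate roots `e 1`, `e 2 = γ (e 1)` (its discriminant is `16 Δ < 0`; see `re_tor` in `Pe/Re.lean`). `ρ 1 ^ 2 = f(x) (y - e 1)`, `ρ 2 = γ (ρ 1)`, `ρ 0 ^ 2 = f(x) (y - e 0)`: this is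
positive because `w² = 4 f(x) (y - e 0) (y - e 1) (y - e 2)` and `(y - e 1) (y - e 2) = |y - e 1|²`, so `ρ 0` is real. -/
theorem rl_y (e : K ≃+* ℝ) (h : e (algebraMap F K W₂.Δ) < 0) {x y w : Ω}
    (hs : Sp W₁.Ψ₂Sq W₂.Ψ₂Sq x y w) (hfix : ∀ γ : Ω ≃ₐ[K] Ω, γ x = x ∧ γ y = y ∧ γ w = w) :
    Tp W₁.Ψ₂Sq W₂.Ψ₂Sq K (kp W₁.Ψ₂Sq W₂.Ψ₂Sq x y w) := by
  have hF : ∀ (γ : Ω ≃ₐ[K] Ω) (a : F), γ (algebraMap F Ω a) = algebraMap F Ω a := fun γ a => by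
    rw [IsScalarTower.algebraMap_apply F K Ω, AlgEquiv.commutes]
  obtain ⟨ε, ρ, h1, h2, h3⟩ := rlA_half e W₂ h (c := aeval x W₁.Ψ₂Sq) (y := y) (w := w)
    (fun γ => ⟨by
      rw [rlA_psi, map_add, map_add, map_add, map_mul, map_mul, map_mul, map_mul, map_pow, map_pow,
        hF, hF, hF, (hfix γ).1, map_ofNat, map_ofNat], (hfix γ).2⟩) hs.2 hs.1
  exact half_tp hs ε ρ h1 h2 fun γ _ _ _ => h3 γ

theorem rl_x (e : K ≃+* ℝ) (h : e (algebraMap F K W₁.Δ) < 0) {x y w : Ω}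
    (hs : Sp W₁.Ψ₂Sq W₂.Ψ₂Sq x y w) (hfix : ∀ γ : Ω ≃ₐ[K] Ω, γ x = x ∧ γ y = y ∧ γ w = w) :
    Tp W₁.Ψ₂Sq W₂.Ψ₂Sq K (kp W₁.Ψ₂Sq W₂.Ψ₂Sq x y w) :=
  tp_swap hs (rl_y e h hs.swap fun γ => ⟨(hfix γ).2.1, (hfix γ).1, (hfix γ).2.2⟩)

/-- The trace from the trivial subgroup of a finite group. -/
private theorem rl_bot {Γ X : Type} [Group Γ] [Finite Γ] [MulAction Γ X] (z : X →₀ ℤ) :
    trG X (⊥ : Subgroup Γ) z = ∑ᶠ γ : Γ, Finsupp.mapDomain (fun x => γ • x) z := by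
  rw [trG_apply inferInstance]
  refine finsum_eq_of_bijective (fun q : Γ ⧸ (⊥ : Subgroup Γ) => (q.out : Γ)) ⟨?_, ?_⟩ fun q => rfl
  · intro a b h
    have h1 : (a.out : Γ) = b.out := h
    rw [← QuotientGroup.out_eq' a, ← QuotientGroup.out_eq' b, h1]
  · intro γ
    refine ⟨(γ : Γ ⧸ (⊥ : Subgroup Γ)), ?_⟩
    have h1 := QuotientGroup.out_eq' (γ : Γ ⧸ (⊥ : Subgroup Γ))
    have h2 : ((γ : Γ ⧸ (⊥ : Subgroup Γ)).out : Γ)⁻¹ * γ ∈ (⊥ : Subgroup Γ) :=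
      QuotientGroup.eq.1 h1
    exact inv_mul_eq_one.1 (Subgroup.mem_bot.1 h2)

/-- **The real place.** Proof: `inv_gen`: `z` is a combination of the `tq p`. If `p` is invariant under the complex conjugation: `tq p` is in `R2` (`kp_or`, `bad_tp`, `rl_x`, `rl_y`, `kp_fix`). Otherwise the stabilizer is trivial and `tq p` is in `nrm`. `2 c` is in `nrm` for all cycles `c` over `K` (`inv_gen`; `2 [p]` is the norm of an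
invariant point `p`). So `z = r + n + k [O]` with `r` in `ratEq`, `n` in `nrm`; the degree of `n` is even, so `k` is even and `k [O]` is in `nrm`. -/
theorem rl_allT (e : K ≃+* ℝ) (hT : ∀ x y w : Ω, Sp W₁.Ψ₂Sq W₂.Ψ₂Sq x y w →
      (∀ γ : Ω ≃ₐ[K] Ω, γ x = x ∧ γ y = y ∧ γ w = w) →
      Tp W₁.Ψ₂Sq W₂.Ψ₂Sq K (kp W₁.Ψ₂Sq W₂.Ψ₂Sq x y w))
    {z : (Kv W₁.Ψ₂Sq W₂.Ψ₂Sq).pt Ω →₀ ℤ} (hz : z ∈ (Kv W₁.Ψ₂Sq W₂.Ψ₂Sq).D0 K Ω) :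
    z ∈ (Kv W₁.Ψ₂Sq W₂.Ψ₂Sq).ratEq K Ω ⊔ (Kv W₁.Ψ₂Sq W₂.Ψ₂Sq).nrm K Ω := by
  classical
  obtain ⟨hfr, σ, hσ, hσ'⟩ := real_gal (Ω := Ω) e
  have hfd : FiniteDimensional K Ω := Module.finite_of_finrank_pos (by rw [hfr]; norm_num)
  have hgal : IsGalois K Ω := IsAlgClosure.isGalois K Ω
  have hc2 : Nat.card (Ω ≃ₐ[K] Ω) = 2 := by rw [IsGalois.card_aut_eq_finrank, hfr]
  have hft := Fintype.ofFinite (Ω ≃ₐ[K] Ω)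
  have two : ∀ c ∈ (Kv W₁.Ψ₂Sq W₂.Ψ₂Sq).cyc K Ω, 2 • c ∈ (Kv W₁.Ψ₂Sq W₂.Ψ₂Sq).nrm K Ω := by
    intro c hc
    have h1 := glna_card (Kv W₁.Ψ₂Sq W₂.Ψ₂Sq) (K := K) (Ω := Ω) hc
    rwa [hc2] at h1
  have hoc : Finsupp.single (oo W₁.Ψ₂Sq W₂.Ψ₂Sq Ω) (1 : ℤ) ∈ (Kv W₁.Ψ₂Sq W₂.Ψ₂Sq).cyc K Ω := by
    intro γ
    rw [Finsupp.mapDomain_single]
    exact congrArg (fun q => Finsupp.single q (1 : ℤ)) (oo_act γ)
  have hR2 : R2 W₁.Ψ₂Sq W₂.Ψ₂Sq K Ω ≤ (Kv W₁.Ψ₂Sq W₂.Ψ₂Sq).ratEq K Ω ⊔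
      (Kv W₁.Ψ₂Sq W₂.Ψ₂Sq).nrm K Ω ⊔
      AddSubgroup.zmultiples (Finsupp.single (oo W₁.Ψ₂Sq W₂.Ψ₂Sq Ω) 1) := by
    refine sup_le (sup_le ?_ ?_) le_sup_right
    · exact fun c hc => AddSubgroup.mem_sup_left (AddSubgroup.mem_sup_left hc)
    · rintro _ ⟨c, hc, rfl⟩
      exact AddSubgroup.mem_sup_left (AddSubgroup.mem_sup_right (two c hc))
  have key : ∀ p : (Kv W₁.Ψ₂Sq W₂.Ψ₂Sq).pt Ω, tq (Ω ≃ₐ[K] Ω) p ∈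
      (Kv W₁.Ψ₂Sq W₂.Ψ₂Sq).ratEq K Ω ⊔ (Kv W₁.Ψ₂Sq W₂.Ψ₂Sq).nrm K Ω ⊔
      AddSubgroup.zmultiples (Finsupp.single (oo W₁.Ψ₂Sq W₂.Ψ₂Sq Ω) 1) := by
    intro p
    by_cases hp : σ • p = p
    · have htp : Tp W₁.Ψ₂Sq W₂.Ψ₂Sq K p := by
        rcases kp_or p with hb | ⟨x, y, w, hs, rfl⟩
        · exact bad_tp hb
        · have hfix : ∀ γ : Ω ≃ₐ[K] Ω, γ x = x ∧ γ y = y ∧ γ w = w := by
            intro γ
            refine (kp_fix γ hs).1 ?_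
            rcases hσ' γ with h1 | h1
            · rw [h1]
              exact one_smul _ _
            · rw [h1]
              exact hp
          exact hT x y w hs hfix
      exact hR2 htp
    · have hst : MulAction.stabilizer (Ω ≃ₐ[K] Ω) p = ⊥ := by
        rw [eq_bot_iff]
        intro γ hγ
        rcases hσ' γ with h1 | h1
        · exact Subgroup.mem_bot.2 h1
        · rw [h1] at hγ
          exact absurd hγ hp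
      rw [tq, hst, rl_bot]
      exact AddSubgroup.mem_sup_left (AddSubgroup.mem_sup_right
        (glna_sum (Kv W₁.Ψ₂Sq W₂.Ψ₂Sq) (K := K) (Ω := Ω) (Finsupp.single p 1)))
  have hall : z ∈ (Kv W₁.Ψ₂Sq W₂.Ψ₂Sq).ratEq K Ω ⊔ (Kv W₁.Ψ₂Sq W₂.Ψ₂Sq).nrm K Ω ⊔
      AddSubgroup.zmultiples (Finsupp.single (oo W₁.Ψ₂Sq W₂.Ψ₂Sq Ω) 1) := by
    have h1 := inv_gen (Γ := Ω ≃ₐ[K] Ω) (X := (Kv W₁.Ψ₂Sq W₂.Ψ₂Sq).pt Ω)
      (fun x => inferInstance) (z := z) (fun γ => hz.1 γ)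
    refine (AddSubgroup.closure_le _).2 ?_ h1
    rintro _ ⟨x, rfl⟩
    exact key x
  obtain ⟨u, hu, v, hv, huv⟩ := AddSubgroup.mem_sup.1 hall
  obtain ⟨r, hr, n, hn, hrn⟩ := AddSubgroup.mem_sup.1 hu
  obtain ⟨k, rfl⟩ := AddSubgroup.mem_zmultiples_iff.1 hv
  have hone : ∀ q : (Kv W₁.Ψ₂Sq W₂.Ψ₂Sq).pt Ω,
      (Kv W₁.Ψ₂Sq W₂.Ψ₂Sq).deg Ω (Finsupp.single q 1) = 1 := by
    intro q
    simp [Vr.deg]
  have hdn' : ∀ n' ∈ (Kv W₁.Ψ₂Sq W₂.Ψ₂Sq).nrm K Ω,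
      Even ((Kv W₁.Ψ₂Sq W₂.Ψ₂Sq).deg Ω n') := by
    intro n' hn'
    unfold Vr.nrm at hn'
    induction hn' using AddSubgroup.closure_induction with
    | mem a ha =>
      obtain ⟨q, rfl⟩ := ha
      rw [finsum_eq_sum_of_fintype, map_sum, Finset.sum_congr rfl fun γ _ => hone _,
        Finset.sum_const, Finset.card_univ, ← Nat.card_eq_fintype_card, hc2]
      exact ⟨1, by norm_num⟩
    | zero => rw [map_zero]; exact Even.zero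
    | add a b _ _ ha hb => rw [map_add]; exact ha.add hb
    | neg a _ ha => rw [map_neg]; exact ha.neg
  have hdn : Even ((Kv W₁.Ψ₂Sq W₂.Ψ₂Sq).deg Ω n) := hdn' n hn
  have hdz : (Kv W₁.Ψ₂Sq W₂.Ψ₂Sq).deg Ω z = 0 := hz.2
  have hdr : (Kv W₁.Ψ₂Sq W₂.Ψ₂Sq).deg Ω r = 0 := ratEq_deg _ hr
  have hk : Even k := by
    rw [← huv, ← hrn, map_add, map_add, map_zsmul, hone, hdr, zero_add, smul_eq_mul, mul_one] at hdz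
    have h1 : k = -((Kv W₁.Ψ₂Sq W₂.Ψ₂Sq).deg Ω n) := by omega
    rw [h1]
    exact hdn.neg
  obtain ⟨j, rfl⟩ := hk
  have h2 : (j + j) • Finsupp.single (oo W₁.Ψ₂Sq W₂.Ψ₂Sq Ω) (1 : ℤ) =
      j • (2 • Finsupp.single (oo W₁.Ψ₂Sq W₂.Ψ₂Sq Ω) (1 : ℤ)) := by
    rw [add_smul, two_nsmul, smul_add]
  rw [← huv, ← hrn, h2]
  exact add_mem (add_mem (AddSubgroup.mem_sup_left hr) (AddSubgroup.mem_sup_right hn))
    (AddSubgroup.mem_sup_right (zsmul_mem (two _ hoc) j))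

theorem rl_all (e : K ≃+* ℝ) (h : e (algebraMap F K W₁.Δ) < 0 ∨ e (algebraMap F K W₂.Δ) < 0)
    {z : (Kv W₁.Ψ₂Sq W₂.Ψ₂Sq).pt Ω →₀ ℤ} (hz : z ∈ (Kv W₁.Ψ₂Sq W₂.Ψ₂Sq).D0 K Ω) :
    z ∈ (Kv W₁.Ψ₂Sq W₂.Ψ₂Sq).ratEq K Ω ⊔ (Kv W₁.Ψ₂Sq W₂.Ψ₂Sq).nrm K Ω :=
  rl_allT e (fun _ _ _ hs hfix => h.elim (fun h1 => rl_x e h1 hs hfix) fun h1 =>
    rl_y e h1 hs hfix) hz

end PE
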