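import Pool.Agent.Lib.MP_f80667_ag.Pe.Kg
import Pool.Agent.Lib.MP_f80667_ag.Pe.GloC
import Pool.Agent.Lib.MP_f80667_ag.Pe.GlE

/-! Kummer surfaces over `ℚ`: all primes `l > L`. -/

open ZC BE Polynomial IntermediateField IsDedekindDomain NumberField

namespace PE

/-- The conditions on two integral equations and a bound `L`. -/
structure OkL (L : ℕ) (A B : WeierstrassCurve ℤ) : Prop where
  d₁ : A.Δ ≠ 0
  d₂ : B.Δ ≠ 0
  p₁ : ∀ p : ℕ, p.Prime → ¬ ((p ^ (L + 1) : ℕ) : ℤ) ∣ A.Δ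
  p₂ : ∀ p : ℕ, p.Prime → ¬ ((p ^ (L + 1) : ℕ) : ℤ) ∣ B.Δ
  sq : ∀ p : ℕ, p.Prime → L < p → ¬ ((p ^ 2 : ℕ) : ℤ) ∣ A.Δ * B.Δ

section val

variable {v : HeightOneSpectrum (𝓞 ℚ)} {p : ℕ}

theorem ul_iv (v : HeightOneSpectrum (𝓞 ℚ)) (A : WeierstrassCurve ℤ) : Iv v (toQ A) := by
  have h : ∀ n : ℤ, v.valuation ℚ (n : ℚ) ≤ 1 := by
    intro n
    have h : (n : ℚ) = algebraMap (𝓞 ℚ) ℚ (n : 𝓞 ℚ) := (map_intCast _ n).symm
    rw [h]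
    exact v.valuation_le_one _
  exact ⟨h A.a₁, h A.a₂, h A.a₃, h A.a₄, h A.a₆⟩

theorem ul_int (v : HeightOneSpectrum (𝓞 ℚ)) (n : ℤ) : v.valuation ℚ (n : ℚ) ≤ 1 := by
  have h : (n : ℚ) = algebraMap (𝓞 ℚ) ℚ (n : 𝓞 ℚ) := (map_intCast _ n).symm
  rw [h]
  exact v.valuation_le_one _

theorem ul_val (hp : p.Prime) (hp1 : v.valuation ℚ (p : ℚ) = WithZero.exp (-1 : ℤ))
    (hpn : ∀ n : ℤ, v.valuation ℚ (n : ℚ) = 1 ↔ ¬ (p : ℤ) ∣ n) {n : ℤ} (hn : n ≠ 0) :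
    ∃ a : ℕ, v.valuation ℚ (n : ℚ) = WithZero.exp (-(a : ℤ)) ∧ ((p ^ a : ℕ) : ℤ) ∣ n := by
  have hf : FiniteMultiplicity (p : ℤ) n := by
    refine Int.finiteMultiplicity_iff.2 ⟨?_, hn⟩
    rw [Int.natAbs_natCast]
    exact hp.one_lt.ne'
  obtain ⟨c, hc, hpc⟩ := hf.exists_eq_pow_mul_and_not_dvd
  refine ⟨multiplicity (p : ℤ) n, ?_, ?_⟩
  · have h1 : (n : ℚ) = (p : ℚ) ^ (multiplicity (p : ℤ) n) * (c : ℚ) := by
      exact_mod_cast hc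
    rw [h1, map_mul, map_pow, hp1, (hpn c).2 hpc, mul_one, ← WithZero.exp_nsmul]
    congr 1
    simp
  · rw [Nat.cast_pow]
    exact pow_multiplicity_dvd _ _

/-- The `j`-invariant of an integral equation. -/
theorem ul_j {A : WeierstrassCurve ℤ} [(toQ A).IsElliptic] (hA : A.Δ ≠ 0) (hp : p.Prime)
    (hp1 : v.valuation ℚ (p : ℚ) = WithZero.exp (-1 : ℤ))
    (hpn : ∀ n : ℤ, v.valuation ℚ (n : ℚ) = 1 ↔ ¬ (p : ℤ) ∣ n) {n : ℕ}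
    (h : v.valuation ℚ (toQ A).j = WithZero.exp (n : ℤ)) : ((p ^ n : ℕ) : ℤ) ∣ A.Δ := by
  obtain ⟨a, ha, hd⟩ := ul_val hp hp1 hpn hA
  have h1 : (toQ A).j * (toQ A).Δ = (toQ A).c₄ ^ 3 := by
    rw [WeierstrassCurve.j, ← (toQ A).coe_Δ']
    rw [mul_comm, ← mul_assoc, Units.mul_inv, one_mul]
  have h2 : (toQ A).c₄ = (A.c₄ : ℚ) := by
    unfold toQ
    rw [WeierstrassCurve.baseChange, WeierstrassCurve.map_c₄]
    rfl
  have h3 : v.valuation ℚ ((toQ A).c₄ ^ 3) ≤ 1 := by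
    rw [h2, map_pow]
    exact pow_le_one' (ul_int v _) 3
  rw [← h1, map_mul, h, disc_toQ, ha, ← WithZero.exp_add, ← WithZero.exp_zero,
    WithZero.exp_le_exp] at h3
  have h4 : n ≤ a := by omega
  have h5 : ((p ^ n : ℕ) : ℤ) ∣ ((p ^ a : ℕ) : ℤ) := by
    exact_mod_cast pow_dvd_pow p h4
  exact h5.trans hd

theorem ul_jv {A : WeierstrassCurve ℤ} [(toQ A).IsElliptic] (hA : A.Δ ≠ 0) (hp : p.Prime)
    (hp1 : v.valuation ℚ (p : ℚ) = WithZero.exp (-1 : ℤ))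
    (hpn : ∀ n : ℤ, v.valuation ℚ (n : ℚ) = 1 ↔ ¬ (p : ℤ) ∣ n) {L l : ℕ} (hl : L < l)
    (h : ¬ ((p ^ (L + 1) : ℕ) : ℤ) ∣ A.Δ) : Jv l v (toQ A) := by
  intro n hn hd
  by_contra h0
  push Not at h0
  obtain ⟨m, rfl⟩ := Int.eq_ofNat_of_zero_le h0.le
  have h1 := ul_j hA hp hp1 hpn hn
  have h2 : l ∣ m := by exact_mod_cast hd
  have h3 : L + 1 ≤ m := hl.trans_le (Nat.le_of_dvd (by exact_mod_cast h0) h2)
  refine h (dvd_trans ?_ h1)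
  exact_mod_cast pow_dvd_pow p h3

/-- The local conditions above `l`. -/
theorem ul_lv {A B : WeierstrassCurve ℤ} (h2 : p ≠ 2) (hp : p.Prime)
    (hp1 : v.valuation ℚ (p : ℚ) = WithZero.exp (-1 : ℤ))
    (hpn : ∀ n : ℤ, v.valuation ℚ (n : ℚ) = 1 ↔ ¬ (p : ℤ) ∣ n)
    (hA : A.Δ ≠ 0) (h : ¬ ((p ^ 2 : ℕ) : ℤ) ∣ A.Δ * B.Δ) (hB : ¬ (p : ℤ) ∣ B.Δ) :
    Lv (toQ A) (toQ B) v where
  unr := ⟨p, hp, hp1⟩
  i₁ := ul_iv v A
  i₂ := ul_iv v B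
  d₁ := by
    rw [disc_toQ]
    obtain ⟨a, ha, hd⟩ := ul_val hp hp1 hpn hA
    rw [ha, WithZero.exp_le_exp]
    by_contra h3
    have h4 : 2 ≤ a := by omega
    refine h (Dvd.dvd.mul_right (dvd_trans ?_ hd) _)
    exact_mod_cast pow_dvd_pow p h4
  d₂ := by
    rw [disc_toQ]
    exact (hpn _).2 hB
  ss := by
    intro h3
    exfalso
    have h4 : v.valuation ℚ ((2 : ℤ) : ℚ) = 1 := by
      rw [hpn]
      intro h5
      have h6 : p ∣ 2 := by exact_mod_cast h5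
      exact h2 ((Nat.prime_dvd_prime_iff_eq hp Nat.prime_two).1 h6)
    push_cast at h4
    rw [h4] at h3
    exact lt_irrefl _ h3

end val

/-- All the local conditions. -/
theorem ul_gl {A B : WeierstrassCurve ℤ} [(toQ A).IsElliptic] [(toQ B).IsElliptic] {L : ℕ}
    (hL : 4 ≤ L) (h : OkL L A B) {l : ℕ} (hl : l.Prime) (hLl : L < l) : Gl (toQ A) (toQ B) l where
  pr := hl
  le := by omega
  ab := by
    intro v hv
    obtain ⟨p, hp, hp1, hpn⟩ := exists_p v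
    have h1 : p = l := by
      by_contra h2
      have h3 : v.valuation ℚ ((l : ℤ) : ℚ) = 1 := by
        rw [hpn]
        intro h5
        have h6 : p ∣ l := by exact_mod_cast h5
        exact h2 ((Nat.prime_dvd_prime_iff_eq hp hl).1 h6)
      rw [Int.cast_natCast] at h3
      rw [h3] at hv
      exact lt_irrefl _ hv
    subst h1
    have h2 := h.sq p hp hLl
    by_cases h3 : (p : ℤ) ∣ B.Δ
    · refine Or.inr (ul_lv (by omega) hp hp1 hpn h.d₂ (by rwa [mul_comm]) ?_)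
      intro h4
      refine h2 ?_
      rw [Nat.cast_pow, sq]
      exact mul_dvd_mul h4 h3
    · exact Or.inl (ul_lv (by omega) hp hp1 hpn h.d₁ h2 h3)
  j₁ := by
    intro v _
    obtain ⟨p, hp, hp1, hpn⟩ := exists_p v
    exact ul_jv h.d₁ hp hp1 hpn hLl (h.p₁ p hp)
  j₂ := by
    intro v _
    obtain ⟨p, hp, hp1, hpn⟩ := exists_p v
    exact ul_jv h.d₂ hp hp1 hpn hLl (h.p₂ p hp)

/-- **Kummer surfaces over `ℚ`, all primes `l > L`.** -/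
theorem main_KL {A B : WeierstrassCurve ℤ} {L : ℕ} (hL : 4 ≤ L) (h : OkL L A B) :
    (∀ m : ℕ, m ≠ 0 → Sf {l | L < l} m → ∀ c : Fam (Kv (toQ A).Ψ₂Sq (toQ B).Ψ₂Sq),
      ∃ c' : Fam (Kv (toQ A).Ψ₂Sq (toQ B).Ψ₂Sq), c.cl = m • c'.cl) ∧
    ∀ z : LHat (FA (Kv (toQ A).Ψ₂Sq (toQ B).Ψ₂Sq)), ImDeS {l | L < l} z := by
  have hA : (toQ A).IsElliptic := ell_toQ h.d₁
  have hB : (toQ B).IsElliptic := ell_toQ h.d₂
  obtain ⟨h1, h2⟩ := main_Ku (toQ A) (toQ B) {l | l.Prime ∧ L < l} fun l hl =>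
    ul_gl hL h hl.1 hl.2
  have h3 : ∀ m : ℕ, Sf {l | L < l} m → Sf {l | l.Prime ∧ L < l} m :=
    fun m hm l hl hd => ⟨hl, hm l hl hd⟩
  refine ⟨fun m hm hS => h1 m hm (h3 m hS), fun z => ?_⟩
  obtain ⟨x, hx⟩ := h2 z
  exact ⟨x, fun m hm => hx m (h3 m hm)⟩

end PE
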