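import Pool.Agent.Lib.MP_f80667_ag.Kf.Ul
import Pool.Agent.Lib.MP_f80667_ag.Kf.Dte

/-! Kummer surfaces over `ℚ`: all primes `l > L` for `(1 - ε)` of all pairs. -/

open ZC BE Polynomial IntermediateField IsDedekindDomain NumberField

namespace PE

theorem DtG.okL {L : ℕ} {A B : WeierstrassCurve ℤ} (h : DtG L A B) : OkL L A B where
  d₁ := fun h0 => (h.lo 2 Nat.prime_two).1 (h0 ▸ dvd_zero _)
  d₂ := fun h0 => (h.lo 2 Nat.prime_two).2 (h0 ▸ dvd_zero _)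
  p₁ := fun p hp h1 => (h.lo p hp).1 (dvd_trans (by
    rw [Nat.cast_pow]
    exact pow_dvd_pow _ (Nat.le_succ L)) h1)
  p₂ := fun p hp h1 => (h.lo p hp).2 (dvd_trans (by
    rw [Nat.cast_pow]
    exact pow_dvd_pow _ (Nat.le_succ L)) h1)
  sq := fun p hp hL h1 => h.hi p hp hL (by rwa [Nat.cast_pow] at h1)

/-- **Kummer surfaces over `ℚ`, density.** -/
theorem main_Kd {ε : ℝ} (hε : 0 < ε) : ∃ L : ℕ, ∃ n₀ : ℕ, ∀ n ≥ n₀,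
    (1 - ε) * ((Eqs n).ncard : ℝ) ^ 2 ≤
      ({w : WeierstrassCurve ℤ × WeierstrassCurve ℤ | w.1 ∈ Eqs n ∧ w.2 ∈ Eqs n ∧
        (∀ m : ℕ, m ≠ 0 → Sf {l | L < l} m → ∀ c : Fam (Kv (toQ w.1).Ψ₂Sq (toQ w.2).Ψ₂Sq),
          ∃ c' : Fam (Kv (toQ w.1).Ψ₂Sq (toQ w.2).Ψ₂Sq), c.cl = m • c'.cl) ∧
        ∀ z : LHat (FA (Kv (toQ w.1).Ψ₂Sq (toQ w.2).Ψ₂Sq)), ImDeS {l | L < l} z}.ncard : ℝ) := by
  obtain ⟨L, hL, n₀, h⟩ := dtG_dens hε 4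
  refine ⟨L, n₀ + 1, fun n hn => (h n (by omega)).trans ?_⟩
  obtain ⟨hf, -⟩ := eqs_le (n := n) (by omega)
  exact Nat.cast_le.2 (Set.ncard_le_ncard (fun w hw => ⟨hw.1, hw.2.1, main_KL hL hw.2.2.okL⟩)
    ((hf.prod hf).subset fun w hw => ⟨hw.1, hw.2.1⟩))

end PE
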